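import Pool.Agent.Rig71.Statement

/-!
# MP_71b0e8_gt : the definitions of the final statement

The same definitions as in `Statement.lean`, in a form which prints shortly: the tangent space
`T_pM` of a manifold modelled on `E = ℝ³` is in Mathlib by definition the vector space `E`, so the
metric at `p` is a bilinear form on `E`, and the differential of a map `E → M` is a linear map
`E → E`.
-/

open scoped ContDiff Manifold
open MeasureTheory Set YR

noncomputable section

namespace Rig71

variable {M : Type*} [TopologicalSpace M] [ChartedSpace E M] [IsManifold (𝓡 3) ∞ M]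

/-- the metric `g` at the point `p` -/
def form (g : RMet M) (p : M) : E →L[ℝ] E →L[ℝ] ℝ := g.inner p

/-- the differential of the inverse of the chart `φ` at the point `z` -/
def dinv (φ : OpenPartialHomeomorph M E) (z : E) : E →L[ℝ] E := mfderiv (𝓡 3) (𝓡 3) φ.symm z

/-- the matrix `g(∂_a, ∂_b)` of the metric `g` in the chart `φ` -/
def gmat (g : RMet M) (φ : OpenPartialHomeomorph M E) (z : E) : Mat :=
  Matrix.of fun a b => form g (φ.symm z) (dinv φ z (be a)) (dinv φ z (be b))

/-- scalar curvature -/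
def scalR (g : RMet M) (p : M) : ℝ := scal (gmat g (chartAt E p)) (chartAt E p p)

/-- `σ₁(g) = R/4` -/
def sigma1 (g : RMet M) (p : M) : ℝ := scalR g p / 4

/-- `σ₂(g) = (-|Ric|² + (3/8) R²)/2` -/
def sigma2 (g : RMet M) (p : M) : ℝ := sig2 (gmat g (chartAt E p)) (chartAt E p p)

/-- `h = e^{-2u} g` for a smooth function `u` -/
def ConfTo (g h : RMet M) : Prop :=
  ∃ u : M → ℝ, ContMDiff (𝓡 3) 𝓘(ℝ, ℝ) ∞ u ∧ ∀ (p : M) (X Y : E),
    form h p X Y = Real.exp (-2 * u p) * form g p X Y

/-- `μ` is the Riemannian measure of `g`: in each chart it is `√det g dx` -/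
def IsVol [MeasurableSpace M] (g : RMet M) (μ : Measure M) : Prop :=
  ∀ x : M, μ.restrict (chartAt E x).source = Measure.map (chartAt E x).symm
    ((volume.restrict (chartAt E x).target).withDensity
      fun z => ENNReal.ofReal (√(gmat g (chartAt E x) z).det))

/-- `𝓔(g) = vol ∫ σ₂ / (∫ σ₁)²` -/
def Efun [MeasurableSpace M] (g : RMet M) (μ : Measure M) : ℝ :=
  μ.real univ * (∫ p, sigma2 g p ∂μ) / (∫ p, sigma1 g p ∂μ) ^ 2

/-- `Ỹ([g₀])`: the supremum of `𝓔(g)` over the metrics `g = e^{-2u} g₀` with `σ₁(g) > 0` -/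
def Ytilde [MeasurableSpace M] (g₀ : RMet M) : ℝ :=
  sSup {e | ∃ (g : RMet M) (μ : Measure M), ConfTo g₀ g ∧ (∀ p, 0 < sigma1 g p) ∧ IsVol g μ ∧
    e = Efun g μ}

/-- constant sectional curvature `1`: `R^k_{l ab} = δ^k_a g_{bl} - δ^k_b g_{al}` -/
def CurvOne (g : RMet M) : Prop :=
  ∀ (p : M) (k l a b : Fin 3), riem (gmat g (chartAt E p)) k l a b (chartAt E p p) =
    (if k = a then gmat g (chartAt E p) (chartAt E p p) b l else 0) -
      (if k = b then gmat g (chartAt E p) (chartAt E p p) a l else 0)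

theorem gmat_eq (g : RMet M) (φ : OpenPartialHomeomorph M E) (z : E) :
    gmat g φ z = YR.gmat g φ z := rfl

theorem confTo_iff (g h : RMet M) : ConfTo g h ↔ YR.ConfTo g h := Iff.rfl

theorem ytilde_eq [MeasurableSpace M] (g₀ : RMet M) : Ytilde g₀ = YR.Ytilde g₀ := rfl

end Rig71
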