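import Pool.Agent.Rig71.Defs

/-!
GLOB0 (sections a, b; helper42): smooth functions on `M` with respect to an atlas `𝒜 : Atl M`.
-/

open scoped ContDiff Topology
open MeasureTheory Metric Set Filter

noncomputable section

namespace YR

variable {M : Type*} [TopologicalSpace M] {𝒜 : Atl M} {U V : Set M} {u v : M → ℝ} {p : M}

/-! ### GLOB0a : charts -/

/-- the part of the chart `i` over `U` -/
def Atl.dom (𝒜 : Atl M) (U : Set M) (i : Fin 𝒜.n) : Set E := {z ∈ ball (0 : E) 4 | (𝒜.φ i).symm z ∈ U}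

theorem Atl.isOpen_dom (hU : IsOpen U) (i : Fin 𝒜.n) : IsOpen (𝒜.dom U i) := by
  have h := (𝒜.φ i).symm.isOpen_inter_preimage hU
  have e : (𝒜.φ i).symm.source ∩ (𝒜.φ i).symm ⁻¹' U = 𝒜.dom U i := by
    ext z
    simp only [OpenPartialHomeomorph.symm_source, 𝒜.target_eq i, Atl.dom, mem_inter_iff,
      mem_preimage, Set.mem_ofPred_eq]
  rw [e] at h
  exact h

theorem Atl.symm_mem (i : Fin 𝒜.n) {z : E} (hz : z ∈ ball (0 : E) 4) :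
    (𝒜.φ i).symm z ∈ (𝒜.φ i).source :=
  (𝒜.φ i).map_target (by rw [𝒜.target_eq i]; exact hz)

theorem Atl.right_inv (i : Fin 𝒜.n) {z : E} (hz : z ∈ ball (0 : E) 4) :
    𝒜.φ i ((𝒜.φ i).symm z) = z :=
  (𝒜.φ i).right_inv (by rw [𝒜.target_eq i]; exact hz)

theorem Atl.map_mem (i : Fin 𝒜.n) (hp : p ∈ (𝒜.φ i).source) : 𝒜.φ i p ∈ ball (0 : E) 4 := by
  have h := (𝒜.φ i).map_source hp
  rwa [𝒜.target_eq i] at h

theorem Atl.idx_mem (p : M) : 𝒜.idx p ∈ 𝒜.good p := Finset.min'_mem _ _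

theorem Atl.idx_source (p : M) : p ∈ (𝒜.φ (𝒜.idx p)).source := by
  classical
  have h := 𝒜.idx_mem p
  unfold Atl.good at h
  rw [Finset.mem_filter] at h
  exact h.2.1

theorem Atl.idx_ball (p : M) : 𝒜.φ (𝒜.idx p) p ∈ ball (0 : E) 1 := by
  classical
  have h := 𝒜.idx_mem p
  unfold Atl.good at h
  rw [Finset.mem_filter] at h
  exact h.2.2

theorem Atl.glob_eq {F : Fin 𝒜.n → E → ℝ} (i : Fin 𝒜.n) {z : E} (hz : z ∈ ball (0 : E) 4)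
    (h : ∀ j, (𝒜.φ i).symm z ∈ (𝒜.φ j).source → F i z = F j (𝒜.tr i j z)) :
    𝒜.glob F ((𝒜.φ i).symm z) = F i z := by
  have _ := hz
  have := h (𝒜.idx ((𝒜.φ i).symm z)) (𝒜.idx_source _)
  rw [this]
  rfl

theorem Atl.rd_tr (i j : Fin 𝒜.n) {z : E} (hj : (𝒜.φ i).symm z ∈ (𝒜.φ j).source) (u : M → ℝ) :
    𝒜.rd u j (𝒜.tr i j z) = 𝒜.rd u i z := by
  unfold Atl.rd Atl.tr
  rw [(𝒜.φ j).left_inv hj]

/-- a point of `U`, in a chart -/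
theorem Atl.exists_chart (p : M) : ∃ i, ∃ z ∈ ball (0 : E) 1, (𝒜.φ i).symm z = p :=
  ⟨𝒜.idx p, 𝒜.φ (𝒜.idx p) p, 𝒜.idx_ball p, (𝒜.φ _).left_inv (𝒜.idx_source p)⟩

/-! ### GLOB0b : algebra of smooth functions -/

theorem Atl.smOn_univ : 𝒜.SmOn univ u ↔ 𝒜.Sm u := by
  have e : ∀ i : Fin 𝒜.n, {z ∈ ball (0 : E) 4 | (𝒜.φ i).symm z ∈ (univ : Set M)} =
      ball (0 : E) 4 := fun i => by ext z; simp
  unfold Atl.SmOn Atl.Sm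
  simp only [e]

theorem Atl.Sm.on (h : 𝒜.Sm u) (U : Set M) : 𝒜.SmOn U u := fun i =>
  (h i).mono fun _ hz => hz.1

theorem Atl.SmOn.mono (h : 𝒜.SmOn U u) (hV : V ⊆ U) : 𝒜.SmOn V u := fun i =>
  (h i).mono fun _ hz => ⟨hz.1, hV hz.2⟩

theorem Atl.SmOn.congr (h : 𝒜.SmOn U u) (huv : EqOn u v U) : 𝒜.SmOn U v := fun i =>
  (h i).congr fun _ hz => (huv hz.2).symm

/-- smoothness is local -/
theorem Atl.smOn_of_local (h : ∀ p ∈ U, ∃ V, IsOpen V ∧ p ∈ V ∧ 𝒜.SmOn V u) : 𝒜.SmOn U u := by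
  intro i z hz
  obtain ⟨V, hV, hpV, hs⟩ := h _ hz.2
  have hd : 𝒜.dom V i ∈ 𝓝 z := (𝒜.isOpen_dom hV i).mem_nhds ⟨hz.1, hpV⟩
  exact ((hs i).contDiffAt hd).contDiffWithinAt

/-- smoothness can be tested in one chart -/
theorem Atl.smOn_of_chart (i : Fin 𝒜.n) (hU : IsOpen U) (h : U ⊆ (𝒜.φ i).source)
    (hu : ContDiffOn ℝ ∞ (𝒜.rd u i) (𝒜.dom U i)) : 𝒜.SmOn U u := by
  have _ := hU
  intro j
  have h1 : ContDiffOn ℝ ∞ (𝒜.tr j i) {z ∈ ball (0 : E) 4 | (𝒜.φ j).symm z ∈ U} :=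
    (𝒜.smooth j i).mono fun z hz => ⟨hz.1, h hz.2⟩
  have hm : MapsTo (𝒜.tr j i) {z ∈ ball (0 : E) 4 | (𝒜.φ j).symm z ∈ U} (𝒜.dom U i) := by
    intro z hz
    refine ⟨𝒜.map_mem i (h hz.2), ?_⟩
    have : (𝒜.φ i).symm (𝒜.tr j i z) = (𝒜.φ j).symm z := (𝒜.φ i).left_inv (h hz.2)
    rw [this]
    exact hz.2
  refine (hu.comp h1 hm).congr fun z hz => ?_
  exact (𝒜.rd_tr j i (h hz.2) u).symm

theorem Atl.SmOn.continuousOn (h : 𝒜.SmOn U u) (hU : IsOpen U) : ContinuousOn u U := by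
  intro p hp
  obtain ⟨i, hi⟩ : ∃ i, i = 𝒜.idx p := ⟨_, rfl⟩
  have hs : p ∈ (𝒜.φ i).source := hi ▸ 𝒜.idx_source p
  have hz : 𝒜.φ i p ∈ ball (0 : E) 4 := 𝒜.map_mem i hs
  have hzU : (𝒜.φ i).symm (𝒜.φ i p) = p := (𝒜.φ i).left_inv hs
  have hd : 𝒜.dom U i ∈ 𝓝 (𝒜.φ i p) :=
    (𝒜.isOpen_dom hU i).mem_nhds ⟨hz, by rw [hzU]; exact hp⟩
  have hc : ContinuousAt (𝒜.rd u i) (𝒜.φ i p) := ((h i).contDiffAt hd).continuousAt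
  have hφ : ContinuousAt (𝒜.φ i) p := (𝒜.φ i).continuousAt hs
  have hcc : ContinuousAt (𝒜.rd u i ∘ 𝒜.φ i) p := hc.comp hφ
  refine (hcc.congr ?_).continuousWithinAt
  filter_upwards [(𝒜.φ i).open_source.mem_nhds hs] with q hq
  show u ((𝒜.φ i).symm (𝒜.φ i q)) = u q
  rw [(𝒜.φ i).left_inv hq]

theorem Atl.Sm.continuous (h : 𝒜.Sm u) : Continuous u := by
  rw [← continuousOn_univ]
  exact (Atl.smOn_univ.2 h).continuousOn isOpen_univ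

theorem Atl.SmOn.const (c : ℝ) : 𝒜.SmOn U fun _ => c := fun _ => contDiffOn_const

theorem Atl.SmOn.add (hu : 𝒜.SmOn U u) (hv : 𝒜.SmOn U v) : 𝒜.SmOn U fun p => u p + v p :=
  fun i => (hu i).add (hv i)

theorem Atl.SmOn.sub (hu : 𝒜.SmOn U u) (hv : 𝒜.SmOn U v) : 𝒜.SmOn U fun p => u p - v p :=
  fun i => (hu i).sub (hv i)

theorem Atl.SmOn.neg (hu : 𝒜.SmOn U u) : 𝒜.SmOn U fun p => -u p := fun i => (hu i).neg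

theorem Atl.SmOn.mul (hu : 𝒜.SmOn U u) (hv : 𝒜.SmOn U v) : 𝒜.SmOn U fun p => u p * v p :=
  fun i => (hu i).mul (hv i)

theorem Atl.SmOn.pow (hu : 𝒜.SmOn U u) (n : ℕ) : 𝒜.SmOn U fun p => u p ^ n :=
  fun i => (hu i).pow n

theorem Atl.SmOn.sum {ι : Type*} {s : Finset ι} {f : ι → M → ℝ} (h : ∀ i ∈ s, 𝒜.SmOn U (f i)) :
    𝒜.SmOn U fun p => ∑ i ∈ s, f i p := fun j => by
  have : ContDiffOn ℝ ∞ (fun z => ∑ i ∈ s, 𝒜.rd (f i) j z)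
      {z ∈ ball (0 : E) 4 | (𝒜.φ j).symm z ∈ U} := ContDiffOn.sum fun i hi => h i hi j
  exact this

theorem Atl.SmOn.comp {F : ℝ → ℝ} {S : Set ℝ} (hF : ContDiffOn ℝ ∞ F S) (hu : 𝒜.SmOn U u)
    (hm : ∀ p ∈ U, u p ∈ S) : 𝒜.SmOn U fun p => F (u p) := fun i =>
  ContDiffOn.comp hF (hu i) fun _ hz => hm _ hz.2

theorem Atl.SmOn.div (hu : 𝒜.SmOn U u) (hv : 𝒜.SmOn U v) (h0 : ∀ p ∈ U, v p ≠ 0) :
    𝒜.SmOn U fun p => u p / v p := fun i => (hu i).div (hv i) fun _ hz => h0 _ hz.2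

theorem Atl.SmOn.rpow (hu : 𝒜.SmOn U u) (h0 : ∀ p ∈ U, 0 < u p) (r : ℝ) :
    𝒜.SmOn U fun p => u p ^ r := fun i =>
  ContDiffOn.rpow_const_of_ne (hu i) fun _ hz => (h0 _ hz.2).ne'

theorem Atl.SmOn.sqrt (hu : 𝒜.SmOn U u) (h0 : ∀ p ∈ U, 0 < u p) :
    𝒜.SmOn U fun p => √(u p) := fun i =>
  ContDiffOn.sqrt (hu i) fun _ hz => (h0 _ hz.2).ne'

theorem Atl.SmOn.log (hu : 𝒜.SmOn U u) (h0 : ∀ p ∈ U, 0 < u p) :
    𝒜.SmOn U fun p => Real.log (u p) := fun i =>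
  ContDiffOn.log (hu i) fun _ hz => (h0 _ hz.2).ne'

theorem Atl.SmOn.exp (hu : 𝒜.SmOn U u) : 𝒜.SmOn U fun p => Real.exp (u p) := fun i =>
  ContDiffOn.exp (hu i)

theorem Atl.Sm.const (c : ℝ) : 𝒜.Sm fun _ => c := fun _ => contDiffOn_const

theorem Atl.Sm.add (hu : 𝒜.Sm u) (hv : 𝒜.Sm v) : 𝒜.Sm fun p => u p + v p :=
  fun i => (hu i).add (hv i)

theorem Atl.Sm.sub (hu : 𝒜.Sm u) (hv : 𝒜.Sm v) : 𝒜.Sm fun p => u p - v p :=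
  fun i => (hu i).sub (hv i)

theorem Atl.Sm.neg (hu : 𝒜.Sm u) : 𝒜.Sm fun p => -u p := fun i => (hu i).neg

theorem Atl.Sm.mul (hu : 𝒜.Sm u) (hv : 𝒜.Sm v) : 𝒜.Sm fun p => u p * v p :=
  fun i => (hu i).mul (hv i)

theorem Atl.Sm.pow (hu : 𝒜.Sm u) (n : ℕ) : 𝒜.Sm fun p => u p ^ n := fun i => (hu i).pow n

theorem Atl.Sm.sum {ι : Type*} {s : Finset ι} {f : ι → M → ℝ} (h : ∀ i ∈ s, 𝒜.Sm (f i)) :
    𝒜.Sm fun p => ∑ i ∈ s, f i p :=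
  Atl.smOn_univ.1 (Atl.SmOn.sum fun i hi => Atl.smOn_univ.2 (h i hi))

theorem Atl.Sm.comp {F : ℝ → ℝ} {S : Set ℝ} (hF : ContDiffOn ℝ ∞ F S) (hu : 𝒜.Sm u)
    (hm : ∀ p, u p ∈ S) : 𝒜.Sm fun p => F (u p) :=
  Atl.smOn_univ.1 (Atl.SmOn.comp hF (Atl.smOn_univ.2 hu) fun p _ => hm p)

theorem Atl.Sm.div (hu : 𝒜.Sm u) (hv : 𝒜.Sm v) (h0 : ∀ p, v p ≠ 0) :
    𝒜.Sm fun p => u p / v p :=
  Atl.smOn_univ.1 ((Atl.smOn_univ.2 hu).div (Atl.smOn_univ.2 hv) fun p _ => h0 p)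

theorem Atl.Sm.rpow (hu : 𝒜.Sm u) (h0 : ∀ p, 0 < u p) (r : ℝ) : 𝒜.Sm fun p => u p ^ r :=
  Atl.smOn_univ.1 ((Atl.smOn_univ.2 hu).rpow (fun p _ => h0 p) r)

theorem Atl.Sm.log (hu : 𝒜.Sm u) (h0 : ∀ p, 0 < u p) : 𝒜.Sm fun p => Real.log (u p) :=
  Atl.smOn_univ.1 ((Atl.smOn_univ.2 hu).log fun p _ => h0 p)

theorem Atl.Sm.exp (hu : 𝒜.Sm u) : 𝒜.Sm fun p => Real.exp (u p) :=
  Atl.smOn_univ.1 (Atl.smOn_univ.2 hu).exp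

end YR
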