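import Pool.Agent.Rig71.Glob0

/-!
GLOB0 (section c and `mul_on`; helper27): functions supported in a chart, bump functions,
partitions of unity.
-/

open scoped ContDiff Topology
open MeasureTheory Metric Set Filter

noncomputable section

namespace YR

variable {M : Type*} [TopologicalSpace M] {𝒜 : Atl M} {U V : Set M} {u v : M → ℝ} {p : M}

/-- cut off: `χ u` is smooth on `M` if `u` is smooth on `U` and `supp χ ⊆ U` -/
theorem Atl.Sm.mul_on {χ : M → ℝ} (hχ : 𝒜.Sm χ) (hU : IsOpen U) (hs : tsupport χ ⊆ U)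
    (hu : 𝒜.SmOn U u) : 𝒜.Sm fun p => χ p * u p := by
  rw [← Atl.smOn_univ]
  refine Atl.smOn_of_local fun p _ => ?_
  by_cases hp : p ∈ U
  · exact ⟨U, hU, hp, (hχ.on U).mul hu⟩
  · refine ⟨(tsupport χ)ᶜ, (isClosed_tsupport χ).isOpen_compl, fun h => hp (hs h), ?_⟩
    refine (Atl.SmOn.const 0).congr fun q hq => ?_
    have : χ q = 0 := image_eq_zero_of_notMem_tsupport hq
    simp only [this, zero_mul]

/-! ### GLOB0c : functions supported in a chart, bump functions, partitions of unity -/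

open Classical in
/-- the function on `M` given by `F` in the chart `i`, and `0` outside of the chart -/
def Atl.ext (𝒜 : Atl M) (i : Fin 𝒜.n) (F : E → ℝ) (p : M) : ℝ :=
  if p ∈ (𝒜.φ i).source then F (𝒜.φ i p) else 0

theorem Atl.ext_of_mem {i : Fin 𝒜.n} {F : E → ℝ} (hp : p ∈ (𝒜.φ i).source) :
    𝒜.ext i F p = F (𝒜.φ i p) := by
  unfold Atl.ext
  rw [if_pos hp]

theorem Atl.ext_of_notMem {i : Fin 𝒜.n} {F : E → ℝ} (hp : p ∉ (𝒜.φ i).source) :
    𝒜.ext i F p = 0 := by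
  unfold Atl.ext
  rw [if_neg hp]

theorem Atl.rd_ext (i : Fin 𝒜.n) (F : E → ℝ) {z : E} (hz : z ∈ ball (0 : E) 4) :
    𝒜.rd (𝒜.ext i F) i z = F z := by
  unfold Atl.rd
  rw [Atl.ext_of_mem (𝒜.symm_mem i hz), 𝒜.right_inv i hz]

theorem Atl.continuousOn_symm (i : Fin 𝒜.n) :
    ContinuousOn (𝒜.φ i).symm (ball (0 : E) 4) := by
  have h := (𝒜.φ i).continuousOn_symm
  rwa [𝒜.target_eq i] at h

theorem isCompact_of_subset_ball {F : E → ℝ} {r : ℝ} (hs : tsupport F ⊆ ball 0 r) :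
    IsCompact (tsupport F) :=
  Metric.isCompact_of_isClosed_isBounded (isClosed_tsupport F) (isBounded_ball.subset hs)

theorem Atl.isClosed_image [T2Space M] (i : Fin 𝒜.n) {F : E → ℝ} (hs : tsupport F ⊆ ball 0 4) :
    IsClosed ((𝒜.φ i).symm '' (tsupport F)) :=
  ((isCompact_of_subset_ball hs).image_of_continuousOn
    ((𝒜.continuousOn_symm i).mono hs)).isClosed

theorem Atl.ext_eq_zero (i : Fin 𝒜.n) {F : E → ℝ} (hp : p ∉ (𝒜.φ i).symm '' (tsupport F)) :
    𝒜.ext i F p = 0 := by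
  by_cases h : p ∈ (𝒜.φ i).source
  · rw [Atl.ext_of_mem h]
    apply image_eq_zero_of_notMem_tsupport
    intro hc
    exact hp ⟨_, hc, (𝒜.φ i).left_inv h⟩
  · exact Atl.ext_of_notMem h

theorem Atl.sm_ext [T2Space M] (i : Fin 𝒜.n) {F : E → ℝ} (hF : ContDiff ℝ ∞ F)
    (hs : tsupport F ⊆ ball 0 4) : 𝒜.Sm (𝒜.ext i F) := by
  rw [← Atl.smOn_univ]
  refine Atl.smOn_of_local fun p _ => ?_
  by_cases hp : p ∈ (𝒜.φ i).source
  · refine ⟨(𝒜.φ i).source, (𝒜.φ i).open_source, hp, ?_⟩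
    refine Atl.smOn_of_chart i (𝒜.φ i).open_source subset_rfl ?_
    refine hF.contDiffOn.congr fun z hz => ?_
    exact 𝒜.rd_ext i F hz.1
  · refine ⟨((𝒜.φ i).symm '' (tsupport F))ᶜ, (𝒜.isClosed_image i hs).isOpen_compl, ?_, ?_⟩
    · rintro ⟨z, hz, rfl⟩
      exact hp (𝒜.symm_mem i (hs hz))
    · exact (Atl.SmOn.const 0).congr fun q hq => (𝒜.ext_eq_zero i hq).symm

theorem Atl.tsupport_ext [T2Space M] (i : Fin 𝒜.n) {F : E → ℝ} (hs : tsupport F ⊆ ball 0 4) :
    tsupport (𝒜.ext i F) = (𝒜.φ i).symm '' (tsupport F) := by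
  apply Set.Subset.antisymm
  · refine closure_minimal (fun p hp => ?_) (𝒜.isClosed_image i hs)
    by_contra hc
    exact hp (𝒜.ext_eq_zero i hc)
  · rintro _ ⟨z, hz, rfl⟩
    have hz4 : z ∈ ball (0 : E) 4 := hs hz
    have hc : ContinuousAt (𝒜.φ i).symm z :=
      (𝒜.continuousOn_symm i).continuousAt (isOpen_ball.mem_nhds hz4)
    have h1 : (𝒜.φ i).symm z ∈ closure ((𝒜.φ i).symm '' (Function.support F)) :=
      mem_closure_image hc hz
    -- only the points of the support inside the ball matter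
    refine closure_mono ?_ h1
    rintro _ ⟨y, hy, rfl⟩
    have hy4 : y ∈ ball (0 : E) 4 := hs (subset_tsupport F hy)
    rw [Function.mem_support, Atl.ext_of_mem (𝒜.symm_mem i hy4), 𝒜.right_inv i hy4]
    exact hy

/-- a smooth function supported in a chart comes from `E` -/
theorem Atl.Sm.exists_ext [T2Space M] [CompactSpace M] (hu : 𝒜.Sm u) (i : Fin 𝒜.n)
    (hs : tsupport u ⊆ (𝒜.φ i).source) :
    ∃ F : E → ℝ, ContDiff ℝ ∞ F ∧ HasCompactSupport F ∧ tsupport F ⊆ ball 0 4 ∧ u = 𝒜.ext i F := by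
  classical
  let F : E → ℝ := fun z => if z ∈ ball (0 : E) 4 then u ((𝒜.φ i).symm z) else 0
  let K : Set E := 𝒜.φ i '' (tsupport u)
  have hK : IsCompact K :=
    (isClosed_tsupport u).isCompact.image_of_continuousOn ((𝒜.φ i).continuousOn.mono hs)
  have hK4 : K ⊆ ball 0 4 := by
    rintro _ ⟨p, hp, rfl⟩
    exact 𝒜.map_mem i (hs hp)
  have hF0 : ∀ z ∉ K, F z = 0 := by
    intro z hz
    by_cases h4 : z ∈ ball (0 : E) 4
    · simp only [F, if_pos h4]
      apply image_eq_zero_of_notMem_tsupport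
      intro hc
      exact hz ⟨_, hc, 𝒜.right_inv i h4⟩
    · simp only [F, if_neg h4]
  have hsupp : tsupport F ⊆ K := by
    refine closure_minimal (fun z hz => ?_) hK.isClosed
    by_contra hc
    exact hz (hF0 z hc)
  refine ⟨F, ?_, HasCompactSupport.of_support_subset_isCompact hK
    ((subset_tsupport F).trans hsupp), hsupp.trans hK4, ?_⟩
  · rw [contDiff_iff_contDiffAt]
    intro z
    by_cases h4 : z ∈ ball (0 : E) 4
    · have h1 : ContDiffAt ℝ ∞ (𝒜.rd u i) z := (hu i).contDiffAt (isOpen_ball.mem_nhds h4)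
      refine h1.congr_of_eventuallyEq ?_
      filter_upwards [isOpen_ball.mem_nhds h4] with y hy
      simp only [F, if_pos hy, Atl.rd]
    · have h1 : ContDiffAt ℝ ∞ (fun _ : E => (0 : ℝ)) z := contDiffAt_const
      refine h1.congr_of_eventuallyEq ?_
      filter_upwards [hK.isClosed.isOpen_compl.mem_nhds (fun hc => h4 (hK4 hc))] with y hy
      exact hF0 y hy
  · funext p
    by_cases hp : p ∈ (𝒜.φ i).source
    · rw [Atl.ext_of_mem hp]
      simp only [F, if_pos (𝒜.map_mem i hp), (𝒜.φ i).left_inv hp]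
    · rw [Atl.ext_of_notMem hp]
      exact image_eq_zero_of_notMem_tsupport fun hc => hp (hs hc)

theorem Atl.exists_bump [T2Space M] [CompactSpace M] {C : Set M} (hC : IsClosed C) (hU : IsOpen U)
    (h : C ⊆ U) : ∃ χ : M → ℝ, 𝒜.Sm χ ∧ (∀ p, 0 ≤ χ p) ∧ (∀ p, χ p ≤ 1) ∧ tsupport χ ⊆ U ∧
      ∃ W, IsOpen W ∧ C ⊆ W ∧ ∀ p ∈ W, χ p = 1 := by
  refine hC.isCompact.induction_on (p := fun S => ∃ χ : M → ℝ, 𝒜.Sm χ ∧ (∀ p, 0 ≤ χ p) ∧
    (∀ p, χ p ≤ 1) ∧ tsupport χ ⊆ U ∧ ∃ W, IsOpen W ∧ S ⊆ W ∧ ∀ p ∈ W, χ p = 1) ?_ ?_ ?_ ?_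
  · refine ⟨fun _ => 0, Atl.Sm.const 0, fun _ => le_rfl, fun _ => zero_le_one, ?_, ∅,
      isOpen_empty, subset_rfl, fun p hp => hp.elim⟩
    have : tsupport (fun _ : M => (0 : ℝ)) = ∅ := by
      rw [tsupport_eq_empty_iff]; rfl
    rw [this]
    exact empty_subset _
  · rintro s t hst ⟨χ, h1, h2, h3, h4, W, h5, h6, h7⟩
    exact ⟨χ, h1, h2, h3, h4, W, h5, hst.trans h6, h7⟩
  · rintro s t ⟨χ, h1, h2, h3, h4, W, h5, h6, h7⟩ ⟨χ', h1', h2', h3', h4', W', h5', h6', h7'⟩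
    refine ⟨fun p => χ p + χ' p - χ p * χ' p, (h1.add h1').sub (h1.mul h1'), fun p => ?_,
      fun p => ?_, ?_, W ∪ W', h5.union h5', union_subset_union h6 h6', ?_⟩
    · nlinarith [h2 p, h3 p, h2' p, h3' p, mul_nonneg (h2 p) (sub_nonneg.2 (h3' p))]
    · nlinarith [h2 p, h3 p, h2' p, h3' p,
        mul_nonneg (sub_nonneg.2 (h3 p)) (sub_nonneg.2 (h3' p))]
    · refine (closure_minimal (fun p hp => ?_)
        ((isClosed_tsupport χ).union (isClosed_tsupport χ'))).trans (union_subset h4 h4')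
      by_contra hc
      rw [mem_union, not_or] at hc
      apply hp
      have e1 : χ p = 0 := image_eq_zero_of_notMem_tsupport hc.1
      have e2 : χ' p = 0 := image_eq_zero_of_notMem_tsupport hc.2
      simp only [e1, e2]
      norm_num
    · rintro p (hp | hp)
      · simp only [h7 p hp]; ring
      · simp only [h7' p hp]; ring
  · intro p hp
    obtain ⟨i, z, hz, hzp⟩ := 𝒜.exists_chart p
    have hz4 : z ∈ ball (0 : E) 4 := ball_subset_ball (by norm_num) hz
    have hzd : z ∈ 𝒜.dom U i := ⟨hz4, by rw [hzp]; exact h hp⟩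
    obtain ⟨r, hr, hrd⟩ := Metric.isOpen_iff.1 (𝒜.isOpen_dom hU i) z hzd
    let f : ContDiffBump z := ⟨r / 4, r / 2, by positivity, by linarith⟩
    have hf1 : tsupport f ⊆ 𝒜.dom U i := by
      rw [f.tsupport_eq]
      refine Subset.trans ?_ hrd
      exact closedBall_subset_ball (by change r / 2 < r; linarith)
    have hf4 : tsupport f ⊆ ball (0 : E) 4 := fun y hy => (hf1 hy).1
    refine ⟨(𝒜.φ i).symm '' ball z (r / 4), ?_, 𝒜.ext i f, 𝒜.sm_ext i f.contDiff hf4, ?_, ?_, ?_,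
      (𝒜.φ i).symm '' ball z (r / 4), ?_, subset_rfl, ?_⟩
    · apply mem_nhdsWithin_of_mem_nhds
      rw [← hzp]
      have hsub : ball z (r / 4) ⊆ (𝒜.φ i).symm.source := by
        rw [OpenPartialHomeomorph.symm_source, 𝒜.target_eq i]
        exact fun y hy => (hrd (ball_subset_ball (by linarith) hy)).1
      exact ((𝒜.φ i).symm.isOpen_image_of_subset_source isOpen_ball hsub).mem_nhds
        ⟨z, mem_ball_self (by positivity), rfl⟩
    · intro q
      by_cases hq : q ∈ (𝒜.φ i).source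
      · rw [Atl.ext_of_mem hq]; exact f.nonneg
      · rw [Atl.ext_of_notMem hq]
    · intro q
      by_cases hq : q ∈ (𝒜.φ i).source
      · rw [Atl.ext_of_mem hq]; exact f.le_one
      · rw [Atl.ext_of_notMem hq]; exact zero_le_one
    · rw [𝒜.tsupport_ext i hf4]
      rintro _ ⟨y, hy, rfl⟩
      exact (hf1 hy).2
    · have hsub : ball z (r / 4) ⊆ (𝒜.φ i).symm.source := by
        rw [OpenPartialHomeomorph.symm_source, 𝒜.target_eq i]
        exact fun y hy => (hrd (ball_subset_ball (by linarith) hy)).1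
      exact (𝒜.φ i).symm.isOpen_image_of_subset_source isOpen_ball hsub
    · rintro _ ⟨y, hy, rfl⟩
      have hy4 : y ∈ ball (0 : E) 4 := (hrd (ball_subset_ball (by linarith) hy)).1
      rw [Atl.ext_of_mem (𝒜.symm_mem i hy4), 𝒜.right_inv i hy4]
      exact f.one_of_mem_closedBall (ball_subset_closedBall hy)

/-- partition of unity, `supp F i ⊆ ball 0 2` -/
theorem Atl.exists_pou [T2Space M] [CompactSpace M] (𝒜 : Atl M) : ∃ F : Fin 𝒜.n → E → ℝ,
    (∀ i, ContDiff ℝ ∞ (F i)) ∧ (∀ i, HasCompactSupport (F i)) ∧ (∀ i, tsupport (F i) ⊆ ball 0 2) ∧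
      (∀ i z, 0 ≤ F i z) ∧ ∀ p, ∑ i, 𝒜.ext i (F i) p = 1 := by
  classical
  let f : ContDiffBump (0 : E) := ⟨1, 3 / 2, by norm_num, by norm_num⟩
  have hf2 : tsupport f ⊆ ball (0 : E) 2 := by
    rw [f.tsupport_eq]
    exact closedBall_subset_ball (by change (3 / 2 : ℝ) < 2; norm_num)
  have hf4 : tsupport f ⊆ ball (0 : E) 4 := hf2.trans (ball_subset_ball (by norm_num))
  let S : M → ℝ := fun p => ∑ i, 𝒜.ext i f p
  have hS : 𝒜.Sm S := Atl.Sm.sum fun i _ => 𝒜.sm_ext i f.contDiff hf4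
  have hnn : ∀ i p, 0 ≤ 𝒜.ext i f p := by
    intro i q
    by_cases hq : q ∈ (𝒜.φ i).source
    · rw [Atl.ext_of_mem hq]; exact f.nonneg
    · rw [Atl.ext_of_notMem hq]
  have hS1 : ∀ p, 1 ≤ S p := by
    intro p
    obtain ⟨i, z, hz, rfl⟩ := 𝒜.exists_chart p
    have hz4 : z ∈ ball (0 : E) 4 := ball_subset_ball (by norm_num) hz
    have e : 𝒜.ext i f ((𝒜.φ i).symm z) = 1 := by
      rw [Atl.ext_of_mem (𝒜.symm_mem i hz4), 𝒜.right_inv i hz4]
      exact f.one_of_mem_closedBall (ball_subset_closedBall hz)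
    rw [← e]
    exact Finset.single_le_sum (f := fun i => 𝒜.ext i f ((𝒜.φ _).symm z))
      (fun j _ => hnn j _) (Finset.mem_univ i)
  have hts : ∀ i : Fin 𝒜.n, tsupport (fun z => f z / 𝒜.rd S i z) ⊆ tsupport f := by
    intro i
    refine closure_minimal (fun z hz => ?_) (isClosed_tsupport _)
    by_contra hc
    apply hz
    have : f z = 0 := image_eq_zero_of_notMem_tsupport hc
    simp only [this, zero_div]
  refine ⟨fun i z => f z / 𝒜.rd S i z, fun i => ?_, fun i => ?_, fun i => (hts i).trans hf2,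
    fun i z => ?_, fun p => ?_⟩
  · rw [contDiff_iff_contDiffAt]
    intro z
    by_cases h4 : z ∈ ball (0 : E) 4
    · have h1 : ContDiffAt ℝ ∞ (𝒜.rd S i) z := (hS i).contDiffAt (isOpen_ball.mem_nhds h4)
      have h2 : 𝒜.rd S i z ≠ 0 := by
        have := hS1 ((𝒜.φ i).symm z)
        unfold Atl.rd
        linarith
      exact f.contDiffAt.div h1 h2
    · have h1 : ContDiffAt ℝ ∞ (fun _ : E => (0 : ℝ)) z := contDiffAt_const
      refine h1.congr_of_eventuallyEq ?_
      filter_upwards [(isClosed_tsupport f).isOpen_compl.mem_nhds (fun hc => h4 (hf4 hc))]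
        with y hy
      have : f y = 0 := image_eq_zero_of_notMem_tsupport hy
      simp only [this, zero_div]
  · exact HasCompactSupport.of_support_subset_isCompact (isCompact_of_subset_ball hf2)
      ((subset_tsupport _).trans (hts i))
  · exact div_nonneg f.nonneg (zero_le_one.trans (hS1 _))
  · have e : ∀ i, 𝒜.ext i (fun z => f z / 𝒜.rd S i z) p = 𝒜.ext i f p / S p := by
      intro i
      by_cases hp : p ∈ (𝒜.φ i).source
      · rw [Atl.ext_of_mem hp, Atl.ext_of_mem hp]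
        unfold Atl.rd
        rw [(𝒜.φ i).left_inv hp]
      · rw [Atl.ext_of_notMem hp, Atl.ext_of_notMem hp, zero_div]
    rw [Finset.sum_congr rfl fun i _ => e i, ← Finset.sum_div]
    exact div_self (by have := hS1 p; linarith : S p ≠ 0)

/-- adapted to two open sets -/
theorem Atl.exists_split [T2Space M] [CompactSpace M] (𝒜 : Atl M) (hU : IsOpen U) (hV : IsOpen V)
    (h : U ∪ V = univ) : ∃ χ : M → ℝ, 𝒜.Sm χ ∧ (∀ p, 0 ≤ χ p) ∧ (∀ p, χ p ≤ 1) ∧
      tsupport χ ⊆ U ∧ tsupport (fun p => 1 - χ p) ⊆ V := by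
  have hC : Vᶜ ⊆ U := by
    intro p hp
    have : p ∈ U ∪ V := by rw [h]; exact mem_univ p
    exact this.resolve_right hp
  obtain ⟨χ, h1, h2, h3, h4, W, h5, h6, h7⟩ :=
    Atl.exists_bump (𝒜 := 𝒜) hV.isClosed_compl hU hC
  refine ⟨χ, h1, h2, h3, h4, ?_⟩
  refine (closure_minimal (fun p hp => ?_) h5.isClosed_compl).trans
    (compl_subset_comm.1 h6)
  intro hc
  apply hp
  simp only [h7 p hc, sub_self]

end YR
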