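import Pool.Agent.Rig71.Inv
import Pool.Agent.Rig71.Glob0
import Pool.Agent.Rig71.Glob0c

/-!
GLOB1: chart formulas for the global operators, smoothness, locality.
All chart formulas hold in EVERY chart (the definition uses only the chart `idx p`).
-/

open scoped ContDiff Topology
open MeasureTheory Metric Set Filter

noncomputable section

namespace YR

/-! ### congruence lemmas in a chart -/

section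

variable {G : E → Mat} {u v u' v' : E → ℝ} {x : E}

theorem glob1_ev_congr {h h' : Fin 3 → Fin 3 → ℝ} (hh : ∀ a b, h a b = h' a b)
    (hu : u =ᶠ[𝓝 x] u') (hv : v =ᶠ[𝓝 x] v') : ev G h u v x = ev G h' u' v' x := by
  simp only [ev, grad, hh, pd_congr hu, pd_congr hv]

theorem glob1_ip_congr {h h' k k' : Fin 3 → Fin 3 → ℝ} (hh : ∀ a b, h a b = h' a b)
    (hk : ∀ a b, k a b = k' a b) : ip G h k x = ip G h' k' x := by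
  simp only [ip, hh, hk]

theorem glob1_qq_congr (hu : u =ᶠ[𝓝 x] u') (a b : Fin 3) : qq G u a b x = qq G u' a b x := by
  unfold qq
  rw [(hess_congr (EventuallyEq.refl _ _) hu a b).eq_of_nhds, pd_congr hu, pd_congr hu,
    (lap_congr (EventuallyEq.refl _ _) hu).eq_of_nhds,
    (inn_congr (EventuallyEq.refl _ _) hu hu).eq_of_nhds]

end

variable {M : Type*} [TopologicalSpace M] {𝒜 : Atl M} (𝒢 : Met 𝒜) {U V : Set M}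
  {u v w f u' v' w' : M → ℝ} {p : M}

theorem glob1_lm (hU : IsOpen U) (i : Fin 𝒜.n) : LM (𝒜.dom U i) (𝒢.g i) :=
  (𝒢.lm i).mono (Atl.isOpen_dom hU i) fun _ hz => hz.1

theorem glob1_mem_nhds (hU : IsOpen U) (i : Fin 𝒜.n) {z : E} (hz : z ∈ 𝒜.dom U i) :
    𝒜.dom U i ∈ 𝓝 z := (Atl.isOpen_dom hU i).mem_nhds hz

theorem glob1_rd_ev (hU : IsOpen U) (i j : Fin 𝒜.n) {z : E} (hz : z ∈ 𝒜.dom U i)
    (hj : (𝒜.φ i).symm z ∈ (𝒜.φ j).source) (u : M → ℝ) :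
    (fun y => 𝒜.rd u j (𝒜.tr i j y)) =ᶠ[𝓝 z] 𝒜.rd u i := by
  have hV : IsOpen ((𝒜.φ j).source ∩ U) := (𝒜.φ j).open_source.inter hU
  have hz' : z ∈ 𝒜.dom ((𝒜.φ j).source ∩ U) i := ⟨hz.1, hj, hz.2⟩
  filter_upwards [glob1_mem_nhds hV i hz'] with y hy
  exact Atl.rd_tr i j hy.2.1 u

theorem glob1_eqOn (hU : IsOpen U) (hp : p ∈ U) (hu : EqOn u u' U) :
    𝒜.rd u (𝒜.idx p) =ᶠ[𝓝 (𝒜.φ (𝒜.idx p) p)] 𝒜.rd u' (𝒜.idx p) := by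
  have h1 : 𝒜.φ (𝒜.idx p) p ∈ 𝒜.dom U (𝒜.idx p) := by
    refine ⟨Atl.map_mem _ (Atl.idx_source p), ?_⟩
    rw [(𝒜.φ (𝒜.idx p)).left_inv (Atl.idx_source p)]
    exact hp
  filter_upwards [glob1_mem_nhds hU _ h1] with y hy
  exact hu hy.2

namespace Met

/-- coordinate changes are isometries -/
theorem cc (i j : Fin 𝒜.n) (hU : IsOpen U) :
    CC {z ∈ ball (0 : E) 4 | (𝒜.φ i).symm z ∈ (𝒜.φ j).source ∩ U} (𝒢.g i) (𝒜.dom U j) (𝒢.g j)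
      (𝒜.tr i j) where
  lm := (𝒢.lm i).mono (Atl.isOpen_dom ((𝒜.φ j).open_source.inter hU) i) fun _ hz => hz.1
  lm' := glob1_lm 𝒢 hU j
  maps x hx := by
    refine ⟨Atl.map_mem _ hx.2.1, ?_⟩
    unfold Atl.tr
    rw [(𝒜.φ j).left_inv hx.2.1]
    exact hx.2.2
  smooth := (𝒜.smooth i j).mono fun x hx => ⟨hx.1, hx.2.1⟩
  pull x hx a b := 𝒢.compat i j x hx.1 hx.2.1 a b

theorem glob1_mem {i j : Fin 𝒜.n} {z : E} (hz : z ∈ 𝒜.dom U i)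
    (hj : (𝒜.φ i).symm z ∈ (𝒜.φ j).source) :
    z ∈ {z ∈ ball (0 : E) 4 | (𝒜.φ i).symm z ∈ (𝒜.φ j).source ∩ U} := ⟨hz.1, hj, hz.2⟩

theorem glob1_univ {i : Fin 𝒜.n} {z : E} (hz : z ∈ ball (0 : E) 4) : z ∈ 𝒜.dom univ i :=
  ⟨hz, mem_univ _⟩

/-! ### chart formulas -/

theorem inn_chart (hU : IsOpen U) (hu : 𝒜.SmOn U u) (hv : 𝒜.SmOn U v) (i : Fin 𝒜.n) {z : E}
    (hz : z ∈ 𝒜.dom U i) :
    𝒢.inn u v ((𝒜.φ i).symm z) =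
      YR.inn (𝒢.g i) (𝒜.rd u i) (𝒜.rd v i) z := by
  refine Atl.glob_eq (F := fun i => YR.inn (𝒢.g i) (𝒜.rd u i) (𝒜.rd v i)) i hz.1 fun j hj => ?_
  rw [← (𝒢.cc i j hU).inn (hu j) (hv j) (glob1_mem hz hj)]
  exact (YR.inn_congr (EventuallyEq.refl _ _) (glob1_rd_ev hU i j hz hj u)
    (glob1_rd_ev hU i j hz hj v)).eq_of_nhds.symm

theorem lap_chart (hU : IsOpen U) (hu : 𝒜.SmOn U u) (i : Fin 𝒜.n) {z : E}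
    (hz : z ∈ 𝒜.dom U i) :
    𝒢.lap u ((𝒜.φ i).symm z) =
      YR.lap (𝒢.g i) (𝒜.rd u i) z := by
  refine Atl.glob_eq (F := fun i => YR.lap (𝒢.g i) (𝒜.rd u i)) i hz.1 fun j hj => ?_
  rw [← (𝒢.cc i j hU).lap (hu j) (glob1_mem hz hj)]
  exact (YR.lap_congr (EventuallyEq.refl _ _) (glob1_rd_ev hU i j hz hj u)).eq_of_nhds.symm

theorem scal_chart (i : Fin 𝒜.n) {z : E} (hz : z ∈ ball (0 : E) 4) :
    𝒢.scal ((𝒜.φ i).symm z) =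
      YR.scal (𝒢.g i) z := by
  refine Atl.glob_eq (F := fun i => YR.scal (𝒢.g i)) i hz fun j hj => ?_
  exact (𝒢.cc i j isOpen_univ).scal (glob1_mem (glob1_univ hz) hj)

theorem ricv_chart (hU : IsOpen U) (hu : 𝒜.SmOn U u) (hv : 𝒜.SmOn U v) (i : Fin 𝒜.n) {z : E}
    (hz : z ∈ 𝒜.dom U i) :
    𝒢.ricv u v ((𝒜.φ i).symm z) =
      YR.ev (𝒢.g i) (fun a b => YR.ric (𝒢.g i) a b z) (𝒜.rd u i) (𝒜.rd v i) z := by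
  refine Atl.glob_eq (F := fun i z =>
    YR.ev (𝒢.g i) (fun a b => YR.ric (𝒢.g i) a b z) (𝒜.rd u i) (𝒜.rd v i) z) i hz.1
    fun j hj => ?_
  have hm := glob1_mem hz hj
  change _ = YR.ev (𝒢.g j) (fun a b => YR.ric (𝒢.g j) a b (𝒜.tr i j z)) (𝒜.rd u j) (𝒜.rd v j)
    (𝒜.tr i j z)
  rw [← (𝒢.cc i j hU).ev (hu j) (hv j) hm ((𝒢.cc i j hU).ric hm)]
  exact (glob1_ev_congr (fun _ _ => rfl) (glob1_rd_ev hU i j hz hj u)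
    (glob1_rd_ev hU i j hz hj v)).symm

theorem hessv_chart (hU : IsOpen U) (hw : 𝒜.SmOn U w) (hu : 𝒜.SmOn U u) (hv : 𝒜.SmOn U v) (i : Fin 𝒜.n) {z : E}
    (hz : z ∈ 𝒜.dom U i) :
    𝒢.hessv w u v ((𝒜.φ i).symm z) =
      YR.ev (𝒢.g i) (fun a b => YR.hess (𝒢.g i) (𝒜.rd w i) a b z) (𝒜.rd u i) (𝒜.rd v i) z := by
  refine Atl.glob_eq (F := fun i z =>
    YR.ev (𝒢.g i) (fun a b => YR.hess (𝒢.g i) (𝒜.rd w i) a b z) (𝒜.rd u i) (𝒜.rd v i) z) i hz.1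
    fun j hj => ?_
  have hm := glob1_mem hz hj
  change _ = YR.ev (𝒢.g j) (fun a b => YR.hess (𝒢.g j) (𝒜.rd w j) a b (𝒜.tr i j z)) (𝒜.rd u j)
    (𝒜.rd v j) (𝒜.tr i j z)
  rw [← (𝒢.cc i j hU).ev (hu j) (hv j) hm ((𝒢.cc i j hU).hess (hw j) hm)]
  exact (glob1_ev_congr (fun a b => (YR.hess_congr (EventuallyEq.refl _ _)
    (glob1_rd_ev hU i j hz hj w) a b).eq_of_nhds) (glob1_rd_ev hU i j hz hj u)
    (glob1_rd_ev hU i j hz hj v)).symm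

theorem h2_chart (hU : IsOpen U) (hu : 𝒜.SmOn U u) (i : Fin 𝒜.n) {z : E}
    (hz : z ∈ 𝒜.dom U i) :
    𝒢.h2 u ((𝒜.φ i).symm z) =
      YR.ip (𝒢.g i) (fun a b => YR.hess (𝒢.g i) (𝒜.rd u i) a b z)
        (fun a b => YR.hess (𝒢.g i) (𝒜.rd u i) a b z) z := by
  refine Atl.glob_eq (F := fun i z =>
    YR.ip (𝒢.g i) (fun a b => YR.hess (𝒢.g i) (𝒜.rd u i) a b z)
        (fun a b => YR.hess (𝒢.g i) (𝒜.rd u i) a b z) z) i hz.1 fun j hj => ?_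
  have hm := glob1_mem hz hj
  have h1 := (𝒢.cc i j hU).hess (hu j) hm
  change _ = YR.ip (𝒢.g j) (fun a b => YR.hess (𝒢.g j) (𝒜.rd u j) a b (𝒜.tr i j z))
        (fun a b => YR.hess (𝒢.g j) (𝒜.rd u j) a b (𝒜.tr i j z)) (𝒜.tr i j z)
  rw [← (𝒢.cc i j hU).ip hm h1 h1]
  have h2 := fun a b => (YR.hess_congr (EventuallyEq.refl _ (𝒢.g i))
    (glob1_rd_ev hU i j hz hj u) a b).eq_of_nhds
  exact (glob1_ip_congr h2 h2).symm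

theorem t2_chart (hU : IsOpen U) (hu : 𝒜.SmOn U u) (i : Fin 𝒜.n) {z : E}
    (hz : z ∈ 𝒜.dom U i) :
    𝒢.t2 u ((𝒜.φ i).symm z) =
      YR.ip (𝒢.g i) (fun a b => YR.TT (𝒢.g i) (𝒜.rd u i) a b z)
        (fun a b => YR.TT (𝒢.g i) (𝒜.rd u i) a b z) z := by
  refine Atl.glob_eq (F := fun i z =>
    YR.ip (𝒢.g i) (fun a b => YR.TT (𝒢.g i) (𝒜.rd u i) a b z)
        (fun a b => YR.TT (𝒢.g i) (𝒜.rd u i) a b z) z) i hz.1 fun j hj => ?_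
  have hm := glob1_mem hz hj
  have h1 := (𝒢.cc i j hU).TT (hu j) hm
  change _ = YR.ip (𝒢.g j) (fun a b => YR.TT (𝒢.g j) (𝒜.rd u j) a b (𝒜.tr i j z))
        (fun a b => YR.TT (𝒢.g j) (𝒜.rd u j) a b (𝒜.tr i j z)) (𝒜.tr i j z)
  rw [← (𝒢.cc i j hU).ip hm h1 h1]
  have h2 := fun a b => (YR.TT_congr (EventuallyEq.refl _ (𝒢.g i))
    (glob1_rd_ev hU i j hz hj u) a b).eq_of_nhds
  exact (glob1_ip_congr h2 h2).symm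

theorem e2_chart (i : Fin 𝒜.n) {z : E} (hz : z ∈ ball (0 : E) 4) :
    𝒢.e2 ((𝒜.φ i).symm z) =
      YR.ip (𝒢.g i) (fun a b => YR.ric0 (𝒢.g i) a b z) (fun a b => YR.ric0 (𝒢.g i) a b z) z := by
  refine Atl.glob_eq (F := fun i z =>
    YR.ip (𝒢.g i) (fun a b => YR.ric0 (𝒢.g i) a b z) (fun a b => YR.ric0 (𝒢.g i) a b z) z) i hz
    fun j hj => ?_
  have hm := glob1_mem (glob1_univ hz) hj
  have h1 := (𝒢.cc i j isOpen_univ).ric0 hm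
  exact (𝒢.cc i j isOpen_univ).ip hm h1 h1

theorem sig2_chart (i : Fin 𝒜.n) {z : E} (hz : z ∈ ball (0 : E) 4) :
    𝒢.sig2 ((𝒜.φ i).symm z) =
      YR.sig2 (𝒢.g i) z := by
  refine Atl.glob_eq (F := fun i => YR.sig2 (𝒢.g i)) i hz fun j hj => ?_
  exact (𝒢.cc i j isOpen_univ).sig2 (glob1_mem (glob1_univ hz) hj)

theorem eh_chart (hU : IsOpen U) (hu : 𝒜.SmOn U u) (i : Fin 𝒜.n) {z : E}
    (hz : z ∈ 𝒜.dom U i) :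
    𝒢.eh u ((𝒜.φ i).symm z) =
      YR.ip (𝒢.g i) (fun a b => YR.ric0 (𝒢.g i) a b z)
        (fun a b => YR.hess (𝒢.g i) (𝒜.rd u i) a b z) z := by
  refine Atl.glob_eq (F := fun i z =>
    YR.ip (𝒢.g i) (fun a b => YR.ric0 (𝒢.g i) a b z)
        (fun a b => YR.hess (𝒢.g i) (𝒜.rd u i) a b z) z) i hz.1 fun j hj => ?_
  have hm := glob1_mem hz hj
  change _ = YR.ip (𝒢.g j) (fun a b => YR.ric0 (𝒢.g j) a b (𝒜.tr i j z))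
        (fun a b => YR.hess (𝒢.g j) (𝒜.rd u j) a b (𝒜.tr i j z)) (𝒜.tr i j z)
  rw [← (𝒢.cc i j hU).ip hm ((𝒢.cc i j hU).ric0 hm) ((𝒢.cc i j hU).hess (hu j) hm)]
  have h2 := fun a b => (YR.hess_congr (EventuallyEq.refl _ (𝒢.g i))
    (glob1_rd_ev hU i j hz hj u) a b).eq_of_nhds
  exact (glob1_ip_congr (fun _ _ => rfl) h2).symm

theorem q2_chart (hU : IsOpen U) (hu : 𝒜.SmOn U u) (i : Fin 𝒜.n) {z : E}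
    (hz : z ∈ 𝒜.dom U i) :
    𝒢.q2 u ((𝒜.φ i).symm z) =
      YR.ip (𝒢.g i) (fun a b => YR.ric0 (𝒢.g i) a b z - YR.qq (𝒢.g i) (𝒜.rd u i) a b z)
        (fun a b => YR.ric0 (𝒢.g i) a b z - YR.qq (𝒢.g i) (𝒜.rd u i) a b z) z := by
  refine Atl.glob_eq (F := fun i z =>
    YR.ip (𝒢.g i) (fun a b => YR.ric0 (𝒢.g i) a b z - YR.qq (𝒢.g i) (𝒜.rd u i) a b z)
        (fun a b => YR.ric0 (𝒢.g i) a b z - YR.qq (𝒢.g i) (𝒜.rd u i) a b z) z) i hz.1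
    fun j hj => ?_
  have hm := glob1_mem hz hj
  have h1 := ((𝒢.cc i j hU).ric0 hm).sub ((𝒢.cc i j hU).qq (hu j) hm)
  change _ = YR.ip (𝒢.g j)
    (fun a b => YR.ric0 (𝒢.g j) a b (𝒜.tr i j z) - YR.qq (𝒢.g j) (𝒜.rd u j) a b (𝒜.tr i j z))
    (fun a b => YR.ric0 (𝒢.g j) a b (𝒜.tr i j z) - YR.qq (𝒢.g j) (𝒜.rd u j) a b (𝒜.tr i j z))
    (𝒜.tr i j z)
  rw [← (𝒢.cc i j hU).ip hm h1 h1]
  have h2 : ∀ a b, YR.ric0 (𝒢.g i) a b z -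
      YR.qq (𝒢.g i) (fun y => 𝒜.rd u j (𝒜.tr i j y)) a b z =
      YR.ric0 (𝒢.g i) a b z - YR.qq (𝒢.g i) (𝒜.rd u i) a b z := fun a b => by
    rw [glob1_qq_congr (glob1_rd_ev hU i j hz hj u) a b]
  exact (glob1_ip_congr h2 h2).symm

theorem rho_chart (hU : IsOpen U) (hu : 𝒜.SmOn U u) (i : Fin 𝒜.n) {z : E}
    (hz : z ∈ 𝒜.dom U i) :
    𝒢.rho u ((𝒜.φ i).symm z) =
      YR.rho (𝒢.g i) (𝒜.rd u i) z := by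
  unfold Met.rho YR.rho
  rw [𝒢.lap_chart hU hu i hz, 𝒢.scal_chart i hz.1]
  rfl

theorem bb_chart (hU : IsOpen U) (hu : 𝒜.SmOn U u) (hv : 𝒜.SmOn U v) (i : Fin 𝒜.n) {z : E}
    (hz : z ∈ 𝒜.dom U i) :
    𝒢.bb u v ((𝒜.φ i).symm z) =
      YR.bb (𝒢.g i) (𝒜.rd u i) (𝒜.rd v i) z := by
  unfold Met.bb YR.bb
  rw [𝒢.rho_chart hU hu i hz, 𝒢.rho_chart hU hv i hz, 𝒢.inn_chart hU hu hv i hz]
  rfl

/-! ### smoothness -/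

theorem SmOn_inn (hU : IsOpen U) (hu : 𝒜.SmOn U u) (hv : 𝒜.SmOn U v) :
    𝒜.SmOn U (𝒢.inn u v) := fun i =>
  (inn_smooth (glob1_lm 𝒢 hU i) (hu i) (hv i)).congr fun _ hz => 𝒢.inn_chart hU hu hv i hz

theorem Sm_inn (hu : 𝒜.Sm u) (hv : 𝒜.Sm v) : 𝒜.Sm (𝒢.inn u v) :=
  Atl.smOn_univ.1 (𝒢.SmOn_inn isOpen_univ (hu.on _) (hv.on _))

theorem SmOn_lap (hU : IsOpen U) (hu : 𝒜.SmOn U u) :
    𝒜.SmOn U (𝒢.lap u) := fun i =>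
  (lap_smooth (glob1_lm 𝒢 hU i) (hu i)).congr fun _ hz => 𝒢.lap_chart hU hu i hz

theorem Sm_lap (hu : 𝒜.Sm u) : 𝒜.Sm (𝒢.lap u) :=
  Atl.smOn_univ.1 (𝒢.SmOn_lap isOpen_univ (hu.on _))

theorem Sm_scal : 𝒜.Sm 𝒢.scal := fun i =>
  (scal_smooth (𝒢.lm i)).congr fun _ hz => 𝒢.scal_chart i hz

theorem SmOn_ricv (hU : IsOpen U) (hu : 𝒜.SmOn U u) (hv : 𝒜.SmOn U v) :
    𝒜.SmOn U (𝒢.ricv u v) := fun i =>
  (ev_smooth (glob1_lm 𝒢 hU i) (fun a b => ric_smooth (glob1_lm 𝒢 hU i) a b) (hu i) (hv i)).congr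
    fun _ hz => 𝒢.ricv_chart hU hu hv i hz

theorem Sm_ricv (hu : 𝒜.Sm u) (hv : 𝒜.Sm v) : 𝒜.Sm (𝒢.ricv u v) :=
  Atl.smOn_univ.1 (𝒢.SmOn_ricv isOpen_univ (hu.on _) (hv.on _))

theorem SmOn_hessv (hU : IsOpen U) (hw : 𝒜.SmOn U w) (hu : 𝒜.SmOn U u) (hv : 𝒜.SmOn U v) :
    𝒜.SmOn U (𝒢.hessv w u v) := fun i =>
  (ev_smooth (glob1_lm 𝒢 hU i) (fun a b => hess_smooth (glob1_lm 𝒢 hU i) (hw i) a b)
    (hu i) (hv i)).congr fun _ hz => 𝒢.hessv_chart hU hw hu hv i hz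

theorem Sm_hessv (hw : 𝒜.Sm w) (hu : 𝒜.Sm u) (hv : 𝒜.Sm v) : 𝒜.Sm (𝒢.hessv w u v) :=
  Atl.smOn_univ.1 (𝒢.SmOn_hessv isOpen_univ (hw.on _) (hu.on _) (hv.on _))

theorem SmOn_h2 (hU : IsOpen U) (hu : 𝒜.SmOn U u) :
    𝒜.SmOn U (𝒢.h2 u) := fun i =>
  (ip_smooth (glob1_lm 𝒢 hU i) (fun a b => hess_smooth (glob1_lm 𝒢 hU i) (hu i) a b)
    (fun a b => hess_smooth (glob1_lm 𝒢 hU i) (hu i) a b)).congr
    fun _ hz => 𝒢.h2_chart hU hu i hz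

theorem Sm_h2 (hu : 𝒜.Sm u) : 𝒜.Sm (𝒢.h2 u) :=
  Atl.smOn_univ.1 (𝒢.SmOn_h2 isOpen_univ (hu.on _))

theorem SmOn_t2 (hU : IsOpen U) (hu : 𝒜.SmOn U u) :
    𝒜.SmOn U (𝒢.t2 u) := fun i =>
  (ip_smooth (glob1_lm 𝒢 hU i) (fun a b => TT_smooth (glob1_lm 𝒢 hU i) (hu i) a b)
    (fun a b => TT_smooth (glob1_lm 𝒢 hU i) (hu i) a b)).congr
    fun _ hz => 𝒢.t2_chart hU hu i hz

theorem Sm_t2 (hu : 𝒜.Sm u) : 𝒜.Sm (𝒢.t2 u) :=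
  Atl.smOn_univ.1 (𝒢.SmOn_t2 isOpen_univ (hu.on _))

theorem Sm_e2 : 𝒜.Sm 𝒢.e2 := fun i =>
  (ip_smooth (𝒢.lm i) (fun a b => ric0_smooth (𝒢.lm i) a b)
    (fun a b => ric0_smooth (𝒢.lm i) a b)).congr fun _ hz => 𝒢.e2_chart i hz

theorem Sm_sig2 : 𝒜.Sm 𝒢.sig2 := fun i =>
  (sig2_smooth (𝒢.lm i)).congr fun _ hz => 𝒢.sig2_chart i hz

theorem SmOn_eh (hU : IsOpen U) (hu : 𝒜.SmOn U u) :
    𝒜.SmOn U (𝒢.eh u) := fun i =>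
  (ip_smooth (glob1_lm 𝒢 hU i) (fun a b => ric0_smooth (glob1_lm 𝒢 hU i) a b)
    (fun a b => hess_smooth (glob1_lm 𝒢 hU i) (hu i) a b)).congr
    fun _ hz => 𝒢.eh_chart hU hu i hz

theorem Sm_eh (hu : 𝒜.Sm u) : 𝒜.Sm (𝒢.eh u) :=
  Atl.smOn_univ.1 (𝒢.SmOn_eh isOpen_univ (hu.on _))

theorem SmOn_q2 (hU : IsOpen U) (hu : 𝒜.SmOn U u) :
    𝒜.SmOn U (𝒢.q2 u) := fun i =>
  (ip_smooth (h := fun a b z => YR.ric0 (𝒢.g i) a b z - YR.qq (𝒢.g i) (𝒜.rd u i) a b z)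
    (k := fun a b z => YR.ric0 (𝒢.g i) a b z - YR.qq (𝒢.g i) (𝒜.rd u i) a b z)
    (glob1_lm 𝒢 hU i) (fun a b => (ric0_smooth (glob1_lm 𝒢 hU i) a b).sub
      (qq_smooth (glob1_lm 𝒢 hU i) (hu i) a b))
    (fun a b => (ric0_smooth (glob1_lm 𝒢 hU i) a b).sub
      (qq_smooth (glob1_lm 𝒢 hU i) (hu i) a b))).congr
    fun _ hz => 𝒢.q2_chart hU hu i hz

theorem Sm_q2 (hu : 𝒜.Sm u) : 𝒜.Sm (𝒢.q2 u) :=
  Atl.smOn_univ.1 (𝒢.SmOn_q2 isOpen_univ (hu.on _))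

theorem SmOn_rho (hU : IsOpen U) (hu : 𝒜.SmOn U u) :
    𝒜.SmOn U (𝒢.rho u) := fun i =>
  (rho_smooth (glob1_lm 𝒢 hU i) (hu i)).congr fun _ hz => 𝒢.rho_chart hU hu i hz

theorem Sm_rho (hu : 𝒜.Sm u) : 𝒜.Sm (𝒢.rho u) :=
  Atl.smOn_univ.1 (𝒢.SmOn_rho isOpen_univ (hu.on _))

theorem SmOn_bb (hU : IsOpen U) (hu : 𝒜.SmOn U u) (hv : 𝒜.SmOn U v) :
    𝒜.SmOn U (𝒢.bb u v) :=
  (((𝒢.SmOn_rho hU hu).mul hv).add ((𝒢.SmOn_rho hU hv).mul hu)).sub (𝒢.SmOn_inn hU hu hv)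

theorem Sm_bb (hu : 𝒜.Sm u) (hv : 𝒜.Sm v) : 𝒜.Sm (𝒢.bb u v) :=
  Atl.smOn_univ.1 (𝒢.SmOn_bb isOpen_univ (hu.on _) (hv.on _))

theorem SmOn_L (hU : IsOpen U) (hu : 𝒜.SmOn U u) :
    𝒜.SmOn U (𝒢.L u) :=
  ((Atl.SmOn.const (-8)).mul (𝒢.SmOn_lap hU hu)).add ((𝒢.Sm_scal.on U).mul hu)

theorem Sm_L (hu : 𝒜.Sm u) : 𝒜.Sm (𝒢.L u) :=
  Atl.smOn_univ.1 (𝒢.SmOn_L isOpen_univ (hu.on _))

/-! ### locality : only the germs at `p` matter -/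

theorem inn_congr (hU : IsOpen U) (hp : p ∈ U) (hu : EqOn u u' U) (hv : EqOn v v' U) :
    𝒢.inn u v p = 𝒢.inn u' v' p := by
  unfold Met.inn Atl.glob
  exact (YR.inn_congr (EventuallyEq.refl _ (𝒢.g (𝒜.idx p))) (glob1_eqOn (𝒜 := 𝒜) hU hp hu)
    (glob1_eqOn (𝒜 := 𝒜) hU hp hv)).eq_of_nhds

theorem lap_congr (hU : IsOpen U) (hp : p ∈ U) (hu : EqOn u u' U) :
    𝒢.lap u p = 𝒢.lap u' p := by
  unfold Met.lap Atl.glob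
  exact (YR.lap_congr (EventuallyEq.refl _ (𝒢.g (𝒜.idx p))) (glob1_eqOn (𝒜 := 𝒜) hU hp hu)).eq_of_nhds

theorem ricv_congr (hU : IsOpen U) (hp : p ∈ U) (hu : EqOn u u' U) (hv : EqOn v v' U) :
    𝒢.ricv u v p = 𝒢.ricv u' v' p := by
  unfold Met.ricv Atl.glob
  exact glob1_ev_congr (fun _ _ => rfl) (glob1_eqOn (𝒜 := 𝒜) hU hp hu) (glob1_eqOn (𝒜 := 𝒜) hU hp hv)

theorem hessv_congr (hU : IsOpen U) (hp : p ∈ U) (hw : EqOn w w' U) (hu : EqOn u u' U) (hv : EqOn v v' U) :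
    𝒢.hessv w u v p = 𝒢.hessv w' u' v' p := by
  unfold Met.hessv Atl.glob
  exact glob1_ev_congr (fun a b => (YR.hess_congr (EventuallyEq.refl _ (𝒢.g (𝒜.idx p)))
    (glob1_eqOn (𝒜 := 𝒜) hU hp hw) a b).eq_of_nhds) (glob1_eqOn (𝒜 := 𝒜) hU hp hu) (glob1_eqOn (𝒜 := 𝒜) hU hp hv)

theorem h2_congr (hU : IsOpen U) (hp : p ∈ U) (hu : EqOn u u' U) :
    𝒢.h2 u p = 𝒢.h2 u' p := by
  unfold Met.h2 Atl.glob
  have h2 := fun a b => (YR.hess_congr (EventuallyEq.refl _ (𝒢.g (𝒜.idx p)))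
    (glob1_eqOn (𝒜 := 𝒜) hU hp hu) a b).eq_of_nhds
  exact glob1_ip_congr h2 h2

theorem t2_congr (hU : IsOpen U) (hp : p ∈ U) (hu : EqOn u u' U) :
    𝒢.t2 u p = 𝒢.t2 u' p := by
  unfold Met.t2 Atl.glob
  have h2 := fun a b => (YR.TT_congr (EventuallyEq.refl _ (𝒢.g (𝒜.idx p)))
    (glob1_eqOn (𝒜 := 𝒜) hU hp hu) a b).eq_of_nhds
  exact glob1_ip_congr h2 h2

theorem eh_congr (hU : IsOpen U) (hp : p ∈ U) (hu : EqOn u u' U) :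
    𝒢.eh u p = 𝒢.eh u' p := by
  unfold Met.eh Atl.glob
  have h2 := fun a b => (YR.hess_congr (EventuallyEq.refl _ (𝒢.g (𝒜.idx p)))
    (glob1_eqOn (𝒜 := 𝒜) hU hp hu) a b).eq_of_nhds
  exact glob1_ip_congr (fun _ _ => rfl) h2

theorem q2_congr (hU : IsOpen U) (hp : p ∈ U) (hu : EqOn u u' U) :
    𝒢.q2 u p = 𝒢.q2 u' p := by
  unfold Met.q2 Atl.glob
  have h2 : ∀ a b, YR.ric0 (𝒢.g (𝒜.idx p)) a b (𝒜.φ (𝒜.idx p) p) -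
      YR.qq (𝒢.g (𝒜.idx p)) (𝒜.rd u (𝒜.idx p)) a b (𝒜.φ (𝒜.idx p) p) =
      YR.ric0 (𝒢.g (𝒜.idx p)) a b (𝒜.φ (𝒜.idx p) p) -
      YR.qq (𝒢.g (𝒜.idx p)) (𝒜.rd u' (𝒜.idx p)) a b (𝒜.φ (𝒜.idx p) p) := fun a b => by
    rw [glob1_qq_congr (glob1_eqOn (𝒜 := 𝒜) hU hp hu) a b]
  exact glob1_ip_congr h2 h2

theorem rho_congr (hU : IsOpen U) (hp : p ∈ U) (hu : EqOn u u' U) :
    𝒢.rho u p = 𝒢.rho u' p := by
  unfold Met.rho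
  rw [𝒢.lap_congr hU hp hu, hu hp]

theorem bb_congr (hU : IsOpen U) (hp : p ∈ U) (hu : EqOn u u' U) (hv : EqOn v v' U) :
    𝒢.bb u v p = 𝒢.bb u' v' p := by
  unfold Met.bb
  rw [𝒢.rho_congr hU hp hu, 𝒢.rho_congr hU hp hv, 𝒢.inn_congr hU hp hu hv, hu hp, hv hp]

theorem L_congr (hU : IsOpen U) (hp : p ∈ U) (hu : EqOn u u' U) :
    𝒢.L u p = 𝒢.L u' p := by
  unfold Met.L
  rw [𝒢.lap_congr hU hp hu, hu hp]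

end Met

end YR
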