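import Pool.Agent.Rig71.Loc8
import Pool.Agent.Rig71.Glob1

/-!
GLOB2a, GLOB2b, GLOB2d: calculus rules for the global operators, at a point `p` of an open set `U`
on which the functions are smooth.
-/

open scoped ContDiff Topology
open MeasureTheory Metric Set Filter

noncomputable section

namespace YR

/-! ### linear algebra at a point of a chart -/

namespace G2a

section

variable {U : Set E} {G : E → Mat} {u v w : E → ℝ} {x : E}

theorem ip_add_left (h h' k : Fin 3 → Fin 3 → ℝ) :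
    ip G (fun a b => h a b + h' a b) k x = ip G h k x + ip G h' k x := by
  unfold ip
  simp_rw [← Finset.sum_add_distrib]
  refine Finset.sum_congr rfl fun a _ => Finset.sum_congr rfl fun b _ =>
    Finset.sum_congr rfl fun c _ => Finset.sum_congr rfl fun d _ => ?_
  ring

theorem ip_add_right (h h' k : Fin 3 → Fin 3 → ℝ) :
    ip G k (fun a b => h a b + h' a b) x = ip G k h x + ip G k h' x := by
  unfold ip
  simp_rw [← Finset.sum_add_distrib]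
  refine Finset.sum_congr rfl fun a _ => Finset.sum_congr rfl fun b _ =>
    Finset.sum_congr rfl fun c _ => Finset.sum_congr rfl fun d _ => ?_
  ring

theorem ip_smul_left (c : ℝ) (h k : Fin 3 → Fin 3 → ℝ) :
    ip G (fun a b => c * h a b) k x = c * ip G h k x := by
  unfold ip
  simp_rw [Finset.mul_sum]
  refine Finset.sum_congr rfl fun a _ => Finset.sum_congr rfl fun b _ =>
    Finset.sum_congr rfl fun c _ => Finset.sum_congr rfl fun d _ => ?_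
  ring

theorem ip_smul_right (c : ℝ) (h k : Fin 3 → Fin 3 → ℝ) :
    ip G k (fun a b => c * h a b) x = c * ip G k h x := by
  unfold ip
  simp_rw [Finset.mul_sum]
  refine Finset.sum_congr rfl fun a _ => Finset.sum_congr rfl fun b _ =>
    Finset.sum_congr rfl fun c _ => Finset.sum_congr rfl fun d _ => ?_
  ring

theorem ev_add (h h' : Fin 3 → Fin 3 → ℝ) :
    ev G (fun a b => h a b + h' a b) u v x = ev G h u v x + ev G h' u v x := by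
  unfold ev
  simp_rw [← Finset.sum_add_distrib]
  refine Finset.sum_congr rfl fun a _ => Finset.sum_congr rfl fun b _ => ?_
  ring

theorem ev_smul (c : ℝ) (h : Fin 3 → Fin 3 → ℝ) :
    ev G (fun a b => c * h a b) u v x = c * ev G h u v x := by
  unfold ev
  simp_rw [Finset.mul_sum]
  refine Finset.sum_congr rfl fun a _ => Finset.sum_congr rfl fun b _ => ?_
  ring

theorem ip_comb (hG : LM U G) (hx : x ∈ U) (s t : ℝ) (h k : Fin 3 → Fin 3 → ℝ) :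
    ip G (fun a b => s * h a b + t * k a b) (fun a b => s * h a b + t * k a b) x =
      s ^ 2 * ip G h h x + 2 * s * t * ip G h k x + t ^ 2 * ip G k k x := by
  rw [ip_add_left, ip_add_right, ip_add_right, ip_smul_left, ip_smul_left, ip_smul_left,
    ip_smul_left, ip_smul_right, ip_smul_right, ip_smul_right, ip_smul_right,
    YR.ip_symm hG hx k h]
  ring

theorem ip_comb_le (hG : LM U G) (hx : x ∈ U) (t : ℝ) (h k : Fin 3 → Fin 3 → ℝ) :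
    ip G (fun a b => h a b + t * k a b) (fun a b => h a b + t * k a b) x ≤
      2 * ip G h h x + 2 * t ^ 2 * ip G k k x := by
  have h1 := ip_comb hG hx 1 t h k
  have h2 := ip_comb hG hx 1 (-t) h k
  have h3 := ip_self_nonneg hG hx (fun a b => 1 * h a b + (-t) * k a b)
  simp only [one_mul] at h1 h2 h3
  rw [h2] at h3
  rw [h1]
  linarith

/-- trace free part -/
theorem ip_free (hG : LM U G) (hx : x ∈ U) (h : Fin 3 → Fin 3 → ℝ) :
    ip G (fun a b => h a b - tr G h x / 3 * G x a b) (fun a b => h a b - tr G h x / 3 * G x a b) x =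
      ip G h h x - tr G h x ^ 2 / 3 := by
  have h1 := ip_comb hG hx 1 (-(tr G h x / 3)) h (fun a b => G x a b)
  have h2 : (fun a b : Fin 3 => h a b - tr G h x / 3 * G x a b) =
      fun a b => 1 * h a b + -(tr G h x / 3) * G x a b := by
    funext a b; ring
  rw [h2, h1, ip_metric hG hx, ip_metric hG hx, tr_metric hG hx]
  ring

theorem ev_metric (hG : LM U G) (hx : x ∈ U) : ev G (fun a b => G x a b) u v x = inn G u v x := by
  rw [ev_eq_inn hG hx, inn_eq_grad hG hx]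
  refine Finset.sum_congr rfl fun a _ => ?_
  rw [← pd_eq_grad hG hx]

theorem TT_eq (w : E → ℝ) (a b : Fin 3) : TT G w a b x =
    (hess G w a b x - tr G (fun a b => hess G w a b x) x / 3 * G x a b) + w x * ric0 G a b x := by
  unfold TT sch rho ric0 lap
  ring

theorem h2_le' (hG : LM U G) (hx : x ∈ U) :
    ip G (fun a b => hess G w a b x) (fun a b => hess G w a b x) x ≤ lap G w x ^ 2 / 3 +
      2 * ip G (fun a b => TT G w a b x) (fun a b => TT G w a b x) x +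
      2 * w x ^ 2 * ip G (fun a b => ric0 G a b x) (fun a b => ric0 G a b x) x := by
  have h1 := ip_free hG hx (fun a b => hess G w a b x)
  have h2 : (fun a b : Fin 3 => hess G w a b x -
      tr G (fun a b => hess G w a b x) x / 3 * G x a b) =
      fun a b => TT G w a b x + (-(w x)) * ric0 G a b x := by
    funext a b
    rw [TT_eq]; ring
  rw [h2] at h1
  have h3 := ip_comb_le hG hx (-(w x)) (fun a b => TT G w a b x) (fun a b => ric0 G a b x)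
  have h4 : lap G w x = tr G (fun a b => hess G w a b x) x := rfl
  rw [h4]
  have h5 : (-(w x)) ^ 2 = w x ^ 2 := by ring
  rw [h5] at h3
  linarith

theorem t2_le' (hG : LM U G) (hx : x ∈ U) :
    ip G (fun a b => TT G w a b x) (fun a b => TT G w a b x) x ≤
      2 * ip G (fun a b => hess G w a b x) (fun a b => hess G w a b x) x +
      2 * w x ^ 2 * ip G (fun a b => ric0 G a b x) (fun a b => ric0 G a b x) x := by
  have h1 := ip_free hG hx (fun a b => hess G w a b x)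
  have h2 : (fun a b : Fin 3 => TT G w a b x) = fun a b => (hess G w a b x -
      tr G (fun a b => hess G w a b x) x / 3 * G x a b) + w x * ric0 G a b x := by
    funext a b
    rw [TT_eq]
  have h3 := ip_comb_le hG hx (w x) (fun a b => hess G w a b x -
      tr G (fun a b => hess G w a b x) x / 3 * G x a b) (fun a b => ric0 G a b x)
  rw [← h2, h1] at h3
  have h4 : 0 ≤ tr G (fun a b => hess G w a b x) x ^ 2 := sq_nonneg _
  linarith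

theorem ev_TT (hG : LM U G) (hx : x ∈ U) : ev G (fun a b => TT G w a b x) u v x =
    ev G (fun a b => hess G w a b x) u v x +
      w x * (ev G (fun a b => ric G a b x) u v x - scal G x / 4 * inn G u v x) -
      rho G w x * inn G u v x := by
  have h1 : (fun a b : Fin 3 => TT G w a b x) = fun a b => (hess G w a b x +
      w x * (ric G a b x + -(scal G x / 4) * G x a b)) + -(rho G w x) * G x a b := by
    funext a b
    unfold TT sch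
    ring
  rw [h1, ev_add, ev_add, ev_smul (w x), ev_smul (-(rho G w x)) (fun a b => G x a b), ev_add,
    ev_smul (-(scal G x / 4)) (fun a b => G x a b), ev_metric hG hx]
  ring

theorem ev_ric0 (hG : LM U G) (hx : x ∈ U) : ev G (fun a b => ric0 G a b x) u v x =
    ev G (fun a b => ric G a b x) u v x - scal G x / 3 * inn G u v x := by
  have h1 : (fun a b : Fin 3 => ric0 G a b x) = fun a b => ric G a b x +
      -(scal G x / 3) * G x a b := by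
    funext a b
    unfold ric0
    ring
  rw [h1, ev_add, ev_smul (-(scal G x / 3)) (fun a b => G x a b), ev_metric hG hx]
  ring

end

end G2a

variable {M : Type*} [TopologicalSpace M] {𝒜 : Atl M} (𝒢 : Met 𝒜) {U V : Set M}
  {u v w f k : M → ℝ} {p : M}

namespace Met

open G2a

/-- `S(∇u,∇v)`, `S = Ric - (R/4) g` -/
def Sv (u v : M → ℝ) (p : M) : ℝ := 𝒢.ricv u v p - 𝒢.scal p / 4 * 𝒢.inn u v p

/-- `T(w)(∇u,∇v)`, `T(w) = Hess w + w S - ρ(w) g` -/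
def Tv (w u v : M → ℝ) (p : M) : ℝ :=
  𝒢.hessv w u v p + w p * 𝒢.Sv u v p - 𝒢.rho w p * 𝒢.inn u v p

/-! ### GLOB2a : no smoothness needed -/

theorem idx4 (𝒜 : Atl M) (p : M) : 𝒜.φ (𝒜.idx p) p ∈ ball (0 : E) 4 :=
  ball_subset_ball (by norm_num) (Atl.idx_ball p)

theorem rd_idx (𝒜 : Atl M) (u : M → ℝ) (p : M) :
    𝒜.rd u (𝒜.idx p) (𝒜.φ (𝒜.idx p) p) = u p := by
  unfold Atl.rd
  rw [(𝒜.φ (𝒜.idx p)).left_inv (Atl.idx_source p)]

theorem inn_idx (u v : M → ℝ) (p : M) : 𝒢.inn u v p =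
    YR.inn (𝒢.g (𝒜.idx p)) (𝒜.rd u (𝒜.idx p)) (𝒜.rd v (𝒜.idx p)) (𝒜.φ (𝒜.idx p) p) := rfl

theorem lap_idx (u : M → ℝ) (p : M) : 𝒢.lap u p =
    YR.lap (𝒢.g (𝒜.idx p)) (𝒜.rd u (𝒜.idx p)) (𝒜.φ (𝒜.idx p) p) := rfl

theorem scal_idx (p : M) : 𝒢.scal p = YR.scal (𝒢.g (𝒜.idx p)) (𝒜.φ (𝒜.idx p) p) := rfl

theorem sig2_idx (p : M) : 𝒢.sig2 p = YR.sig2 (𝒢.g (𝒜.idx p)) (𝒜.φ (𝒜.idx p) p) := rfl

theorem ricv_idx (u v : M → ℝ) (p : M) : 𝒢.ricv u v p =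
    YR.ev (𝒢.g (𝒜.idx p)) (fun a b => YR.ric (𝒢.g (𝒜.idx p)) a b (𝒜.φ (𝒜.idx p) p))
      (𝒜.rd u (𝒜.idx p)) (𝒜.rd v (𝒜.idx p)) (𝒜.φ (𝒜.idx p) p) := rfl

theorem hessv_idx (w u v : M → ℝ) (p : M) : 𝒢.hessv w u v p =
    YR.ev (𝒢.g (𝒜.idx p)) (fun a b => YR.hess (𝒢.g (𝒜.idx p)) (𝒜.rd w (𝒜.idx p)) a b
      (𝒜.φ (𝒜.idx p) p)) (𝒜.rd u (𝒜.idx p)) (𝒜.rd v (𝒜.idx p)) (𝒜.φ (𝒜.idx p) p) := rfl

theorem h2_idx (w : M → ℝ) (p : M) : 𝒢.h2 w p =
    YR.ip (𝒢.g (𝒜.idx p)) (fun a b => YR.hess (𝒢.g (𝒜.idx p)) (𝒜.rd w (𝒜.idx p)) a b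
      (𝒜.φ (𝒜.idx p) p)) (fun a b => YR.hess (𝒢.g (𝒜.idx p)) (𝒜.rd w (𝒜.idx p)) a b
      (𝒜.φ (𝒜.idx p) p)) (𝒜.φ (𝒜.idx p) p) := rfl

theorem t2_idx (w : M → ℝ) (p : M) : 𝒢.t2 w p =
    YR.ip (𝒢.g (𝒜.idx p)) (fun a b => YR.TT (𝒢.g (𝒜.idx p)) (𝒜.rd w (𝒜.idx p)) a b
      (𝒜.φ (𝒜.idx p) p)) (fun a b => YR.TT (𝒢.g (𝒜.idx p)) (𝒜.rd w (𝒜.idx p)) a b
      (𝒜.φ (𝒜.idx p) p)) (𝒜.φ (𝒜.idx p) p) := rfl

theorem e2_idx (p : M) : 𝒢.e2 p =
    YR.ip (𝒢.g (𝒜.idx p)) (fun a b => YR.ric0 (𝒢.g (𝒜.idx p)) a b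
      (𝒜.φ (𝒜.idx p) p)) (fun a b => YR.ric0 (𝒢.g (𝒜.idx p)) a b
      (𝒜.φ (𝒜.idx p) p)) (𝒜.φ (𝒜.idx p) p) := rfl

theorem eh_idx (w : M → ℝ) (p : M) : 𝒢.eh w p =
    YR.ip (𝒢.g (𝒜.idx p)) (fun a b => YR.ric0 (𝒢.g (𝒜.idx p)) a b
      (𝒜.φ (𝒜.idx p) p)) (fun a b => YR.hess (𝒢.g (𝒜.idx p)) (𝒜.rd w (𝒜.idx p)) a b
      (𝒜.φ (𝒜.idx p) p)) (𝒜.φ (𝒜.idx p) p) := rfl

theorem q2_idx (w : M → ℝ) (p : M) : 𝒢.q2 w p =
    YR.ip (𝒢.g (𝒜.idx p)) (fun a b => YR.ric0 (𝒢.g (𝒜.idx p)) a b (𝒜.φ (𝒜.idx p) p) -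
      YR.qq (𝒢.g (𝒜.idx p)) (𝒜.rd w (𝒜.idx p)) a b (𝒜.φ (𝒜.idx p) p))
      (fun a b => YR.ric0 (𝒢.g (𝒜.idx p)) a b (𝒜.φ (𝒜.idx p) p) -
      YR.qq (𝒢.g (𝒜.idx p)) (𝒜.rd w (𝒜.idx p)) a b (𝒜.φ (𝒜.idx p) p))
      (𝒜.φ (𝒜.idx p) p) := rfl

theorem inn_symm (u v : M → ℝ) (p : M) : 𝒢.inn u v p = 𝒢.inn v u p := by
  rw [inn_idx, inn_idx]
  exact YR.inn_symm (𝒢.lm _) (idx4 𝒜 p)

theorem inn_self_nonneg (u : M → ℝ) (p : M) : 0 ≤ 𝒢.inn u u p := by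
  rw [inn_idx]
  exact YR.inn_self_nonneg (𝒢.lm _) (idx4 𝒜 p)

theorem inn_sq_le (u v : M → ℝ) (p : M) : 𝒢.inn u v p ^ 2 ≤ 𝒢.inn u u p * 𝒢.inn v v p := by
  rw [inn_idx, inn_idx, inn_idx]
  exact YR.inn_sq_le (𝒢.lm _) (idx4 𝒜 p)

theorem abs_inn_le (u v : M → ℝ) (p : M) :
    |𝒢.inn u v p| ≤ √(𝒢.inn u u p) * √(𝒢.inn v v p) := by
  rw [← Real.sqrt_mul (inn_self_nonneg 𝒢 u p), ← Real.sqrt_sq_eq_abs]
  exact Real.sqrt_le_sqrt (inn_sq_le 𝒢 u v p)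

theorem h2_nonneg (u : M → ℝ) (p : M) : 0 ≤ 𝒢.h2 u p := by
  rw [h2_idx]
  exact ip_self_nonneg (𝒢.lm _) (idx4 𝒜 p) _

theorem t2_nonneg (u : M → ℝ) (p : M) : 0 ≤ 𝒢.t2 u p := by
  rw [t2_idx]
  exact ip_self_nonneg (𝒢.lm _) (idx4 𝒜 p) _

theorem e2_nonneg (p : M) : 0 ≤ 𝒢.e2 p := by
  rw [e2_idx]
  exact ip_self_nonneg (𝒢.lm _) (idx4 𝒜 p) _

theorem q2_nonneg (u : M → ℝ) (p : M) : 0 ≤ 𝒢.q2 u p := by
  rw [q2_idx]
  exact ip_self_nonneg (𝒢.lm _) (idx4 𝒜 p) _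

theorem lap_sq_le (u : M → ℝ) (p : M) : 𝒢.lap u p ^ 2 ≤ 3 * 𝒢.h2 u p := by
  rw [h2_idx, lap_idx]
  exact tr_sq_le (𝒢.lm _) (idx4 𝒜 p) _

theorem hessv_sq_le (w u v : M → ℝ) (p : M) :
    𝒢.hessv w u v p ^ 2 ≤ 𝒢.h2 w p * 𝒢.inn u u p * 𝒢.inn v v p := by
  rw [h2_idx, hessv_idx, inn_idx, inn_idx]
  exact ev_sq_le (𝒢.lm _) (idx4 𝒜 p) _

theorem Tv_eq (w u v : M → ℝ) (p : M) : 𝒢.Tv w u v p =
    YR.ev (𝒢.g (𝒜.idx p)) (fun a b => YR.TT (𝒢.g (𝒜.idx p)) (𝒜.rd w (𝒜.idx p)) a b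
      (𝒜.φ (𝒜.idx p) p)) (𝒜.rd u (𝒜.idx p)) (𝒜.rd v (𝒜.idx p)) (𝒜.φ (𝒜.idx p) p) := by
  have h1 := ev_TT (u := 𝒜.rd u (𝒜.idx p)) (v := 𝒜.rd v (𝒜.idx p)) (w := 𝒜.rd w (𝒜.idx p))
    (𝒢.lm (𝒜.idx p)) (idx4 𝒜 p)
  rw [h1, rd_idx]
  have h2 : 𝒢.rho w p = YR.rho (𝒢.g (𝒜.idx p)) (𝒜.rd w (𝒜.idx p)) (𝒜.φ (𝒜.idx p) p) := by
    unfold Met.rho YR.rho
    rw [rd_idx, lap_idx, scal_idx]
  rw [← h2, ← hessv_idx, ← ricv_idx, ← inn_idx, ← scal_idx]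
  rfl

theorem Tv_sq_le (w u v : M → ℝ) (p : M) :
    𝒢.Tv w u v p ^ 2 ≤ 𝒢.t2 w p * 𝒢.inn u u p * 𝒢.inn v v p := by
  rw [Tv_eq, t2_idx, inn_idx, inn_idx]
  exact ev_sq_le (𝒢.lm _) (idx4 𝒜 p) _

/-- `h = h⁰ + (tr h / 3) g` for the Hessian; `(Hess w)⁰ = T(w) - w Ric⁰` -/
theorem h2_le (w : M → ℝ) (p : M) :
    𝒢.h2 w p ≤ 𝒢.lap w p ^ 2 / 3 + 2 * 𝒢.t2 w p + 2 * w p ^ 2 * 𝒢.e2 p := by
  have h1 := h2_le' (w := 𝒜.rd w (𝒜.idx p)) (𝒢.lm (𝒜.idx p)) (idx4 𝒜 p)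
  rw [rd_idx, ← h2_idx, ← t2_idx, ← e2_idx, ← lap_idx] at h1
  exact h1

theorem t2_le (w : M → ℝ) (p : M) : 𝒢.t2 w p ≤ 2 * 𝒢.h2 w p + 2 * w p ^ 2 * 𝒢.e2 p := by
  have h1 := t2_le' (w := 𝒜.rd w (𝒜.idx p)) (𝒢.lm (𝒜.idx p)) (idx4 𝒜 p)
  rw [rd_idx, ← h2_idx, ← t2_idx, ← e2_idx] at h1
  exact h1

theorem ricv_symm (u v : M → ℝ) (p : M) : 𝒢.ricv u v p = 𝒢.ricv v u p := by
  rw [ricv_idx, ricv_idx]
  unfold YR.ev
  rw [Finset.sum_comm]
  refine Finset.sum_congr rfl fun a _ => Finset.sum_congr rfl fun b _ => ?_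
  beta_reduce
  rw [ric_symm (𝒢.lm (𝒜.idx p)) (idx4 𝒜 p) b a]
  ring

/-- `|Ric⁰(∇u,∇v)| ≤ |Ric⁰| |∇u| |∇v|` -/
theorem ricv_sq_le (u v : M → ℝ) (p : M) :
    (𝒢.ricv u v p - 𝒢.scal p / 3 * 𝒢.inn u v p) ^ 2 ≤ 𝒢.e2 p * 𝒢.inn u u p * 𝒢.inn v v p := by
  have h1 := ev_ric0 (u := 𝒜.rd u (𝒜.idx p)) (v := 𝒜.rd v (𝒜.idx p))
    (𝒢.lm (𝒜.idx p)) (idx4 𝒜 p)
  have h2 : 𝒢.ricv u v p - 𝒢.scal p / 3 * 𝒢.inn u v p =
    YR.ev (𝒢.g (𝒜.idx p)) (fun a b => YR.ric0 (𝒢.g (𝒜.idx p)) a b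
      (𝒜.φ (𝒜.idx p) p)) (𝒜.rd u (𝒜.idx p)) (𝒜.rd v (𝒜.idx p)) (𝒜.φ (𝒜.idx p) p) := by
    rw [h1, ← ricv_idx, ← inn_idx, ← scal_idx]
  rw [h2, e2_idx, inn_idx, inn_idx]
  exact ev_sq_le (𝒢.lm _) (idx4 𝒜 p) _

theorem eh_sq_le (u : M → ℝ) (p : M) : 𝒢.eh u p ^ 2 ≤ 𝒢.e2 p * 𝒢.h2 u p := by
  rw [eh_idx, e2_idx, h2_idx]
  exact ip_sq_le (𝒢.lm _) (idx4 𝒜 p) _ _

theorem sig2_eq (p : M) : 𝒢.sig2 p = 𝒢.scal p ^ 2 / 48 - 𝒢.e2 p / 2 := by
  rw [sig2_idx, e2_idx, scal_idx]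
  exact YR.sig2_eq (𝒢.lm _) (idx4 𝒜 p)

/-- curvature bounds on a compact manifold -/
theorem exists_curv_bound [CompactSpace M] : ∃ C : ℝ, 0 < C ∧ (∀ p, |𝒢.scal p| ≤ C) ∧
    (∀ p, 𝒢.e2 p ≤ C ^ 2) ∧ (∀ u v p, |𝒢.ricv u v p| ≤ C * √(𝒢.inn u u p) * √(𝒢.inn v v p)) := by
  obtain ⟨C1, h1⟩ := isCompact_univ.exists_bound_of_continuousOn
    (Atl.Sm.continuous (Sm_scal 𝒢)).continuousOn (s := (univ : Set M))
  obtain ⟨C2, h2⟩ := isCompact_univ.exists_bound_of_continuousOn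
    (Atl.Sm.continuous (Sm_e2 𝒢)).continuousOn (s := (univ : Set M))
  have hs : ∀ p, |𝒢.scal p| ≤ |C1| := fun p => (h1 p (mem_univ p)).trans (le_abs_self _)
  have he : ∀ p, 𝒢.e2 p ≤ |C2| := fun p =>
    (le_abs_self _).trans ((h2 p (mem_univ p)).trans (le_abs_self _))
  set C : ℝ := 1 + |C1| + |C2| with hC
  have hC1 : |C1| ≤ C := by have := abs_nonneg C2; linarith
  have hC2 : |C2| ≤ C := by have := abs_nonneg C1; linarith
  have hCp : 1 ≤ C := by have := abs_nonneg C1; have := abs_nonneg C2; linarith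
  have hCC : C ≤ C ^ 2 := by nlinarith
  refine ⟨2 * C, by linarith, fun p => (hs p).trans (by linarith), fun p => ?_, fun u v p => ?_⟩
  · have := he p
    nlinarith
  · have h3 := ricv_sq_le 𝒢 u v p
    set A := √(𝒢.inn u u p) with hA
    set B := √(𝒢.inn v v p) with hB
    have hA0 : 0 ≤ A := Real.sqrt_nonneg _
    have hB0 : 0 ≤ B := Real.sqrt_nonneg _
    have hAA : A ^ 2 = 𝒢.inn u u p := Real.sq_sqrt (inn_self_nonneg 𝒢 u p)
    have hBB : B ^ 2 = 𝒢.inn v v p := Real.sq_sqrt (inn_self_nonneg 𝒢 v p)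
    have h4 : |𝒢.ricv u v p - 𝒢.scal p / 3 * 𝒢.inn u v p| ≤ C * A * B := by
      apply abs_le_of_sq_le_sq _ (by positivity)
      refine h3.trans ?_
      rw [← hAA, ← hBB]
      have h5 : 𝒢.e2 p ≤ C ^ 2 := (he p).trans (hC2.trans hCC)
      have h6 : 0 ≤ A ^ 2 * B ^ 2 := by positivity
      nlinarith
    have h7 := abs_inn_le 𝒢 u v p
    rw [← hA, ← hB] at h7
    have h8 : |𝒢.scal p / 3 * 𝒢.inn u v p| ≤ C * A * B := by
      rw [abs_mul, abs_div, abs_of_pos (by norm_num : (0:ℝ) < 3)]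
      have h9 : |𝒢.scal p| / 3 ≤ C := by
        have := (hs p).trans hC1
        have := abs_nonneg (𝒢.scal p)
        linarith
      calc |𝒢.scal p| / 3 * |𝒢.inn u v p| ≤ C * (A * B) :=
            mul_le_mul h9 h7 (abs_nonneg _) (by linarith)
        _ = C * A * B := by ring
    have h10 : 𝒢.ricv u v p = (𝒢.ricv u v p - 𝒢.scal p / 3 * 𝒢.inn u v p) +
      𝒢.scal p / 3 * 𝒢.inn u v p := by ring
    rw [h10]
    refine (abs_add_le _ _).trans ?_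
    linarith

/-! ### GLOB2b : first order rules -/

theorem mem_dom_idx (hp : p ∈ U) : 𝒜.φ (𝒜.idx p) p ∈ 𝒜.dom U (𝒜.idx p) := by
  refine ⟨idx4 𝒜 p, ?_⟩
  rw [(𝒜.φ (𝒜.idx p)).left_inv (Atl.idx_source p)]
  exact hp

theorem diffAt_idx (hU : IsOpen U) (hp : p ∈ U) (hu : 𝒜.SmOn U u) :
    DifferentiableAt ℝ (𝒜.rd u (𝒜.idx p)) (𝒜.φ (𝒜.idx p) p) :=
  ((hu (𝒜.idx p)).differentiableOn (by simp)).differentiableAt
    ((Atl.isOpen_dom hU (𝒜.idx p)).mem_nhds (mem_dom_idx hp))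

theorem inn_const (c : ℝ) (v : M → ℝ) (p : M) : 𝒢.inn (fun _ => c) v p = 0 := by
  rw [inn_idx]
  have h1 : 𝒜.rd (fun _ : M => c) (𝒜.idx p) = fun _ => c := rfl
  rw [h1]
  unfold YR.inn
  simp only [pd_const, mul_zero, zero_mul, Finset.sum_const_zero]

theorem inn_add (hU : IsOpen U) (hp : p ∈ U) (hu : 𝒜.SmOn U u) (hv : 𝒜.SmOn U v) :
    𝒢.inn (fun q => u q + v q) f p = 𝒢.inn u f p + 𝒢.inn v f p := by
  rw [inn_idx, inn_idx, inn_idx]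
  exact YR.inn_add_left (𝒢.lm _) (diffAt_idx hU hp hu) (diffAt_idx hU hp hv)

theorem inn_mul (hU : IsOpen U) (hp : p ∈ U) (hu : 𝒜.SmOn U u) (hv : 𝒜.SmOn U v) :
    𝒢.inn (fun q => u q * v q) f p = u p * 𝒢.inn v f p + v p * 𝒢.inn u f p := by
  have h1 := YR.inn_mul_left (𝒢.lm (𝒜.idx p)) (w := 𝒜.rd f (𝒜.idx p))
    (diffAt_idx hU hp hu) (diffAt_idx hU hp hv)
  rw [rd_idx, rd_idx] at h1
  rw [inn_idx, inn_idx, inn_idx]
  exact h1

theorem inn_const_mul (hU : IsOpen U) (hp : p ∈ U) (hu : 𝒜.SmOn U u) (c : ℝ) :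
    𝒢.inn (fun q => c * u q) f p = c * 𝒢.inn u f p := by
  rw [inn_mul 𝒢 hU hp (Atl.SmOn.const c) hu, inn_const]
  ring

theorem inn_sub (hU : IsOpen U) (hp : p ∈ U) (hu : 𝒜.SmOn U u) (hv : 𝒜.SmOn U v) :
    𝒢.inn (fun q => u q - v q) f p = 𝒢.inn u f p - 𝒢.inn v f p := by
  have h1 : (fun q => u q - v q) = fun q => u q + (-1) * v q := by
    funext q; ring
  have h2 : 𝒜.SmOn U fun q => (-1) * v q := (Atl.SmOn.const (-1)).mul hv
  rw [h1, inn_add 𝒢 hU hp hu h2, inn_const_mul 𝒢 hU hp hv]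
  ring

theorem inn_comp (hU : IsOpen U) (hp : p ∈ U) (hu : 𝒜.SmOn U u) {F : ℝ → ℝ} {F' : ℝ}
    (hF : HasDerivAt F F' (u p)) : 𝒢.inn (fun q => F (u q)) f p = F' * 𝒢.inn u f p := by
  rw [inn_idx, inn_idx]
  rw [← rd_idx 𝒜 u p] at hF
  exact YR.inn_comp_left (𝒢.lm _) hF (diffAt_idx hU hp hu)

theorem inn_sum (hU : IsOpen U) (hp : p ∈ U) {ι : Type*} {s : Finset ι} {h : ι → M → ℝ}
    (hh : ∀ i ∈ s, 𝒜.SmOn U (h i)) :
    𝒢.inn (fun q => ∑ i ∈ s, h i q) f p = ∑ i ∈ s, 𝒢.inn (h i) f p := by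
  classical
  induction s using Finset.induction_on with
  | empty =>
    simp only [Finset.sum_empty]
    exact inn_const 𝒢 0 f p
  | insert i s hi ih =>
    have h1 : ∀ j ∈ s, 𝒜.SmOn U (h j) := fun j hj => hh j (Finset.mem_insert_of_mem hj)
    have h2 : (fun q => ∑ j ∈ insert i s, h j q) = fun q => h i q + ∑ j ∈ s, h j q := by
      funext q
      rw [Finset.sum_insert hi]
    rw [h2, inn_add 𝒢 hU hp (hh i (Finset.mem_insert_self i s)) (Atl.SmOn.sum h1), ih h1,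
      Finset.sum_insert hi]

/-- `f` locally constant when `|df|² = 0` -/
theorem const_of_inn_self [ConnectedSpace M] (hu : 𝒜.Sm u) (h : ∀ p, 𝒢.inn u u p = 0) :
    ∃ c, ∀ p, u p = c := by
  have h1 : ∀ i, ∀ z ∈ ball (0 : E) 4, fderiv ℝ (𝒜.rd u i) z = 0 := by
    intro i z hz
    have hd : z ∈ 𝒜.dom univ i := ⟨hz, mem_univ _⟩
    have h2 := inn_chart 𝒢 isOpen_univ (hu.on univ) (hu.on univ) i hd
    rw [h ((𝒜.φ i).symm z)] at h2
    have h3 := (YR.inn_self_eq_zero (𝒢.lm i) hz).1 h2.symm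
    ext v
    rw [fderiv_eq_sum v]
    simp [h3]
  have h2 : ∀ i, ∀ z ∈ ball (0 : E) 4, ∀ z' ∈ ball (0 : E) 4, 𝒜.rd u i z = 𝒜.rd u i z' := by
    intro i z hz z' hz'
    refine (convex_ball (0 : E) 4).is_const_of_fderivWithin_eq_zero (𝕜 := ℝ)
      ((hu i).differentiableOn (by simp)) ?_ hz hz'
    intro y hy
    rw [fderivWithin_of_isOpen isOpen_ball hy]
    exact h1 i y hy
  have h3 : IsLocallyConstant u := by
    rw [IsLocallyConstant.iff_exists_open]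
    intro p
    refine ⟨(𝒜.φ (𝒜.idx p)).source, (𝒜.φ (𝒜.idx p)).open_source, Atl.idx_source p, ?_⟩
    intro q hq
    have h4 := h2 (𝒜.idx p) _ (Atl.map_mem (𝒜.idx p) hq) _ (Atl.map_mem (𝒜.idx p) (Atl.idx_source p))
    unfold Atl.rd at h4
    rwa [(𝒜.φ (𝒜.idx p)).left_inv hq, (𝒜.φ (𝒜.idx p)).left_inv (Atl.idx_source p)] at h4
  obtain ⟨p0⟩ := (inferInstance : Nonempty M)
  exact ⟨u p0, fun p => h3.apply_eq_of_preconnectedSpace p p0⟩

/-- if `df ⊥ du` for all `f`, then `|du|² = 0` etc -/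
theorem const_of_inn [ConnectedSpace M] (hu : 𝒜.Sm u) (h : ∀ f, 𝒜.Sm f → ∀ p, 𝒢.inn u f p = 0) :
    ∃ c, ∀ p, u p = c :=
  const_of_inn_self 𝒢 hu fun p => h u hu p

/-! ### GLOB2d : extrema -/

theorem symm_tendsto (p : M) :
    Tendsto (𝒜.φ (𝒜.idx p)).symm (𝓝 (𝒜.φ (𝒜.idx p) p)) (𝓝 p) := by
  have h1 := (𝒜.φ (𝒜.idx p)).symm.continuousAt
    (x := 𝒜.φ (𝒜.idx p) p) (by
      rw [OpenPartialHomeomorph.symm_source]
      exact (𝒜.φ (𝒜.idx p)).map_source (Atl.idx_source p))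
  have h2 := h1.tendsto
  rwa [(𝒜.φ (𝒜.idx p)).left_inv (Atl.idx_source p)] at h2

theorem rd_localMax (h : IsLocalMax u p) :
    IsLocalMax (𝒜.rd u (𝒜.idx p)) (𝒜.φ (𝒜.idx p) p) := by
  have h1 := (symm_tendsto (𝒜 := 𝒜) p).eventually h
  refine h1.mono fun z hz => ?_
  rw [rd_idx]
  exact hz

theorem rd_localMin (h : IsLocalMin u p) :
    IsLocalMin (𝒜.rd u (𝒜.idx p)) (𝒜.φ (𝒜.idx p) p) := by
  have h1 := (symm_tendsto (𝒜 := 𝒜) p).eventually h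
  refine h1.mono fun z hz => ?_
  rw [rd_idx]
  exact hz

theorem rd_localExtr (h : IsLocalExtr u p) :
    IsLocalExtr (𝒜.rd u (𝒜.idx p)) (𝒜.φ (𝒜.idx p) p) :=
  h.elim (fun h => Or.inl (rd_localMin h)) fun h => Or.inr (rd_localMax h)

theorem inn_eq_zero_of_isLocalExtr (hU : IsOpen U) (hp : p ∈ U) (hu : 𝒜.SmOn U u)
    (h : IsLocalExtr u p) (v : M → ℝ) : 𝒢.inn u v p = 0 := by
  rw [inn_idx]
  have h1 := (rd_localExtr (𝒜 := 𝒜) h).fderiv_eq_zero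
  have h2 : ∀ a, pd a (𝒜.rd u (𝒜.idx p)) (𝒜.φ (𝒜.idx p) p) = 0 := by
    intro a
    unfold pd
    rw [h1]
    rfl
  unfold YR.inn
  simp only [h2, mul_zero, zero_mul, Finset.sum_const_zero]

end Met

namespace G2a

/-- second derivative test in one variable -/
theorem deriv2_nonpos {F : ℝ → ℝ} (h : IsLocalMax F 0) (hc : ContinuousAt F 0) :
    deriv (deriv F) 0 ≤ 0 := by
  by_contra hlt
  push Not at hlt
  have h1 : deriv F 0 = 0 := h.deriv_eq_zero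
  have h2 := isLocalMin_of_deriv_deriv_pos hlt h1 hc
  have h3 : F =ᶠ[𝓝 0] fun _ => F 0 := by
    filter_upwards [h, h2] with t ht1 ht2
    exact le_antisymm ht1 ht2
  have h4 : deriv F =ᶠ[𝓝 0] fun _ => 0 := by
    have := h3.deriv
    simpa using this
  have h5 := h4.deriv_eq
  simp at h5
  linarith

theorem quad_nonpos {f : E → ℝ} {D : Set E} (hD : IsOpen D) (hf : ContDiffOn ℝ ∞ f D) {z : E}
    (hz : z ∈ D) (h : IsLocalMax f z) (c : Fin 3 → ℝ) :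
    ∑ a, ∑ b, c a * c b * pd a (pd b f) z ≤ 0 := by
  set v : E := WithLp.toLp 2 c with hv
  set γ : ℝ → E := fun t => z + t • v with hγ
  have hγd : ∀ t, HasDerivAt γ v t := by
    intro t
    have h1 := ((hasDerivAt_id' t).smul_const v).const_add z
    rw [one_smul] at h1
    exact h1
  have hγc : Continuous γ := by fun_prop
  have hγ0 : γ 0 = z := by simp [hγ]
  have hev : ∀ᶠ t in 𝓝 (0 : ℝ), γ t ∈ D := by
    have : Tendsto γ (𝓝 0) (𝓝 z) := by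
      have := hγc.tendsto 0
      rwa [hγ0] at this
    exact this.eventually (hD.mem_nhds hz)
  have hd1 : ∀ y ∈ D, DifferentiableAt ℝ f y := fun y hy =>
    (hf.differentiableOn (by simp)).differentiableAt (hD.mem_nhds hy)
  have hd2 : ∀ b, ∀ y ∈ D, DifferentiableAt ℝ (pd b f) y := fun b y hy =>
    ((pd_smooth hD hf).differentiableOn (by simp)).differentiableAt (hD.mem_nhds hy)
  have hder : ∀ g : E → ℝ, ∀ t, DifferentiableAt ℝ g (γ t) →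
      HasDerivAt (fun t => g (γ t)) (∑ a, c a * pd a g (γ t)) t := by
    intro g t hg
    have h1 := hg.hasFDerivAt.comp_hasDerivAt t (hγd t)
    rw [fderiv_eq_sum] at h1
    exact h1
  have h1 : IsLocalMax (fun t => f (γ t)) 0 := by
    have : Tendsto γ (𝓝 0) (𝓝 z) := by
      have := hγc.tendsto 0
      rwa [hγ0] at this
    have h2 := this.eventually h
    refine h2.mono fun t ht => ?_
    simp only [hγ0]
    exact ht
  have h2 : ContinuousAt (fun t => f (γ t)) 0 := by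
    have := hder f 0 (by rw [hγ0]; exact hd1 z hz)
    exact this.continuousAt
  have h3 := deriv2_nonpos h1 h2
  have h4 : deriv (fun t => f (γ t)) =ᶠ[𝓝 0] fun t => ∑ b, c b * pd b f (γ t) := by
    filter_upwards [hev] with t ht
    exact (hder f t (hd1 _ ht)).deriv
  rw [h4.deriv_eq] at h3
  have h5 : HasDerivAt (fun t => ∑ b, c b * pd b f (γ t))
      (∑ b, c b * ∑ a, c a * pd a (pd b f) z) 0 := by
    have h6 := HasDerivAt.fun_sum (u := Finset.univ) (A := fun b t => c b * pd b f (γ t))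
      (A' := fun b => c b * ∑ a, c a * pd a (pd b f) z) (x := (0 : ℝ)) (fun b _ => by
        have h7 := hder (pd b f) 0 (by rw [hγ0]; exact hd2 b z hz)
        rw [hγ0] at h7
        exact h7.const_mul (c b))
    exact h6
  rw [h5.deriv] at h3
  refine le_trans (le_of_eq ?_) h3
  rw [Finset.sum_comm]
  refine Finset.sum_congr rfl fun b _ => ?_
  rw [Finset.mul_sum]
  refine Finset.sum_congr rfl fun a _ => ?_
  ring

theorem lap_nonpos {D D' : Set E} {G : E → Mat} (hG : LM D G) {f : E → ℝ} (hD' : IsOpen D')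
    (hf : ContDiffOn ℝ ∞ f D') {z : E} (hz : z ∈ D) (hz' : z ∈ D')
    (h : IsLocalMax f z) : YR.lap G f z ≤ 0 := by
  have h1 : ∀ a, pd a f z = 0 := by
    intro a
    unfold pd
    rw [h.fderiv_eq_zero]
    rfl
  have h2 : ∀ a b, hess G f a b z = pd a (pd b f) z := by
    intro a b
    unfold hess
    simp only [h1, mul_zero, Finset.sum_const_zero, sub_zero]
  have hpd : (gi G z).PosSemidef := ((hG.pos z hz).inv).posSemidef
  obtain ⟨m, A, hA⟩ := Matrix.posSemidef_iff_eq_sum_vecMulVec.mp hpd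
  have h3 : YR.lap G f z = ∑ k, ∑ a, ∑ b, A k a * A k b * pd a (pd b f) z := by
    unfold YR.lap YR.tr
    rw [Finset.sum_comm]
    rw [Finset.sum_comm]
    have h4 : ∀ a b, gi G z a b = ∑ k, A k a * A k b := by
      intro a b
      rw [hA, Matrix.sum_apply]
      refine Finset.sum_congr rfl fun k _ => ?_
      simp [Matrix.vecMulVec_apply]
    simp only [h2, h4, Finset.sum_mul]
    rw [Finset.sum_comm_cycle]
  rw [h3]
  exact Finset.sum_nonpos fun k _ => quad_nonpos hD' hf hz' h (A k)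

end G2a

namespace Met

open G2a

theorem lap_nonpos_of_isLocalMax (hU : IsOpen U) (hp : p ∈ U) (hu : 𝒜.SmOn U u)
    (h : IsLocalMax u p) : 𝒢.lap u p ≤ 0 := by
  rw [lap_idx]
  exact lap_nonpos (𝒢.lm _) (Atl.isOpen_dom hU (𝒜.idx p)) (hu (𝒜.idx p)) (idx4 𝒜 p)
    (mem_dom_idx hp) (rd_localMax h)

theorem lap_nonneg_of_isLocalMin (hU : IsOpen U) (hp : p ∈ U) (hu : 𝒜.SmOn U u)
    (h : IsLocalMin u p) : 0 ≤ 𝒢.lap u p := by
  have h1 : 𝒢.lap (fun q => -u q) p ≤ 0 :=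
    lap_nonpos_of_isLocalMax 𝒢 hU hp hu.neg h.neg
  have h2 : 𝒢.lap (fun q => -u q) p = -𝒢.lap u p := by
    rw [lap_idx, lap_idx]
    have h3 : 𝒜.rd (fun q => -u q) (𝒜.idx p) = fun z => -𝒜.rd u (𝒜.idx p) z := rfl
    have h4 : ∀ a, pd a (fun z => -𝒜.rd u (𝒜.idx p) z) = fun z => -pd a (𝒜.rd u (𝒜.idx p)) z := by
      intro a
      funext z
      exact pd_neg
    rw [h3]
    unfold YR.lap YR.tr YR.hess
    rw [← Finset.sum_neg_distrib]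
    refine Finset.sum_congr rfl fun a _ => ?_
    rw [← Finset.sum_neg_distrib]
    refine Finset.sum_congr rfl fun b _ => ?_
    beta_reduce
    simp only [h4]
    rw [pd_neg]
    have h5 : ∑ k, chr (𝒢.g (𝒜.idx p)) k a b (𝒜.φ (𝒜.idx p) p) *
        -pd k (𝒜.rd u (𝒜.idx p)) (𝒜.φ (𝒜.idx p) p) =
        -∑ k, chr (𝒢.g (𝒜.idx p)) k a b (𝒜.φ (𝒜.idx p) p) *
        pd k (𝒜.rd u (𝒜.idx p)) (𝒜.φ (𝒜.idx p) p) := by
      rw [← Finset.sum_neg_distrib]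
      exact Finset.sum_congr rfl fun k _ => by ring
    rw [h5]
    ring
  linarith

end Met

end YR
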