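import Pool.Agent.Rig71.Glob1

/-! GLOB2c, part A: algebra in a chart used for the sections c, e of GLOB2. -/

open scoped ContDiff Topology
open MeasureTheory Metric Set Filter

noncomputable section

namespace YR

/-! ### pointwise algebra -/

theorem g2c_ev_add (G : E → Mat) (h k : Fin 3 → Fin 3 → ℝ) (u v : E → ℝ) (x : E) :
    ev G (fun a b => h a b + k a b) u v x = ev G h u v x + ev G k u v x := by
  simp only [ev, add_mul, Finset.sum_add_distrib]

theorem g2c_ev_sub (G : E → Mat) (h k : Fin 3 → Fin 3 → ℝ) (u v : E → ℝ) (x : E) :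
    ev G (fun a b => h a b - k a b) u v x = ev G h u v x - ev G k u v x := by
  simp only [ev, sub_mul, Finset.sum_sub_distrib]

theorem g2c_ev_smul (G : E → Mat) (c : ℝ) (h : Fin 3 → Fin 3 → ℝ) (u v : E → ℝ) (x : E) :
    ev G (fun a b => c * h a b) u v x = c * ev G h u v x := by
  simp only [ev, Finset.mul_sum, mul_assoc]

theorem g2c_inn_eq (G : E → Mat) (u v : E → ℝ) (x : E) :
    inn G u v x = ∑ a, pd a u x * grad G v a x := by
  simp only [inn, grad, Finset.mul_sum]
  exact Finset.sum_congr rfl fun a _ => Finset.sum_congr rfl fun b _ => by ring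

theorem g2c_ev_dd (G : E → Mat) (p q u v : E → ℝ) (x : E) :
    ev G (fun a b => pd a p x * pd b q x) u v x = inn G p u x * inn G q v x := by
  rw [g2c_inn_eq, g2c_inn_eq, Finset.sum_mul_sum]
  simp only [ev]
  exact Finset.sum_congr rfl fun a _ => Finset.sum_congr rfl fun b _ => by ring

theorem g2c_ev_symm (G : E → Mat) (h : Fin 3 → Fin 3 → ℝ) (hs : ∀ a b, h a b = h b a)
    (u v : E → ℝ) (x : E) : ev G h u v x = ev G h v u x := by
  simp only [ev]
  rw [Finset.sum_comm]
  exact Finset.sum_congr rfl fun a _ => Finset.sum_congr rfl fun b _ => by rw [hs b a]; ring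

theorem g2c_grad_comp (G : E → Mat) {u : E → ℝ} {F : ℝ → ℝ} {F' : ℝ} {x : E}
    (hF : HasDerivAt F F' (u x)) (hu : DifferentiableAt ℝ u x) (a : Fin 3) :
    grad G (fun y => F (u y)) a x = F' * grad G u a x := by
  simp only [grad, pd_comp hF hu, Finset.mul_sum]
  exact Finset.sum_congr rfl fun b _ => by ring

theorem g2c_grad_mul (G : E → Mat) {u v : E → ℝ} {x : E}
    (hu : DifferentiableAt ℝ u x) (hv : DifferentiableAt ℝ v x) (a : Fin 3) :
    grad G (fun y => u y * v y) a x = u x * grad G v a x + v x * grad G u a x := by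
  simp only [grad, pd_mul hu hv, Finset.mul_sum]
  rw [← Finset.sum_add_distrib]
  exact Finset.sum_congr rfl fun b _ => by ring

theorem g2c_ev_of_grad (G : E → Mat) (h : Fin 3 → Fin 3 → ℝ) {u u' v : E → ℝ} {x : E} (c : ℝ)
    (hu : ∀ a, grad G u a x = c * grad G u' a x) : ev G h u v x = c * ev G h u' v x := by
  simp only [ev, hu, Finset.mul_sum]
  exact Finset.sum_congr rfl fun a _ => Finset.sum_congr rfl fun b _ => by ring

theorem g2c_ev_of_grad2 (G : E → Mat) (h : Fin 3 → Fin 3 → ℝ) {u u' u'' v : E → ℝ} {x : E}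
    (c d : ℝ) (hu : ∀ a, grad G u a x = c * grad G u' a x + d * grad G u'' a x) :
    ev G h u v x = c * ev G h u' v x + d * ev G h u'' v x := by
  simp only [ev, hu, Finset.mul_sum]
  rw [← Finset.sum_add_distrib]
  refine Finset.sum_congr rfl fun a _ => ?_
  rw [← Finset.sum_add_distrib]
  exact Finset.sum_congr rfl fun b _ => by ring

theorem g2c_ip_add_left (G : E → Mat) (h h' k : Fin 3 → Fin 3 → ℝ) (x : E) :
    ip G (fun a b => h a b + h' a b) k x = ip G h k x + ip G h' k x := by
  simp only [ip, mul_add, add_mul, Finset.sum_add_distrib]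

theorem g2c_ip_add_right (G : E → Mat) (h k k' : Fin 3 → Fin 3 → ℝ) (x : E) :
    ip G h (fun a b => k a b + k' a b) x = ip G h k x + ip G h k' x := by
  simp only [ip, mul_add, Finset.sum_add_distrib]

theorem g2c_ip_sub_left (G : E → Mat) (h h' k : Fin 3 → Fin 3 → ℝ) (x : E) :
    ip G (fun a b => h a b - h' a b) k x = ip G h k x - ip G h' k x := by
  simp only [ip, mul_sub, sub_mul, Finset.sum_sub_distrib]

theorem g2c_ip_sub_right (G : E → Mat) (h k k' : Fin 3 → Fin 3 → ℝ) (x : E) :
    ip G h (fun a b => k a b - k' a b) x = ip G h k x - ip G h k' x := by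
  simp only [ip, mul_sub, Finset.sum_sub_distrib]

theorem g2c_ip_smul_left (G : E → Mat) (c : ℝ) (h k : Fin 3 → Fin 3 → ℝ) (x : E) :
    ip G (fun a b => c * h a b) k x = c * ip G h k x := by
  simp only [ip, Finset.mul_sum]
  exact Finset.sum_congr rfl fun a _ => Finset.sum_congr rfl fun b _ =>
    Finset.sum_congr rfl fun c _ => Finset.sum_congr rfl fun d _ => by ring

theorem g2c_ip_smul_right (G : E → Mat) (c : ℝ) (h k : Fin 3 → Fin 3 → ℝ) (x : E) :
    ip G h (fun a b => c * k a b) x = c * ip G h k x := by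
  simp only [ip, Finset.mul_sum]
  exact Finset.sum_congr rfl fun a _ => Finset.sum_congr rfl fun b _ =>
    Finset.sum_congr rfl fun c _ => Finset.sum_congr rfl fun d _ => by ring

theorem g2c_tr_add (G : E → Mat) (h k : Fin 3 → Fin 3 → ℝ) (x : E) :
    tr G (fun a b => h a b + k a b) x = tr G h x + tr G k x := by
  simp only [tr, mul_add, Finset.sum_add_distrib]

theorem g2c_tr_sub (G : E → Mat) (h k : Fin 3 → Fin 3 → ℝ) (x : E) :
    tr G (fun a b => h a b - k a b) x = tr G h x - tr G k x := by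
  simp only [tr, mul_sub, Finset.sum_sub_distrib]

theorem g2c_tr_smul (G : E → Mat) (c : ℝ) (h : Fin 3 → Fin 3 → ℝ) (x : E) :
    tr G (fun a b => c * h a b) x = c * tr G h x := by
  simp only [tr, Finset.mul_sum]
  exact Finset.sum_congr rfl fun a _ => Finset.sum_congr rfl fun b _ => by ring

/-- zero form -/
theorem g2c_ev_zero (G : E → Mat) {h : Fin 3 → Fin 3 → ℝ} (h0 : ∀ a b, h a b = 0)
    (u v : E → ℝ) (x : E) : ev G h u v x = 0 := by
  simp [ev, h0]

section

variable {U : Set E} {G : E → Mat} (hG : LM U G) {u v w f : E → ℝ} {x : E}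

include hG

/-- `G(∇u,∇v) = ⟨du,dv⟩` -/
theorem g2c_ev_metric (hx : x ∈ U) : ev G (fun a b => G x a b) u v x = inn G u v x := by
  rw [ev_eq_inn hG hx, inn_eq_grad hG hx]
  exact Finset.sum_congr rfl fun a _ => by rw [pd_eq_grad hG hx]

/-- `ev` as a sum over the gradient of the first function -/
theorem g2c_inn_sum (hx : x ∈ U) (q : E → ℝ) (h : Fin 3 → Fin 3 → ℝ)
    (hq : ∀ a, pd a q x = ∑ b, h a b * grad G v b x) : inn G f q x = ev G h f v x := by
  rw [ev_eq_inn hG hx, inn_eq_grad hG hx]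
  exact Finset.sum_congr rfl fun a _ => by rw [hq]

theorem g2c_ip_metric_left (hx : x ∈ U) (h : Fin 3 → Fin 3 → ℝ) :
    ip G (fun a b => G x a b) h x = tr G h x := by
  rw [ip_symm hG hx, ip_metric hG hx]

theorem g2c_ip_dd_left (hx : x ∈ U) (h : Fin 3 → Fin 3 → ℝ) :
    ip G (fun a b => pd a u x * pd b v x) h x = ev G h u v x := by
  rw [ip_symm hG hx, ip_dd hG hx]

theorem g2c_ip_mm (hx : x ∈ U) : ip G (fun a b => G x a b) (fun a b => G x a b) x = 3 := by
  rw [ip_metric hG hx, tr_metric hG hx]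

theorem g2c_tr_ric0 (hx : x ∈ U) : tr G (fun a b => ric0 G a b x) x = 0 := by
  unfold ric0
  rw [g2c_tr_sub, g2c_tr_smul, tr_metric hG hx]
  simp only [scal]
  ring

omit hG in
theorem g2c_tr_dd : tr G (fun a b => pd a u x * pd b v x) x = inn G u v x := by
  simp only [tr, inn]
  exact Finset.sum_congr rfl fun a _ => Finset.sum_congr rfl fun b _ => by ring

/-- `|T(w)|²` -/
theorem g2c_t2 (hx : x ∈ U) (w : E → ℝ) :
    ip G (fun a b => TT G w a b x) (fun a b => TT G w a b x) x =
      ip G (fun a b => hess G w a b x) (fun a b => hess G w a b x) x - lap G w x ^ 2 / 3 +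
        2 * w x * ip G (fun a b => ric0 G a b x) (fun a b => hess G w a b x) x +
        w x ^ 2 * ip G (fun a b => ric0 G a b x) (fun a b => ric0 G a b x) x := by
  have h1 : (fun a b => TT G w a b x) = fun a b =>
      (hess G w a b x - lap G w x / 3 * G x a b) + w x * ric0 G a b x := by
    funext a b
    simp only [TT, sch, ric0, rho]
    ring
  rw [h1]
  simp only [g2c_ip_add_left, g2c_ip_add_right, g2c_ip_sub_left, g2c_ip_sub_right,
    g2c_ip_smul_left, g2c_ip_smul_right, g2c_ip_metric_left hG hx,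
    ip_metric hG hx, g2c_tr_ric0 hG hx, g2c_tr_add, g2c_tr_sub, g2c_tr_smul, tr_metric hG hx]
  have h2 : tr G (fun a b => hess G w a b x) x = lap G w x := rfl
  rw [h2, ip_symm hG hx (fun a b => hess G w a b x) (fun a b => ric0 G a b x)]
  ring

/-- `|Q|²` -/
theorem g2c_q2 (hx : x ∈ U) (f : E → ℝ) :
    ip G (fun a b => ric0 G a b x - qq G f a b x) (fun a b => ric0 G a b x - qq G f a b x) x =
      ip G (fun a b => ric0 G a b x) (fun a b => ric0 G a b x) x +
      (ip G (fun a b => hess G f a b x) (fun a b => hess G f a b x) x - lap G f x ^ 2 / 3) +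
      inn G f f x ^ 2 / 6 - 2 * ip G (fun a b => ric0 G a b x) (fun a b => hess G f a b x) x +
      (ev G (fun a b => ric G a b x) f f x - scal G x / 3 * inn G f f x) -
      (ev G (fun a b => hess G f a b x) f f x - lap G f x * inn G f f x / 3) := by
  have h1 : (fun a b => ric0 G a b x - qq G f a b x) = fun a b =>
      ric0 G a b x - (hess G f a b x - 1 / 2 * (pd a f x * pd b f x) -
        (lap G f x - inn G f f x / 2) / 3 * G x a b) := by
    funext a b
    simp only [qq]
    ring
  have h3 : ev G (fun a b => ric0 G a b x) f f x =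
      ev G (fun a b => ric G a b x) f f x - scal G x / 3 * inn G f f x := by
    unfold ric0
    rw [g2c_ev_sub, g2c_ev_smul, g2c_ev_metric hG hx]
  have h4 : ip G (fun a b => pd a f x * pd b f x) (fun a b => pd a f x * pd b f x) x =
      inn G f f x ^ 2 := by
    rw [ip_dd hG hx, g2c_ev_dd, sq]
  rw [h1]
  simp only [g2c_ip_sub_left, g2c_ip_sub_right, g2c_tr_sub, g2c_tr_smul, tr_metric hG hx,
    g2c_ip_smul_left, g2c_ip_smul_right, g2c_ip_metric_left hG hx,
    ip_metric hG hx, g2c_tr_ric0 hG hx, h4, g2c_tr_dd]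
  simp only [ip_dd hG hx, g2c_ip_dd_left hG hx, h3]
  have h2 : tr G (fun a b => hess G f a b x) x = lap G f x := rfl
  rw [h2, ip_symm hG hx (fun a b => hess G f a b x) (fun a b => ric0 G a b x)]
  ring

/-- `T(u)(∇f,∇v)` -/
theorem g2c_ev_TT (hx : x ∈ U) :
    ev G (fun a b => TT G w a b x) u v x = ev G (fun a b => hess G w a b x) u v x +
      w x * (ev G (fun a b => ric G a b x) u v x - scal G x / 4 * inn G u v x) -
        rho G w x * inn G u v x := by
  unfold TT sch
  rw [g2c_ev_sub, g2c_ev_add, g2c_ev_smul, g2c_ev_smul, g2c_ev_sub, g2c_ev_smul,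
    g2c_ev_metric hG hx]

theorem g2c_ev_sch (hx : x ∈ U) :
    ev G (fun a b => sch G a b x) u v x =
      ev G (fun a b => ric G a b x) u v x - scal G x / 4 * inn G u v x := by
  unfold sch
  rw [g2c_ev_sub, g2c_ev_smul, g2c_ev_metric hG hx]

/-- `T(w) = 0` on `U` implies `dρ(w) = -S∇w` -/
theorem g2c_pd_rho (hw : ContDiffOn ℝ ∞ w U) (hx : x ∈ U) (h0 : ∀ y ∈ U, ∀ a b, TT G w a b y = 0)
    (b : Fin 3) : pd b (rho G w) x = -∑ a, sch G b a x * grad G w a x := by
  have h1 := div_TT hG hw hx b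
  have h2 : ∀ a c, pd c (TT G w a b) x = 0 := by
    intro a c
    have h3 : TT G w a b =ᶠ[𝓝 x] fun _ => (0 : ℝ) := by
      filter_upwards [hG.op.mem_nhds hx] with y hy using h0 y hy a b
    rw [pd_congr h3, pd_const]
  simp only [h2, h0 x hx, mul_zero, add_zero, Finset.sum_const_zero, sub_zero] at h1
  linarith

end

end YR
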