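import Pool.Agent.Rig71.Loc7
import Pool.Agent.Rig71.Glob2a
import Pool.Agent.Rig71.Glob2c

/-!
CONF: the metric `w⁻² g`, globally.
-/

open scoped ContDiff Topology
open MeasureTheory Metric Set Filter

noncomputable section

namespace YR

/-! ### pointwise -/

namespace ConfAux

variable {U : Set E} {G : E → Mat} (hG : LM U G) {u v w f : E → ℝ} {x : E}

include hG

theorem gi_cf (hp : ∀ y ∈ U, 0 < w y) (hx : x ∈ U) (a b : Fin 3) :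
    gi (cf G w) x a b = w x ^ 2 * gi G x a b := by
  have hw : w x ≠ 0 := (hp x hx).ne'
  have hdet : IsUnit (G x).det := (det_pos hG hx).ne'.isUnit
  have h1 : gi (cf G w) x = (w x ^ 2) • gi G x := by
    unfold gi cf
    apply Matrix.inv_eq_right_inv
    rw [Matrix.smul_mul, Matrix.mul_smul, Matrix.mul_nonsing_inv _ hdet, smul_smul]
    rw [← mul_pow, inv_mul_cancel₀ hw, one_pow, one_smul]
  rw [h1]
  rfl

theorem grad_cf (hp : ∀ y ∈ U, 0 < w y) (hx : x ∈ U) (a : Fin 3) :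
    grad (cf G w) u a x = w x ^ 2 * grad G u a x := by
  unfold grad
  rw [Finset.mul_sum]
  refine Finset.sum_congr rfl fun b _ => ?_
  rw [gi_cf hG hp hx]
  ring

theorem ev_cf (hp : ∀ y ∈ U, 0 < w y) (hx : x ∈ U) (h : Fin 3 → Fin 3 → ℝ) :
    ev (cf G w) h u v x = w x ^ 4 * ev G h u v x := by
  unfold ev
  rw [Finset.mul_sum]
  refine Finset.sum_congr rfl fun a _ => ?_
  rw [Finset.mul_sum]
  refine Finset.sum_congr rfl fun b _ => ?_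
  rw [grad_cf hG hp hx, grad_cf hG hp hx]
  ring

/-- `⟨du,dv⟩` through gradients -/
theorem ev_metric (hx : x ∈ U) : ev G (fun a b => G x a b) u v x = inn G u v x := by
  rw [ev_eq_inn hG hx, inn_eq_grad hG hx]
  refine Finset.sum_congr rfl fun a _ => ?_
  rw [pd_eq_grad hG hx]

end ConfAux

open ConfAux

theorem ConfAux.hd1 (t : ℝ) (ht : 0 < t) : HasDerivAt (fun s : ℝ => s ^ (-1 / 2 : ℝ))
    ((-1 / 2) * t ^ (-3 / 2 : ℝ)) t := by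
  have := Real.hasDerivAt_rpow_const (x := t) (p := (-1 / 2 : ℝ)) (Or.inl ht.ne')
  rwa [show (-1 / 2 : ℝ) - 1 = -3 / 2 by norm_num] at this

theorem ConfAux.hd2 (t : ℝ) (ht : 0 < t) : HasDerivAt (fun s : ℝ => (-1 / 2) * s ^ (-3 / 2 : ℝ))
    ((3 / 4) * t ^ (-5 / 2 : ℝ)) t := by
  have := (Real.hasDerivAt_rpow_const (x := t) (p := (-3 / 2 : ℝ)) (Or.inl ht.ne')).const_mul
    (-1 / 2 : ℝ)
  rw [show (-3 / 2 : ℝ) - 1 = -5 / 2 by norm_num, ← mul_assoc,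
    show (-1 / 2 : ℝ) * (-3 / 2) = 3 / 4 by norm_num] at this
  exact this

theorem ConfAux.r1 (w : ℝ) (h0 : 0 < w) : w ^ (5 / 2 : ℝ) * w ^ (-1 / 2 : ℝ) = w ^ 2 := by
  rw [← Real.rpow_add h0, show (5 / 2 : ℝ) + -1 / 2 = (2 : ℕ) by norm_num, Real.rpow_natCast]

theorem ConfAux.r2 (w : ℝ) (h0 : 0 < w) : w ^ (5 / 2 : ℝ) * w ^ (-3 / 2 : ℝ) = w := by
  rw [← Real.rpow_add h0, show (5 / 2 : ℝ) + -3 / 2 = 1 by norm_num, Real.rpow_one]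

theorem ConfAux.r3 (w : ℝ) (h0 : 0 < w) : w ^ (5 / 2 : ℝ) * w ^ (-5 / 2 : ℝ) = 1 := by
  rw [← Real.rpow_add h0, show (5 / 2 : ℝ) + -5 / 2 = 0 by norm_num, Real.rpow_zero]

theorem ConfAux.L_alg {X X1 X2 X3 w l lw iwu iww R u : ℝ} (r1 : X * X1 = w ^ 2)
    (r2 : X * X2 = w) (r3 : X * X3 = 1) :
    -8 * (w ^ 2 * l - w * iwu) +
      6 * ((lw + R / 4 * w) / 3 * w + (lw + R / 4 * w) / 3 * w - iww) * u =
    X * (-8 * (X1 * l + u * (-1 / 2 * X2 * lw + 3 / 4 * X3 * iww) + 2 * (-1 / 2 * X2 * iwu)) +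
      R * (X1 * u)) := by
  linear_combination (8 * l - R * u) * r1 + (-4 * u * lw - 8 * iwu) * r2 + (6 * u * iww) * r3

/-! ### evaluation of bilinear forms is linear -/

theorem ConfAux.ev_add (G : E → Mat) (h k : Fin 3 → Fin 3 → ℝ) (u v : E → ℝ) (x : E) :
    ev G (fun a b => h a b + k a b) u v x = ev G h u v x + ev G k u v x := by
  simp only [ev, add_mul, Finset.sum_add_distrib]

theorem ConfAux.ev_smul (G : E → Mat) (c : ℝ) (h : Fin 3 → Fin 3 → ℝ) (u v : E → ℝ) (x : E) :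
    ev G (fun a b => c * h a b) u v x = c * ev G h u v x := by
  simp only [ev, Finset.mul_sum, mul_assoc]

theorem ConfAux.ev_dd {U : Set E} {G : E → Mat} (hG : LM U G) {x : E} (hx : x ∈ U)
    (w f u v : E → ℝ) :
    ev G (fun a b => pd a w x * pd b f x) u v x = inn G w u x * inn G f v x := by
  have h1 : inn G w u x = ∑ a, pd a w x * grad G u a x := by
    rw [inn_symm hG hx, inn_eq_grad hG hx]
    exact Finset.sum_congr rfl fun a _ => mul_comm _ _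
  have h2 : inn G f v x = ∑ a, pd a f x * grad G v a x := by
    rw [inn_symm hG hx, inn_eq_grad hG hx]
    exact Finset.sum_congr rfl fun a _ => mul_comm _ _
  rw [h1, h2, Finset.sum_mul_sum]
  unfold ev
  refine Finset.sum_congr rfl fun a _ => Finset.sum_congr rfl fun b _ => ?_
  ring

theorem ConfAux.ip_smul (G : E → Mat) (c : ℝ) (h k : Fin 3 → Fin 3 → ℝ) (x : E) :
    ip G (fun a b => c * h a b) (fun a b => c * k a b) x = c ^ 2 * ip G h k x := by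
  simp only [ip, Finset.mul_sum]
  refine Finset.sum_congr rfl fun a _ => Finset.sum_congr rfl fun b _ =>
    Finset.sum_congr rfl fun c _ => Finset.sum_congr rfl fun d _ => ?_
  ring

variable {M : Type*} [TopologicalSpace M] {𝒜 : Atl M} (𝒢 : Met 𝒜) {U V : Set M}
  {u v w f k : M → ℝ} (hw : 𝒜.Sm w) (hpos : ∀ p, 0 < w p) {p : M}

theorem ConfAux.rd_phi (u : M → ℝ) (p : M) :
    𝒜.rd u (𝒜.idx p) (𝒜.φ (𝒜.idx p) p) = u p := by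
  unfold Atl.rd
  rw [(𝒜.φ _).left_inv (𝒜.idx_source p)]

theorem ConfAux.mem4 (p : M) : 𝒜.φ (𝒜.idx p) p ∈ ball (0 : E) 4 :=
  ball_subset_ball (by norm_num) (𝒜.idx_ball p)

theorem ConfAux.mem_dom (hp : p ∈ U) : 𝒜.φ (𝒜.idx p) p ∈ 𝒜.dom U (𝒜.idx p) := by
  refine ⟨mem4 p, ?_⟩
  rw [(𝒜.φ _).left_inv (𝒜.idx_source p)]
  exact hp

theorem ConfAux.lm_dom (hU : IsOpen U) (i : Fin 𝒜.n) : LM (𝒜.dom U i) (𝒢.g i) :=
  (𝒢.lm i).mono (𝒜.isOpen_dom hU i) fun _ hz => hz.1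

namespace Met

@[ext] theorem ext' {𝒢 ℋ : Met 𝒜} (h : ∀ i, 𝒢.g i = ℋ.g i) : 𝒢 = ℋ := by
  cases 𝒢
  cases ℋ
  congr
  exact funext h

theorem inn_conf (u v : M → ℝ) (p : M) :
    (𝒢.conf w hw hpos).inn u v p = w p ^ 2 * 𝒢.inn u v p := by
  unfold Met.inn Atl.glob
  rw [← rd_phi (𝒜 := 𝒜) w p]
  exact YR.inn_cf (𝒢.lm _) (fun _ _ => hpos _) (mem4 p)

theorem lap_conf (hU : IsOpen U) (hp : p ∈ U) (hu : 𝒜.SmOn U u) :
    (𝒢.conf w hw hpos).lap u p = w p ^ 2 * 𝒢.lap u p - w p * 𝒢.inn w u p := by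
  unfold Met.lap Met.inn Atl.glob
  rw [← rd_phi (𝒜 := 𝒜) w p]
  exact YR.lap_cf (lm_dom 𝒢 hU _) ((hw.on U) _) (fun _ _ => hpos _) (hu _) (mem_dom hp)

theorem hessv_conf (hU : IsOpen U) (hp : p ∈ U) (hf : 𝒜.SmOn U f) (u v : M → ℝ) :
    (𝒢.conf w hw hpos).hessv f u v p = w p ^ 4 * (𝒢.hessv f u v p +
      (𝒢.inn w u p * 𝒢.inn f v p + 𝒢.inn w v p * 𝒢.inn f u p - 𝒢.inn w f p * 𝒢.inn u v p) /
        w p) := by
  unfold Met.hessv Met.inn Atl.glob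
  rw [← rd_phi (𝒜 := 𝒜) w p]
  set i := 𝒜.idx p
  set z := 𝒜.φ i p
  have hz : z ∈ 𝒜.dom U i := mem_dom hp
  have hG := lm_dom 𝒢 hU i
  have hwi : ContDiffOn ℝ ∞ (𝒜.rd w i) (𝒜.dom U i) := hw.on U i
  have hposi : ∀ y ∈ 𝒜.dom U i, 0 < 𝒜.rd w i y := fun _ _ => hpos _
  have h1 : (fun a b => YR.hess (cf (𝒢.g i) (𝒜.rd w i)) (𝒜.rd f i) a b z) = fun a b =>
      YR.hess (𝒢.g i) (𝒜.rd f i) a b z + (𝒜.rd w i z)⁻¹ *
        ((YR.pd a (𝒜.rd w i) z * YR.pd b (𝒜.rd f i) z +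
          YR.pd a (𝒜.rd f i) z * YR.pd b (𝒜.rd w i) z) +
            (-YR.inn (𝒢.g i) (𝒜.rd w i) (𝒜.rd f i) z) * 𝒢.g i z a b) := by
    funext a b
    rw [YR.hess_cf hG hwi hposi (hf i) hz]
    field_simp
    ring
  show ev (cf (𝒢.g i) (𝒜.rd w i)) (fun a b => YR.hess (cf (𝒢.g i) (𝒜.rd w i)) (𝒜.rd f i) a b z)
    (𝒜.rd u i) (𝒜.rd v i) z = _
  rw [ev_cf hG hposi hz, h1, ev_add, ev_smul, ev_add, ev_add,
    ev_smul _ _ (fun a b => 𝒢.g i z a b), ev_dd hG hz, ev_dd hG hz, ev_metric hG hz]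
  ring

theorem ricv_conf (u v : M → ℝ) (p : M) :
    (𝒢.conf w hw hpos).ricv u v p = w p ^ 4 * (𝒢.ricv u v p + 𝒢.hessv w u v p / w p +
      (𝒢.lap w p / w p - 2 * 𝒢.inn w w p / w p ^ 2) * 𝒢.inn u v p) := by
  unfold Met.ricv Met.hessv Met.inn Met.lap Atl.glob
  rw [← rd_phi (𝒜 := 𝒜) w p]
  set i := 𝒜.idx p
  set z := 𝒜.φ i p
  have hz : z ∈ ball (0 : E) 4 := mem4 p
  have hG := 𝒢.lm i
  have hposi : ∀ y ∈ ball (0 : E) 4, 0 < 𝒜.rd w i y := fun _ _ => hpos _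
  have h1 : (fun a b => YR.ric (cf (𝒢.g i) (𝒜.rd w i)) a b z) = fun a b =>
      (YR.ric (𝒢.g i) a b z + (𝒜.rd w i z)⁻¹ * YR.hess (𝒢.g i) (𝒜.rd w i) a b z) +
        (YR.lap (𝒢.g i) (𝒜.rd w i) z / 𝒜.rd w i z -
          2 * YR.inn (𝒢.g i) (𝒜.rd w i) (𝒜.rd w i) z / 𝒜.rd w i z ^ 2) * 𝒢.g i z a b := by
    funext a b
    rw [YR.ric_cf hG (hw i) hposi hz, div_eq_inv_mul (YR.hess _ _ _ _ _)]
  show ev (cf (𝒢.g i) (𝒜.rd w i)) (fun a b => YR.ric (cf (𝒢.g i) (𝒜.rd w i)) a b z)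
    (𝒜.rd u i) (𝒜.rd v i) z = _
  rw [ev_cf hG hposi hz, h1, ev_add, ev_add, ev_smul, ev_smul _ _ (fun a b => 𝒢.g i z a b),
    ev_metric hG hz]
  ring

theorem scal_conf (p : M) : (𝒢.conf w hw hpos).scal p = 6 * 𝒢.bb w w p := by
  unfold Met.scal Met.bb Met.rho Met.lap Met.inn Atl.glob
  have h := YR.scal_cf (𝒢.lm (𝒜.idx p)) (hw (𝒜.idx p)) (fun _ _ => hpos _) (mem4 (𝒜 := 𝒜) p)
  simp only [YR.bb, YR.rho, rd_phi] at h
  exact h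

theorem e2_conf (p : M) : (𝒢.conf w hw hpos).e2 p = w p ^ 2 * 𝒢.t2 w p := by
  unfold Met.e2 Met.t2 Atl.glob
  rw [← rd_phi (𝒜 := 𝒜) w p]
  set i := 𝒜.idx p
  set z := 𝒜.φ i p
  have hz : z ∈ ball (0 : E) 4 := mem4 p
  have hG := 𝒢.lm i
  have hposi : ∀ y ∈ ball (0 : E) 4, 0 < 𝒜.rd w i y := fun _ _ => hpos _
  have h0 : 𝒜.rd w i z ≠ 0 := (hposi z hz).ne'
  have h1 : (fun a b => YR.ric0 (cf (𝒢.g i) (𝒜.rd w i)) a b z) = fun a b =>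
      (𝒜.rd w i z)⁻¹ * YR.TT (𝒢.g i) (𝒜.rd w i) a b z := by
    funext a b
    rw [YR.ric0_cf hG (hw i) hposi hz, div_eq_inv_mul]
  show ip (cf (𝒢.g i) (𝒜.rd w i)) (fun a b => YR.ric0 (cf (𝒢.g i) (𝒜.rd w i)) a b z)
    (fun a b => YR.ric0 (cf (𝒢.g i) (𝒜.rd w i)) a b z) z = _
  rw [ip_cf hG hposi hz, h1, ip_smul]
  field_simp

theorem sig2_conf (p : M) : (𝒢.conf w hw hpos).sig2 p =
    3 / 4 * 𝒢.bb w w p ^ 2 - w p ^ 2 * 𝒢.t2 w p / 2 := by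
  rw [Met.sig2_eq, scal_conf, e2_conf]
  ring

/-- `T_ĝ(u) = T(u w)/w` -/
theorem t2_conf (hU : IsOpen U) (hp : p ∈ U) (hu : 𝒜.SmOn U u) :
    (𝒢.conf w hw hpos).t2 u p = w p ^ 2 * 𝒢.t2 (fun q => u q * w q) p := by
  unfold Met.t2 Atl.glob
  rw [← rd_phi (𝒜 := 𝒜) w p]
  set i := 𝒜.idx p
  set z := 𝒜.φ i p
  have hz : z ∈ 𝒜.dom U i := mem_dom hp
  have hG := lm_dom 𝒢 hU i
  have hwi : ContDiffOn ℝ ∞ (𝒜.rd w i) (𝒜.dom U i) := hw.on U i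
  have hposi : ∀ y ∈ 𝒜.dom U i, 0 < 𝒜.rd w i y := fun _ _ => hpos _
  have h0 : 𝒜.rd w i z ≠ 0 := (hposi z hz).ne'
  have hGc : LM (𝒜.dom U i) (cf (𝒢.g i) (𝒜.rd w i)) := cf_lm hG hwi hposi
  have h1 : (fun a b => YR.TT (cf (𝒢.g i) (𝒜.rd w i)) (𝒜.rd u i) a b z) = fun a b =>
      (𝒜.rd w i z)⁻¹ * YR.TT (𝒢.g i) (fun y => 𝒜.rd u i y * 𝒜.rd w i y) a b z := by
    funext a b
    rw [YR.TT_mul hG hwi hposi (hu i) hz]
    have h2 : YR.ric0 (cf (𝒢.g i) (𝒜.rd w i)) a b z = YR.TT (𝒢.g i) (𝒜.rd w i) a b z /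
        𝒜.rd w i z := YR.ric0_cf hG hwi hposi hz a b
    have h3 : YR.TT (𝒢.g i) (𝒜.rd w i) a b z =
        𝒜.rd w i z * YR.ric0 (cf (𝒢.g i) (𝒜.rd w i)) a b z := by
      rw [h2]; field_simp
    rw [h3]
    unfold YR.TT YR.sch YR.rho YR.ric0
    field_simp
    ring
  show ip (cf (𝒢.g i) (𝒜.rd w i)) (fun a b => YR.TT (cf (𝒢.g i) (𝒜.rd w i)) (𝒜.rd u i) a b z)
    (fun a b => YR.TT (cf (𝒢.g i) (𝒜.rd w i)) (𝒜.rd u i) a b z) z = _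
  rw [ip_cf hG hposi hz, h1, ip_smul]
  field_simp
  rfl

theorem rho_conf (hU : IsOpen U) (hp : p ∈ U) (hu : 𝒜.SmOn U u) :
    (𝒢.conf w hw hpos).rho u p =
      (w p ^ 2 * 𝒢.lap u p - w p * 𝒢.inn w u p + 3 / 2 * 𝒢.bb w w p * u p) / 3 := by
  unfold Met.rho
  rw [lap_conf 𝒢 hw hpos hU hp hu, scal_conf]
  ring

theorem bb_conf (hU : IsOpen U) (hp : p ∈ U) (hu : 𝒜.SmOn U u) (hv : 𝒜.SmOn U v) :
    (𝒢.conf w hw hpos).bb u v p = 𝒢.bb (fun q => u q * w q) (fun q => v q * w q) p := by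
  have hw' := hw.on U
  have h1 : 𝒢.rho (fun q => u q * w q) p =
      (u p * 𝒢.lap w p + w p * 𝒢.lap u p + 2 * 𝒢.inn u w p + 𝒢.scal p / 4 * (u p * w p)) / 3 := by
    unfold Met.rho
    rw [𝒢.lap_mul hU hp hu hw']
  have h2 : 𝒢.rho (fun q => v q * w q) p =
      (v p * 𝒢.lap w p + w p * 𝒢.lap v p + 2 * 𝒢.inn v w p + 𝒢.scal p / 4 * (v p * w p)) / 3 := by
    unfold Met.rho
    rw [𝒢.lap_mul hU hp hv hw']
  have h3 : 𝒢.inn (fun q => u q * w q) (fun q => v q * w q) p =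
      u p * (v p * 𝒢.inn w w p + w p * 𝒢.inn v w p) +
        w p * (v p * 𝒢.inn w u p + w p * 𝒢.inn v u p) := by
    rw [𝒢.inn_mul hU hp hu hw', 𝒢.inn_symm w, 𝒢.inn_symm u, 𝒢.inn_mul hU hp hv hw',
      𝒢.inn_mul hU hp hv hw']
  unfold Met.bb
  rw [h1, h2, h3, rho_conf 𝒢 hw hpos hU hp hu, rho_conf 𝒢 hw hpos hU hp hv, inn_conf]
  unfold Met.bb Met.rho
  rw [𝒢.inn_symm w u, 𝒢.inn_symm w v, 𝒢.inn_symm v u]
  ring

/-- if `T(w) = 0` at `p` -/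
theorem h2_conf_of_t2 (hU : IsOpen U) (hp : p ∈ U) (hu : 𝒜.SmOn U u) (h0 : 𝒢.t2 w p = 0) :
    (𝒢.conf w hw hpos).h2 u p = w p ^ 2 * 𝒢.t2 (fun q => u q * w q) p +
      (𝒢.conf w hw hpos).lap u p ^ 2 / 3 := by
  have h1 : (𝒢.conf w hw hpos).e2 p = 0 := by rw [e2_conf, h0, mul_zero]
  have h2 : (𝒢.conf w hw hpos).eh u p = 0 := by
    have := (𝒢.conf w hw hpos).eh_sq_le u p
    rw [h1, zero_mul] at this
    nlinarith [sq_nonneg ((𝒢.conf w hw hpos).eh u p)]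
  rw [← t2_conf 𝒢 hw hpos hU hp hu, Met.t2_eq, h1, h2]
  ring

theorem scal_conf_const (c : ℝ) (hc : 0 < c) (p : M) :
    (𝒢.conf (fun _ => c) (Atl.Sm.const c) fun _ => hc).scal p = c ^ 2 * 𝒢.scal p := by
  rw [scal_conf]
  unfold Met.bb Met.rho
  rw [lap_const, inn_const]
  ring

theorem conf_conf (hf : 𝒜.Sm f) (hfp : ∀ p, 0 < f p) :
    (𝒢.conf w hw hpos).conf f hf hfp =
      𝒢.conf (fun q => f q * w q) (Atl.Sm.mul hf hw) fun q => mul_pos (hfp q) (hpos q) := by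
  apply ext'
  intro i
  funext z
  show cf (cf (𝒢.g i) (𝒜.rd w i)) (𝒜.rd f i) z = cf (𝒢.g i) (𝒜.rd (fun q => f q * w q) i) z
  unfold cf Atl.rd
  rw [smul_smul, ← mul_pow, ← mul_inv]

theorem bb_self_min (hU : IsOpen U) (hp : p ∈ U) (hu : 𝒜.SmOn U u) (hm : IsLocalMin u p)
    (h0 : 0 < u p) (hs : 0 < 𝒢.scal p) : 0 < 𝒢.bb u u p := by
  unfold Met.bb Met.rho
  rw [𝒢.inn_eq_zero_of_isLocalExtr hU hp hu (Or.inl hm) u]
  have h1 := 𝒢.lap_nonneg_of_isLocalMin hU hp hu hm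
  have h2 : 0 < (𝒢.lap u p + 𝒢.scal p / 4 * u p) / 3 := by
    have : 0 < 𝒢.scal p / 4 * u p := by positivity
    linarith
  nlinarith [mul_pos h2 h0]

/-- conformal covariance of `L`, `W = w^{-1/2}` -/
theorem L_conf (hU : IsOpen U) (hp : p ∈ U) (hu : 𝒜.SmOn U u) :
    (𝒢.conf w hw hpos).L u p =
      w p ^ (5 / 2 : ℝ) * 𝒢.L (fun q => w q ^ (-1 / 2 : ℝ) * u q) p := by
  have hw' := hw.on U
  have hW : 𝒜.SmOn U fun q => w q ^ (-1 / 2 : ℝ) := hw'.rpow (fun q _ => hpos q) _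
  have h0 := hpos p
  have hd1 : ∀ t : ℝ, 0 < t → HasDerivAt (fun s : ℝ => s ^ (-1 / 2 : ℝ))
      ((-1 / 2) * t ^ (-3 / 2 : ℝ)) t := ConfAux.hd1
  have hd2 : ∀ t : ℝ, 0 < t → HasDerivAt (fun s : ℝ => (-1 / 2) * s ^ (-3 / 2 : ℝ))
      ((3 / 4) * t ^ (-5 / 2 : ℝ)) t := ConfAux.hd2
  have hF : ContDiffOn ℝ ∞ (fun s : ℝ => s ^ (-1 / 2 : ℝ)) (Ioi 0) := fun t ht =>
    (Real.contDiffAt_rpow_const_of_ne (ne_of_gt ht)).contDiffWithinAt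
  have hl := 𝒢.lap_comp hU hp hw' isOpen_Ioi hF (fun q _ => hpos q)
  have e1 : deriv (fun s : ℝ => s ^ (-1 / 2 : ℝ)) (w p) = (-1 / 2) * w p ^ (-3 / 2 : ℝ) :=
    (hd1 _ h0).deriv
  have e2 : deriv (deriv fun s : ℝ => s ^ (-1 / 2 : ℝ)) (w p) = (3 / 4) * w p ^ (-5 / 2 : ℝ) := by
    have : deriv (fun s : ℝ => s ^ (-1 / 2 : ℝ)) =ᶠ[𝓝 (w p)]
        fun s => (-1 / 2) * s ^ (-3 / 2 : ℝ) := by
      filter_upwards [isOpen_Ioi.mem_nhds (show w p ∈ Ioi (0 : ℝ) from h0)] with t ht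
      exact (hd1 t ht).deriv
    rw [this.deriv_eq, (hd2 _ h0).deriv]
  rw [e1, e2] at hl
  have hi : ∀ f : M → ℝ, 𝒢.inn (fun q => w q ^ (-1 / 2 : ℝ)) f p =
      (-1 / 2) * w p ^ (-3 / 2 : ℝ) * 𝒢.inn w f p := fun f => by
    have := 𝒢.inn_comp (f := f) hU hp hw' (hd1 _ h0)
    exact this
  have hL : 𝒢.lap (fun q => w q ^ (-1 / 2 : ℝ) * u q) p =
      w p ^ (-1 / 2 : ℝ) * 𝒢.lap u p + u p * 𝒢.lap (fun q => w q ^ (-1 / 2 : ℝ)) p +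
        2 * 𝒢.inn (fun q => w q ^ (-1 / 2 : ℝ)) u p := by
    have := 𝒢.lap_mul hU hp hW hu
    exact this
  have r1 := ConfAux.r1 _ h0
  have r2 := ConfAux.r2 _ h0
  have r3 := ConfAux.r3 _ h0
  unfold Met.L
  rw [lap_conf 𝒢 hw hpos hU hp hu, scal_conf, hL, hl, hi]
  unfold Met.bb Met.rho
  exact ConfAux.L_alg r1 r2 r3

theorem scal_conf_L (p : M) : (𝒢.conf w hw hpos).scal p =
      w p ^ (5 / 2 : ℝ) * 𝒢.L (fun q => w q ^ (-1 / 2 : ℝ)) p := by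
  have h := L_conf 𝒢 hw hpos isOpen_univ (mem_univ p) (Atl.SmOn.const (𝒜 := 𝒜) 1)
  simp only [mul_one] at h
  rw [← h]
  unfold Met.L
  rw [lap_const]
  ring

end Met

end YR
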