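import Pool.Agent.Rig71.DefsA
import Pool.Agent.Rig71.Int1
import Pool.Agent.Rig71.Int2
import Pool.Agent.Rig71.Int3


open scoped ContDiff Topology
open MeasureTheory Metric Set Filter

noncomputable section

namespace YR

variable {M : Type*} [TopologicalSpace M] [CompactSpace M] [T2Space M] [ConnectedSpace M]
  [MeasurableSpace M] [BorelSpace M] {𝒜 : Atl M} (𝒢 : Met 𝒜)

/-- (IDENT3) `∫ σ₂` of the conformal metric `w⁻² g` -/
theorem ident3 {w : M → ℝ} (hw : 𝒜.Sm w) (hp : ∀ p, 0 < w p) :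
    (𝒢.conf w hw hp).S2 =
      ∫ p, (w p * 𝒢.sig2 p
        + (1 / 2) * (𝒢.ricv w w p - 𝒢.scal p / 3 * 𝒢.inn w w p) / w p
        - (1 / 48) * 𝒢.scal p * 𝒢.inn w w p / w p
        - (1 / 8) * 𝒢.inn w w p ^ 2 / w p ^ 3
        - (1 / 16) * (𝒢.conf w hw hp).scal p * 𝒢.inn w w p / w p ^ 3) ∂𝒢.vol := by
  rw [Met.S2_conf_J]
  refine integral_congr_ae (Filter.Eventually.of_forall fun p => ?_)
  have h0 : w p ≠ 0 := (hp p).ne'
  simp only
  rw [Met.scal_conf]
  unfold Met.bb Met.rho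
  field_simp
  ring

end YR
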