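import Pool.Agent.Rig71.DefsA
import Pool.Agent.Rig71.Ident3
import Pool.Agent.Rig71.Glob2a
import Pool.Agent.Rig71.Glob2c
import Pool.Agent.Rig71.Int1
import Pool.Agent.Rig71.Int2
import Pool.Agent.Rig71.Int3

/-! MP_71b0e8_gt, module Apriori. -/

open scoped ContDiff Topology
open MeasureTheory Metric Set Filter

noncomputable section

namespace YR

variable {M : Type*} [TopologicalSpace M] [CompactSpace M] [T2Space M] [ConnectedSpace M]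
  [MeasurableSpace M] [BorelSpace M] {𝒜 : Atl M} (𝒢 : Met 𝒜)

omit [CompactSpace M] [T2Space M] [ConnectedSpace M] [MeasurableSpace M] [BorelSpace M] in
theorem apriori_inn {v : M → ℝ} (hv : 𝒜.Sm v) (p : M) :
    𝒢.inn (fun p => v p ^ 4) (fun p => v p ^ 4) p = 16 * v p ^ 6 * 𝒢.inn v v p := by
  have hF : HasDerivAt (fun t : ℝ => t ^ 4) (4 * v p ^ 3) (v p) := by
    simpa using hasDerivAt_pow 4 (v p)
  have h1 := 𝒢.inn_comp isOpen_univ (mem_univ p) (hv.on univ) (f := fun p => v p ^ 4) hF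
  have h2 := 𝒢.inn_comp isOpen_univ (mem_univ p) (hv.on univ) (f := v) hF
  simp only at h1 h2
  rw [h1, 𝒢.inn_symm, h2]
  ring

omit [CompactSpace M] [T2Space M] [ConnectedSpace M] [MeasurableSpace M] [BorelSpace M] in
theorem apriori_ricv {v : M → ℝ} (hv : 𝒜.Sm v) (p : M) :
    𝒢.ricv (fun p => v p ^ 4) (fun p => v p ^ 4) p = 16 * v p ^ 6 * 𝒢.ricv v v p := by
  have hF : HasDerivAt (fun t : ℝ => t ^ 4) (4 * v p ^ 3) (v p) := by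
    simpa using hasDerivAt_pow 4 (v p)
  have h1 := 𝒢.ricv_comp_left isOpen_univ (mem_univ p) (hv.on univ) hF (fun p => v p ^ 4)
  have h2 := 𝒢.ricv_comp_left isOpen_univ (mem_univ p) (hv.on univ) hF v
  simp only at h1 h2
  rw [h1, 𝒢.ricv_symm, h2]
  ring

/-- (APRIORI) the a priori bound -/
theorem apriori (_hR : ∀ p, 0 < 𝒢.scal p) : ∃ C : ℝ, 0 ≤ C ∧ ∀ (v : M → ℝ) (_ : 𝒜.Sm v)
    (_ : ∀ p, 0 < v p) (hw : 𝒜.Sm (fun p => v p ^ 4)) (hp : ∀ p, 0 < v p ^ 4),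
    (∀ p, 0 < (𝒢.conf (fun p => v p ^ 4) hw hp).scal p) →
    (𝒢.conf (fun p => v p ^ 4) hw hp).S2 + ∫ p, 𝒢.inn v v p ^ 2 ∂𝒢.vol
      ≤ C * ∫ p, v p ^ 4 ∂𝒢.vol := by
  obtain ⟨C, hC, hs, he, hr⟩ := 𝒢.exists_curv_bound
  refine ⟨C ^ 2 + (12 * C) ^ 2 / 4, by positivity, fun v hv hpos hw hp hsc => ?_⟩
  have hi := ident3 𝒢 hw hp
  rw [hi]
  set sc' := (𝒢.conf (fun p => v p ^ 4) hw hp).scal with hsc'
  have hsm' : 𝒜.Sm sc' := (𝒢.conf (fun p => v p ^ 4) hw hp).Sm_scal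
  have hin : 𝒜.Sm (𝒢.inn v v) := 𝒢.Sm_inn hv hv
  have hinw : 𝒜.Sm (𝒢.inn (fun p => v p ^ 4) (fun p => v p ^ 4)) := 𝒢.Sm_inn hw hw
  have hrw : 𝒜.Sm (𝒢.ricv (fun p => v p ^ 4) (fun p => v p ^ 4)) := 𝒢.Sm_ricv hw hw
  have hF : 𝒜.Sm fun p => (v p ^ 4 * 𝒢.sig2 p
        + (1 / 2) * (𝒢.ricv (fun p => v p ^ 4) (fun p => v p ^ 4) p -
          𝒢.scal p / 3 * 𝒢.inn (fun p => v p ^ 4) (fun p => v p ^ 4) p) / v p ^ 4
        - (1 / 48) * 𝒢.scal p * 𝒢.inn (fun p => v p ^ 4) (fun p => v p ^ 4) p / v p ^ 4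
        - (1 / 8) * 𝒢.inn (fun p => v p ^ 4) (fun p => v p ^ 4) p ^ 2 / (v p ^ 4) ^ 3
        - (1 / 16) * sc' p * 𝒢.inn (fun p => v p ^ 4) (fun p => v p ^ 4) p / (v p ^ 4) ^ 3) := by
    have h4 : ∀ p, v p ^ 4 ≠ 0 := fun p => (hp p).ne'
    have h12 : ∀ p, (v p ^ 4) ^ 3 ≠ 0 := fun p => pow_ne_zero 3 (h4 p)
    refine Atl.Sm.sub (Atl.Sm.sub (Atl.Sm.sub (Atl.Sm.add ?_ ?_) ?_) ?_) ?_
    · exact hw.mul 𝒢.Sm_sig2
    · exact Atl.Sm.div (Atl.Sm.mul (Atl.Sm.const _) (Atl.Sm.sub hrw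
        (Atl.Sm.mul (Atl.Sm.div 𝒢.Sm_scal (Atl.Sm.const 3) fun _ => by norm_num) hinw))) hw h4
    · exact Atl.Sm.div (Atl.Sm.mul (Atl.Sm.mul (Atl.Sm.const _) 𝒢.Sm_scal) hinw) hw h4
    · exact Atl.Sm.div (Atl.Sm.mul (Atl.Sm.const _) (hinw.pow 2)) (hw.pow 3) h12
    · exact Atl.Sm.div (Atl.Sm.mul (Atl.Sm.mul (Atl.Sm.const _) hsm') hinw) (hw.pow 3) h12
  rw [← integral_add (𝒢.integrable_sm hF) (𝒢.integrable_sm (hin.pow 2)), ← integral_const_mul]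
  refine integral_mono (𝒢.integrable_sm (hF.add (hin.pow 2)))
    (𝒢.integrable_sm (Atl.Sm.mul (Atl.Sm.const _) hw)) fun p => ?_
  simp only [Pi.add_apply]
  rw [apriori_inn 𝒢 hv p, apriori_ricv 𝒢 hv p]
  have hv0 := hpos p
  have hq : 0 ≤ 𝒢.inn v v p := 𝒢.inn_self_nonneg v p
  have hs1 := hs p
  have hr1 := hr v v p
  rw [mul_assoc, Real.mul_self_sqrt hq] at hr1
  have hsig : 𝒢.sig2 p ≤ C ^ 2 := by
    rw [𝒢.sig2_eq]
    have h1 := 𝒢.e2_nonneg p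
    have h2 : 𝒢.scal p ^ 2 ≤ C ^ 2 := sq_le_sq.2 (by rw [abs_of_pos hC]; exact hs1)
    nlinarith [sq_nonneg C]
  have hsc0 : 0 < sc' p := hsc p
  generalize 𝒢.inn v v p = q at *
  generalize 𝒢.ricv v v p = r at *
  generalize 𝒢.scal p = s at *
  generalize 𝒢.sig2 p = g at *
  generalize sc' p = s' at *
  generalize v p = x at *
  have e1 : (1 / 2) * (16 * x ^ 6 * r - s / 3 * (16 * x ^ 6 * q)) / x ^ 4 =
      8 * x ^ 2 * (r - s / 3 * q) := by field_simp; ring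
  have e2 : (1 / 48) * s * (16 * x ^ 6 * q) / x ^ 4 = x ^ 2 * (s / 3 * q) := by
    field_simp; ring
  have e3 : (1 / 8) * (16 * x ^ 6 * q) ^ 2 / (x ^ 4) ^ 3 = 32 * q ^ 2 := by
    field_simp; ring
  have e4 : 0 ≤ (1 / 16) * s' * (16 * x ^ 6 * q) / (x ^ 4) ^ 3 := by positivity
  rw [e1, e2, e3]
  have hx2 : 0 < x ^ 2 := by positivity
  have h1 : r - s / 3 * q ≤ C * q + C / 3 * q := by
    have := (abs_le.1 hr1).2
    have h2 := (abs_le.1 hs1).1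
    nlinarith
  have h2 : -(s / 3 * q) ≤ C / 3 * q := by
    have h2 := (abs_le.1 hs1).1
    nlinarith
  have h3 : 8 * x ^ 2 * (r - s / 3 * q) ≤ 8 * x ^ 2 * (C * q + C / 3 * q) :=
    mul_le_mul_of_nonneg_left h1 (by positivity)
  have h4 : -(x ^ 2 * (s / 3 * q)) ≤ x ^ 2 * (C / 3 * q) := by nlinarith
  have h5 : x ^ 4 * g ≤ x ^ 4 * C ^ 2 := mul_le_mul_of_nonneg_left hsig (by positivity)
  have h6 : 12 * C * x ^ 2 * q ≤ (12 * C) ^ 2 / 4 * x ^ 4 + q ^ 2 := by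
    nlinarith [sq_nonneg (12 * C * x ^ 2 / 2 - q)]
  have h7 : 0 ≤ C * x ^ 2 * q := by positivity
  nlinarith [sq_nonneg q]

end YR
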