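import Pool.Agent.Rig71.B0a

/-!
# B0b : closed linear first order systems : regularity, isolated singularities
-/

open scoped ContDiff Topology
open Metric Set Filter

noncomputable section

namespace YR

/-- the linear form `v ↦ ∑ a, c a * v a` -/
def lf (c : Fin 3 → ℝ) : E →L[ℝ] ℝ := ∑ a, c a • (EuclideanSpace.proj a : E →L[ℝ] ℝ)

theorem lf_apply (c : Fin 3 → ℝ) (v : E) : lf c v = ∑ a, c a * v a := by
  simp [lf]

theorem lf_be (c : Fin 3 → ℝ) (a : Fin 3) : lf c (be a) = c a := by
  rw [lf_apply]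
  simp [be]

theorem fderiv_eq_lf {f : E → ℝ} {x : E} : fderiv ℝ f x = lf fun a => pd a f x := by
  ext v
  rw [fderiv_eq_sum_b0, lf_apply]
  exact Finset.sum_congr rfl fun a _ => mul_comm _ _

theorem lf_contDiffOn {n : WithTop ℕ∞} {U : Set E} {c : Fin 3 → E → ℝ}
    (hc : ∀ a, ContDiffOn ℝ n (c a) U) : ContDiffOn ℝ n (fun x => lf fun a => c a x) U := by
  unfold lf
  exact ContDiffOn.sum fun a _ => (hc a).smul contDiffOn_const

theorem lf_tendsto {l : Filter E} {c : Fin 3 → E → ℝ} {d : Fin 3 → ℝ}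
    (hc : ∀ a, Tendsto (c a) l (𝓝 (d a))) : Tendsto (fun x => lf fun a => c a x) l (𝓝 (lf d)) := by
  unfold lf
  exact tendsto_finsetSum _ fun a _ => (hc a).smul_const _

/-- regularity -/
theorem lin_smooth {m : ℕ} {U : Set E} (hU : IsOpen U) {F : Fin m → E → ℝ}
    {A : Fin 3 → Fin m → Fin m → E → ℝ}
    (hA : ∀ a j k, ContDiffOn ℝ ∞ (A a j k) U)
    (hF : ∀ z ∈ U, ∀ j, DifferentiableAt ℝ (F j) z)
    (hs : ∀ z ∈ U, ∀ a j, pd a (F j) z = ∑ k, A a j k z * F k z) :
    ∀ j, ContDiffOn ℝ ∞ (F j) U := by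
  have key : ∀ n : ℕ, ∀ j, ContDiffOn ℝ n (F j) U := by
    intro n
    induction n with
    | zero =>
      intro j
      rw [Nat.cast_zero, contDiffOn_zero]
      exact fun z hz => (hF z hz j).continuousAt.continuousWithinAt
    | succ n ih =>
      intro j
      rw [show ((n + 1 : ℕ) : WithTop ℕ∞) = (n : WithTop ℕ∞) + 1 by push_cast; rfl,
        contDiffOn_succ_iff_fderiv_of_isOpen hU]
      refine ⟨fun z hz => (hF z hz j).differentiableWithinAt, fun h => ?_, ?_⟩
      · exact absurd h (by simp)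
      · have h1 : ContDiffOn ℝ n (fun x => lf fun a => ∑ k, A a j k x * F k x) U :=
          lf_contDiffOn fun a => ContDiffOn.sum fun k _ =>
            ((hA a j k).of_le (by exact_mod_cast le_top)).mul (ih k)
        refine h1.congr fun z hz => ?_
        rw [fderiv_eq_lf]
        congr 1
        funext a
        exact hs z hz a j
  intro j
  exact contDiffOn_infty.2 fun n => key n j

/-- two points of a punctured ball of `ℝ³` can be joined by two segments avoiding the centre -/
theorem exists_third {p p' : E} {ρ : ℝ} (hρ : 0 < ρ) (hp : p ≠ 0) (hp' : p' ≠ 0) :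
    ∃ q : E, ‖q‖ = ρ ∧ (0 : E) ∉ segment ℝ p q ∧ (0 : E) ∉ segment ℝ q p' := by
  let T : E →ₗ[ℝ] (Fin 2 → ℝ) := LinearMap.pi ![(innerSL ℝ p).toLinearMap, (innerSL ℝ p').toLinearMap]
  have hker : LinearMap.ker T ≠ ⊥ := LinearMap.ker_ne_bot_of_finrank_lt (by simp)
  obtain ⟨v, hv, hv0⟩ := Submodule.exists_mem_ne_zero_of_ne_bot hker
  have hv1 : inner ℝ p v = 0 := congrFun (LinearMap.mem_ker.1 hv) 0
  have hv2 : inner ℝ p' v = 0 := congrFun (LinearMap.mem_ker.1 hv) 1
  have hvn : 0 < ‖v‖ := norm_pos_iff.2 hv0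
  have hcne : ρ / ‖v‖ ≠ 0 := (div_pos hρ hvn).ne'
  have key : ∀ r : E, r ≠ 0 → inner ℝ r v = 0 → ∀ a b : ℝ, a + b = 1 →
      a • r + b • ((ρ / ‖v‖) • v) = 0 → False := by
    intro r hr hrv a b hab h
    have h1 := congrArg (fun x => inner ℝ x v) h
    simp only [inner_add_left, inner_smul_left, hrv, mul_zero, zero_add, inner_zero_left,
      real_inner_self_eq_norm_sq, RCLike.conj_to_real] at h1
    have h2 : b = 0 := by
      rcases mul_eq_zero.1 h1 with h3 | h3
      · exact h3
      · rcases mul_eq_zero.1 h3 with h4 | h4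
        · exact absurd h4 hcne
        · exact absurd h4 (pow_pos hvn 2).ne'
    have h3 : a = 1 := by linarith
    rw [h2, h3, zero_smul, add_zero, one_smul] at h
    exact hr h
  refine ⟨(ρ / ‖v‖) • v, ?_, ?_, ?_⟩
  · rw [norm_smul, Real.norm_of_nonneg (div_pos hρ hvn).le, div_mul_cancel₀ _ hvn.ne']
  · rintro ⟨a, b, -, -, hab, h⟩
    exact key p hp hv1 a b hab h
  · rintro ⟨a, b, -, -, hab, h⟩
    exact key p' hp' hv2 b a (by linarith) (by rw [add_comm]; exact h)

theorem segment_shift {x0 y z : E} (h : (0 : E) ∉ segment ℝ (y - x0) (z - x0)) :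
    x0 ∉ segment ℝ y z := by
  rintro ⟨a, b, ha, hb, hab, h1⟩
  refine h ⟨a, b, ha, hb, hab, ?_⟩
  have : a • (y - x0) + b • (z - x0) = (a • y + b • z) - (a + b) • x0 := by
    rw [add_smul]; module
  rw [this, h1, hab, one_smul, sub_self]

/-- isolated singularities are removable -/
theorem lin_remov {m : ℕ} {x0 : E} {r : ℝ} (hr : 0 < r) {F : Fin m → E → ℝ}
    {A : Fin 3 → Fin m → Fin m → E → ℝ}
    (hA : ∀ a j k, ContDiffOn ℝ ∞ (A a j k) (ball x0 r))
    (hF : ∀ z ∈ ball x0 r \ {x0}, ∀ j, DifferentiableAt ℝ (F j) z)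
    (hs : ∀ z ∈ ball x0 r \ {x0}, ∀ a j, pd a (F j) z = ∑ k, A a j k z * F k z) :
    ∃ F' : Fin m → E → ℝ, (∀ j, ContDiffOn ℝ ∞ (F' j) (ball x0 r)) ∧
      ∀ z ∈ ball x0 r \ {x0}, ∀ j, F' j z = F j z := by
  classical
  set r1 : ℝ := r / 2 with hr1
  have hr1pos : 0 < r1 := by positivity
  have hsub : closedBall x0 r1 ⊆ ball x0 r := closedBall_subset_ball (by rw [hr1]; linarith)
  -- bound for `A`
  have hb : ∀ p : Fin 3 × Fin m × Fin m, ∃ C : ℝ, ∀ z ∈ closedBall x0 r1, |A p.1 p.2.1 p.2.2 z| ≤ C := by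
    intro p
    obtain ⟨C, hC⟩ := (isCompact_closedBall x0 r1).exists_bound_of_continuousOn
      ((hA p.1 p.2.1 p.2.2).continuousOn.mono hsub)
    exact ⟨C, fun z hz => by simpa [Real.norm_eq_abs] using hC z hz⟩
  choose CA hCA using hb
  set K : ℝ := ∑ p, |CA p| with hKdef
  have hK : 0 ≤ K := Finset.sum_nonneg fun _ _ => abs_nonneg _
  have hAK : ∀ z ∈ closedBall x0 r1, ∀ a j k, |A a j k z| ≤ K := fun z hz a j k =>
    (hCA (a, j, k) z hz).trans ((le_abs_self _).trans
      (Finset.single_le_sum (f := fun p => |CA p|) (fun _ _ => abs_nonneg _)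
        (Finset.mem_univ (a, j, k))))
  -- bound on the sphere
  have hsph : ∃ B : ℝ, 0 ≤ B ∧ ∀ y ∈ sphere x0 r1, ∑ k, |F k y| ≤ B := by
    have hc : ContinuousOn (fun y => ∑ k, |F k y|) (sphere x0 r1) := by
      refine continuousOn_finsetSum _ fun k _ => ?_
      refine (ContinuousOn.abs fun y hy => ?_)
      refine (hF y ⟨hsub (sphere_subset_closedBall hy), ?_⟩ k).continuousAt.continuousWithinAt
      rintro rfl
      rw [mem_sphere, dist_self] at hy
      exact hr1pos.ne hy
    obtain ⟨B, hB⟩ := (isCompact_sphere x0 r1).exists_bound_of_continuousOn hc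
    exact ⟨|B|, abs_nonneg _, fun y hy => (le_abs_self _).trans ((hB y hy).trans (le_abs_self _))⟩
  obtain ⟨B, hB0, hB⟩ := hsph
  set C1 : ℝ := Real.exp (3 * m * K * r1) * B with hC1
  have hC10 : 0 ≤ C1 := mul_nonneg (Real.exp_pos _).le hB0
  have hFb : ∀ z ∈ closedBall x0 r1, z ≠ x0 → ∀ j, |F j z| ≤ C1 := by
    intro z hz hzx j
    set d : ℝ := ‖z - x0‖ with hd
    have hdpos : 0 < d := norm_pos_iff.2 (sub_ne_zero.2 hzx)
    have hdle : d ≤ r1 := by rw [hd, ← dist_eq_norm]; exact hz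
    set y : E := x0 + (r1 / d) • (z - x0) with hy
    have hyn : ‖y - x0‖ = r1 := by
      rw [hy, add_sub_cancel_left, norm_smul, Real.norm_of_nonneg (by positivity), ← hd,
        div_mul_cancel₀ _ hdpos.ne']
    have hysph : y ∈ sphere x0 r1 := by rw [mem_sphere, dist_eq_norm]; exact hyn
    have hseg : ∀ w ∈ segment ℝ y z, w ∈ closedBall x0 r1 ∧ w ≠ x0 := by
      intro w hw
      refine ⟨(convex_closedBall x0 r1).segment_subset (sphere_subset_closedBall hysph) hz hw, ?_⟩
      obtain ⟨a, b, ha, hb, hab, rfl⟩ := hw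
      intro he
      have h1 : (a * (r1 / d) + b) • (z - x0) = 0 := by
        have h2 : a • y + b • z - x0 = (a * (r1 / d) + b) • (z - x0) + (a + b - 1) • x0 := by
          rw [hy]; module
        rw [he, sub_self, hab, sub_self, zero_smul, add_zero] at h2
        exact h2.symm
      rcases smul_eq_zero.1 h1 with h2 | h2
      · have h3 : 1 ≤ r1 / d := (one_le_div hdpos).2 hdle
        nlinarith
      · exact sub_ne_zero.2 hzx h2
    have hg := lin_growth (F := F) (A := A) hK (x := y) (y := z)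
      (fun w hw => hF w ⟨hsub (hseg w hw).1, (hseg w hw).2⟩)
      (fun w hw => hs w ⟨hsub (hseg w hw).1, (hseg w hw).2⟩)
      (fun w hw => hAK w (hseg w hw).1) j
    refine hg.trans ?_
    rw [hC1]
    refine mul_le_mul ?_ (hB y hysph) (Finset.sum_nonneg fun _ _ => abs_nonneg _)
      (Real.exp_pos _).le
    refine Real.exp_le_exp.2 (mul_le_mul_of_nonneg_left ?_ (by positivity))
    have h1 : z - y = (1 - r1 / d) • (z - x0) := by rw [hy]; module
    rw [h1, norm_smul, Real.norm_eq_abs, ← hd]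
    have h3 : 1 ≤ r1 / d := (one_le_div hdpos).2 hdle
    rw [abs_of_nonpos (by linarith)]
    have h4 : r1 / d * d = r1 := div_mul_cancel₀ _ hdpos.ne'
    nlinarith
  set C2 : ℝ := 3 * (m * (K * C1)) with hC2
  have hC20 : 0 ≤ C2 := by positivity
  have hfd : ∀ z ∈ closedBall x0 r1, z ≠ x0 → ∀ j, ‖fderiv ℝ (F j) z‖ ≤ C2 := by
    intro z hz hzx j
    refine ContinuousLinearMap.opNorm_le_bound _ hC20 fun v => ?_
    rw [fderiv_eq_sum_b0, Real.norm_eq_abs]
    refine (Finset.abs_sum_le_sum_abs _ _).trans ?_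
    have h3 : ∀ a ∈ (Finset.univ : Finset (Fin 3)), |v a * pd a (F j) z| ≤
        ‖v‖ * (m * (K * C1)) := by
      intro a _
      rw [abs_mul, hs z ⟨hsub hz, hzx⟩]
      refine mul_le_mul ?_ ?_ (abs_nonneg _) (norm_nonneg _)
      · rw [← Real.norm_eq_abs]
        exact PiLp.norm_apply_le v a
      · refine (Finset.abs_sum_le_sum_abs _ _).trans ?_
        have h4 : ∀ k ∈ (Finset.univ : Finset (Fin m)), |A a j k z * F k z| ≤ K * C1 := by
          intro k _
          rw [abs_mul]
          exact mul_le_mul (hAK z hz a j k) (hFb z hz hzx k) (abs_nonneg _) hK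
        refine (Finset.sum_le_sum h4).trans ?_
        rw [Finset.sum_const, Finset.card_univ, Fintype.card_fin, nsmul_eq_mul]
    refine (Finset.sum_le_sum h3).trans ?_
    rw [Finset.sum_const, Finset.card_univ, Fintype.card_fin, nsmul_eq_mul, hC2]
    push_cast
    linarith
  have hlip : ∀ y ∈ closedBall x0 r1, ∀ z ∈ closedBall x0 r1, x0 ∉ segment ℝ y z → ∀ j,
      |F j z - F j y| ≤ C2 * ‖z - y‖ := by
    intro y hy z hz hx j
    have hseg : ∀ w ∈ segment ℝ y z, w ∈ closedBall x0 r1 ∧ w ≠ x0 := fun w hw =>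
      ⟨(convex_closedBall x0 r1).segment_subset hy hz hw, fun h => hx (h ▸ hw)⟩
    exact Convex.norm_image_sub_le_of_norm_fderiv_le (𝕜 := ℝ) (s := segment ℝ y z)
      (fun w hw => hF w ⟨hsub (hseg w hw).1, (hseg w hw).2⟩ j)
      (fun w hw => hfd w (hseg w hw).1 (hseg w hw).2 j) (convex_segment y z)
      (left_mem_segment ℝ y z) (right_mem_segment ℝ y z)
  -- Cauchy
  have hosc : ∀ ρ : ℝ, 0 < ρ → ρ ≤ r1 → ∀ y ∈ closedBall x0 ρ, y ≠ x0 → ∀ z ∈ closedBall x0 ρ,
      z ≠ x0 → ∀ j, |F j z - F j y| ≤ C2 * (4 * ρ) := by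
    intro ρ hρ hρ1 y hy hyx z hz hzx j
    obtain ⟨q, hq, hq1, hq2⟩ := exists_third hρ (sub_ne_zero.2 hyx) (sub_ne_zero.2 hzx)
    set w : E := x0 + q with hw
    have hwx : w - x0 = q := by rw [hw, add_sub_cancel_left]
    have hyn : ‖y - x0‖ ≤ ρ := by rw [← dist_eq_norm]; exact hy
    have hzn : ‖z - x0‖ ≤ ρ := by rw [← dist_eq_norm]; exact hz
    have hwn : ‖w - x0‖ = ρ := by rw [hwx, hq]
    have hwb : w ∈ closedBall x0 r1 := by
      rw [mem_closedBall, dist_eq_norm, hwn]; exact hρ1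
    have h1 := hlip y (closedBall_subset_closedBall hρ1 hy) w hwb
      (segment_shift (by rw [hwx]; exact hq1)) j
    have h2 := hlip w hwb z (closedBall_subset_closedBall hρ1 hz)
      (segment_shift (by rw [hwx]; exact hq2)) j
    have h3 : ‖w - y‖ ≤ 2 * ρ := by
      have : w - y = (w - x0) - (y - x0) := by abel
      rw [this]
      exact (norm_sub_le _ _).trans (by linarith)
    have h4 : ‖z - w‖ ≤ 2 * ρ := by
      have : z - w = (z - x0) - (w - x0) := by abel
      rw [this]
      exact (norm_sub_le _ _).trans (by linarith)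
    have h5 : |F j z - F j y| ≤ |F j w - F j y| + |F j z - F j w| := by
      have : F j z - F j y = (F j w - F j y) + (F j z - F j w) := by ring
      rw [this]
      exact abs_add_le _ _
    nlinarith
  have hne : NeBot (𝓝[≠] x0) := Module.punctured_nhds_neBot ℝ E x0
  have hlim : ∀ j, ∃ L, Tendsto (F j) (𝓝[≠] x0) (𝓝 L) := by
    intro j
    rw [← cauchy_map_iff_exists_tendsto, Metric.cauchy_iff]
    refine ⟨hne.map _, fun ε hε => ?_⟩
    obtain ⟨ρ, hρ, hρ1, hρε⟩ : ∃ ρ, 0 < ρ ∧ ρ ≤ r1 ∧ C2 * (4 * ρ) < ε := by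
      refine ⟨min r1 (ε / (4 * C2 + 1) / 2), lt_min hr1pos (by positivity), min_le_left _ _, ?_⟩
      have h1 : min r1 (ε / (4 * C2 + 1) / 2) ≤ ε / (4 * C2 + 1) / 2 := min_le_right _ _
      have h2 : 0 < 4 * C2 + 1 := by positivity
      have h3 : ε / (4 * C2 + 1) * (4 * C2 + 1) = ε := div_mul_cancel₀ _ h2.ne'
      have h4 : 0 < ε / (4 * C2 + 1) := by positivity
      nlinarith
    refine ⟨F j '' (closedBall x0 ρ \ {x0}), ?_, ?_⟩
    · refine image_mem_map ?_
      exact sdiff_mem_nhdsWithin_compl (closedBall_mem_nhds x0 hρ) _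
    · rintro _ ⟨y, ⟨hy, hyx⟩, rfl⟩ _ ⟨z, ⟨hz, hzx⟩, rfl⟩
      rw [dist_comm, Real.dist_eq]
      exact (hosc ρ hρ hρ1 y hy hyx z hz hzx j).trans_lt hρε
  choose L hL using hlim
  let F' : Fin m → E → ℝ := fun j => Function.update (F j) x0 (L j)
  have hF'ne : ∀ j z, z ≠ x0 → F' j z = F j z := fun j z hz => Function.update_of_ne hz _ _
  have hF'x : ∀ j, F' j x0 = L j := fun j => Function.update_self _ _ _
  have hev : ∀ j z, z ≠ x0 → F' j =ᶠ[𝓝 z] F j := fun j z hz => by
    filter_upwards [isOpen_ne.mem_nhds hz] with w hw using hF'ne j w hw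
  have hcont0 : ∀ j, ContinuousAt (F' j) x0 := fun j =>
    continuousAt_update_same.2 (hL j)
  have hdne : ∀ j, ∀ z ∈ ball x0 r \ {x0}, DifferentiableAt ℝ (F' j) z := fun j z hz =>
    (hF z hz j).congr_of_eventuallyEq (hev j z hz.2)
  have hfdne : ∀ j, ∀ z, z ≠ x0 → fderiv ℝ (F' j) z = fderiv ℝ (F j) z := fun j z hz =>
    (hev j z hz).fderiv_eq
  have hx0 : x0 ∈ ball x0 r := mem_ball_self hr
  -- the derivative at the centre
  have hd0 : ∀ j, HasFDerivAt (F' j) (lf fun a => ∑ k, A a j k x0 * L k) x0 := by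
    intro j
    have htend : Tendsto (fun y => fderiv ℝ (F' j) y) (𝓝[≠] x0)
        (𝓝 (lf fun a => ∑ k, A a j k x0 * L k)) := by
      have h1 : Tendsto (fun y => lf fun a => ∑ k, A a j k y * F k y) (𝓝[≠] x0)
          (𝓝 (lf fun a => ∑ k, A a j k x0 * L k)) := by
        refine lf_tendsto fun a => tendsto_finsetSum _ fun k _ => ?_
        exact ((((hA a j k).continuousOn x0 hx0).continuousAt
          (isOpen_ball.mem_nhds hx0)).tendsto.mono_left nhdsWithin_le_nhds).mul (hL k)
      refine h1.congr' ?_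
      have h2 : ball x0 r ∈ 𝓝[≠] x0 := mem_nhdsWithin_of_mem_nhds (isOpen_ball.mem_nhds hx0)
      filter_upwards [h2, self_mem_nhdsWithin] with y hy hyx
      rw [hfdne j y hyx, fderiv_eq_lf]
      congr 1
      funext a
      exact (hs y ⟨hy, hyx⟩ a j).symm
    have half : ∀ v : E, v ≠ 0 → HasFDerivWithinAt (F' j) (lf fun a => ∑ k, A a j k x0 * L k)
        (closure (ball x0 r1 ∩ {z | 0 < inner ℝ v (z - x0)})) x0 := by
      intro v hv
      have hsx : ∀ z ∈ ball x0 r1 ∩ {z | 0 < inner ℝ v (z - x0)}, z ∈ ball x0 r \ {x0} := by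
        rintro z ⟨hz1, hz2⟩
        refine ⟨hsub (ball_subset_closedBall hz1), ?_⟩
        rintro rfl
        simp at hz2
      refine hasFDerivWithinAt_closure_of_tendsto_fderiv ?_ ?_ ?_ ?_ ?_
      · exact fun z hz => (hdne j z (hsx z hz)).differentiableWithinAt
      · refine (convex_ball x0 r1).inter ?_
        intro y hy z hz a b ha hb hab
        simp only [mem_ofPred_eq] at hy hz ⊢
        have h1 : a • y + b • z - x0 = a • (y - x0) + b • (z - x0) := by
          have : a • (y - x0) + b • (z - x0) = a • y + b • z - (a + b) • x0 := by module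
          rw [this, hab, one_smul]
        rw [h1, inner_add_right, inner_smul_right, inner_smul_right]
        rcases ha.eq_or_lt with h0 | h0
        · have : b = 1 := by linarith
          rw [← h0, this]
          simpa using hz
        · have := mul_pos h0 hy
          have := mul_nonneg hb hz.le
          linarith
      · refine isOpen_ball.inter (isOpen_lt continuous_const ?_)
        fun_prop
      · intro y hy
        have hyb : y ∈ closedBall x0 r1 :=
          (closure_mono inter_subset_left).trans closure_ball_subset_closedBall hy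
        by_cases hyx : y = x0
        · rw [hyx]
          exact (hcont0 j).continuousWithinAt
        · exact (hdne j y ⟨hsub hyb, hyx⟩).continuousAt.continuousWithinAt
      · refine htend.mono_left (nhdsWithin_mono _ fun z hz => (hsx z hz).2)
    have hb0 : (be 0 : E) ≠ 0 := by
      intro h
      have := congrArg (fun v : E => v 0) h
      simp [be] at this
    have h1 := half (be 0) hb0
    have h2 := half (-be 0) (neg_ne_zero.2 hb0)
    have h3 := h1.union h2
    refine h3.hasFDerivAt ?_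
    refine mem_of_superset (ball_mem_nhds x0 hr1pos) fun z hz => ?_
    rcases lt_trichotomy (inner ℝ (be 0) (z - x0) : ℝ) 0 with h4 | h4 | h4
    · right
      refine subset_closure ⟨hz, ?_⟩
      simp only [mem_ofPred_eq, inner_neg_left]
      linarith
    · left
      refine mem_closure_of_tendsto (f := fun t : ℝ => z + t • be 0) (b := 𝓝[>] (0 : ℝ)) ?_ ?_
      · have : Tendsto (fun t : ℝ => z + t • be 0) (𝓝 0) (𝓝 (z + (0 : ℝ) • be 0)) :=
          Continuous.tendsto (by fun_prop) _
        rw [zero_smul, add_zero] at this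
        exact this.mono_left nhdsWithin_le_nhds
      · have h5 : ∀ᶠ t : ℝ in 𝓝[>] (0 : ℝ), z + t • be 0 ∈ ball x0 r1 := by
          have : Tendsto (fun t : ℝ => z + t • be 0) (𝓝 0) (𝓝 (z + (0 : ℝ) • be 0)) :=
            Continuous.tendsto (by fun_prop) _
          rw [zero_smul, add_zero] at this
          exact (this.mono_left nhdsWithin_le_nhds).eventually (isOpen_ball.mem_nhds hz)
        filter_upwards [h5, self_mem_nhdsWithin] with t ht ht0
        refine ⟨ht, ?_⟩
        simp only [mem_ofPred_eq]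
        rw [add_sub_right_comm, inner_add_right, h4, zero_add, inner_smul_right]
        exact mul_pos ht0 (real_inner_self_pos.2 hb0)
    · left
      exact subset_closure ⟨hz, h4⟩
  refine ⟨F', ?_, fun z hz j => hF'ne j z hz.2⟩
  refine lin_smooth isOpen_ball hA ?_ ?_
  · intro z hz j
    by_cases hzx : z = x0
    · rw [hzx]
      exact (hd0 j).differentiableAt
    · exact hdne j z ⟨hz, hzx⟩
  · intro z hz a j
    by_cases hzx : z = x0
    · rw [hzx]
      unfold pd
      rw [(hd0 j).fderiv, lf_be]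
      exact Finset.sum_congr rfl fun k _ => by rw [hF'x]
    · unfold pd
      rw [hfdne j z hzx]
      have := hs z ⟨hz, hzx⟩ a j
      unfold pd at this
      rw [this]
      exact Finset.sum_congr rfl fun k _ => by rw [hF'ne k z hzx]

end YR
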