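import Pool.Agent.Rig71.B0a
import Pool.Agent.Rig71.B0b
import Pool.Agent.Rig71.Glob2a
import Pool.Agent.Rig71.Glob2c

/-!
# B1 : the closed system of `T(w) = 0`, unique continuation
-/

open scoped ContDiff Topology
open MeasureTheory Metric Set Filter

noncomputable section

namespace YR

/-- the coefficients of the closed system -/
def b1A (G : E → Mat) (a : Fin 3) (j k : Fin 5) (x : E) : ℝ :=
  ![![0, if a = 0 then 1 else 0, if a = 1 then 1 else 0, if a = 2 then 1 else 0, 0],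
    ![-sch G a 0 x, chr G 0 a 0 x, chr G 1 a 0 x, chr G 2 a 0 x, G x a 0],
    ![-sch G a 1 x, chr G 0 a 1 x, chr G 1 a 1 x, chr G 2 a 1 x, G x a 1],
    ![-sch G a 2 x, chr G 0 a 2 x, chr G 1 a 2 x, chr G 2 a 2 x, G x a 2],
    ![0, -∑ b, sch G a b x * gi G x b 0, -∑ b, sch G a b x * gi G x b 1,
      -∑ b, sch G a b x * gi G x b 2, 0]] j k

theorem b1_sch_smooth {U : Set E} {G : E → Mat} (hG : LM U G) (a b : Fin 3) :
    ContDiffOn ℝ ∞ (sch G a b) U := by
  unfold sch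
  exact (ric_smooth hG a b).sub (((scal_smooth hG).div_const _).mul (hG.smooth a b))

theorem b1A_smooth {U : Set E} {G : E → Mat} (hG : LM U G) (a : Fin 3) (j k : Fin 5) :
    ContDiffOn ℝ ∞ (b1A G a j k) U := by
  have hs := b1_sch_smooth hG
  have hc := chr_smooth hG
  have hg := hG.smooth
  have hi := gi_smooth hG
  have h4 : ∀ c, ContDiffOn ℝ ∞ (fun x => -∑ b, sch G a b x * gi G x b c) U := fun c =>
    (ContDiffOn.sum fun b _ => (hs a b).mul (hi b c)).neg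
  fin_cases j <;> fin_cases k
  · exact contDiffOn_const
  · exact contDiffOn_const
  · exact contDiffOn_const
  · exact contDiffOn_const
  · exact contDiffOn_const
  · exact (hs a 0).neg
  · exact hc 0 a 0
  · exact hc 1 a 0
  · exact hc 2 a 0
  · exact hg a 0
  · exact (hs a 1).neg
  · exact hc 0 a 1
  · exact hc 1 a 1
  · exact hc 2 a 1
  · exact hg a 1
  · exact (hs a 2).neg
  · exact hc 0 a 2
  · exact hc 1 a 2
  · exact hc 2 a 2
  · exact hg a 2
  · exact contDiffOn_const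
  · exact h4 0
  · exact h4 1
  · exact h4 2
  · exact contDiffOn_const

/-- the closed system in a chart; the coefficients depend on `G` only -/
theorem closed_system {U : Set E} {G : E → Mat} (hG : LM U G) :
    ∃ A : Fin 3 → Fin 5 → Fin 5 → E → ℝ, (∀ a j k, ContDiffOn ℝ ∞ (A a j k) U) ∧
      ∀ V : Set E, IsOpen V → V ⊆ U → ∀ w : E → ℝ, ContDiffOn ℝ ∞ w V →
        (∀ x ∈ V, ∀ a b, TT G w a b x = 0) → ∀ x ∈ V, ∀ a j,
          pd a (kv G w j) x = ∑ k, A a j k x * kv G w k x := by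
  refine ⟨b1A G, b1A_smooth hG, fun V hV hVU w hw hT x hx a j => ?_⟩
  have hGV : LM V G := hG.mono hV hVU
  have h1 : ∀ b, pd a (pd b w) x = -(w x * sch G a b x) + rho G w x * G x a b +
      ∑ k, chr G k a b x * pd k w x := by
    intro b
    have h := hT x hx a b
    unfold TT hess at h
    linarith
  have h2 : pd a (rho G w) x = -∑ b, sch G a b x * grad G w b x := by
    have h := div_TT hGV hw hx a
    have hz : ∀ c d e, pd c (TT G w d e) x = 0 := by
      intro c d e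
      have hev : TT G w d e =ᶠ[𝓝 x] fun _ => 0 := by
        filter_upwards [hV.mem_nhds hx] with y hy
        exact hT y hy d e
      rw [pd_congr hev, pd_const]
    simp only [hz, hT x hx, mul_zero, add_zero, Finset.sum_const_zero, sub_zero] at h
    linarith
  have hsum : ∀ F : Fin 5 → ℝ, ∑ k, F k = F 0 + F 1 + F 2 + F 3 + F 4 := fun F => by
    simp [Fin.sum_univ_succ]; ring
  rw [hsum]
  fin_cases j
  · fin_cases a <;> simp [kv, b1A]
  · show pd a (pd 0 w) x = _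
    rw [h1 0]
    simp only [kv, b1A, Fin.sum_univ_three]
    simp
    ring
  · show pd a (pd 1 w) x = _
    rw [h1 1]
    simp only [kv, b1A, Fin.sum_univ_three]
    simp
    ring
  · show pd a (pd 2 w) x = _
    rw [h1 2]
    simp only [kv, b1A, Fin.sum_univ_three]
    simp
    ring
  · show pd a (rho G w) x = _
    rw [h2]
    simp only [kv, b1A, grad, Fin.sum_univ_three]
    simp
    ring

theorem kv_smooth {U : Set E} {G : E → Mat} (hG : LM U G) {w : E → ℝ}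
    (hw : ContDiffOn ℝ ∞ w U) (j : Fin 5) : ContDiffOn ℝ ∞ (kv G w j) U := by
  fin_cases j
  · exact hw
  · exact pd_smooth hG.op hw
  · exact pd_smooth hG.op hw
  · exact pd_smooth hG.op hw
  · exact rho_smooth hG hw

/-- unique continuation in a ball -/
theorem kill_ball {G : E → Mat} {x0 : E} {r : ℝ} (hG : LM (ball x0 r) G) {w : E → ℝ}
    (hw : ContDiffOn ℝ ∞ w (ball x0 r)) (hT : ∀ x ∈ ball x0 r, ∀ a b, TT G w a b x = 0)
    {x : E} (hx : x ∈ ball x0 r) (h0 : w x = 0) (h1 : ∀ a, pd a w x = 0) (h2 : rho G w x = 0) :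
    ∀ y ∈ ball x0 r, w y = 0 := by
  obtain ⟨A, hA, hsys⟩ := closed_system hG
  have hs := hsys (ball x0 r) isOpen_ball Subset.rfl w hw hT
  have hF : ∀ z ∈ ball x0 r, ∀ j, DifferentiableAt ℝ (kv G w j) z := fun z hz j =>
    ((kv_smooth hG hw j).contDiffAt (isOpen_ball.mem_nhds hz)).differentiableAt (by simp)
  intro y hy
  refine lin_unique (fun a j k => (hA a j k).continuousOn) hF hs hx (fun j => ?_) y hy 0
  fin_cases j
  · exact h0
  · exact h1 0
  · exact h1 1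
  · exact h1 2
  · exact h2

variable {M : Type*} [TopologicalSpace M] [ConnectedSpace M] {𝒜 : Atl M} (𝒢 : Met 𝒜)

omit [ConnectedSpace M] in
/-- `t2 = 0` in terms of the components in a chart -/
theorem Met.TT_of_t2 {U : Set M} (hU : IsOpen U) {w : M → ℝ} (hw : 𝒜.SmOn U w)
    (ht : ∀ p ∈ U, 𝒢.t2 w p = 0) (i : Fin 𝒜.n) :
    ∀ x ∈ 𝒜.dom U i, ∀ a b, TT (𝒢.g i) (𝒜.rd w i) a b x = 0 := by
  intro x hx
  have h1 := 𝒢.t2_chart hU hw i hx
  rw [ht _ hx.2] at h1
  exact ip_self_eq_zero (𝒢.lm i) hx.1 _ h1.symm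

omit [ConnectedSpace M] in
/-- conversely -/
theorem Met.t2_of_TT {U : Set M} (hU : IsOpen U) {w : M → ℝ} (hw : 𝒜.SmOn U w) (i : Fin 𝒜.n)
    {x : E} (hx : x ∈ 𝒜.dom U i) (h : ∀ a b, TT (𝒢.g i) (𝒜.rd w i) a b x = 0) :
    𝒢.t2 w ((𝒜.φ i).symm x) = 0 := by
  rw [𝒢.t2_chart hU hw i hx]
  unfold ip
  simp [h]

/-- unique continuation on `M` -/
theorem Met.kill {w : M → ℝ} (hw : 𝒜.Sm w) (ht : ∀ p, 𝒢.t2 w p = 0) {p : M} (h0 : w p = 0)
    (h1 : 𝒢.inn w w p = 0) (h2 : 𝒢.rho w p = 0) : ∀ q, w q = 0 := by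
  set S : Set M := {q | w q = 0 ∧ 𝒢.inn w w q = 0 ∧ 𝒢.rho w q = 0} with hS
  have hclosed : IsClosed S := by
    have e : S = (w ⁻¹' {0}) ∩ ((𝒢.inn w w ⁻¹' {0}) ∩ (𝒢.rho w ⁻¹' {0})) := by
      ext q; simp [hS]
    rw [e]
    exact (isClosed_singleton.preimage hw.continuous).inter
      ((isClosed_singleton.preimage (𝒢.Sm_inn hw hw).continuous).inter
        (isClosed_singleton.preimage (𝒢.Sm_rho hw).continuous))
  have hopen : IsOpen S := by
    rw [isOpen_iff_mem_nhds]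
    rintro q ⟨q0, q1, q2⟩
    set i := 𝒜.idx q with hi
    have hqs : q ∈ (𝒜.φ i).source := Atl.idx_source q
    have hz : 𝒜.φ i q ∈ ball (0 : E) 4 := Atl.map_mem i hqs
    have hsym : (𝒜.φ i).symm (𝒜.φ i q) = q := (𝒜.φ i).left_inv hqs
    have hdom : 𝒜.φ i q ∈ 𝒜.dom univ i := ⟨hz, mem_univ _⟩
    have hw' : ContDiffOn ℝ ∞ (𝒜.rd w i) (ball (0 : E) 4) := hw i
    have hT : ∀ x ∈ ball (0 : E) 4, ∀ a b, TT (𝒢.g i) (𝒜.rd w i) a b x = 0 := fun x hx =>
      Met.TT_of_t2 𝒢 isOpen_univ (hw.on univ) (fun p _ => ht p) i x ⟨hx, mem_univ _⟩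
    have e0 : 𝒜.rd w i (𝒜.φ i q) = 0 := by
      unfold Atl.rd; rw [hsym]; exact q0
    have e1 : ∀ a, pd a (𝒜.rd w i) (𝒜.φ i q) = 0 := by
      have h := 𝒢.inn_chart isOpen_univ (hw.on univ) (hw.on univ) i hdom
      rw [hsym, q1] at h
      exact (inn_self_eq_zero (𝒢.lm i) hz).mp h.symm
    have e2 : YR.rho (𝒢.g i) (𝒜.rd w i) (𝒜.φ i q) = 0 := by
      have h := 𝒢.rho_chart isOpen_univ (hw.on univ) i hdom
      rw [hsym, q2] at h
      exact h.symm
    have hk := kill_ball (𝒢.lm i) hw' hT hz e0 e1 e2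
    have hzero : EqOn w (fun _ => 0) (𝒜.φ i).source := by
      intro q' hq'
      have h := hk (𝒜.φ i q') (Atl.map_mem i hq')
      unfold Atl.rd at h
      rwa [(𝒜.φ i).left_inv hq'] at h
    refine Filter.mem_of_superset ((𝒜.φ i).open_source.mem_nhds hqs) fun q' hq' => ?_
    refine ⟨hzero hq', ?_, ?_⟩
    · rw [𝒢.inn_congr (𝒜.φ i).open_source hq' hzero hzero]
      exact 𝒢.inn_const 0 _ q'
    · rw [𝒢.rho_congr (𝒜.φ i).open_source hq' hzero]
      unfold Met.rho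
      rw [𝒢.lap_const 0 q']
      simp
  have huniv : S = univ := IsClopen.eq_univ ⟨hclosed, hopen⟩ ⟨p, h0, h1, h2⟩
  intro q
  have : q ∈ S := huniv ▸ mem_univ q
  exact this.1

/-- `B(u,v)` is constant on `M` (`inn_bb_eq_zero`, `const_of_inn`) -/
theorem Met.bb_const {u v : M → ℝ} (hu : 𝒜.Sm u) (hv : 𝒜.Sm v) (tu : ∀ p, 𝒢.t2 u p = 0)
    (tv : ∀ p, 𝒢.t2 v p = 0) (p q : M) : 𝒢.bb u v p = 𝒢.bb u v q := by
  obtain ⟨c, hc⟩ := 𝒢.const_of_inn (𝒢.Sm_bb hu hv) fun f _ p => by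
    rw [𝒢.inn_symm]
    exact 𝒢.inn_bb_eq_zero isOpen_univ (mem_univ p) (hu.on univ) (hv.on univ)
      (fun q _ => tu q) (fun q _ => tv q) f
  rw [hc p, hc q]

end YR
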