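import Pool.Agent.Rig71.B2

/-!
# B10 : solutions on `N = {θ > 0}` extend to `M`
-/

open scoped ContDiff Topology
open MeasureTheory Metric Set Filter

noncomputable section

namespace YR

theorem b10_punctured_neBot (x0 : E) (r : ℝ) (hr : 0 < r) :
    (𝓝[ball x0 r \ {x0}] x0).NeBot := by
  have h1 : (𝓝[≠] x0).NeBot := inferInstance
  have h2 : 𝓝[ball x0 r \ {x0}] x0 = 𝓝[≠] x0 := by
    rw [Set.sdiff_eq]
    exact nhdsWithin_inter_of_mem (nhdsWithin_le_nhds (ball_mem_nhds x0 hr))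
  rw [h2]
  exact h1

theorem remov_ball {G : E → Mat} {x0 : E} {r : ℝ} (hr : 0 < r) (hG : LM (ball x0 r) G) {w : E → ℝ}
    (hw : ContDiffOn ℝ ∞ w (ball x0 r \ {x0}))
    (hT : ∀ x ∈ ball x0 r \ {x0}, ∀ a b, TT G w a b x = 0) :
    ∃ w' : E → ℝ, ContDiffOn ℝ ∞ w' (ball x0 r) ∧ (∀ x ∈ ball x0 r \ {x0}, w' x = w x) ∧
      ∀ x ∈ ball x0 r, ∀ a b, TT G w' a b x = 0 := by
  obtain ⟨A, hA, hsys⟩ := closed_system hG
  set V := ball x0 r \ {x0} with hV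
  have hVo : IsOpen V := isOpen_ball.sdiff isClosed_singleton
  have hVs : V ⊆ ball x0 r := Set.sdiff_subset
  have hkv : ∀ j, ContDiffOn ℝ ∞ (kv G w j) V := kv_smooth (hG.mono hVo hVs) hw
  obtain ⟨F', hF', hE⟩ := lin_remov (F := kv G w) hr hA
    (fun z hz j => ((hkv j).contDiffAt (hVo.mem_nhds hz)).differentiableAt (by simp))
    (fun z hz a j => hsys V hVo hVs w hw hT z hz a j)
  have heq : ∀ x ∈ V, F' 0 x = w x := fun x hx => hE x hx 0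
  refine ⟨F' 0, hF' 0, heq, ?_⟩
  have hoff : ∀ x ∈ V, ∀ a b, TT G (F' 0) a b x = 0 := by
    intro x hx a b
    have h1 : F' 0 =ᶠ[𝓝 x] w := by
      filter_upwards [hVo.mem_nhds hx] with y hy
      exact heq y hy
    have h2 := (TT_congr (EventuallyEq.refl (𝓝 x) G) h1 a b).eq_of_nhds
    rw [h2]
    exact hT x hx a b
  intro x hx a b
  by_cases hxx : x = x0
  · subst hxx
    have hc : ContinuousAt (TT G (F' 0) a b) x :=
      ((TT_smooth hG (hF' 0) a b).continuousOn.continuousAt (isOpen_ball.mem_nhds hx))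
    haveI := b10_punctured_neBot x r hr
    have h1 : Tendsto (TT G (F' 0) a b) (𝓝[V] x) (𝓝 (TT G (F' 0) a b x)) :=
      hc.tendsto.mono_left nhdsWithin_le_nhds
    have h2 : Tendsto (TT G (F' 0) a b) (𝓝[V] x) (𝓝 0) := by
      refine tendsto_const_nhds.congr' ?_
      filter_upwards [self_mem_nhdsWithin] with y hy
      exact (hoff y hy a b).symm
    exact tendsto_nhds_unique h1 h2
  · exact hoff x ⟨hx, hxx⟩ a b

variable {M : Type*} [TopologicalSpace M] [T2Space M] [CompactSpace M] [ConnectedSpace M]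
  {𝒜 : Atl M} {𝒢 : Met 𝒜} {θ : M → ℝ}

omit [T2Space M] [CompactSpace M] [ConnectedSpace M] in
/-- local extension at a zero, in a chart -/
theorem ZD.remov_local (h : ZD 𝒢 θ) (hquad : ∀ (i : Fin 𝒜.n) {x : E}, x ∈ ball (0 : E) 4 →
      𝒜.rd θ i x = 0 → ∃ c > 0, ∃ r > 0, ball x r ⊆ ball (0 : E) 4 ∧ ∀ y ∈ ball x r,
      c * ‖y - x‖ ^ 2 ≤ 𝒜.rd θ i y ∧ 𝒜.rd θ i y ≤ c⁻¹ * ‖y - x‖ ^ 2)
    {η : M → ℝ} (hη : 𝒜.SmOn {p | 0 < θ p} η)
    (hTT : ∀ i, ∀ x ∈ 𝒜.dom {p | 0 < θ p} i, ∀ a b, TT (𝒢.g i) (𝒜.rd η i) a b x = 0)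
    (i : Fin 𝒜.n) {x : E} (hx : x ∈ ball (0 : E) 4) (h0 : 𝒜.rd θ i x = 0) :
    ∃ r > 0, ∃ w : E → ℝ, ball x r ⊆ ball (0 : E) 4 ∧ ContDiffOn ℝ ∞ w (ball x r) ∧
      ∀ y ∈ ball x r \ {x}, 0 < 𝒜.rd θ i y ∧ w y = 𝒜.rd η i y := by
  obtain ⟨c, hc, r, hr, hr4, hq⟩ := hquad i hx h0
  have hpos : ∀ y ∈ ball x r \ {x}, 0 < 𝒜.rd θ i y := by
    intro y hy
    have h1 := (hq y hy.1).1
    have h2 : 0 < ‖y - x‖ := norm_pos_iff.mpr (sub_ne_zero.mpr hy.2)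
    have h3 : 0 < c * ‖y - x‖ ^ 2 := by positivity
    exact h3.trans_le h1
  have hdom : ball x r \ {x} ⊆ 𝒜.dom {p | 0 < θ p} i := fun y hy => ⟨hr4 hy.1, hpos y hy⟩
  obtain ⟨w, hw, hwe, -⟩ := remov_ball hr ((𝒢.lm i).mono isOpen_ball hr4)
    ((hη i).mono hdom) (fun y hy a b => hTT i y (hdom hy) a b)
  exact ⟨r, hr, w, hr4, hw, fun y hy => ⟨hpos y hy, hwe y hy⟩⟩

theorem ZD.remov (h : ZD 𝒢 θ) {η : M → ℝ} (hη : 𝒜.SmOn {p | 0 < θ p} η)
    (ht : ∀ p, 0 < θ p → 𝒢.t2 η p = 0) :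
    ∃ η' : M → ℝ, 𝒜.Sm η' ∧ (∀ p, 0 < θ p → η' p = η p) ∧ ∀ p, 𝒢.t2 η' p = 0 := by
  set N : Set M := {p | 0 < θ p} with hN
  have hNo : IsOpen N := isOpen_lt continuous_const h.sm.continuous
  have hNd : Dense N := h.dense
  have hTT : ∀ i, ∀ x ∈ 𝒜.dom N i, ∀ a b, TT (𝒢.g i) (𝒜.rd η i) a b x = 0 := fun i x hx a b =>
    Met.TT_of_t2 𝒢 hNo hη (fun p hp => ht p hp) i x hx a b
  have hloc : ∀ (i : Fin 𝒜.n) {x : E}, x ∈ ball (0 : E) 4 → 𝒜.rd θ i x = 0 →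
    ∃ r > 0, ∃ w : E → ℝ, ball x r ⊆ ball (0 : E) 4 ∧ ContDiffOn ℝ ∞ w (ball x r) ∧
      ∀ y ∈ ball x r \ {x}, 0 < 𝒜.rd θ i y ∧ w y = 𝒜.rd η i y := fun i {x} hx h0 =>
    h.remov_local (fun i {x} hx h0 => h.quad i hx h0) hη hTT i hx h0
  have hneb : ∀ p, (𝓝[N] p).NeBot := fun p =>
    mem_closure_iff_nhdsWithin_neBot.mp (hNd p)
  set η' : M → ℝ := fun p => limUnder (𝓝[N] p) η with hη'
  have hcontη : ContinuousOn η N := hη.continuousOn hNo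
  have hN' : ∀ p ∈ N, η' p = η p := by
    intro p hp
    haveI := hneb p
    exact (hcontη p hp).tendsto.limUnder_eq
  -- at the zeros
  have hZ : ∀ (i : Fin 𝒜.n) {x : E}, x ∈ ball (0 : E) 4 → 𝒜.rd θ i x = 0 →
      ∃ r > 0, ∃ w : E → ℝ, ball x r ⊆ ball (0 : E) 4 ∧ ContDiffOn ℝ ∞ w (ball x r) ∧
      ∀ y ∈ ball x r, 𝒜.rd η' i y = w y := by
    intro i x hx h0
    obtain ⟨r, hr, w, hr4, hw, hwy⟩ := hloc i hx h0
    refine ⟨r, hr, w, hr4, hw, fun y hy => ?_⟩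
    by_cases hyx : y = x
    · subst hyx
      set p := (𝒜.φ i).symm y with hp
      haveI := hneb p
      have hps : p ∈ (𝒜.φ i).source := 𝒜.symm_mem i hx
      have hpy : 𝒜.φ i p = y := 𝒜.right_inv i hx
      have hcφ : ContinuousAt (𝒜.φ i) p := (𝒜.φ i).continuousAt hps
      have hcw : ContinuousAt w y := hw.continuousOn.continuousAt (ball_mem_nhds y hr)
      have h1 : Tendsto (fun q => w (𝒜.φ i q)) (𝓝 p) (𝓝 (w y)) := by
        have h2 : Tendsto (𝒜.φ i) (𝓝 p) (𝓝 y) := by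
          have := hcφ.tendsto
          rwa [hpy] at this
        exact hcw.tendsto.comp h2
      have h3 : Tendsto η (𝓝[N] p) (𝓝 (w y)) := by
        refine (h1.mono_left nhdsWithin_le_nhds).congr' ?_
        have hb : ∀ᶠ q in 𝓝 p, 𝒜.φ i q ∈ ball y r := by
          apply hcφ.eventually
          rw [hpy]
          exact ball_mem_nhds y hr
        have hs : ∀ᶠ q in 𝓝 p, q ∈ (𝒜.φ i).source := (𝒜.φ i).open_source.mem_nhds hps
        filter_upwards [nhdsWithin_le_nhds hb, nhdsWithin_le_nhds hs, self_mem_nhdsWithin]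
          with q hq1 hq2 hq3
        have hli : (𝒜.φ i).symm (𝒜.φ i q) = q := (𝒜.φ i).left_inv hq2
        have hne : 𝒜.φ i q ≠ y := by
          intro hcon
          have h4 : q = p := by rw [← hli, hcon]
          have h5 : θ p = 0 := h0
          have h6 : 0 < θ q := hq3
          rw [h4, h5] at h6
          exact lt_irrefl _ h6
        have h7 := (hwy (𝒜.φ i q) ⟨hq1, hne⟩).2
        rw [h7]
        show η ((𝒜.φ i).symm (𝒜.φ i q)) = η q
        rw [hli]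
      exact h3.limUnder_eq
    · have h1 := hwy y ⟨hy, hyx⟩
      rw [h1.2]
      exact hN' _ h1.1
  have hSm : 𝒜.Sm η' := by
    intro i x hx
    apply ContDiffAt.contDiffWithinAt
    by_cases h0 : 0 < 𝒜.rd θ i x
    · have hd : x ∈ 𝒜.dom N i := ⟨hx, h0⟩
      have hdo := 𝒜.isOpen_dom hNo i
      have h1 : ContDiffAt ℝ ∞ (𝒜.rd η i) x := (hη i).contDiffAt (hdo.mem_nhds hd)
      refine h1.congr_of_eventuallyEq ?_
      filter_upwards [hdo.mem_nhds hd] with y hy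
      exact hN' _ hy.2
    · have h00 : 𝒜.rd θ i x = 0 := le_antisymm (not_lt.mp h0) (h.nn _)
      obtain ⟨r, hr, w, -, hw, hwy⟩ := hZ i hx h00
      refine (hw.contDiffAt (ball_mem_nhds x hr)).congr_of_eventuallyEq ?_
      filter_upwards [ball_mem_nhds x hr] with y hy
      exact hwy y hy
  refine ⟨η', hSm, hN', ?_⟩
  have hc : Continuous (𝒢.t2 η') := (𝒢.Sm_t2 hSm).continuous
  have hz : ∀ p ∈ N, 𝒢.t2 η' p = 0 := by
    intro p hp
    rw [𝒢.t2_congr hNo hp (fun q hq => hN' q hq)]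
    exact ht p hp
  have hcl : IsClosed {p | 𝒢.t2 η' p = 0} := isClosed_eq hc continuous_const
  intro p
  have := hcl.closure_subset_iff.mpr (fun q hq => hz q hq) (hNd p)
  exact this

end YR
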