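import Pool.Agent.Rig71.B4a

/-!
# B4b : the local seed `η₀` at a zero `z` of `θ`
-/

open scoped ContDiff Topology
open MeasureTheory Metric Set Filter

noncomputable section

namespace YR

variable {M : Type*} [TopologicalSpace M] [T2Space M] [CompactSpace M] [ConnectedSpace M]
  {𝒜 : Atl M} {𝒢 : Met 𝒜} {θ : M → ℝ}

omit [T2Space M] [ConnectedSpace M] in
theorem b4b_region (h : ZD 𝒢 θ) (i : Fin 𝒜.n) {x0 : E} {c r s S : ℝ} (hc : 0 < c) (hs : 0 < s)
    (hSr : S < r)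
    (hq : ∀ y ∈ ball x0 r, c * ‖y - x0‖ ^ 2 ≤ 𝒜.rd θ i y) {Q : M → ℝ} (hQ : Continuous Q)
    {e A : ℝ} (he : 0 < e) (hA0 : 0 ≤ A)
    (hA : ∀ y ∈ ball x0 s, Q ((𝒜.φ i).symm y) ≤ A * ‖y - x0‖ ^ (2 * e))
    (h0 : ∀ p, p ∉ (𝒜.φ i).symm '' closedBall x0 S → Q p = 0) :
    ∃ C, 0 ≤ C ∧ ∀ p, Q p ≤ C * θ p ^ e := by
  obtain ⟨B, hB⟩ := isCompact_univ.exists_bound_of_continuousOn hQ.continuousOn
  have hB' : ∀ p, Q p ≤ |B| := fun p =>
    (le_abs_self _).trans ((hB p (mem_univ p)).trans (le_abs_self B))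
  have hcs : 0 < c * s ^ 2 := by positivity
  refine ⟨A * (c ^ e)⁻¹ + |B| * ((c * s ^ 2) ^ e)⁻¹, by positivity, fun p => ?_⟩
  have hθ : 0 ≤ θ p ^ e := Real.rpow_nonneg (h.nn p) e
  have hce : 0 < c ^ e := Real.rpow_pos_of_pos hc e
  have hcse : 0 < (c * s ^ 2) ^ e := Real.rpow_pos_of_pos hcs e
  by_cases hp : p ∈ (𝒜.φ i).symm '' closedBall x0 S
  · obtain ⟨y, hy, rfl⟩ := hp
    have hyr : y ∈ ball x0 r := by
      rw [mem_closedBall] at hy
      rw [mem_ball]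
      linarith
    have hq1 : c * ‖y - x0‖ ^ 2 ≤ θ ((𝒜.φ i).symm y) := hq y hyr
    by_cases hys : y ∈ ball x0 s
    · have h1 : c ^ e * ‖y - x0‖ ^ (2 * e) ≤ θ ((𝒜.φ i).symm y) ^ e := by
        have h2 : (c * ‖y - x0‖ ^ 2) ^ e ≤ θ ((𝒜.φ i).symm y) ^ e :=
          Real.rpow_le_rpow (by positivity) hq1 he.le
        rwa [Real.mul_rpow hc.le (by positivity), ← Real.rpow_natCast,
          ← Real.rpow_mul (norm_nonneg _)] at h2
      have h3 : A * ‖y - x0‖ ^ (2 * e) ≤ A * (c ^ e)⁻¹ * θ ((𝒜.φ i).symm y) ^ e := by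
        have h4 : ‖y - x0‖ ^ (2 * e) ≤ (c ^ e)⁻¹ * θ ((𝒜.φ i).symm y) ^ e := by
          rw [inv_mul_eq_div, le_div_iff₀ hce]
          linarith
        calc A * ‖y - x0‖ ^ (2 * e) ≤ A * ((c ^ e)⁻¹ * θ ((𝒜.φ i).symm y) ^ e) :=
              mul_le_mul_of_nonneg_left h4 hA0
          _ = _ := by ring
      have h5 : 0 ≤ |B| * ((c * s ^ 2) ^ e)⁻¹ * θ ((𝒜.φ i).symm y) ^ e := by positivity
      have h6 := hA y hys
      linarith
    · have h1 : s ≤ ‖y - x0‖ := by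
        rw [mem_ball, not_lt, dist_eq_norm] at hys
        exact hys
      have h2 : c * s ^ 2 ≤ θ ((𝒜.φ i).symm y) := by
        refine le_trans ?_ hq1
        gcongr
      have h3 : (c * s ^ 2) ^ e ≤ θ ((𝒜.φ i).symm y) ^ e :=
        Real.rpow_le_rpow hcs.le h2 he.le
      have h4 : |B| ≤ |B| * ((c * s ^ 2) ^ e)⁻¹ * θ ((𝒜.φ i).symm y) ^ e := by
        have h5 : 1 ≤ ((c * s ^ 2) ^ e)⁻¹ * θ ((𝒜.φ i).symm y) ^ e := by
          rw [inv_mul_eq_div, le_div_iff₀ hcse]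
          linarith
        calc |B| = |B| * 1 := (mul_one _).symm
          _ ≤ |B| * (((c * s ^ 2) ^ e)⁻¹ * θ ((𝒜.φ i).symm y) ^ e) :=
              mul_le_mul_of_nonneg_left h5 (abs_nonneg B)
          _ = _ := by ring
      have h5 : 0 ≤ A * (c ^ e)⁻¹ * θ ((𝒜.φ i).symm y) ^ e := by positivity
      have h6 := hB' ((𝒜.φ i).symm y)
      linarith
  · rw [h0 p hp]
    positivity

theorem b4b_ip {G : E → Mat} {x : E} {K C t : ℝ} (hK : ∀ a b, |gi G x a b| ≤ K)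
    {h : Fin 3 → Fin 3 → ℝ} (hh : ∀ a b, |h a b| ≤ C * t) :
    ip G h h x ≤ 81 * K ^ 2 * C ^ 2 * t ^ 2 := by
  have hK0 : 0 ≤ K := (abs_nonneg _).trans (hK 0 0)
  have hC0 : 0 ≤ C * t := (abs_nonneg _).trans (hh 0 0)
  have h1 : ∀ a b c d, gi G x a c * gi G x b d * h a b * h c d ≤ K * K * (C * t) * (C * t) := by
    intro a b c d
    refine (le_abs_self _).trans ?_
    rw [abs_mul, abs_mul, abs_mul]
    have := hK a c
    have := hK b d
    have := hh a b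
    have := hh c d
    gcongr
  unfold ip
  calc ∑ a, ∑ b, ∑ c, ∑ d, gi G x a c * gi G x b d * h a b * h c d
      ≤ ∑ _a : Fin 3, ∑ _b : Fin 3, ∑ _c : Fin 3, ∑ _d : Fin 3, K * K * (C * t) * (C * t) :=
        Finset.sum_le_sum fun a _ => Finset.sum_le_sum fun b _ => Finset.sum_le_sum fun c _ =>
          Finset.sum_le_sum fun d _ => h1 a b c d
    _ = 81 * K ^ 2 * C ^ 2 * t ^ 2 := by
        simp only [Finset.sum_const, Finset.card_univ, Fintype.card_fin, nsmul_eq_mul]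
        push_cast
        ring

theorem b4b_gi {G : E → Mat} {U : Set E} (hG : LM U G) {K : Set E} (hK : IsCompact K)
    (hKU : K ⊆ U) : ∃ B, ∀ x ∈ K, ∀ a b, |gi G x a b| ≤ B := by
  have h1 : ContinuousOn (fun x => ∑ a, ∑ b, |gi G x a b|) K := by
    refine continuousOn_finsetSum _ fun a _ => continuousOn_finsetSum _ fun b _ => ?_
    exact ((gi_smooth hG a b).continuousOn.mono hKU).abs
  obtain ⟨B, hB⟩ := hK.exists_bound_of_continuousOn h1
  refine ⟨B, fun x hx a b => ?_⟩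
  have h2 := (le_abs_self _).trans (hB x hx)
  have h3 : |gi G x a b| ≤ ∑ b, |gi G x a b| :=
    Finset.single_le_sum (f := fun b => |gi G x a b|) (fun b _ => abs_nonneg _)
      (Finset.mem_univ b)
  have h4 : ∑ b, |gi G x a b| ≤ ∑ a, ∑ b, |gi G x a b| :=
    Finset.single_le_sum (f := fun a => ∑ b, |gi G x a b|)
      (fun a _ => Finset.sum_nonneg fun b _ => abs_nonneg _) (Finset.mem_univ a)
  linarith

theorem ZD.exists_seed (h : ZD 𝒢 θ) {z : M} (hz : θ z = 0) (i : Fin 𝒜.n)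
    (hi : z ∈ (𝒜.φ i).source) (ξ : Fin 3 → ℝ) : ∃ η0 : M → ℝ, Seed 𝒢 θ η0 ∧ η0 z = 0 ∧
      ∀ a, pd a (𝒜.rd η0 i) (𝒜.φ i z) = ξ a := by
  set x0 : E := 𝒜.φ i z with hx0
  have hx4 : x0 ∈ ball (0 : E) 4 := Atl.map_mem i hi
  have hsz : (𝒜.φ i).symm x0 = z := (𝒜.φ i).left_inv hi
  have hw0 : 𝒜.rd θ i x0 = 0 := by
    unfold Atl.rd
    rw [hsz, hz]
  obtain ⟨P, hPs, hP0, hP1, hP2⟩ := exists_poly (𝒢.lm i) hx4 ξ
  obtain ⟨c, hc, r, hr, hr4, hq⟩ := h.quad i hx4 hw0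
  have hG : LM (ball x0 r) (𝒢.g i) := (𝒢.lm i).mono isOpen_ball hr4
  have hTT : ∀ x ∈ ball x0 r, ∀ a b, TT (𝒢.g i) (𝒜.rd θ i) a b x = 0 := by
    intro x hx a b
    exact 𝒢.TT_of_t2 isOpen_univ (h.sm.on univ) (fun p _ => h.t2 p) i x
      ⟨hr4 hx, mem_univ _⟩ a b
  obtain ⟨C, r', hr', hr'r, hC⟩ := seed_local hr hG ((h.sm i).mono hr4) hPs.contDiffOn hTT hw0
    (fun a => h.pd_zero i hx4 hw0 a) hP0 hP2
  -- the cut off
  have hb1 : (0 : ℝ) < r' / 4 := by linarith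
  have hb2 : r' / 4 < r' / 2 := by linarith
  let χ : ContDiffBump x0 := ⟨r' / 4, r' / 2, hb1, hb2⟩
  let F : E → ℝ := fun y => χ y * P y
  have hF : ContDiff ℝ ∞ F := χ.contDiff.mul hPs
  have hsupp : tsupport F ⊆ closedBall x0 (r' / 2) := by
    refine (tsupport_mul_subset_left).trans ?_
    rw [χ.tsupport_eq]
  have hS4 : closedBall x0 (r' / 2) ⊆ ball (0 : E) 4 :=
    (closedBall_subset_ball (by linarith)).trans hr4
  have hsupp4 : tsupport F ⊆ ball (0 : E) 4 := hsupp.trans hS4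
  let η0 : M → ℝ := 𝒜.ext i F
  have hη : 𝒜.Sm η0 := Atl.sm_ext i hF hsupp4
  have hloc : ∀ y ∈ ball x0 (r' / 4), 𝒜.rd η0 i =ᶠ[𝓝 y] P := by
    intro y hy
    filter_upwards [isOpen_ball.mem_nhds hy] with x hx
    have hx4' : x ∈ ball (0 : E) 4 :=
      hS4 (ball_subset_closedBall.trans (closedBall_subset_closedBall hb2.le) hx)
    rw [Atl.rd_ext i F hx4']
    have h1 : χ x = 1 := χ.one_of_mem_closedBall (ball_subset_closedBall hx)
    simp only [F, h1, one_mul]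
  have hη0 : ∀ p, p ∉ (𝒜.φ i).symm '' closedBall x0 (r' / 2) → η0 p = 0 := by
    intro p hp
    by_contra hne
    apply hp
    have h1 : p ∈ tsupport η0 := subset_tsupport _ hne
    rw [Atl.tsupport_ext i hsupp4] at h1
    exact image_mono hsupp h1
  have hKc : IsCompact ((𝒜.φ i).symm '' closedBall x0 (r' / 2)) := by
    refine (isCompact_closedBall x0 (r' / 2)).image_of_continuousOn ?_
    refine ContinuousOn.mono (𝒜.φ i).continuousOn_symm ?_
    rw [𝒜.target_eq i]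
    exact hS4
  have hUo : IsOpen ((𝒜.φ i).symm '' closedBall x0 (r' / 2))ᶜ := hKc.isClosed.isOpen_compl
  have hEq : EqOn η0 (fun q => 0 * η0 q) ((𝒜.φ i).symm '' closedBall x0 (r' / 2))ᶜ := by
    intro q hq'
    simp only [zero_mul]
    exact hη0 q hq'
  obtain ⟨B, hB⟩ := b4b_gi (𝒢.lm i) (isCompact_closedBall x0 (r' / 2)) hS4
  have hdom : ∀ y ∈ ball x0 (r' / 4), y ∈ closedBall x0 (r' / 2) := fun y hy =>
    closedBall_subset_closedBall hb2.le (ball_subset_closedBall hy)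
  have hdu : ∀ y ∈ ball x0 (r' / 4), y ∈ 𝒜.dom univ i := fun y hy =>
    ⟨hS4 (hdom y hy), mem_univ _⟩
  have hr'' : ∀ y ∈ ball x0 (r' / 4), y ∈ ball x0 r' := fun y hy =>
    ball_subset_ball (by linarith) hy
  have hSr : r' / 2 < r := by linarith
  have hq1 : ∀ y ∈ ball x0 r, c * ‖y - x0‖ ^ 2 ≤ 𝒜.rd θ i y := fun y hy => (hq y hy).1
  have hC0 : 0 ≤ |C| := abs_nonneg C
  refine ⟨η0, ⟨hη, ?_⟩, ?_, ?_⟩
  · -- estimates
    obtain ⟨C1, hC1, hQ1⟩ := b4b_region h i hc hb1 hSr hq1 (Q := 𝒢.t2 η0) (e := 1)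
      (A := 81 * B ^ 2 * C ^ 2) (𝒢.Sm_t2 hη).continuous one_pos (by positivity) (by
        intro y hy
        rw [𝒢.t2_chart isOpen_univ (hη.on univ) i (hdu y hy)]
        have h1 : (fun a b => TT (𝒢.g i) (𝒜.rd η0 i) a b y) =
            fun a b => TT (𝒢.g i) P a b y := by
          funext a b
          exact (TT_congr (EventuallyEq.refl _ _) (hloc y hy) a b).eq_of_nhds
        rw [h1]
        have h2 := b4b_ip (G := 𝒢.g i) (x := y) (K := B) (C := C) (t := ‖y - x0‖)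
          (hB y (hdom y hy)) (hC y (hr'' y hy)).1
        rw [mul_one, show (2 : ℝ) = ((2 : ℕ) : ℝ) by norm_num, Real.rpow_natCast]
        exact h2) (by
        intro p hp
        rw [𝒢.t2_congr hUo hp hEq, 𝒢.t2_const_mul hUo hp (hη.on _) 0]
        ring)
    obtain ⟨C2, hC2, hQ2⟩ := b4b_region h i hc hb1 hSr hq1 (Q := fun p => |𝒢.bb η0 θ p|)
      (e := 3 / 2) (A := |C|) ((𝒢.Sm_bb hη h.sm).continuous.abs) (by norm_num) hC0 (by
        intro y hy
        rw [𝒢.bb_chart isOpen_univ (hη.on univ) (h.sm.on univ) i (hdu y hy)]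
        have h1 : YR.bb (𝒢.g i) (𝒜.rd η0 i) (𝒜.rd θ i) y = YR.bb (𝒢.g i) P (𝒜.rd θ i) y := by
          unfold YR.bb YR.rho
          rw [(lap_congr (EventuallyEq.refl _ (𝒢.g i)) (hloc y hy)).eq_of_nhds,
            (inn_congr (EventuallyEq.refl _ (𝒢.g i)) (hloc y hy)
              (EventuallyEq.refl _ (𝒜.rd θ i))).eq_of_nhds, (hloc y hy).eq_of_nhds]
        rw [h1, show (2 : ℝ) * (3 / 2) = ((3 : ℕ) : ℝ) by norm_num, Real.rpow_natCast]
        refine (hC y (hr'' y hy)).2.1.trans ?_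
        gcongr
        exact le_abs_self C) (by
        intro p hp
        rw [𝒢.bb_congr (v := θ) (v' := θ) hUo hp hEq (fun _ _ => rfl),
          𝒢.bb_const_mul hUo hp (hη.on _) 0, zero_mul, abs_zero])
    obtain ⟨C3, hC3, hQ3⟩ := b4b_region h i hc hb1 hSr hq1 (Q := fun p => |η0 p|)
      (e := 1 / 2) (A := |C|) (hη.continuous.abs) (by norm_num) hC0 (by
        intro y hy
        have h1 : η0 ((𝒜.φ i).symm y) = P y := (hloc y hy).eq_of_nhds
        rw [h1, show (2 : ℝ) * (1 / 2) = ((1 : ℕ) : ℝ) by norm_num, Real.rpow_natCast, pow_one]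
        refine (hC y (hr'' y hy)).2.2.trans ?_
        gcongr
        exact le_abs_self C) (by
        intro p hp
        rw [hη0 p hp, abs_zero])
    refine ⟨C1 + C2 + C3, fun p => ⟨?_, ?_, ?_⟩⟩
    · have h1 := hQ1 p
      rw [Real.rpow_one] at h1
      have h2 : 0 ≤ (C2 + C3) * θ p := mul_nonneg (by linarith) (h.nn p)
      linarith
    · have h1 := hQ2 p
      have h2 : 0 ≤ (C1 + C3) * θ p ^ (3 / 2 : ℝ) :=
        mul_nonneg (by linarith) (Real.rpow_nonneg (h.nn p) _)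
      linarith
    · have h1 := hQ3 p
      have h2 : 0 ≤ (C1 + C2) * θ p ^ (1 / 2 : ℝ) :=
        mul_nonneg (by linarith) (Real.rpow_nonneg (h.nn p) _)
      linarith
  · have h1 : η0 ((𝒜.φ i).symm x0) = P x0 := (hloc x0 (mem_ball_self hb1)).eq_of_nhds
    rw [hsz] at h1
    rw [h1, hP0]
  · intro a
    rw [pd_congr (hloc x0 (mem_ball_self hb1)), hP1 a]

end YR
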