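import Pool.Agent.Rig71.B5a
import Pool.Agent.Rig71.B5b

/-!
# B5c : the corrections `κ_m` (`ZD.exists_kap`)
-/

open scoped ContDiff Topology
open MeasureTheory Metric Set Filter

noncomputable section

namespace YR

variable {M : Type*} [TopologicalSpace M] [T2Space M] [CompactSpace M] [ConnectedSpace M]
  {𝒜 : Atl M} {𝒢 : Met 𝒜} {θ η0 : M → ℝ}

/-- `θ⁻¹ ≤ 2^{5/4} B^{1/4} (θ+s)^{-5/4}` for `s ≤ θ ≤ B` -/
theorem b5c_kap_pow {t s B : ℝ} (ht : 0 < t) (hs : 0 < s) (hst : s ≤ t) (hB : t ≤ B) :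
    t⁻¹ ≤ 2 ^ (5 / 4 : ℝ) * B ^ (1 / 4 : ℝ) * (t + s) ^ (-(5 / 4) : ℝ) := by
  have h1 : t⁻¹ = t ^ (1 / 4 : ℝ) * t ^ (-(5 / 4) : ℝ) := by
    rw [← Real.rpow_add ht, ← Real.rpow_neg_one]
    norm_num
  have h2 : t ^ (-(5 / 4) : ℝ) = 2 ^ (5 / 4 : ℝ) * (2 * t) ^ (-(5 / 4) : ℝ) := by
    rw [Real.mul_rpow (by norm_num) ht.le, ← mul_assoc, ← Real.rpow_add (by norm_num)]
    norm_num
  have h3 : (2 * t) ^ (-(5 / 4) : ℝ) ≤ (t + s) ^ (-(5 / 4) : ℝ) :=
    Real.rpow_le_rpow_of_nonpos (by linarith) (by linarith) (by norm_num)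
  have h4 : t ^ (1 / 4 : ℝ) ≤ B ^ (1 / 4 : ℝ) := Real.rpow_le_rpow ht.le hB (by norm_num)
  have h5 : (0 : ℝ) ≤ (2 * t) ^ (-(5 / 4) : ℝ) := Real.rpow_nonneg (by linarith) _
  rw [h1, h2]
  calc t ^ (1 / 4 : ℝ) * (2 ^ (5 / 4 : ℝ) * (2 * t) ^ (-(5 / 4) : ℝ))
      ≤ B ^ (1 / 4 : ℝ) * (2 ^ (5 / 4 : ℝ) * (t + s) ^ (-(5 / 4) : ℝ)) := by
        refine mul_le_mul h4 ?_ (by positivity) (Real.rpow_nonneg (ht.le.trans hB) _)
        exact mul_le_mul_of_nonneg_left h3 (by positivity)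
    _ = _ := by ring

omit [TopologicalSpace M] [T2Space M] [CompactSpace M] [ConnectedSpace M] in
theorem b5c_qcut_nonneg (θ : M → ℝ) (m : ℝ) (p : M) : 0 ≤ qcut θ m p :=
  Real.smoothTransition.nonneg _

omit [TopologicalSpace M] [T2Space M] [CompactSpace M] [ConnectedSpace M] in
theorem b5c_qcut_le_one (θ : M → ℝ) (m : ℝ) (p : M) : qcut θ m p ≤ 1 :=
  Real.smoothTransition.le_one _

omit [TopologicalSpace M] [T2Space M] [CompactSpace M] [ConnectedSpace M] in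
theorem b5c_qcut_zero {θ : M → ℝ} {m : ℝ} {p : M} (h : m * θ p ≤ 1) : qcut θ m p = 0 :=
  Real.smoothTransition.zero_of_nonpos (by linarith)

omit [TopologicalSpace M] [T2Space M] [CompactSpace M] [ConnectedSpace M] in
theorem b5c_qcut_one {θ : M → ℝ} {m : ℝ} {p : M} (h : 2 ≤ m * θ p) : qcut θ m p = 1 :=
  Real.smoothTransition.one_of_one_le (by linarith)

omit [T2Space M] [CompactSpace M] [ConnectedSpace M] in
/-- pointwise bound for `g * ee`, when `g` is supported in `{s ≤ θ ≤ B}` -/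
theorem b5c_kap_ee {𝒢 : Met 𝒜} {Ce : ℝ} (hCe : ∀ p, 0 < θ p → |𝒢.ee θ η0 p| ≤ Ce * (θ p)⁻¹)
    {s B g : ℝ} {p : M} (hs : 0 < s) (hg : |g| ≤ 1) (hg1 : g ≠ 0 → s ≤ θ p)
    (hg2 : g ≠ 0 → θ p ≤ B) :
    |g * 𝒢.ee θ η0 p| ≤ |Ce| * (2 ^ (5 / 4 : ℝ) * B ^ (1 / 4 : ℝ)) *
      (θ p + s) ^ (-(5 / 4) : ℝ) ∨ g = 0 := by
  by_cases hg0 : g = 0
  · exact Or.inr hg0
  · left
    have h1 := hg1 hg0
    have h2 := hg2 hg0
    have hp : 0 < θ p := hs.trans_le h1
    have h3 := b5c_kap_pow hp hs h1 h2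
    have h4 := hCe p hp
    rw [abs_mul]
    calc |g| * |𝒢.ee θ η0 p| ≤ 1 * |𝒢.ee θ η0 p| := mul_le_mul_of_nonneg_right hg (abs_nonneg _)
      _ = |𝒢.ee θ η0 p| := one_mul _
      _ ≤ Ce * (θ p)⁻¹ := h4
      _ ≤ |Ce| * (θ p)⁻¹ := mul_le_mul_of_nonneg_right (le_abs_self _) (inv_nonneg.2 hp.le)
      _ ≤ |Ce| * (2 ^ (5 / 4 : ℝ) * B ^ (1 / 4 : ℝ) * (θ p + s) ^ (-(5 / 4) : ℝ)) :=
          mul_le_mul_of_nonneg_left h3 (abs_nonneg _)
      _ = _ := by ring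

theorem ZD.exists_kap (h : ZD 𝒢 θ) (hDR : DR 𝒢 0) (hMP : 𝒢.MP) (hs : Seed 𝒢 θ η0) :
    ∃ κ κ' C, Kap 𝒢 θ η0 κ κ' C := by
  classical
  obtain ⟨Ce, hCe⟩ := h.ee_bound hs
  obtain ⟨c, hc, C0, hcomp⟩ := h.comparison hMP
  -- the bound of `θ`
  obtain ⟨B, hB1, hB⟩ : ∃ B : ℝ, 1 ≤ B ∧ ∀ p, θ p ≤ B := by
    obtain ⟨B, hB⟩ := (isCompact_univ.image h.sm.continuous).bddAbove
    exact ⟨max B 1, le_max_right _ _, fun p => (hB ⟨p, mem_univ _, rfl⟩).trans (le_max_left _ _)⟩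
  -- the functions
  have hex : ∀ m : ℕ, ∃ κ : M → ℝ, 𝒜.Sm κ ∧
      ∀ p, |𝒢.L κ p + qcut θ (m + 1) p * 𝒢.ee θ η0 p| ≤ 1 / (m + 1) := by
    intro m
    have hm : (0 : ℝ) < (m : ℝ) + 1 := by positivity
    obtain ⟨κ, hκ1, hκ2⟩ := hDR (fun p => -(qcut θ (m + 1) p * 𝒢.ee θ η0 p))
      (h.ee_sm hs hm).neg (1 / (m + 1)) (by positivity)
    refine ⟨κ, hκ1, fun p => ?_⟩
    have h1 := hκ2 p
    rwa [zero_mul, sub_zero, sub_neg_eq_add] at h1
  choose κ hκ1 hκ2 using hex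
  set D : ℝ := |Ce| * 2 ^ (5 / 4 : ℝ) / c with hD
  have hDn : 0 ≤ D := by positivity
  have hDc : ∀ b : ℝ, |Ce| * (2 ^ (5 / 4 : ℝ) * b) = D * b * c := by
    intro b
    rw [hD]
    field_simp
  -- the bound
  have hbd : ∀ (m : ℕ) (p : M), 0 < θ p →
      |κ m p| ≤ D * B ^ (1 / 4 : ℝ) * θ p ^ (-(1 / 4) : ℝ) +
        C0 * (D * B ^ (1 / 4 : ℝ) + 1) := by
    intro m p hp
    have hm : (0 : ℝ) < (m : ℝ) + 1 := by positivity
    have hm1 : (1 : ℝ) / (m + 1) ≤ 1 := by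
      rw [div_le_one hm]
      have : (0 : ℝ) ≤ m := Nat.cast_nonneg m
      linarith
    have hB4 : (0 : ℝ) ≤ B ^ (1 / 4 : ℝ) := Real.rpow_nonneg (by linarith) _
    have h1 := hcomp (D * B ^ (1 / 4 : ℝ)) 1 (1 / (m + 1)) (by positivity) zero_le_one
      (by positivity) hm1 (κ m) (hκ1 m) ?_ p
    · have h2 : (θ p + 1 / (m + 1)) ^ (-(1 / 4) : ℝ) ≤ θ p ^ (-(1 / 4) : ℝ) :=
        Real.rpow_le_rpow_of_nonpos hp (by linarith [show (0 : ℝ) < 1 / (m + 1) by positivity])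
          (by norm_num)
      have h3 := mul_le_mul_of_nonneg_left h2 (show 0 ≤ D * B ^ (1 / 4 : ℝ) by positivity)
      linarith
    · intro q
      have h2 := hκ2 m q
      have h3 : |qcut θ (m + 1) q * 𝒢.ee θ η0 q| ≤
          D * B ^ (1 / 4 : ℝ) * c * (θ q + 1 / (m + 1)) ^ (-(5 / 4) : ℝ) := by
        have h4 := b5c_kap_ee (η0 := η0) hCe (s := 1 / (m + 1)) (B := B) (g := qcut θ (m + 1) q)
          (p := q) (by positivity) (by rw [abs_of_nonneg (b5c_qcut_nonneg _ _ _)]; exact b5c_qcut_le_one _ _ _)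
          ?_ (fun _ => hB q)
        · rcases h4 with h4 | h4
          · rwa [hDc] at h4
          · rw [h4, zero_mul, abs_zero]
            have : (0 : ℝ) ≤ (θ q + 1 / (m + 1)) ^ (-(5 / 4) : ℝ) :=
              Real.rpow_nonneg (by have := h.nn q; positivity) _
            positivity
        · intro h5
          by_contra hcon
          apply h5
          apply b5c_qcut_zero
          push Not at hcon
          rw [lt_div_iff₀ hm] at hcon
          linarith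
      have h6 : 𝒢.L (κ m) q = (𝒢.L (κ m) q + qcut θ (m + 1) q * 𝒢.ee θ η0 q) -
          qcut θ (m + 1) q * 𝒢.ee θ η0 q := by ring
      rw [h6]
      refine (abs_sub _ _).trans ?_
      linarith
  -- the Cauchy estimate
  set e : ℕ → ℝ := fun m => D * (2 / (m + 1)) ^ (1 / 4 : ℝ) with he
  have hcau : ∀ m l : ℕ, m ≤ l → ∀ p, 0 < θ p →
      |κ m p - κ l p| ≤ e m * θ p ^ (-(1 / 4) : ℝ) + C0 * (e m + 2 / (m + 1)) := by
    intro m l hml p hp
    have hm : (0 : ℝ) < (m : ℝ) + 1 := by positivity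
    have hl : (0 : ℝ) < (l : ℝ) + 1 := by positivity
    have hml' : (m : ℝ) + 1 ≤ (l : ℝ) + 1 := by
      have : (m : ℝ) ≤ l := by exact_mod_cast hml
      linarith
    have hl1 : (1 : ℝ) / (l + 1) ≤ 1 := by
      rw [div_le_one hl]
      have : (0 : ℝ) ≤ l := Nat.cast_nonneg l
      linarith
    have hen : 0 ≤ e m := by
      rw [he]
      positivity
    have h1 := hcomp (e m) (2 / (m + 1)) (1 / (l + 1)) hen (by positivity)
      (by positivity) hl1 (fun q => κ m q - κ l q) ((hκ1 m).sub (hκ1 l)) ?_ p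
    · have h2 : (θ p + 1 / (l + 1)) ^ (-(1 / 4) : ℝ) ≤ θ p ^ (-(1 / 4) : ℝ) :=
        Real.rpow_le_rpow_of_nonpos hp (by linarith [show (0 : ℝ) < 1 / (l + 1) by positivity])
          (by norm_num)
      have h3 := mul_le_mul_of_nonneg_left h2 hen
      linarith
    · intro q
      have hL : 𝒢.L (fun q => κ m q - κ l q) q = 𝒢.L (κ m) q - 𝒢.L (κ l) q := by
        unfold Met.L
        rw [𝒢.lap_sub isOpen_univ (mem_univ q) ((hκ1 m).on _) ((hκ1 l).on _)]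
        ring
      have h2 := hκ2 m q
      have h2' := hκ2 l q
      have h3 : |(qcut θ (l + 1) q - qcut θ (m + 1) q) * 𝒢.ee θ η0 q| ≤
          e m * c * (θ q + 1 / (l + 1)) ^ (-(5 / 4) : ℝ) := by
        have h4 := b5c_kap_ee (η0 := η0) hCe (s := 1 / (l + 1)) (B := 2 / (m + 1))
          (g := qcut θ (l + 1) q - qcut θ (m + 1) q) (p := q) (by positivity) ?_ ?_ ?_
        · rcases h4 with h4 | h4
          · rwa [hDc] at h4
          · rw [h4, zero_mul, abs_zero]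
            have : (0 : ℝ) ≤ (θ q + 1 / (l + 1)) ^ (-(5 / 4) : ℝ) :=
              Real.rpow_nonneg (by have := h.nn q; positivity) _
            positivity
        · rw [abs_le]
          have ha := b5c_qcut_nonneg θ (l + 1) q
          have hb := b5c_qcut_le_one θ (l + 1) q
          have ha' := b5c_qcut_nonneg θ (m + 1) q
          have hb' := b5c_qcut_le_one θ (m + 1) q
          constructor <;> linarith
        · intro h5
          by_contra hcon
          apply h5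
          push Not at hcon
          have hcon2 : (l + 1) * θ q ≤ 1 := by
            rw [lt_div_iff₀ hl] at hcon
            linarith
          have hcon3 : (m + 1) * θ q ≤ 1 :=
            (mul_le_mul_of_nonneg_right hml' (h.nn q)).trans hcon2
          rw [b5c_qcut_zero hcon2, b5c_qcut_zero hcon3, sub_zero]
        · intro h5
          by_contra hcon
          apply h5
          push Not at hcon
          have hcon2 : 2 ≤ (m + 1) * θ q := by
            rw [div_lt_iff₀ hm] at hcon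
            linarith
          have hcon3 : 2 ≤ (l + 1) * θ q :=
            hcon2.trans (mul_le_mul_of_nonneg_right hml' (h.nn q))
          rw [b5c_qcut_one hcon2, b5c_qcut_one hcon3, sub_self]
      have h6 : 𝒢.L (κ m) q - 𝒢.L (κ l) q =
          (𝒢.L (κ m) q + qcut θ (m + 1) q * 𝒢.ee θ η0 q) -
          (𝒢.L (κ l) q + qcut θ (l + 1) q * 𝒢.ee θ η0 q) +
          (qcut θ (l + 1) q - qcut θ (m + 1) q) * 𝒢.ee θ η0 q := by ring
      have h7 : (1 : ℝ) / (l + 1) ≤ 1 / (m + 1) := one_div_le_one_div_of_le hm hml'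
      rw [hL, h6]
      refine (abs_add_le _ _).trans ?_
      have h8 := abs_sub (𝒢.L (κ m) q + qcut θ (m + 1) q * 𝒢.ee θ η0 q)
        (𝒢.L (κ l) q + qcut θ (l + 1) q * 𝒢.ee θ η0 q)
      have h9 : (2 : ℝ) / (m + 1) = 1 / (m + 1) + 1 / (m + 1) := by ring
      rw [h9]
      linarith
  -- the errors tend to zero
  have hm0 : Tendsto (fun m : ℕ => (2 : ℝ) / (m + 1)) atTop (𝓝 0) := by
    have h1 := (tendsto_one_div_add_atTop_nhds_zero_nat (𝕜 := ℝ)).const_mul 2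
    rw [mul_zero] at h1
    refine h1.congr fun m => ?_
    ring
  have he0 : Tendsto e atTop (𝓝 0) := by
    have h1 : Tendsto (fun m : ℕ => ((2 : ℝ) / (m + 1)) ^ (1 / 4 : ℝ)) atTop (𝓝 0) := by
      have h2 := hm0.rpow_const (p := (1 / 4 : ℝ)) (Or.inr (by norm_num))
      rwa [Real.zero_rpow (by norm_num)] at h2
    have h3 := h1.const_mul D
    rwa [mul_zero] at h3
  have herr : ∀ b : ℝ, Tendsto (fun m : ℕ => e m * b + C0 * (e m + 2 / (m + 1))) atTop (𝓝 0) := by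
    intro b
    have h1 := (he0.mul_const b).add ((he0.add hm0).const_mul C0)
    simpa using h1
  -- the limit
  have hlim : ∀ p, 0 < θ p → ∃ y, Tendsto (fun m => κ m p) atTop (𝓝 y) := by
    intro p hp
    apply cauchySeq_tendsto_of_complete
    refine cauchySeq_of_le_tendsto_0' (fun m : ℕ => e m * θ p ^ (-(1 / 4) : ℝ) +
      C0 * (e m + 2 / (m + 1))) ?_ (herr _)
    intro m l hml
    rw [Real.dist_eq]
    exact hcau m l hml p hp
  choose! κ' hκ' using hlim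
  refine ⟨κ, κ', max (D * B ^ (1 / 4 : ℝ)) (C0 * (D * B ^ (1 / 4 : ℝ) + 1)), hκ1, ?_, ?_, hκ2⟩
  · intro m p hp
    refine (hbd m p hp).trans ?_
    have h1 : 0 ≤ θ p ^ (-(1 / 4) : ℝ) := Real.rpow_nonneg hp.le _
    have h2 := mul_le_mul_of_nonneg_right
      (le_max_left (D * B ^ (1 / 4 : ℝ)) (C0 * (D * B ^ (1 / 4 : ℝ) + 1))) h1
    have h3 := le_max_right (D * B ^ (1 / 4 : ℝ)) (C0 * (D * B ^ (1 / 4 : ℝ) + 1))
    rw [mul_one_add (max (D * B ^ (1 / 4 : ℝ)) (C0 * (D * B ^ (1 / 4 : ℝ) + 1)))]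
    linarith
  · intro δ hδ
    rw [Metric.tendstoUniformlyOn_iff]
    intro ε hε
    have h1 := (herr (δ ^ (-(1 / 4) : ℝ))).eventually (gt_mem_nhds (show (0 : ℝ) < ε from hε))
    filter_upwards [h1] with m hm p hp
    have hp0 : 0 < θ p := hδ.trans_le hp
    have hen : 0 ≤ e m := by
      rw [he]
      positivity
    have h2 : |κ m p - κ' p| ≤ e m * θ p ^ (-(1 / 4) : ℝ) + C0 * (e m + 2 / (m + 1)) := by
      have h3 : Tendsto (fun l => |κ m p - κ l p|) atTop (𝓝 |κ m p - κ' p|) :=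
        ((hκ' p hp0).const_sub (κ m p)).abs
      refine le_of_tendsto h3 ?_
      filter_upwards [eventually_ge_atTop m] with l hl
      exact hcau m l hl p hp0
    have h4 : θ p ^ (-(1 / 4) : ℝ) ≤ δ ^ (-(1 / 4) : ℝ) :=
      Real.rpow_le_rpow_of_nonpos hδ hp (by norm_num)
    have h5 := mul_le_mul_of_nonneg_left h4 hen
    rw [dist_comm, Real.dist_eq]
    linarith

end YR
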