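import Pool.Agent.Rig71.BDefs
import Pool.Agent.Rig71.Int1
import Pool.Agent.Rig71.Int2
import Pool.Agent.Rig71.Int3
import Pool.Agent.Rig71.Glob2a
import Pool.Agent.Rig71.Glob2c

/-!
# B8 : interior `W^{1,4}` estimate
-/

open scoped ContDiff Topology
open MeasureTheory Metric Set Filter

noncomputable section

namespace YR

theorem b8_am {x a b : ℝ} (ha : 0 ≤ a) (hb : 0 ≤ b) (h : x ^ 2 ≤ 4 * a * b) : x ≤ a + b := by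
  by_contra hc
  rw [not_le] at hc
  nlinarith [sq_nonneg (a - b), mul_self_nonneg (x - (a + b))]

theorem b8_p1 {c U L P k s A X K : ℝ} (hP : 0 ≤ P) (hk0 : 0 ≤ k) (hk : k ≤ K)
    (hs : s ^ 2 ≤ k * P) (hX : |c| ≤ X) (hA : 0 ≤ A) (h : c ≠ 0 → |U| ≤ A ∧ |L| ≤ A) :
    -(U * (c ^ 2 * L + 2 * c * s)) ≤ A ^ 2 * X ^ 2 + 2 * A ^ 2 * K + 1 / 2 * (c ^ 2 * P) := by
  have hK : 0 ≤ K := hk0.trans hk
  by_cases hc : c = 0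
  · subst hc
    have : 0 ≤ A ^ 2 * X ^ 2 + 2 * A ^ 2 * K := by positivity
    simpa using this
  · obtain ⟨hU, hL⟩ := h hc
    have hX2 : c ^ 2 ≤ X ^ 2 := sq_le_sq' (by linarith [neg_abs_le c]) ((le_abs_self c).trans hX)
    have hU2 : U ^ 2 ≤ A ^ 2 := sq_le_sq' (by linarith [neg_abs_le U]) ((le_abs_self U).trans hU)
    have h1 : -(U * (c ^ 2 * L)) ≤ A ^ 2 * X ^ 2 := by
      have h2 : -(U * L) ≤ A ^ 2 := by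
        have := neg_abs_le (U * L)
        rw [abs_mul] at this
        have h3 : |U| * |L| ≤ A * A := mul_le_mul hU hL (abs_nonneg _) hA
        nlinarith
      calc -(U * (c ^ 2 * L)) = c ^ 2 * -(U * L) := by ring
        _ ≤ c ^ 2 * A ^ 2 := mul_le_mul_of_nonneg_left h2 (sq_nonneg _)
        _ ≤ X ^ 2 * A ^ 2 := mul_le_mul_of_nonneg_right hX2 (sq_nonneg _)
        _ = A ^ 2 * X ^ 2 := by ring
    have h2 : -(U * (2 * c * s)) ≤ 2 * A ^ 2 * K + 1 / 2 * (c ^ 2 * P) := by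
      refine b8_am (by positivity) (by positivity) ?_
      have : s ^ 2 ≤ K * P := hs.trans (mul_le_mul_of_nonneg_right hk hP)
      calc (-(U * (2 * c * s))) ^ 2 = 4 * c ^ 2 * (U ^ 2 * s ^ 2) := by ring
        _ ≤ 4 * c ^ 2 * (A ^ 2 * (K * P)) := by gcongr
        _ = 4 * (2 * A ^ 2 * K) * (1 / 2 * (c ^ 2 * P)) := by ring
    calc -(U * (c ^ 2 * L + 2 * c * s)) = -(U * (c ^ 2 * L)) + -(U * (2 * c * s)) := by ring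
      _ ≤ _ := by linarith

theorem b8_p2 {c L P k s t ric H A X K R : ℝ} (hP : 0 ≤ P) (hk0 : 0 ≤ k) (hk : k ≤ K)
    (hH : 0 ≤ H) (hR : 0 ≤ R) (hs : s ^ 2 ≤ k * P) (ht : t ^ 2 ≤ k * (4 * H * P)) (hX : |c| ≤ X)
    (hric : |ric| ≤ R * P) (h : c ≠ 0 → |L| ≤ A) :
    c ^ 4 * (L ^ 2 - ric) + (L * (4 * c ^ 3 * s) - 4 * c ^ 3 * t / 2) ≤
      A ^ 2 * X ^ 4 * (1 + 2 * K) + (R * X ^ 2 + 2 + 8 * K) * (c ^ 2 * P)
        + 1 / 2 * (c ^ 4 * H) := by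
  have hK : 0 ≤ K := hk0.trans hk
  by_cases hc : c = 0
  · subst hc
    have : 0 ≤ A ^ 2 * X ^ 4 * (1 + 2 * K) := by positivity
    simpa using this
  · have hL := h hc
    have hX2 : c ^ 2 ≤ X ^ 2 := sq_le_sq' (by linarith [neg_abs_le c]) ((le_abs_self c).trans hX)
    have hL2 : L ^ 2 ≤ A ^ 2 := sq_le_sq' (by linarith [neg_abs_le L]) ((le_abs_self L).trans hL)
    have hX4 : c ^ 4 ≤ X ^ 4 := by
      calc c ^ 4 = c ^ 2 * c ^ 2 := by ring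
        _ ≤ X ^ 2 * X ^ 2 := mul_le_mul hX2 hX2 (sq_nonneg _) (sq_nonneg _)
        _ = X ^ 4 := by ring
    have h1 : c ^ 4 * L ^ 2 ≤ A ^ 2 * X ^ 4 := by
      calc c ^ 4 * L ^ 2 ≤ X ^ 4 * A ^ 2 := by gcongr
        _ = A ^ 2 * X ^ 4 := by ring
    have h2 : c ^ 4 * -ric ≤ R * X ^ 2 * (c ^ 2 * P) := by
      have : -ric ≤ R * P := by linarith [neg_abs_le ric]
      calc c ^ 4 * -ric ≤ c ^ 4 * (R * P) := by gcongr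
        _ = c ^ 2 * (R * (c ^ 2 * P)) := by ring
        _ ≤ X ^ 2 * (R * (c ^ 2 * P)) := by gcongr
        _ = R * X ^ 2 * (c ^ 2 * P) := by ring
    have hs' : s ^ 2 ≤ K * P := hs.trans (mul_le_mul_of_nonneg_right hk hP)
    have h3 : L * (4 * c ^ 3 * s) ≤ 2 * A ^ 2 * X ^ 4 * K + 2 * (c ^ 2 * P) := by
      refine b8_am (by positivity) (by positivity) ?_
      calc (L * (4 * c ^ 3 * s)) ^ 2 = 16 * (L ^ 2 * (c ^ 4 * (c ^ 2 * s ^ 2))) := by ring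
        _ ≤ 16 * (A ^ 2 * (X ^ 4 * (c ^ 2 * (K * P)))) := by gcongr
        _ = 4 * (2 * A ^ 2 * X ^ 4 * K) * (2 * (c ^ 2 * P)) := by ring
    have ht' : t ^ 2 ≤ K * (4 * H * P) := ht.trans (mul_le_mul_of_nonneg_right hk (by positivity))
    have h4 : -(4 * c ^ 3 * t / 2) ≤ 8 * K * (c ^ 2 * P) + 1 / 2 * (c ^ 4 * H) := by
      refine b8_am (by positivity) (by positivity) ?_
      calc (-(4 * c ^ 3 * t / 2)) ^ 2 = 4 * c ^ 6 * t ^ 2 := by ring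
        _ ≤ 4 * c ^ 6 * (K * (4 * H * P)) := by gcongr
        _ = 4 * (8 * K * (c ^ 2 * P)) * (1 / 2 * (c ^ 4 * H)) := by ring
    calc c ^ 4 * (L ^ 2 - ric) + (L * (4 * c ^ 3 * s) - 4 * c ^ 3 * t / 2)
        = c ^ 4 * L ^ 2 + c ^ 4 * -ric + L * (4 * c ^ 3 * s) + -(4 * c ^ 3 * t / 2) := by ring
      _ ≤ A ^ 2 * X ^ 4 + R * X ^ 2 * (c ^ 2 * P) + (2 * A ^ 2 * X ^ 4 * K + 2 * (c ^ 2 * P))
          + (8 * K * (c ^ 2 * P) + 1 / 2 * (c ^ 4 * H)) := by linarith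
      _ = _ := by ring

theorem b8_p3 {c U L P k s r H A X K : ℝ} (hP : 0 ≤ P) (hk0 : 0 ≤ k) (hk : k ≤ K)
    (hH : 0 ≤ H) (hs : s ^ 2 ≤ k * P) (hr : r ^ 2 ≤ 4 * H * P * P) (hX : |c| ≤ X)
    (hA : 0 ≤ A) (h : c ≠ 0 → |U| ≤ A ∧ |L| ≤ A) :
    -(U * (c ^ 4 * P * L + (c ^ 4 * r + P * (4 * c ^ 3 * s)))) ≤
      A ^ 2 * (X ^ 2 + 16 * K) * (c ^ 2 * P) + 4 * A ^ 2 * (c ^ 4 * H)
        + 1 / 2 * (c ^ 4 * P ^ 2) := by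
  have hK : 0 ≤ K := hk0.trans hk
  by_cases hc : c = 0
  · subst hc
    simp
  · obtain ⟨hU, hL⟩ := h hc
    have hX2 : c ^ 2 ≤ X ^ 2 := sq_le_sq' (by linarith [neg_abs_le c]) ((le_abs_self c).trans hX)
    have hU2 : U ^ 2 ≤ A ^ 2 := sq_le_sq' (by linarith [neg_abs_le U]) ((le_abs_self U).trans hU)
    have h1 : -(U * (c ^ 4 * P * L)) ≤ A ^ 2 * X ^ 2 * (c ^ 2 * P) := by
      have h2 : -(U * L) ≤ A ^ 2 := by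
        have := neg_abs_le (U * L)
        rw [abs_mul] at this
        have h3 : |U| * |L| ≤ A * A := mul_le_mul hU hL (abs_nonneg _) hA
        nlinarith
      calc -(U * (c ^ 4 * P * L)) = c ^ 2 * (c ^ 2 * P) * -(U * L) := by ring
        _ ≤ c ^ 2 * (c ^ 2 * P) * A ^ 2 := mul_le_mul_of_nonneg_left h2 (by positivity)
        _ ≤ X ^ 2 * (c ^ 2 * P) * A ^ 2 := by gcongr
        _ = A ^ 2 * X ^ 2 * (c ^ 2 * P) := by ring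
    have h2 : -(U * (c ^ 4 * r)) ≤ 4 * A ^ 2 * (c ^ 4 * H) + 1 / 4 * (c ^ 4 * P ^ 2) := by
      refine b8_am (by positivity) (by positivity) ?_
      calc (-(U * (c ^ 4 * r))) ^ 2 = U ^ 2 * (c ^ 8 * r ^ 2) := by ring
        _ ≤ A ^ 2 * (c ^ 8 * (4 * H * P * P)) := by gcongr
        _ = 4 * (4 * A ^ 2 * (c ^ 4 * H)) * (1 / 4 * (c ^ 4 * P ^ 2)) := by ring
    have hs' : s ^ 2 ≤ K * P := hs.trans (mul_le_mul_of_nonneg_right hk hP)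
    have h3 : -(U * (P * (4 * c ^ 3 * s))) ≤ 16 * A ^ 2 * K * (c ^ 2 * P)
        + 1 / 4 * (c ^ 4 * P ^ 2) := by
      refine b8_am (by positivity) (by positivity) ?_
      calc (-(U * (P * (4 * c ^ 3 * s)))) ^ 2 = 16 * (U ^ 2 * (c ^ 6 * P ^ 2 * s ^ 2)) := by ring
        _ ≤ 16 * (A ^ 2 * (c ^ 6 * P ^ 2 * (K * P))) := by gcongr
        _ = 4 * (16 * A ^ 2 * K * (c ^ 2 * P)) * (1 / 4 * (c ^ 4 * P ^ 2)) := by ring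
    calc -(U * (c ^ 4 * P * L + (c ^ 4 * r + P * (4 * c ^ 3 * s))))
        = -(U * (c ^ 4 * P * L)) + -(U * (c ^ 4 * r)) + -(U * (P * (4 * c ^ 3 * s))) := by ring
      _ ≤ _ := by linarith

variable {M : Type*} [TopologicalSpace M] [T2Space M] [CompactSpace M] [ConnectedSpace M]
  [MeasurableSpace M] [BorelSpace M] {𝒜 : Atl M}

omit [T2Space M] [CompactSpace M] [ConnectedSpace M] [MeasurableSpace M] [BorelSpace M] in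
theorem b8_pow (𝒢 : Met 𝒜) {χ : M → ℝ} (hχ : 𝒜.Sm χ) (n : ℕ) (v : M → ℝ) (p : M) :
    𝒢.inn (fun q => χ q ^ n) v p = (n * χ p ^ (n - 1)) * 𝒢.inn χ v p :=
  𝒢.inn_comp isOpen_univ (mem_univ p) (hχ.on univ) (F := fun x => x ^ n)
    (F' := n * χ p ^ (n - 1)) (hasDerivAt_pow n (χ p))

omit [ConnectedSpace M] in
theorem Met.grad4 (𝒢 : Met 𝒜) {χ : M → ℝ} (hχ : 𝒜.Sm χ) : ∃ C, ∀ u : M → ℝ, 𝒜.Sm u → ∀ A : ℝ,
    0 ≤ A → (∀ p, χ p ≠ 0 → |u p| ≤ A ∧ |𝒢.lap u p| ≤ A) →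
      ∫ p, χ p ^ 4 * 𝒢.inn u u p ^ 2 ∂𝒢.vol ≤ C * A ^ 4 := by
  obtain ⟨X0, hX0⟩ := isCompact_univ.exists_bound_of_continuousOn hχ.continuous.continuousOn
  obtain ⟨K0, hK0⟩ := isCompact_univ.exists_bound_of_continuousOn
    (𝒢.Sm_inn hχ hχ).continuous.continuousOn
  obtain ⟨R, hR0, -, -, hR⟩ := 𝒢.exists_curv_bound
  have hX : ∀ p, |χ p| ≤ X0 := fun p => by simpa using hX0 p (mem_univ p)
  have hK : ∀ p, 𝒢.inn χ χ p ≤ K0 := fun p =>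
    (le_abs_self _).trans (by simpa using hK0 p (mem_univ p))
  have hk0 : ∀ p, 0 ≤ 𝒢.inn χ χ p := 𝒢.inn_self_nonneg χ
  by_cases hne : Nonempty M
  swap
  · have hemp : IsEmpty M := not_nonempty_iff.1 hne
    exact ⟨0, fun u hu A hA h => by simp [integral_of_isEmpty]⟩
  obtain ⟨p0⟩ := hne
  have hKn : 0 ≤ K0 := (hk0 p0).trans (hK p0)
  have hXn : 0 ≤ X0 := (abs_nonneg _).trans (hX p0)
  set V := ∫ _ : M, (1 : ℝ) ∂𝒢.vol with hV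
  have hconst : ∀ c : ℝ, ∫ _ : M, c ∂𝒢.vol = c * V := by
    intro c
    rw [hV, ← integral_const_mul]
    simp only [mul_one]
  have hVn : 0 ≤ V := integral_nonneg fun _ => zero_le_one
  set C1 := 2 * V * (X0 ^ 2 + 2 * K0) with hC1
  have hC1n : 0 ≤ C1 := by positivity
  set C2 := 2 * (V * X0 ^ 4 * (1 + 2 * K0) + (R * X0 ^ 2 + 2 + 8 * K0) * C1) with hC2
  have hC2n : 0 ≤ C2 := by positivity
  refine ⟨2 * ((X0 ^ 2 + 16 * K0) * C1 + 4 * C2), fun u hu A hA h => ?_⟩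
  have hP0 : ∀ p, 0 ≤ 𝒢.inn u u p := 𝒢.inn_self_nonneg u
  have hH0 : ∀ p, 0 ≤ 𝒢.h2 u p := 𝒢.h2_nonneg u
  have sP : 𝒜.Sm (𝒢.inn u u) := 𝒢.Sm_inn hu hu
  have sL : 𝒜.Sm (𝒢.lap u) := 𝒢.Sm_lap hu
  have sH : 𝒜.Sm (𝒢.h2 u) := 𝒢.Sm_h2 hu
  have hs : ∀ p, 𝒢.inn χ u p ^ 2 ≤ 𝒢.inn χ χ p * 𝒢.inn u u p := 𝒢.inn_sq_le χ u
  have hkato : ∀ p, 𝒢.inn (𝒢.inn u u) (𝒢.inn u u) p ≤ 4 * 𝒢.h2 u p * 𝒢.inn u u p := fun p =>
    𝒢.kato isOpen_univ (mem_univ p) (hu.on univ)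
  -- step 1
  have i1 : Integrable (fun p => χ p ^ 2 * 𝒢.inn u u p) 𝒢.vol :=
    𝒢.integrable_sm ((hχ.pow 2).mul sP)
  have S1 : ∫ p, χ p ^ 2 * 𝒢.inn u u p ∂𝒢.vol ≤ C1 * A ^ 2 := by
    have e := 𝒢.integral_mul_inn (hχ.pow 2) hu hu
    have e1 : ∀ p, u p * (χ p ^ 2 * 𝒢.lap u p + 𝒢.inn (fun q => χ q ^ 2) u p) =
        u p * (χ p ^ 2 * 𝒢.lap u p + 2 * χ p * 𝒢.inn χ u p) := by
      intro p
      rw [b8_pow 𝒢 hχ 2 u p]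
      push_cast; ring
    simp only [e1] at e
    rw [← integral_neg] at e
    have j1 : Integrable (fun p => -(u p * (χ p ^ 2 * 𝒢.lap u p + 2 * χ p * 𝒢.inn χ u p)))
        𝒢.vol := 𝒢.integrable_sm (hu.mul (((hχ.pow 2).mul sL).add
          (((Atl.Sm.const 2).mul hχ).mul (𝒢.Sm_inn hχ hu)))).neg
    have j2 : Integrable (fun _ : M => A ^ 2 * X0 ^ 2 + 2 * A ^ 2 * K0) 𝒢.vol :=
      𝒢.integrable_sm (Atl.Sm.const _)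
    have j3 : Integrable (fun p => (A ^ 2 * X0 ^ 2 + 2 * A ^ 2 * K0) +
        1 / 2 * (χ p ^ 2 * 𝒢.inn u u p)) 𝒢.vol := j2.add (i1.const_mul (1 / 2))
    have m1 := integral_mono j1 j3 (fun p =>
      b8_p1 (hP0 p) (hk0 p) (hK p) (hs p) (hX p) hA (h p))
    have m2 : ∫ p, ((A ^ 2 * X0 ^ 2 + 2 * A ^ 2 * K0) +
        1 / 2 * (χ p ^ 2 * 𝒢.inn u u p)) ∂𝒢.vol =
        (A ^ 2 * X0 ^ 2 + 2 * A ^ 2 * K0) * V +
          1 / 2 * ∫ p, χ p ^ 2 * 𝒢.inn u u p ∂𝒢.vol := by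
      rw [integral_add j2 (i1.const_mul (1 / 2)), hconst, integral_const_mul]
    rw [m2, ← e] at m1
    rw [hC1]
    linarith
  -- step 2
  have i2 : Integrable (fun p => χ p ^ 4 * 𝒢.h2 u p) 𝒢.vol :=
    𝒢.integrable_sm ((hχ.pow 4).mul sH)
  have S2 : ∫ p, χ p ^ 4 * 𝒢.h2 u p ∂𝒢.vol ≤ C2 * A ^ 2 := by
    have e := 𝒢.integral_bochner (hχ.pow 4) hu
    have e1 : ∀ p, 𝒢.lap u p * 𝒢.inn (fun q => χ q ^ 4) u p -
        𝒢.inn (fun q => χ q ^ 4) (𝒢.inn u u) p / 2 =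
        𝒢.lap u p * (4 * χ p ^ 3 * 𝒢.inn χ u p) -
          4 * χ p ^ 3 * 𝒢.inn χ (𝒢.inn u u) p / 2 := by
      intro p
      rw [b8_pow 𝒢 hχ 4 u p, b8_pow 𝒢 hχ 4 _ p]
      push_cast; ring
    simp only [e1] at e
    have sR : 𝒜.Sm (𝒢.ricv u u) := 𝒢.Sm_ricv hu hu
    have j0 : Integrable (fun p => χ p ^ 4 * (𝒢.lap u p ^ 2 - 𝒢.ricv u u p)) 𝒢.vol :=
      𝒢.integrable_sm ((hχ.pow 4).mul ((sL.pow 2).sub sR))
    have j1 : Integrable (fun p => 𝒢.lap u p * (4 * χ p ^ 3 * 𝒢.inn χ u p) -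
          4 * χ p ^ 3 * 𝒢.inn χ (𝒢.inn u u) p / 2) 𝒢.vol := by
      have : 𝒜.Sm (fun p => 𝒢.lap u p * (4 * χ p ^ 3 * 𝒢.inn χ u p) -
          1 / 2 * (4 * χ p ^ 3 * 𝒢.inn χ (𝒢.inn u u) p)) :=
        (sL.mul (((Atl.Sm.const 4).mul (hχ.pow 3)).mul (𝒢.Sm_inn hχ hu))).sub
          ((Atl.Sm.const (1 / 2)).mul
            (((Atl.Sm.const 4).mul (hχ.pow 3)).mul (𝒢.Sm_inn hχ sP)))
      refine (𝒢.integrable_sm this).congr (Eventually.of_forall fun p => ?_)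
      ring
    have e2 : ∫ p, χ p ^ 4 * 𝒢.h2 u p ∂𝒢.vol = ∫ p, (χ p ^ 4 * (𝒢.lap u p ^ 2 - 𝒢.ricv u u p) +
        (𝒢.lap u p * (4 * χ p ^ 3 * 𝒢.inn χ u p) -
          4 * χ p ^ 3 * 𝒢.inn χ (𝒢.inn u u) p / 2)) ∂𝒢.vol := by
      rw [integral_add j0 j1, ← e, ← integral_add j0]
      · congr 1; ext p; ring
      · exact 𝒢.integrable_sm ((hχ.pow 4).mul ((sH.sub (sL.pow 2)).add sR))
    have j2 : Integrable (fun _ : M => A ^ 2 * X0 ^ 4 * (1 + 2 * K0)) 𝒢.vol :=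
      𝒢.integrable_sm (Atl.Sm.const _)
    have j3 := i1.const_mul (R * X0 ^ 2 + 2 + 8 * K0)
    have j4 : Integrable (fun p => χ p ^ 4 * (𝒢.lap u p ^ 2 - 𝒢.ricv u u p) +
        (𝒢.lap u p * (4 * χ p ^ 3 * 𝒢.inn χ u p) -
          4 * χ p ^ 3 * 𝒢.inn χ (𝒢.inn u u) p / 2)) 𝒢.vol := j0.add j1
    have j5 : Integrable (fun p => A ^ 2 * X0 ^ 4 * (1 + 2 * K0) +
        (R * X0 ^ 2 + 2 + 8 * K0) * (χ p ^ 2 * 𝒢.inn u u p)) 𝒢.vol := j2.add j3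
    have j6 : Integrable (fun p => A ^ 2 * X0 ^ 4 * (1 + 2 * K0) +
        (R * X0 ^ 2 + 2 + 8 * K0) * (χ p ^ 2 * 𝒢.inn u u p) +
        1 / 2 * (χ p ^ 4 * 𝒢.h2 u p)) 𝒢.vol := j5.add (i2.const_mul (1 / 2))
    have m1 := integral_mono j4 j6 (fun p =>
      b8_p2 (hP0 p) (hk0 p) (hK p) (hH0 p) hR0.le (hs p)
        ((𝒢.inn_sq_le χ (𝒢.inn u u) p).trans
          (mul_le_mul_of_nonneg_left (hkato p) (hk0 p))) (hX p)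
        (by
          have := hR u u p
          rwa [mul_assoc, Real.mul_self_sqrt (hP0 p)] at this) (fun hc => (h p hc).2))
    have m2 : ∫ p, (A ^ 2 * X0 ^ 4 * (1 + 2 * K0) +
        (R * X0 ^ 2 + 2 + 8 * K0) * (χ p ^ 2 * 𝒢.inn u u p) +
        1 / 2 * (χ p ^ 4 * 𝒢.h2 u p)) ∂𝒢.vol =
        A ^ 2 * X0 ^ 4 * (1 + 2 * K0) * V +
          (R * X0 ^ 2 + 2 + 8 * K0) * (∫ p, χ p ^ 2 * 𝒢.inn u u p ∂𝒢.vol) +
          1 / 2 * ∫ p, χ p ^ 4 * 𝒢.h2 u p ∂𝒢.vol := by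
      rw [integral_add j5 (i2.const_mul (1 / 2)), integral_add j2 j3, hconst,
        integral_const_mul, integral_const_mul]
    rw [m2, ← e2] at m1
    have m4 : (R * X0 ^ 2 + 2 + 8 * K0) * (∫ p, χ p ^ 2 * 𝒢.inn u u p ∂𝒢.vol) ≤
        (R * X0 ^ 2 + 2 + 8 * K0) * (C1 * A ^ 2) :=
      mul_le_mul_of_nonneg_left S1 (by positivity)
    rw [hC2]
    linarith
  -- step 3
  have i3 : Integrable (fun p => χ p ^ 4 * 𝒢.inn u u p ^ 2) 𝒢.vol :=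
    𝒢.integrable_sm ((hχ.pow 4).mul (sP.pow 2))
  have e := 𝒢.integral_mul_inn ((hχ.pow 4).mul sP) hu hu
  have e1 : ∀ p, u p * (χ p ^ 4 * 𝒢.inn u u p * 𝒢.lap u p +
      𝒢.inn (fun q => χ q ^ 4 * 𝒢.inn u u q) u p) =
      u p * (χ p ^ 4 * 𝒢.inn u u p * 𝒢.lap u p + (χ p ^ 4 * 𝒢.inn (𝒢.inn u u) u p +
        𝒢.inn u u p * (4 * χ p ^ 3 * 𝒢.inn χ u p))) := by
    intro p
    rw [𝒢.inn_mul isOpen_univ (mem_univ p) ((hχ.pow 4).on univ) (sP.on univ),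
      b8_pow 𝒢 hχ 4 u p]
    push_cast; ring
  simp only [e1] at e
  rw [← integral_neg] at e
  have e2 : ∫ p, χ p ^ 4 * 𝒢.inn u u p * 𝒢.inn u u p ∂𝒢.vol =
      ∫ p, χ p ^ 4 * 𝒢.inn u u p ^ 2 ∂𝒢.vol := by
    congr 1; ext p; ring
  rw [e2] at e
  have j1 : Integrable (fun p => -(u p * (χ p ^ 4 * 𝒢.inn u u p * 𝒢.lap u p +
      (χ p ^ 4 * 𝒢.inn (𝒢.inn u u) u p +
        𝒢.inn u u p * (4 * χ p ^ 3 * 𝒢.inn χ u p))))) 𝒢.vol :=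
    𝒢.integrable_sm (hu.mul ((((hχ.pow 4).mul sP).mul sL).add
      (((hχ.pow 4).mul (𝒢.Sm_inn sP hu)).add
        (sP.mul (((Atl.Sm.const 4).mul (hχ.pow 3)).mul (𝒢.Sm_inn hχ hu)))))).neg
  have j2 := i1.const_mul (A ^ 2 * (X0 ^ 2 + 16 * K0))
  have j3 := i2.const_mul (4 * A ^ 2)
  have j4 : Integrable (fun p => A ^ 2 * (X0 ^ 2 + 16 * K0) * (χ p ^ 2 * 𝒢.inn u u p) +
      4 * A ^ 2 * (χ p ^ 4 * 𝒢.h2 u p)) 𝒢.vol := j2.add j3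
  have j5 : Integrable (fun p => A ^ 2 * (X0 ^ 2 + 16 * K0) * (χ p ^ 2 * 𝒢.inn u u p) +
      4 * A ^ 2 * (χ p ^ 4 * 𝒢.h2 u p) + 1 / 2 * (χ p ^ 4 * 𝒢.inn u u p ^ 2)) 𝒢.vol :=
    j4.add (i3.const_mul (1 / 2))
  have m1 := integral_mono j1 j5 (fun p =>
    b8_p3 (hP0 p) (hk0 p) (hK p) (hH0 p) (hs p)
      ((𝒢.inn_sq_le (𝒢.inn u u) u p).trans
          (mul_le_mul_of_nonneg_right (hkato p) (hP0 p))) (hX p) hA (h p))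
  have m2 : ∫ p, (A ^ 2 * (X0 ^ 2 + 16 * K0) * (χ p ^ 2 * 𝒢.inn u u p) +
      4 * A ^ 2 * (χ p ^ 4 * 𝒢.h2 u p) + 1 / 2 * (χ p ^ 4 * 𝒢.inn u u p ^ 2)) ∂𝒢.vol =
      A ^ 2 * (X0 ^ 2 + 16 * K0) * (∫ p, χ p ^ 2 * 𝒢.inn u u p ∂𝒢.vol) +
        4 * A ^ 2 * (∫ p, χ p ^ 4 * 𝒢.h2 u p ∂𝒢.vol) +
        1 / 2 * ∫ p, χ p ^ 4 * 𝒢.inn u u p ^ 2 ∂𝒢.vol := by
    rw [integral_add j4 (i3.const_mul (1 / 2)), integral_add j2 j3,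
      integral_const_mul, integral_const_mul, integral_const_mul]
  rw [m2, ← e] at m1
  have m3 : A ^ 2 * (X0 ^ 2 + 16 * K0) * (∫ p, χ p ^ 2 * 𝒢.inn u u p ∂𝒢.vol) ≤
      A ^ 2 * (X0 ^ 2 + 16 * K0) * (C1 * A ^ 2) :=
    mul_le_mul_of_nonneg_left S1 (by positivity)
  have m4 : 4 * A ^ 2 * (∫ p, χ p ^ 4 * 𝒢.h2 u p ∂𝒢.vol) ≤ 4 * A ^ 2 * (C2 * A ^ 2) :=
    mul_le_mul_of_nonneg_left S2 (by positivity)
  nlinarith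

end YR
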