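import Pool.Agent.Rig71.B2
import Pool.Agent.Rig71.Int1
import Pool.Agent.Rig71.Int2
import Pool.Agent.Rig71.Int3

/-!
# B6 : Bochner in the Ricci flat metric `θ⁻² g` on `N = {θ > 0}`, with a cutoff
-/

open scoped ContDiff Topology
open MeasureTheory Metric Set Filter

noncomputable section

namespace YR

variable {M : Type*} [TopologicalSpace M] [T2Space M] [CompactSpace M] [ConnectedSpace M]
  [MeasurableSpace M] [BorelSpace M] {𝒜 : Atl M} {𝒢 : Met 𝒜} {θ : M → ℝ}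

/-- a cutoff function of one variable: `0` for `t ≤ s/4`, `1` for `t ≥ s/2` -/
def b6cut (s t : ℝ) : ℝ := Real.smoothTransition ((t - s / 4) / (s / 4))

theorem b6cut_smooth (s : ℝ) : ContDiff ℝ ∞ (b6cut s) := by
  unfold b6cut
  exact Real.smoothTransition.contDiff.comp (by fun_prop)

theorem b6cut_nonneg (s t : ℝ) : 0 ≤ b6cut s t := Real.smoothTransition.nonneg _

theorem b6cut_le_one (s t : ℝ) : b6cut s t ≤ 1 := Real.smoothTransition.le_one _

theorem b6cut_zero {s t : ℝ} (hs : 0 < s) (ht : t ≤ s / 4) : b6cut s t = 0 := by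
  unfold b6cut
  apply Real.smoothTransition.zero_of_nonpos
  exact div_nonpos_of_nonpos_of_nonneg (by linarith) (by linarith)

theorem b6cut_one {s t : ℝ} (hs : 0 < s) (ht : s / 2 ≤ t) : b6cut s t = 1 := by
  unfold b6cut
  apply Real.smoothTransition.one_of_one_le
  rw [le_div_iff₀ (by linarith)]
  linarith

/-- the positive modification of `θ` -/
theorem ZD.exists_mod (h : ZD 𝒢 θ) {s : ℝ} (hs : 0 < s) : ∃ w : M → ℝ, 𝒜.Sm w ∧ (∀ p, 0 < w p) ∧
    ∀ p, s / 2 < θ p → w p = θ p := by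
  refine ⟨fun p => b6cut s (θ p) * θ p + (1 - b6cut s (θ p)) * s, ?_, ?_, ?_⟩
  · have h1 : 𝒜.Sm fun p => b6cut s (θ p) :=
      Atl.Sm.comp (S := univ) (b6cut_smooth s).contDiffOn h.sm (fun p => mem_univ _)
    exact (h1.mul h.sm).add (((Atl.Sm.const 1).sub h1).mul (Atl.Sm.const s))
  · intro p
    show 0 < b6cut s (θ p) * θ p + (1 - b6cut s (θ p)) * s
    have h0 := b6cut_nonneg s (θ p)
    have h1 := b6cut_le_one s (θ p)
    rcases le_or_gt (θ p) (s / 4) with h2 | h2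
    · rw [b6cut_zero hs h2]
      linarith
    · have h3 : 0 < θ p := by linarith
      rcases eq_or_lt_of_le h0 with h4 | h4
      · rw [← h4]
        linarith
      · have h5 : 0 < b6cut s (θ p) * θ p := mul_pos h4 h3
        have h6 : 0 ≤ (1 - b6cut s (θ p)) * s := mul_nonneg (by linarith) hs.le
        linarith
  · intro p hp
    show b6cut s (θ p) * θ p + (1 - b6cut s (θ p)) * s = θ p
    rw [b6cut_one hs hp.le]
    ring

theorem ZD.J (h : ZD 𝒢 θ) {η φ : M → ℝ} (hη : 𝒜.SmOn {p | 0 < θ p} η) (hφ : 𝒜.Sm φ) {s : ℝ}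
    (hs : 0 < s) (h0 : ∀ p, θ p ≤ s → φ p = 0) :
    |∫ p, φ p * ((θ p)⁻¹ * 𝒢.t2 η p) ∂𝒢.vol -
      ∫ p, φ p * (6 * (θ p)⁻¹ ^ 3 * 𝒢.bb η θ p ^ 2) ∂𝒢.vol| ≤
      ∫ p, (θ p)⁻¹ * √(𝒢.inn φ φ p) * √(𝒢.inn (fun q => η q / θ q) (fun q => η q / θ q) p) *
        (5 * |𝒢.bb η θ p| + θ p * √(𝒢.t2 η p)) ∂𝒢.vol := by
  obtain ⟨w, hw, hp, hwθ⟩ := h.exists_mod hs
  have hθc : Continuous θ := h.sm.continuous
  have hNo : IsOpen {p | 0 < θ p} := isOpen_lt continuous_const hθc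
  set U : Set M := {p | s / 2 < θ p} with hU
  have hUo : IsOpen U := isOpen_lt continuous_const hθc
  have hUN : U ⊆ {p | 0 < θ p} := fun p (hp : s / 2 < θ p) => by
    show 0 < θ p
    linarith
  -- the function u
  set u : M → ℝ := fun p => b6cut s (θ p) * (η p / θ p) with hu
  have hcut : 𝒜.Sm fun p => b6cut s (θ p) :=
    Atl.Sm.comp (S := univ) (b6cut_smooth s).contDiffOn h.sm (fun p => mem_univ _)
  have husm : 𝒜.Sm u := by
    refine Atl.Sm.mul_on hcut hNo ?_ (hη.div (h.sm.on _) fun p hp => (ne_of_gt hp))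
    have h1 : tsupport (fun p => b6cut s (θ p)) ⊆ {p | s / 4 ≤ θ p} := by
      refine closure_minimal ?_ (isClosed_le continuous_const hθc)
      intro p hp1
      by_contra h2
      have h2' : θ p ≤ s / 4 := le_of_lt (not_le.1 h2)
      exact hp1 (b6cut_zero hs h2')
    refine h1.trans fun p hp1 => ?_
    have : s / 4 ≤ θ p := hp1
    show 0 < θ p
    linarith
  have hEw : EqOn w θ U := fun p hp1 => hwθ p hp1
  have hEu : EqOn u (fun q => η q / θ q) U := fun p hp1 => by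
    show b6cut s (θ p) * (η p / θ p) = η p / θ p
    rw [b6cut_one hs (le_of_lt hp1), one_mul]
  have hEuw : EqOn (fun q => u q * w q) η U := fun p hp1 => by
    have h1 : (0 : ℝ) < θ p := hUN hp1
    show u p * w p = η p
    rw [hEu hp1, hEw hp1]
    field_simp
  -- facts in the conformal metric on U
  have f1 : ∀ p ∈ U, 𝒢.t2 w p = 0 := fun p hp1 => by
    rw [𝒢.t2_congr hUo hp1 hEw]
    exact h.t2 p
  have f2 : ∀ p ∈ U, (𝒢.conf w hw hp).scal p = 0 := fun p hp1 => by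
    rw [𝒢.scal_conf, 𝒢.bb_congr hUo hp1 hEw hEw, h.bb_self, mul_zero]
  have f3 : ∀ p ∈ U, (𝒢.conf w hw hp).e2 p = 0 := fun p hp1 => by
    rw [𝒢.e2_conf, f1 p hp1, mul_zero]
  have f4 : ∀ p ∈ U, (𝒢.conf w hw hp).ricv u u p = 0 := fun p hp1 => by
    have h1 := (𝒢.conf w hw hp).ricv_sq_le u u p
    rw [f3 p hp1, f2 p hp1] at h1
    have h2 : ((𝒢.conf w hw hp).ricv u u p - 0 / 3 * (𝒢.conf w hw hp).inn u u p) ^ 2 = 0 :=
      le_antisymm (by linarith) (sq_nonneg _)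
    have h3 := pow_eq_zero_iff (two_ne_zero) |>.1 h2
    linarith
  have f5 : ∀ p ∈ U, (𝒢.conf w hw hp).lap u p = 3 * 𝒢.bb η θ p := fun p hp1 => by
    have h1 := 𝒢.bb_conf hw hp hUo hp1 (husm.on U) ((Atl.Sm.const (𝒜 := 𝒜) 1).on U)
    have h2 : 𝒢.bb (fun q => u q * w q) (fun q => (1 : ℝ) * w q) p = 𝒢.bb η θ p :=
      𝒢.bb_congr hUo hp1 hEuw (fun q hq => by
        show (1 : ℝ) * w q = θ q
        rw [one_mul, hEw hq])
    rw [h2] at h1
    rw [← h1]
    unfold Met.bb Met.rho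
    rw [f2 p hp1, Met.lap_const, Met.inn_symm, Met.inn_const]
    ring
  have f6 : ∀ p ∈ U, (𝒢.conf w hw hp).h2 u p = θ p ^ 2 * 𝒢.t2 η p + 3 * 𝒢.bb η θ p ^ 2 :=
    fun p hp1 => by
      rw [𝒢.h2_conf_of_t2 hw hp hUo hp1 (husm.on U) (f1 p hp1), f5 p hp1,
        𝒢.t2_congr hUo hp1 hEuw, hEw hp1]
      ring
  -- φ vanishes outside U, together with its differential
  have g1 : ∀ p, p ∉ U → φ p = 0 := fun p hp1 => h0 p (by
    have : ¬ (s / 2 < θ p) := hp1
    push Not at this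
    linarith)
  have hVo : IsOpen {p | θ p < s} := isOpen_lt hθc continuous_const
  have g2 : ∀ f : M → ℝ, ∀ p, p ∉ U → 𝒢.inn φ f p = 0 := fun f p hp1 => by
    have h1 : p ∈ {p | θ p < s} := by
      have : ¬ (s / 2 < θ p) := hp1
      push Not at this
      show θ p < s
      linarith
    rw [𝒢.inn_congr (u' := fun _ => (0 : ℝ)) (v' := f) hVo h1
      (fun q hq => h0 q (le_of_lt hq)) (fun q _ => rfl), 𝒢.inn_const]
  -- Bochner
  have B := (𝒢.conf w hw hp).integral_bochner hφ husm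
  rw [𝒢.integral_conf hw hp, 𝒢.integral_conf hw hp] at B
  have hwi : 𝒜.Sm fun p => (w p)⁻¹ :=
    Atl.Sm.comp (F := fun t => t⁻¹) (S := Ioi 0)
      (contDiffOn_id.inv fun x hx => ne_of_gt hx) hw (fun p => hp p)
  have i1 : (fun p => φ p * ((θ p)⁻¹ * 𝒢.t2 η p)) =
      fun p => φ p * ((w p)⁻¹ * 𝒢.t2 (fun q => u q * w q) p) := by
    funext p
    by_cases hp1 : p ∈ U
    · rw [𝒢.t2_congr hUo hp1 hEuw, hEw hp1]
    · rw [g1 p hp1, zero_mul, zero_mul]
  have i2 : (fun p => φ p * (6 * (θ p)⁻¹ ^ 3 * 𝒢.bb η θ p ^ 2)) =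
      fun p => φ p * (6 * (w p)⁻¹ ^ 3 * 𝒢.bb (fun q => u q * w q) w p ^ 2) := by
    funext p
    by_cases hp1 : p ∈ U
    · rw [𝒢.bb_congr hUo hp1 hEuw hEw, hEw hp1]
    · rw [g1 p hp1, zero_mul, zero_mul]
  have huw : 𝒜.Sm fun q => u q * w q := husm.mul hw
  have s1 : Integrable (fun p => φ p * ((θ p)⁻¹ * 𝒢.t2 η p)) 𝒢.vol := by
    rw [i1]
    exact 𝒢.integrable_sm (hφ.mul (hwi.mul (𝒢.Sm_t2 huw)))
  have s2 : Integrable (fun p => φ p * (6 * (θ p)⁻¹ ^ 3 * 𝒢.bb η θ p ^ 2)) 𝒢.vol := by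
    rw [i2]
    exact 𝒢.integrable_sm (hφ.mul (((Atl.Sm.const 6).mul (hwi.pow 3)).mul
      ((𝒢.Sm_bb huw hw).pow 2)))
  have e1 : ∫ p, φ p * ((θ p)⁻¹ * 𝒢.t2 η p) ∂𝒢.vol -
      ∫ p, φ p * (6 * (θ p)⁻¹ ^ 3 * 𝒢.bb η θ p ^ 2) ∂𝒢.vol =
      ∫ p, φ p * ((𝒢.conf w hw hp).h2 u p - (𝒢.conf w hw hp).lap u p ^ 2 +
        (𝒢.conf w hw hp).ricv u u p) * (w p)⁻¹ ^ 3 ∂𝒢.vol := by
    rw [← integral_sub s1 s2]
    refine integral_congr_ae (Filter.Eventually.of_forall fun p => ?_)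
    by_cases hp1 : p ∈ U
    · have h1 : (0 : ℝ) < θ p := hUN hp1
      simp only []
      rw [f6 p hp1, f5 p hp1, f4 p hp1, hEw hp1]
      field_simp
      ring
    · simp only []
      rw [g1 p hp1]
      ring
  rw [e1, B]
  -- bound of the right hand side
  have j1 : (fun p => (θ p)⁻¹ * √(𝒢.inn φ φ p) *
      √(𝒢.inn (fun q => η q / θ q) (fun q => η q / θ q) p) *
        (5 * |𝒢.bb η θ p| + θ p * √(𝒢.t2 η p))) =
      fun p => (w p)⁻¹ * √(𝒢.inn φ φ p) * √(𝒢.inn u u p) *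
        (5 * |𝒢.bb (fun q => u q * w q) w p| + w p * √(𝒢.t2 (fun q => u q * w q) p)) := by
    funext p
    by_cases hp1 : p ∈ U
    · rw [𝒢.bb_congr hUo hp1 hEuw hEw, 𝒢.t2_congr hUo hp1 hEuw, hEw hp1,
        𝒢.inn_congr hUo hp1 hEu hEu]
    · rw [g2 φ p hp1, Real.sqrt_zero]
      ring
  rw [j1]
  rw [← Real.norm_eq_abs]
  refine norm_integral_le_of_norm_le ?_ (Filter.Eventually.of_forall fun p => ?_)
  · refine 𝒢.integrable_of_continuous ?_
    have c1 := (𝒢.Sm_inn hφ hφ).continuous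
    have c2 := (𝒢.Sm_inn husm husm).continuous
    have c3 := (𝒢.Sm_bb huw hw).continuous
    have c4 := (𝒢.Sm_t2 huw).continuous
    have c5 := hwi.continuous
    have c6 := hw.continuous
    exact ((c5.mul c1.sqrt).mul c2.sqrt).mul ((continuous_const.mul c3.abs).add
      (c6.mul c4.sqrt))
  · by_cases hp1 : p ∈ U
    · have h1 : (0 : ℝ) < θ p := hUN hp1
      have hwp : w p = θ p := hEw hp1
      have hw3 : (0 : ℝ) < (w p)⁻¹ ^ 3 := by
        have := hp p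
        positivity
      simp only [Real.norm_eq_abs]
      rw [abs_mul, abs_of_pos hw3]
      have hW : 0 < w p := hp p
      have hB : 𝒢.bb (fun q => u q * w q) w p = 𝒢.bb η θ p := 𝒢.bb_congr hUo hp1 hEuw hEw
      have hT : 𝒢.t2 (fun q => u q * w q) p = 𝒢.t2 η p := 𝒢.t2_congr hUo hp1 hEuw
      have k1 : |(𝒢.conf w hw hp).inn φ u p| ≤ w p ^ 2 * (√(𝒢.inn φ φ p) * √(𝒢.inn u u p)) := by
        rw [𝒢.inn_conf, abs_mul, abs_of_pos (by positivity : 0 < w p ^ 2)]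
        exact mul_le_mul_of_nonneg_left (𝒢.abs_inn_le φ u p) (by positivity)
      have k2 : |(𝒢.conf w hw hp).inn φ ((𝒢.conf w hw hp).inn u u) p| ≤
          (w p * √(𝒢.inn φ φ p)) * (2 * (w p * √(𝒢.t2 η p) + 2 * |𝒢.bb η θ p|) *
            (w p * √(𝒢.inn u u p))) := by
        refine ((𝒢.conf w hw hp).abs_inn_le φ _ p).trans ?_
        have l1 : √((𝒢.conf w hw hp).inn φ φ p) = w p * √(𝒢.inn φ φ p) := by
          rw [𝒢.inn_conf, Real.sqrt_mul (by positivity), Real.sqrt_sq hW.le]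
        have l2 : √((𝒢.conf w hw hp).inn u u p) = w p * √(𝒢.inn u u p) := by
          rw [𝒢.inn_conf, Real.sqrt_mul (by positivity), Real.sqrt_sq hW.le]
        rw [l1]
        refine mul_le_mul_of_nonneg_left ?_ (by positivity)
        have l3 := (𝒢.conf w hw hp).kato isOpen_univ (mem_univ p) (husm.on univ)
        refine (Real.sqrt_le_sqrt l3).trans ?_
        have l4 : √(4 * (𝒢.conf w hw hp).h2 u p * (𝒢.conf w hw hp).inn u u p) =
            2 * √((𝒢.conf w hw hp).h2 u p) * √((𝒢.conf w hw hp).inn u u p) := by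
          rw [Real.sqrt_mul (by have := (𝒢.conf w hw hp).h2_nonneg u p; positivity),
            Real.sqrt_mul (by norm_num)]
          have : √(4 : ℝ) = 2 := by
            rw [show (4 : ℝ) = 2 ^ 2 by norm_num, Real.sqrt_sq (by norm_num)]
          rw [this]
        rw [l4, l2]
        refine mul_le_mul_of_nonneg_right ?_ (by positivity)
        refine mul_le_mul_of_nonneg_left ?_ (by norm_num)
        rw [f6 p hp1, hwp]
        refine Real.sqrt_le_iff.2 ⟨by positivity, ?_⟩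
        have m1 : √(𝒢.t2 η p) ^ 2 = 𝒢.t2 η p := Real.sq_sqrt (𝒢.t2_nonneg η p)
        have m2 : |𝒢.bb η θ p| ^ 2 = 𝒢.bb η θ p ^ 2 := sq_abs _
        have m3 : 0 ≤ θ p * √(𝒢.t2 η p) * |𝒢.bb η θ p| := by positivity
        nlinarith [sq_nonneg (𝒢.bb η θ p)]
      rw [f5 p hp1, hB, hT]
      have k3 : |3 * 𝒢.bb η θ p * (𝒢.conf w hw hp).inn φ u p -
          (𝒢.conf w hw hp).inn φ ((𝒢.conf w hw hp).inn u u) p / 2| ≤
          3 * |𝒢.bb η θ p| * (w p ^ 2 * (√(𝒢.inn φ φ p) * √(𝒢.inn u u p))) +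
            (w p * √(𝒢.inn φ φ p)) * (2 * (w p * √(𝒢.t2 η p) + 2 * |𝒢.bb η θ p|) *
            (w p * √(𝒢.inn u u p))) / 2 := by
        refine (abs_sub _ _).trans ?_
        rw [abs_mul, abs_mul, abs_div, abs_of_pos (by norm_num : (0 : ℝ) < 3),
          abs_of_pos (by norm_num : (0 : ℝ) < 2)]
        have := mul_le_mul_of_nonneg_left k1 (by positivity : 0 ≤ 3 * |𝒢.bb η θ p|)
        linarith
      refine (mul_le_mul_of_nonneg_right k3 hw3.le).trans (le_of_eq ?_)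
      field_simp
      ring
    · simp only [Real.norm_eq_abs]
      rw [𝒢.inn_conf, 𝒢.inn_conf, g2 _ p hp1, g2 _ p hp1, g2 _ p hp1, Real.sqrt_zero]
      simp

end YR
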