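import Pool.Agent.Rig71.Glob2a
import Pool.Agent.Rig71.Glob2c

/-!
GLOB3b : norm rules for `T`, `Hess`, `d`.
-/

open scoped ContDiff Topology
open MeasureTheory Metric Set Filter

noncomputable section

namespace YR

/-! ### linear algebra at a point of a chart -/

namespace G3b

section

variable {U : Set E} {G : E → Mat} {u v w : E → ℝ} {x : E}

theorem ip_add_left (h h' k : Fin 3 → Fin 3 → ℝ) :
    ip G (fun a b => h a b + h' a b) k x = ip G h k x + ip G h' k x := by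
  unfold ip
  simp_rw [← Finset.sum_add_distrib]
  refine Finset.sum_congr rfl fun a _ => Finset.sum_congr rfl fun b _ =>
    Finset.sum_congr rfl fun c _ => Finset.sum_congr rfl fun d _ => ?_
  ring

theorem ip_add_right (h h' k : Fin 3 → Fin 3 → ℝ) :
    ip G k (fun a b => h a b + h' a b) x = ip G k h x + ip G k h' x := by
  unfold ip
  simp_rw [← Finset.sum_add_distrib]
  refine Finset.sum_congr rfl fun a _ => Finset.sum_congr rfl fun b _ =>
    Finset.sum_congr rfl fun c _ => Finset.sum_congr rfl fun d _ => ?_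
  ring

theorem ip_smul_left (c : ℝ) (h k : Fin 3 → Fin 3 → ℝ) :
    ip G (fun a b => c * h a b) k x = c * ip G h k x := by
  unfold ip
  simp_rw [Finset.mul_sum]
  refine Finset.sum_congr rfl fun a _ => Finset.sum_congr rfl fun b _ =>
    Finset.sum_congr rfl fun c _ => Finset.sum_congr rfl fun d _ => ?_
  ring

theorem ip_smul_right (c : ℝ) (h k : Fin 3 → Fin 3 → ℝ) :
    ip G k (fun a b => c * h a b) x = c * ip G k h x := by
  unfold ip
  simp_rw [Finset.mul_sum]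
  refine Finset.sum_congr rfl fun a _ => Finset.sum_congr rfl fun b _ =>
    Finset.sum_congr rfl fun c _ => Finset.sum_congr rfl fun d _ => ?_
  ring

/-- the norm of a bilinear form -/
def nn (G : E → Mat) (h : Fin 3 → Fin 3 → ℝ) (x : E) : ℝ := √(ip G h h x)

theorem nn_nonneg (h : Fin 3 → Fin 3 → ℝ) : 0 ≤ nn G h x := Real.sqrt_nonneg _

theorem nn_sq (hG : LM U G) (hx : x ∈ U) (h : Fin 3 → Fin 3 → ℝ) : nn G h x ^ 2 = ip G h h x :=
  Real.sq_sqrt (ip_self_nonneg hG hx h)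

theorem ip_le (hG : LM U G) (hx : x ∈ U) (h k : Fin 3 → Fin 3 → ℝ) :
    ip G h k x ≤ nn G h x * nn G k x := by
  refine le_of_sq_le_sq ?_ (mul_nonneg (nn_nonneg _) (nn_nonneg _))
  rw [mul_pow, nn_sq hG hx, nn_sq hG hx]
  exact ip_sq_le hG hx h k

theorem nn_add (hG : LM U G) (hx : x ∈ U) (h k : Fin 3 → Fin 3 → ℝ) :
    nn G (fun a b => h a b + k a b) x ≤ nn G h x + nn G k x := by
  refine Real.sqrt_le_iff.2 ⟨add_nonneg (nn_nonneg _) (nn_nonneg _), ?_⟩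
  rw [ip_add_left, ip_add_right, ip_add_right, YR.ip_symm hG hx k h, ← nn_sq hG hx h,
    ← nn_sq hG hx k]
  have := ip_le hG hx h k
  nlinarith

theorem nn_smul (c : ℝ) (h : Fin 3 → Fin 3 → ℝ) :
    nn G (fun a b => c * h a b) x = |c| * nn G h x := by
  unfold nn
  rw [ip_smul_left, ip_smul_right, ← mul_assoc, ← sq, Real.sqrt_mul (sq_nonneg c),
    Real.sqrt_sq_eq_abs]

/-- trace free part -/
theorem nn_free (hG : LM U G) (hx : x ∈ U) (h : Fin 3 → Fin 3 → ℝ) :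
    nn G (fun a b => h a b - tr G h x / 3 * G x a b) x ≤ nn G h x := by
  unfold nn
  refine Real.sqrt_le_sqrt ?_
  have h2 : (fun a b : Fin 3 => h a b - tr G h x / 3 * G x a b) =
      fun a b => h a b + -(tr G h x / 3) * G x a b := by
    funext a b; ring
  rw [h2, ip_add_left, ip_add_right, ip_add_right, ip_smul_left, ip_smul_left, ip_smul_right,
    ip_smul_right, YR.ip_symm hG hx (fun a b => G x a b) h, ip_metric hG hx, ip_metric hG hx,
    tr_metric hG hx]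
  nlinarith [sq_nonneg (tr G h x)]

/-- `|du ⊗ dv| = |du| |dv|` -/
theorem nn_dd (hG : LM U G) (hx : x ∈ U) :
    nn G (fun a b => pd a u x * pd b v x) x = √(inn G u u x) * √(inn G v v x) := by
  unfold nn
  rw [ip_dd hG hx, ← Real.sqrt_mul (YR.inn_self_nonneg hG hx)]
  congr 1
  rw [inn_eq_grad hG hx (u := u) (v := u), inn_eq_grad hG hx (u := v) (v := v)]
  unfold ev
  rw [Finset.sum_mul_sum]
  refine Finset.sum_congr rfl fun a _ => Finset.sum_congr rfl fun b _ => ?_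
  ring

theorem nn_dd' (hG : LM U G) (hx : x ∈ U) :
    nn G (fun a b => pd b u x * pd a v x) x = √(inn G u u x) * √(inn G v v x) := by
  have h : (fun a b : Fin 3 => pd b u x * pd a v x) = fun a b => pd a v x * pd b u x := by
    funext a b; ring
  rw [h, nn_dd hG hx, mul_comm]

theorem tr_add (h k : Fin 3 → Fin 3 → ℝ) :
    tr G (fun a b => h a b + k a b) x = tr G h x + tr G k x := by
  unfold tr
  simp_rw [← Finset.sum_add_distrib]
  refine Finset.sum_congr rfl fun a _ => Finset.sum_congr rfl fun b _ => ?_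
  ring

theorem tr_smul (c : ℝ) (h : Fin 3 → Fin 3 → ℝ) :
    tr G (fun a b => c * h a b) x = c * tr G h x := by
  unfold tr
  simp_rw [Finset.mul_sum]
  refine Finset.sum_congr rfl fun a _ => Finset.sum_congr rfl fun b _ => ?_
  ring

theorem TT_eq (w : E → ℝ) (a b : Fin 3) : TT G w a b x =
    (hess G w a b x - tr G (fun a b => hess G w a b x) x / 3 * G x a b) + w x * ric0 G a b x := by
  unfold TT sch rho ric0 lap
  ring

theorem TT_add (hG : LM U G) (hu : ContDiffOn ℝ ∞ u U) (hv : ContDiffOn ℝ ∞ v U) (hx : x ∈ U)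
    (a b : Fin 3) : TT G (fun y => u y + v y) a b x = TT G u a b x + TT G v a b x := by
  rw [TT_eq, TT_eq, TT_eq]
  have h : (fun a b : Fin 3 => hess G (fun y => u y + v y) a b x) =
      fun a b => hess G u a b x + hess G v a b x := by
    funext a b; exact hess_add hG hu hv hx a b
  rw [h, tr_add, hess_add hG hu hv hx]
  ring

theorem TT_mul (hG : LM U G) (hu : ContDiffOn ℝ ∞ u U) (hv : ContDiffOn ℝ ∞ v U) (hx : x ∈ U)
    (a b : Fin 3) : TT G (fun y => u y * v y) a b x =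
      (u x * TT G v a b x + v x * TT G u a b x) + (-(u x * v x)) * ric0 G a b x +
      ((pd a u x * pd b v x + pd b u x * pd a v x) -
        tr G (fun a b => pd a u x * pd b v x + pd b u x * pd a v x) x / 3 * G x a b) := by
  rw [TT_eq, TT_eq, TT_eq]
  have h : (fun a b : Fin 3 => hess G (fun y => u y * v y) a b x) =
      fun a b => (u x * hess G v a b x + v x * hess G u a b x) +
        (pd a u x * pd b v x + pd b u x * pd a v x) := by
    funext a b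
    rw [hess_mul hG hu hv hx a b]
    ring
  rw [h, tr_add, tr_add, tr_smul, tr_smul, hess_mul hG hu hv hx]
  ring

theorem TT_comp (hG : LM U G) (hu : ContDiffOn ℝ ∞ u U) (hx : x ∈ U) {F : ℝ → ℝ} {S : Set ℝ}
    (hS : IsOpen S) (hF : ContDiffOn ℝ ∞ F S) (hm : ∀ y ∈ U, u y ∈ S)
    (a b : Fin 3) : TT G (fun y => F (u y)) a b x =
      (deriv F (u x) * TT G u a b x + (F (u x) - u x * deriv F (u x)) * ric0 G a b x) +
      deriv (deriv F) (u x) * ((pd a u x * pd b u x) -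
        tr G (fun a b => pd a u x * pd b u x) x / 3 * G x a b) := by
  rw [TT_eq, TT_eq]
  have h : (fun a b : Fin 3 => hess G (fun y => F (u y)) a b x) =
      fun a b => deriv F (u x) * hess G u a b x +
        deriv (deriv F) (u x) * (pd a u x * pd b u x) := by
    funext a b
    rw [hess_comp hG hS hF hu hx hm a b]
  rw [h, tr_add, tr_smul, tr_smul, hess_comp hG hS hF hu hx hm]
  ring

theorem nn_TT_add (hG : LM U G) (hu : ContDiffOn ℝ ∞ u U) (hv : ContDiffOn ℝ ∞ v U) (hx : x ∈ U) :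
    nn G (fun a b => TT G (fun y => u y + v y) a b x) x ≤
      nn G (fun a b => TT G u a b x) x + nn G (fun a b => TT G v a b x) x := by
  have h : (fun a b : Fin 3 => TT G (fun y => u y + v y) a b x) =
      fun a b => TT G u a b x + TT G v a b x := by
    funext a b; exact TT_add hG hu hv hx a b
  rw [h]
  exact nn_add hG hx _ _

theorem nn_sym_dd (hG : LM U G) (hx : x ∈ U) :
    nn G (fun a b => pd a u x * pd b v x + pd b u x * pd a v x) x ≤
      2 * √(inn G u u x) * √(inn G v v x) := by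
  refine (nn_add hG hx _ _).trans ?_
  rw [nn_dd hG hx, nn_dd' hG hx]
  apply le_of_eq
  ring

theorem nn_TT_mul (hG : LM U G) (hu : ContDiffOn ℝ ∞ u U) (hv : ContDiffOn ℝ ∞ v U) (hx : x ∈ U) :
    nn G (fun a b => TT G (fun y => u y * v y) a b x) x ≤
      |u x| * nn G (fun a b => TT G v a b x) x + |v x| * nn G (fun a b => TT G u a b x) x +
      |u x * v x| * nn G (fun a b => ric0 G a b x) x +
        2 * √(inn G u u x) * √(inn G v v x) := by
  have h : (fun a b : Fin 3 => TT G (fun y => u y * v y) a b x) =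
      fun a b => ((u x * TT G v a b x + v x * TT G u a b x) + (-(u x * v x)) * ric0 G a b x) +
      ((pd a u x * pd b v x + pd b u x * pd a v x) -
        tr G (fun a b => pd a u x * pd b v x + pd b u x * pd a v x) x / 3 * G x a b) := by
    funext a b; exact TT_mul hG hu hv hx a b
  rw [h]
  refine (nn_add hG hx _ _).trans ?_
  refine add_le_add ?_ ((nn_free hG hx _).trans (nn_sym_dd hG hx))
  refine (nn_add hG hx _ _).trans ?_
  refine add_le_add ?_ ?_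
  · refine (nn_add hG hx _ _).trans ?_
    rw [nn_smul, nn_smul]
  · rw [nn_smul, abs_neg]

theorem nn_TT_comp (hG : LM U G) (hu : ContDiffOn ℝ ∞ u U) (hx : x ∈ U) {F : ℝ → ℝ} {S : Set ℝ}
    (hS : IsOpen S) (hF : ContDiffOn ℝ ∞ F S) (hm : ∀ y ∈ U, u y ∈ S) :
    nn G (fun a b => TT G (fun y => F (u y)) a b x) x ≤
      |deriv F (u x)| * nn G (fun a b => TT G u a b x) x +
      |F (u x) - u x * deriv F (u x)| * nn G (fun a b => ric0 G a b x) x +
        |deriv (deriv F) (u x)| * inn G u u x := by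
  have h : (fun a b : Fin 3 => TT G (fun y => F (u y)) a b x) =
      fun a b => (deriv F (u x) * TT G u a b x + (F (u x) - u x * deriv F (u x)) * ric0 G a b x) +
      deriv (deriv F) (u x) * ((pd a u x * pd b u x) -
        tr G (fun a b => pd a u x * pd b u x) x / 3 * G x a b) := by
    funext a b; exact TT_comp hG hu hx hS hF hm a b
  rw [h]
  refine (nn_add hG hx _ _).trans ?_
  refine add_le_add ?_ ?_
  · refine (nn_add hG hx _ _).trans ?_
    rw [nn_smul, nn_smul]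
  · rw [nn_smul (deriv (deriv F) (u x))
      (fun a b => (pd a u x * pd b u x) - tr G (fun a b => pd a u x * pd b u x) x / 3 * G x a b)]
    refine mul_le_mul_of_nonneg_left ?_ (abs_nonneg _)
    refine (nn_free hG hx _).trans ?_
    rw [nn_dd hG hx, Real.mul_self_sqrt (YR.inn_self_nonneg hG hx)]

theorem nn_hess_add (hG : LM U G) (hu : ContDiffOn ℝ ∞ u U) (hv : ContDiffOn ℝ ∞ v U)
    (hx : x ∈ U) :
    nn G (fun a b => hess G (fun y => u y + v y) a b x) x ≤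
      nn G (fun a b => hess G u a b x) x + nn G (fun a b => hess G v a b x) x := by
  have h : (fun a b : Fin 3 => hess G (fun y => u y + v y) a b x) =
      fun a b => hess G u a b x + hess G v a b x := by
    funext a b; exact hess_add hG hu hv hx a b
  rw [h]
  exact nn_add hG hx _ _

theorem nn_hess_mul (hG : LM U G) (hu : ContDiffOn ℝ ∞ u U) (hv : ContDiffOn ℝ ∞ v U)
    (hx : x ∈ U) :
    nn G (fun a b => hess G (fun y => u y * v y) a b x) x ≤
      |u x| * nn G (fun a b => hess G v a b x) x + |v x| * nn G (fun a b => hess G u a b x) x +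
        2 * √(inn G u u x) * √(inn G v v x) := by
  have h : (fun a b : Fin 3 => hess G (fun y => u y * v y) a b x) =
      fun a b => (u x * hess G v a b x + v x * hess G u a b x) +
        (pd a u x * pd b v x + pd b u x * pd a v x) := by
    funext a b
    rw [hess_mul hG hu hv hx a b]
    ring
  rw [h]
  refine (nn_add hG hx _ _).trans ?_
  refine add_le_add ?_ (nn_sym_dd hG hx)
  refine (nn_add hG hx _ _).trans ?_
  rw [nn_smul, nn_smul]

theorem ip_zero {h : Fin 3 → Fin 3 → ℝ} (h0 : ∀ a b, h a b = 0) : ip G h h x = 0 := by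
  unfold ip
  simp [h0]

end

end G3b

variable {M : Type*} [TopologicalSpace M] {𝒜 : Atl M} {U V : Set M}
  {u v w f k : M → ℝ} {p : M}

namespace G3b

theorem lm_dom (𝒢 : Met 𝒜) (hU : IsOpen U) (i : Fin 𝒜.n) : LM (𝒜.dom U i) (𝒢.g i) :=
  (𝒢.lm i).mono (Atl.isOpen_dom hU i) fun _ hz => hz.1

theorem chart_dom (𝒜 : Atl M) {U : Set M} {p : M} (hp : p ∈ U) :
    ∃ i, ∃ z ∈ 𝒜.dom U i, (𝒜.φ i).symm z = p := by
  obtain ⟨i, z, hz, h⟩ := Atl.exists_chart (𝒜 := 𝒜) p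
  refine ⟨i, z, ⟨?_, ?_⟩, h⟩
  · rw [mem_ball] at hz ⊢
    linarith
  · rw [h]; exact hp

end G3b

namespace Met

variable (𝒢 : Met 𝒜)

/-! ### GLOB3b : norm rules for `T` -/

theorem sqrt_t2_add (hU : IsOpen U) (hp : p ∈ U) (hu : 𝒜.SmOn U u) (hv : 𝒜.SmOn U v) :
    √(𝒢.t2 (fun q => u q + v q) p) ≤ √(𝒢.t2 u p) + √(𝒢.t2 v p) := by
  obtain ⟨i, z, hz, rfl⟩ := G3b.chart_dom 𝒜 hp
  rw [𝒢.t2_chart hU (hu.add hv) i hz, 𝒢.t2_chart hU hu i hz, 𝒢.t2_chart hU hv i hz]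
  exact G3b.nn_TT_add (G3b.lm_dom 𝒢 hU i) (hu i) (hv i) hz

theorem sqrt_t2_mul (hU : IsOpen U) (hp : p ∈ U) (hu : 𝒜.SmOn U u) (hv : 𝒜.SmOn U v) :
    √(𝒢.t2 (fun q => u q * v q) p) ≤ |u p| * √(𝒢.t2 v p) + |v p| * √(𝒢.t2 u p) +
      |u p * v p| * √(𝒢.e2 p) + 2 * √(𝒢.inn u u p) * √(𝒢.inn v v p) := by
  obtain ⟨i, z, hz, rfl⟩ := G3b.chart_dom 𝒜 hp
  rw [𝒢.t2_chart hU (hu.mul hv) i hz, 𝒢.t2_chart hU hu i hz, 𝒢.t2_chart hU hv i hz,
    𝒢.e2_chart i hz.1, 𝒢.inn_chart hU hu hu i hz, 𝒢.inn_chart hU hv hv i hz]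
  exact G3b.nn_TT_mul (G3b.lm_dom 𝒢 hU i) (hu i) (hv i) hz

theorem sqrt_t2_comp (hU : IsOpen U) (hp : p ∈ U) (hu : 𝒜.SmOn U u) {F : ℝ → ℝ} {S : Set ℝ}
    (hS : IsOpen S) (hF : ContDiffOn ℝ ∞ F S) (hm : ∀ q ∈ U, u q ∈ S) :
    √(𝒢.t2 (fun q => F (u q)) p) ≤ |deriv F (u p)| * √(𝒢.t2 u p) +
      |F (u p) - u p * deriv F (u p)| * √(𝒢.e2 p) +
        |deriv (deriv F) (u p)| * 𝒢.inn u u p := by
  obtain ⟨i, z, hz, rfl⟩ := G3b.chart_dom 𝒜 hp
  rw [𝒢.t2_chart hU (hu.comp hF hm) i hz, 𝒢.t2_chart hU hu i hz,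
    𝒢.e2_chart i hz.1, 𝒢.inn_chart hU hu hu i hz]
  exact G3b.nn_TT_comp (G3b.lm_dom 𝒢 hU i) (hu i) hz hS hF fun y hy => hm _ hy.2

theorem abs_Tv_le (w u v : M → ℝ) (p : M) :
    |𝒢.Tv w u v p| ≤ √(𝒢.t2 w p) * √(𝒢.inn u u p) * √(𝒢.inn v v p) := by
  rw [← Real.sqrt_sq_eq_abs, ← Real.sqrt_mul (𝒢.t2_nonneg w p),
    ← Real.sqrt_mul (mul_nonneg (𝒢.t2_nonneg w p) (𝒢.inn_self_nonneg u p))]
  exact Real.sqrt_le_sqrt (𝒢.Tv_sq_le w u v p)

theorem sqrt_h2_add (hU : IsOpen U) (hp : p ∈ U) (hu : 𝒜.SmOn U u) (hv : 𝒜.SmOn U v) :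
    √(𝒢.h2 (fun q => u q + v q) p) ≤ √(𝒢.h2 u p) + √(𝒢.h2 v p) := by
  obtain ⟨i, z, hz, rfl⟩ := G3b.chart_dom 𝒜 hp
  rw [𝒢.h2_chart hU (hu.add hv) i hz, 𝒢.h2_chart hU hu i hz, 𝒢.h2_chart hU hv i hz]
  exact G3b.nn_hess_add (G3b.lm_dom 𝒢 hU i) (hu i) (hv i) hz

theorem sqrt_h2_mul (hU : IsOpen U) (hp : p ∈ U) (hu : 𝒜.SmOn U u) (hv : 𝒜.SmOn U v) :
    √(𝒢.h2 (fun q => u q * v q) p) ≤ |u p| * √(𝒢.h2 v p) + |v p| * √(𝒢.h2 u p) +
      2 * √(𝒢.inn u u p) * √(𝒢.inn v v p) := by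
  obtain ⟨i, z, hz, rfl⟩ := G3b.chart_dom 𝒜 hp
  rw [𝒢.h2_chart hU (hu.mul hv) i hz, 𝒢.h2_chart hU hu i hz, 𝒢.h2_chart hU hv i hz,
    𝒢.inn_chart hU hu hu i hz, 𝒢.inn_chart hU hv hv i hz]
  exact G3b.nn_hess_mul (G3b.lm_dom 𝒢 hU i) (hu i) (hv i) hz

theorem sqrt_inn_add (hU : IsOpen U) (hp : p ∈ U) (hu : 𝒜.SmOn U u) (hv : 𝒜.SmOn U v) :
    √(𝒢.inn (fun q => u q + v q) (fun q => u q + v q) p) ≤
      √(𝒢.inn u u p) + √(𝒢.inn v v p) := by
  refine Real.sqrt_le_iff.2 ⟨add_nonneg (Real.sqrt_nonneg _) (Real.sqrt_nonneg _), ?_⟩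
  rw [𝒢.inn_add hU hp hu hv, 𝒢.inn_symm u, 𝒢.inn_symm v, 𝒢.inn_add hU hp hu hv,
    𝒢.inn_add hU hp hu hv, 𝒢.inn_symm v u]
  have h1 := 𝒢.abs_inn_le u v p
  have h2 := le_abs_self (𝒢.inn u v p)
  have h3 := Real.sq_sqrt (𝒢.inn_self_nonneg u p)
  have h4 := Real.sq_sqrt (𝒢.inn_self_nonneg v p)
  nlinarith

/-- `T(w) = 0` in every chart -/
theorem t2_eq_zero_iff (hU : IsOpen U) (hw : 𝒜.SmOn U w) (i : Fin 𝒜.n) {z : E}
    (hz : z ∈ 𝒜.dom U i) :
    𝒢.t2 w ((𝒜.φ i).symm z) = 0 ↔ ∀ a b, YR.TT (𝒢.g i) (𝒜.rd w i) a b z = 0 := by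
  rw [𝒢.t2_chart hU hw i hz]
  exact ⟨fun h => YR.ip_self_eq_zero (G3b.lm_dom 𝒢 hU i) hz _ h, fun h => G3b.ip_zero h⟩

theorem e2_eq_zero_iff (i : Fin 𝒜.n) {z : E} (hz : z ∈ ball (0 : E) 4) :
    𝒢.e2 ((𝒜.φ i).symm z) = 0 ↔ ∀ a b, YR.ric0 (𝒢.g i) a b z = 0 := by
  rw [𝒢.e2_chart i hz]
  exact ⟨fun h => YR.ip_self_eq_zero (𝒢.lm i) hz _ h, fun h => G3b.ip_zero h⟩

/-- `|du|² = 0` iff all partial derivatives vanish -/
theorem inn_eq_zero_iff (hU : IsOpen U) (hu : 𝒜.SmOn U u) (i : Fin 𝒜.n) {z : E}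
    (hz : z ∈ 𝒜.dom U i) :
    𝒢.inn u u ((𝒜.φ i).symm z) = 0 ↔ ∀ a, YR.pd a (𝒜.rd u i) z = 0 := by
  rw [𝒢.inn_chart hU hu hu i hz]
  exact YR.inn_self_eq_zero (G3b.lm_dom 𝒢 hU i) hz

end Met

end YR
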