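import Pool.Agent.Rig71.B3
import Pool.Agent.Rig71.B6
import Pool.Agent.Rig71.Glob3b
import Pool.Agent.Rig71.Glob3c

/-!
# B7a : the approximate solutions `η₀ + κ θ^{3/2}`
-/

open scoped ContDiff Topology
open MeasureTheory Metric Set Filter

noncomputable section

namespace YR

variable {M : Type*} [TopologicalSpace M] [T2Space M] [CompactSpace M] [ConnectedSpace M]
  {𝒜 : Atl M} {𝒢 : Met 𝒜} {θ η0 κ : M → ℝ}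

omit [T2Space M] [CompactSpace M] [ConnectedSpace M] in
theorem b7a_isOpen (h : ZD 𝒢 θ) : IsOpen {p | 0 < θ p} :=
  isOpen_lt continuous_const h.sm.continuous

omit [T2Space M] [CompactSpace M] [ConnectedSpace M] in
theorem b7a_psi (h : ZD 𝒢 θ) : 𝒜.SmOn {p | 0 < θ p} (fun q => θ q ^ (3 / 2 : ℝ)) :=
  (h.sm.on _).rpow (fun _ hp => hp) _

omit [T2Space M] [CompactSpace M] [ConnectedSpace M] in
theorem ZD.etam_smooth (h : ZD 𝒢 θ) (hs : Seed 𝒢 θ η0) (hκ : 𝒜.Sm κ) :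
    𝒜.SmOn {p | 0 < θ p} (etam θ η0 κ) :=
  (hs.sm.on _).add ((hκ.on _).mul (b7a_psi h))

/-- derivative of `t^{3/2}` -/
theorem b7a_d1 {t : ℝ} (ht : 0 < t) :
    HasDerivAt (fun x : ℝ => x ^ (3 / 2 : ℝ)) (3 / 2 * t ^ (1 / 2 : ℝ)) t := by
  have h1 := Real.hasDerivAt_rpow_const (x := t) (p := 3 / 2) (Or.inl ht.ne')
  have h2 : (3 / 2 : ℝ) - 1 = 1 / 2 := by norm_num
  rwa [h2] at h1

theorem b7a_d2 {t : ℝ} (ht : 0 < t) :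
    deriv (deriv (fun x : ℝ => x ^ (3 / 2 : ℝ))) t = 3 / 4 * t ^ (-(1 / 2) : ℝ) := by
  have he : deriv (fun x : ℝ => x ^ (3 / 2 : ℝ)) =ᶠ[𝓝 t] fun x => 3 / 2 * x ^ (1 / 2 : ℝ) := by
    filter_upwards [Ioi_mem_nhds ht] with x hx
    exact (b7a_d1 hx).deriv
  rw [he.deriv_eq]
  have h1 := (Real.hasDerivAt_rpow_const (x := t) (p := 1 / 2) (Or.inl ht.ne')).const_mul (3 / 2)
  rw [h1.deriv]
  have h2 : (1 / 2 : ℝ) - 1 = -(1 / 2) := by norm_num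
  rw [h2]
  ring

theorem b7a_F : ContDiffOn ℝ ∞ (fun x : ℝ => x ^ (3 / 2 : ℝ)) (Ioi 0) := fun _ hx =>
  (contDiffAt_id.rpow_const_of_ne (ne_of_gt hx)).contDiffWithinAt

/-- powers of `t` in terms of `s = t^{1/2}` -/
theorem b7a_pow {t : ℝ} (ht : 0 < t) : ∃ s : ℝ, 0 < s ∧ t = s ^ 2 ∧ t ^ (1 / 2 : ℝ) = s ∧
    t ^ (-(1 / 2) : ℝ) = s⁻¹ ∧ t ^ (3 / 2 : ℝ) = s ^ 3 ∧ t ^ (5 / 2 : ℝ) = s ^ 5 ∧
      t ^ (-(5 / 2) : ℝ) = (s ^ 5)⁻¹ := by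
  have h1 : 0 < √t := Real.sqrt_pos.2 ht
  have h2 : √t ^ 2 = t := Real.sq_sqrt ht.le
  have key : ∀ n : ℕ, t ^ ((n : ℝ) / 2) = √t ^ n := by
    intro n
    rw [Real.sqrt_eq_rpow, ← Real.rpow_natCast, ← Real.rpow_mul ht.le]
    congr 1
    ring
  refine ⟨√t, h1, h2.symm, ?_, ?_, ?_, ?_, ?_⟩
  · simpa using key 1
  · rw [Real.rpow_neg ht.le]
    have := key 1
    norm_num at this
    norm_num [this]
  · exact_mod_cast key 3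
  · exact_mod_cast key 5
  · rw [Real.rpow_neg ht.le]
    have : t ^ (5 / 2 : ℝ) = √t ^ 5 := by exact_mod_cast key 5
    rw [this]

theorem b7a_alg (s ρ R k l i B : ℝ) (hs : s ≠ 0) :
    B + ((k * (3 / 2 * s * (3 * ρ - R / 4 * s ^ 2) + 3 / 4 * s⁻¹ * (2 * ρ * s ^ 2)) + s ^ 3 * l +
      2 * (3 / 2 * s * i) + R / 4 * (k * s ^ 3)) / 3 * s ^ 2 + ρ * (k * s ^ 3) -
        (k * (3 / 2 * s * (2 * ρ * s ^ 2)) + s ^ 3 * i)) =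
      -(1 / 24) * s ^ 5 * (-24 * (s ^ 5)⁻¹ * B + (-8 * l + R * k)) := by
  have h1 : s⁻¹ * s ^ 2 = s := by rw [pow_two, ← mul_assoc, inv_mul_cancel₀ hs, one_mul]
  have h2 : s ^ 5 * (s ^ 5)⁻¹ = 1 := mul_inv_cancel₀ (pow_ne_zero 5 hs)
  linear_combination (k * (2 * ρ) * (3 / 4) / 3 * s ^ 2) * h1 + (-B) * h2

theorem ZD.bb_etam (h : ZD 𝒢 θ) (hs : Seed 𝒢 θ η0) (hκ : 𝒜.Sm κ) {p : M} (hp : 0 < θ p) :
    𝒢.bb (etam θ η0 κ) θ p = -(1 / 24) * θ p ^ (5 / 2 : ℝ) * (𝒢.ee θ η0 p + 𝒢.L κ p) := by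
  have hU := b7a_isOpen h
  have hp' : p ∈ {p | 0 < θ p} := hp
  have hψ := b7a_psi h
  have hθ := h.sm.on {p | 0 < θ p}
  have hκ' := hκ.on {p | 0 < θ p}
  have e1 : 𝒢.bb (etam θ η0 κ) θ p = 𝒢.bb η0 θ p +
      𝒢.bb (fun q => κ q * θ q ^ (3 / 2 : ℝ)) θ p :=
    𝒢.bb_add hU hp' (hs.sm.on _) (hκ'.mul hψ) θ
  have lψ := 𝒢.lap_comp hU hp' hθ (F := fun x : ℝ => x ^ (3 / 2 : ℝ)) (S := Ioi 0) isOpen_Ioi
    b7a_F (fun q hq => hq)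
  have l1 := 𝒢.lap_mul hU hp' hκ' hψ
  have i1 : 𝒢.inn (fun q => θ q ^ (3 / 2 : ℝ)) κ p = 3 / 2 * θ p ^ (1 / 2 : ℝ) * 𝒢.inn θ κ p :=
    𝒢.inn_comp hU hp' hθ (F := fun x : ℝ => x ^ (3 / 2 : ℝ)) (b7a_d1 hp)
  have i2 : 𝒢.inn (fun q => θ q ^ (3 / 2 : ℝ)) θ p = 3 / 2 * θ p ^ (1 / 2 : ℝ) * 𝒢.inn θ θ p :=
    𝒢.inn_comp hU hp' hθ (F := fun x : ℝ => x ^ (3 / 2 : ℝ)) (b7a_d1 hp)
  have i3 := 𝒢.inn_mul hU hp' hκ' hψ (f := θ)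
  have hin := h.inn_self p
  have hl : 𝒢.lap θ p = 3 * 𝒢.rho θ p - 𝒢.scal p / 4 * θ p := by
    rw [Met.rho]; ring
  have hsy1 := 𝒢.inn_symm κ (fun q => θ q ^ (3 / 2 : ℝ)) p
  have hsy2 := 𝒢.inn_symm κ θ p
  have e2 : 𝒢.bb (fun q => κ q * θ q ^ (3 / 2 : ℝ)) θ p =
      𝒢.rho (fun q => κ q * θ q ^ (3 / 2 : ℝ)) p * θ p +
        𝒢.rho θ p * (κ p * θ p ^ (3 / 2 : ℝ)) -
          𝒢.inn (fun q => κ q * θ q ^ (3 / 2 : ℝ)) θ p := by rw [Met.bb]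
  have e3 : 𝒢.rho (fun q => κ q * θ q ^ (3 / 2 : ℝ)) p =
      (𝒢.lap (fun q => κ q * θ q ^ (3 / 2 : ℝ)) p +
        𝒢.scal p / 4 * (κ p * θ p ^ (3 / 2 : ℝ))) / 3 := by rw [Met.rho]
  have e4 : 𝒢.ee θ η0 p = -24 * θ p ^ (-(5 / 2) : ℝ) * 𝒢.bb η0 θ p := by rw [Met.ee]
  have e5 : 𝒢.L κ p = -8 * 𝒢.lap κ p + 𝒢.scal p * κ p := by rw [Met.L]
  rw [(b7a_d1 hp).deriv, b7a_d2 hp, hin, hl] at lψ
  rw [e2, e3] at e1
  rw [e4, e5, e1, l1, i3, lψ, hsy1, hsy2, i1, i2, hin]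
  obtain ⟨s, s0, s1, s2, s3, s4, s5, s6⟩ := b7a_pow hp
  rw [s6, s5, s4, s3, s2, s1]
  exact b7a_alg s _ _ _ _ _ _ s0.ne'

/-! ### quadratic versions of the norm rules -/

theorem b7a_sq_add (a b : ℝ) : (a + b) ^ 2 ≤ 2 * (a ^ 2 + b ^ 2) := by
  nlinarith [sq_nonneg (a - b)]

theorem b7a_sq_add4 (a b c d : ℝ) :
    (a + b + c + d) ^ 2 ≤ 4 * (a ^ 2 + b ^ 2 + c ^ 2 + d ^ 2) := by
  nlinarith [sq_nonneg (a - b), sq_nonneg (a - c), sq_nonneg (a - d), sq_nonneg (b - c),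
    sq_nonneg (b - d), sq_nonneg (c - d)]

omit [T2Space M] [CompactSpace M] [ConnectedSpace M] in
theorem b7a_t2_add {U : Set M} {u v : M → ℝ} {p : M} (hU : IsOpen U) (hp : p ∈ U)
    (hu : 𝒜.SmOn U u) (hv : 𝒜.SmOn U v) :
    𝒢.t2 (fun q => u q + v q) p ≤ 2 * (𝒢.t2 u p + 𝒢.t2 v p) := by
  have h1 := 𝒢.sqrt_t2_add hU hp hu hv
  have h2 := Real.sq_sqrt (𝒢.t2_nonneg u p)
  have h3 := Real.sq_sqrt (𝒢.t2_nonneg v p)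
  have h4 := Real.sq_sqrt (𝒢.t2_nonneg (fun q => u q + v q) p)
  have h5 : √(𝒢.t2 (fun q => u q + v q) p) ^ 2 ≤ (√(𝒢.t2 u p) + √(𝒢.t2 v p)) ^ 2 :=
    pow_le_pow_left₀ (Real.sqrt_nonneg _) h1 2
  rw [h4] at h5
  have h6 := b7a_sq_add (√(𝒢.t2 u p)) (√(𝒢.t2 v p))
  rw [h2, h3] at h6
  exact h5.trans h6

omit [T2Space M] [CompactSpace M] [ConnectedSpace M] in
theorem b7a_t2_mul {U : Set M} {u v : M → ℝ} {p : M} (hU : IsOpen U) (hp : p ∈ U)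
    (hu : 𝒜.SmOn U u) (hv : 𝒜.SmOn U v) :
    𝒢.t2 (fun q => u q * v q) p ≤ 4 * (u p ^ 2 * 𝒢.t2 v p + v p ^ 2 * 𝒢.t2 u p +
      (u p * v p) ^ 2 * 𝒢.e2 p + 4 * (𝒢.inn u u p * 𝒢.inn v v p)) := by
  have h1 := 𝒢.sqrt_t2_mul hU hp hu hv
  set a := |u p| * √(𝒢.t2 v p) with ha
  set b := |v p| * √(𝒢.t2 u p) with hb
  set c := |u p * v p| * √(𝒢.e2 p) with hc
  set d := 2 * √(𝒢.inn u u p) * √(𝒢.inn v v p) with hd
  have a2 : a ^ 2 = u p ^ 2 * 𝒢.t2 v p := by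
    rw [ha, mul_pow, sq_abs, Real.sq_sqrt (𝒢.t2_nonneg v p)]
  have b2 : b ^ 2 = v p ^ 2 * 𝒢.t2 u p := by
    rw [hb, mul_pow, sq_abs, Real.sq_sqrt (𝒢.t2_nonneg u p)]
  have c2 : c ^ 2 = (u p * v p) ^ 2 * 𝒢.e2 p := by
    rw [hc, mul_pow, sq_abs, Real.sq_sqrt (𝒢.e2_nonneg p)]
  have d2 : d ^ 2 = 4 * (𝒢.inn u u p * 𝒢.inn v v p) := by
    rw [hd, mul_pow, mul_pow, Real.sq_sqrt (𝒢.inn_self_nonneg u p),
      Real.sq_sqrt (𝒢.inn_self_nonneg v p)]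
    ring
  have h4 := Real.sq_sqrt (𝒢.t2_nonneg (fun q => u q * v q) p)
  have h5 : √(𝒢.t2 (fun q => u q * v q) p) ^ 2 ≤ (a + b + c + d) ^ 2 :=
    pow_le_pow_left₀ (Real.sqrt_nonneg _) h1 2
  rw [← a2, ← b2, ← c2, ← d2]
  rw [h4] at h5
  exact h5.trans (b7a_sq_add4 a b c d)

omit [T2Space M] [CompactSpace M] [ConnectedSpace M] in
theorem b7a_inn_add {U : Set M} {u v : M → ℝ} {p : M} (hU : IsOpen U) (hp : p ∈ U)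
    (hu : 𝒜.SmOn U u) (hv : 𝒜.SmOn U v) :
    𝒢.inn (fun q => u q + v q) (fun q => u q + v q) p ≤ 2 * (𝒢.inn u u p + 𝒢.inn v v p) := by
  have h1 := 𝒢.sqrt_inn_add hU hp hu hv
  have h2 := Real.sq_sqrt (𝒢.inn_self_nonneg u p)
  have h3 := Real.sq_sqrt (𝒢.inn_self_nonneg v p)
  have h4 := Real.sq_sqrt (𝒢.inn_self_nonneg (fun q => u q + v q) p)
  have h5 : √(𝒢.inn (fun q => u q + v q) (fun q => u q + v q) p) ^ 2 ≤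
      (√(𝒢.inn u u p) + √(𝒢.inn v v p)) ^ 2 :=
    pow_le_pow_left₀ (Real.sqrt_nonneg _) h1 2
  rw [h4] at h5
  have h6 := b7a_sq_add (√(𝒢.inn u u p)) (√(𝒢.inn v v p))
  rw [h2, h3] at h6
  exact h5.trans h6

omit [T2Space M] [CompactSpace M] [ConnectedSpace M] in
theorem b7a_inn_mul {U : Set M} {u v : M → ℝ} {p : M} (hU : IsOpen U) (hp : p ∈ U)
    (hu : 𝒜.SmOn U u) (hv : 𝒜.SmOn U v) :
    𝒢.inn (fun q => u q * v q) (fun q => u q * v q) p ≤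
      2 * (u p ^ 2 * 𝒢.inn v v p + v p ^ 2 * 𝒢.inn u u p) := by
  have e1 := 𝒢.inn_mul hU hp hu hv (f := fun q => u q * v q)
  have e2 := 𝒢.inn_symm v (fun q => u q * v q) p
  have e3 := 𝒢.inn_symm u (fun q => u q * v q) p
  have e4 := 𝒢.inn_mul hU hp hu hv (f := v)
  have e5 := 𝒢.inn_mul hU hp hu hv (f := u)
  have e6 := 𝒢.inn_symm v u p
  have h1 := 𝒢.abs_inn_le u v p
  have h2 := Real.sq_sqrt (𝒢.inn_self_nonneg u p)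
  have h3 := Real.sq_sqrt (𝒢.inn_self_nonneg v p)
  set x := √(𝒢.inn u u p) with hx
  set y := √(𝒢.inn v v p) with hy
  have x0 : 0 ≤ x := Real.sqrt_nonneg _
  have y0 : 0 ≤ y := Real.sqrt_nonneg _
  rw [e1, e2, e3, e4, e5, e6]
  have h6 : u p * v p * 𝒢.inn u v p ≤ |u p| * |v p| * (x * y) := by
    calc u p * v p * 𝒢.inn u v p ≤ |u p * v p * 𝒢.inn u v p| := le_abs_self _
      _ = |u p| * |v p| * |𝒢.inn u v p| := by rw [abs_mul, abs_mul]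
      _ ≤ _ := mul_le_mul_of_nonneg_left h1 (by positivity)
  have h7 : |u p| ^ 2 = u p ^ 2 := sq_abs _
  have h8 : |v p| ^ 2 = v p ^ 2 := sq_abs _
  have h9 : 2 * (|u p| * |v p| * (x * y)) ≤ u p ^ 2 * 𝒢.inn v v p + v p ^ 2 * 𝒢.inn u u p := by
    rw [← h2, ← h3, ← h7, ← h8]
    have h10 := sq_nonneg (|u p| * y - |v p| * x)
    linarith
  linarith

omit [T2Space M] [CompactSpace M] [ConnectedSpace M] in
theorem b7a_t2_psi (h : ZD 𝒢 θ) {p : M} (hp : 0 < θ p) {s : ℝ} (s0 : 0 < s) (s1 : θ p = s ^ 2)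
    {K : ℝ} (hK : 𝒢.inn θ θ p ≤ K * θ p) :
    √(𝒢.t2 (fun q => θ q ^ (3 / 2 : ℝ)) p) ≤ s ^ 3 / 2 * √(𝒢.e2 p) + 3 / 4 * K * s := by
  have hU := b7a_isOpen h
  have hp' : p ∈ {p | 0 < θ p} := hp
  have h1 := 𝒢.sqrt_t2_comp hU hp' (h.sm.on _) (S := Ioi 0) isOpen_Ioi b7a_F (fun q hq => hq)
  rw [(b7a_d1 hp).deriv, b7a_d2 hp, h.t2 p, Real.sqrt_zero, mul_zero, zero_add] at h1
  obtain ⟨s', s0', s1', s2, s3, s4, s5, s6⟩ := b7a_pow hp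
  have hss : s' = s := by
    have : s' ^ 2 = s ^ 2 := by rw [← s1', ← s1]
    exact (pow_left_inj₀ s0'.le s0.le two_ne_zero).1 this
  subst hss
  rw [s4, s3, s2] at h1
  refine h1.trans (add_le_add (le_of_eq ?_) ?_)
  · have : s' ^ 3 - θ p * (3 / 2 * s') = -(s' ^ 3 / 2) := by rw [s1']; ring
    rw [this, abs_neg, abs_of_pos (by positivity)]
  · rw [abs_of_pos (by positivity)]
    calc 3 / 4 * s'⁻¹ * 𝒢.inn θ θ p ≤ 3 / 4 * s'⁻¹ * (K * θ p) :=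
          mul_le_mul_of_nonneg_left hK (by positivity)
      _ = 3 / 4 * K * s' := by rw [s1']; field_simp

omit [T2Space M] [ConnectedSpace M] in
theorem b7a_bdd {u : M → ℝ} (hu : 𝒜.Sm u) : ∃ C : ℝ, ∀ p, |u p| ≤ C := by
  obtain ⟨C, hC⟩ := isCompact_univ.exists_bound_of_continuousOn hu.continuous.continuousOn
  exact ⟨C, fun p => hC p (mem_univ p)⟩

omit [T2Space M] [CompactSpace M] [ConnectedSpace M] in
theorem b7a_inn_comp_self {U : Set M} {u : M → ℝ} {p : M} (hU : IsOpen U) (hp : p ∈ U)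
    (hu : 𝒜.SmOn U u) {F : ℝ → ℝ} {F' : ℝ} (hF : HasDerivAt F F' (u p)) :
    𝒢.inn (fun q => F (u q)) (fun q => F (u q)) p = F' ^ 2 * 𝒢.inn u u p := by
  rw [𝒢.inn_comp hU hp hu hF, 𝒢.inn_symm u (fun q => F (u q)) p, 𝒢.inn_comp hU hp hu hF]
  ring

theorem ZD.etam_bounds (h : ZD 𝒢 θ) (hs : Seed 𝒢 θ η0) (hκ : 𝒜.Sm κ) : ∃ C, ∀ p, 0 < θ p →
    𝒢.t2 (etam θ η0 κ) p ≤ C * θ p ∧ |𝒢.bb (etam θ η0 κ) θ p| ≤ C * θ p ^ (3 / 2 : ℝ) ∧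
    𝒢.inn (fun q => etam θ η0 κ q / θ q) (fun q => etam θ η0 κ q / θ q) p ≤ C * (θ p)⁻¹ ^ 2 := by
  obtain ⟨C1, hC1⟩ := hs.bd
  obtain ⟨C2, hC2⟩ := h.grad_bound
  obtain ⟨C3, hC3⟩ := b7a_bdd h.sm
  obtain ⟨C4, hC4⟩ := b7a_bdd hκ
  obtain ⟨C5, hC5⟩ := b7a_bdd (𝒢.Sm_t2 hκ)
  obtain ⟨C6, hC6⟩ := b7a_bdd 𝒢.Sm_e2
  obtain ⟨C7, hC7⟩ := b7a_bdd (𝒢.Sm_inn hκ hκ)
  obtain ⟨C8, hC8⟩ := b7a_bdd (𝒢.Sm_inn hs.sm hs.sm)
  obtain ⟨C9, hC9⟩ := b7a_bdd (𝒢.Sm_L hκ)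
  set K : ℝ := 1 + |C1| + |C2| + |C3| + |C4| + |C5| + |C6| + |C7| + |C8| + |C9| with hK
  have n1 := abs_nonneg C1
  have n2 := abs_nonneg C2
  have n3 := abs_nonneg C3
  have n4 := abs_nonneg C4
  have n5 := abs_nonneg C5
  have n6 := abs_nonneg C6
  have n7 := abs_nonneg C7
  have n8 := abs_nonneg C8
  have n9 := abs_nonneg C9
  have k0 : 1 ≤ K := by rw [hK]; linarith
  have k1 : C1 ≤ K := by rw [hK]; linarith [le_abs_self C1]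
  have k2 : C2 ≤ K := by rw [hK]; linarith [le_abs_self C2]
  have k3 : C3 ≤ K := by rw [hK]; linarith [le_abs_self C3]
  have k4 : C4 ≤ K := by rw [hK]; linarith [le_abs_self C4]
  have k5 : C5 ≤ K := by rw [hK]; linarith [le_abs_self C5]
  have k6 : C6 ≤ K := by rw [hK]; linarith [le_abs_self C6]
  have k7 : C7 ≤ K := by rw [hK]; linarith [le_abs_self C7]
  have k8 : C8 ≤ K := by rw [hK]; linarith [le_abs_self C8]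
  have k9 : C9 ≤ K := by rw [hK]; linarith [le_abs_self C9]
  clear_value K
  refine ⟨106 * K ^ 5, fun p hp => ?_⟩
  have hU := b7a_isOpen h
  have hp' : p ∈ {p | 0 < θ p} := hp
  have hψ := b7a_psi h
  have hθ := h.sm.on {p | 0 < θ p}
  have hκ' := hκ.on {p | 0 < θ p}
  have hη0 := hs.sm.on {p | 0 < θ p}
  obtain ⟨b1, b2, b3⟩ := hC1 p
  have b4 := hC2 p
  have b5 := (le_abs_self _).trans (hC3 p)
  have b6 := hC4 p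
  have b7 := (le_abs_self _).trans (hC5 p)
  have b8 := (le_abs_self _).trans (hC6 p)
  have b9 := (le_abs_self _).trans (hC7 p)
  have b10 := (le_abs_self _).trans (hC8 p)
  have b11 := hC9 p
  obtain ⟨s, s0, s1, s2, s3, s4, s5, s6⟩ := b7a_pow hp
  have K0 : 0 < K := by linarith
  have sK : s ^ 2 ≤ K := by rw [← s1]; linarith
  have s20 : 0 < s ^ 2 := by positivity
  have s4K : s ^ 4 ≤ K ^ 2 := by
    calc s ^ 4 = (s ^ 2) ^ 2 := by ring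
      _ ≤ K ^ 2 := pow_le_pow_left₀ s20.le sK 2
  have s6K : s ^ 6 ≤ K ^ 3 := by
    calc s ^ 6 = (s ^ 2) ^ 3 := by ring
      _ ≤ K ^ 3 := pow_le_pow_left₀ s20.le sK 3
  -- powers of `K`
  have p12 : K ≤ K ^ 2 := le_self_pow₀ k0 two_ne_zero
  have p23 : K ^ 2 ≤ K ^ 3 := pow_le_pow_right₀ k0 (by norm_num)
  have p34 : K ^ 3 ≤ K ^ 4 := pow_le_pow_right₀ k0 (by norm_num)
  have p45 : K ^ 4 ≤ K ^ 5 := pow_le_pow_right₀ k0 (by norm_num)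
  -- the basic quantities
  have t2η0 : 𝒢.t2 η0 p ≤ K * s ^ 2 := by
    rw [← s1]; exact b1.trans (mul_le_mul_of_nonneg_right k1 hp.le)
  have bbη0 : |𝒢.bb η0 θ p| ≤ K * s ^ 3 := by
    rw [s4] at b2; exact b2.trans (mul_le_mul_of_nonneg_right k1 (by positivity))
  have η0s : |η0 p| ≤ K * s := by
    rw [s2] at b3; exact b3.trans (mul_le_mul_of_nonneg_right k1 s0.le)
  have iθ : 𝒢.inn θ θ p ≤ K * θ p := b4.trans (mul_le_mul_of_nonneg_right k2 hp.le)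
  have aκ : |κ p| ≤ K := b6.trans k4
  have κ2 : κ p ^ 2 ≤ K ^ 2 := by
    rw [← sq_abs]; exact pow_le_pow_left₀ (abs_nonneg _) aκ 2
  have t2κ : 𝒢.t2 κ p ≤ K := b7.trans k5
  have e2K : 𝒢.e2 p ≤ K := b8.trans k6
  have iκ : 𝒢.inn κ κ p ≤ K := b9.trans k7
  have iη0 : 𝒢.inn η0 η0 p ≤ K := b10.trans k8
  have Lκ : |𝒢.L κ p| ≤ K := b11.trans k9
  have e20 := 𝒢.e2_nonneg p
  have t2κ0 := 𝒢.t2_nonneg κ p
  have iκ0 := 𝒢.inn_self_nonneg κ p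
  have iθ0 := 𝒢.inn_self_nonneg θ p
  -- `ψ = θ^{3/2}`
  set ψ : M → ℝ := fun q => θ q ^ (3 / 2 : ℝ) with hψd
  have ψp : ψ p = s ^ 3 := s4
  have t2ψ : 𝒢.t2 ψ p ≤ 2 * K ^ 3 * s ^ 2 := by
    have h1 := b7a_t2_psi h hp s0 s1 iθ
    have h2 : 𝒢.t2 ψ p ≤ (s ^ 3 / 2 * √(𝒢.e2 p) + 3 / 4 * K * s) ^ 2 := by
      rw [← Real.sq_sqrt (𝒢.t2_nonneg ψ p)]
      exact pow_le_pow_left₀ (Real.sqrt_nonneg _) h1 2
    have h3 : √(𝒢.e2 p) ^ 2 = 𝒢.e2 p := Real.sq_sqrt e20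
    have h4 : (s ^ 3 / 2 * √(𝒢.e2 p) + 3 / 4 * K * s) ^ 2 ≤
        2 * ((s ^ 3 / 2) ^ 2 * 𝒢.e2 p + (3 / 4 * K * s) ^ 2) := by
      have h5 : (s ^ 3 / 2) ^ 2 * 𝒢.e2 p = (s ^ 3 / 2 * √(𝒢.e2 p)) ^ 2 := by
        rw [mul_pow, h3]
      rw [h5]
      exact b7a_sq_add _ _
    have h6 : (s ^ 3 / 2) ^ 2 * 𝒢.e2 p ≤ s ^ 2 * (K ^ 3 / 4) := by
      calc (s ^ 3 / 2) ^ 2 * 𝒢.e2 p = s ^ 2 * (s ^ 4 * 𝒢.e2 p / 4) := by ring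
        _ ≤ s ^ 2 * (K ^ 2 * K / 4) := by
            have := mul_le_mul s4K e2K e20 (by positivity)
            exact mul_le_mul_of_nonneg_left (by linarith) s20.le
        _ = _ := by ring
    have h7 : (3 / 4 * K * s) ^ 2 ≤ s ^ 2 * (9 / 16 * K ^ 3) := by
      calc (3 / 4 * K * s) ^ 2 = s ^ 2 * (9 / 16 * K ^ 2) := by ring
        _ ≤ _ := mul_le_mul_of_nonneg_left (by linarith) s20.le
    have h8 : 0 ≤ s ^ 2 * K ^ 3 := by positivity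
    linarith
  have iψ : 𝒢.inn ψ ψ p ≤ 9 / 4 * K * s ^ 4 := by
    have h1 : 𝒢.inn ψ ψ p = (3 / 2 * θ p ^ (1 / 2 : ℝ)) ^ 2 * 𝒢.inn θ θ p :=
      b7a_inn_comp_self hU hp' hθ (F := fun x : ℝ => x ^ (3 / 2 : ℝ)) (b7a_d1 hp)
    rw [h1, s2]
    calc (3 / 2 * s) ^ 2 * 𝒢.inn θ θ p ≤ (3 / 2 * s) ^ 2 * (K * θ p) :=
          mul_le_mul_of_nonneg_left iθ (by positivity)
      _ = _ := by rw [s1]; ring
  have iψ0 := 𝒢.inn_self_nonneg ψ p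
  have t2κψ : 𝒢.t2 (fun q => κ q * ψ q) p ≤ 52 * K ^ 5 * s ^ 2 := by
    refine (b7a_t2_mul hU hp' hκ' hψ).trans ?_
    change 4 * (κ p ^ 2 * 𝒢.t2 ψ p + ψ p ^ 2 * 𝒢.t2 κ p + (κ p * ψ p) ^ 2 * 𝒢.e2 p +
      4 * (𝒢.inn κ κ p * 𝒢.inn ψ ψ p)) ≤ _
    rw [ψp]
    have h1 : κ p ^ 2 * 𝒢.t2 ψ p ≤ K ^ 2 * (2 * K ^ 3 * s ^ 2) :=
      mul_le_mul κ2 t2ψ (𝒢.t2_nonneg ψ p) (by positivity)
    have h2 : (s ^ 3) ^ 2 * 𝒢.t2 κ p ≤ s ^ 2 * K ^ 3 := by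
      calc (s ^ 3) ^ 2 * 𝒢.t2 κ p = s ^ 2 * (s ^ 4 * 𝒢.t2 κ p) := by ring
        _ ≤ s ^ 2 * (K ^ 2 * K) :=
            mul_le_mul_of_nonneg_left (mul_le_mul s4K t2κ t2κ0 (by positivity)) s20.le
        _ = _ := by ring
    have h3 : (κ p * s ^ 3) ^ 2 * 𝒢.e2 p ≤ s ^ 2 * K ^ 5 := by
      calc (κ p * s ^ 3) ^ 2 * 𝒢.e2 p = s ^ 2 * (κ p ^ 2 * (s ^ 4 * 𝒢.e2 p)) := by ring
        _ ≤ s ^ 2 * (K ^ 2 * (K ^ 2 * K)) :=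
            mul_le_mul_of_nonneg_left (mul_le_mul κ2 (mul_le_mul s4K e2K e20 (by positivity))
              (by positivity) (by positivity)) s20.le
        _ = _ := by ring
    have h4 : 𝒢.inn κ κ p * 𝒢.inn ψ ψ p ≤ s ^ 2 * (9 / 4 * K ^ 3) := by
      calc 𝒢.inn κ κ p * 𝒢.inn ψ ψ p ≤ K * (9 / 4 * K * s ^ 4) :=
            mul_le_mul iκ iψ iψ0 K0.le
        _ = s ^ 2 * (9 / 4 * K ^ 2 * s ^ 2) := by ring
        _ ≤ s ^ 2 * (9 / 4 * K ^ 2 * K) :=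
            mul_le_mul_of_nonneg_left (mul_le_mul_of_nonneg_left sK (by positivity)) s20.le
        _ = _ := by ring
    have h5 : s ^ 2 * K ^ 3 ≤ s ^ 2 * K ^ 5 :=
      mul_le_mul_of_nonneg_left (p34.trans p45) s20.le
    have h6 : K ^ 2 * (2 * K ^ 3 * s ^ 2) = 2 * (s ^ 2 * K ^ 5) := by ring
    have h7 : 52 * K ^ 5 * s ^ 2 = 52 * (s ^ 2 * K ^ 5) := by ring
    rw [h7]
    linarith
  refine ⟨?_, ?_, ?_⟩
  · have h1 : 𝒢.t2 (etam θ η0 κ) p ≤ 2 * (𝒢.t2 η0 p + 𝒢.t2 (fun q => κ q * ψ q) p) :=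
      b7a_t2_add hU hp' hη0 (hκ'.mul hψ)
    have h2 : K * s ^ 2 ≤ K ^ 5 * s ^ 2 :=
      mul_le_mul_of_nonneg_right (by linarith) s20.le
    rw [s1]
    linarith
  · rw [h.bb_etam hs hκ hp, Met.ee, s4, s5, s6]
    have h1 : -(1 / 24) * s ^ 5 * (-24 * (s ^ 5)⁻¹ * 𝒢.bb η0 θ p + 𝒢.L κ p) =
        𝒢.bb η0 θ p + -(s ^ 5 / 24 * 𝒢.L κ p) := by
      have h2 : s ^ 5 * (s ^ 5)⁻¹ = 1 := mul_inv_cancel₀ (by positivity)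
      linear_combination (𝒢.bb η0 θ p) * h2
    rw [h1]
    have h3 : |s ^ 5 / 24 * 𝒢.L κ p| ≤ s ^ 3 * K ^ 2 := by
      rw [abs_mul, abs_of_pos (by positivity : 0 < s ^ 5 / 24)]
      calc s ^ 5 / 24 * |𝒢.L κ p| = s ^ 3 * (s ^ 2 * |𝒢.L κ p| / 24) := by ring
        _ ≤ s ^ 3 * (K * K) := by
            have h4 := mul_le_mul sK Lκ (abs_nonneg _) K0.le
            have h5 : 0 ≤ s ^ 2 * |𝒢.L κ p| := by positivity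
            exact mul_le_mul_of_nonneg_left (by linarith) (by positivity)
        _ = _ := by ring
    have h6 : K * s ^ 3 ≤ s ^ 3 * K ^ 5 := by
      calc K * s ^ 3 = s ^ 3 * K := by ring
        _ ≤ _ := mul_le_mul_of_nonneg_left (by linarith) (by positivity)
    have h7 : s ^ 3 * K ^ 2 ≤ s ^ 3 * K ^ 5 :=
      mul_le_mul_of_nonneg_left (by linarith) (by positivity)
    have h8 : 0 ≤ s ^ 3 * K ^ 5 := by positivity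
    calc |𝒢.bb η0 θ p + -(s ^ 5 / 24 * 𝒢.L κ p)| ≤ |𝒢.bb η0 θ p| + |-(s ^ 5 / 24 * 𝒢.L κ p)| :=
          abs_add_le _ _
      _ ≤ K * s ^ 3 + s ^ 3 * K ^ 2 := by rw [abs_neg]; exact add_le_add bbη0 h3
      _ ≤ _ := by
          have : 106 * K ^ 5 * s ^ 3 = 106 * (s ^ 3 * K ^ 5) := by ring
          rw [this]; linarith
  · have hη : 𝒜.SmOn {p | 0 < θ p} (etam θ η0 κ) := h.etam_smooth hs hκ
    have hinv : 𝒜.SmOn {p | 0 < θ p} (fun q => (θ q)⁻¹) :=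
      Atl.SmOn.comp (F := fun x : ℝ => x⁻¹) (S := Ioi 0)
        (fun x hx => (contDiffAt_inv ℝ (ne_of_gt hx)).contDiffWithinAt) hθ (fun q hq => hq)
    have e1 : (fun q => etam θ η0 κ q / θ q) = fun q => etam θ η0 κ q * (θ q)⁻¹ := by
      funext q; exact div_eq_mul_inv _ _
    rw [e1]
    refine (b7a_inn_mul hU hp' hη hinv).trans ?_
    have i1 : 𝒢.inn (fun q => (θ q)⁻¹) (fun q => (θ q)⁻¹) p ≤ K * s ^ 2 * (s⁻¹ ^ 2) ^ 4 := by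
      have h1 := b7a_inn_comp_self (𝒢 := 𝒢) hU hp' hθ (F := fun x : ℝ => x⁻¹) (hasDerivAt_inv hp.ne')
      rw [h1]
      calc (-(θ p ^ 2)⁻¹) ^ 2 * 𝒢.inn θ θ p ≤ (-(θ p ^ 2)⁻¹) ^ 2 * (K * θ p) :=
            mul_le_mul_of_nonneg_left iθ (by positivity)
        _ = _ := by rw [s1]; field_simp
    have i2 : |etam θ η0 κ p| ≤ 2 * K ^ 2 * s := by
      have h1 : etam θ η0 κ p = η0 p + κ p * ψ p := rfl
      rw [h1, ψp]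
      have h2 : |κ p * s ^ 3| ≤ K ^ 2 * s := by
        rw [abs_mul, abs_of_pos (by positivity : 0 < s ^ 3)]
        calc |κ p| * s ^ 3 = |κ p| * s ^ 2 * s := by ring
          _ ≤ K * K * s := mul_le_mul_of_nonneg_right (mul_le_mul aκ sK s20.le K0.le) s0.le
          _ = _ := by ring
      have h3 : K * s ≤ K ^ 2 * s := mul_le_mul_of_nonneg_right p12 s0.le
      calc |η0 p + κ p * s ^ 3| ≤ |η0 p| + |κ p * s ^ 3| := abs_add_le _ _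
        _ ≤ _ := by linarith
    have i3 : etam θ η0 κ p ^ 2 ≤ 4 * K ^ 4 * s ^ 2 := by
      rw [← sq_abs]
      calc |etam θ η0 κ p| ^ 2 ≤ (2 * K ^ 2 * s) ^ 2 := pow_le_pow_left₀ (abs_nonneg _) i2 2
        _ = _ := by ring
    have i4 : 𝒢.inn (fun q => κ q * ψ q) (fun q => κ q * ψ q) p ≤ 7 * K ^ 5 := by
      refine (b7a_inn_mul hU hp' hκ' hψ).trans ?_
      change 2 * (κ p ^ 2 * 𝒢.inn ψ ψ p + ψ p ^ 2 * 𝒢.inn κ κ p) ≤ _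
      rw [ψp]
      have h1 : κ p ^ 2 * 𝒢.inn ψ ψ p ≤ 9 / 4 * K ^ 5 := by
        calc κ p ^ 2 * 𝒢.inn ψ ψ p ≤ K ^ 2 * (9 / 4 * K * s ^ 4) :=
              mul_le_mul κ2 iψ iψ0 (by positivity)
          _ ≤ K ^ 2 * (9 / 4 * K * K ^ 2) := by gcongr
          _ = _ := by ring
      have h2 : (s ^ 3) ^ 2 * 𝒢.inn κ κ p ≤ K ^ 4 := by
        calc (s ^ 3) ^ 2 * 𝒢.inn κ κ p = s ^ 6 * 𝒢.inn κ κ p := by ring
          _ ≤ K ^ 3 * K := mul_le_mul s6K iκ iκ0 (by positivity)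
          _ = _ := by ring
      linarith
    have i5 : 𝒢.inn (etam θ η0 κ) (etam θ η0 κ) p ≤ 16 * K ^ 5 := by
      have h1 : 𝒢.inn (etam θ η0 κ) (etam θ η0 κ) p ≤
          2 * (𝒢.inn η0 η0 p + 𝒢.inn (fun q => κ q * ψ q) (fun q => κ q * ψ q) p) :=
        b7a_inn_add hU hp' hη0 (hκ'.mul hψ)
      linarith
    have i6 := 𝒢.inn_self_nonneg (fun q => (θ q)⁻¹) p
    have i7 := 𝒢.inn_self_nonneg (etam θ η0 κ) p
    have h1 : etam θ η0 κ p ^ 2 * 𝒢.inn (fun q => (θ q)⁻¹) (fun q => (θ q)⁻¹) p ≤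
        4 * K ^ 5 * (θ p)⁻¹ ^ 2 := by
      calc _ ≤ 4 * K ^ 4 * s ^ 2 * (K * s ^ 2 * (s⁻¹ ^ 2) ^ 4) :=
            mul_le_mul i3 i1 i6 (by positivity)
        _ = _ := by rw [s1]; field_simp
    have h2 : (θ p)⁻¹ ^ 2 * 𝒢.inn (etam θ η0 κ) (etam θ η0 κ) p ≤ 16 * K ^ 5 * (θ p)⁻¹ ^ 2 := by
      rw [mul_comm]
      exact mul_le_mul_of_nonneg_right i5 (by positivity)
    have h3 : 0 ≤ K ^ 5 * (θ p)⁻¹ ^ 2 := by positivity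
    have h4 : 106 * K ^ 5 * (θ p)⁻¹ ^ 2 = 106 * (K ^ 5 * (θ p)⁻¹ ^ 2) := by ring
    rw [h4]
    linarith

end YR
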