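import Pool.Agent.Rig71.B7a

/-!
# B7b : `∫ θ⁻¹ |T(η_m)|² → 0` for `η_m = η₀ + κ_m θ^{3/2}`
-/

open scoped ContDiff Topology
open MeasureTheory Metric Set Filter

noncomputable section

namespace YR

theorem b7b_st_deriv_zero {x : ℝ} (hx : x < 0 ∨ 1 < x) : deriv Real.smoothTransition x = 0 := by
  rcases hx with hx | hx
  · have h1 : Real.smoothTransition =ᶠ[𝓝 x] fun _ => (0 : ℝ) := by
      filter_upwards [Iio_mem_nhds hx] with y hy
      exact Real.smoothTransition.zero_of_nonpos (le_of_lt hy)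
    rw [h1.deriv_eq]
    simp
  · have h1 : Real.smoothTransition =ᶠ[𝓝 x] fun _ => (1 : ℝ) := by
      filter_upwards [Ioi_mem_nhds hx] with y hy
      exact Real.smoothTransition.one_of_one_le (le_of_lt hy)
    rw [h1.deriv_eq]
    simp

theorem b7b_st_bound : ∃ K : ℝ, 0 ≤ K ∧ ∀ x, |deriv Real.smoothTransition x| ≤ K := by
  have hc : Continuous (deriv Real.smoothTransition) :=
    (Real.smoothTransition.contDiff (n := 1)).continuous_deriv le_rfl
  obtain ⟨K, hK⟩ := (isCompact_Icc (a := (0 : ℝ)) (b := 1)).exists_bound_of_continuousOn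
    hc.continuousOn
  refine ⟨K, (norm_nonneg _).trans (hK 0 (by simp)), fun x => ?_⟩
  by_cases hx : x ∈ Icc (0 : ℝ) 1
  · exact hK x hx
  · have : x < 0 ∨ 1 < x := by
      simp only [mem_Icc, not_and_or, not_le] at hx
      exact hx
    rw [b7b_st_deriv_zero this, abs_zero]
    exact (norm_nonneg _).trans (hK 0 (by simp))

variable {M : Type*} [TopologicalSpace M] [T2Space M] [CompactSpace M] [ConnectedSpace M]
  {𝒜 : Atl M} {𝒢 : Met 𝒜} {θ η0 κ : M → ℝ}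

omit [T2Space M] [CompactSpace M] [ConnectedSpace M] in
theorem b7b_isOpen (h : ZD 𝒢 θ) : IsOpen {p | 0 < θ p} :=
  isOpen_lt continuous_const h.sm.continuous

omit [T2Space M] [CompactSpace M] [ConnectedSpace M] in
theorem b7b_qcut_sm (h : ZD 𝒢 θ) (m : ℝ) : 𝒜.Sm (qcut θ m) := by
  have h1 : ContDiffOn ℝ ∞ (fun t : ℝ => Real.smoothTransition (m * t - 1)) univ := by
    apply ContDiff.contDiffOn
    exact Real.smoothTransition.contDiff.comp ((contDiff_const.mul contDiff_id).sub contDiff_const)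
  exact Atl.Sm.comp (F := fun t : ℝ => Real.smoothTransition (m * t - 1)) h1 h.sm
    (fun p => mem_univ _)

omit [T2Space M] [CompactSpace M] [ConnectedSpace M] in
theorem b7b_qcut_inn (h : ZD 𝒢 θ) (m : ℝ) (p : M) :
    𝒢.inn (qcut θ m) (qcut θ m) p =
      (deriv Real.smoothTransition (m * θ p - 1) * m) ^ 2 * 𝒢.inn θ θ p := by
  have hd : HasDerivAt (fun t : ℝ => Real.smoothTransition (m * t - 1))
      (deriv Real.smoothTransition (m * θ p - 1) * m) (θ p) := by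
    have h1 : HasDerivAt (fun t : ℝ => m * t - 1) m (θ p) := by
      simpa using ((hasDerivAt_id (θ p)).const_mul m).sub_const 1
    have h2 : HasDerivAt Real.smoothTransition (deriv Real.smoothTransition (m * θ p - 1))
        (m * θ p - 1) :=
      ((Real.smoothTransition.contDiff (n := 1)).differentiable (by norm_num)).differentiableAt.hasDerivAt
    exact h2.comp (θ p) h1
  have h1 : ∀ f : M → ℝ, 𝒢.inn (qcut θ m) f p =
      (deriv Real.smoothTransition (m * θ p - 1) * m) * 𝒢.inn θ f p := fun f => by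
    have h3 := 𝒢.inn_comp (f := f) (F := fun t : ℝ => Real.smoothTransition (m * t - 1))
      isOpen_univ (mem_univ p) (h.sm.on univ) hd
    exact h3
  rw [h1, 𝒢.inn_symm, h1]
  ring

theorem b7b_pow52 {t : ℝ} (ht : 0 < t) : t ^ (5 / 2 : ℝ) = t ^ 2 * √t := by
  rw [Real.sqrt_eq_rpow, ← Real.rpow_natCast, ← Real.rpow_add ht]
  norm_num

theorem b7b_pow32 {t : ℝ} (ht : 0 < t) : t ^ (3 / 2 : ℝ) = t * √t := by
  rw [Real.sqrt_eq_rpow]
  nth_rw 2 [← Real.rpow_one t]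
  rw [← Real.rpow_add ht]
  norm_num

variable [MeasurableSpace M] [BorelSpace M]

theorem ZD.t2_int (h : ZD 𝒢 θ) (hs : Seed 𝒢 θ η0) (hκ : 𝒜.Sm κ) :
    IntegrableOn (fun p => (θ p)⁻¹ * 𝒢.t2 (etam θ η0 κ) p) {p | 0 < θ p} 𝒢.vol ∧
    ∫ p in {p | 0 < θ p}, (θ p)⁻¹ * 𝒢.t2 (etam θ η0 κ) p ∂𝒢.vol =
      1 / 96 * ∫ p in {p | 0 < θ p}, θ p ^ 2 * (𝒢.ee θ η0 p + 𝒢.L κ p) ^ 2 ∂𝒢.vol := by
  have hU : IsOpen {p | 0 < θ p} := b7b_isOpen h
  have hUm : MeasurableSet {p | 0 < θ p} := hU.measurableSet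
  have hη := h.etam_smooth hs hκ
  set η : M → ℝ := etam θ η0 κ with hηdef
  obtain ⟨C', hC'⟩ := h.etam_bounds hs hκ
  obtain ⟨C1', hC1'⟩ := h.grad_bound
  obtain ⟨C2, hC2⟩ := h.vol_small
  obtain ⟨K, hK0, hK⟩ := b7b_st_bound
  -- nonnegative constants
  obtain ⟨C, hC0, hC⟩ : ∃ C : ℝ, 0 ≤ C ∧ ∀ p, 0 < θ p →
      𝒢.t2 η p ≤ C * θ p ∧ |𝒢.bb η θ p| ≤ C * θ p ^ (3 / 2 : ℝ) ∧
      𝒢.inn (fun q => η q / θ q) (fun q => η q / θ q) p ≤ C * (θ p)⁻¹ ^ 2 := by
    refine ⟨|C'|, abs_nonneg _, fun p hp => ?_⟩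
    obtain ⟨a, b, c⟩ := hC' p hp
    refine ⟨a.trans ?_, b.trans ?_, c.trans ?_⟩
    · exact mul_le_mul_of_nonneg_right (le_abs_self _) hp.le
    · exact mul_le_mul_of_nonneg_right (le_abs_self _) (Real.rpow_nonneg hp.le _)
    · exact mul_le_mul_of_nonneg_right (le_abs_self _) (by positivity)
  obtain ⟨C1, hC10, hC1⟩ : ∃ C1 : ℝ, 0 ≤ C1 ∧ ∀ p, 𝒢.inn θ θ p ≤ C1 * θ p :=
    ⟨|C1'|, abs_nonneg _, fun p => (hC1' p).trans
      (mul_le_mul_of_nonneg_right (le_abs_self _) (h.nn p))⟩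
  -- the two integrands
  set X : M → ℝ := fun p => (θ p)⁻¹ * 𝒢.t2 η p with hX
  set Y : M → ℝ := fun p => 6 * (θ p)⁻¹ ^ 3 * 𝒢.bb η θ p ^ 2 with hY
  have hθc : ContinuousOn θ {p | 0 < θ p} := h.sm.continuous.continuousOn
  have hθi : ContinuousOn (fun p => (θ p)⁻¹) {p | 0 < θ p} :=
    hθc.inv₀ fun p hp => (ne_of_gt hp)
  have hXc : ContinuousOn X {p | 0 < θ p} :=
    hθi.mul ((𝒢.SmOn_t2 hU hη).continuousOn hU)
  have hYc : ContinuousOn Y {p | 0 < θ p} := by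
    refine ContinuousOn.mul (ContinuousOn.mul continuousOn_const (hθi.pow 3)) ?_
    exact ((𝒢.SmOn_bb hU hη (h.sm.on _)).continuousOn hU).pow 2
  have hXb : ∀ p, 0 < θ p → |X p| ≤ C := by
    intro p hp
    rw [hX, abs_of_nonneg (mul_nonneg (inv_nonneg.2 hp.le) (𝒢.t2_nonneg _ _))]
    calc (θ p)⁻¹ * 𝒢.t2 η p ≤ (θ p)⁻¹ * (C * θ p) :=
          mul_le_mul_of_nonneg_left (hC p hp).1 (inv_nonneg.2 hp.le)
      _ = C := by field_simp
  have hYb : ∀ p, 0 < θ p → |Y p| ≤ 6 * C ^ 2 := by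
    intro p hp
    have h1 : 𝒢.bb η θ p ^ 2 ≤ (C * θ p ^ (3 / 2 : ℝ)) ^ 2 := by
      rw [← sq_abs]
      exact pow_le_pow_left₀ (abs_nonneg _) (hC p hp).2.1 2
    rw [hY, abs_of_nonneg (by positivity)]
    calc 6 * (θ p)⁻¹ ^ 3 * 𝒢.bb η θ p ^ 2 ≤ 6 * (θ p)⁻¹ ^ 3 * (C * θ p ^ (3 / 2 : ℝ)) ^ 2 :=
          mul_le_mul_of_nonneg_left h1 (by positivity)
      _ = 6 * C ^ 2 := by
          rw [b7b_pow32 hp, mul_pow, mul_pow, Real.sq_sqrt hp.le]
          field_simp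
  have hXm : AEStronglyMeasurable X (𝒢.vol.restrict {p | 0 < θ p}) :=
    hXc.aestronglyMeasurable hUm
  have hYm : AEStronglyMeasurable Y (𝒢.vol.restrict {p | 0 < θ p}) :=
    hYc.aestronglyMeasurable hUm
  have hXi : IntegrableOn X {p | 0 < θ p} 𝒢.vol := by
    refine Integrable.of_bound hXm C ?_
    filter_upwards [ae_restrict_mem hUm] with p hp
    exact hXb p hp
  refine ⟨hXi, ?_⟩
  -- limits of the two cut off integrals
  have hφ1 : ∀ (m : ℝ) (p : M), |qcut θ m p| ≤ 1 := fun m p => by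
    unfold qcut
    rw [abs_of_nonneg (Real.smoothTransition.nonneg _)]
    exact Real.smoothTransition.le_one _
  have hφlim : ∀ p, 0 < θ p → Tendsto (fun n : ℕ => qcut θ (n : ℝ) p) atTop (𝓝 1) := by
    intro p hp
    apply tendsto_const_nhds.congr'
    filter_upwards [eventually_ge_atTop ⌈2 / θ p⌉₊] with n hn
    have h1 : 2 / θ p ≤ n := (Nat.le_ceil _).trans (by exact_mod_cast hn)
    rw [div_le_iff₀ hp] at h1
    exact (Real.smoothTransition.one_of_one_le (by linarith)).symm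
  have hlim : ∀ Z : M → ℝ, AEStronglyMeasurable Z (𝒢.vol.restrict {p | 0 < θ p}) →
      ∀ D : ℝ, (∀ p, 0 < θ p → |Z p| ≤ D) →
      Tendsto (fun n : ℕ => ∫ p, qcut θ (n : ℝ) p * Z p ∂𝒢.vol) atTop
        (𝓝 (∫ p in {p | 0 < θ p}, Z p ∂𝒢.vol)) := by
    intro Z hZm D hZb
    have h1 : ∀ n : ℕ, ∫ p, qcut θ (n : ℝ) p * Z p ∂𝒢.vol =
        ∫ p in {p | 0 < θ p}, qcut θ (n : ℝ) p * Z p ∂𝒢.vol := by
      intro n
      symm
      apply setIntegral_eq_integral_of_forall_compl_eq_zero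
      intro p hp
      have h2 : θ p = 0 := le_antisymm (not_lt.1 hp) (h.nn p)
      have h3 : qcut θ (n : ℝ) p = 0 := by
        unfold qcut
        rw [h2]
        exact Real.smoothTransition.zero_of_nonpos (by norm_num)
      rw [h3, zero_mul]
    simp_rw [h1]
    refine tendsto_integral_of_dominated_convergence (fun _ => D) (fun n => ?_)
      (integrable_const D) (fun n => ?_) ?_
    · exact ((b7b_qcut_sm h n).continuous.aestronglyMeasurable).mul hZm
    · filter_upwards [ae_restrict_mem hUm] with p hp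
      rw [norm_mul]
      calc ‖qcut θ (n : ℝ) p‖ * ‖Z p‖ ≤ 1 * D :=
            mul_le_mul (hφ1 _ _) (hZb p hp) (norm_nonneg _) zero_le_one
        _ = D := one_mul D
    · filter_upwards [ae_restrict_mem hUm] with p hp
      simpa using (hφlim p hp).mul_const (Z p)
  have hXl := hlim X hXm C hXb
  have hYl := hlim Y hYm _ hYb
  -- the error
  set A : ℝ := K * √C1 * √C * (5 * C + √C) with hA
  have hA0 : 0 ≤ A := by positivity
  have herr : ∀ n : ℕ, 2 ≤ n →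
      |∫ p, qcut θ (n : ℝ) p * X p ∂𝒢.vol - ∫ p, qcut θ (n : ℝ) p * Y p ∂𝒢.vol| ≤
        A * C2 * 2 ^ (5 / 4 : ℝ) * (n : ℝ) ^ (-(1 / 4) : ℝ) := by
    intro n hn
    have hn0 : (0 : ℝ) < n := by
      have : 0 < n := by omega
      exact_mod_cast this
    have hn2 : (2 : ℝ) ≤ n := by exact_mod_cast hn
    have hJ := h.J (η := η) (φ := qcut θ (n : ℝ)) hη (b7b_qcut_sm h n) (s := 1 / n)
      (by positivity) (fun p hp => by
        unfold qcut
        apply Real.smoothTransition.zero_of_nonpos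
        have := mul_le_mul_of_nonneg_left hp hn0.le
        rw [mul_one_div_cancel hn0.ne'] at this
        linarith)
    refine hJ.trans ?_
    have hbd : ∀ p, (θ p)⁻¹ * √(𝒢.inn (qcut θ (n : ℝ)) (qcut θ (n : ℝ)) p) *
        √(𝒢.inn (fun q => η q / θ q) (fun q => η q / θ q) p) *
          (5 * |𝒢.bb η θ p| + θ p * √(𝒢.t2 η p)) ≤
        ({p | θ p ≤ 2 / n} : Set M).indicator (fun _ => A * n) p := by
      intro p
      by_cases hp2 : θ p ≤ 2 / n
      · rw [indicator_of_mem (show p ∈ {p | θ p ≤ 2 / n} from hp2)]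
        rcases (h.nn p).eq_or_lt with hp | hp
        · rw [← hp, inv_zero, zero_mul, zero_mul, zero_mul]
          positivity
        obtain ⟨ht, hb, hi⟩ := hC p hp
        have e1 : √(𝒢.inn (qcut θ (n : ℝ)) (qcut θ (n : ℝ)) p) ≤ K * n * (√C1 * √(θ p)) := by
          rw [b7b_qcut_inn h, Real.sqrt_mul (sq_nonneg _), Real.sqrt_sq_eq_abs, abs_mul,
            abs_of_pos hn0, ← Real.sqrt_mul hC10]
          exact mul_le_mul (mul_le_mul_of_nonneg_right (hK _) hn0.le)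
            (Real.sqrt_le_sqrt (hC1 p)) (Real.sqrt_nonneg _) (by positivity)
        have e2 : √(𝒢.inn (fun q => η q / θ q) (fun q => η q / θ q) p) ≤ √C * (θ p)⁻¹ := by
          calc _ ≤ √(C * (θ p)⁻¹ ^ 2) := Real.sqrt_le_sqrt hi
            _ = √C * (θ p)⁻¹ := by
              rw [Real.sqrt_mul hC0, Real.sqrt_sq (inv_nonneg.2 hp.le)]
        have e3 : 5 * |𝒢.bb η θ p| + θ p * √(𝒢.t2 η p) ≤ (5 * C + √C) * (θ p * √(θ p)) := by
          have e4 : √(𝒢.t2 η p) ≤ √C * √(θ p) := by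
            rw [← Real.sqrt_mul hC0]
            exact Real.sqrt_le_sqrt ht
          rw [b7b_pow32 hp] at hb
          have e5 : θ p * √(𝒢.t2 η p) ≤ θ p * (√C * √(θ p)) :=
            mul_le_mul_of_nonneg_left e4 hp.le
          nlinarith [hb, e5]
        have e6 : (θ p)⁻¹ * √(𝒢.inn (qcut θ (n : ℝ)) (qcut θ (n : ℝ)) p) *
            √(𝒢.inn (fun q => η q / θ q) (fun q => η q / θ q) p) ≤
            (θ p)⁻¹ * (K * n * (√C1 * √(θ p))) * (√C * (θ p)⁻¹) := by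
          refine mul_le_mul (mul_le_mul_of_nonneg_left e1 (inv_nonneg.2 hp.le)) e2
            (Real.sqrt_nonneg _) ?_
          have := inv_nonneg.2 hp.le
          positivity
        calc _ ≤ (θ p)⁻¹ * (K * n * (√C1 * √(θ p))) * (√C * (θ p)⁻¹) *
              ((5 * C + √C) * (θ p * √(θ p))) := by
                refine mul_le_mul e6 e3 ?_ ?_
                · have := mul_nonneg hp.le (Real.sqrt_nonneg (𝒢.t2 η p))
                  positivity
                · have := inv_nonneg.2 hp.le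
                  positivity
          _ = A * n * ((θ p)⁻¹ * (θ p)⁻¹ * θ p * (√(θ p) * √(θ p))) := by
                rw [hA]; ring
          _ = A * n := by
                rw [Real.mul_self_sqrt hp.le]
                field_simp
      · rw [indicator_of_notMem (show p ∉ {p | θ p ≤ 2 / n} from hp2)]
        have h1 : deriv Real.smoothTransition (n * θ p - 1) = 0 := by
          apply b7b_st_deriv_zero
          right
          rw [not_le, div_lt_iff₀ hn0] at hp2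
          linarith
        rw [b7b_qcut_inn h, h1]
        simp
    have hms : MeasurableSet {p | θ p ≤ 2 / (n : ℝ)} :=
      (isClosed_le h.sm.continuous continuous_const).measurableSet
    calc _ ≤ ∫ p, ({p | θ p ≤ 2 / n} : Set M).indicator (fun _ => A * n) p ∂𝒢.vol := by
          refine integral_mono_of_nonneg (ae_of_all _ fun p => ?_) ?_ (ae_of_all _ hbd)
          · have h1 := h.nn p
            have h2 := inv_nonneg.2 (h.nn p)
            simp only [Pi.zero_apply]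
            positivity
          · exact (integrable_const _).indicator hms
      _ = 𝒢.vol.real {p | θ p ≤ 2 / (n : ℝ)} * (A * n) := by
          rw [integral_indicator hms, setIntegral_const, smul_eq_mul]
      _ ≤ (C2 * (2 / n) ^ (5 / 4 : ℝ)) * (A * n) :=
          mul_le_mul_of_nonneg_right (hC2 _ (by positivity) ((div_le_one hn0).2 hn2))
            (by positivity)
      _ = A * C2 * 2 ^ (5 / 4 : ℝ) * (n : ℝ) ^ (-(1 / 4) : ℝ) := by
          rw [Real.div_rpow (by norm_num) hn0.le]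
          have h1 : (n : ℝ) ^ (-(1 / 4) : ℝ) = n / n ^ (5 / 4 : ℝ) := by
            nth_rw 2 [← Real.rpow_one (n : ℝ)]
            rw [← Real.rpow_sub hn0]
            norm_num
          rw [h1]
          ring
  have hlim0 : Tendsto (fun n : ℕ => A * C2 * 2 ^ (5 / 4 : ℝ) * (n : ℝ) ^ (-(1 / 4) : ℝ)) atTop
      (𝓝 0) := by
    have h1 : Tendsto (fun n : ℕ => (n : ℝ) ^ (-(1 / 4) : ℝ)) atTop (𝓝 0) :=
      (tendsto_rpow_neg_atTop (by norm_num : (0 : ℝ) < 1 / 4)).comp tendsto_natCast_atTop_atTop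
    simpa using h1.const_mul (A * C2 * 2 ^ (5 / 4 : ℝ))
  have hXY : ∫ p in {p | 0 < θ p}, X p ∂𝒢.vol = ∫ p in {p | 0 < θ p}, Y p ∂𝒢.vol := by
    have h1 := (hXl.sub hYl).abs
    have h2 : Tendsto (fun n : ℕ => |∫ p, qcut θ (n : ℝ) p * X p ∂𝒢.vol -
        ∫ p, qcut θ (n : ℝ) p * Y p ∂𝒢.vol|) atTop (𝓝 0) := by
      refine tendsto_of_tendsto_of_tendsto_of_le_of_le' tendsto_const_nhds hlim0
        (Eventually.of_forall fun n => abs_nonneg _) ?_
      filter_upwards [eventually_ge_atTop 2] with n hn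
      exact herr n hn
    have h3 := tendsto_nhds_unique h1 h2
    exact sub_eq_zero.1 (abs_eq_zero.1 h3)
  rw [hXY, ← integral_const_mul]
  refine setIntegral_congr_fun hUm fun p hp => ?_
  have hp' : 0 < θ p := hp
  show 6 * (θ p)⁻¹ ^ 3 * 𝒢.bb η θ p ^ 2 = 1 / 96 * (θ p ^ 2 * (𝒢.ee θ η0 p + 𝒢.L κ p) ^ 2)
  rw [hηdef, h.bb_etam hs hκ hp', b7b_pow52 hp']
  have h1 : √(θ p) ^ 2 = θ p := Real.sq_sqrt hp'.le
  field_simp
  rw [h1]
  ring

theorem ZD.t2_small (h : ZD 𝒢 θ) (hs : Seed 𝒢 θ η0) {κ : ℕ → M → ℝ} {κ' : M → ℝ} {C : ℝ}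
    (hk : Kap 𝒢 θ η0 κ κ' C) :
    Tendsto (fun m => ∫ p in {p | 0 < θ p}, (θ p)⁻¹ * 𝒢.t2 (etam θ η0 (κ m)) p ∂𝒢.vol)
      atTop (𝓝 0) := by
  have hU : IsOpen {p | 0 < θ p} := b7b_isOpen h
  have hUm : MeasurableSet {p | 0 < θ p} := hU.measurableSet
  have h1 : ∀ m, ∫ p in {p | 0 < θ p}, (θ p)⁻¹ * 𝒢.t2 (etam θ η0 (κ m)) p ∂𝒢.vol =
      1 / 96 * ∫ p in {p | 0 < θ p}, θ p ^ 2 * (𝒢.ee θ η0 p + 𝒢.L (κ m) p) ^ 2 ∂𝒢.vol :=
    fun m => (h.t2_int hs (hk.sm m)).2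
  simp_rw [h1]
  -- bounds
  obtain ⟨C1', hC1'⟩ := hs.bd
  obtain ⟨C1, hC10, hC1⟩ : ∃ C1 : ℝ, 0 ≤ C1 ∧ ∀ p, 0 < θ p → θ p * |𝒢.ee θ η0 p| ≤ C1 := by
    refine ⟨24 * |C1'|, by positivity, fun p hp => ?_⟩
    have h2 : |𝒢.bb η0 θ p| ≤ |C1'| * θ p ^ (3 / 2 : ℝ) :=
      (hC1' p).2.1.trans (mul_le_mul_of_nonneg_right (le_abs_self _) (Real.rpow_nonneg hp.le _))
    unfold Met.ee
    rw [abs_mul, abs_mul, abs_of_nonneg (Real.rpow_nonneg hp.le _)]
    have h3 : |(-24 : ℝ)| = 24 := by norm_num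
    rw [h3]
    calc θ p * (24 * θ p ^ (-(5 / 2) : ℝ) * |𝒢.bb η0 θ p|) ≤
        θ p * (24 * θ p ^ (-(5 / 2) : ℝ) * (|C1'| * θ p ^ (3 / 2 : ℝ))) := by
          gcongr
      _ = 24 * |C1'| * (θ p ^ (1 : ℝ) * θ p ^ (-(5 / 2) : ℝ) * θ p ^ (3 / 2 : ℝ)) := by
          rw [Real.rpow_one]; ring
      _ = 24 * |C1'| := by
          rw [← Real.rpow_add hp, ← Real.rpow_add hp]
          norm_num
  obtain ⟨B, hB⟩ : ∃ B : ℝ, ∀ p, θ p ≤ B := by
    obtain ⟨B, hB⟩ := (isCompact_univ (X := M)).exists_bound_of_continuousOn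
      h.sm.continuous.continuousOn
    exact ⟨B, fun p => (le_abs_self _).trans (hB p (mem_univ p))⟩
  have hkey : ∀ (m : ℕ) (p : M), 0 < θ p → |θ p * (𝒢.ee θ η0 p + 𝒢.L (κ m) p)| ≤
      (1 - qcut θ (m + 1) p) * C1 + B * (1 / (m + 1)) := by
    intro m p hp
    have e1 := hk.eq m p
    have e2 : qcut θ (m + 1) p ≤ 1 := Real.smoothTransition.le_one _
    have e3 : θ p * (𝒢.ee θ η0 p + 𝒢.L (κ m) p) =
        (1 - qcut θ (m + 1) p) * (θ p * 𝒢.ee θ η0 p) +
          θ p * (𝒢.L (κ m) p + qcut θ (m + 1) p * 𝒢.ee θ η0 p) := by ring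
    rw [e3]
    refine (abs_add_le _ _).trans (add_le_add ?_ ?_)
    · rw [abs_mul, abs_of_nonneg (by linarith : 0 ≤ 1 - qcut θ (m + 1) p), abs_mul,
        abs_of_pos hp]
      exact mul_le_mul_of_nonneg_left (hC1 p hp) (by linarith)
    · rw [abs_mul, abs_of_pos hp]
      exact mul_le_mul (hB p) e1 (abs_nonneg _) (hp.le.trans (hB p))
  have hz : (0 : ℝ) = 1 / 96 * ∫ p in {p | 0 < θ p}, (0 : ℝ) ∂𝒢.vol := by simp
  suffices hgoal : Tendsto (fun m : ℕ => 1 / 96 * ∫ p in {p | 0 < θ p},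
      θ p ^ 2 * (𝒢.ee θ η0 p + 𝒢.L (κ m) p) ^ 2 ∂𝒢.vol) atTop
      (𝓝 (1 / 96 * ∫ p in {p | 0 < θ p}, (0 : ℝ) ∂𝒢.vol)) by
    rw [← hz] at hgoal
    exact hgoal
  refine Tendsto.const_mul _ ?_
  refine tendsto_integral_of_dominated_convergence
    (μ := 𝒢.vol.restrict {p | 0 < θ p})
    (F := fun (m : ℕ) (p : M) => θ p ^ 2 * (𝒢.ee θ η0 p + 𝒢.L (κ m) p) ^ 2)
    (fun _ => (C1 + B) ^ 2) (fun m => ?_)
    (integrable_const _) (fun m => ?_) ?_
  · -- measurability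
    have hηs := h.etam_smooth hs (hk.sm m)
    have hθi : ContinuousOn (fun p => (θ p)⁻¹) {p | 0 < θ p} :=
      h.sm.continuous.continuousOn.inv₀ fun p hp => (ne_of_gt hp)
    have hYc : ContinuousOn (fun p => 576 * (θ p)⁻¹ ^ 3 * 𝒢.bb (etam θ η0 (κ m)) θ p ^ 2)
        {p | 0 < θ p} := by
      refine ContinuousOn.mul (ContinuousOn.mul continuousOn_const (hθi.pow 3)) ?_
      exact ((𝒢.SmOn_bb hU hηs (h.sm.on _)).continuousOn hU).pow 2
    have hY2 : ContinuousOn (fun p => θ p ^ 2 * (𝒢.ee θ η0 p + 𝒢.L (κ m) p) ^ 2)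
        {p | 0 < θ p} := by
      refine hYc.congr fun p hp => ?_
      have hp' : 0 < θ p := hp
      show θ p ^ 2 * (𝒢.ee θ η0 p + 𝒢.L (κ m) p) ^ 2 =
        576 * (θ p)⁻¹ ^ 3 * 𝒢.bb (etam θ η0 (κ m)) θ p ^ 2
      rw [h.bb_etam hs (hk.sm m) hp', b7b_pow52 hp']
      have h1 : √(θ p) ^ 2 = θ p := Real.sq_sqrt hp'.le
      field_simp
      rw [h1]
      ring
    exact hY2.aestronglyMeasurable hUm
  · filter_upwards [ae_restrict_mem hUm] with p hp
    have hp' : 0 < θ p := hp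
    have e1 := hkey m p hp'
    have e2 : 0 ≤ qcut θ (m + 1) p := Real.smoothTransition.nonneg _
    have e3 : (1 : ℝ) / (m + 1) ≤ 1 := by
      rw [div_le_one (by positivity)]
      have : (0 : ℝ) ≤ m := Nat.cast_nonneg m
      linarith
    have hB0 : 0 ≤ B := hp'.le.trans (hB p)
    have e4 : |θ p * (𝒢.ee θ η0 p + 𝒢.L (κ m) p)| ≤ C1 + B := by
      refine e1.trans (add_le_add ?_ ?_)
      · nlinarith
      · nlinarith
    rw [Real.norm_eq_abs, ← mul_pow, abs_pow]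
    exact pow_le_pow_left₀ (abs_nonneg _) e4 2
  · filter_upwards [ae_restrict_mem hUm] with p hp
    have hp' : 0 < θ p := hp
    have h2 : Tendsto (fun m : ℕ => |θ p * (𝒢.ee θ η0 p + 𝒢.L (κ m) p)|) atTop (𝓝 0) := by
      refine tendsto_of_tendsto_of_tendsto_of_le_of_le' tendsto_const_nhds
        (h := fun m : ℕ => B * (1 / ((m : ℝ) + 1))) ?_ (Eventually.of_forall fun n => abs_nonneg _)
        ?_
      · simpa using (tendsto_one_div_add_atTop_nhds_zero_nat (𝕜 := ℝ)).const_mul B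
      · filter_upwards [eventually_ge_atTop ⌈2 / θ p⌉₊] with m hm
        have h3 : 2 / θ p ≤ m := (Nat.le_ceil _).trans (by exact_mod_cast hm)
        rw [div_le_iff₀ hp'] at h3
        have h4 : qcut θ (m + 1) p = 1 := by
          unfold qcut
          apply Real.smoothTransition.one_of_one_le
          nlinarith
        have h5 := hkey m p hp'
        rw [h4, sub_self, zero_mul, zero_add] at h5
        exact h5
    have h3 := h2.pow 2
    have h4 : (fun m : ℕ => θ p ^ 2 * (𝒢.ee θ η0 p + 𝒢.L (κ m) p) ^ 2) =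
        fun m : ℕ => |θ p * (𝒢.ee θ η0 p + 𝒢.L (κ m) p)| ^ 2 := by
      funext m
      rw [sq_abs, mul_pow]
    show Tendsto (fun m : ℕ => θ p ^ 2 * (𝒢.ee θ η0 p + 𝒢.L (κ m) p) ^ 2) atTop (𝓝 0)
    rw [h4]
    simpa using h3

end YR
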