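import Pool.Agent.Rig71.Loc7

/-! Divergences. `hG : LM U G` throughout. -/

open scoped ContDiff Topology
open MeasureTheory Metric Set Filter

noncomputable section

namespace YR

section

variable {U : Set E} {G : E → Mat} (hG : LM U G) {u v w f : E → ℝ} {x : E}

theorem loc8_diff {f : E → ℝ} {U : Set E} (hU : IsOpen U) (hf : ContDiffOn ℝ ∞ f U)
    {x : E} (hx : x ∈ U) : DifferentiableAt ℝ f x :=
  ((hf x hx).contDiffAt (hU.mem_nhds hx)).differentiableAt (by simp)

theorem loc8_sum_add (P Q : Fin 3 → Fin 3 → ℝ) :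
    ∑ a, ∑ b, (P a b + Q a b) = ∑ a, ∑ b, P a b + ∑ a, ∑ b, Q a b := by
  simp only [Finset.sum_add_distrib]

include hG

/-- divergence of a raised covector -/
theorem loc8_div_cov {om : Fin 3 → E → ℝ} (hom : ∀ b, DifferentiableAt ℝ (om b) x) (hx : x ∈ U) :
    ∑ a, pd a (fun y => √(G y).det * ∑ b, gi G y a b * om b y) x =
      √(G x).det * ∑ a, ∑ b, gi G x a b * (pd a (om b) x - ∑ k, chr G k a b x * om k x) := by
  have hgi : ∀ a b, DifferentiableAt ℝ (fun y => gi G y a b) x := fun a b =>
    loc8_diff hG.op (gi_smooth hG a b) hx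
  have hsq : DifferentiableAt ℝ (fun y => √(G y).det) x :=
    (loc8_diff hG.op (det_smooth hG) hx).sqrt (det_pos hG hx).ne'
  have h1 : ∀ a, pd a (fun y => √(G y).det * ∑ b, gi G y a b * om b y) x =
      √(G x).det * (∑ k, chr G k k a x * ∑ b, gi G x a b * om b x) + √(G x).det *
        ∑ b, ((-∑ k, (chr G a a k x * gi G x k b + chr G b a k x * gi G x a k)) * om b x +
          gi G x a b * pd a (om b) x) := by
    intro a
    rw [pd_mul hsq (DifferentiableAt.fun_sum fun b _ => (hgi a b).fun_mul (hom b)),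
      pd_sqrt_det hG hx, pd_sum fun b _ => (hgi a b).fun_mul (hom b)]
    have h2 : ∀ b, pd a (fun y => gi G y a b * om b y) x =
        (-∑ k, (chr G a a k x * gi G x k b + chr G b a k x * gi G x a k)) * om b x +
          gi G x a b * pd a (om b) x := by
      intro b
      rw [pd_mul (hgi a b) (hom b), pd_gi hG hx]
    simp only [h2]
    rw [mul_assoc, Finset.sum_mul]
  simp only [h1]
  rw [Finset.sum_add_distrib, ← Finset.mul_sum, ← Finset.mul_sum, ← mul_add]
  congr 1
  have hs : ∀ k a b, chr G k a b x = chr G k b a x := fun k a b => chr_symm hG hx k a b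
  have hg : ∀ a b, gi G x a b = gi G x b a := fun a b => gi_symm hG hx a b
  have e1 : ∀ a, ∑ b, ((-∑ k, (chr G a a k x * gi G x k b + chr G b a k x * gi G x a k)) * om b x +
      gi G x a b * pd a (om b) x) = - (∑ k, chr G a a k x * ∑ b, gi G x k b * om b x) -
        ∑ k, gi G x a k * (∑ b, chr G b a k x * om b x) + ∑ b, gi G x a b * pd a (om b) x := by
    intro a
    simp only [Fin.sum_univ_three]
    ring
  simp only [e1]
  rw [Finset.sum_add_distrib, Finset.sum_sub_distrib, Finset.sum_neg_distrib]
  have e2 : ∑ a, ∑ k, chr G k k a x * ∑ b, gi G x a b * om b x =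
      ∑ a, ∑ k, chr G a a k x * ∑ b, gi G x k b * om b x := Finset.sum_comm
  rw [e2]
  have e3 : ∑ a, ∑ b, gi G x a b * (pd a (om b) x - ∑ k, chr G k a b x * om k x) =
      ∑ a, ∑ b, gi G x a b * pd a (om b) x -
        ∑ a, ∑ k, gi G x a k * (∑ b, chr G b a k x * om b x) := by
    rw [← Finset.sum_sub_distrib]
    refine Finset.sum_congr rfl fun a _ => ?_
    rw [← Finset.sum_sub_distrib]
    exact Finset.sum_congr rfl fun b _ => by ring
  rw [e3]
  ring

/-- derivative of the gradient -/
theorem loc8_pd_grad (hf : ContDiffOn ℝ ∞ f U) (hx : x ∈ U) (a c : Fin 3) :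
    pd a (grad G f c) x = ∑ d, gi G x c d * hess G f a d x - ∑ k, chr G c a k x * grad G f k x := by
  have hgi : ∀ a b, DifferentiableAt ℝ (fun y => gi G y a b) x := fun a b =>
    loc8_diff hG.op (gi_smooth hG a b) hx
  have hp : ∀ b, DifferentiableAt ℝ (pd b f) x := fun b => loc8_diff hG.op (pd_smooth hG.op hf) hx
  have h0 : grad G f c = fun y => ∑ d, gi G y c d * pd d f y := rfl
  rw [h0, pd_sum fun d _ => (hgi c d).fun_mul (hp d)]
  have h2 : ∀ d, pd a (fun y => gi G y c d * pd d f y) x =
      (-∑ k, (chr G c a k x * gi G x k d + chr G d a k x * gi G x c k)) * pd d f x +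
        gi G x c d * pd a (pd d f) x := by
    intro d
    rw [pd_mul (hgi c d) (hp d), pd_gi hG hx]
  simp only [h2, grad, hess, Fin.sum_univ_three]
  ring

/-- divergence of a tensor applied to a gradient -/
theorem loc8_div_ten {h : Fin 3 → Fin 3 → E → ℝ} (hh : ∀ a b, DifferentiableAt ℝ (h a b) x)
    (hf : ContDiffOn ℝ ∞ f U) (hx : x ∈ U) :
    ∑ a, pd a (fun y => √(G y).det * ∑ b, ∑ c, gi G y a b * (h b c y * grad G f c y)) x =
      √(G x).det * (∑ b, (∑ a, ∑ c, gi G x a c * (pd c (h a b) x -
        ∑ k, (chr G k c a x * h k b x + chr G k c b x * h a k x))) * grad G f b x +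
        ip G (fun a b => h a b x) (fun a b => hess G f a b x) x) := by
  have hgr : ∀ c, DifferentiableAt ℝ (grad G f c) x := by
    intro c
    have h0 : grad G f c = fun y => ∑ d, gi G y c d * pd d f y := rfl
    rw [h0]
    exact DifferentiableAt.fun_sum fun d _ => (loc8_diff hG.op (gi_smooth hG c d) hx).fun_mul
      (loc8_diff hG.op (pd_smooth hG.op hf) hx)
  have hom : ∀ b, DifferentiableAt ℝ (fun y => ∑ c, h b c y * grad G f c y) x := fun b =>
    DifferentiableAt.fun_sum fun c _ => (hh b c).fun_mul (hgr c)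
  have h1 := loc8_div_cov hG (om := fun b y => ∑ c, h b c y * grad G f c y) hom hx
  have h2 : ∀ a, (fun y => √(G y).det * ∑ b, ∑ c, gi G y a b * (h b c y * grad G f c y)) =
      fun y => √(G y).det * ∑ b, gi G y a b * ∑ c, h b c y * grad G f c y := by
    intro a
    funext y
    congr 1
    exact Finset.sum_congr rfl fun b _ => by rw [Finset.mul_sum]
  simp only [h2]
  rw [h1]
  congr 1
  have h3 : ∀ a b, pd a (fun y => ∑ c, h b c y * grad G f c y) x =
      ∑ c, (pd a (h b c) x * grad G f c x + h b c x *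
        (∑ d, gi G x c d * hess G f a d x - ∑ k, chr G c a k x * grad G f k x)) := by
    intro a b
    rw [pd_sum fun c _ => (hh b c).fun_mul (hgr c)]
    refine Finset.sum_congr rfl fun c _ => ?_
    rw [pd_mul (hh b c) (hgr c), loc8_pd_grad hG hf hx]
  simp only [h3]
  have e1 : ∀ a b, gi G x a b * (∑ c, (pd a (h b c) x * grad G f c x + h b c x *
        (∑ d, gi G x c d * hess G f a d x - ∑ k, chr G c a k x * grad G f k x)) -
        ∑ k, chr G k a b x * ∑ c, h k c x * grad G f c x) =
      ∑ e, gi G x a b * (pd a (h b e) x -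
        ∑ k, (chr G k a b x * h k e x + chr G k a e x * h b k x)) * grad G f e x +
      ∑ c, ∑ d, gi G x a b * gi G x c d * h b c x * hess G f a d x := by
    intro a b
    simp only [Fin.sum_univ_three]
    ring
  simp only [e1]
  rw [loc8_sum_add]
  congr 1
  · rw [Finset.sum_comm]
    simp only [Finset.sum_mul]
    have e4 : ∀ b, ∑ a, ∑ e, gi G x a b * (pd a (h b e) x -
        ∑ k, (chr G k a b x * h k e x + chr G k a e x * h b k x)) * grad G f e x =
        ∑ e, ∑ a, gi G x a b * (pd a (h b e) x -
        ∑ k, (chr G k a b x * h k e x + chr G k a e x * h b k x)) * grad G f e x :=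
      fun b => Finset.sum_comm
    simp only [e4]
    rw [Finset.sum_comm]
    refine Finset.sum_congr rfl fun e _ => Finset.sum_congr rfl fun b _ =>
      Finset.sum_congr rfl fun a _ => ?_
    rw [gi_symm hG hx a b]
  · unfold ip
    rw [Finset.sum_comm]
    refine Finset.sum_congr rfl fun b _ => ?_
    rw [Finset.sum_comm]
    refine Finset.sum_congr rfl fun c _ => Finset.sum_congr rfl fun a _ =>
      Finset.sum_congr rfl fun d _ => ?_
    rw [gi_symm hG hx a b]

/-! ### LOC8 : divergences -/

/-- divergence of a gradient -/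
theorem div_grad (hu : ContDiffOn ℝ ∞ u U) (hx : x ∈ U) :
    ∑ a, pd a (fun y => √(G y).det * grad G u a y) x = √(G x).det * lap G u x := by
  have h := loc8_div_cov hG (om := fun b => pd b u)
    (fun b => loc8_diff hG.op (pd_smooth hG.op hu) hx) hx
  exact h

/-- divergence of `v Hess u (∇f)`: with `div_hess` -/
theorem div_hess_grad (hu : ContDiffOn ℝ ∞ u U) (hf : ContDiffOn ℝ ∞ f U) (hx : x ∈ U) :
    ∑ a, pd a (fun y => √(G y).det * ∑ b, ∑ c, gi G y a b * (hess G u b c y * grad G f c y)) x =
      √(G x).det * (inn G (lap G u) f x + ev G (fun a b => ric G a b x) u f x +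
        ip G (fun a b => hess G u a b x) (fun a b => hess G f a b x) x) := by
  rw [loc8_div_ten hG (h := fun a b => hess G u a b)
    (fun a b => loc8_diff hG.op (hess_smooth hG hu a b) hx) hf hx]
  congr 2
  have hD := fun b => div_hess hG hu hx b
  simp only [hD, add_mul]
  rw [Finset.sum_add_distrib]
  congr 1
  · rw [inn_symm hG hx, inn_eq_grad hG hx]
    exact Finset.sum_congr rfl fun b _ => mul_comm _ _
  · unfold ev
    rw [Finset.sum_comm]
    exact Finset.sum_congr rfl fun b _ => by rw [Finset.sum_mul]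

/-- divergence of `Ric⁰(∇f)` -/
theorem div_ric0_grad (hf : ContDiffOn ℝ ∞ f U) (hx : x ∈ U) :
    ∑ a, pd a (fun y => √(G y).det * ∑ b, ∑ c, gi G y a b * (ric0 G b c y * grad G f c y)) x =
      √(G x).det * (inn G (scal G) f x / 6 +
        ip G (fun a b => ric0 G a b x) (fun a b => hess G f a b x) x) := by
  rw [loc8_div_ten hG (h := fun a b => ric0 G a b)
    (fun a b => loc8_diff hG.op (ric0_smooth hG a b) hx) hf hx]
  congr 2
  have hs : DifferentiableAt ℝ (fun y => scal G y / 3) x := by
    have h4 : (fun y => scal G y / 3) = fun y => (1/3 : ℝ) * scal G y := by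
      funext y; ring
    rw [h4]
    exact (loc8_diff hG.op (scal_smooth hG) hx).const_mul _
  have hGd : ∀ a b, DifferentiableAt ℝ (fun y => G y a b) x := fun a b =>
    loc8_diff hG.op (hG.smooth a b) hx
  have hr : ∀ a b, DifferentiableAt ℝ (ric G a b) x := fun a b =>
    loc8_diff hG.op (ric_smooth hG a b) hx
  have hpd : ∀ c a b, pd c (ric0 G a b) x = pd c (ric G a b) x - (pd c (scal G) x / 3 * G x a b +
      scal G x / 3 * ∑ k, (chr G k c a x * G x k b + chr G k c b x * G x a k)) := by
    intro c a b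
    have h0 : ric0 G a b = fun y => ric G a b y - scal G y / 3 * G y a b := rfl
    rw [h0, pd_sub (hr a b) (hs.fun_mul (hGd a b)), pd_mul hs (hGd a b), pd_G hG hx]
    have h3 : pd c (fun y => scal G y / 3) x = pd c (scal G) x / 3 := by
      have h4 : (fun y => scal G y / 3) = fun y => (1/3 : ℝ) * scal G y := by
        funext y; ring
      rw [h4, pd_mul (differentiableAt_const _) (loc8_diff hG.op (scal_smooth hG) hx), pd_const]
      ring
    rw [h3]
  have key : ∀ b, ∑ a, ∑ c, gi G x a c * (pd c (ric0 G a b) x -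
        ∑ k, (chr G k c a x * ric0 G k b x + chr G k c b x * ric0 G a k x)) =
      pd b (scal G) x / 6 := by
    intro b
    have e1 : ∀ a c, gi G x a c * (pd c (ric0 G a b) x -
        ∑ k, (chr G k c a x * ric0 G k b x + chr G k c b x * ric0 G a k x)) =
        gi G x a c * (pd c (ric G a b) x -
        ∑ k, (chr G k c a x * ric G k b x + chr G k c b x * ric G a k x)) -
        (gi G x c a * G x a b) * (pd c (scal G) x / 3) := by
      intro a c
      rw [hpd, gi_symm hG hx c a]
      simp only [ric0, Fin.sum_univ_three]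
      ring
    simp only [e1, Finset.sum_sub_distrib]
    rw [bianchi hG hx b, Finset.sum_comm]
    have e2 : ∀ c, ∑ a, gi G x c a * G x a b * (pd c (scal G) x / 3) =
        (if c = b then 1 else 0) * (pd c (scal G) x / 3) := by
      intro c
      rw [← gi_mul hG hx c b, Finset.sum_mul]
    simp only [e2]
    simp
    ring
  simp only [key]
  rw [inn_symm hG hx, inn_eq_grad hG hx, Finset.sum_div]
  exact Finset.sum_congr rfl fun b _ => by ring

end

end YR
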