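import Pool.Agent.Rig71.Defs

/-! Partial derivatives, smoothness, symmetries. `hG : LM U G` throughout. -/

open scoped ContDiff Topology
open MeasureTheory Metric Set Filter

noncomputable section

namespace YR

/-! ### LOC0 : partial derivatives -/

theorem pd_congr {a : Fin 3} {f g : E → ℝ} {x : E} (h : f =ᶠ[𝓝 x] g) : pd a f x = pd a g x := by
  unfold pd
  rw [h.fderiv_eq]

theorem pd_add {a : Fin 3} {f g : E → ℝ} {x : E} (hf : DifferentiableAt ℝ f x)
    (hg : DifferentiableAt ℝ g x) : pd a (fun y => f y + g y) x = pd a f x + pd a g x := by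
  unfold pd
  rw [fderiv_fun_add hf hg]
  rfl

theorem pd_sub {a : Fin 3} {f g : E → ℝ} {x : E} (hf : DifferentiableAt ℝ f x)
    (hg : DifferentiableAt ℝ g x) : pd a (fun y => f y - g y) x = pd a f x - pd a g x := by
  unfold pd
  rw [fderiv_fun_sub hf hg]
  rfl

theorem pd_neg {a : Fin 3} {f : E → ℝ} {x : E} : pd a (fun y => -f y) x = -pd a f x := by
  unfold pd
  rw [fderiv_fun_neg]
  rfl

theorem pd_mul {a : Fin 3} {f g : E → ℝ} {x : E} (hf : DifferentiableAt ℝ f x)
    (hg : DifferentiableAt ℝ g x) :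
    pd a (fun y => f y * g y) x = pd a f x * g x + f x * pd a g x := by
  unfold pd
  rw [fderiv_fun_mul hf hg]
  simp only [_root_.add_apply, _root_.smul_apply, smul_eq_mul]
  ring

theorem pd_const {a : Fin 3} {c : ℝ} {x : E} : pd a (fun _ => c) x = 0 := by
  unfold pd
  simp

theorem pd_sum {ι : Type*} {s : Finset ι} {a : Fin 3} {f : ι → E → ℝ} {x : E}
    (hf : ∀ i ∈ s, DifferentiableAt ℝ (f i) x) :
    pd a (fun y => ∑ i ∈ s, f i y) x = ∑ i ∈ s, pd a (f i) x := by
  unfold pd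
  rw [fderiv_fun_sum hf]
  simp

theorem pd_comp {a : Fin 3} {F : ℝ → ℝ} {F' : ℝ} {f : E → ℝ} {x : E}
    (hF : HasDerivAt F F' (f x)) (hf : DifferentiableAt ℝ f x) :
    pd a (fun y => F (f y)) x = F' * pd a f x := by
  unfold pd
  have h := hF.comp_hasFDerivAt x hf.hasFDerivAt
  have h2 : fderiv ℝ (fun y => F (f y)) x = F' • fderiv ℝ f x := h.fderiv
  rw [h2]
  simp

/-- smooth functions are differentiable -/
theorem loc0_diff {f : E → ℝ} {U : Set E} (hU : IsOpen U) (hf : ContDiffOn ℝ ∞ f U)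
    {x : E} (hx : x ∈ U) : DifferentiableAt ℝ f x :=
  ((hf x hx).contDiffAt (hU.mem_nhds hx)).differentiableAt (by simp)

theorem pd_smooth {a : Fin 3} {f : E → ℝ} {U : Set E} (hU : IsOpen U)
    (hf : ContDiffOn ℝ ∞ f U) : ContDiffOn ℝ ∞ (pd a f) U := by
  have h := hf.fderiv_of_isOpen (m := ∞) hU (by simp)
  exact h.clm_apply contDiffOn_const

/-- second derivatives commute -/
theorem pd_comm {a b : Fin 3} {f : E → ℝ} {U : Set E} (hU : IsOpen U) (hf : ContDiffOn ℝ ∞ f U)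
    {x : E} (hx : x ∈ U) : pd a (pd b f) x = pd b (pd a f) x := by
  have hfx : ContDiffAt ℝ ∞ f x := (hf x hx).contDiffAt (hU.mem_nhds hx)
  have hs : IsSymmSndFDerivAt ℝ f x :=
    hfx.isSymmSndFDerivAt (by
      rw [minSmoothness_of_isRCLikeNormedField]
      exact WithTop.coe_le_coe.2 le_top)
  have hd : DifferentiableAt ℝ (fderiv ℝ f) x := by
    have h1 : ContDiffAt ℝ ∞ (fderiv ℝ f) x := hfx.fderiv_right (m := ∞) (by simp)
    exact h1.differentiableAt (by simp)
  have key : ∀ a b : Fin 3, pd a (pd b f) x = fderiv ℝ (fderiv ℝ f) x (be a) (be b) := by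
    intro a b
    unfold pd
    rw [fderiv_clm_apply hd (differentiableAt_const _)]
    simp
  rw [key, key]
  exact hs _ _

theorem fderiv_eq_sum {f : E → ℝ} {x : E} (v : E) :
    fderiv ℝ f x v = ∑ a, v a * pd a f x := by
  have h : v = ∑ a, v a • be a := by
    ext i
    simp [be, Fin.sum_univ_three]
    fin_cases i <;> simp
  conv_lhs => rw [h]
  rw [map_sum]
  refine Finset.sum_congr rfl fun a _ => ?_
  rw [map_smul]
  rfl

theorem LM.mono {U V : Set E} {G : E → Mat} (hG : LM U G) (hV : IsOpen V) (h : V ⊆ U) :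
    LM V G where
  op := hV
  smooth a b := (hG.smooth a b).mono h
  symm x hx := hG.symm x (h hx)
  pos x hx := hG.pos x (h hx)

/-! ### dependence on germs only -/

theorem pd_congr_ev {a : Fin 3} {f g : E → ℝ} {x : E} (h : f =ᶠ[𝓝 x] g) :
    pd a f =ᶠ[𝓝 x] pd a g := by
  filter_upwards [h.eventually_nhds] with y hy
  exact pd_congr hy

theorem chr_congr {G H : E → Mat} {x : E} (h : G =ᶠ[𝓝 x] H) (k a b : Fin 3) :
    chr G k a b =ᶠ[𝓝 x] chr H k a b := by
  filter_upwards [h.eventually_nhds] with y hy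
  have e : ∀ a b : Fin 3, (fun y => G y a b) =ᶠ[𝓝 y] fun y => H y a b := fun a b => by
    filter_upwards [hy] with z hz
    rw [hz]
  have hyx : G y = H y := EventuallyEq.eq_of_nhds hy
  simp only [chr, gi, hyx]
  congr 1
  refine Finset.sum_congr rfl fun l _ => ?_
  rw [pd_congr (e l b), pd_congr (e l a), pd_congr (e a b)]

theorem hess_congr {G H : E → Mat} {u v : E → ℝ} {x : E} (h : G =ᶠ[𝓝 x] H) (hu : u =ᶠ[𝓝 x] v)
    (a b : Fin 3) : hess G u a b =ᶠ[𝓝 x] hess H v a b := by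
  filter_upwards [h.eventually_nhds, hu.eventually_nhds] with y hy huy
  unfold hess
  rw [pd_congr (pd_congr_ev huy)]
  congr 1
  refine Finset.sum_congr rfl fun k _ => ?_
  rw [(chr_congr hy k a b).eq_of_nhds, pd_congr huy]

theorem ric_congr {G H : E → Mat} {x : E} (h : G =ᶠ[𝓝 x] H) (a b : Fin 3) :
    ric G a b =ᶠ[𝓝 x] ric H a b := by
  filter_upwards [h.eventually_nhds] with y hy
  unfold ric
  refine Finset.sum_congr rfl fun k _ => ?_
  rw [pd_congr (chr_congr hy k a b), pd_congr (chr_congr hy k a k)]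
  congr 1
  refine Finset.sum_congr rfl fun l _ => ?_
  rw [(chr_congr hy k k l).eq_of_nhds, (chr_congr hy l a b).eq_of_nhds,
    (chr_congr hy k b l).eq_of_nhds, (chr_congr hy l a k).eq_of_nhds]

theorem loc0_gi_congr {G H : E → Mat} {x : E} (h : G =ᶠ[𝓝 x] H) (a b : Fin 3) :
    (fun y => gi G y a b) =ᶠ[𝓝 x] fun y => gi H y a b := by
  filter_upwards [h] with y hy
  simp only [gi, hy]

theorem loc0_tr_congr {G H : E → Mat} {h k : Fin 3 → Fin 3 → E → ℝ} {x : E} (hGH : G =ᶠ[𝓝 x] H)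
    (hk : ∀ a b, h a b =ᶠ[𝓝 x] k a b) :
    (fun y => tr G (fun a b => h a b y) y) =ᶠ[𝓝 x] fun y => tr H (fun a b => k a b y) y := by
  have h1 : ∀ᶠ y in 𝓝 x, ∀ a b, h a b y = k a b y := by
    rw [eventually_all]
    intro a
    rw [eventually_all]
    exact fun b => hk a b
  filter_upwards [h1, hGH] with y hy hy2
  simp only [tr, gi, hy, hy2]

theorem loc0_ip_congr {G H : E → Mat} {h k h' k' : Fin 3 → Fin 3 → E → ℝ} {x : E}
    (hGH : G =ᶠ[𝓝 x] H) (hh : ∀ a b, h a b =ᶠ[𝓝 x] h' a b) (hk : ∀ a b, k a b =ᶠ[𝓝 x] k' a b) :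
    (fun y => ip G (fun a b => h a b y) (fun a b => k a b y) y) =ᶠ[𝓝 x]
      fun y => ip H (fun a b => h' a b y) (fun a b => k' a b y) y := by
  have h1 : ∀ᶠ y in 𝓝 x, ∀ a b, h a b y = h' a b y := by
    rw [eventually_all]
    intro a
    rw [eventually_all]
    exact fun b => hh a b
  have h2 : ∀ᶠ y in 𝓝 x, ∀ a b, k a b y = k' a b y := by
    rw [eventually_all]
    intro a
    rw [eventually_all]
    exact fun b => hk a b
  filter_upwards [h1, h2, hGH] with y hy hy2 hy3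
  simp only [ip, gi, hy, hy2, hy3]

theorem scal_congr {G H : E → Mat} {x : E} (h : G =ᶠ[𝓝 x] H) : scal G =ᶠ[𝓝 x] scal H :=
  loc0_tr_congr h (ric_congr h)

theorem sig2_congr {G H : E → Mat} {x : E} (h : G =ᶠ[𝓝 x] H) : sig2 G =ᶠ[𝓝 x] sig2 H := by
  filter_upwards [loc0_ip_congr h (ric_congr h) (ric_congr h), scal_congr h] with y hy hy2
  unfold sig2
  rw [hy, hy2]

theorem inn_congr {G H : E → Mat} {u v u' v' : E → ℝ} {x : E} (h : G =ᶠ[𝓝 x] H)
    (hu : u =ᶠ[𝓝 x] u') (hv : v =ᶠ[𝓝 x] v') : inn G u v =ᶠ[𝓝 x] inn H u' v' := by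
  filter_upwards [h, hu.eventually_nhds, hv.eventually_nhds] with y hy huy hvy
  simp only [inn, gi, hy, pd_congr huy, pd_congr hvy]

theorem lap_congr {G H : E → Mat} {u v : E → ℝ} {x : E} (h : G =ᶠ[𝓝 x] H) (hu : u =ᶠ[𝓝 x] v) :
    lap G u =ᶠ[𝓝 x] lap H v :=
  loc0_tr_congr h (hess_congr h hu)

theorem loc0_rho_congr {G H : E → Mat} {u v : E → ℝ} {x : E} (h : G =ᶠ[𝓝 x] H)
    (hu : u =ᶠ[𝓝 x] v) : rho G u =ᶠ[𝓝 x] rho H v := by
  filter_upwards [h, hu, lap_congr h hu, scal_congr h] with y h1 h2 h3 h4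
  unfold rho
  rw [h2, h3, h4]

theorem TT_congr {G H : E → Mat} {u v : E → ℝ} {x : E} (h : G =ᶠ[𝓝 x] H) (hu : u =ᶠ[𝓝 x] v)
    (a b : Fin 3) : TT G u a b =ᶠ[𝓝 x] TT H v a b := by
  filter_upwards [h, hu, hess_congr h hu a b, scal_congr h, ric_congr h a b,
    loc0_rho_congr h hu] with y h1 h2 h3 h4 h5 h6
  unfold TT sch
  rw [h1, h2, h3, h4, h5, h6]

section

variable {U : Set E} {G : E → Mat} (hG : LM U G) {u v w f : E → ℝ} {x : E}

include hG

/-! ### LOC1 : smoothness and symmetries -/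

theorem det_pos (hx : x ∈ U) : 0 < (G x).det := (hG.pos x hx).det_pos

theorem det_smooth : ContDiffOn ℝ ∞ (fun x => (G x).det) U := by
  have h := hG.smooth
  simp only [Matrix.det_fin_three]
  exact ((((((h 0 0).mul (h 1 1)).mul (h 2 2)).sub (((h 0 0).mul (h 1 2)).mul (h 2 1))).sub
    (((h 0 1).mul (h 1 0)).mul (h 2 2))).add (((h 0 1).mul (h 1 2)).mul (h 2 0))).add
    (((h 0 2).mul (h 1 0)).mul (h 2 1)) |>.sub (((h 0 2).mul (h 1 1)).mul (h 2 0))

theorem loc0_isUnit (hx : x ∈ U) : IsUnit (G x).det := (det_pos hG hx).ne'.isUnit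

theorem gi_symm (hx : x ∈ U) (a b : Fin 3) : gi G x a b = gi G x b a := by
  have h1 : (G x).transpose = G x := by
    ext i j
    exact hG.symm x hx j i
  have h2 : (gi G x).transpose = gi G x := by
    unfold gi
    rw [Matrix.transpose_nonsing_inv, h1]
  conv_lhs => rw [← h2]
  rfl

theorem gi_mul (hx : x ∈ U) (a b : Fin 3) :
    ∑ c, gi G x a c * G x c b = if a = b then 1 else 0 := by
  have h := Matrix.nonsing_inv_mul (G x) (loc0_isUnit hG hx)
  have h2 := congrFun (congrFun h a) b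
  rw [Matrix.mul_apply, Matrix.one_apply] at h2
  exact h2

theorem mul_gi (hx : x ∈ U) (a b : Fin 3) :
    ∑ c, G x a c * gi G x c b = if a = b then 1 else 0 := by
  have h := Matrix.mul_nonsing_inv (G x) (loc0_isUnit hG hx)
  have h2 := congrFun (congrFun h a) b
  rw [Matrix.mul_apply, Matrix.one_apply] at h2
  exact h2

theorem gi_smooth (a b : Fin 3) : ContDiffOn ℝ ∞ (fun x => gi G x a b) U := by
  have h := hG.smooth
  have hd := (det_smooth hG).inv fun x hx => (det_pos hG hx).ne'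
  have e : ∀ x, gi G x a b = ((G x).det)⁻¹ * (G x).adjugate a b := by
    intro x
    simp [gi, Matrix.inv_def, Ring.inverse_eq_inv']
  simp only [e]
  refine hd.mul ?_
  simp only [Matrix.adjugate_fin_three]
  fin_cases a <;> fin_cases b <;> simp <;>
    first
      | exact ((h _ _).mul (h _ _)).sub ((h _ _).mul (h _ _))
      | exact (((h _ _).mul (h _ _)).neg).add ((h _ _).mul (h _ _))

theorem loc0_pdG_smooth (c a b : Fin 3) : ContDiffOn ℝ ∞ (pd c fun y => G y a b) U :=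
  pd_smooth hG.op (hG.smooth a b)

theorem chr_symm (hx : x ∈ U) (k a b : Fin 3) : chr G k a b x = chr G k b a x := by
  unfold chr
  congr 1
  refine Finset.sum_congr rfl fun l _ => ?_
  have e : pd l (fun y => G y a b) x = pd l (fun y => G y b a) x := by
    refine pd_congr ?_
    filter_upwards [hG.op.mem_nhds hx] with y hy
    exact hG.symm y hy a b
  rw [e]
  ring

theorem chr_smooth (k a b : Fin 3) : ContDiffOn ℝ ∞ (chr G k a b) U := by
  unfold chr
  refine contDiffOn_const.mul (ContDiffOn.sum fun l _ => ?_)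
  exact (gi_smooth hG k l).mul (((loc0_pdG_smooth hG a l b).add (loc0_pdG_smooth hG b l a)).sub
    (loc0_pdG_smooth hG l a b))

theorem ric_smooth (a b : Fin 3) : ContDiffOn ℝ ∞ (ric G a b) U := by
  unfold ric
  refine ContDiffOn.sum fun k _ => ?_
  refine ((pd_smooth hG.op (chr_smooth hG k a b)).sub
    (pd_smooth hG.op (chr_smooth hG k a k))).add (ContDiffOn.sum fun l _ => ?_)
  exact ((chr_smooth hG k k l).mul (chr_smooth hG l a b)).sub
    ((chr_smooth hG k b l).mul (chr_smooth hG l a k))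

theorem loc0_tr_smooth {h : Fin 3 → Fin 3 → E → ℝ} (hh : ∀ a b, ContDiffOn ℝ ∞ (h a b) U) :
    ContDiffOn ℝ ∞ (fun x => tr G (fun a b => h a b x) x) U := by
  unfold tr
  exact ContDiffOn.sum fun a _ => ContDiffOn.sum fun b _ => (gi_smooth hG a b).mul (hh a b)

theorem ip_smooth {h k : Fin 3 → Fin 3 → E → ℝ} (hh : ∀ a b, ContDiffOn ℝ ∞ (h a b) U)
    (hk : ∀ a b, ContDiffOn ℝ ∞ (k a b) U) :
    ContDiffOn ℝ ∞ (fun x => ip G (fun a b => h a b x) (fun a b => k a b x) x) U := by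
  unfold ip
  exact ContDiffOn.sum fun a _ => ContDiffOn.sum fun b _ => ContDiffOn.sum fun c _ =>
    ContDiffOn.sum fun d _ =>
      (((gi_smooth hG a c).mul (gi_smooth hG b d)).mul (hh a b)).mul (hk c d)

theorem scal_smooth : ContDiffOn ℝ ∞ (scal G) U := loc0_tr_smooth hG (ric_smooth hG)

theorem sig2_smooth : ContDiffOn ℝ ∞ (sig2 G) U := by
  unfold sig2
  exact (((ip_smooth hG (ric_smooth hG) (ric_smooth hG)).neg).add
    (contDiffOn_const.mul ((scal_smooth hG).pow 2))).div_const 2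

theorem hess_smooth (hu : ContDiffOn ℝ ∞ u U) (a b : Fin 3) :
    ContDiffOn ℝ ∞ (hess G u a b) U := by
  unfold hess
  exact (pd_smooth hG.op (pd_smooth hG.op hu)).sub
    (ContDiffOn.sum fun k _ => (chr_smooth hG k a b).mul (pd_smooth hG.op hu))

theorem hess_symm (hu : ContDiffOn ℝ ∞ u U) (hx : x ∈ U) (a b : Fin 3) :
    hess G u a b x = hess G u b a x := by
  unfold hess
  rw [pd_comm hG.op hu hx]
  congr 1
  exact Finset.sum_congr rfl fun k _ => by rw [chr_symm hG hx]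

theorem inn_smooth (hu : ContDiffOn ℝ ∞ u U) (hv : ContDiffOn ℝ ∞ v U) :
    ContDiffOn ℝ ∞ (inn G u v) U := by
  unfold inn
  exact ContDiffOn.sum fun a _ => ContDiffOn.sum fun b _ =>
    ((gi_smooth hG a b).mul (pd_smooth hG.op hu)).mul (pd_smooth hG.op hv)

theorem lap_smooth (hu : ContDiffOn ℝ ∞ u U) : ContDiffOn ℝ ∞ (lap G u) U :=
  loc0_tr_smooth hG (hess_smooth hG hu)

theorem loc0_grad_smooth (hu : ContDiffOn ℝ ∞ u U) (a : Fin 3) :
    ContDiffOn ℝ ∞ (grad G u a) U := by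
  unfold grad
  exact ContDiffOn.sum fun b _ => (gi_smooth hG a b).mul (pd_smooth hG.op hu)

theorem ev_smooth {h : Fin 3 → Fin 3 → E → ℝ} (hh : ∀ a b, ContDiffOn ℝ ∞ (h a b) U)
    (hu : ContDiffOn ℝ ∞ u U) (hv : ContDiffOn ℝ ∞ v U) :
    ContDiffOn ℝ ∞ (fun x => ev G (fun a b => h a b x) u v x) U := by
  unfold ev
  exact ContDiffOn.sum fun a _ => ContDiffOn.sum fun b _ =>
    ((hh a b).mul (loc0_grad_smooth hG hu a)).mul (loc0_grad_smooth hG hv b)

theorem rho_smooth (hu : ContDiffOn ℝ ∞ u U) : ContDiffOn ℝ ∞ (rho G u) U := by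
  unfold rho
  exact ((lap_smooth hG hu).add (((scal_smooth hG).div_const 4).mul hu)).div_const 3

theorem loc0_sch_smooth (a b : Fin 3) : ContDiffOn ℝ ∞ (sch G a b) U := by
  unfold sch
  exact (ric_smooth hG a b).sub (((scal_smooth hG).div_const 4).mul (hG.smooth a b))

theorem TT_smooth (hu : ContDiffOn ℝ ∞ u U) (a b : Fin 3) : ContDiffOn ℝ ∞ (TT G u a b) U := by
  unfold TT
  exact ((hess_smooth hG hu a b).add (hu.mul (loc0_sch_smooth hG a b))).sub
    ((rho_smooth hG hu).mul (hG.smooth a b))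

theorem qq_smooth (hu : ContDiffOn ℝ ∞ u U) (a b : Fin 3) : ContDiffOn ℝ ∞ (qq G u a b) U := by
  unfold qq
  exact ((hess_smooth hG hu a b).sub
    (((pd_smooth hG.op hu).mul (pd_smooth hG.op hu)).div_const 2)).sub
    ((((lap_smooth hG hu).sub ((inn_smooth hG hu hu).div_const 2)).div_const 3).mul
      (hG.smooth a b))

theorem ric0_smooth (a b : Fin 3) : ContDiffOn ℝ ∞ (ric0 G a b) U := by
  unfold ric0
  exact (ric_smooth hG a b).sub (((scal_smooth hG).div_const 3).mul (hG.smooth a b))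

end

end YR
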