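import Pool.Agent.Rig71.DefsA

/-! MP_71b0e8_gt, module Weak1: a weak limit with gradient in L4 is continuous (helper52). -/

open scoped ContDiff Topology Convolution
open MeasureTheory Metric Set Filter

noncomputable section

namespace YR

/-! one dimensional profiles -/

/-- smooth step from `0` (for `t ≤ -1`) to `1` (for `t ≥ 1`) -/
def weak1_A (t : ℝ) : ℝ := Real.smoothTransition ((t + 1) / 2)

def weak1_a (t : ℝ) : ℝ := deriv weak1_A t

def weak1_b (t : ℝ) : ℝ := 2 * weak1_a (2 * t)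

def weak1_c (t : ℝ) : ℝ := weak1_A t - weak1_A (2 * t)

theorem weak1_A_smooth : ContDiff ℝ ∞ weak1_A := by
  unfold weak1_A
  exact Real.smoothTransition.contDiff.comp (by fun_prop)

theorem weak1_A_zero {t : ℝ} (h : t ≤ -1) : weak1_A t = 0 := by
  unfold weak1_A
  exact Real.smoothTransition.zero_of_nonpos (by linarith)

theorem weak1_A_one {t : ℝ} (h : 1 ≤ t) : weak1_A t = 1 := by
  unfold weak1_A
  exact Real.smoothTransition.one_of_one_le (by linarith)

theorem weak1_A_hasDerivAt (t : ℝ) : HasDerivAt weak1_A (weak1_a t) t :=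
  (weak1_A_smooth.differentiable (by simp) t).hasDerivAt

theorem weak1_a_smooth : ContDiff ℝ ∞ weak1_a := by
  have h := weak1_A_smooth
  rw [contDiff_infty_iff_deriv] at h
  exact h.2

theorem weak1_b_smooth : ContDiff ℝ ∞ weak1_b := by
  unfold weak1_b
  exact contDiff_const.mul (weak1_a_smooth.comp (by fun_prop))

theorem weak1_c_smooth : ContDiff ℝ ∞ weak1_c := by
  unfold weak1_c
  exact weak1_A_smooth.sub (weak1_A_smooth.comp (by fun_prop))

theorem weak1_a_zero {t : ℝ} (h : 1 < |t|) : weak1_a t = 0 := by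
  rcases lt_abs.1 h with h | h
  · have : weak1_A =ᶠ[𝓝 t] fun _ => (1 : ℝ) := by
      filter_upwards [lt_mem_nhds h] with s hs using weak1_A_one hs.le
    unfold weak1_a
    rw [this.deriv_eq]; simp
  · have h' : t < -1 := by linarith
    have : weak1_A =ᶠ[𝓝 t] fun _ => (0 : ℝ) := by
      filter_upwards [gt_mem_nhds h'] with s hs using weak1_A_zero (le_of_lt hs)
    unfold weak1_a
    rw [this.deriv_eq]; simp

theorem weak1_b_zero {t : ℝ} (h : 1 < |t|) : weak1_b t = 0 := by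
  unfold weak1_b
  rw [weak1_a_zero, mul_zero]
  rw [abs_mul, abs_two]; linarith

theorem weak1_c_zero {t : ℝ} (h : 1 < |t|) : weak1_c t = 0 := by
  unfold weak1_c
  rcases lt_abs.1 h with h | h
  · rw [weak1_A_one h.le, weak1_A_one (by linarith)]; simp
  · rw [weak1_A_zero (by linarith), weak1_A_zero (by linarith)]; simp

theorem weak1_c_hasDerivAt (t : ℝ) : HasDerivAt weak1_c (weak1_a t - weak1_b t) t := by
  unfold weak1_c weak1_b
  have h1 := weak1_A_hasDerivAt t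
  have h2 : HasDerivAt (fun s : ℝ => weak1_A (2 * s)) (weak1_a (2 * t) * 2) t :=
    (weak1_A_hasDerivAt (2 * t)).comp t (by simpa using (hasDerivAt_id t).const_mul 2)
  rw [mul_comm 2 (weak1_a (2 * t))]
  exact h1.sub h2

theorem weak1_a_integral : ∫ t, weak1_a t = 1 := by
  have hc : HasCompactSupport weak1_a := by
    refine HasCompactSupport.intro (isCompact_Icc (a := -1) (b := (1 : ℝ))) ?_
    intro x hx
    apply weak1_a_zero
    rw [Set.mem_Icc, not_and_or, not_le, not_le] at hx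
    rcases hx with hx | hx
    · rw [lt_abs]; right; linarith
    · rw [lt_abs]; left; exact hx
  have h := integral_of_hasDerivAt_of_tendsto (f := weak1_A) (f' := weak1_a) (m := 0) (n := 1)
    weak1_A_hasDerivAt (weak1_a_smooth.continuous.integrable_of_hasCompactSupport hc)
    (by
      apply tendsto_const_nhds.congr'
      filter_upwards [eventually_le_atBot (-1 : ℝ)] with t ht using (weak1_A_zero ht).symm)
    (by
      apply tendsto_const_nhds.congr'
      filter_upwards [eventually_ge_atTop (1 : ℝ)] with t ht using (weak1_A_one ht).symm)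
  simpa using h

/-! products -/

def weak1_P (f g h : ℝ → ℝ) (z : E) : ℝ := f (z 0) * g (z 1) * h (z 2)

theorem weak1_P_smooth {f g h : ℝ → ℝ} (hf : ContDiff ℝ ∞ f) (hg : ContDiff ℝ ∞ g)
    (hh : ContDiff ℝ ∞ h) : ContDiff ℝ ∞ (weak1_P f g h) := by
  have hi : ∀ i : Fin 3, ContDiff ℝ ∞ (fun z : E => z i) := fun i => by fun_prop
  exact ((hf.comp (hi 0)).mul (hg.comp (hi 1))).mul (hh.comp (hi 2))

theorem weak1_P_zero {f g h : ℝ → ℝ} (hf : ∀ t, 1 < |t| → f t = 0) (hg : ∀ t, 1 < |t| → g t = 0)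
    (hh : ∀ t, 1 < |t| → h t = 0) {z : E} (hz : 2 < ‖z‖) : weak1_P f g h z = 0 := by
  unfold weak1_P
  by_contra hne
  have h0 : |z 0| ≤ 1 := by
    by_contra hc; apply hne; rw [hf _ (not_le.1 hc)]; simp
  have h1 : |z 1| ≤ 1 := by
    by_contra hc; apply hne; rw [hg _ (not_le.1 hc)]; simp
  have h2 : |z 2| ≤ 1 := by
    by_contra hc; apply hne; rw [hh _ (not_le.1 hc)]; simp
  have hn := EuclideanSpace.norm_sq_eq z
  rw [Fin.sum_univ_three] at hn
  simp only [Real.norm_eq_abs, sq_abs] at hn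
  rw [← sq_abs (z 0), ← sq_abs (z 1), ← sq_abs (z 2)] at hn
  nlinarith [abs_nonneg (z 0), abs_nonneg (z 1), abs_nonneg (z 2), norm_nonneg z]

theorem weak1_P_pd {f g h f' g' h' : ℝ → ℝ} (hf : ∀ t, HasDerivAt f (f' t) t)
    (hg : ∀ t, HasDerivAt g (g' t) t) (hh : ∀ t, HasDerivAt h (h' t) t) (z : E) :
    pd 0 (weak1_P f g h) z = weak1_P f' g h z ∧ pd 1 (weak1_P f g h) z = weak1_P f g' h z ∧
      pd 2 (weak1_P f g h) z = weak1_P f g h' z := by
  have h0 : HasFDerivAt (fun z : E => f (z 0)) (f' (z 0) • (EuclideanSpace.proj 0 : E →L[ℝ] ℝ)) z :=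
    (hf (z 0)).comp_hasFDerivAt z (EuclideanSpace.proj 0 : E →L[ℝ] ℝ).hasFDerivAt
  have h1 : HasFDerivAt (fun z : E => g (z 1)) (g' (z 1) • (EuclideanSpace.proj 1 : E →L[ℝ] ℝ)) z :=
    (hg (z 1)).comp_hasFDerivAt z (EuclideanSpace.proj 1 : E →L[ℝ] ℝ).hasFDerivAt
  have h2 : HasFDerivAt (fun z : E => h (z 2)) (h' (z 2) • (EuclideanSpace.proj 2 : E →L[ℝ] ℝ)) z :=
    (hh (z 2)).comp_hasFDerivAt z (EuclideanSpace.proj 2 : E →L[ℝ] ℝ).hasFDerivAt
  have h3 := ((h0.mul h1).mul h2).fderiv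
  have h4 : fderiv ℝ (weak1_P f g h) z = _ := h3
  unfold pd
  rw [h4]
  refine ⟨?_, ?_, ?_⟩ <;> simp [be, weak1_P] <;> ring

/-- the mollifier -/
def weak1_m : E → ℝ := weak1_P weak1_a weak1_a weak1_a

/-- the three potentials -/
def weak1_Ψ (i : Fin 3) : E → ℝ :=
  ![weak1_P weak1_c weak1_a weak1_a, weak1_P weak1_b weak1_c weak1_a,
    weak1_P weak1_b weak1_b weak1_c] i

theorem weak1_m_smooth : ContDiff ℝ ∞ weak1_m :=
  weak1_P_smooth weak1_a_smooth weak1_a_smooth weak1_a_smooth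

theorem weak1_m_zero {z : E} (hz : 2 < ‖z‖) : weak1_m z = 0 :=
  weak1_P_zero (fun _ => weak1_a_zero) (fun _ => weak1_a_zero) (fun _ => weak1_a_zero) hz

theorem weak1_Ψ_smooth (i : Fin 3) : ContDiff ℝ ∞ (weak1_Ψ i) := by
  fin_cases i
  · exact weak1_P_smooth weak1_c_smooth weak1_a_smooth weak1_a_smooth
  · exact weak1_P_smooth weak1_b_smooth weak1_c_smooth weak1_a_smooth
  · exact weak1_P_smooth weak1_b_smooth weak1_b_smooth weak1_c_smooth

theorem weak1_Ψ_zero (i : Fin 3) {z : E} (hz : 2 < ‖z‖) : weak1_Ψ i z = 0 := by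
  fin_cases i
  · exact weak1_P_zero (fun _ => weak1_c_zero) (fun _ => weak1_a_zero) (fun _ => weak1_a_zero) hz
  · exact weak1_P_zero (fun _ => weak1_b_zero) (fun _ => weak1_c_zero) (fun _ => weak1_a_zero) hz
  · exact weak1_P_zero (fun _ => weak1_b_zero) (fun _ => weak1_b_zero) (fun _ => weak1_c_zero) hz

theorem weak1_tele (z : E) : weak1_m z - 8 * weak1_m ((2 : ℝ) • z) =
    ∑ i, pd i (weak1_Ψ i) z := by
  have hd : ∀ {f : ℝ → ℝ}, ContDiff ℝ ∞ f → ∀ t, HasDerivAt f (deriv f t) t := fun hf t =>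
    (hf.differentiable (by simp) t).hasDerivAt
  rw [Fin.sum_univ_three]
  have e0 : pd 0 (weak1_Ψ 0) z = _ :=
    (weak1_P_pd weak1_c_hasDerivAt (hd weak1_a_smooth) (hd weak1_a_smooth) z).1
  have e1 : pd 1 (weak1_Ψ 1) z = _ :=
    (weak1_P_pd (hd weak1_b_smooth) weak1_c_hasDerivAt (hd weak1_a_smooth) z).2.1
  have e2 : pd 2 (weak1_Ψ 2) z = _ :=
    (weak1_P_pd (hd weak1_b_smooth) (hd weak1_b_smooth) weak1_c_hasDerivAt z).2.2
  rw [e0, e1, e2]
  simp only [weak1_m, weak1_P, weak1_b, PiLp.smul_apply, smul_eq_mul]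
  ring

theorem weak1_m_compact : HasCompactSupport weak1_m := by
  refine HasCompactSupport.intro (isCompact_closedBall (0 : E) 2) ?_
  intro z hz
  exact weak1_m_zero (by simpa using hz)

theorem weak1_m_integral : ∫ z, weak1_m z = 1 := by
  have h := (EuclideanSpace.volume_preserving_symm_measurableEquiv_toLp (Fin 3)).symm.integral_comp'
    (g := weak1_m)
  rw [← h]
  have h2 : (fun x : Fin 3 → ℝ => weak1_m ((MeasurableEquiv.toLp 2 (Fin 3 → ℝ)).symm.symm x)) =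
    fun x => ∏ i, weak1_a (x i) := by
    funext x
    rw [Fin.prod_univ_three]
    rfl
  rw [h2, integral_fintype_prod_volume_eq_prod]
  simp [weak1_a_integral]


/-! scaled copies -/

def weak1_S (c : ℝ) (F : E → ℝ) (s : ℝ) (x y : E) : ℝ := c * F (s⁻¹ • (y - x))

theorem weak1_S_smooth {F : E → ℝ} (hF : ContDiff ℝ ∞ F) (c s : ℝ) (x : E) :
    ContDiff ℝ ∞ (weak1_S c F s x) := by
  unfold weak1_S
  exact contDiff_const.mul (hF.comp (by fun_prop))

theorem weak1_S_zero {F : E → ℝ} (hF : ∀ z, 2 < ‖z‖ → F z = 0) (c : ℝ) {s : ℝ} (hs : 0 < s)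
    {x y : E} (hy : 2 * s < ‖y - x‖) : weak1_S c F s x y = 0 := by
  unfold weak1_S
  rw [hF, mul_zero]
  rw [norm_smul, norm_inv, Real.norm_of_nonneg hs.le, ← div_eq_inv_mul, lt_div_iff₀ hs]
  exact hy

theorem weak1_S_tsupport {F : E → ℝ} (hF : ∀ z, 2 < ‖z‖ → F z = 0) (c : ℝ) {s : ℝ} (hs : 0 < s)
    (x : E) : tsupport (weak1_S c F s x) ⊆ closedBall x (2 * s) := by
  refine closure_minimal ?_ isClosed_closedBall
  intro y hy
  by_contra hc
  apply hy
  apply weak1_S_zero hF c hs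
  simpa [dist_eq_norm] using hc

theorem weak1_S_tst {F : E → ℝ} (hF : ContDiff ℝ ∞ F) (hF0 : ∀ z, 2 < ‖z‖ → F z = 0) (c : ℝ)
    {s : ℝ} (hs : 0 < s) {x : E} {B : Set E} (hB : closedBall x (2 * s) ⊆ B) :
    Tst B (weak1_S c F s x) := by
  refine ⟨weak1_S_smooth hF c s x, ?_, (weak1_S_tsupport hF0 c hs x).trans hB⟩
  exact (isCompact_closedBall x (2 * s)).of_isClosed_subset (isClosed_tsupport _)
    (weak1_S_tsupport hF0 c hs x)

theorem weak1_S_fderiv {F : E → ℝ} (hF : ContDiff ℝ ∞ F) (c s : ℝ) (x y : E) :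
    fderiv ℝ (weak1_S c F s x) y = (c * s⁻¹) • fderiv ℝ F (s⁻¹ • (y - x)) := by
  have h1 : HasFDerivAt (fun y : E => s⁻¹ • (y - x)) (s⁻¹ • ContinuousLinearMap.id ℝ E) y :=
    ((hasFDerivAt_id y).sub_const x).const_smul s⁻¹
  have h2 := ((hF.differentiable (by simp) (s⁻¹ • (y - x))).hasFDerivAt).comp y h1
  have h3 := (h2.const_mul c).fderiv
  have h4 : fderiv ℝ (weak1_S c F s x) y = _ := h3
  rw [h4]
  ext v
  simp
  ring

theorem weak1_S_pd {F : E → ℝ} (hF : ContDiff ℝ ∞ F) (c s : ℝ) (x : E) (a : Fin 3) :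
    pd a (weak1_S c F s x) = weak1_S (c * s⁻¹) (pd a F) s x := by
  funext y
  unfold pd
  rw [weak1_S_fderiv hF]
  simp [weak1_S]

theorem weak1_S_int {F : E → ℝ} {c s : ℝ} (hs : 0 < s) (x : E) :
    (∫ y, |weak1_S c F s x y| ^ (4 / 3 : ℝ)) ^ (3 / 4 : ℝ) =
      |c| * s ^ (9 / 4 : ℝ) * (∫ z, |F z| ^ (4 / 3 : ℝ)) ^ (3 / 4 : ℝ) := by
  have h1 : ∫ y, |weak1_S c F s x y| ^ (4 / 3 : ℝ) =
      |c| ^ (4 / 3 : ℝ) * (s ^ 3 * ∫ z, |F z| ^ (4 / 3 : ℝ)) := by
    have e1 : ∀ y, |weak1_S c F s x y| ^ (4 / 3 : ℝ) =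
        |c| ^ (4 / 3 : ℝ) * (fun w : E => |F (s⁻¹ • w)| ^ (4 / 3 : ℝ)) (y - x) := by
      intro y
      simp only [weak1_S, abs_mul]
      rw [Real.mul_rpow (abs_nonneg _) (abs_nonneg _)]
    simp_rw [e1]
    rw [integral_const_mul, integral_sub_right_eq_self (fun w : E => |F (s⁻¹ • w)| ^ (4 / 3 : ℝ)) x]
    rw [Measure.integral_comp_inv_smul_of_nonneg volume (fun z : E => |F z| ^ (4 / 3 : ℝ)) hs.le]
    simp [E]
  have h0 : 0 ≤ ∫ z, |F z| ^ (4 / 3 : ℝ) := integral_nonneg fun z => by positivity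
  rw [h1, Real.mul_rpow (by positivity) (by positivity), Real.mul_rpow (by positivity) h0,
    ← Real.rpow_mul (abs_nonneg _), ← Real.rpow_natCast, ← Real.rpow_mul hs.le]
  norm_num
  ring

/-- the mollifier at `x` of scale `s` -/
def weak1_κ (s : ℝ) (x : E) : E → ℝ := weak1_S (s ^ 3)⁻¹ weak1_m s x

theorem weak1_κ_tele {s : ℝ} (hs : 0 < s) (x y : E) :
    weak1_κ s x y - weak1_κ (s / 2) x y =
      ∑ i, pd i (weak1_S (s ^ 2)⁻¹ (weak1_Ψ i) s x) y := by
  have h := weak1_tele (s⁻¹ • (y - x))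
  simp_rw [weak1_S_pd (weak1_Ψ_smooth _)]
  simp only [weak1_κ, weak1_S]
  rw [← Finset.mul_sum, ← h, smul_smul]
  have e : (2 : ℝ) * s⁻¹ = (s / 2)⁻¹ := by field_simp
  rw [e]
  field_simp
  ring

theorem weak1_κ_lip : ∃ L : ℝ, 0 ≤ L ∧ ∀ s, 0 < s → ∀ x x' y : E,
    |weak1_κ s x y - weak1_κ s x' y| ≤ L * ((s ^ 3)⁻¹ * s⁻¹) * ‖x - x'‖ ∧
    ‖fderiv ℝ (weak1_κ s x) y - fderiv ℝ (weak1_κ s x') y‖ ≤
      L * ((s ^ 3)⁻¹ * s⁻¹ * s⁻¹) * ‖x - x'‖ := by
  obtain ⟨L1, h1⟩ := weak1_m_smooth.lipschitzWith_of_hasCompactSupport weak1_m_compact (by simp)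
  obtain ⟨L2, h2⟩ := (weak1_m_smooth.fderiv_right (m := 1) (WithTop.coe_le_coe.2 (le_top : ((2 : ℕ∞)) ≤ ⊤))).lipschitzWith_of_hasCompactSupport
    (weak1_m_compact.fderiv ℝ) (by simp)
  refine ⟨max L1 L2, le_max_of_le_left L1.2, fun s hs x x' y => ?_⟩
  have e : dist (s⁻¹ • (y - x)) (s⁻¹ • (y - x')) = s⁻¹ * ‖x - x'‖ := by
    rw [dist_eq_norm, ← smul_sub, norm_smul, Real.norm_of_nonneg (by positivity)]
    congr 1
    rw [← norm_neg]; congr 1; abel
  have h1' := h1.dist_le_mul (s⁻¹ • (y - x)) (s⁻¹ • (y - x'))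
  have h2' := h2.dist_le_mul (s⁻¹ • (y - x)) (s⁻¹ • (y - x'))
  rw [e] at h1' h2'
  constructor
  · simp only [weak1_κ, weak1_S]
    rw [← mul_sub, abs_mul, abs_of_pos (by positivity : 0 < (s ^ 3)⁻¹)]
    rw [Real.dist_eq] at h1'
    calc (s ^ 3)⁻¹ * |weak1_m (s⁻¹ • (y - x)) - weak1_m (s⁻¹ • (y - x'))|
        ≤ (s ^ 3)⁻¹ * (L1 * (s⁻¹ * ‖x - x'‖)) := by gcongr
      _ ≤ (s ^ 3)⁻¹ * (max L1 L2 * (s⁻¹ * ‖x - x'‖)) := by gcongr; exact le_max_left _ _
      _ = _ := by rw [NNReal.coe_max]; ring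
  · unfold weak1_κ
    rw [weak1_S_fderiv weak1_m_smooth, weak1_S_fderiv weak1_m_smooth, ← smul_sub, norm_smul,
      Real.norm_of_nonneg (by positivity : 0 ≤ (s ^ 3)⁻¹ * s⁻¹)]
    rw [dist_eq_norm] at h2'
    calc (s ^ 3)⁻¹ * s⁻¹ * ‖fderiv ℝ weak1_m (s⁻¹ • (y - x)) - fderiv ℝ weak1_m (s⁻¹ • (y - x'))‖
        ≤ (s ^ 3)⁻¹ * s⁻¹ * (L2 * (s⁻¹ * ‖x - x'‖)) := by gcongr
      _ ≤ (s ^ 3)⁻¹ * s⁻¹ * (max L1 L2 * (s⁻¹ * ‖x - x'‖)) := by gcongr; exact le_max_right _ _
      _ = _ := by rw [NNReal.coe_max]; ring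

theorem weak1_κ_bd {s : ℝ} (hs : 0 < s) : ∃ K : ℝ, 0 ≤ K ∧ ∀ x y : E,
    |weak1_κ s x y| ≤ K ∧ ‖fderiv ℝ (weak1_κ s x) y‖ ≤ K := by
  obtain ⟨K1, h1⟩ := weak1_m_compact.exists_bound_of_continuous weak1_m_smooth.continuous
  obtain ⟨K2, h2⟩ := (weak1_m_compact.fderiv ℝ).exists_bound_of_continuous
    (weak1_m_smooth.continuous_fderiv (by simp))
  have hK1 : 0 ≤ K1 := (norm_nonneg _).trans (h1 0)
  have hK2 : 0 ≤ K2 := (norm_nonneg _).trans (h2 0)
  refine ⟨(s ^ 3)⁻¹ * K1 + (s ^ 3)⁻¹ * s⁻¹ * K2, by positivity, fun x y => ⟨?_, ?_⟩⟩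
  · simp only [weak1_κ, weak1_S]
    rw [abs_mul, abs_of_pos (by positivity : 0 < (s ^ 3)⁻¹)]
    have := h1 (s⁻¹ • (y - x))
    rw [Real.norm_eq_abs] at this
    have h3 : 0 ≤ (s ^ 3)⁻¹ * s⁻¹ * K2 := by positivity
    have h4 : (s ^ 3)⁻¹ * |weak1_m (s⁻¹ • (y - x))| ≤ (s ^ 3)⁻¹ * K1 := by gcongr
    linarith
  · unfold weak1_κ
    rw [weak1_S_fderiv weak1_m_smooth, norm_smul,
      Real.norm_of_nonneg (by positivity : 0 ≤ (s ^ 3)⁻¹ * s⁻¹)]
    have := h2 (s⁻¹ • (y - x))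
    have h3 : 0 ≤ (s ^ 3)⁻¹ * K1 := by positivity
    have h4 : (s ^ 3)⁻¹ * s⁻¹ * ‖fderiv ℝ weak1_m (s⁻¹ • (y - x))‖ ≤ (s ^ 3)⁻¹ * s⁻¹ * K2 := by gcongr
    linarith

theorem weak1_κ_tst {s : ℝ} (hs : 0 < s) {x : E} {B : Set E} (hB : closedBall x (2 * s) ⊆ B) :
    Tst B (weak1_κ s x) :=
  weak1_S_tst weak1_m_smooth (fun _ => weak1_m_zero) _ hs hB

/-! test functions -/

theorem weak1_tst_sub {B : Set E} {φ ψ : E → ℝ} (h1 : Tst B φ) (h2 : Tst B ψ) :
    Tst B (fun x => φ x - ψ x) := by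
  refine ⟨h1.1.sub h2.1, h1.2.1.sub h2.2.1, ?_⟩
  intro x hx
  have := tsupport_sub φ ψ hx
  rcases this with h | h
  · exact h1.2.2 h
  · exact h2.2.2 h

theorem weak1_integrable {B : Set E} {φ : E → ℝ} (h1 : Tst B φ) {u : E → ℝ}
    (hu : ContinuousOn u B) : Integrable (fun x => u x * φ x) := by
  have h : IntegrableOn (fun x => u x * φ x) (tsupport φ) :=
    ((hu.mono h1.2.2).mul h1.1.continuous.continuousOn).integrableOn_compact h1.2.1
  refine (integrableOn_iff_integrable_of_support_subset ?_).1 h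
  intro x hx
  apply subset_tsupport
  intro h0
  apply hx
  simp [h0]


/-! mollification of a test function -/

def weak1_M (s : ℝ) (φ : E → ℝ) (y : E) : ℝ := ∫ x, weak1_κ s x y * φ x

theorem weak1_M_eq (s : ℝ) (φ : E → ℝ) :
    weak1_M s φ = (weak1_κ s 0 ⋆[ContinuousLinearMap.lsmul ℝ ℝ, volume] φ) := by
  funext y
  unfold weak1_M
  rw [convolution_def]
  rw [← integral_sub_left_eq_self (fun x => weak1_κ s x y * φ x) volume y]
  congr 1
  funext t
  simp [weak1_κ, weak1_S]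

theorem weak1_κ0_smooth (s : ℝ) (x : E) : ContDiff ℝ ∞ (weak1_κ s x) :=
  weak1_S_smooth weak1_m_smooth _ _ _

theorem weak1_κ0_compact {s : ℝ} (hs : 0 < s) (x : E) : HasCompactSupport (weak1_κ s x) :=
  (weak1_κ_tst hs (subset_univ _)).2.1

theorem weak1_κ0_int {s : ℝ} (hs : 0 < s) : ∫ t, weak1_κ s 0 t = 1 := by
  simp only [weak1_κ, weak1_S, sub_zero]
  rw [integral_const_mul, Measure.integral_comp_inv_smul_of_nonneg volume weak1_m hs.le]
  rw [weak1_m_integral]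
  simp [E]
  field_simp

theorem weak1_κ0_abs {s : ℝ} (hs : 0 < s) : ∫ t, |weak1_κ s 0 t| = ∫ z, |weak1_m z| := by
  simp only [weak1_κ, weak1_S, sub_zero, abs_mul]
  rw [integral_const_mul, Measure.integral_comp_inv_smul_of_nonneg volume (fun z => |weak1_m z|) hs.le]
  rw [abs_of_pos (by positivity : 0 < (s ^ 3)⁻¹)]
  simp [E]
  field_simp

theorem weak1_close {F : Type*} [NormedAddCommGroup F] [NormedSpace ℝ F] [CompleteSpace F]
    {g : E → F} {L : NNReal} (hg : LipschitzWith L g) {s : ℝ} (hs : 0 < s) (y : E) :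
    ‖(∫ t, weak1_κ s 0 t • g (y - t)) - g y‖ ≤ (∫ z, |weak1_m z|) * (L * (2 * s)) := by
  have hc : Continuous (weak1_κ s 0) := (weak1_κ0_smooth s 0).continuous
  have i1 : Integrable (fun t => weak1_κ s 0 t • g (y - t)) := by
    apply Continuous.integrable_of_hasCompactSupport
    · exact hc.smul (hg.continuous.comp (by fun_prop))
    · exact (weak1_κ0_compact hs 0).smul_right
  have i2 : Integrable (fun t => weak1_κ s 0 t • g y) := by
    apply Continuous.integrable_of_hasCompactSupport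
    · exact hc.smul continuous_const
    · exact (weak1_κ0_compact hs 0).smul_right
  have e : g y = ∫ t, weak1_κ s 0 t • g y := by
    rw [integral_smul_const, weak1_κ0_int hs, one_smul]
  conv_lhs => rw [e]
  rw [← integral_sub i1 i2, ← weak1_κ0_abs hs, ← integral_mul_const]
  apply norm_integral_le_of_norm_le
  · apply Continuous.integrable_of_hasCompactSupport
    · exact hc.abs.mul continuous_const
    · have := (weak1_κ0_compact hs 0).abs
      exact HasCompactSupport.mul_right this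
  · refine Filter.Eventually.of_forall fun t => ?_
    rw [← smul_sub, norm_smul, Real.norm_eq_abs]
    by_cases ht : ‖t‖ ≤ 2 * s
    · gcongr
      rw [← dist_eq_norm]
      refine (hg.dist_le_mul _ _).trans ?_
      gcongr
      rw [dist_eq_norm]
      simpa using ht
    · have : weak1_κ s 0 t = 0 := by
        apply weak1_S_zero (fun _ => weak1_m_zero) _ hs
        simpa using ht
      rw [this]; simp

theorem weak1_M_close {B : Set E} {φ : E → ℝ} (hφ : Tst B φ) :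
    ∃ L : ℝ, 0 ≤ L ∧ ∀ s, 0 < s → ∀ y,
      |weak1_M s φ y - φ y| ≤ L * s ∧ ‖fderiv ℝ (weak1_M s φ) y - fderiv ℝ φ y‖ ≤ L * s := by
  obtain ⟨L1, h1⟩ := hφ.1.lipschitzWith_of_hasCompactSupport hφ.2.1 (by simp)
  obtain ⟨L2, h2⟩ := (hφ.1.fderiv_right (m := 1)
    (WithTop.coe_le_coe.2 (le_top : ((2 : ℕ∞)) ≤ ⊤))).lipschitzWith_of_hasCompactSupport
    (hφ.2.1.fderiv ℝ) (by simp)
  have hM : 0 ≤ ∫ z, |weak1_m z| := integral_nonneg fun _ => abs_nonneg _
  refine ⟨(∫ z, |weak1_m z|) * (max L1 L2 * 2), by positivity, fun s hs y => ⟨?_, ?_⟩⟩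
  · have h := weak1_close h1 hs y
    have e : weak1_M s φ y = ∫ t, weak1_κ s 0 t • φ (y - t) := by
      rw [weak1_M_eq, convolution_def]; rfl
    rw [e, ← Real.norm_eq_abs]
    refine h.trans ?_
    calc (∫ z, |weak1_m z|) * (L1 * (2 * s)) ≤ (∫ z, |weak1_m z|) * (max L1 L2 * (2 * s)) := by
          gcongr; simp
      _ = _ := by ring
  · have h := weak1_close h2 hs y
    have e0 := hφ.2.1.hasFDerivAt_convolution_right (f := weak1_κ s 0) (μ := volume)
      (ContinuousLinearMap.lsmul ℝ ℝ : ℝ →L[ℝ] ℝ →L[ℝ] ℝ)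
      ((weak1_κ0_smooth s 0).continuous.locallyIntegrable) (hφ.1.of_le (by simp)) y
    rw [← weak1_M_eq] at e0
    have e : fderiv ℝ (weak1_M s φ) y = ∫ t, weak1_κ s 0 t • fderiv ℝ φ (y - t) := by
      rw [e0.fderiv, convolution_def]
      congr 1
    rw [e]
    refine h.trans ?_
    calc (∫ z, |weak1_m z|) * (L2 * (2 * s)) ≤ (∫ z, |weak1_m z|) * (max L1 L2 * (2 * s)) := by
          gcongr; simp
      _ = _ := by ring

theorem weak1_M_zero {φ : E → ℝ} {s : ℝ} (hs : 0 < s) {y : E}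
    (hy : y ∉ cthickening (2 * s) (tsupport φ)) : ∀ x, weak1_κ s x y * φ x = 0 := by
  intro x
  by_cases hx : x ∈ tsupport φ
  · have : weak1_κ s x y = 0 := by
      apply weak1_S_zero (fun _ => weak1_m_zero) _ hs
      by_contra hc
      apply hy
      apply closedBall_subset_cthickening hx
      simpa [dist_eq_norm] using hc
    rw [this, zero_mul]
  · rw [image_eq_zero_of_notMem_tsupport hx, mul_zero]

theorem weak1_M_tst {B : Set E} {φ : E → ℝ} (hφ : Tst B φ) {s : ℝ} (hs : 0 < s)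
    (hB : cthickening (2 * s) (tsupport φ) ⊆ B) : Tst B (weak1_M s φ) := by
  have hsub : tsupport (weak1_M s φ) ⊆ cthickening (2 * s) (tsupport φ) := by
    refine closure_minimal ?_ isClosed_cthickening
    intro y hy
    by_contra hc
    apply hy
    unfold weak1_M
    simp [weak1_M_zero hs hc]
  refine ⟨?_, ?_, hsub.trans hB⟩
  · rw [weak1_M_eq]
    exact hφ.2.1.contDiff_convolution_right (n := ⊤) _
      ((weak1_κ0_smooth s 0).continuous.locallyIntegrable) hφ.1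
  · have hK : IsCompact (cthickening (2 * s) (tsupport φ)) := IsCompact.cthickening hφ.2.1
    exact hK.of_isClosed_subset (isClosed_tsupport _) hsub


/-! the functional -/

section main

variable {B : Set E} (u : ℕ → E → ℝ) (hu : ∀ n, ContinuousOn (u n) B) (l : (E → ℝ) → ℝ)
    (hl : ∀ φ, Tst B φ → Tendsto (fun n => ∫ x, u n x * φ x) atTop (𝓝 (l φ)))

theorem weak1_tst_pd {φ : E → ℝ} (h : Tst B φ) (a : Fin 3) : Tst B (pd a φ) := by
  have hs : ContDiff ℝ ∞ (fderiv ℝ φ) := h.1.fderiv_right (m := ∞) (by simp)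
  have hsub : tsupport (pd a φ) ⊆ tsupport φ := by
    refine closure_minimal ?_ (isClosed_tsupport _)
    intro y hy
    apply support_fderiv_subset ℝ
    intro h0
    apply hy
    simp [pd, h0]
  refine ⟨?_, ?_, hsub.trans h.2.2⟩
  · exact hs.clm_apply contDiff_const
  · exact h.2.1.of_isClosed_subset (isClosed_tsupport _) hsub

include hu hl in
theorem weak1_l_sum {φ ψ : E → ℝ} (h1 : Tst B φ) (h2 : Tst B ψ) {χ : Fin 3 → E → ℝ}
    (h3 : ∀ i, Tst B (χ i)) (h : ∀ x, φ x - ψ x = ∑ i, χ i x) : l φ - l ψ = ∑ i, l (χ i) := by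
  refine tendsto_nhds_unique ((hl φ h1).sub (hl ψ h2)) ?_
  refine (tendsto_finsetSum Finset.univ fun i _ => hl (χ i) (h3 i)).congr fun n => ?_
  rw [← integral_sub (weak1_integrable h1 (hu n)) (weak1_integrable h2 (hu n)),
    ← integral_finsetSum _ fun i _ => weak1_integrable (h3 i) (hu n)]
  congr 1
  funext x
  rw [← mul_sub, h, Finset.mul_sum]

include hu hl in
theorem weak1_l_sub {φ ψ : E → ℝ} (h1 : Tst B φ) (h2 : Tst B ψ) :
    l φ - l ψ = l (fun x => φ x - ψ x) := by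
  refine tendsto_nhds_unique ((hl φ h1).sub (hl ψ h2)) ?_
  refine (hl _ (weak1_tst_sub h1 h2)).congr fun n => ?_
  rw [← integral_sub (weak1_integrable h1 (hu n)) (weak1_integrable h2 (hu n))]
  congr 1
  funext x
  ring

include hl in
theorem weak1_l_bd {C1 : ℝ} (h1 : ∀ n φ, Tst B φ → ∀ K, (∀ x, |φ x| ≤ K) →
      (∀ x, ‖fderiv ℝ φ x‖ ≤ K) → |∫ x, u n x * φ x| ≤ C1 * K) {φ : E → ℝ} (h : Tst B φ) {K : ℝ}
    (ha : ∀ x, |φ x| ≤ K) (hb : ∀ x, ‖fderiv ℝ φ x‖ ≤ K) : |l φ| ≤ C1 * K :=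
  le_of_tendsto (hl φ h).abs (Filter.Eventually.of_forall fun n => h1 n φ h K ha hb)

include hu hl in
theorem weak1_step {C2 : ℝ} (h2 : ∀ φ, Tst B φ → ∀ a, |l (pd a φ)| ≤
      C2 * (∫ x, |φ x| ^ (4 / 3 : ℝ)) ^ (3 / 4 : ℝ)) : ∃ D : ℝ, 0 ≤ D ∧ ∀ s x, 0 < s →
      closedBall x (2 * s) ⊆ B → |l (weak1_κ s x) - l (weak1_κ (s / 2) x)| ≤ D * s ^ (1 / 4 : ℝ) := by
  refine ⟨|C2| * ∑ i, (∫ z, |weak1_Ψ i z| ^ (4 / 3 : ℝ)) ^ (3 / 4 : ℝ), ?_, ?_⟩
  · have : ∀ i, 0 ≤ (∫ z, |weak1_Ψ i z| ^ (4 / 3 : ℝ)) ^ (3 / 4 : ℝ) := fun i => by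
      have : 0 ≤ ∫ z, |weak1_Ψ i z| ^ (4 / 3 : ℝ) := integral_nonneg fun z => by positivity
      positivity
    have : 0 ≤ ∑ i, (∫ z, |weak1_Ψ i z| ^ (4 / 3 : ℝ)) ^ (3 / 4 : ℝ) :=
      Finset.sum_nonneg fun i _ => this i
    positivity
  intro s x hs hB
  have hB2 : closedBall x (2 * (s / 2)) ⊆ B :=
    (closedBall_subset_closedBall (by linarith)).trans hB
  have hΨ : ∀ i, Tst B (weak1_S (s ^ 2)⁻¹ (weak1_Ψ i) s x) := fun i =>
    weak1_S_tst (weak1_Ψ_smooth i) (fun _ => weak1_Ψ_zero i) _ hs hB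
  rw [weak1_l_sum u hu l hl (weak1_κ_tst hs hB) (weak1_κ_tst (by positivity) hB2)
    (fun i => weak1_tst_pd (hΨ i) i) (weak1_κ_tele hs x)]
  refine (Finset.abs_sum_le_sum_abs _ _).trans ?_
  rw [Finset.mul_sum, Finset.sum_mul]
  refine Finset.sum_le_sum fun i _ => ?_
  refine (h2 _ (hΨ i) i).trans ?_
  rw [weak1_S_int hs, abs_of_pos (by positivity : 0 < (s ^ 2)⁻¹)]
  have hI : 0 ≤ (∫ z, |weak1_Ψ i z| ^ (4 / 3 : ℝ)) ^ (3 / 4 : ℝ) := by
    have : 0 ≤ ∫ z, |weak1_Ψ i z| ^ (4 / 3 : ℝ) := integral_nonneg fun z => by positivity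
    positivity
  have e : (s ^ 2)⁻¹ * s ^ (9 / 4 : ℝ) = s ^ (1 / 4 : ℝ) := by
    rw [show (9 / 4 : ℝ) = (2 : ℕ) + (1 / 4 : ℝ) by norm_num, Real.rpow_add hs, Real.rpow_natCast]
    field_simp
  rw [e]
  calc C2 * (s ^ (1 / 4 : ℝ) * (∫ z, |weak1_Ψ i z| ^ (4 / 3 : ℝ)) ^ (3 / 4 : ℝ))
      ≤ |C2| * (s ^ (1 / 4 : ℝ) * (∫ z, |weak1_Ψ i z| ^ (4 / 3 : ℝ)) ^ (3 / 4 : ℝ)) := by
        gcongr
        exact le_abs_self _
    _ = _ := by ring

/-- the approximations -/
def weak1_V (k : ℕ) (x : E) : ℝ := l (weak1_κ ((1 / 2) ^ k) x)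

def weak1_U (x : E) : ℝ := limUnder atTop (fun k => weak1_V l k x)

include hu hl in
theorem weak1_V_U {C2 : ℝ} (h2 : ∀ φ, Tst B φ → ∀ a, |l (pd a φ)| ≤
      C2 * (∫ x, |φ x| ^ (4 / 3 : ℝ)) ^ (3 / 4 : ℝ)) : ∃ D q : ℝ, 0 ≤ D ∧ 0 ≤ q ∧ q < 1 ∧ ∀ k x,
      closedBall x (2 * (1 / 2) ^ k) ⊆ B → |weak1_V l k x - weak1_U l x| ≤ D * q ^ k := by
  obtain ⟨D, hD, h⟩ := weak1_step u hu l hl h2
  set q : ℝ := (1 / 2 : ℝ) ^ (1 / 4 : ℝ) with hq
  have hq0 : 0 ≤ q := by positivity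
  have hq1 : q < 1 := Real.rpow_lt_one (by norm_num) (by norm_num) (by norm_num)
  refine ⟨D / (1 - q), q, div_nonneg hD (by linarith), hq0, hq1, fun k x hk => ?_⟩
  have key : ∀ j, dist (weak1_V l (k + j) x) (weak1_V l (k + (j + 1)) x) ≤ (D * q ^ k) * q ^ j := by
    intro j
    have hs : (0 : ℝ) < (1 / 2) ^ (k + j) := by positivity
    have hle : ((1 : ℝ) / 2) ^ (k + j) ≤ (1 / 2) ^ k :=
      pow_le_pow_of_le_one (by norm_num) (by norm_num) (by omega)
    have := h _ x hs ((closedBall_subset_closedBall (by linarith)).trans hk)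
    rw [Real.dist_eq]
    have e1 : ((1 : ℝ) / 2) ^ (k + j) / 2 = (1 / 2) ^ (k + (j + 1)) := by ring
    have e2 : (((1 : ℝ) / 2) ^ (k + j)) ^ (1 / 4 : ℝ) = q ^ (k + j) := by
      rw [hq, ← Real.rpow_natCast, ← Real.rpow_natCast, ← Real.rpow_mul (by norm_num),
        ← Real.rpow_mul (by norm_num), mul_comm]
    rw [e1, e2] at this
    unfold weak1_V
    refine this.trans (le_of_eq ?_)
    rw [pow_add]; ring
  have hc : CauchySeq (fun j => weak1_V l (k + j) x) := cauchySeq_of_le_geometric _ _ hq1 key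
  obtain ⟨a, ha⟩ := cauchySeq_tendsto_of_complete hc
  have ha' : Tendsto (fun j => weak1_V l j x) atTop (𝓝 a) := by
    have : (fun j => weak1_V l (k + j) x) = fun j => weak1_V l (j + k) x := by
      funext j; rw [add_comm]
    rw [this] at ha
    exact (tendsto_add_atTop_iff_nat k).1 ha
  have hU : weak1_U l x = a := ha'.limUnder_eq
  have := dist_le_of_le_geometric_of_tendsto₀ _ _ hq1 key ha
  rw [hU, ← Real.dist_eq]
  simp only [add_zero] at this
  refine this.trans (le_of_eq ?_)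
  ring

include hu hl in
theorem weak1_V_cont {C1 : ℝ} (h1 : ∀ n φ, Tst B φ → ∀ K, (∀ x, |φ x| ≤ K) →
      (∀ x, ‖fderiv ℝ φ x‖ ≤ K) → |∫ x, u n x * φ x| ≤ C1 * K) (k : ℕ) :
    ContinuousOn (weak1_V l k) {x | closedBall x (2 * (1 / 2) ^ k) ⊆ B} := by
  obtain ⟨L, hL, h⟩ := weak1_κ_lip
  set s : ℝ := (1 / 2) ^ k with hs
  have hs0 : 0 < s := by positivity
  have hc1 : 0 ≤ (s ^ 3)⁻¹ * s⁻¹ := by positivity
  have hc2 : 0 ≤ (s ^ 3)⁻¹ * s⁻¹ * s⁻¹ := by positivity
  set K : ℝ := L * ((s ^ 3)⁻¹ * s⁻¹ + (s ^ 3)⁻¹ * s⁻¹ * s⁻¹) with hK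
  have hK0 : 0 ≤ K := by positivity
  have key : ∀ x ∈ {x | closedBall x (2 * s) ⊆ B}, ∀ x' ∈ {x | closedBall x (2 * s) ⊆ B},
      |weak1_V l k x - weak1_V l k x'| ≤ C1 * (K * ‖x - x'‖) := by
    intro x hx x' hx'
    have t1 := weak1_κ_tst hs0 hx
    have t2 := weak1_κ_tst hs0 hx'
    have e : weak1_V l k x - weak1_V l k x' = l (fun y => weak1_κ s x y - weak1_κ s x' y) :=
      weak1_l_sub u hu l hl t1 t2
    rw [e]
    refine weak1_l_bd u l hl h1 (weak1_tst_sub t1 t2) ?_ ?_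
    · intro y
      refine (h s hs0 x x' y).1.trans ?_
      rw [hK]
      gcongr
      linarith
    · intro y
      have e : fderiv ℝ (fun y => weak1_κ s x y - weak1_κ s x' y) y =
          fderiv ℝ (weak1_κ s x) y - fderiv ℝ (weak1_κ s x') y :=
        fderiv_fun_sub (t1.1.differentiable (by simp) y) (t2.1.differentiable (by simp) y)
      rw [e]
      refine (h s hs0 x x' y).2.trans ?_
      rw [hK]
      gcongr
      linarith
  intro x hx
  rw [ContinuousWithinAt, tendsto_iff_dist_tendsto_zero]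
  refine squeeze_zero' (g := fun x' => C1 * (K * ‖x' - x‖))
    (Filter.Eventually.of_forall fun _ => dist_nonneg) ?_ ?_
  · filter_upwards [self_mem_nhdsWithin] with x' hx'
    rw [Real.dist_eq]
    exact key x' hx' x hx
  · have : Continuous fun x' : E => C1 * (K * ‖x' - x‖) := by fun_prop
    have h0 := this.tendsto x
    simp only [sub_self, norm_zero, mul_zero] at h0
    exact h0.mono_left nhdsWithin_le_nhds


include hu hl in
theorem weak1_U_cont (hB : IsOpen B) {C1 : ℝ} (h1 : ∀ n φ, Tst B φ → ∀ K, (∀ x, |φ x| ≤ K) →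
      (∀ x, ‖fderiv ℝ φ x‖ ≤ K) → |∫ x, u n x * φ x| ≤ C1 * K)
    {C2 : ℝ} (h2 : ∀ φ, Tst B φ → ∀ a, |l (pd a φ)| ≤
      C2 * (∫ x, |φ x| ^ (4 / 3 : ℝ)) ^ (3 / 4 : ℝ)) : ContinuousOn (weak1_U l) B := by
  obtain ⟨D, q, hD, hq0, hq1, hV⟩ := weak1_V_U u hu l hl h2
  intro x hx
  obtain ⟨ρ, hρ, hρB⟩ := Metric.nhds_basis_closedBall.mem_iff.1 (hB.mem_nhds hx)
  have hev : ∀ᶠ k : ℕ in atTop, 2 * (1 / 2 : ℝ) ^ k < ρ / 2 := by
    have : Tendsto (fun k : ℕ => 2 * (1 / 2 : ℝ) ^ k) atTop (𝓝 (2 * 0)) :=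
      (tendsto_pow_atTop_nhds_zero_of_lt_one (by norm_num) (by norm_num)).const_mul 2
    rw [mul_zero] at this
    exact this.eventually_lt_const (by positivity)
  have hsub : ∀ k : ℕ, 2 * (1 / 2 : ℝ) ^ k < ρ / 2 → ∀ x' ∈ ball x (ρ / 2),
      closedBall x' (2 * (1 / 2) ^ k) ⊆ B := by
    intro k hk x' hx'
    refine Subset.trans ?_ hρB
    apply closedBall_subset_closedBall'
    have := mem_ball.1 hx'
    linarith
  have hcont : ContinuousOn (weak1_U l) (ball x (ρ / 2)) := by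
    have hun : TendstoUniformlyOn (weak1_V l) (weak1_U l) atTop (ball x (ρ / 2)) := by
      rw [Metric.tendstoUniformlyOn_iff]
      intro ε hε
      have hq : Tendsto (fun k : ℕ => D * q ^ k) atTop (𝓝 (D * 0)) :=
        (tendsto_pow_atTop_nhds_zero_of_lt_one hq0 hq1).const_mul D
      rw [mul_zero] at hq
      filter_upwards [hev, hq.eventually_lt_const hε] with k hk hk2 x' hx'
      rw [dist_comm, Real.dist_eq]
      exact (hV k x' (hsub k hk x' hx')).trans_lt hk2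
    refine hun.continuousOn ?_
    refine Filter.Eventually.frequently ?_
    filter_upwards [hev] with k hk
    exact (weak1_V_cont u hu l hl h1 k).mono fun x' hx' => hsub k hk x' hx'
  exact (hcont.continuousAt (ball_mem_nhds x (by positivity))).continuousWithinAt

include hu hl in
theorem weak1_fub {C1 : ℝ} (h1 : ∀ n φ, Tst B φ → ∀ K, (∀ x, |φ x| ≤ K) →
      (∀ x, ‖fderiv ℝ φ x‖ ≤ K) → |∫ x, u n x * φ x| ≤ C1 * K) {φ : E → ℝ} (hφ : Tst B φ) {k : ℕ}
    (hk : cthickening (2 * (1 / 2) ^ k) (tsupport φ) ⊆ B) :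
    ∫ x, weak1_V l k x * φ x = l (weak1_M ((1 / 2) ^ k) φ) := by
  set s : ℝ := (1 / 2) ^ k with hs
  have hs0 : 0 < s := by positivity
  obtain ⟨K, hK0, hK⟩ := weak1_κ_bd hs0
  have hcpt : IsCompact (cthickening (2 * s) (tsupport φ)) := IsCompact.cthickening hφ.2.1
  have hball : ∀ x ∈ tsupport φ, closedBall x (2 * s) ⊆ cthickening (2 * s) (tsupport φ) :=
    fun x hx => closedBall_subset_cthickening hx _
  -- the swapped integrals
  have swap : ∀ n, AEStronglyMeasurable (fun x => (∫ y, u n y * weak1_κ s x y) * φ x) ∧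
      ∫ x, (∫ y, u n y * weak1_κ s x y) * φ x = ∫ y, u n y * weak1_M s φ y := by
    intro n
    set v : E → ℝ := (cthickening (2 * s) (tsupport φ)).indicator (u n) with hv
    have hvi : Integrable v := by
      rw [hv, integrable_indicator_iff hcpt.measurableSet]
      exact ((hu n).mono hk).integrableOn_compact hcpt
    have e0 : ∀ x y, u n y * weak1_κ s x y * φ x = weak1_κ s x y * (φ x * v y) := by
      intro x y
      by_cases hy : y ∈ cthickening (2 * s) (tsupport φ)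
      · rw [hv, indicator_of_mem hy]; ring
      · have := weak1_M_zero hs0 hy x
        rw [mul_assoc, this, ← mul_assoc, this]; simp
    have hφi : Integrable φ := hφ.1.continuous.integrable_of_hasCompactSupport hφ.2.1
    have hint : Integrable (Function.uncurry fun x y => weak1_κ s x y * (φ x * v y))
        ((volume : Measure E).prod volume) := by
      have h3 : Integrable (fun p : E × E => φ p.1 * v p.2) ((volume : Measure E).prod volume) :=
        hφi.mul_prod hvi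
      refine h3.bdd_mul (f := fun p : E × E => weak1_κ s p.1 p.2) (c := K) ?_ ?_
      · apply Continuous.aestronglyMeasurable
        have hm := weak1_m_smooth.continuous
        unfold weak1_κ weak1_S
        fun_prop
      · exact Filter.Eventually.of_forall fun p => (hK p.1 p.2).1
    have e1 : (fun x => (∫ y, u n y * weak1_κ s x y) * φ x) =
        fun x => ∫ y, weak1_κ s x y * (φ x * v y) := by
      funext x
      rw [← integral_mul_const]
      congr 1
      funext y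
      exact e0 x y
    constructor
    · rw [e1]
      exact hint.integral_prod_left.aestronglyMeasurable
    · rw [e1, integral_integral_swap hint]
      congr 1
      funext y
      unfold weak1_M
      rw [← integral_const_mul]
      congr 1
      funext x
      rw [← e0]; ring
  refine tendsto_nhds_unique (f := fun n => ∫ x, (∫ y, u n y * weak1_κ s x y) * φ x) (l := atTop) ?_ ?_
  · refine tendsto_integral_of_dominated_convergence (fun x => |C1 * K| * |φ x|)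
      (fun n => (swap n).1) ?_ ?_ ?_
    · have hφi : Integrable φ := hφ.1.continuous.integrable_of_hasCompactSupport hφ.2.1
      exact hφi.abs.const_mul _
    · intro n
      refine Filter.Eventually.of_forall fun x => ?_
      by_cases hx : x ∈ tsupport φ
      · rw [norm_mul]
        simp only [Real.norm_eq_abs]
        refine mul_le_mul_of_nonneg_right ?_ (abs_nonneg _)
        refine (h1 n _ (weak1_κ_tst hs0 ((hball x hx).trans hk)) K (fun y => (hK x y).1)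
          (fun y => (hK x y).2)).trans (le_abs_self _)
      · rw [image_eq_zero_of_notMem_tsupport hx]; simp
    · refine Filter.Eventually.of_forall fun x => ?_
      by_cases hx : x ∈ tsupport φ
      · exact (hl _ (weak1_κ_tst hs0 ((hball x hx).trans hk))).mul_const _
      · rw [image_eq_zero_of_notMem_tsupport hx]; simp
  · have := hl _ (weak1_M_tst hφ hs0 hk)
    exact this.congr fun n => (swap n).2.symm

end main

/-- (WEAK1) a weak limit with gradient in `L⁴` is represented by a continuous function -/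
theorem weak_morrey {x0 : E} {r : ℝ} (u : ℕ → E → ℝ) (hu : ∀ n, ContinuousOn (u n) (ball x0 r))
    (l : (E → ℝ) → ℝ)
    (hl : ∀ φ, Tst (ball x0 r) φ → Tendsto (fun n => ∫ x, u n x * φ x) atTop (𝓝 (l φ)))
    (C1 : ℝ) (h1 : ∀ n φ, Tst (ball x0 r) φ → ∀ K, (∀ x, |φ x| ≤ K) → (∀ x, ‖fderiv ℝ φ x‖ ≤ K) →
      |∫ x, u n x * φ x| ≤ C1 * K)
    (C2 : ℝ) (h2 : ∀ φ, Tst (ball x0 r) φ → ∀ a, |l (pd a φ)| ≤
      C2 * (∫ x, |φ x| ^ (4 / 3 : ℝ)) ^ (3 / 4 : ℝ)) :
    ∃ U : E → ℝ, ContinuousOn U (ball x0 r) ∧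
      ∀ φ, Tst (ball x0 r) φ → l φ = ∫ x, U x * φ x := by
  have hUc := weak1_U_cont u hu l hl isOpen_ball h1 h2
  refine ⟨weak1_U l, hUc, fun φ hφ => ?_⟩
  obtain ⟨D, q, hD, hq0, hq1, hV⟩ := weak1_V_U u hu l hl h2
  obtain ⟨L, hL, hM⟩ := weak1_M_close hφ
  obtain ⟨ρ, hρ, hρB⟩ := hφ.2.1.exists_cthickening_subset_open isOpen_ball hφ.2.2
  have hs : Tendsto (fun k : ℕ => (1 / 2 : ℝ) ^ k) atTop (𝓝 0) :=
    tendsto_pow_atTop_nhds_zero_of_lt_one (by norm_num) (by norm_num)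
  have hev : ∀ᶠ k : ℕ in atTop, cthickening (2 * (1 / 2 : ℝ) ^ k) (tsupport φ) ⊆ ball x0 r := by
    have h3 := hs.const_mul 2
    rw [mul_zero] at h3
    filter_upwards [h3.eventually_lt_const hρ] with k hk
    exact (cthickening_mono hk.le _).trans hρB
  have hφi : Integrable φ := hφ.1.continuous.integrable_of_hasCompactSupport hφ.2.1
  -- first limit
  have lim1 : Tendsto (fun k : ℕ => ∫ x, weak1_V l k x * φ x) atTop (𝓝 (l φ)) := by
    rw [tendsto_iff_dist_tendsto_zero]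
    refine squeeze_zero' (g := fun k : ℕ => C1 * (L * (1 / 2 : ℝ) ^ k))
      (Filter.Eventually.of_forall fun _ => dist_nonneg) ?_ ?_
    · filter_upwards [hev] with k hk
      have hs0 : (0 : ℝ) < (1 / 2) ^ k := by positivity
      rw [weak1_fub u hu l hl h1 hφ hk, Real.dist_eq,
        weak1_l_sub u hu l hl (weak1_M_tst hφ hs0 hk) hφ]
      refine weak1_l_bd u l hl h1 (weak1_tst_sub (weak1_M_tst hφ hs0 hk) hφ)
        (fun y => (hM _ hs0 y).1) (fun y => ?_)
      rw [fderiv_fun_sub ((weak1_M_tst hφ hs0 hk).1.differentiable (by simp) y)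
        (hφ.1.differentiable (by simp) y)]
      exact (hM _ hs0 y).2
    · have := (hs.const_mul L).const_mul C1
      simpa using this
  -- second limit
  have lim2 : Tendsto (fun k : ℕ => ∫ x, weak1_V l k x * φ x) atTop
      (𝓝 (∫ x, weak1_U l x * φ x)) := by
    rw [tendsto_iff_dist_tendsto_zero]
    refine squeeze_zero' (g := fun k : ℕ => ∫ x, (D * q ^ k) * |φ x|)
      (Filter.Eventually.of_forall fun _ => dist_nonneg) ?_ ?_
    · filter_upwards [hev] with k hk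
      have hball : ∀ x ∈ tsupport φ, closedBall x (2 * (1 / 2 : ℝ) ^ k) ⊆ ball x0 r :=
        fun x hx => (closedBall_subset_cthickening hx _).trans hk
      have hT : Tst {x | closedBall x (2 * (1 / 2 : ℝ) ^ k) ⊆ ball x0 r} φ :=
        ⟨hφ.1, hφ.2.1, hball⟩
      have i1 := weak1_integrable hT (weak1_V_cont u hu l hl h1 k)
      have i2 := weak1_integrable hφ hUc
      rw [dist_eq_norm, ← integral_sub i1 i2]
      refine norm_integral_le_of_norm_le (hφi.abs.const_mul _) ?_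
      refine Filter.Eventually.of_forall fun x => ?_
      rw [← sub_mul, norm_mul]
      simp only [Real.norm_eq_abs]
      by_cases hx : x ∈ tsupport φ
      · gcongr
        exact hV k x (hball x hx)
      · rw [image_eq_zero_of_notMem_tsupport hx]; simp
    · simp_rw [integral_const_mul]
      have := ((tendsto_pow_atTop_nhds_zero_of_lt_one hq0 hq1).const_mul D).mul_const (∫ x, |φ x|)
      simpa using this
  exact tendsto_nhds_unique lim1 lim2

end YR
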