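import Pool.Agent.Rig71.B11

/-!
# B12a : orthonormal covectors (`exists_orthonormal`) and the pointwise algebra (`alg_point`)
-/

open scoped ContDiff Topology MatrixOrder
open MeasureTheory Metric Set Filter

noncomputable section

namespace YR

theorem exists_orthonormal {U : Set E} {G : E → Mat} (hG : LM U G) {x : E} (hx : x ∈ U) :
    ∃ ξ : Fin 3 → Fin 3 → ℝ, ∀ j k, ∑ a, ∑ b, gi G x a b * ξ j a * ξ k b =
      if j = k then 1 else 0 := by
  have hpos := hG.pos x hx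
  obtain ⟨B, hB⟩ := CStarAlgebra.nonneg_iff_eq_star_mul_self.mp hpos.posSemidef.nonneg
  rw [Matrix.star_eq_conjTranspose, Matrix.conjTranspose_eq_transpose_of_trivial] at hB
  have hdet : (G x).det ≠ 0 := (det_pos hG hx).ne'
  have hdB : IsUnit B.det := by
    rw [isUnit_iff_ne_zero]
    intro h0
    apply hdet
    rw [hB, Matrix.det_mul, h0, mul_zero]
  have hdBT : IsUnit B.transpose.det := by rwa [Matrix.det_transpose]
  have h1 : B * gi G x * B.transpose = 1 := by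
    unfold gi
    rw [hB, Matrix.mul_inv_rev, ← Matrix.mul_assoc, Matrix.mul_nonsing_inv _ hdB,
      Matrix.one_mul, Matrix.nonsing_inv_mul _ hdBT]
  refine ⟨fun j a => B j a, fun j k => ?_⟩
  have h2 := congrFun (congrFun h1 j) k
  rw [Matrix.mul_apply, Matrix.one_apply] at h2
  rw [← h2, Finset.sum_comm]
  refine Finset.sum_congr rfl fun b _ => ?_
  rw [Matrix.mul_apply, Finset.sum_mul]
  refine Finset.sum_congr rfl fun a _ => ?_
  rw [Matrix.transpose_apply]
  ring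

/-- orthonormal covectors resolve the metric -/
theorem b12_resolve {U : Set E} {G : E → Mat} (hG : LM U G) {x : E} (hx : x ∈ U)
    {V : Fin 3 → Fin 3 → ℝ} (hV : ∀ j k, ∑ a, ∑ b, gi G x a b * V j a * V k b =
      if j = k then 1 else 0) (a b : Fin 3) : ∑ j, V j a * V j b = G x a b := by
  have hU : IsUnit (G x).det := (det_pos hG hx).ne'.isUnit
  set A : Mat := Matrix.of V with hA
  have h1 : A * (gi G x * A.transpose) = 1 := by
    ext j k
    rw [Matrix.mul_apply, Matrix.one_apply, ← hV j k]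
    refine Finset.sum_congr rfl fun a _ => ?_
    rw [Matrix.mul_apply, Finset.mul_sum]
    refine Finset.sum_congr rfl fun b _ => ?_
    rw [Matrix.transpose_apply, hA, Matrix.of_apply, Matrix.of_apply]
    ring
  have h2 : (gi G x * A.transpose) * A = 1 := mul_eq_one_comm.1 h1
  have h3 : A.transpose * A = G x := by
    have : G x * ((gi G x * A.transpose) * A) = G x := by rw [h2, Matrix.mul_one]
    rw [← this]
    unfold gi
    rw [← Matrix.mul_assoc, ← Matrix.mul_assoc, Matrix.mul_nonsing_inv _ hU, Matrix.one_mul]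
  have h4 := congrFun (congrFun h3 a) b
  rw [Matrix.mul_apply] at h4
  rw [← h4]
  rfl


section

variable {U : Set E} {G : E → Mat} (hG : LM U G) {u w : E → ℝ} {x : E}

include hG

theorem b12_diff (hu : ContDiffOn ℝ ∞ u U) (hx : x ∈ U) : DifferentiableAt ℝ u x :=
  (hu.contDiffAt (hG.op.mem_nhds hx)).differentiableAt (by simp)

omit hG in
theorem b12_inv_smooth (hw : ContDiffOn ℝ ∞ w U) (hp : ∀ y ∈ U, 0 < w y) :
    ContDiffOn ℝ ∞ (fun y => (w y)⁻¹) U := hw.inv fun y hy => (hp y hy).ne'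

theorem b12_pd_inv (hw : ContDiffOn ℝ ∞ w U) (hp : ∀ y ∈ U, 0 < w y) (hx : x ∈ U) (a : Fin 3) :
    pd a (fun y => (w y)⁻¹) x = -(w x)⁻¹ ^ 2 * pd a w x := by
  have h := pd_comp (a := a) (hasDerivAt_inv (hp x hx).ne') (b12_diff hG hw hx)
  rw [h, inv_pow]

theorem b12_hess_inv (hw : ContDiffOn ℝ ∞ w U) (hp : ∀ y ∈ U, 0 < w y) (hx : x ∈ U)
    (a b : Fin 3) : hess G (fun y => (w y)⁻¹) a b x =
      -(w x)⁻¹ ^ 2 * hess G w a b x + 2 * (w x)⁻¹ ^ 3 * (pd a w x * pd b w x) := by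
  have hQ := b12_inv_smooth hw hp
  have h0 : hess G (fun y => w y * (w y)⁻¹) a b x = 0 := by
    have e : (fun y => w y * (w y)⁻¹) =ᶠ[𝓝 x] fun _ => (1 : ℝ) := by
      filter_upwards [hG.op.mem_nhds hx] with y hy
      exact mul_inv_cancel₀ (hp y hy).ne'
    rw [(hess_congr (EventuallyEq.refl _ G) e a b).eq_of_nhds]
    have hpd : ∀ a : Fin 3, pd a (fun _ : E => (1 : ℝ)) = fun _ => 0 := fun a => by
      funext y; exact pd_const
    unfold hess
    simp only [hpd]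
    simp [pd_const]
  have h1 := hess_mul hG hw hQ hx a b
  rw [h0, b12_pd_inv hG hw hp hx a, b12_pd_inv hG hw hp hx b] at h1
  have hw0 := (hp x hx).ne'
  have h2 : w x * hess G (fun y => (w y)⁻¹) a b x =
      w x * (-(w x)⁻¹ ^ 2 * hess G w a b x + 2 * (w x)⁻¹ ^ 3 * (pd a w x * pd b w x)) := by
    have e1 : w x * (w x)⁻¹ = 1 := mul_inv_cancel₀ hw0
    linear_combination -h1 - (2 * (w x)⁻¹ ^ 2 * (pd a w x * pd b w x)
      - (w x)⁻¹ * hess G w a b x) * e1
  exact mul_left_cancel₀ hw0 h2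

theorem b12_pd_div (hw : ContDiffOn ℝ ∞ w U) (hp : ∀ y ∈ U, 0 < w y) (hu : ContDiffOn ℝ ∞ u U)
    (hx : x ∈ U) (a : Fin 3) : pd a (fun y => u y ^ 2 / w y) x =
      2 * u x * (w x)⁻¹ * pd a u x - (u x * (w x)⁻¹) ^ 2 * pd a w x := by
  have e : (fun y => u y ^ 2 / w y) = fun y => (u y * u y) * (w y)⁻¹ := by
    funext y; rw [div_eq_mul_inv, sq]
  have du := b12_diff hG hu hx
  have dd : DifferentiableAt ℝ (fun y => u y * u y) x := du.mul du
  rw [e, pd_mul dd (b12_diff hG (b12_inv_smooth hw hp) hx), pd_mul du du,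
    b12_pd_inv hG hw hp hx]
  ring

theorem b12_hess_div (hw : ContDiffOn ℝ ∞ w U) (hp : ∀ y ∈ U, 0 < w y) (hu : ContDiffOn ℝ ∞ u U)
    (hx : x ∈ U) (a b : Fin 3) : hess G (fun y => u y ^ 2 / w y) a b x =
      2 * u x * (w x)⁻¹ * hess G u a b x - (u x * (w x)⁻¹) ^ 2 * hess G w a b x +
      2 * (w x)⁻¹ * ((pd a u x - u x * (w x)⁻¹ * pd a w x) *
        (pd b u x - u x * (w x)⁻¹ * pd b w x)) := by
  have e : (fun y => u y ^ 2 / w y) = fun y => (u y * u y) * (w y)⁻¹ := by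
    funext y; rw [div_eq_mul_inv, sq]
  have du := b12_diff hG hu hx
  rw [e, hess_mul hG (hu.mul hu) (b12_inv_smooth hw hp) hx, hess_mul hG hu hu hx,
    pd_mul du du, pd_mul du du, b12_pd_inv hG hw hp hx, b12_pd_inv hG hw hp hx,
    b12_hess_inv hG hw hp hx]
  ring

end

theorem alg_point {U : Set E} {G : E → Mat} (hG : LM U G) {w : E → ℝ} {e : Fin 3 → E → ℝ}
    (hw : ContDiffOn ℝ ∞ w U) (hp : ∀ y ∈ U, 0 < w y) (he : ∀ j, ContDiffOn ℝ ∞ (e j) U)
    (hT : ∀ x ∈ U, ∀ a b, TT G w a b x = 0) (hTe : ∀ j, ∀ x ∈ U, ∀ a b, TT G (e j) a b x = 0)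
    (h1 : ∀ x ∈ U, bb G w w x = 0) (h2 : ∀ j, ∀ x ∈ U, bb G (e j) w x = 0)
    (h3 : ∀ j k, ∀ x ∈ U, bb G (e j) (e k) x = if j = k then -1 else 0) :
    ∀ x ∈ U, (∀ a b, TT G (fun y => ∑ j, e j y ^ 2 / w y) a b x = 0) ∧
      bb G w (fun y => ∑ j, e j y ^ 2 / w y) x = 2 ∧
      bb G (fun y => ∑ j, e j y ^ 2 / w y) (fun y => ∑ j, e j y ^ 2 / w y) x = 0 := by
  intro x hx
  have hw0 : w x ≠ 0 := (hp x hx).ne'
  set q : ℝ := (w x)⁻¹ with hq
  have hwq : w x * q = 1 := mul_inv_cancel₀ hw0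
  set Ω : E → ℝ := fun y => ∑ j, e j y ^ 2 / w y with hΩ
  have hu : ∀ j, ContDiffOn ℝ ∞ (fun y => e j y ^ 2 / w y) U := fun j =>
    ((he j).pow 2).div hw fun y hy => (hp y hy).ne'
  have hΩ3 : Ω = fun y => (e 0 y ^ 2 / w y + e 1 y ^ 2 / w y) + e 2 y ^ 2 / w y := by
    funext y; rw [hΩ]; simp only [Fin.sum_univ_three]
  have hΩs : ContDiffOn ℝ ∞ Ω U := by
    rw [hΩ3]; exact ((hu 0).add (hu 1)).add (hu 2)
  -- inner products
  have sy : ∀ u v : E → ℝ, inn G u v x = inn G v u x := fun u v => inn_symm hG hx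
  have iww : inn G w w x = 2 * rho G w x * w x := by
    have := h1 x hx; unfold bb at this; linarith
  have iew : ∀ j, inn G (e j) w x = rho G (e j) x * w x + rho G w x * e j x := fun j => by
    have := h2 j x hx; unfold bb at this; linarith
  have iee : ∀ j k, inn G (e j) (e k) x = rho G (e j) x * e k x + rho G (e k) x * e j x +
      (if j = k then 1 else 0) := fun j k => by
    have := h3 j k x hx; unfold bb at this
    split_ifs at this ⊢ <;> linarith
  -- the orthonormal covectors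
  set V : Fin 3 → Fin 3 → ℝ := fun j a => pd a (e j) x - e j x * q * pd a w x with hV
  have hVV : ∀ j k, ∑ a, ∑ b, gi G x a b * V j a * V k b = if j = k then 1 else 0 := by
    intro j k
    have e1 : ∑ a, ∑ b, gi G x a b * V j a * V k b = inn G (e j) (e k) x -
        e k x * q * inn G (e j) w x - e j x * q * inn G w (e k) x +
        (e j x * q) * (e k x * q) * inn G w w x := by
      simp only [hV, inn, Fin.sum_univ_three]
      ring
    rw [e1, sy w (e k), iww, iew, iew, iee]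
    linear_combination (-(e k x * rho G (e j) x) - e j x * rho G (e k) x
      + 2 * e j x * e k x * q * rho G w x) * hwq
  have hG2 := b12_resolve hG hx hVV
  -- Hessian
  have hhe : ∀ j a b, hess G (e j) a b x = rho G (e j) x * G x a b - e j x * sch G a b x :=
    fun j a b => by have := hTe j x hx a b; unfold TT at this; linarith
  have hhw : ∀ a b, hess G w a b x = rho G w x * G x a b - w x * sch G a b x :=
    fun a b => by have := hT x hx a b; unfold TT at this; linarith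
  have hΩx : Ω x = (e 0 x ^ 2 + e 1 x ^ 2 + e 2 x ^ 2) * q := by
    rw [hΩ3]; simp only [div_eq_mul_inv, ← hq]; ring
  set Λ : ℝ := 2 * q * (e 0 x * rho G (e 0) x + e 1 x * rho G (e 1) x + e 2 x * rho G (e 2) x) -
    (e 0 x ^ 2 + e 1 x ^ 2 + e 2 x ^ 2) * q ^ 2 * rho G w x + 2 * q with hΛ
  have hhΩ : ∀ a b, hess G Ω a b x = Λ * G x a b - Ω x * sch G a b x := by
    intro a b
    rw [hΩ3, hess_add hG ((hu 0).add (hu 1)) (hu 2) hx, hess_add hG (hu 0) (hu 1) hx,
      b12_hess_div hG hw hp (he 0) hx, b12_hess_div hG hw hp (he 1) hx,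
      b12_hess_div hG hw hp (he 2) hx, hhe, hhe, hhe, hhw, ← hΩ3, hΩx, ← hq]
    have h4 := hG2 a b
    simp only [hV, Fin.sum_univ_three] at h4
    linear_combination 2 * q * h4 + (e 0 x ^ 2 + e 1 x ^ 2 + e 2 x ^ 2) * q * sch G a b x * hwq
  have hTT : ∀ a b, TT G Ω a b x = (Λ - rho G Ω x) * G x a b := by
    intro a b
    unfold TT
    rw [hhΩ]; ring
  have hρ : rho G Ω x = Λ := by
    have h4 := tr_TT hG hΩs hx
    have h5 := tr_metric hG hx
    have h6 : tr G (fun a b => TT G Ω a b x) x = (Λ - rho G Ω x) * tr G (fun a b => G x a b) x := by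
      simp only [hTT, tr, Finset.mul_sum]
      refine Finset.sum_congr rfl fun a _ => Finset.sum_congr rfl fun b _ => by ring
    rw [h4, h5] at h6
    linarith
  have hpd : ∀ a, pd a Ω x = 2 * q * (e 0 x * pd a (e 0) x + e 1 x * pd a (e 1) x +
      e 2 x * pd a (e 2) x) - (e 0 x ^ 2 + e 1 x ^ 2 + e 2 x ^ 2) * q ^ 2 * pd a w x := by
    intro a
    have d := fun j => b12_diff hG (hu j) hx
    have d01 : DifferentiableAt ℝ (fun y => e 0 y ^ 2 / w y + e 1 y ^ 2 / w y) x :=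
      (d 0).add (d 1)
    rw [hΩ3, pd_add d01 (d 2), pd_add (d 0) (d 1),
      b12_pd_div hG hw hp (he 0) hx, b12_pd_div hG hw hp (he 1) hx,
      b12_pd_div hG hw hp (he 2) hx, ← hq]
    ring
  have hlin : ∀ v : E → ℝ, inn G Ω v x = 2 * q * (e 0 x * inn G (e 0) v x +
      e 1 x * inn G (e 1) v x + e 2 x * inn G (e 2) v x) -
      (e 0 x ^ 2 + e 1 x ^ 2 + e 2 x ^ 2) * q ^ 2 * inn G w v x := by
    intro v
    simp only [inn, hpd, Fin.sum_univ_three]
    ring
  have hwΩ : inn G Ω w x = 2 * (e 0 x * rho G (e 0) x + e 1 x * rho G (e 1) x +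
      e 2 x * rho G (e 2) x) := by
    rw [hlin, iew, iew, iew, iww]
    linear_combination (2 * (e 0 x * rho G (e 0) x + e 1 x * rho G (e 1) x +
      e 2 x * rho G (e 2) x) - 2 * (e 0 x ^ 2 + e 1 x ^ 2 + e 2 x ^ 2) * q * rho G w x) * hwq
  have heΩ : ∀ j, inn G Ω (e j) x = 2 * q * e j x * (e 0 x * rho G (e 0) x + e 1 x * rho G (e 1) x +
      e 2 x * rho G (e 2) x) + q * (e 0 x ^ 2 + e 1 x ^ 2 + e 2 x ^ 2) * rho G (e j) x
      - (e 0 x ^ 2 + e 1 x ^ 2 + e 2 x ^ 2) * q ^ 2 * rho G w x * e j x + 2 * q * e j x := by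
    intro j
    rw [hlin, sy w (e j), iee, iee, iee, iew]
    have h7 : e 0 x * (if (0 : Fin 3) = j then 1 else 0) + e 1 x * (if (1 : Fin 3) = j then 1 else 0)
        + e 2 x * (if (2 : Fin 3) = j then (1 : ℝ) else 0) = e j x := by
      fin_cases j <;> simp
    linear_combination 2 * q * h7 -
      ((e 0 x ^ 2 + e 1 x ^ 2 + e 2 x ^ 2) * q * rho G (e j) x) * hwq
  refine ⟨fun a b => by rw [hTT, hρ]; ring, ?_, ?_⟩
  · unfold bb
    rw [sy w Ω, hwΩ, hρ, hΩx]
    linear_combination (2 * (e 0 x * rho G (e 0) x + e 1 x * rho G (e 1) x + e 2 x * rho G (e 2) x)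
      - (e 0 x ^ 2 + e 1 x ^ 2 + e 2 x ^ 2) * q * rho G w x + 2) * hwq
  · unfold bb
    rw [hρ, hΩx, hlin Ω, sy _ Ω, sy _ Ω, sy _ Ω, sy _ Ω, heΩ, heΩ, heΩ, hwΩ, hΛ]
    ring

end YR
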