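import Pool.Agent.Rig71.Loc6

/-! Invariance of the chart operators under (local) isometries `τ : (V, G) → (V', G')`. -/

open scoped ContDiff Topology
open MeasureTheory Metric Set Filter

noncomputable section

namespace YR

/-- `τ` is a smooth map with `τ^* G' = G` -/
structure CC (V : Set E) (G : E → Mat) (V' : Set E) (G' : E → Mat) (τ : E → E) : Prop where
  lm : LM V G
  lm' : LM V' G'
  maps : ∀ x ∈ V, τ x ∈ V'
  smooth : ContDiffOn ℝ ∞ τ V
  pull : ∀ x ∈ V, ∀ a b, G x a b =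
    ∑ c, ∑ d, (fderiv ℝ τ x (be a)) c * (fderiv ℝ τ x (be b)) d * G' (τ x) c d

/-- `h` is the pull back of the bilinear form `h'` at `x` -/
def PB (τ : E → E) (x : E) (h h' : Fin 3 → Fin 3 → ℝ) : Prop :=
  ∀ a b, h a b = ∑ c, ∑ d, (fderiv ℝ τ x (be a)) c * (fderiv ℝ τ x (be b)) d * h' c d

theorem PB.add {τ : E → E} {x : E} {h h' k k' : Fin 3 → Fin 3 → ℝ} (hh : PB τ x h h')
    (hk : PB τ x k k') : PB τ x (fun a b => h a b + k a b) (fun a b => h' a b + k' a b) := by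
  intro a b
  simp only [hh a b, hk a b, mul_add, Finset.sum_add_distrib]

theorem PB.sub {τ : E → E} {x : E} {h h' k k' : Fin 3 → Fin 3 → ℝ} (hh : PB τ x h h')
    (hk : PB τ x k k') : PB τ x (fun a b => h a b - k a b) (fun a b => h' a b - k' a b) := by
  intro a b
  simp only [hh a b, hk a b, mul_sub, Finset.sum_sub_distrib]

theorem PB.smul {τ : E → E} {x : E} {h h' : Fin 3 → Fin 3 → ℝ} (hh : PB τ x h h') (c : ℝ) :
    PB τ x (fun a b => c * h a b) (fun a b => c * h' a b) := by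
  intro a b
  simp only
  rw [hh a b, Finset.mul_sum]
  refine Finset.sum_congr rfl fun p _ => ?_
  rw [Finset.mul_sum]
  exact Finset.sum_congr rfl fun q _ => by ring

/-- the Jacobian `∂_a τ^c` -/
private def jac (τ : E → E) (c a : Fin 3) (z : E) : ℝ := pd a (fun y => τ y c) z

private theorem datI {U : Set E} {f : E → ℝ} {x : E} (hU : IsOpen U) (h : ContDiffOn ℝ ∞ f U)
    (hx : x ∈ U) : DifferentiableAt ℝ f x :=
  (h.contDiffAt (hU.mem_nhds hx)).differentiableAt (by simp)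

private theorem swap4 (F : Fin 3 → Fin 3 → Fin 3 → Fin 3 → ℝ) :
    ∑ a, ∑ b, ∑ p, ∑ r, F a b p r = ∑ p, ∑ r, ∑ a, ∑ b, F a b p r := by
  calc ∑ a, ∑ b, ∑ p, ∑ r, F a b p r = ∑ a, ∑ p, ∑ b, ∑ r, F a b p r :=
        Finset.sum_congr rfl fun a _ => Finset.sum_comm
    _ = ∑ p, ∑ a, ∑ b, ∑ r, F a b p r := Finset.sum_comm
    _ = ∑ p, ∑ a, ∑ r, ∑ b, F a b p r :=
        Finset.sum_congr rfl fun p _ => Finset.sum_congr rfl fun a _ => Finset.sum_comm
    _ = ∑ p, ∑ r, ∑ a, ∑ b, F a b p r := Finset.sum_congr rfl fun p _ => Finset.sum_comm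

/-- contraction -/
private theorem contr (g J A : Fin 3 → Fin 3 → ℝ) :
    ∑ a, ∑ b, g a b * (∑ p, ∑ r, J p a * J r b * A p r) =
      ∑ p, ∑ r, (∑ a, ∑ b, g a b * J p a * J r b) * A p r := by
  simp only [Finset.mul_sum, Finset.sum_mul]
  rw [swap4]
  refine Finset.sum_congr rfl fun p _ => Finset.sum_congr rfl fun r _ =>
    Finset.sum_congr rfl fun a _ => Finset.sum_congr rfl fun b _ => ?_
  ring

private theorem ip_form (F : E → Mat) (y : E) (h k : Fin 3 → Fin 3 → ℝ) : ip F h k y =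
    ∑ a, ∑ c, gi F y a c * ∑ b, ∑ d, gi F y b d * (h a b * k c d) := by
  unfold ip
  refine Finset.sum_congr rfl fun a _ => ?_
  rw [Finset.sum_comm]
  refine Finset.sum_congr rfl fun c _ => ?_
  rw [Finset.mul_sum]
  refine Finset.sum_congr rfl fun b _ => ?_
  rw [Finset.mul_sum]
  refine Finset.sum_congr rfl fun d _ => ?_
  ring

private theorem prod_expand (J : Fin 3 → Fin 3 → ℝ) (X Y : Fin 3 → ℝ) (b d : Fin 3) :
    (∑ q, J q b * X q) * (∑ s, J s d * Y s) = ∑ q, ∑ s, J q b * J s d * (X q * Y s) := by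
  rw [Finset.sum_mul_sum]
  refine Finset.sum_congr rfl fun q _ => Finset.sum_congr rfl fun s _ => ?_
  ring

/-- the double contraction -/
private theorem contr2 (g gH J h' k' : Fin 3 → Fin 3 → ℝ)
    (hg : ∀ p r, ∑ a, ∑ b, g a b * J p a * J r b = gH p r) :
    ∑ a, ∑ c, g a c * ∑ b, ∑ d, g b d * ((∑ p, ∑ q, J p a * J q b * h' p q) *
      (∑ r, ∑ s, J r c * J s d * k' r s)) =
    ∑ p, ∑ r, gH p r * ∑ q, ∑ s, gH q s * (h' p q * k' r s) := by
  have e1 : ∀ (k : Fin 3 → Fin 3 → ℝ) (a b : Fin 3), ∑ p, ∑ q, J p a * J q b * k p q =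
      ∑ q, J q b * ∑ p, J p a * k p q := by
    intro k a b
    rw [Finset.sum_comm]
    refine Finset.sum_congr rfl fun q _ => ?_
    rw [Finset.mul_sum]
    exact Finset.sum_congr rfl fun p _ => by ring
  have e2 : ∀ a c, ∑ b, ∑ d, g b d * ((∑ p, ∑ q, J p a * J q b * h' p q) *
      (∑ r, ∑ s, J r c * J s d * k' r s)) =
      ∑ q, ∑ s, gH q s * ((∑ p, J p a * h' p q) * (∑ r, J r c * k' r s)) := by
    intro a c
    have s1 : ∀ b d, (∑ p, ∑ q, J p a * J q b * h' p q) * (∑ r, ∑ s, J r c * J s d * k' r s) =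
        ∑ q, ∑ s, J q b * J s d * ((∑ p, J p a * h' p q) * (∑ r, J r c * k' r s)) := by
      intro b d
      rw [e1 h', e1 k', prod_expand]
    calc _ = ∑ b, ∑ d, g b d * ∑ q, ∑ s, J q b * J s d *
          ((∑ p, J p a * h' p q) * (∑ r, J r c * k' r s)) :=
          Finset.sum_congr rfl fun b _ => Finset.sum_congr rfl fun d _ => by rw [s1]
      _ = ∑ q, ∑ s, (∑ b, ∑ d, g b d * J q b * J s d) *
          ((∑ p, J p a * h' p q) * (∑ r, J r c * k' r s)) :=
          contr g J fun q s => (∑ p, J p a * h' p q) * (∑ r, J r c * k' r s)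
      _ = _ := by simp only [hg]
  simp only [e2]
  have e3 : ∀ a c, g a c * ∑ q, ∑ s, gH q s * ((∑ p, J p a * h' p q) * (∑ r, J r c * k' r s)) =
      ∑ q, ∑ s, gH q s * (g a c * ∑ p, ∑ r, J p a * J r c * (h' p q * k' r s)) := by
    intro a c
    rw [Finset.mul_sum]
    refine Finset.sum_congr rfl fun q _ => ?_
    rw [Finset.mul_sum]
    refine Finset.sum_congr rfl fun s _ => ?_
    rw [prod_expand]
    ring
  simp only [e3]
  rw [swap4]
  have e4 : ∀ q s, ∑ a, ∑ c, gH q s * (g a c * ∑ p, ∑ r, J p a * J r c * (h' p q * k' r s)) =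
      ∑ p, ∑ r, gH p r * (gH q s * (h' p q * k' r s)) := by
    intro q s
    simp only [← Finset.mul_sum]
    rw [contr, Finset.mul_sum]
    refine Finset.sum_congr rfl fun p _ => ?_
    rw [Finset.mul_sum]
    refine Finset.sum_congr rfl fun r _ => ?_
    rw [hg]
    ring
  simp only [e4]
  rw [swap4]
  refine Finset.sum_congr rfl fun p _ => Finset.sum_congr rfl fun r _ => ?_
  rw [Finset.mul_sum]
  refine Finset.sum_congr rfl fun q _ => ?_
  rw [Finset.mul_sum]

/-- algebra: the Christoffel symbols of the first kind -/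
private theorem alg_chr (J : Fin 3 → Fin 3 → ℝ) (DJ : Fin 3 → Fin 3 → Fin 3 → ℝ)
    (H : Fin 3 → Fin 3 → ℝ) (DH : Fin 3 → Fin 3 → Fin 3 → ℝ)
    (hDJ : ∀ a m b, DJ a m b = DJ b m a) (hH : ∀ a b, H a b = H b a)
    (hDH : ∀ p a b, DH p a b = DH p b a) (l a b : Fin 3) (D : Fin 3 → Fin 3 → Fin 3 → ℝ)
    (hD : ∀ a l b, D a l b = ∑ m, ∑ n, (DJ a m l * J n b * H m n + J m l * DJ a n b * H m n +
      J m l * J n b * ∑ p, J p a * DH p m n)) :
    D a l b + D b l a - D l a b = ∑ m, J m l * (2 * ∑ n, H m n * DJ a n b +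
      ∑ n, ∑ p, (DH p m n + DH n m p - DH m p n) * J p a * J n b) := by
  have H10 := hH 1 0
  have H20 := hH 2 0
  have H21 := hH 2 1
  have D10 := fun p => hDH p 1 0
  have D20 := fun p => hDH p 2 0
  have D21 := fun p => hDH p 2 1
  have e1 : ∀ m, DJ l m a = DJ a m l := fun m => hDJ _ _ _
  have e2 : ∀ m, DJ l m b = DJ b m l := fun m => hDJ _ _ _
  have e3 : ∀ m, DJ b m a = DJ a m b := fun m => hDJ _ _ _
  rw [hD a l b, hD b l a, hD l a b]
  simp only [e1, e2, e3]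
  simp only [Fin.sum_univ_three, H10, H20, H21, D10, D20, D21]
  ring

private theorem alg_h2 (g J : Fin 3 → Fin 3 → ℝ) (W : Fin 3 → ℝ) (m : Fin 3) :
    ∑ k, J m k * ((1 / 2) * ∑ l, g k l * (∑ m', J m' l * W m')) =
      (1 / 2) * ∑ m', (∑ k, ∑ l, g k l * J m k * J m' l) * W m' := by
  simp only [Fin.sum_univ_three]
  ring

private theorem alg_h4 (gi0 : Fin 3 → ℝ) (H J : Fin 3 → Fin 3 → ℝ) (DJab : Fin 3 → ℝ)
    (DH : Fin 3 → Fin 3 → Fin 3 → ℝ) (a b : Fin 3) :
    (1 / 2) * ∑ m', gi0 m' * (2 * ∑ n, H m' n * DJab n + ∑ n, ∑ p,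
      (DH p m' n + DH n m' p - DH m' p n) * J p a * J n b) =
      ∑ n, (∑ m', gi0 m' * H m' n) * DJab n +
      ∑ p, ∑ n, ((1 / 2) * ∑ m', gi0 m' * (DH p m' n + DH n m' p - DH m' p n)) * J p a * J n b := by
  simp only [Fin.sum_univ_three]
  ring

private theorem alg_hess (J : Fin 3 → Fin 3 → ℝ) (DJab : Fin 3 → ℝ)
    (Γ' : Fin 3 → Fin 3 → Fin 3 → ℝ) (D2 : Fin 3 → Fin 3 → ℝ) (W : Fin 3 → ℝ) (a b : Fin 3) :
    ∑ c, (DJab c * W c + J c b * ∑ d, J d a * D2 d c) -
      ∑ c, (∑ p, ∑ q, Γ' c p q * J p a * J q b + DJab c) * W c =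
    ∑ c, ∑ d, J c a * J d b * (D2 c d - ∑ k, Γ' k c d * W k) := by
  simp only [Fin.sum_univ_three]
  ring

private theorem alg_riem (J : Fin 3 → Fin 3 → ℝ) (DJ : Fin 3 → Fin 3 → Fin 3 → ℝ)
    (D2J : Fin 3 → Fin 3 → ℝ) (Γ : Fin 3 → Fin 3 → Fin 3 → ℝ)
    (DΓ : Fin 3 → Fin 3 → Fin 3 → ℝ) (Γ' : Fin 3 → Fin 3 → Fin 3 → ℝ)
    (DΓ' : Fin 3 → Fin 3 → Fin 3 → Fin 3 → ℝ) (m l a b : Fin 3)
    (hDJ : ∀ p, DJ a p b = DJ b p a) (hD2 : D2J a b = D2J b a)
    (hCH : ∀ m a b, ∑ k, J m k * Γ k a b = ∑ p, ∑ q, Γ' m p q * J p a * J q b + DJ a m b)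
    (hDCH : ∀ a b, ∑ k, (DJ a m k * Γ k b l + J m k * DΓ a k b) =
      ∑ p, ∑ q, ((∑ s, J s a * DΓ' s m p q) * J p b * J q l + Γ' m p q * DJ a p b * J q l +
        Γ' m p q * J p b * DJ a q l) + D2J a b) :
    ∑ k, J m k * (DΓ a k b - DΓ b k a + ∑ n, (Γ k a n * Γ n b l - Γ k b n * Γ n a l)) =
      ∑ q, ∑ s, ∑ t, (DΓ' s m t q - DΓ' t m s q +
        ∑ n, (Γ' m s n * Γ' n t q - Γ' m t n * Γ' n s q)) * J q l * J s a * J t b := by
  have hT : ∀ a b, ∑ k, DJ a m k * Γ k b l = ∑ r, J m r * ∑ k, Γ r a k * Γ k b l -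
      ∑ p, ∑ q, Γ' m p q * J p a * (∑ r, ∑ s, Γ' q r s * J r b * J s l + DJ b q l) := by
    intro a b
    have h1 : ∀ k, DJ a m k = ∑ r, J m r * Γ r a k - ∑ p, ∑ q, Γ' m p q * J p a * J q k := by
      intro k; rw [hCH m a k]; ring
    simp only [← hCH _ b l, h1]
    simp only [Fin.sum_univ_three]
    ring
  have h1 := hDCH a b
  have h2 := hDCH b a
  have h3 := hT a b
  have h4 := hT b a
  clear hT hCH hDCH
  rw [Finset.sum_add_distrib, h3] at h1
  rw [Finset.sum_add_distrib, h4] at h2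
  clear h3 h4
  have e1 : ∑ k, J m k * (DΓ a k b - DΓ b k a + ∑ n, (Γ k a n * Γ n b l - Γ k b n * Γ n a l)) =
      (∑ k, J m k * DΓ a k b + ∑ r, J m r * ∑ k, Γ r a k * Γ k b l) -
      (∑ k, J m k * DΓ b k a + ∑ r, J m r * ∑ k, Γ r b k * Γ k a l) := by
    simp only [Fin.sum_univ_three]
    ring
  rw [e1]
  simp only [hDJ, hD2] at h1
  have h5 : (∑ k, J m k * DΓ a k b + ∑ r, J m r * ∑ k, Γ r a k * Γ k b l) =
      ∑ p, ∑ q, ((∑ s, J s a * DΓ' s m p q) * J p b * J q l + Γ' m p q * DJ b p a * J q l +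
        Γ' m p q * J p b * DJ a q l) + D2J b a +
      ∑ p, ∑ q, Γ' m p q * J p a * (∑ r, ∑ s, Γ' q r s * J r b * J s l + DJ b q l) := by
    linarith
  have h6 : (∑ k, J m k * DΓ b k a + ∑ r, J m r * ∑ k, Γ r b k * Γ k a l) =
      ∑ p, ∑ q, ((∑ s, J s b * DΓ' s m p q) * J p a * J q l + Γ' m p q * DJ b p a * J q l +
        Γ' m p q * J p a * DJ b q l) + D2J b a +
      ∑ p, ∑ q, Γ' m p q * J p b * (∑ r, ∑ s, Γ' q r s * J r a * J s l + DJ a q l) := by
    linarith
  rw [h5, h6]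
  clear h1 h2 h5 h6 e1
  simp only [Fin.sum_univ_three]
  ring

private theorem contr_grad (g J : Fin 3 → Fin 3 → ℝ) (W : Fin 3 → ℝ) (c : Fin 3) :
    ∑ a, J c a * ∑ b, g a b * (∑ d, J d b * W d) =
      ∑ d, (∑ a, ∑ b, g a b * J c a * J d b) * W d := by
  simp only [Fin.sum_univ_three]
  ring

section

variable {V V' : Set E} {G G' : E → Mat} {τ : E → E} (hc : CC V G V' G' τ)
  {u v w : E → ℝ} {x : E}

include hc

/-! ### INV1 : first order -/

theorem CC.diff (hu : ContDiffOn ℝ ∞ u V') : ContDiffOn ℝ ∞ (fun y => u (τ y)) V :=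
  hu.comp hc.smooth hc.maps

private theorem CC.dat (hx : x ∈ V) : DifferentiableAt ℝ τ x :=
  (hc.smooth.contDiffAt (hc.lm.op.mem_nhds hx)).differentiableAt (by simp)

private theorem CC.pd0 (hu : DifferentiableAt ℝ u (τ x)) (hx : x ∈ V) (a : Fin 3) :
    YR.pd a (fun y => u (τ y)) x = ∑ c, (fderiv ℝ τ x (be a)) c * YR.pd c u (τ x) := by
  have h : HasFDerivAt (fun y => u (τ y)) ((fderiv ℝ u (τ x)).comp (fderiv ℝ τ x)) x :=
    hu.hasFDerivAt.comp x (hc.dat hx).hasFDerivAt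
  unfold YR.pd
  rw [h.fderiv, ContinuousLinearMap.comp_apply, fderiv_eq_sum]
  rfl

theorem CC.pd (hu : ContDiffOn ℝ ∞ u V') (hx : x ∈ V) (a : Fin 3) :
    YR.pd a (fun y => u (τ y)) x = ∑ c, (fderiv ℝ τ x (be a)) c * YR.pd c u (τ x) :=
  hc.pd0 (datI hc.lm'.op hu (hc.maps x hx)) hx a

theorem CC.metric (hx : x ∈ V) : PB τ x (fun a b => G x a b) (fun a b => G' (τ x) a b) :=
  hc.pull x hx

theorem CC.dd (hu : ContDiffOn ℝ ∞ u V') (hv : ContDiffOn ℝ ∞ v V') (hx : x ∈ V) :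
    PB τ x (fun a b => YR.pd a (fun y => u (τ y)) x * YR.pd b (fun y => v (τ y)) x)
      (fun a b => YR.pd a u (τ x) * YR.pd b v (τ x)) := by
  intro a b
  simp only
  rw [hc.pd hu hx, hc.pd hv hx, Finset.sum_mul_sum]
  exact Finset.sum_congr rfl fun c _ => Finset.sum_congr rfl fun d _ => by ring

/-- the Jacobian matrix -/
private theorem CC.mat_eq (hx : x ∈ V) {J : Mat} (hJ : J = Matrix.of fun c a => (fderiv ℝ τ x (be a)) c) :
    G x = J.transpose * G' (τ x) * J := by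
  subst hJ
  ext a b
  rw [hc.pull x hx, Matrix.mul_apply]
  simp only [Matrix.mul_apply, Matrix.transpose_apply, Matrix.of_apply, Finset.sum_mul]
  rw [Finset.sum_comm]
  exact Finset.sum_congr rfl fun c _ => Finset.sum_congr rfl fun d _ => by ring

private theorem CC.det_ne (hx : x ∈ V) {J : Mat}
    (hJ : J = Matrix.of fun c a => (fderiv ℝ τ x (be a)) c) : IsUnit J.det := by
  have h1 := det_pos hc.lm hx
  rw [hc.mat_eq hx hJ, Matrix.det_mul] at h1
  exact (right_ne_zero_of_mul h1.ne').isUnit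

/-- `J G⁻¹ Jᵀ = G'⁻¹` -/
private theorem CC.gi_eq (hx : x ∈ V) (c d : Fin 3) :
    ∑ a, ∑ b, gi G x a b * (fderiv ℝ τ x (be a)) c * (fderiv ℝ τ x (be b)) d =
      gi G' (τ x) c d := by
  obtain ⟨J, hJ⟩ : ∃ J : Mat, J = Matrix.of fun c a => (fderiv ℝ τ x (be a)) c := ⟨_, rfl⟩
  have hdJ := hc.det_ne hx hJ
  have hdJt : IsUnit J.transpose.det := by rwa [Matrix.det_transpose]
  have h0 : J * gi G x * J.transpose = gi G' (τ x) := by
    unfold gi
    rw [hc.mat_eq hx hJ, Matrix.mul_inv_rev, Matrix.mul_inv_rev]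
    rw [← Matrix.mul_assoc, ← Matrix.mul_assoc, Matrix.mul_nonsing_inv _ hdJ, Matrix.one_mul,
      Matrix.mul_assoc, Matrix.nonsing_inv_mul _ hdJt, Matrix.mul_one]
  have h := congrFun (congrFun h0 c) d
  rw [← h, Matrix.mul_apply, hJ]
  simp only [Matrix.mul_apply, Matrix.transpose_apply, Matrix.of_apply, Finset.sum_mul]
  rw [Finset.sum_comm]
  exact Finset.sum_congr rfl fun a _ => Finset.sum_congr rfl fun b _ => by ring

theorem CC.tr (hx : x ∈ V) {h h' : Fin 3 → Fin 3 → ℝ} (hh : PB τ x h h') :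
    YR.tr G h x = YR.tr G' h' (τ x) := by
  unfold YR.tr
  simp only [hh _ _]
  refine (contr (fun a b => gi G x a b) (fun c a => (fderiv ℝ τ x (be a)) c) h').trans ?_
  simp only [hc.gi_eq hx]

theorem CC.ip (hx : x ∈ V) {h h' k k' : Fin 3 → Fin 3 → ℝ} (hh : PB τ x h h')
    (hk : PB τ x k k') : YR.ip G h k x = YR.ip G' h' k' (τ x) := by
  rw [ip_form, ip_form]
  simp only [hh _ _, hk _ _]
  exact contr2 (fun a b => gi G x a b) (fun a b => gi G' (τ x) a b)
    (fun c a => (fderiv ℝ τ x (be a)) c) h' k' (fun p r => hc.gi_eq hx p r)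

/-- the gradient -/
private theorem CC.grad_eq (hu : ContDiffOn ℝ ∞ u V') (hx : x ∈ V) (c : Fin 3) :
    ∑ a, (fderiv ℝ τ x (be a)) c * grad G (fun y => u (τ y)) a x = grad G' u c (τ x) := by
  unfold grad
  simp only [hc.pd hu hx]
  refine (contr_grad (fun a b => gi G x a b) (fun c a => (fderiv ℝ τ x (be a)) c)
    (fun d => YR.pd d u (τ x)) c).trans ?_
  simp only [hc.gi_eq hx]

theorem CC.ev (hu : ContDiffOn ℝ ∞ u V') (hv : ContDiffOn ℝ ∞ v V') (hx : x ∈ V)
    {h h' : Fin 3 → Fin 3 → ℝ} (hh : PB τ x h h') :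
    YR.ev G h (fun y => u (τ y)) (fun y => v (τ y)) x = YR.ev G' h' u v (τ x) := by
  unfold YR.ev
  simp only [← hc.grad_eq hu hx, ← hc.grad_eq hv hx]
  have e1 : ∀ a b, h a b * grad G (fun y => u (τ y)) a x * grad G (fun y => v (τ y)) b x =
      (grad G (fun y => u (τ y)) a x * grad G (fun y => v (τ y)) b x) *
        (∑ c, ∑ d, (fderiv ℝ τ x (be a)) c * (fderiv ℝ τ x (be b)) d * h' c d) := by
    intro a b
    rw [hh a b]
    ring
  simp only [e1]
  refine (contr (fun a b => grad G (fun y => u (τ y)) a x * grad G (fun y => v (τ y)) b x)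
    (fun c a => (fderiv ℝ τ x (be a)) c) h').trans ?_
  refine Finset.sum_congr rfl fun c _ => Finset.sum_congr rfl fun d _ => ?_
  rw [mul_comm, mul_assoc (h' c d), Finset.sum_mul_sum]
  congr 1
  exact Finset.sum_congr rfl fun a _ => Finset.sum_congr rfl fun b _ => by ring

private theorem CC.inn0 (hu : DifferentiableAt ℝ u (τ x)) (hv : DifferentiableAt ℝ v (τ x))
    (hx : x ∈ V) :
    YR.inn G (fun y => u (τ y)) (fun y => v (τ y)) x = YR.inn G' u v (τ x) := by
  unfold YR.inn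
  have e1 : ∀ a b, gi G x a b * YR.pd a (fun y => u (τ y)) x * YR.pd b (fun y => v (τ y)) x =
      gi G x a b * (∑ c, ∑ d, (fderiv ℝ τ x (be a)) c * (fderiv ℝ τ x (be b)) d *
        (YR.pd c u (τ x) * YR.pd d v (τ x))) := by
    intro a b
    rw [hc.pd0 hu hx, hc.pd0 hv hx, mul_assoc, Finset.sum_mul_sum]
    congr 1
    exact Finset.sum_congr rfl fun c _ => Finset.sum_congr rfl fun d _ => by ring
  simp only [e1]
  refine (contr (fun a b => gi G x a b) (fun c a => (fderiv ℝ τ x (be a)) c)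
    (fun c d => YR.pd c u (τ x) * YR.pd d v (τ x))).trans ?_
  simp only [hc.gi_eq hx]
  exact Finset.sum_congr rfl fun c _ => Finset.sum_congr rfl fun d _ => by ring

theorem CC.inn (hu : ContDiffOn ℝ ∞ u V') (hv : ContDiffOn ℝ ∞ v V') (hx : x ∈ V) :
    YR.inn G (fun y => u (τ y)) (fun y => v (τ y)) x = YR.inn G' u v (τ x) :=
  hc.inn0 (datI hc.lm'.op hu (hc.maps x hx)) (datI hc.lm'.op hv (hc.maps x hx)) hx

theorem CC.sqrt_det (hx : x ∈ V) :
    √(G x).det = |(fderiv ℝ τ x).det| * √(G' (τ x)).det := by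
  obtain ⟨J, hJ⟩ : ∃ J : Mat, J = Matrix.of fun c a => (fderiv ℝ τ x (be a)) c := ⟨_, rfl⟩
  have h1 : (fderiv ℝ τ x).det = J.det := by
    let b := (EuclideanSpace.basisFun (Fin 3) ℝ).toBasis
    have h2 : LinearMap.toMatrix b b (fderiv ℝ τ x : E →ₗ[ℝ] E) = J := by
      ext i j
      rw [LinearMap.toMatrix_apply, hJ]
      simp [b, be]
    rw [← h2, LinearMap.det_toMatrix]
  rw [h1, hc.mat_eq hx hJ, Matrix.det_mul, Matrix.det_mul, Matrix.det_transpose,
    mul_assoc, mul_comm (G' (τ x)).det, ← mul_assoc, ← sq, Real.sqrt_mul (sq_nonneg _),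
    Real.sqrt_sq_eq_abs]

/-! ### the Jacobian as a function -/

private theorem CC.comp_smooth (c : Fin 3) : ContDiffOn ℝ ∞ (fun y => τ y c) V := by
  have h : ContDiff ℝ ∞ (fun x : E => x c) := (EuclideanSpace.proj c : E →L[ℝ] ℝ).contDiff
  exact h.comp_contDiffOn hc.smooth

private theorem CC.jac_smooth (c a : Fin 3) : ContDiffOn ℝ ∞ (jac τ c a) V :=
  pd_smooth hc.lm.op (hc.comp_smooth c)

private theorem CC.jac_eq (hx : x ∈ V) (c a : Fin 3) : (fderiv ℝ τ x (be a)) c = jac τ c a x := by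
  unfold jac YR.pd
  have h : HasFDerivAt (fun y => τ y c) ((EuclideanSpace.proj c : E →L[ℝ] ℝ).comp (fderiv ℝ τ x)) x :=
    (EuclideanSpace.proj c : E →L[ℝ] ℝ).hasFDerivAt.comp x (hc.dat hx).hasFDerivAt
  rw [h.fderiv]
  rfl

private theorem CC.jac_comm (hx : x ∈ V) (a c b : Fin 3) :
    YR.pd a (jac τ c b) x = YR.pd b (jac τ c a) x :=
  pd_comm hc.lm.op (hc.comp_smooth c) hx

/-- transformation law of the Christoffel symbols -/
private theorem CC.chr_eq (hx : x ∈ V) (m a b : Fin 3) :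
    ∑ k, jac τ m k x * chr G k a b x =
      ∑ p, ∑ q, chr G' m p q (τ x) * jac τ p a x * jac τ q b x + YR.pd a (jac τ m b) x := by
  have hV := hc.lm.op
  have hU := hc.lm'.op
  have hτz := hc.maps x hx
  have dJ : ∀ c a, DifferentiableAt ℝ (jac τ c a) x := fun c a => datI hV (hc.jac_smooth c a) hx
  have dH : ∀ c d, DifferentiableAt ℝ (fun y => G' y c d) (τ x) := fun c d =>
    datI hU (hc.lm'.smooth c d) hτz
  have dHτ : ∀ c d, DifferentiableAt ℝ (fun y => G' (τ y) c d) x := fun c d =>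
    (dH c d).comp x (hc.dat hx)
  have hD : ∀ a l b, YR.pd a (fun y => G y l b) x = ∑ m, ∑ n,
      (YR.pd a (jac τ m l) x * jac τ n b x * G' (τ x) m n + jac τ m l x * YR.pd a (jac τ n b) x *
        G' (τ x) m n + jac τ m l x * jac τ n b x * ∑ p, jac τ p a x *
          YR.pd p (fun y => G' y m n) (τ x)) := by
    intro a l b
    have h1 : (fun y => G y l b) =ᶠ[𝓝 x]
        fun y => ∑ c, ∑ d, jac τ c l y * jac τ d b y * G' (τ y) c d := by
      filter_upwards [hV.mem_nhds hx] with y hy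
      rw [hc.pull y hy l b]
      simp only [hc.jac_eq hy]
    rw [pd_congr h1, pd_sum]
    · refine Finset.sum_congr rfl fun m _ => ?_
      rw [pd_sum]
      · refine Finset.sum_congr rfl fun n _ => ?_
        rw [pd_mul ((dJ m l).fun_mul (dJ n b)) (dHτ m n), pd_mul (dJ m l) (dJ n b),
          hc.pd0 (u := fun y => G' y m n) (dH m n) hx]
        simp only [hc.jac_eq hx]
        ring
      · intro n _
        exact ((dJ m l).fun_mul (dJ n b)).fun_mul (dHτ m n)
    · intro m _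
      exact DifferentiableAt.fun_sum fun n _ => ((dJ m l).fun_mul (dJ n b)).fun_mul (dHτ m n)
  have halg := fun l => alg_chr (fun m a => jac τ m a x) (fun a m b => YR.pd a (jac τ m b) x)
    (fun m n => G' (τ x) m n) (fun p m n => YR.pd p (fun y => G' y m n) (τ x))
    (fun a m b => hc.jac_comm hx a m b) (fun a b => hc.lm'.symm _ hτz a b)
    (fun p a b => pd_congr (by
      filter_upwards [hU.mem_nhds hτz] with y hy
      exact hc.lm'.symm y hy a b)) l a b (fun a l b => YR.pd a (fun y => G y l b) x) hD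
  set W : Fin 3 → ℝ := fun m => (2 * ∑ n, G' (τ x) m n * YR.pd a (jac τ n b) x +
    ∑ n, ∑ p, (YR.pd p (fun y => G' y m n) (τ x) +
        YR.pd n (fun y => G' y m p) (τ x) - YR.pd m (fun y => G' y p n) (τ x)) * jac τ p a x *
          jac τ n b x) with hW
  have hchr : ∀ k, chr G k a b x = (1 / 2) * ∑ l, gi G x k l * (∑ m, jac τ m l x * W m) := by
    intro k
    unfold chr
    congr 1
    exact Finset.sum_congr rfl fun l _ => by rw [← halg l]
  have hgi : ∀ m', ∑ k, ∑ l, gi G x k l * jac τ m k x * jac τ m' l x = gi G' (τ x) m m' := by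
    intro m'
    rw [← hc.gi_eq hx]
    simp only [hc.jac_eq hx]
  have h2 : ∑ k, jac τ m k x * chr G k a b x = (1 / 2) * ∑ m', gi G' (τ x) m m' * W m' := by
    calc _ = ∑ k, jac τ m k x * ((1 / 2) * ∑ l, gi G x k l * (∑ m', jac τ m' l x * W m')) :=
          Finset.sum_congr rfl fun k _ => by rw [hchr k]
      _ = (1 / 2) * ∑ m', (∑ k, ∑ l, gi G x k l * jac τ m k x * jac τ m' l x) * W m' :=
          alg_h2 (fun k l => gi G x k l) (fun m k => jac τ m k x) W m
      _ = _ := by simp only [hgi]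
  have h3 : ∀ n, ∑ m', gi G' (τ x) m m' * G' (τ x) m' n = if m = n then 1 else 0 := fun n =>
    gi_mul hc.lm' hτz m n
  rw [h2, hW]
  refine (alg_h4 (fun m' => gi G' (τ x) m m') (fun m n => G' (τ x) m n) (fun m a => jac τ m a x)
    (fun n => YR.pd a (jac τ n b) x) (fun p m n => YR.pd p (fun y => G' y m n) (τ x)) a b).trans ?_
  simp only [h3]
  rw [add_comm]
  congr 1
  simp

/-! ### INV2 : Hessian and Laplacian -/

theorem CC.hess (hu : ContDiffOn ℝ ∞ u V') (hx : x ∈ V) :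
    PB τ x (fun a b => YR.hess G (fun y => u (τ y)) a b x) (fun a b => YR.hess G' u a b (τ x)) := by
  intro a b
  have hV := hc.lm.op
  have hU := hc.lm'.op
  have hτx := hc.maps x hx
  have dJ : ∀ c a, DifferentiableAt ℝ (jac τ c a) x := fun c a => datI hV (hc.jac_smooth c a) hx
  have dU : ∀ c, DifferentiableAt ℝ (YR.pd c u) (τ x) := fun c => datI hU (pd_smooth hU hu) hτx
  have dUτ : ∀ c, DifferentiableAt ℝ (fun y => YR.pd c u (τ y)) x := fun c =>
    (dU c).comp x (hc.dat hx)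
  have h1 : YR.pd b (fun y => u (τ y)) =ᶠ[𝓝 x] fun y => ∑ c, jac τ c b y * YR.pd c u (τ y) := by
    filter_upwards [hV.mem_nhds hx] with y hy
    rw [hc.pd hu hy]
    simp only [hc.jac_eq hy]
  have h2 : YR.pd a (YR.pd b (fun y => u (τ y))) x = ∑ c, (YR.pd a (jac τ c b) x * YR.pd c u (τ x) +
      jac τ c b x * ∑ d, jac τ d a x * YR.pd d (YR.pd c u) (τ x)) := by
    rw [pd_congr h1, pd_sum]
    · refine Finset.sum_congr rfl fun c _ => ?_
      rw [pd_mul (dJ c b) (dUτ c), hc.pd0 (dU c) hx]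
      simp only [hc.jac_eq hx]
    · intro c _
      exact (dJ c b).fun_mul (dUτ c)
  have h3 : ∑ k, chr G k a b x * YR.pd k (fun y => u (τ y)) x =
      ∑ c, (∑ p, ∑ q, chr G' c p q (τ x) * jac τ p a x * jac τ q b x + YR.pd a (jac τ c b) x) *
        YR.pd c u (τ x) := by
    simp only [← hc.chr_eq hx, hc.pd hu hx, hc.jac_eq hx]
    simp only [Finset.mul_sum, Finset.sum_mul]
    rw [Finset.sum_comm]
    exact Finset.sum_congr rfl fun c _ => Finset.sum_congr rfl fun d _ => by ring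
  simp only [YR.hess]
  rw [h2, h3]
  refine (alg_hess (fun c a => jac τ c a x) (fun c => YR.pd a (jac τ c b) x)
    (fun c p q => chr G' c p q (τ x)) (fun d c => YR.pd d (YR.pd c u) (τ x))
    (fun c => YR.pd c u (τ x)) a b).trans ?_
  simp only [hc.jac_eq hx]

theorem CC.lap (hu : ContDiffOn ℝ ∞ u V') (hx : x ∈ V) :
    YR.lap G (fun y => u (τ y)) x = YR.lap G' u (τ x) :=
  hc.tr hx (hc.hess hu hx)

/-! ### INV3 : curvature -/

private theorem CC.riem (hx : x ∈ V) (m l a b : Fin 3) :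
    ∑ k, jac τ m k x * YR.riem G k l a b x = ∑ q, ∑ s, ∑ t,
      YR.riem G' m q s t (τ x) * jac τ q l x * jac τ s a x * jac τ t b x := by
  have hV := hc.lm.op
  have hU := hc.lm'.op
  have hτx := hc.maps x hx
  have dJ : ∀ c a, DifferentiableAt ℝ (jac τ c a) x := fun c a => datI hV (hc.jac_smooth c a) hx
  have dDJ : ∀ b c a, DifferentiableAt ℝ (YR.pd b (jac τ c a)) x := fun b c a =>
    datI hV (pd_smooth hV (hc.jac_smooth c a)) hx
  have dΓ : ∀ k a b, DifferentiableAt ℝ (chr G k a b) x := fun k a b =>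
    datI hV (chr_smooth hc.lm k a b) hx
  have dΓ' : ∀ k a b, DifferentiableAt ℝ (chr G' k a b) (τ x) := fun k a b =>
    datI hU (chr_smooth hc.lm' k a b) hτx
  have dΓτ : ∀ k a b, DifferentiableAt ℝ (fun y => chr G' k a b (τ y)) x := fun k a b =>
    (dΓ' k a b).comp x (hc.dat hx)
  have hDCH : ∀ a b, ∑ k, (YR.pd a (jac τ m k) x * chr G k b l x +
      jac τ m k x * YR.pd a (chr G k b l) x) =
      ∑ p, ∑ q, ((∑ s, jac τ s a x * YR.pd s (chr G' m p q) (τ x)) * jac τ p b x * jac τ q l x +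
        chr G' m p q (τ x) * YR.pd a (jac τ p b) x * jac τ q l x +
        chr G' m p q (τ x) * jac τ p b x * YR.pd a (jac τ q l) x) +
        YR.pd a (YR.pd b (jac τ m l)) x := by
    intro a b
    have h1 : (fun y => ∑ k, jac τ m k y * chr G k b l y) =ᶠ[𝓝 x] fun y =>
        (∑ p, ∑ q, chr G' m p q (τ y) * jac τ p b y * jac τ q l y) + YR.pd b (jac τ m l) y := by
      filter_upwards [hV.mem_nhds hx] with y hy
      exact hc.chr_eq hy m b l
    have h2 : YR.pd a (fun y => ∑ k, jac τ m k y * chr G k b l y) x =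
        ∑ k, (YR.pd a (jac τ m k) x * chr G k b l x + jac τ m k x * YR.pd a (chr G k b l) x) := by
      rw [pd_sum fun k _ => (dJ m k).fun_mul (dΓ k b l)]
      exact Finset.sum_congr rfl fun k _ => pd_mul (dJ m k) (dΓ k b l)
    have d3 : ∀ p q, DifferentiableAt ℝ
        (fun y => chr G' m p q (τ y) * jac τ p b y * jac τ q l y) x := fun p q =>
      ((dΓτ m p q).fun_mul (dJ p b)).fun_mul (dJ q l)
    rw [← h2, pd_congr h1, pd_add (DifferentiableAt.fun_sum fun p _ =>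
      DifferentiableAt.fun_sum fun q _ => d3 p q) (dDJ b m l),
      pd_sum fun p _ => DifferentiableAt.fun_sum fun q _ => d3 p q]
    congr 1
    refine Finset.sum_congr rfl fun p _ => ?_
    rw [pd_sum fun q _ => d3 p q]
    refine Finset.sum_congr rfl fun q _ => ?_
    rw [pd_mul ((dΓτ m p q).fun_mul (dJ p b)) (dJ q l), pd_mul (dΓτ m p q) (dJ p b),
      hc.pd0 (dΓ' m p q) hx]
    simp only [hc.jac_eq hx]
    ring
  exact alg_riem (fun m k => jac τ m k x) (fun a m k => YR.pd a (jac τ m k) x)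
    (fun a b => YR.pd a (YR.pd b (jac τ m l)) x) (fun k a b => chr G k a b x)
    (fun a k b => YR.pd a (chr G k b l) x) (fun m p q => chr G' m p q (τ x))
    (fun s m p q => YR.pd s (chr G' m p q) (τ x)) m l a b (fun p => hc.jac_comm hx a p b)
    (pd_comm hV (hc.jac_smooth m l) hx) (fun m a b => hc.chr_eq hx m a b) hDCH

omit hc in
private theorem inv_ric_eq_riem {F : E → Mat} {S : Set E} (hF : LM S F) {y : E} (hy : y ∈ S)
    (a b : Fin 3) : YR.ric F a b y = ∑ k, YR.riem F k a k b y := by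
  unfold YR.ric YR.riem
  refine Finset.sum_congr rfl fun k _ => ?_
  have e1 : YR.pd k (chr F k a b) y = YR.pd k (chr F k b a) y := pd_congr (by
    filter_upwards [hF.op.mem_nhds hy] with z hz
    exact chr_symm hF hz k a b)
  have e2 : YR.pd b (chr F k a k) y = YR.pd b (chr F k k a) y := pd_congr (by
    filter_upwards [hF.op.mem_nhds hy] with z hz
    exact chr_symm hF hz k a k)
  rw [e1, e2]
  congr 1
  refine Finset.sum_congr rfl fun l _ => ?_
  rw [chr_symm hF hy l a b, chr_symm hF hy l a k]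

theorem CC.ric (hx : x ∈ V) : PB τ x (fun a b => YR.ric G a b x) (fun a b => YR.ric G' a b (τ x)) := by
  intro a b
  simp only
  obtain ⟨J, hJ⟩ : ∃ J : Mat, J = Matrix.of fun c a => (fderiv ℝ τ x (be a)) c := ⟨_, rfl⟩
  have hdJ := hc.det_ne hx hJ
  set R : Mat := Matrix.of fun k c => YR.riem G k a c b x with hR
  set S : Mat := Matrix.of fun m s => ∑ q, ∑ t, YR.riem G' m q s t (τ x) * jac τ q a x * jac τ t b x
    with hS
  have h1 : J * R = S * J := by
    ext m c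
    rw [Matrix.mul_apply, Matrix.mul_apply, hJ, hR, hS]
    simp only [Matrix.of_apply, hc.jac_eq hx]
    rw [hc.riem hx m a c b, Finset.sum_comm]
    refine Finset.sum_congr rfl fun s _ => ?_
    rw [Finset.sum_mul]
    refine Finset.sum_congr rfl fun q _ => ?_
    rw [Finset.sum_mul]
    exact Finset.sum_congr rfl fun t _ => by ring
  have h2 : R.trace = S.trace := by
    have h3 : R = J⁻¹ * (S * J) := by
      rw [← h1, ← Matrix.mul_assoc, Matrix.nonsing_inv_mul _ hdJ, Matrix.one_mul]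
    rw [h3, Matrix.trace_mul_comm, Matrix.mul_assoc, Matrix.mul_nonsing_inv _ hdJ, Matrix.mul_one]
  rw [inv_ric_eq_riem hc.lm hx]
  have h4 : ∑ k, YR.riem G k a k b x = R.trace := by
    simp [Matrix.trace, hR]
  rw [h4, h2]
  have h5 : S.trace = ∑ m, ∑ q, ∑ t, YR.riem G' m q m t (τ x) * jac τ q a x * jac τ t b x := by
    simp [Matrix.trace, hS]
  rw [h5, Finset.sum_comm]
  refine Finset.sum_congr rfl fun q _ => ?_
  rw [Finset.sum_comm]
  refine Finset.sum_congr rfl fun t _ => ?_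
  rw [inv_ric_eq_riem hc.lm' (hc.maps x hx), Finset.mul_sum]
  refine Finset.sum_congr rfl fun m _ => ?_
  rw [hc.jac_eq hx, hc.jac_eq hx]
  ring

theorem CC.scal (hx : x ∈ V) : YR.scal G x = YR.scal G' (τ x) :=
  hc.tr hx (hc.ric hx)

theorem CC.sig2 (hx : x ∈ V) : YR.sig2 G x = YR.sig2 G' (τ x) := by
  unfold YR.sig2
  rw [hc.ip hx (hc.ric hx) (hc.ric hx), hc.scal hx]

theorem CC.ric0 (hx : x ∈ V) :
    PB τ x (fun a b => YR.ric0 G a b x) (fun a b => YR.ric0 G' a b (τ x)) := by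
  have h := (hc.ric hx).sub ((hc.metric hx).smul (YR.scal G' (τ x) / 3))
  intro a b
  have h1 := h a b
  simp only [YR.ric0, hc.scal hx]
  exact h1

theorem CC.sch (hx : x ∈ V) :
    PB τ x (fun a b => YR.sch G a b x) (fun a b => YR.sch G' a b (τ x)) := by
  have h := (hc.ric hx).sub ((hc.metric hx).smul (YR.scal G' (τ x) / 4))
  intro a b
  have h1 := h a b
  simp only [YR.sch, hc.scal hx]
  exact h1

theorem CC.rho (hu : ContDiffOn ℝ ∞ u V') (hx : x ∈ V) :
    YR.rho G (fun y => u (τ y)) x = YR.rho G' u (τ x) := by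
  unfold YR.rho
  rw [hc.lap hu hx, hc.scal hx]

theorem CC.TT (hu : ContDiffOn ℝ ∞ u V') (hx : x ∈ V) :
    PB τ x (fun a b => YR.TT G (fun y => u (τ y)) a b x) (fun a b => YR.TT G' u a b (τ x)) := by
  have h := ((hc.hess hu hx).add ((hc.sch hx).smul (u (τ x)))).sub
    ((hc.metric hx).smul (YR.rho G' u (τ x)))
  intro a b
  have h1 := h a b
  simp only [YR.TT, hc.rho hu hx]
  exact h1

theorem CC.qq (hu : ContDiffOn ℝ ∞ u V') (hx : x ∈ V) :
    PB τ x (fun a b => YR.qq G (fun y => u (τ y)) a b x) (fun a b => YR.qq G' u a b (τ x)) := by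
  have h := ((hc.hess hu hx).sub ((hc.dd hu hu hx).smul (1 / 2))).sub
    ((hc.metric hx).smul ((YR.lap G' u (τ x) - YR.inn G' u u (τ x) / 2) / 3))
  intro a b
  have h1 := h a b
  simp only [YR.qq, hc.lap hu hx, hc.inn hu hu hx]
  rw [show YR.hess G (fun y => u (τ y)) a b x - YR.pd a (fun y => u (τ y)) x *
      YR.pd b (fun y => u (τ y)) x / 2 - (YR.lap G' u (τ x) - YR.inn G' u u (τ x) / 2) / 3 *
      G x a b = YR.hess G (fun y => u (τ y)) a b x - 1 / 2 * (YR.pd a (fun y => u (τ y)) x *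
      YR.pd b (fun y => u (τ y)) x) - (YR.lap G' u (τ x) - YR.inn G' u u (τ x) / 2) / 3 *
      G x a b by ring]
  refine h1.trans ?_
  refine Finset.sum_congr rfl fun c _ => Finset.sum_congr rfl fun d _ => ?_
  ring

end

end YR
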