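import Pool.Agent.Rig71.Link1
import Pool.Agent.Rig71.Link2
import Pool.Agent.Rig71.Link3
import Pool.Agent.Rig71.Link4
import Pool.Agent.Rig71.Link5

/-!
MP_71b0e8_gt : the top level. `PartA` (limit of a maximizing sequence), `PartB` (zeros of the limit),
`MainInternal` from both.
-/

open scoped ContDiff Topology
open MeasureTheory Metric Set

noncomputable section

namespace YR

/-- PART A : a maximizing sequence gives a nonnegative solution of `T(θ) = 0` -/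
def PartA.{u} : Prop :=
  ∀ (M : Type u) [TopologicalSpace M] [T2Space M] [CompactSpace M] [ConnectedSpace M]
    [MeasurableSpace M] [BorelSpace M] (𝒜 : Atl M) (𝒢 : Met 𝒜), (∀ p, 0 < 𝒢.scal p) →
    (∀ ε > 0, ∃ (w : M → ℝ) (hw : 𝒜.Sm w) (hp : ∀ p, 0 < w p),
      (∀ p, 0 < (𝒢.conf w hw hp).scal p) ∧ 1 / 3 - ε < (𝒢.conf w hw hp).EE) →
    ∃ θ : M → ℝ, 𝒜.Sm θ ∧ (∀ p, 0 ≤ θ p) ∧ (∃ p, θ p ≠ 0) ∧ ∀ p, 𝒢.t2 θ p = 0

/-- PART B : if the solution has zeros, there is a positive solution -/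
def PartB.{u} : Prop :=
  ∀ (M : Type u) [TopologicalSpace M] [T2Space M] [CompactSpace M] [ConnectedSpace M]
    [MeasurableSpace M] [BorelSpace M] (𝒜 : Atl M) (𝒢 : Met 𝒜), (∀ p, 0 < 𝒢.scal p) →
    ∀ θ : M → ℝ, 𝒜.Sm θ → (∀ p, 0 ≤ θ p) → (∃ p, θ p ≠ 0) → (∃ p, θ p = 0) →
      (∀ p, 𝒢.t2 θ p = 0) →
    ∃ Θ : M → ℝ, 𝒜.Sm Θ ∧ (∀ p, 0 < Θ p) ∧ ∀ p, 𝒢.t2 Θ p = 0

/-- a positive solution of `T = 0` gives constant curvature -/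
theorem final_pos {M : Type*} [TopologicalSpace M] [CompactSpace M] [ConnectedSpace M]
    {𝒜 : Atl M} (𝒢 : Met 𝒜) (hs : ∀ p, 0 < 𝒢.scal p) {θ : M → ℝ} (hθ : 𝒜.Sm θ)
    (hpos : ∀ p, 0 < θ p) (h0 : ∀ p, 𝒢.t2 θ p = 0) :
    ∃ (Θ : M → ℝ) (hΘ : 𝒜.Sm Θ) (hp : ∀ p, 0 < Θ p),
      ∀ p, (𝒢.conf Θ hΘ hp).e2 p = 0 ∧ (𝒢.conf Θ hΘ hp).scal p = 6 := by
  have hθ' := hθ.on univ
  have hbs : 𝒜.Sm (𝒢.bb θ θ) := 𝒢.Sm_bb hθ hθ
  obtain ⟨c, hc⟩ := 𝒢.const_of_inn hbs fun f _ p => by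
    rw [𝒢.inn_symm]
    exact 𝒢.inn_bb_eq_zero isOpen_univ (mem_univ p) hθ' hθ' (fun q _ => h0 q) (fun q _ => h0 q) f
  obtain ⟨p₀, -, hp₀⟩ := isCompact_univ.exists_isMinOn univ_nonempty hθ.continuous.continuousOn
  have hmin : IsLocalMin θ p₀ := Filter.Eventually.of_forall fun q => hp₀ (mem_univ q)
  have hc0 : 0 < c := by
    rw [← hc p₀]
    exact 𝒢.bb_self_min isOpen_univ (mem_univ p₀) hθ' hmin (hpos p₀) (hs p₀)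
  set s : ℝ := (√c)⁻¹ with hsdef
  have hs0 : 0 < s := by positivity
  have hs2 : s ^ 2 * c = 1 := by
    rw [hsdef, inv_pow, Real.sq_sqrt hc0.le, inv_mul_cancel₀ hc0.ne']
  have hΘ : 𝒜.Sm fun p => s * θ p := (Atl.Sm.const s).mul hθ
  refine ⟨fun p => s * θ p, hΘ, fun p => mul_pos hs0 (hpos p), fun p => ⟨?_, ?_⟩⟩
  · rw [𝒢.e2_conf, 𝒢.t2_const_mul isOpen_univ (mem_univ p) hθ' s, h0 p]
    ring
  · rw [𝒢.scal_conf, 𝒢.bb_const_mul isOpen_univ (mem_univ p) hθ' s, 𝒢.bb_symm,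
      𝒢.bb_const_mul isOpen_univ (mem_univ p) hθ' s, hc p]
    linear_combination 6 * hs2

theorem mainInternal_of.{u} (hA : PartA.{u}) (hB : PartB.{u}) : MainInternal.{u} := by
  intro M _ _ _ _ _ _ 𝒜 𝒢 hs hsup
  obtain ⟨θ, hθ, hnn, hne, h0⟩ := hA M 𝒜 𝒢 hs hsup
  by_cases hz : ∃ p, θ p = 0
  · obtain ⟨Θ, hΘ, hpos, h1⟩ := hB M 𝒜 𝒢 hs θ hθ hnn hne hz h0
    exact final_pos 𝒢 hs hΘ hpos h1
  · push Not at hz
    exact final_pos 𝒢 hs hθ (fun p => lt_of_le_of_ne (hnn p) (hz p).symm) h0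

theorem q1_of.{u} (hA : PartA.{u}) (hB : PartB.{u}) : Q1.{u} :=
  q1_of_mainInternal (mainInternal_of hA hB)

end YR
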