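import Pool.Agent.Rig71.BDefs
import Pool.Agent.Rig71.B1

/-!
# B2 : first facts on the zeros of `θ`
-/

open scoped ContDiff Topology
open MeasureTheory Metric Set Filter

noncomputable section

namespace YR

/-! ### auxiliary calculus in `ℝ³` -/

/-- the quadratic form of a positive definite matrix is comparable to the norm -/
theorem b2_quadform {A : Mat} (hA : A.PosDef) : ∃ c > 0, ∃ C > 0, ∀ v : E,
    c * ‖v‖ ^ 2 ≤ ∑ a, ∑ b, A a b * v a * v b ∧ ∑ a, ∑ b, A a b * v a * v b ≤ C * ‖v‖ ^ 2 := by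
  set q : E → ℝ := fun v => ∑ a, ∑ b, A a b * v a * v b with hq
  have hqc : Continuous q := by
    simp only [hq]
    fun_prop
  have hqpos : ∀ v : E, v ≠ 0 → 0 < q v := by
    intro v hv
    have hv' : (fun a => v a) ≠ (0 : Fin 3 → ℝ) := by
      intro h
      apply hv
      ext a
      exact congrFun h a
    have h1 := hA.dotProduct_mulVec_pos hv'
    have h2 : q v = star (fun a => v a) ⬝ᵥ (A.mulVec (fun a => v a)) := by
      simp only [hq, dotProduct, Matrix.mulVec, Finset.mul_sum, Pi.star_apply, star_trivial]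
      apply Finset.sum_congr rfl
      intro a _
      apply Finset.sum_congr rfl
      intro b _
      ring
    rw [h2]
    exact h1
  have hqs : ∀ (t : ℝ) (v : E), q (t • v) = t ^ 2 * q v := by
    intro t v
    simp only [hq, Finset.mul_sum]
    apply Finset.sum_congr rfl
    intro a _
    apply Finset.sum_congr rfl
    intro b _
    simp
    ring
  have hcs : IsCompact (sphere (0 : E) 1) := isCompact_sphere _ _
  have hne : (sphere (0 : E) 1).Nonempty := NormedSpace.sphere_nonempty.mpr zero_le_one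
  obtain ⟨v0, hv0, hmin⟩ := hcs.exists_isMinOn hne hqc.continuousOn
  obtain ⟨v1, hv1, hmax⟩ := hcs.exists_isMaxOn hne hqc.continuousOn
  have hn0 : ∀ v ∈ sphere (0 : E) 1, v ≠ 0 := by
    intro v hv h
    rw [h] at hv
    simp at hv
  refine ⟨q v0, hqpos v0 (hn0 v0 hv0), q v1, hqpos v1 (hn0 v1 hv1), fun v => ?_⟩
  by_cases hv : v = 0
  · subst hv
    simp
  · have hvn : 0 < ‖v‖ := norm_pos_iff.mpr hv
    have hu : ‖v‖⁻¹ • v ∈ sphere (0 : E) 1 := by
      simp [norm_smul, hvn.ne']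
    have h1 : q v = ‖v‖ ^ 2 * q (‖v‖⁻¹ • v) := by
      rw [← hqs, smul_smul, mul_inv_cancel₀ hvn.ne', one_smul]
    have h2 : q v0 ≤ q (‖v‖⁻¹ • v) := hmin hu
    have h3 : q (‖v‖⁻¹ • v) ≤ q v1 := hmax hu
    show q v0 * ‖v‖ ^ 2 ≤ q v ∧ q v ≤ q v1 * ‖v‖ ^ 2
    rw [h1]
    have h4 : 0 < ‖v‖ ^ 2 := by positivity
    constructor <;> nlinarith

/-- second order expansion at a critical zero -/
theorem b2_taylor {f : E → ℝ} {U : Set E} (hU : IsOpen U) (hf : ContDiffOn ℝ ∞ f U) {x : E}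
    (hx : x ∈ U) (h0 : f x = 0) (h1 : ∀ b, pd b f x = 0) {ε : ℝ} (hε : 0 < ε) :
    ∃ r > 0, ball x r ⊆ U ∧ ∀ y ∈ ball x r,
      |f y - (1 / 2) * ∑ a, ∑ b, pd a (pd b f) x * (y - x) a * (y - x) b| ≤ ε * ‖y - x‖ ^ 2 := by
  have hd : ∀ b, ∀ᶠ y in 𝓝 x, |pd b f y - ∑ a, (y - x) a * pd a (pd b f) x| ≤
      ε / 3 * ‖y - x‖ := by
    intro b
    have h2 : DifferentiableAt ℝ (pd b f) x :=
      ((pd_smooth hU hf).contDiffAt (hU.mem_nhds hx)).differentiableAt (by simp)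
    have h3 := (hasFDerivAt_iff_isLittleO.mp h2.hasFDerivAt).def (show 0 < ε / 3 by positivity)
    filter_upwards [h3] with y hy
    rw [h1 b, sub_zero, fderiv_eq_sum] at hy
    exact hy
  have hall : ∀ᶠ y in 𝓝 x, (∀ b, |pd b f y - ∑ a, (y - x) a * pd a (pd b f) x| ≤
      ε / 3 * ‖y - x‖) ∧ y ∈ U := by
    have h2 : ∀ᶠ y in 𝓝 x, ∀ b, |pd b f y - ∑ a, (y - x) a * pd a (pd b f) x| ≤
      ε / 3 * ‖y - x‖ := Filter.eventually_all.mpr hd
    exact h2.and (hU.mem_nhds hx)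
  obtain ⟨r, hr, hball⟩ := Metric.eventually_nhds_iff_ball.mp hall
  refine ⟨r, hr, fun y hy => (hball y hy).2, fun y hy => ?_⟩
  set v := y - x with hv
  have hvr : ‖v‖ < r := by
    rw [hv, ← dist_eq_norm]; exact hy
  have hseg : ∀ t ∈ Icc (0 : ℝ) 1, x + t • v ∈ ball x r := by
    intro t ht
    rw [mem_ball, dist_eq_norm, add_sub_cancel_left, norm_smul, Real.norm_eq_abs,
      abs_of_nonneg ht.1]
    calc t * ‖v‖ ≤ 1 * ‖v‖ := mul_le_mul_of_nonneg_right ht.2 (norm_nonneg _)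
      _ < r := by linarith
  set Q : ℝ := ∑ a, ∑ b, pd a (pd b f) x * v a * v b with hQ
  have hderiv : ∀ t ∈ Icc (0 : ℝ) 1, HasDerivWithinAt
      (fun t : ℝ => f (x + t • v) - (1 / 2) * t ^ 2 * Q)
      (∑ b, v b * pd b f (x + t • v) - t * Q) (Icc 0 1) t := by
    intro t ht
    have h2 : HasFDerivAt f (fderiv ℝ f (x + t • v)) (x + t • v) :=
      ((hf.contDiffAt (hU.mem_nhds (hball _ (hseg t ht)).2)).differentiableAt
        (by simp)).hasFDerivAt
    have h3 : HasDerivAt (fun t : ℝ => x + t • v) v t := by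
      simpa using ((hasDerivAt_id t).smul_const v).const_add x
    have h4 := h2.comp_hasDerivAt t h3
    rw [fderiv_eq_sum] at h4
    have h5 : HasDerivAt (fun t : ℝ => (1 / 2) * t ^ 2 * Q) (t * Q) t := by
      have := (((hasDerivAt_id t).pow 2).const_mul (1 / 2)).mul_const Q
      have e : (1 / 2 : ℝ) * ((2 : ℕ) * id t ^ (2 - 1) * 1) * Q = t * Q := by
        simp only [id, Nat.cast_ofNat, Nat.add_one_sub_one, pow_one]
        ring
      rw [e] at this
      exact this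
    exact (h4.sub h5).hasDerivWithinAt
  have hbound : ∀ t ∈ Ico (0 : ℝ) 1, ‖∑ b, v b * pd b f (x + t • v) - t * Q‖ ≤
      ε * ‖v‖ ^ 2 := by
    intro t ht
    have ht' : t ∈ Icc (0 : ℝ) 1 := ⟨ht.1, ht.2.le⟩
    have h2 := (hball _ (hseg t ht')).1
    have e1 : x + t • v - x = t • v := add_sub_cancel_left _ _
    rw [e1] at h2
    have h3 : ∑ b, v b * pd b f (x + t • v) - t * Q =
        ∑ b, v b * (pd b f (x + t • v) - ∑ a, (t • v) a * pd a (pd b f) x) := by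
      simp only [mul_sub, Finset.sum_sub_distrib]
      congr 1
      rw [hQ, Finset.sum_comm, Finset.mul_sum]
      apply Finset.sum_congr rfl
      intro b _
      rw [Finset.mul_sum, Finset.mul_sum]
      apply Finset.sum_congr rfl
      intro a _
      simp
      ring
    rw [h3, Real.norm_eq_abs]
    calc |∑ b, v b * (pd b f (x + t • v) - ∑ a, (t • v) a * pd a (pd b f) x)|
        ≤ ∑ b, |v b * (pd b f (x + t • v) - ∑ a, (t • v) a * pd a (pd b f) x)| :=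
          Finset.abs_sum_le_sum_abs _ _
      _ ≤ ∑ _b : Fin 3, ‖v‖ * (ε / 3 * ‖v‖) := by
          apply Finset.sum_le_sum
          intro b _
          rw [abs_mul]
          have h4 : |v b| ≤ ‖v‖ := by
            have := PiLp.norm_apply_le v b
            rwa [Real.norm_eq_abs] at this
          have h5 : ‖t • v‖ ≤ ‖v‖ := by
            rw [norm_smul, Real.norm_eq_abs, abs_of_nonneg ht.1]
            calc t * ‖v‖ ≤ 1 * ‖v‖ := mul_le_mul_of_nonneg_right ht.2.le (norm_nonneg _)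
              _ = ‖v‖ := one_mul _
          apply mul_le_mul h4 _ (abs_nonneg _) (norm_nonneg _)
          calc _ ≤ ε / 3 * ‖t • v‖ := h2 b
            _ ≤ ε / 3 * ‖v‖ := by gcongr
      _ = ε * ‖v‖ ^ 2 := by
          simp
          ring
  have hfin := norm_image_sub_le_of_norm_deriv_le_segment_01' hderiv hbound
  have e2 : x + (1 : ℝ) • v = y := by rw [one_smul, hv]; abel
  have e3 : x + (0 : ℝ) • v = x := by rw [zero_smul, add_zero]
  simp only [e2, e3, h0] at hfin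
  rw [Real.norm_eq_abs] at hfin
  have e4 : f y - 1 / 2 * 1 ^ 2 * Q - (0 - 1 / 2 * 0 ^ 2 * Q) = f y - 1 / 2 * Q := by ring
  rw [e4] at hfin
  exact hfin

variable {M : Type*} [TopologicalSpace M] [T2Space M] [CompactSpace M] [ConnectedSpace M]
  {𝒜 : Atl M} {𝒢 : Met 𝒜} {θ : M → ℝ}

omit [T2Space M] [CompactSpace M] [ConnectedSpace M] in
theorem ZD.pd_zero (h : ZD 𝒢 θ) (i : Fin 𝒜.n) {x : E} (hx : x ∈ ball (0 : E) 4)
    (h0 : 𝒜.rd θ i x = 0) (a : Fin 3) : pd a (𝒜.rd θ i) x = 0 := by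
  have h1 : IsLocalMin (𝒜.rd θ i) x := by
    apply Filter.Eventually.of_forall
    intro y
    show 𝒜.rd θ i x ≤ 𝒜.rd θ i y
    rw [h0]
    exact h.nn _
  unfold pd
  rw [h1.fderiv_eq_zero]
  rfl

omit [T2Space M] [CompactSpace M] [ConnectedSpace M] in
theorem ZD.b2_localMin (h : ZD 𝒢 θ) {p : M} (h0 : θ p = 0) : IsLocalMin θ p := by
  apply Filter.Eventually.of_forall
  intro q
  show θ p ≤ θ q
  rw [h0]
  exact h.nn q

omit [T2Space M] [CompactSpace M] [ConnectedSpace M] in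
theorem ZD.inn_zero (h : ZD 𝒢 θ) {p : M} (h0 : θ p = 0) (u : M → ℝ) : 𝒢.inn u θ p = 0 := by
  rw [Met.inn_symm]
  exact Met.inn_eq_zero_of_isLocalExtr 𝒢 isOpen_univ (mem_univ p) (h.sm.on univ)
    (Or.inl (h.b2_localMin h0)) u

omit [T2Space M] [CompactSpace M] in
theorem ZD.bb_self (h : ZD 𝒢 θ) (p : M) : 𝒢.bb θ θ p = 0 := by
  obtain ⟨q, hq⟩ := h.zero
  rw [Met.bb_const 𝒢 h.sm h.sm h.t2 h.t2 p q]
  unfold Met.bb
  rw [h.inn_zero hq, hq]
  ring

omit [T2Space M] [CompactSpace M] in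
theorem ZD.inn_self (h : ZD 𝒢 θ) (p : M) : 𝒢.inn θ θ p = 2 * 𝒢.rho θ p * θ p := by
  have h1 := h.bb_self p
  unfold Met.bb at h1
  linarith

omit [T2Space M] [CompactSpace M] in
theorem ZD.rho_pos (h : ZD 𝒢 θ) {p : M} (h0 : θ p = 0) : 0 < 𝒢.rho θ p := by
  have h1 : 0 ≤ 𝒢.lap θ p := Met.lap_nonneg_of_isLocalMin 𝒢 isOpen_univ (mem_univ p)
    (h.sm.on univ) (h.b2_localMin h0)
  have h2 : 0 ≤ 𝒢.rho θ p := by
    unfold Met.rho
    rw [h0]
    linarith
  rcases h2.lt_or_eq with h3 | h3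
  · exact h3
  · exfalso
    obtain ⟨q, hq⟩ := h.ne
    exact hq (Met.kill 𝒢 h.sm h.t2 h0 (h.inn_zero h0 θ) h3.symm q)

omit [T2Space M] in
theorem ZD.grad_bound (h : ZD 𝒢 θ) : ∃ C, ∀ p, 𝒢.inn θ θ p ≤ C * θ p := by
  have hc : Continuous (𝒢.rho θ) := (𝒢.Sm_rho h.sm).continuous
  obtain ⟨C, hC⟩ := (isCompact_univ (X := M)).exists_bound_of_continuousOn hc.continuousOn
  refine ⟨2 * C, fun p => ?_⟩
  rw [h.inn_self p]
  have h1 : 𝒢.rho θ p ≤ C := (le_abs_self _).trans (hC p (mem_univ p))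
  exact mul_le_mul_of_nonneg_right (by linarith) (h.nn p)

/-- `θ` is comparable to the squared distance near each zero -/
theorem ZD.quad (h : ZD 𝒢 θ) (i : Fin 𝒜.n) {x : E} (hx : x ∈ ball (0 : E) 4)
    (h0 : 𝒜.rd θ i x = 0) : ∃ c > 0, ∃ r > 0, ball x r ⊆ ball (0 : E) 4 ∧ ∀ y ∈ ball x r,
      c * ‖y - x‖ ^ 2 ≤ 𝒜.rd θ i y ∧ 𝒜.rd θ i y ≤ c⁻¹ * ‖y - x‖ ^ 2 := by
  have hxd : x ∈ 𝒜.dom univ i := ⟨hx, mem_univ _⟩
  have hp0 : θ ((𝒜.φ i).symm x) = 0 := h0
  have hpd := h.pd_zero i hx h0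
  set ρ := YR.rho (𝒢.g i) (𝒜.rd θ i) x with hρ
  have hρpos : 0 < ρ := by
    have h1 := h.rho_pos hp0
    rw [Met.rho_chart 𝒢 isOpen_univ (h.sm.on univ) i hxd] at h1
    exact h1
  have hT := Met.TT_of_t2 𝒢 isOpen_univ (h.sm.on univ) (fun p _ => h.t2 p) i x hxd
  have hH : ∀ a b, pd a (pd b (𝒜.rd θ i)) x = ρ * 𝒢.g i x a b := by
    intro a b
    have h1 := hT a b
    unfold TT hess at h1
    simp only [hpd, h0, mul_zero, Finset.sum_const_zero, zero_mul, sub_zero, add_zero] at h1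
    rw [← hρ] at h1
    linarith
  obtain ⟨c0, hc0, C0, hC0, hq⟩ := b2_quadform ((𝒢.lm i).pos x hx)
  obtain ⟨r, hr, hrU, hr'⟩ := b2_taylor isOpen_ball (h.sm i) hx h0 hpd
    (show 0 < ρ * c0 / 4 by positivity)
  have hsum : ∀ v : E, ∑ a, ∑ b, pd a (pd b (𝒜.rd θ i)) x * v a * v b =
      ρ * ∑ a, ∑ b, 𝒢.g i x a b * v a * v b := by
    intro v
    rw [Finset.mul_sum]
    apply Finset.sum_congr rfl
    intro a _
    rw [Finset.mul_sum]
    apply Finset.sum_congr rfl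
    intro b _
    rw [hH]
    ring
  set K := ρ * C0 / 2 + ρ * c0 / 4 with hK
  have hK0 : 0 < K := by positivity
  refine ⟨min (ρ * c0 / 4) K⁻¹, by positivity, r, hr, hrU, fun y hy => ?_⟩
  have h1 := hr' y hy
  rw [hsum] at h1
  have h2 := hq (y - x)
  have h3 := abs_le.mp h1
  set n2 := ‖y - x‖ ^ 2 with hn2
  have hn0 : 0 ≤ n2 := by positivity
  set S := ∑ a, ∑ b, 𝒢.g i x a b * (y - x) a * (y - x) b with hS
  have hS1 : ρ * (c0 * n2) ≤ ρ * S := mul_le_mul_of_nonneg_left h2.1 hρpos.le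
  have hS2 : ρ * S ≤ ρ * (C0 * n2) := mul_le_mul_of_nonneg_left h2.2 hρpos.le
  constructor
  · calc min (ρ * c0 / 4) K⁻¹ * n2 ≤ ρ * c0 / 4 * n2 :=
        mul_le_mul_of_nonneg_right (min_le_left _ _) hn0
      _ ≤ 𝒜.rd θ i y := by
        have := h3.1
        linarith
  · calc 𝒜.rd θ i y ≤ K * n2 := by
          have := h3.2
          rw [hK]
          linarith
      _ ≤ (min (ρ * c0 / 4) K⁻¹)⁻¹ * n2 := by
        apply mul_le_mul_of_nonneg_right _ hn0
        rw [le_inv_comm₀ hK0 (by positivity)]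
        exact min_le_right _ _

/-- the zero set has empty interior -/
theorem ZD.dense (h : ZD 𝒢 θ) : Dense {p | 0 < θ p} := by
  intro p
  rcases (h.nn p).lt_or_eq with hp | hp
  · exact subset_closure hp
  · obtain ⟨i, z, hz, hzp⟩ := Atl.exists_chart (𝒜 := 𝒜) p
    have hz4 : z ∈ ball (0 : E) 4 := ball_subset_ball (by norm_num) hz
    have h0 : 𝒜.rd θ i z = 0 := by
      show θ ((𝒜.φ i).symm z) = 0
      rw [hzp]; exact hp.symm
    obtain ⟨c, hc, r, hr, hrU, hq⟩ := h.quad i hz4 h0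
    have hcont : ContinuousAt (𝒜.φ i).symm z := by
      apply (𝒜.φ i).continuousAt_symm
      rw [𝒜.target_eq i]
      exact hz4
    have ht : Tendsto (𝒜.φ i).symm (𝓝[≠] z) (𝓝 p) := by
      have := hcont.tendsto
      rw [hzp] at this
      exact this.mono_left nhdsWithin_le_nhds
    have hne : (𝓝[≠] z).NeBot := inferInstance
    apply mem_closure_of_tendsto ht
    have h1 : ∀ᶠ y in 𝓝[≠] z, y ∈ ball z r := nhdsWithin_le_nhds (ball_mem_nhds z hr)
    have h2 : ∀ᶠ y in 𝓝[≠] z, y ≠ z := self_mem_nhdsWithin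
    filter_upwards [h1, h2] with y hy1 hy2
    have h3 := (hq y hy1).1
    have h4 : 0 < ‖y - z‖ := norm_pos_iff.mpr (sub_ne_zero.mpr hy2)
    have h5 : 0 < c * ‖y - z‖ ^ 2 := by positivity
    exact h5.trans_le h3

end YR
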