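import Mathlib

/-! Pure algebra behind the contracted Bianchi identity. -/

set_option autoImplicit false

namespace YR.Loc5Alg

abbrev T3 := Fin 3 → Fin 3 → Fin 3 → ℝ
abbrev T4 := Fin 3 → Fin 3 → Fin 3 → Fin 3 → ℝ
abbrev T5 := Fin 3 → Fin 3 → Fin 3 → Fin 3 → Fin 3 → ℝ

/-- curvature from `Γ` (`Γ k a l = Γ^k_{al}`) and its derivatives (`D e k a l = ∂_e Γ^k_{al}`) -/
def Rm (Γ : T3) (D : T4) (k l a b : Fin 3) : ℝ :=
  D a k b l - D b k a l + ∑ m, (Γ k a m * Γ m b l - Γ k b m * Γ m a l)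

/-- derivative of curvature -/
def dRm (Γ : T3) (D : T4) (DD : T5) (e k l a b : Fin 3) : ℝ :=
  DD e a k b l - DD e b k a l + ∑ m, ((D e k a m * Γ m b l + Γ k a m * D e m b l) -
    (D e k b m * Γ m a l + Γ k b m * D e m a l))

/-- second Bianchi identity -/
theorem bianchi2 (Γ : T3) (D : T4) (DD : T5) (hDD : ∀ e a k b l, DD e a k b l = DD a e k b l)
    (k l a b e : Fin 3) :
    (dRm Γ D DD e k l a b + ∑ m, (Γ k e m * Rm Γ D m l a b - Γ m e l * Rm Γ D k m a b)) +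
    (dRm Γ D DD a k l b e + ∑ m, (Γ k a m * Rm Γ D m l b e - Γ m a l * Rm Γ D k m b e)) +
    (dRm Γ D DD b k l e a + ∑ m, (Γ k b m * Rm Γ D m l e a - Γ m b l * Rm Γ D k m e a)) = 0 := by
  simp only [dRm, Rm, Fin.sum_univ_three]
  linear_combination hDD e a k b l + hDD a b k e l + hDD b e k a l

/-- covariant derivative of curvature -/
def nR (Γ : T3) (R : T4) (dR : T5) (e k l a b : Fin 3) : ℝ :=
  dR e k l a b + ∑ m, (Γ k e m * R m l a b - Γ m e l * R k m a b - Γ m e a * R k l m b -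
    Γ m e b * R k l a m)

theorem nR_cyc (Γ : T3) (R : T4) (dR : T5) (hΓ : ∀ k a b, Γ k a b = Γ k b a)
    (hR : ∀ k l a b, R k l a b = - R k l b a) (k l a b e : Fin 3)
    (h : (dR e k l a b + ∑ m, (Γ k e m * R m l a b - Γ m e l * R k m a b)) +
      (dR a k l b e + ∑ m, (Γ k a m * R m l b e - Γ m a l * R k m b e)) +
      (dR b k l e a + ∑ m, (Γ k b m * R m l e a - Γ m b l * R k m e a)) = 0) :
    nR Γ R dR e k l a b + nR Γ R dR a k l b e + nR Γ R dR b k l e a = 0 := by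
  rw [← h]
  simp only [nR, Fin.sum_univ_three]
  rw [hR k l 0 b, hR k l 1 b, hR k l 2 b, hR k l 0 a, hR k l 1 a, hR k l 2 a,
    hR k l 0 e, hR k l 1 e, hR k l 2 e, hΓ 0 e a, hΓ 1 e a, hΓ 2 e a, hΓ 0 b a, hΓ 1 b a, hΓ 2 b a,
    hΓ 0 e b, hΓ 1 e b, hΓ 2 e b]
  ring

/-- contracted derivative -/
def nRic (Γ : T3) (Ric : Fin 3 → Fin 3 → ℝ) (dRic : T3) (e l b : Fin 3) : ℝ :=
  dRic e l b - ∑ m, (Γ m e l * Ric m b + Γ m e b * Ric l m)

theorem contract1 (Γ : T3) (R : T4) (dR : T5) (e l b : Fin 3) :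
    ∑ k, nR Γ R dR e k l k b =
      nRic Γ (fun l b => ∑ k, R k l k b) (fun e l b => ∑ k, dR e k l k b) e l b := by
  simp only [nR, nRic, Fin.sum_univ_three]
  ring

theorem contract2 (Γ : T3) (R : T4) (dR : T5) (hR : ∀ k l a b, R k l a b = - R k l b a)
    (hdR : ∀ e k l a b, dR e k l a b = - dR e k l b a) (b l e : Fin 3) :
    ∑ k, nR Γ R dR b k l e k =
      - nRic Γ (fun l b => ∑ k, R k l k b) (fun e l b => ∑ k, dR e k l k b) b l e := by
  rw [← contract1, ← Finset.sum_neg_distrib]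
  refine Finset.sum_congr rfl fun k _ => ?_
  unfold nR
  rw [hdR b k l e k, neg_add, ← Finset.sum_neg_distrib]
  congr 1
  refine Finset.sum_congr rfl fun m _ => ?_
  rw [hR m l e k, hR k m e k, hR k l m k, hR k l e m]
  ring

theorem divW (Γ : T3) (R : T4) (dR : T5) (H : Fin 3 → Fin 3 → ℝ) (b : Fin 3) :
    ∑ l, ∑ e, H l e * ∑ k, nR Γ R dR k k l b e =
      ∑ k, (∑ l, ∑ e, ((-∑ m, (Γ l k m * H m e + Γ e k m * H l m)) * R k l b e +
        H l e * dR k k l b e)) +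
      ∑ k, ∑ m, (Γ k k m * (∑ l, ∑ e, H l e * R m l b e) -
        Γ m k b * ∑ l, ∑ e, H l e * R k l m e) := by
  simp only [nR, Fin.sum_univ_three]
  ring

theorem divRic (Γ : T3) (Ric : Fin 3 → Fin 3 → ℝ) (dRic : T3) (H : Fin 3 → Fin 3 → ℝ)
    (b : Fin 3) :
    ∑ k, ∑ m, H k m * nRic Γ Ric dRic k m b =
      ∑ k, (∑ m, ((-∑ j, (Γ k k j * H j m + Γ m k j * H k j)) * Ric m b +
        H k m * dRic k m b)) +
      ∑ k, ∑ m, (Γ k k m * (∑ j, H m j * Ric j b) - Γ m k b * ∑ j, H k j * Ric j m) := by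
  simp only [nRic, Fin.sum_univ_three]
  ring

theorem dscal (Γ : T3) (Ric : Fin 3 → Fin 3 → ℝ) (dRic : T3) (H : Fin 3 → Fin 3 → ℝ)
    (b : Fin 3) :
    ∑ l, ∑ e, H l e * nRic Γ Ric dRic b l e =
      ∑ l, ∑ e, ((-∑ m, (Γ l b m * H m e + Γ e b m * H l m)) * Ric l e +
        H l e * dRic b l e) := by
  simp only [nRic, Fin.sum_univ_three]
  ring

/-- the contracted Bianchi identity, algebraic part -/
theorem contracted (Γ : T3) (R : T4) (dR : T5) (H : Fin 3 → Fin 3 → ℝ)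
    (hR : ∀ k l a b, R k l a b = - R k l b a)
    (hdR : ∀ e k l a b, dR e k l a b = - dR e k l b a)
    (hH : ∀ a b, H a b = H b a)
    (hcyc : ∀ k l a b e, nR Γ R dR e k l a b + nR Γ R dR a k l b e + nR Γ R dR b k l e a = 0)
    (hW : ∀ k b, ∑ l, ∑ e, H l e * R k l b e = ∑ m, H k m * ∑ j, R j m j b)
    (hdW : ∀ c k b, ∑ l, ∑ e, ((-∑ m, (Γ l c m * H m e + Γ e c m * H l m)) * R k l b e +
        H l e * dR c k l b e) =
      ∑ m, ((-∑ j, (Γ k c j * H j m + Γ m c j * H k j)) * (∑ j, R j m j b) +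
        H k m * ∑ j, dR c j m j b)) (b : Fin 3) :
    2 * ∑ a, ∑ c, H a c * nRic Γ (fun l b => ∑ k, R k l k b) (fun e l b => ∑ k, dR e k l k b) c a b
      = ∑ l, ∑ e, ((-∑ m, (Γ l b m * H m e + Γ e b m * H l m)) * (∑ k, R k l k e) +
        H l e * ∑ k, dR b k l k e) := by
  have h1 : ∀ l e : Fin 3,
      nRic Γ (fun l b => ∑ k, R k l k b) (fun e l b => ∑ k, dR e k l k b) e l b
      + ∑ k, nR Γ R dR k k l b e
      - nRic Γ (fun l b => ∑ k, R k l k b) (fun e l b => ∑ k, dR e k l k b) b l e = 0 := by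
    intro l e
    have h2 : ∑ k, (nR Γ R dR e k l k b + nR Γ R dR k k l b e + nR Γ R dR b k l e k) = 0 :=
      Finset.sum_eq_zero fun k _ => hcyc k l k b e
    rw [Finset.sum_add_distrib, Finset.sum_add_distrib, contract1, contract2 Γ R dR hR hdR] at h2
    linarith
  have h3 : ∑ l, ∑ e, H l e * (nRic Γ (fun l b => ∑ k, R k l k b)
      (fun e l b => ∑ k, dR e k l k b) e l b + ∑ k, nR Γ R dR k k l b e
      - nRic Γ (fun l b => ∑ k, R k l k b) (fun e l b => ∑ k, dR e k l k b) b l e) = 0 := by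
    refine Finset.sum_eq_zero fun l _ => Finset.sum_eq_zero fun e _ => ?_
    rw [h1, mul_zero]
  simp_rw [mul_sub, mul_add, Finset.sum_sub_distrib, Finset.sum_add_distrib] at h3
  rw [divW, dscal] at h3
  have h4 := divRic Γ (fun l b => ∑ k, R k l k b) (fun e l b => ∑ k, dR e k l k b) H b
  have h5 : ∑ k, (∑ l, ∑ e, ((-∑ m, (Γ l k m * H m e + Γ e k m * H l m)) * R k l b e +
        H l e * dR k k l b e)) +
      ∑ k, ∑ m, (Γ k k m * (∑ l, ∑ e, H l e * R m l b e) -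
        Γ m k b * ∑ l, ∑ e, H l e * R k l m e) =
      ∑ k, ∑ m, H k m * nRic Γ (fun l b => ∑ k, R k l k b)
        (fun e l b => ∑ k, dR e k l k b) k m b := by
    rw [h4]
    congr 1
    · exact Finset.sum_congr rfl fun k _ => hdW k k b
    · refine Finset.sum_congr rfl fun k _ => Finset.sum_congr rfl fun m _ => ?_
      rw [hW m b, hW k m]
  have h6 : ∑ k, ∑ m, H k m * nRic Γ (fun l b => ∑ k, R k l k b)
        (fun e l b => ∑ k, dR e k l k b) k m b =
      ∑ a, ∑ c, H a c * nRic Γ (fun l b => ∑ k, R k l k b)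
        (fun e l b => ∑ k, dR e k l k b) c a b := by
    rw [Finset.sum_comm]
    refine Finset.sum_congr rfl fun k _ => Finset.sum_congr rfl fun m _ => ?_
    rw [hH]
  rw [h5, h6] at h3
  linarith

/-- commuting second derivatives of the inverse metric: antisymmetry of curvature -/
theorem anti (Γ : T3) (D : T4) (H : Fin 3 → Fin 3 → ℝ) (hH : ∀ a b, H a b = H b a)
    (k l a b : Fin 3)
    (h : -∑ m, ((D a k b m * H m l + Γ k b m * -∑ j, (Γ m a j * H j l + Γ l a j * H m j)) +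
          (D a l b m * H k m + Γ l b m * -∑ j, (Γ k a j * H j m + Γ m a j * H k j))) =
      -∑ m, ((D b k a m * H m l + Γ k a m * -∑ j, (Γ m b j * H j l + Γ l b j * H m j)) +
          (D b l a m * H k m + Γ l a m * -∑ j, (Γ k b j * H j m + Γ m b j * H k j)))) :
    ∑ m, Rm Γ D k m a b * H m l + ∑ m, Rm Γ D l m a b * H m k = 0 := by
  simp only [Rm, Fin.sum_univ_three] at h ⊢
  rw [hH k 0, hH k 1, hH k 2] at h
  rw [hH 1 0, hH 2 0, hH 2 1] at h
  linear_combination (-1) * h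

theorem traceW (R : T4) (H : Fin 3 → Fin 3 → ℝ) (hH : ∀ a b, H a b = H b a)
    (hR : ∀ k l a b, R k l a b = - R k l b a)
    (ha : ∀ k l a b, ∑ m, R k m a b * H m l + ∑ m, R l m a b * H m k = 0) (k b : Fin 3) :
    ∑ l, ∑ e, H l e * R k l b e = ∑ m, H k m * ∑ j, R j m j b := by
  rw [Finset.sum_comm]
  simp_rw [Finset.mul_sum]
  rw [Finset.sum_comm (f := fun m j => H k m * R j m j b)]
  refine Finset.sum_congr rfl fun e _ => ?_
  have h1 := ha k e b e
  have h2 : ∑ m, R e m b e * H m k = -∑ m, H k m * R e m e b := by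
    rw [← Finset.sum_neg_distrib]
    refine Finset.sum_congr rfl fun m _ => ?_
    rw [hR e m b e, hH m k]; ring
  have h3 : ∑ m, R k m b e * H m e = ∑ l, H l e * R k l b e :=
    Finset.sum_congr rfl fun m _ => mul_comm _ _
  rw [h2, h3] at h1
  linarith

end YR.Loc5Alg
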