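import Pool.Agent.Rig71.Loc5a
import Pool.Agent.Rig71.Loc5b

/-! The system for `T`. `hG : LM U G` throughout. -/

open scoped ContDiff Topology
open MeasureTheory Metric Set Filter

noncomputable section

namespace YR

namespace Loc6Aux

theorem dAt {U : Set E} {G : E → Mat} (hG : LM U G) {f : E → ℝ} {x : E}
    (hf : ContDiffOn ℝ ∞ f U) (hx : x ∈ U) : DifferentiableAt ℝ f x :=
  (hf.contDiffAt (hG.op.mem_nhds hx)).differentiableAt (by simp)

theorem tr_add (G : E → Mat) (h k : Fin 3 → Fin 3 → ℝ) (x : E) :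
    tr G (fun a b => h a b + k a b) x = tr G h x + tr G k x := by
  simp only [tr, mul_add, Finset.sum_add_distrib]

theorem tr_mul (G : E → Mat) (c : ℝ) (h : Fin 3 → Fin 3 → ℝ) (x : E) :
    tr G (fun a b => c * h a b) x = c * tr G h x := by
  simp only [tr, Finset.mul_sum]
  refine Finset.sum_congr rfl fun a _ => Finset.sum_congr rfl fun b _ => ?_
  ring

/-- Covariant derivative of a bilinear form. -/
def cov (G : E → Mat) (h : Fin 3 → Fin 3 → E → ℝ) (c a b : Fin 3) (x : E) : ℝ :=
  pd c (h a b) x - ∑ k, (chr G k c a x * h k b x + chr G k c b x * h a k x)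

/-- Divergence of a bilinear form. -/
def dv (G : E → Mat) (h : Fin 3 → Fin 3 → E → ℝ) (b : Fin 3) (x : E) : ℝ :=
  ∑ a, ∑ c, gi G x a c * cov G h c a b x

section

variable {U : Set E} {G : E → Mat} (hG : LM U G) {x : E}

include hG

theorem cov_add {h k : Fin 3 → Fin 3 → E → ℝ} (hh : ∀ a b, ContDiffOn ℝ ∞ (h a b) U)
    (hk : ∀ a b, ContDiffOn ℝ ∞ (k a b) U) (hx : x ∈ U) (c a b : Fin 3) :
    cov G (fun a b y => h a b y + k a b y) c a b x = cov G h c a b x + cov G k c a b x := by
  unfold cov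
  rw [pd_add (dAt hG (hh a b) hx) (dAt hG (hk a b) hx)]
  simp only [mul_add, Finset.sum_add_distrib]
  ring

theorem cov_mul {f : E → ℝ} {h : Fin 3 → Fin 3 → E → ℝ} (hf : ContDiffOn ℝ ∞ f U)
    (hh : ∀ a b, ContDiffOn ℝ ∞ (h a b) U) (hx : x ∈ U) (c a b : Fin 3) :
    cov G (fun a b y => f y * h a b y) c a b x =
      pd c f x * h a b x + f x * cov G h c a b x := by
  unfold cov
  rw [pd_mul (dAt hG hf hx) (dAt hG (hh a b) hx)]
  have : ∑ k, (chr G k c a x * (f x * h k b x) + chr G k c b x * (f x * h a k x)) =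
      f x * ∑ k, (chr G k c a x * h k b x + chr G k c b x * h a k x) := by
    rw [Finset.mul_sum]
    exact Finset.sum_congr rfl fun k _ => by ring
  rw [this]; ring

theorem cov_metric (hx : x ∈ U) (c a b : Fin 3) :
    cov G (fun a b y => G y a b) c a b x = 0 := by
  unfold cov
  rw [pd_G hG hx]
  ring

theorem dv_add {h k : Fin 3 → Fin 3 → E → ℝ} (hh : ∀ a b, ContDiffOn ℝ ∞ (h a b) U)
    (hk : ∀ a b, ContDiffOn ℝ ∞ (k a b) U) (hx : x ∈ U) (b : Fin 3) :
    dv G (fun a b y => h a b y + k a b y) b x = dv G h b x + dv G k b x := by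
  unfold dv
  simp only [cov_add hG hh hk hx, mul_add, Finset.sum_add_distrib]

theorem dv_mul {f : E → ℝ} {h : Fin 3 → Fin 3 → E → ℝ} (hf : ContDiffOn ℝ ∞ f U)
    (hh : ∀ a b, ContDiffOn ℝ ∞ (h a b) U) (hx : x ∈ U) (b : Fin 3) :
    dv G (fun a b y => f y * h a b y) b x =
      ∑ a, grad G f a x * h a b x + f x * dv G h b x := by
  unfold dv
  simp only [cov_mul hG hf hh hx, mul_add, Finset.sum_add_distrib]
  congr 1
  · refine Finset.sum_congr rfl fun a _ => ?_
    unfold grad
    rw [Finset.sum_mul]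
    exact Finset.sum_congr rfl fun c _ => by ring
  · rw [Finset.mul_sum]
    refine Finset.sum_congr rfl fun a _ => ?_
    rw [Finset.mul_sum]
    exact Finset.sum_congr rfl fun c _ => by ring

theorem dv_metric (hx : x ∈ U) (b : Fin 3) : dv G (fun a b y => G y a b) b x = 0 := by
  unfold dv
  simp only [cov_metric hG hx, mul_zero, Finset.sum_const_zero]

theorem dv_fmetric {f : E → ℝ} (hf : ContDiffOn ℝ ∞ f U) (hx : x ∈ U) (b : Fin 3) :
    dv G (fun a b y => f y * G y a b) b x = pd b f x := by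
  rw [dv_mul hG hf (fun a b => hG.smooth a b) hx, dv_metric hG hx, mul_zero, add_zero,
    pd_eq_grad hG hx]
  refine Finset.sum_congr rfl fun a _ => ?_
  rw [hG.symm x hx a b]; ring

theorem sch_symm (hx : x ∈ U) (a b : Fin 3) : sch G a b x = sch G b a x := by
  unfold sch
  rw [ric_symm hG hx a b, hG.symm x hx a b]

theorem sch_smooth (a b : Fin 3) : ContDiffOn ℝ ∞ (sch G a b) U := by
  have h1 := ric_smooth hG a b
  have h2 := scal_smooth hG
  have h3 := hG.smooth a b
  exact h1.sub ((h2.div_const 4).mul h3)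

theorem dv_sch (hx : x ∈ U) (b : Fin 3) : dv G (sch G) b x = pd b (scal G) x / 4 := by
  have hs := scal_smooth hG
  have h4 : ContDiffOn ℝ ∞ (fun y => -(1 / 4 : ℝ) * scal G y) U := contDiffOn_const.mul hs
  have e : sch G = fun a b y => ric G a b y + (-(1 / 4 : ℝ) * scal G y) * G y a b := by
    funext a b y
    unfold sch
    ring
  rw [e, dv_add hG (fun a b => ric_smooth hG a b) (fun a b => h4.mul (hG.smooth a b)) hx,
    dv_fmetric hG h4 hx, pd_mul (dAt hG contDiffOn_const hx) (dAt hG hs hx), pd_const]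
  have hb : dv G (ric G) b x = pd b (scal G) x / 2 := bianchi hG hx b
  have hb' : dv G (fun a b y => ric G a b y) b x = pd b (scal G) x / 2 := hb
  rw [hb']
  ring

theorem ric_grad {w : E → ℝ} (hx : x ∈ U) (b : Fin 3) :
    ∑ a, ric G a b x * grad G w a x =
      ∑ a, sch G b a x * grad G w a x + scal G x / 4 * pd b w x := by
  rw [pd_eq_grad hG hx, Finset.mul_sum, ← Finset.sum_add_distrib]
  refine Finset.sum_congr rfl fun a _ => ?_
  unfold sch
  rw [ric_symm hG hx b a]
  ring

theorem rho_smooth' {w : E → ℝ} (hw : ContDiffOn ℝ ∞ w U) : ContDiffOn ℝ ∞ (rho G w) U :=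
  rho_smooth hG hw

theorem pd_rho {w : E → ℝ} (hw : ContDiffOn ℝ ∞ w U) (hx : x ∈ U) (b : Fin 3) :
    3 * pd b (rho G w) x = pd b (lap G w) x + pd b (scal G) x / 4 * w x +
      scal G x / 4 * pd b w x := by
  have hs := scal_smooth hG
  have hl := lap_smooth hG hw
  have e : rho G w = fun y => (1 / 3 : ℝ) * (lap G w y + ((1 / 4 : ℝ) * scal G y) * w y) := by
    funext y
    unfold rho
    ring
  have h4 : ContDiffOn ℝ ∞ (fun y => (1 / 4 : ℝ) * scal G y) U := contDiffOn_const.mul hs
  rw [e, pd_mul (dAt hG contDiffOn_const hx) (dAt hG (hl.add (h4.mul hw)) hx), pd_const,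
    pd_add (dAt hG hl hx) (dAt hG (h4.mul hw) hx), pd_mul (dAt hG h4 hx) (dAt hG hw hx),
    pd_mul (dAt hG contDiffOn_const hx) (dAt hG hs hx), pd_const]
  ring

theorem hess_const_mul {u : E → ℝ} (hu : ContDiffOn ℝ ∞ u U) (hx : x ∈ U) (c : ℝ)
    (a b : Fin 3) : hess G (fun y => c * u y) a b x = c * hess G u a b x := by
  have e0 : ∀ d : Fin 3, pd d (fun _ : E => c) = fun _ => 0 := fun d => funext fun y => pd_const
  rw [hess_mul hG contDiffOn_const hu hx]
  have h0 : hess G (fun _ => c) a b x = 0 := by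
    unfold hess
    simp only [e0, pd_const, mul_zero, Finset.sum_const_zero, sub_zero]
  rw [h0]
  simp only [pd_const]
  ring

end

end Loc6Aux

open Loc6Aux

section

variable {U : Set E} {G : E → Mat} (hG : LM U G) {u v w f : E → ℝ} {x : E}

include hG

/-! ### LOC6 : the system for `T` -/

theorem TT_symm (hu : ContDiffOn ℝ ∞ u U) (hx : x ∈ U) (a b : Fin 3) :
    TT G u a b x = TT G u b a x := by
  unfold TT
  rw [hess_symm hG hu hx a b, sch_symm hG hx a b, hG.symm x hx a b]

theorem tr_TT (hu : ContDiffOn ℝ ∞ u U) (hx : x ∈ U) :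
    tr G (fun a b => TT G u a b x) x = 0 := by
  have e : (fun a b => TT G u a b x) = fun a b => hess G u a b x +
      ((u x * ric G a b x) + (-(u x * (scal G x / 4)) - rho G u x) * G x a b) := by
    funext a b
    unfold TT sch
    ring
  rw [e, tr_add, tr_add, tr_mul, tr_mul, tr_metric hG hx]
  have h1 : tr G (fun a b => hess G u a b x) x = lap G u x := rfl
  have h2 : tr G (fun a b => ric G a b x) x = scal G x := rfl
  rw [h1, h2]
  unfold rho
  ring

/-- `div T(w) = 2 (dρ(w) + S(dw))` -/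
theorem div_TT (hw : ContDiffOn ℝ ∞ w U) (hx : x ∈ U) (b : Fin 3) :
    ∑ a, ∑ c, gi G x a c * (pd c (TT G w a b) x -
        ∑ k, (chr G k c a x * TT G w k b x + chr G k c b x * TT G w a k x)) =
      2 * (pd b (rho G w) x + ∑ a, sch G b a x * grad G w a x) := by
  have hr := rho_smooth hG hw
  have hs := scal_smooth hG
  have hnr : ContDiffOn ℝ ∞ (fun y => -(1 : ℝ) * rho G w y) U := contDiffOn_const.mul hr
  have e : TT G w = fun a b y => hess G w a b y +
      (w y * sch G a b y + (-(1 : ℝ) * rho G w y) * G y a b) := by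
    funext a b y
    unfold TT
    ring
  have key : dv G (TT G w) b x = 2 * (pd b (rho G w) x + ∑ a, sch G b a x * grad G w a x) := by
    rw [e, dv_add hG (fun a b => hess_smooth hG hw a b)
      (fun a b => (hw.mul (sch_smooth hG a b)).add (hnr.mul (hG.smooth a b))) hx,
      dv_add hG (fun a b => hw.mul (sch_smooth hG a b)) (fun a b => hnr.mul (hG.smooth a b)) hx,
      dv_mul hG hw (fun a b => sch_smooth hG a b) hx, dv_fmetric hG hnr hx,
      pd_mul (dAt hG contDiffOn_const hx) (dAt hG hr hx), pd_const]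
    have h1 : dv G (fun a b y => hess G w a b y) b x =
        pd b (lap G w) x + ∑ a, ric G a b x * grad G w a x := div_hess hG hw hx b
    have h2 : dv G (fun a b y => sch G a b y) b x = pd b (scal G) x / 4 := dv_sch hG hx b
    have h3 : ∑ a, grad G w a x * sch G a b x = ∑ a, sch G b a x * grad G w a x :=
      Finset.sum_congr rfl fun a _ => by rw [sch_symm hG hx a b]; ring
    rw [h1, h2, h3, ric_grad hG hx]
    have h4 := pd_rho hG hw hx b
    linarith
  exact key

/-- `dB(u,v)` -/
theorem pd_bb (hu : ContDiffOn ℝ ∞ u U) (hv : ContDiffOn ℝ ∞ v U) (hx : x ∈ U) (c : Fin 3) :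
    pd c (bb G u v) x =
      v x * (pd c (rho G u) x + ∑ a, sch G c a x * grad G u a x) +
      u x * (pd c (rho G v) x + ∑ a, sch G c a x * grad G v a x) -
      ∑ a, TT G u c a x * grad G v a x - ∑ a, TT G v c a x * grad G u a x := by
  have hru := rho_smooth hG hu
  have hrv := rho_smooth hG hv
  have hi := inn_smooth hG hu hv
  have h1 : pd c (bb G u v) x = (pd c (rho G u) x * v x + rho G u x * pd c v x) +
      (pd c (rho G v) x * u x + rho G v x * pd c u x) - pd c (inn G u v) x := by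
    have e : bb G u v = fun y => (rho G u y * v y + rho G v y * u y) - inn G u v y := rfl
    rw [e, pd_sub (dAt hG ((hru.mul hv).add (hrv.mul hu)) hx) (dAt hG hi hx),
      pd_add (dAt hG (hru.mul hv) hx) (dAt hG (hrv.mul hu) hx),
      pd_mul (dAt hG hru hx) (dAt hG hv hx), pd_mul (dAt hG hrv hx) (dAt hG hu hx)]
  have h2 : ∀ p q : E → ℝ, ∑ a, TT G p c a x * grad G q a x =
      ∑ a, hess G p c a x * grad G q a x + p x * ∑ a, sch G c a x * grad G q a x -
        rho G p x * pd c q x := by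
    intro p q
    rw [pd_eq_grad hG hx c, Finset.mul_sum, Finset.mul_sum, ← Finset.sum_add_distrib,
      ← Finset.sum_sub_distrib]
    refine Finset.sum_congr rfl fun a _ => ?_
    unfold TT
    ring
  rw [h1, pd_inn hG hu hv hx, h2, h2, Finset.sum_add_distrib]
  ring

theorem TT_add (hu : ContDiffOn ℝ ∞ u U) (hv : ContDiffOn ℝ ∞ v U) (hx : x ∈ U) (a b : Fin 3) :
    TT G (fun y => u y + v y) a b x = TT G u a b x + TT G v a b x := by
  unfold TT rho
  rw [hess_add hG hu hv hx, lap_add hG hu hv hx]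
  ring

theorem TT_const_mul (hu : ContDiffOn ℝ ∞ u U) (hx : x ∈ U) (c : ℝ) (a b : Fin 3) :
    TT G (fun y => c * u y) a b x = c * TT G u a b x := by
  unfold TT rho
  rw [hess_const_mul hG hu hx, lap_const_mul hG hu hx]
  ring

end

end YR
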