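import Pool.Agent.Rig71.B2
import Pool.Agent.Rig71.Loc6
import Pool.Agent.Rig71.Loc0

/-!
# B4a : the local seed
-/

open scoped ContDiff Topology
open MeasureTheory Metric Set Filter

noncomputable section

namespace YR

theorem b4_pd_coord (a b : Fin 3) (x0 x : E) :
    pd a (fun y : E => (y - x0) b) x = if a = b then 1 else 0 := by
  have h : HasFDerivAt (fun y : E => (y - x0) b) (EuclideanSpace.proj (𝕜 := ℝ) b) x := by
    have h1 : (fun y : E => (y - x0) b) = fun y => EuclideanSpace.proj (𝕜 := ℝ) b y - x0 b := by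
      funext y
      simp
    rw [h1]
    exact (EuclideanSpace.proj (𝕜 := ℝ) b).hasFDerivAt.sub_const _
  unfold pd
  rw [h.fderiv]
  simp [be, eq_comm]

/-- the seed in the chart: the polynomial `P` -/
theorem exists_poly {G : E → Mat} {U : Set E} (hG : LM U G) {x0 : E} (hx : x0 ∈ U)
    (ξ : Fin 3 → ℝ) : ∃ P : E → ℝ, ContDiff ℝ ∞ P ∧ P x0 = 0 ∧ (∀ a, pd a P x0 = ξ a) ∧
      (∀ a b, hess G P a b x0 = 0) := by
  set c : Fin 3 → Fin 3 → ℝ := fun a b => ∑ k, chr G k a b x0 * ξ k with hc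
  have hcs : ∀ a b, c a b = c b a := by
    intro a b
    simp only [hc]
    refine Finset.sum_congr rfl fun k _ => ?_
    rw [chr_symm hG hx]
  set P : E → ℝ := fun y => ∑ a, ξ a * (y - x0) a +
    (1 / 2) * ∑ a, ∑ b, c a b * ((y - x0) a * (y - x0) b) with hP
  have hcd : ∀ b : Fin 3, ContDiff ℝ ∞ (fun y : E => (y - x0) b) := by
    intro b
    have h1 : (fun y : E => (y - x0) b) = fun y => EuclideanSpace.proj (𝕜 := ℝ) b y - x0 b := by
      funext y
      simp
    rw [h1]
    exact (EuclideanSpace.proj (𝕜 := ℝ) b).contDiff.sub contDiff_const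
  have hdd : ∀ (b : Fin 3) (x : E), DifferentiableAt ℝ (fun y : E => (y - x0) b) x := fun b x =>
    (hcd b).differentiable (by simp) x
  have hPs : ContDiff ℝ ∞ P := by
    refine ContDiff.add (ContDiff.sum fun a _ => contDiff_const.mul (hcd a)) ?_
    exact contDiff_const.mul (ContDiff.sum fun a _ => ContDiff.sum fun b _ =>
      contDiff_const.mul ((hcd a).mul (hcd b)))
  have hpd : ∀ e : Fin 3, pd e P = fun y => ξ e + ∑ b, c e b * (y - x0) b := by
    intro e
    funext y
    have h1 : pd e (fun y : E => ∑ a, ξ a * (y - x0) a) y = ξ e := by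
      rw [pd_sum (fun a _ => (hdd a y).const_mul _)]
      have : ∀ a : Fin 3, pd e (fun y : E => ξ a * (y - x0) a) y = if e = a then ξ a else 0 := by
        intro a
        rw [pd_mul (differentiableAt_const _) (hdd a y), pd_const, b4_pd_coord]
        split <;> simp
      simp only [this, Finset.sum_ite_eq, Finset.mem_univ, if_true]
    have h2 : pd e (fun y : E => (1 / 2) * ∑ a, ∑ b, c a b * ((y - x0) a * (y - x0) b)) y =
        ∑ b, c e b * (y - x0) b := by
      have hd2 : ∀ a b : Fin 3, DifferentiableAt ℝ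
          (fun y : E => c a b * ((y - x0) a * (y - x0) b)) y := fun a b =>
        ((hdd a y).fun_mul (hdd b y)).const_mul _
      rw [pd_mul (differentiableAt_const _)
        (DifferentiableAt.fun_sum fun a _ => DifferentiableAt.fun_sum fun b _ => hd2 a b), pd_const,
        pd_sum (fun a _ => DifferentiableAt.fun_sum fun b _ => hd2 a b)]
      have h3 : ∀ a : Fin 3, pd e (fun y : E => ∑ b, c a b * ((y - x0) a * (y - x0) b)) y =
          ∑ b, c a b * ((if e = a then 1 else 0) * (y - x0) b +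
            (y - x0) a * (if e = b then 1 else 0)) := by
        intro a
        rw [pd_sum (fun b _ => hd2 a b)]
        refine Finset.sum_congr rfl fun b _ => ?_
        rw [pd_mul (differentiableAt_const _) ((hdd a y).fun_mul (hdd b y)), pd_const,
          pd_mul (hdd a y) (hdd b y), b4_pd_coord, b4_pd_coord]
        ring
      simp only [h3]
      have h4 : ∀ a : Fin 3, ∑ b, c a b * ((if e = a then 1 else 0) * (y - x0) b +
            (y - x0) a * (if e = b then 1 else 0)) =
          (if e = a then ∑ b, c a b * (y - x0) b else 0) + c a e * (y - x0) a := by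
        intro a
        simp only [mul_add, Finset.sum_add_distrib]
        congr 1
        · split <;> simp
        · simp
      simp only [h4, Finset.sum_add_distrib, Finset.sum_ite_eq, Finset.mem_univ, if_true]
      have h5 : ∑ a, c a e * (y - x0) a = ∑ b, c e b * (y - x0) b :=
        Finset.sum_congr rfl fun a _ => by rw [hcs a e]
      rw [h5]
      ring
    have h0 : pd e P y = pd e (fun y : E => ∑ a, ξ a * (y - x0) a) y +
        pd e (fun y : E => (1 / 2) * ∑ a, ∑ b, c a b * ((y - x0) a * (y - x0) b)) y :=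
      pd_add (DifferentiableAt.fun_sum fun a _ => (hdd a y).const_mul _)
        ((DifferentiableAt.fun_sum fun a _ => DifferentiableAt.fun_sum fun b _ =>
          ((hdd a y).fun_mul (hdd b y)).const_mul _).const_mul _)
    rw [h0, h1, h2]
  refine ⟨P, hPs, by simp [hP], fun a => by simp [hpd], fun a b => ?_⟩
  unfold hess
  have h1 : pd a (pd b P) x0 = c a b := by
    rw [hpd b]
    have h0 : pd a (fun y : E => ξ b + ∑ e, c b e * (y - x0) e) x0 =
        pd a (fun _ => ξ b) x0 + pd a (fun y : E => ∑ e, c b e * (y - x0) e) x0 :=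
      pd_add (differentiableAt_const _) (DifferentiableAt.fun_sum fun e _ => (hdd e x0).const_mul _)
    rw [h0, pd_const, pd_sum (fun e _ => (hdd e x0).const_mul _)]
    have h2 : ∀ e : Fin 3, pd a (fun y : E => c b e * (y - x0) e) x0 =
        if a = e then c b e else 0 := by
      intro e
      rw [pd_mul (differentiableAt_const _) (hdd e x0), pd_const, b4_pd_coord]
      split <;> simp
    simp only [h2, Finset.sum_ite_eq, Finset.mem_univ, if_true, zero_add]
    exact hcs b a
  rw [h1]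
  have h2 : ∀ k, pd k P x0 = ξ k := fun k => by simp [hpd]
  simp only [h2, hc, sub_self]

/-- `f = O(|x - x₀|^k)` on the ball -/
def BO (x0 : E) (r : ℝ) (k : ℕ) (f : E → ℝ) : Prop :=
  ∃ C, 0 ≤ C ∧ ∀ x ∈ ball x0 r, |f x| ≤ C * ‖x - x0‖ ^ k

namespace BO

variable {x0 : E} {r : ℝ} {k l : ℕ} {f g : E → ℝ}

theorem congr (hf : BO x0 r k f) (h : ∀ x ∈ ball x0 r, g x = f x) : BO x0 r k g := by
  obtain ⟨C, hC, hb⟩ := hf
  exact ⟨C, hC, fun x hx => by rw [h x hx]; exact hb x hx⟩

theorem add (hf : BO x0 r k f) (hg : BO x0 r k g) : BO x0 r k (fun x => f x + g x) := by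
  obtain ⟨C, hC, hb⟩ := hf
  obtain ⟨D, hD, hb'⟩ := hg
  refine ⟨C + D, by positivity, fun x hx => ?_⟩
  rw [add_mul]
  exact (abs_add_le _ _).trans (add_le_add (hb x hx) (hb' x hx))

theorem neg (hf : BO x0 r k f) : BO x0 r k (fun x => -f x) := by
  obtain ⟨C, hC, hb⟩ := hf
  exact ⟨C, hC, fun x hx => by rw [abs_neg]; exact hb x hx⟩

theorem sub (hf : BO x0 r k f) (hg : BO x0 r k g) : BO x0 r k (fun x => f x - g x) := by
  simpa only [sub_eq_add_neg] using hf.add hg.neg

theorem mul (hf : BO x0 r k f) (hg : BO x0 r l g) : BO x0 r (k + l) (fun x => f x * g x) := by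
  obtain ⟨C, hC, hb⟩ := hf
  obtain ⟨D, hD, hb'⟩ := hg
  refine ⟨C * D, by positivity, fun x hx => ?_⟩
  rw [abs_mul, pow_add]
  calc |f x| * |g x| ≤ (C * ‖x - x0‖ ^ k) * (D * ‖x - x0‖ ^ l) :=
        mul_le_mul (hb x hx) (hb' x hx) (abs_nonneg _) (by positivity)
    _ = C * D * (‖x - x0‖ ^ k * ‖x - x0‖ ^ l) := by ring

theorem sum {ι : Type*} {s : Finset ι} {F : ι → E → ℝ} (h : ∀ i ∈ s, BO x0 r k (F i)) :
    BO x0 r k (fun x => ∑ i ∈ s, F i x) := by
  classical
  induction s using Finset.induction_on with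
  | empty => exact ⟨0, le_rfl, fun x _ => by simp⟩
  | insert a s ha ih =>
    have h1 := (h a (Finset.mem_insert_self a s)).add
      (ih fun i hi => h i (Finset.mem_insert_of_mem hi))
    refine h1.congr fun x _ => ?_
    rw [Finset.sum_insert ha]

theorem of_bound {C : ℝ} (h : ∀ x ∈ ball x0 r, |f x| ≤ C) : BO x0 r 0 f := by
  refine ⟨|C|, abs_nonneg _, fun x hx => ?_⟩
  simpa using (h x hx).trans (le_abs_self C)

theorem of_cont {R : ℝ} (hr : r < R) (hf : ContinuousOn f (ball x0 R)) : BO x0 r 0 f := by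
  have hsub : closedBall x0 r ⊆ ball x0 R := closedBall_subset_ball hr
  obtain ⟨C, hC⟩ := (isCompact_closedBall x0 r).exists_bound_of_continuousOn (hf.mono hsub)
  exact of_bound fun x hx => hC x (ball_subset_closedBall hx)

/-- mean value inequality -/
theorem of_pd (hr : 0 < r) (hf : ∀ x ∈ ball x0 r, DifferentiableAt ℝ f x) (h0 : f x0 = 0)
    (h : ∀ c, BO x0 r k (pd c f)) : BO x0 r (k + 1) f := by
  choose C hC hb using h
  refine ⟨∑ c, C c, Finset.sum_nonneg fun c _ => hC c, fun x hx => ?_⟩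
  set s := segment ℝ x0 x with hs
  have hsub : s ⊆ ball x0 r := (convex_ball x0 r).segment_subset (mem_ball_self hr) hx
  have hdist : ∀ y ∈ s, ‖y - x0‖ ≤ ‖x - x0‖ := by
    rintro y ⟨a, b, ha, hb', hab, rfl⟩
    have h1 : a • x0 + b • x - x0 = b • (x - x0) := by
      have : a = 1 - b := by linarith
      rw [this, sub_smul, one_smul, smul_sub]
      abel
    rw [h1, norm_smul, Real.norm_of_nonneg hb']
    exact mul_le_of_le_one_left (norm_nonneg _) (by linarith)
  have hbd : ∀ y ∈ s, ‖fderiv ℝ f y‖ ≤ (∑ c, C c) * ‖x - x0‖ ^ k := by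
    intro y hy
    refine ContinuousLinearMap.opNorm_le_bound _ ?_ fun v => ?_
    · exact mul_nonneg (Finset.sum_nonneg fun c _ => hC c) (by positivity)
    · rw [fderiv_eq_sum, Real.norm_eq_abs, Finset.sum_mul, Finset.sum_mul]
      refine (Finset.abs_sum_le_sum_abs _ _).trans (Finset.sum_le_sum fun c _ => ?_)
      rw [abs_mul, mul_comm]
      refine mul_le_mul ?_ ?_ (abs_nonneg _) (mul_nonneg (hC c) (by positivity))
      · refine (hb c y (hsub hy)).trans (mul_le_mul_of_nonneg_left ?_ (hC c))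
        exact pow_le_pow_left₀ (norm_nonneg _) (hdist y hy) k
      · have := PiLp.norm_apply_le v c
        rwa [Real.norm_eq_abs] at this
  have h1 := (convex_segment x0 x).norm_image_sub_le_of_norm_fderiv_le
    (fun y hy => hf y (hsub hy)) hbd (left_mem_segment ℝ x0 x) (right_mem_segment ℝ x0 x)
  rw [h0, sub_zero, Real.norm_eq_abs] at h1
  rw [pow_succ, ← mul_assoc]
  exact h1

theorem of_smooth {R : ℝ} (hr : 0 < r) (hrR : r < R) (hf : ContDiffOn ℝ ∞ f (ball x0 R))
    (h0 : f x0 = 0) : BO x0 r 1 f := by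
  have h1 := of_pd (k := 0) hr (fun x hx =>
    ((hf.contDiffAt (isOpen_ball.mem_nhds (ball_subset_ball hrR.le hx))).differentiableAt
      (by simp))) h0 (fun c => of_cont hrR (pd_smooth isOpen_ball hf).continuousOn)
  simpa using h1

end BO

/-- local estimates near a zero of `θ` -/
theorem seed_local {G : E → Mat} {x0 : E} {r : ℝ} (hr : 0 < r) (hG : LM (ball x0 r) G)
    {w P : E → ℝ} (hw : ContDiffOn ℝ ∞ w (ball x0 r)) (hP : ContDiffOn ℝ ∞ P (ball x0 r))
    (hT : ∀ x ∈ ball x0 r, ∀ a b, TT G w a b x = 0) (w0 : w x0 = 0) (w1 : ∀ a, pd a w x0 = 0)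
    (P0 : P x0 = 0) (P2 : ∀ a b, hess G P a b x0 = 0) :
    ∃ C, ∃ r' > 0, r' ≤ r ∧ ∀ x ∈ ball x0 r', (∀ a b, |TT G P a b x| ≤ C * ‖x - x0‖) ∧
      |bb G P w x| ≤ C * ‖x - x0‖ ^ 3 ∧ |P x| ≤ C * ‖x - x0‖ := by
  set s := r / 2 with hs
  have hs0 : 0 < s := by positivity
  have hsr : s < r := by rw [hs]; linarith
  have hx0 : x0 ∈ ball x0 r := mem_ball_self hr
  have hd : ∀ {f : E → ℝ}, ContDiffOn ℝ ∞ f (ball x0 r) → ∀ x ∈ ball x0 s,
      DifferentiableAt ℝ f x := fun {f} hf x hx =>
    (hf.contDiffAt (isOpen_ball.mem_nhds (ball_subset_ball hsr.le hx))).differentiableAt (by simp)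
  have rP : rho G P x0 = 0 := by
    unfold rho lap tr
    simp [P2, P0]
  -- basic sizes
  have bTP : ∀ a b, BO x0 s 1 (TT G P a b) := fun a b =>
    BO.of_smooth hs0 hsr (TT_smooth hG hP a b) (by unfold TT; rw [P2, P0, rP]; ring)
  have bP : BO x0 s 1 P := BO.of_smooth hs0 hsr hP P0
  have bpw : ∀ a, BO x0 s 1 (pd a w) := fun a =>
    BO.of_smooth hs0 hsr (pd_smooth isOpen_ball hw) (w1 a)
  have bw : BO x0 s 2 w := BO.of_pd hs0 (hd hw) w0 bpw
  have bgi : ∀ a b, BO x0 s 0 (fun x => gi G x a b) := fun a b =>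
    BO.of_cont hsr (gi_smooth hG a b).continuousOn
  have bgw : ∀ a, BO x0 s 1 (grad G w a) := fun a => by
    have h1 : BO x0 s (0 + 1) (fun x => ∑ b, gi G x a b * pd b w x) :=
      BO.sum fun b _ => (bgi a b).mul (bpw b)
    rw [zero_add] at h1
    exact h1.congr fun x _ => rfl
  have bgP : ∀ a, BO x0 s 0 (grad G P a) := fun a => by
    have h1 : BO x0 s (0 + 0) (fun x => ∑ b, gi G x a b * pd b P x) :=
      BO.sum fun b _ => (bgi a b).mul (BO.of_cont hsr (pd_smooth isOpen_ball hP).continuousOn)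
    rw [zero_add] at h1
    exact h1.congr fun x _ => rfl
  have hG' : ∀ a b, ContDiffOn ℝ ∞ (fun x => G x a b) (ball x0 r) := hG.smooth
  have bsch : ∀ a b, BO x0 s 0 (sch G a b) := fun a b => by
    refine BO.of_cont hsr (ContDiffOn.continuousOn (𝕜 := ℝ) (n := ∞) ?_)
    exact (ric_smooth hG a b).sub (((scal_smooth hG).div_const 4).mul (hG' a b))
  have bDP : ∀ c, BO x0 s 0 (fun x => pd c (rho G P) x + ∑ a, sch G c a x * grad G P a x) :=
    fun c => by
    refine (BO.of_cont hsr (pd_smooth isOpen_ball (rho_smooth hG hP)).continuousOn).add ?_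
    have h1 : BO x0 s (0 + 0) (fun x => ∑ a, sch G c a x * grad G P a x) :=
      BO.sum fun a _ => (bsch c a).mul (bgP a)
    simpa only [zero_add] using h1
  have hDw : ∀ c, ∀ x ∈ ball x0 r, pd c (rho G w) x + ∑ a, sch G c a x * grad G w a x = 0 := by
    intro c x hx
    have h1 := div_TT hG hw hx c
    have h2 : ∀ a d, pd d (TT G w a c) x = 0 := by
      intro a d
      have : TT G w a c =ᶠ[𝓝 x] fun _ => 0 := by
        filter_upwards [isOpen_ball.mem_nhds hx] with y hy
        exact hT y hy a c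
      rw [pd_congr this, pd_const]
    have h3 : ∑ a, ∑ c', gi G x a c' * (pd c' (TT G w a c) x -
        ∑ k, (chr G k c' a x * TT G w k c x + chr G k c' c x * TT G w a k x)) = 0 := by
      refine Finset.sum_eq_zero fun a _ => Finset.sum_eq_zero fun d _ => ?_
      rw [h2, Finset.sum_eq_zero fun k _ => by rw [hT x hx, hT x hx]; ring]
      ring
    rw [h3] at h1
    linarith
  have hbb : ∀ c, BO x0 s 2 (pd c (bb G P w)) := by
    intro c
    have h1 : BO x0 s 2 (fun x => w x * (pd c (rho G P) x + ∑ a, sch G c a x * grad G P a x)) :=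
      bw.mul (bDP c)
    have h2 : BO x0 s (1 + 1) (fun x => ∑ a, TT G P c a x * grad G w a x) :=
      BO.sum fun a _ => (bTP c a).mul (bgw a)
    refine (h1.sub h2).congr fun x hx => ?_
    have hx' := ball_subset_ball hsr.le hx
    rw [pd_bb hG hP hw hx' c, hDw c x hx']
    have h3 : ∑ a, TT G w c a x * grad G P a x = 0 :=
      Finset.sum_eq_zero fun a _ => by rw [hT x hx']; ring
    rw [h3]
    ring
  have bbs : ContDiffOn ℝ ∞ (bb G P w) (ball x0 r) :=
    (((rho_smooth hG hP).mul hw).add ((rho_smooth hG hw).mul hP)).sub (inn_smooth hG hP hw)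
  have hbb3 : BO x0 s 3 (bb G P w) := BO.of_pd hs0 (hd bbs) (by
    unfold bb inn
    simp [w0, P0, w1]) hbb
  choose C1 hC1 hb1 using bTP
  obtain ⟨C2, hC2, hb2⟩ := bP
  obtain ⟨C3, hC3, hb3⟩ := hbb3
  have hS : ∀ a b, C1 a b ≤ ∑ a, ∑ b, C1 a b := fun a b =>
    (Finset.single_le_sum (f := fun b => C1 a b) (fun b _ => hC1 a b) (Finset.mem_univ b)).trans
      (Finset.single_le_sum (f := fun a => ∑ b, C1 a b)
        (fun a _ => Finset.sum_nonneg fun b _ => hC1 a b) (Finset.mem_univ a))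
  have hS0 : 0 ≤ ∑ a, ∑ b, C1 a b :=
    Finset.sum_nonneg fun a _ => Finset.sum_nonneg fun b _ => hC1 a b
  refine ⟨(∑ a, ∑ b, C1 a b) + C2 + C3, s, hs0, hsr.le, fun x hx => ⟨fun a b => ?_, ?_, ?_⟩⟩
  · have h1 := hb1 a b x hx
    rw [pow_one] at h1
    refine h1.trans (mul_le_mul_of_nonneg_right ?_ (norm_nonneg _))
    have := hS a b
    linarith
  · refine (hb3 x hx).trans (mul_le_mul_of_nonneg_right ?_ (by positivity))
    linarith
  · have h1 := hb2 x hx
    rw [pow_one] at h1
    refine h1.trans (mul_le_mul_of_nonneg_right ?_ (norm_nonneg _))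
    linarith

end YR
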