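import Pool.Agent.Rig71.DefsA

/-!
# MP_71b0e8_gt, PART B : definitions (no sorry; import this file as it is)

`θ ≥ 0` is a smooth solution of `T(θ) = 0` with zeros, on a closed connected 3-manifold with
positive scalar curvature (`ZD`).  Part B produces a positive solution.
-/

open scoped ContDiff Topology
open MeasureTheory Metric Set Filter

noncomputable section

namespace YR

/-- the unknowns of the closed system of `T(w) = 0` -/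
def kv (G : E → Mat) (w : E → ℝ) : Fin 5 → E → ℝ :=
  ![w, pd 0 w, pd 1 w, pd 2 w, rho G w]

variable {M : Type*} [TopologicalSpace M] {𝒜 : Atl M}

/-- maximum principle for the conformal Laplacian -/
def Met.MP (𝒢 : Met 𝒜) : Prop :=
  ∀ u : M → ℝ, 𝒜.Sm u → (∀ p, 0 ≤ 𝒢.L u p) → ∀ p, 0 ≤ u p

/-- the zero data: a nonnegative solution with zeros -/
structure ZD (𝒢 : Met 𝒜) (θ : M → ℝ) : Prop where
  sm : 𝒜.Sm θ
  nn : ∀ p, 0 ≤ θ p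
  t2 : ∀ p, 𝒢.t2 θ p = 0
  R : ∀ p, 0 < 𝒢.scal p
  zero : ∃ p, θ p = 0
  ne : ∃ p, θ p ≠ 0

/-- the approximate solutions `η₀ + κ θ^{3/2}` -/
def etam (θ η0 κ : M → ℝ) (p : M) : ℝ := η0 p + κ p * θ p ^ (3 / 2 : ℝ)

/-- `e₀ = L(θ^{-3/2} η₀) = -24 θ^{-5/2} B(η₀, θ)` -/
def Met.ee (𝒢 : Met 𝒜) (θ η0 : M → ℝ) (p : M) : ℝ :=
  -24 * θ p ^ (-(5 / 2) : ℝ) * 𝒢.bb η0 θ p

/-- cutoff in `θ` : `0` for `θ ≤ 1/m`, `1` for `θ ≥ 2/m` -/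
def qcut (θ : M → ℝ) (m : ℝ) (p : M) : ℝ := Real.smoothTransition (m * θ p - 1)

/-- admissible local seed `η₀` at the zeros of `θ` -/
structure Seed (𝒢 : Met 𝒜) (θ η0 : M → ℝ) : Prop where
  sm : 𝒜.Sm η0
  bd : ∃ C, ∀ p, 𝒢.t2 η0 p ≤ C * θ p ∧ |𝒢.bb η0 θ p| ≤ C * θ p ^ (3 / 2 : ℝ) ∧
    |η0 p| ≤ C * θ p ^ (1 / 2 : ℝ)

/-- the corrections `κ_m` and their limit -/
structure Kap (𝒢 : Met 𝒜) (θ η0 : M → ℝ) (κ : ℕ → M → ℝ) (κ' : M → ℝ) (C : ℝ) : Prop where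
  sm : ∀ m, 𝒜.Sm (κ m)
  bd : ∀ m p, 0 < θ p → |κ m p| ≤ C * (1 + θ p ^ (-(1 / 4) : ℝ))
  lim : ∀ δ : ℝ, 0 < δ → TendstoUniformlyOn κ κ' atTop {p | δ ≤ θ p}
  eq : ∀ (m : ℕ) (p : M), |𝒢.L (κ m) p + qcut θ (m + 1) p * 𝒢.ee θ η0 p| ≤ 1 / (m + 1)

end YR
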