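import Pool.Agent.Rig71.Loc0

/-! Algebra at a point, through an orthonormal frame. `hG : LM U G` throughout. -/

open scoped ContDiff Topology
open MeasureTheory Metric Set Filter

noncomputable section

namespace YR

/-- frame components of `du` -/
def loc2_fu (A : Mat) (u : E → ℝ) (x : E) (i : Fin 3) : ℝ := ∑ a, A i a * pd a u x

/-- frame components of a bilinear form -/
def loc2_fh (A : Mat) (h : Fin 3 → Fin 3 → ℝ) (i j : Fin 3) : ℝ :=
  ∑ a, ∑ b, A i a * A j b * h a b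

/-- Cauchy-Schwarz in dimension 3 -/
theorem loc2_cs3 (p q : Fin 3 → ℝ) : (∑ i, p i * q i) ^ 2 ≤ (∑ i, p i * p i) * ∑ i, q i * q i := by
  have h := Finset.sum_mul_sq_le_sq_mul_sq Finset.univ p q
  simpa only [pow_two] using h

/-- Cauchy-Schwarz in dimension 9 -/
theorem loc2_cs9 (p q : Fin 3 → Fin 3 → ℝ) :
    (∑ i, ∑ j, p i j * q i j) ^ 2 ≤ (∑ i, ∑ j, p i j * p i j) * ∑ i, ∑ j, q i j * q i j := by
  have h := Finset.sum_mul_sq_le_sq_mul_sq (Finset.univ : Finset (Fin 3 × Fin 3))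
    (fun z => p z.1 z.2) (fun z => q z.1 z.2)
  simp only [Fintype.sum_prod_type, pow_two] at h
  simpa only [pow_two] using h

section

variable {U : Set E} {G : E → Mat} (hG : LM U G) {u v w f : E → ℝ} {x : E}

/-- data of an orthonormal frame at `x` -/
structure loc2_Fr (G : E → Mat) (x : E) (A B : Mat) : Prop where
  gi : ∀ a b, gi G x a b = ∑ i, A i a * A i b
  g : ∀ a b, G x a b = ∑ i, B a i * B b i
  ba : ∀ a b, ∑ i, B a i * A i b = if a = b then 1 else 0

open scoped MatrixOrder Matrix.Norms.L2Operator in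
include hG in
theorem loc2_frame (hx : x ∈ U) : ∃ A B : Mat, loc2_Fr G x A B := by
  obtain ⟨B, hB, hGB⟩ := CStarAlgebra.isStrictlyPositive_iff_eq_mul_star_self.mp
    (hG.pos x hx).isStrictlyPositive
  have hBd : IsUnit B.det := (Matrix.isUnit_iff_isUnit_det B).1 hB
  have hst : star B = B.transpose := by
    rw [Matrix.star_eq_conjTranspose, Matrix.conjTranspose_eq_transpose_of_trivial]
  rw [hst] at hGB
  refine ⟨B⁻¹, B, ?_, ?_, ?_⟩
  · intro a b
    have h1 : YR.gi G x = (B⁻¹).transpose * B⁻¹ := by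
      unfold YR.gi
      rw [hGB, Matrix.mul_inv_rev, Matrix.transpose_nonsing_inv]
    rw [h1, Matrix.mul_apply]
    rfl
  · intro a b
    rw [hGB, Matrix.mul_apply]
    rfl
  · intro a b
    have h1 := congrFun (congrFun (Matrix.mul_nonsing_inv B hBd) a) b
    rw [Matrix.mul_apply, Matrix.one_apply] at h1
    exact h1

variable {A B : Mat}

theorem loc2_Fr.grad (F : loc2_Fr G x A B) (u : E → ℝ) (a : Fin 3) :
    YR.grad G u a x = ∑ i, A i a * loc2_fu A u x i := by
  unfold YR.grad loc2_fu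
  simp only [F.gi, Fin.sum_univ_three]
  ring

theorem loc2_Fr.inn (F : loc2_Fr G x A B) (u v : E → ℝ) :
    YR.inn G u v x = ∑ i, loc2_fu A u x i * loc2_fu A v x i := by
  unfold YR.inn loc2_fu
  simp only [F.gi, Fin.sum_univ_three]
  ring

theorem loc2_Fr.tr (F : loc2_Fr G x A B) (h : Fin 3 → Fin 3 → ℝ) :
    YR.tr G h x = ∑ i, loc2_fh A h i i := by
  unfold YR.tr loc2_fh
  simp only [F.gi, Fin.sum_univ_three]
  ring

theorem loc2_Fr.raise (F : loc2_Fr G x A B) (k : Fin 3 → Fin 3 → ℝ) (a b : Fin 3) :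
    ∑ c, ∑ d, YR.gi G x a c * YR.gi G x b d * k c d =
      ∑ i, ∑ j, A i a * A j b * loc2_fh A k i j := by
  unfold loc2_fh
  simp only [F.gi, Fin.sum_univ_three]
  ring

theorem loc2_Fr.ip (F : loc2_Fr G x A B) (h k : Fin 3 → Fin 3 → ℝ) :
    YR.ip G h k x = ∑ i, ∑ j, loc2_fh A h i j * loc2_fh A k i j := by
  have h1 : YR.ip G h k x =
      ∑ a, ∑ b, h a b * ∑ c, ∑ d, YR.gi G x a c * YR.gi G x b d * k c d := by
    unfold YR.ip
    refine Finset.sum_congr rfl fun a _ => Finset.sum_congr rfl fun b _ => ?_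
    rw [Finset.mul_sum]
    refine Finset.sum_congr rfl fun c _ => ?_
    rw [Finset.mul_sum]
    refine Finset.sum_congr rfl fun d _ => ?_
    ring
  rw [h1]
  simp only [F.raise]
  generalize loc2_fh A k = kk
  unfold loc2_fh
  simp only [Fin.sum_univ_three]
  ring

theorem loc2_Fr.ev (F : loc2_Fr G x A B) (h : Fin 3 → Fin 3 → ℝ) (u v : E → ℝ) :
    YR.ev G h u v x = ∑ i, ∑ j, loc2_fh A h i j * (loc2_fu A u x i * loc2_fu A v x j) := by
  unfold YR.ev
  simp only [F.grad]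
  generalize loc2_fu A u x = uu
  generalize loc2_fu A v x = vv
  unfold loc2_fh
  simp only [Fin.sum_univ_three]
  ring

theorem loc2_Fr.pd (F : loc2_Fr G x A B) (u : E → ℝ) (a : Fin 3) :
    YR.pd a u x = ∑ i, B a i * loc2_fu A u x i := by
  have h1 : ∑ i, B a i * loc2_fu A u x i = ∑ b, (∑ i, B a i * A i b) * YR.pd b u x := by
    unfold loc2_fu
    simp only [Fin.sum_univ_three]
    ring
  rw [h1]
  simp only [F.ba]
  simp

theorem loc2_Fr.h (F : loc2_Fr G x A B) (h : Fin 3 → Fin 3 → ℝ) (a b : Fin 3) :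
    h a b = ∑ i, ∑ j, (B a i * B b j) * loc2_fh A h i j := by
  have h1 : ∑ i, ∑ j, (B a i * B b j) * loc2_fh A h i j =
      ∑ c, ∑ d, (∑ i, B a i * A i c) * (∑ i, B b i * A i d) * h c d := by
    unfold loc2_fh
    simp only [Fin.sum_univ_three]
    ring
  rw [h1]
  simp only [F.ba]
  simp

include hG

/-! ### LOC2 : algebra at a point -/

theorem inn_symm (hx : x ∈ U) : inn G u v x = inn G v u x := by
  obtain ⟨A, B, F⟩ := loc2_frame hG hx
  rw [F.inn, F.inn]
  exact Finset.sum_congr rfl fun i _ => mul_comm _ _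

theorem inn_self_nonneg (hx : x ∈ U) : 0 ≤ inn G u u x := by
  obtain ⟨A, B, F⟩ := loc2_frame hG hx
  rw [F.inn]
  exact Finset.sum_nonneg fun i _ => mul_self_nonneg _

/-- `|∂_a u| ≤ √G_aa |du|` -/
theorem pd_sq_le (hx : x ∈ U) (a : Fin 3) : pd a u x ^ 2 ≤ G x a a * inn G u u x := by
  obtain ⟨A, B, F⟩ := loc2_frame hG hx
  rw [F.inn, F.pd, F.g]
  exact loc2_cs3 _ _

theorem inn_self_eq_zero (hx : x ∈ U) : inn G u u x = 0 ↔ ∀ a, pd a u x = 0 := by
  constructor
  · intro h a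
    have h1 := pd_sq_le hG hx (u := u) a
    rw [h, mul_zero] at h1
    exact pow_eq_zero_iff (two_ne_zero) |>.1 (le_antisymm h1 (sq_nonneg _))
  · intro h
    simp [inn, h]

theorem inn_sq_le (hx : x ∈ U) : inn G u v x ^ 2 ≤ inn G u u x * inn G v v x := by
  obtain ⟨A, B, F⟩ := loc2_frame hG hx
  rw [F.inn, F.inn, F.inn]
  exact loc2_cs3 _ _

theorem ip_self_nonneg (hx : x ∈ U) (h : Fin 3 → Fin 3 → ℝ) : 0 ≤ ip G h h x := by
  obtain ⟨A, B, F⟩ := loc2_frame hG hx
  rw [F.ip]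
  exact Finset.sum_nonneg fun i _ => Finset.sum_nonneg fun j _ => mul_self_nonneg _

theorem ip_symm (hx : x ∈ U) (h k : Fin 3 → Fin 3 → ℝ) : ip G h k x = ip G k h x := by
  obtain ⟨A, B, F⟩ := loc2_frame hG hx
  rw [F.ip, F.ip]
  exact Finset.sum_congr rfl fun i _ => Finset.sum_congr rfl fun j _ => mul_comm _ _

theorem comp_sq_le (hx : x ∈ U) (h : Fin 3 → Fin 3 → ℝ) (a b : Fin 3) :
    h a b ^ 2 ≤ G x a a * G x b b * ip G h h x := by
  obtain ⟨A, B, F⟩ := loc2_frame hG hx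
  have h1 := loc2_cs9 (fun i j => B a i * B b j) (fun i j => loc2_fh A h i j)
  have h2 : G x a a * G x b b =
      ∑ i, ∑ j, (B a i * B b j) * (B a i * B b j) := by
    rw [F.g, F.g, Finset.sum_mul_sum]
    exact Finset.sum_congr rfl fun i _ => Finset.sum_congr rfl fun j _ => by ring
  rw [F.ip, h2]
  conv_lhs => rw [F.h h a b]
  exact h1

theorem ip_self_eq_zero (hx : x ∈ U) (h : Fin 3 → Fin 3 → ℝ) (h0 : ip G h h x = 0) :
    ∀ a b, h a b = 0 := by
  intro a b
  have h1 := comp_sq_le hG hx h a b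
  rw [h0, mul_zero] at h1
  exact pow_eq_zero_iff (two_ne_zero) |>.1 (le_antisymm h1 (sq_nonneg _))

theorem ip_sq_le (hx : x ∈ U) (h k : Fin 3 → Fin 3 → ℝ) :
    ip G h k x ^ 2 ≤ ip G h h x * ip G k k x := by
  obtain ⟨A, B, F⟩ := loc2_frame hG hx
  rw [F.ip, F.ip, F.ip]
  exact loc2_cs9 _ _

theorem ev_sq_le (hx : x ∈ U) (h : Fin 3 → Fin 3 → ℝ) :
    ev G h u v x ^ 2 ≤ ip G h h x * inn G u u x * inn G v v x := by
  obtain ⟨A, B, F⟩ := loc2_frame hG hx
  have h1 := loc2_cs9 (fun i j => loc2_fh A h i j)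
    (fun i j => loc2_fu A u x i * loc2_fu A v x j)
  have h2 : inn G u u x * inn G v v x =
      ∑ i, ∑ j, (loc2_fu A u x i * loc2_fu A v x j) * (loc2_fu A u x i * loc2_fu A v x j) := by
    rw [F.inn, F.inn, Finset.sum_mul_sum]
    exact Finset.sum_congr rfl fun i _ => Finset.sum_congr rfl fun j _ => by ring
  rw [mul_assoc, h2, F.ip, F.ev]
  exact h1

theorem tr_sq_le (hx : x ∈ U) (h : Fin 3 → Fin 3 → ℝ) : tr G h x ^ 2 ≤ 3 * ip G h h x := by
  obtain ⟨A, B, F⟩ := loc2_frame hG hx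
  rw [F.ip, F.tr]
  generalize loc2_fh A h = k
  simp only [Fin.sum_univ_three]
  nlinarith [sq_nonneg (k 0 0 - k 1 1), sq_nonneg (k 0 0 - k 2 2), sq_nonneg (k 1 1 - k 2 2),
    sq_nonneg (k 0 1), sq_nonneg (k 0 2), sq_nonneg (k 1 0), sq_nonneg (k 1 2),
    sq_nonneg (k 2 0), sq_nonneg (k 2 1)]

theorem ip_metric (hx : x ∈ U) (h : Fin 3 → Fin 3 → ℝ) : ip G h (fun a b => G x a b) x =
    tr G h x := by
  unfold ip tr
  refine Finset.sum_congr rfl fun a _ => Finset.sum_congr rfl fun b _ => ?_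
  have h1 : ∀ c, ∑ d, gi G x a c * gi G x b d * h a b * G x c d =
      gi G x a c * h a b * (if b = c then 1 else 0) := by
    intro c
    rw [← gi_mul hG hx b c, Finset.mul_sum]
    refine Finset.sum_congr rfl fun d _ => ?_
    rw [hG.symm x hx c d]
    ring
  simp only [h1]
  simp

theorem tr_metric (hx : x ∈ U) : tr G (fun a b => G x a b) x = 3 := by
  unfold tr
  have h1 : ∀ a, ∑ b, gi G x a b * G x a b = 1 := by
    intro a
    have h2 := gi_mul hG hx a a
    rw [if_pos rfl] at h2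
    rw [← h2]
    exact Finset.sum_congr rfl fun b _ => by rw [hG.symm x hx a b]
  simp only [h1]
  simp

theorem ip_dd (hx : x ∈ U) (h : Fin 3 → Fin 3 → ℝ) :
    ip G h (fun a b => pd a u x * pd b v x) x = ev G h u v x := by
  obtain ⟨A, B, F⟩ := loc2_frame hG hx
  rw [F.ip, F.ev]
  refine Finset.sum_congr rfl fun i _ => Finset.sum_congr rfl fun j _ => ?_
  congr 1
  unfold loc2_fh loc2_fu
  simp only [Fin.sum_univ_three]
  ring

/-- `h(∂_a, ∇u)` contracted with `dv` -/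
theorem ev_eq_inn (hx : x ∈ U) (h : Fin 3 → Fin 3 → ℝ) :
    ev G h u v x = ∑ a, grad G u a x * ∑ b, h a b * grad G v b x := by
  unfold ev
  refine Finset.sum_congr rfl fun a _ => ?_
  rw [Finset.mul_sum]
  exact Finset.sum_congr rfl fun b _ => by ring

theorem inn_eq_grad (hx : x ∈ U) : inn G u v x = ∑ a, grad G u a x * pd a v x := by
  obtain ⟨A, B, F⟩ := loc2_frame hG hx
  rw [F.inn]
  simp only [F.grad]
  generalize loc2_fu A u x = uu
  unfold loc2_fu
  simp only [Fin.sum_univ_three]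
  ring

theorem pd_eq_grad (hx : x ∈ U) (a : Fin 3) : pd a u x = ∑ b, G x a b * grad G u b x := by
  have h1 : ∑ b, G x a b * grad G u b x = ∑ c, (∑ b, G x a b * gi G x b c) * pd c u x := by
    unfold grad
    simp only [Finset.mul_sum, Finset.sum_mul]
    rw [Finset.sum_comm]
    exact Finset.sum_congr rfl fun c _ => Finset.sum_congr rfl fun b _ => by ring
  rw [h1]
  simp only [mul_gi hG hx]
  simp

end

end YR
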