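import Pool.Agent.Rig71.DR0

open scoped ContDiff Topology
open MeasureTheory Metric Set Filter

noncomputable section

namespace YR

/-! ### DRE : smoothness and derivatives of parametric integrals -/

theorem smooth_int {H : E → E → ℝ} (hH : ContDiff ℝ ∞ (fun p : E × E => H p.1 p.2)) :
    ContDiff ℝ ∞ (fun x => ∫ y in closedBall (0 : E) 2, H x y) := by
  let χ : ContDiffBump (0 : E) := ⟨2, 3, by norm_num, by norm_num⟩
  let g : E → E → ℝ := fun x z => χ (-z) * H x (-z)
  let f : E → ℝ := indicator (closedBall (0 : E) 2) (fun _ => (1 : ℝ))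
  have hk : IsCompact (closedBall (0 : E) 3) := isCompact_closedBall 0 3
  have hgs : ∀ p, ∀ x, p ∈ (univ : Set E) → x ∉ closedBall (0 : E) 3 → g p x = 0 := by
    intro p x _ hx
    have : χ (-x) = 0 := by
      refine χ.zero_of_le_dist ?_
      rw [dist_zero_right, norm_neg]
      rw [mem_closedBall_zero_iff, not_le] at hx
      exact hx.le
    simp only [g, this, zero_mul]
  have hf : LocallyIntegrable f volume := by
    refine Integrable.locallyIntegrable ?_
    refine (integrable_indicator_iff measurableSet_closedBall).2 ?_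
    exact integrableOn_const (measure_closedBall_lt_top).ne
  have hg : ContDiffOn ℝ ((⊤ : ℕ∞) : WithTop ℕ∞) (↿g) ((univ : Set E) ×ˢ univ) := by
    refine ContDiff.contDiffOn ?_
    have h1 : ContDiff ℝ ∞ (fun p : E × E => χ (-p.2)) := χ.contDiff.comp (contDiff_snd.neg)
    have h2 : ContDiff ℝ ∞ (fun p : E × E => H p.1 (-p.2)) :=
      hH.comp (contDiff_fst.prodMk (contDiff_snd.neg))
    exact h1.mul h2
  have h := contDiffOn_convolution_right_with_param_comp (𝕜 := ℝ) (μ := (volume : Measure E))
    (ContinuousLinearMap.mul ℝ ℝ) (v := fun _ : E => (0 : E)) (contDiffOn_const) isOpen_univ hk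
    hgs hf hg
  rw [contDiffOn_univ] at h
  convert h using 1
  ext x
  rw [convolution_def]
  rw [← integral_indicator measurableSet_closedBall]
  congr 1
  ext y
  simp only [ContinuousLinearMap.mul_apply', f, g, zero_sub, neg_neg]
  by_cases hy : y ∈ closedBall (0 : E) 2
  · rw [indicator_of_mem hy, indicator_of_mem hy, one_mul, χ.one_of_mem_closedBall hy, one_mul]
  · rw [indicator_of_notMem hy, indicator_of_notMem hy, zero_mul]

/-- differentiation under the integral -/
theorem pd_int {H : E → E → ℝ} (hH : ContDiff ℝ ∞ (fun p : E × E => H p.1 p.2)) (a : Fin 3)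
    (x : E) : pd a (fun x => ∫ y in closedBall (0 : E) 2, H x y) x =
      ∫ y in closedBall (0 : E) 2, pd a (fun x' => H x' y) x := by
  have hHy : ∀ y, ContDiff ℝ ∞ (fun x' => H x' y) := fun y =>
    hH.comp (contDiff_id.prodMk contDiff_const)
  have hfd : ContDiff ℝ ∞ (fun p : E × E => fderiv ℝ (fun x' => H x' p.2) p.1) := by
    have : ContDiff ℝ ∞ (fun p : E × E => fderiv ℝ ((fun (q : E × E) (x' : E) => H x' q.2) p)
        p.1) := by
      refine ContDiff.fderiv (m := ∞) (n := ∞) ?_ contDiff_fst (by norm_num)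
      exact hH.comp (contDiff_snd.prodMk (contDiff_snd.comp contDiff_fst))
    exact this
  obtain ⟨C, hC⟩ : ∃ C, ∀ p ∈ closedBall x 1 ×ˢ closedBall (0 : E) 2,
      ‖fderiv ℝ (fun x' => H x' p.2) p.1‖ ≤ C :=
    ((isCompact_closedBall x 1).prod (isCompact_closedBall 0 2)).exists_bound_of_continuousOn
      hfd.continuous.continuousOn
  have key : HasFDerivAt (fun x => ∫ y in closedBall (0 : E) 2, H x y)
      (∫ y in closedBall (0 : E) 2, fderiv ℝ (fun x' => H x' y) x) x := by
    refine hasFDerivAt_integral_of_dominated_of_fderiv_le (𝕜 := ℝ) (bound := fun _ => C)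
      (F' := fun x y => fderiv ℝ (fun x' => H x' y) x)
      (s := closedBall x 1) (closedBall_mem_nhds x one_pos) ?_ ?_ ?_ ?_ ?_ ?_
    · refine Eventually.of_forall fun x' => ?_
      exact (hH.continuous.comp
        (by fun_prop : Continuous fun y : E => (x', y))).aestronglyMeasurable
    · refine ContinuousOn.integrableOn_compact (isCompact_closedBall 0 2) ?_
      exact (hH.continuous.comp (by fun_prop : Continuous fun y : E => (x, y))).continuousOn
    · exact (hfd.continuous.comp
        (by fun_prop : Continuous fun y : E => (x, y))).aestronglyMeasurable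
    · refine (ae_restrict_iff' measurableSet_closedBall).2 (Eventually.of_forall fun y hy => ?_)
      intro x' hx'
      exact hC (x', y) ⟨hx', hy⟩
    · exact integrableOn_const (measure_closedBall_lt_top).ne
    · refine Eventually.of_forall fun y x' _ => ?_
      exact ((hHy y).differentiable (by norm_num) x').hasFDerivAt
  have hint : Integrable (fun y => fderiv ℝ (fun x' => H x' y) x)
      (volume.restrict (closedBall (0 : E) 2)) := by
    refine ContinuousOn.integrableOn_compact (isCompact_closedBall 0 2) ?_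
    exact (hfd.continuous.comp (by fun_prop : Continuous fun y : E => (x, y))).continuousOn
  unfold pd
  rw [key.fderiv, ContinuousLinearMap.integral_apply hint]

theorem pd_smooth2 {H : E → E → ℝ} (hH : ContDiff ℝ ∞ (fun p : E × E => H p.1 p.2)) (a : Fin 3) :
    ContDiff ℝ ∞ (fun p : E × E => pd a (fun x' => H x' p.2) p.1) := by
  have hfd : ContDiff ℝ ∞ (fun p : E × E => fderiv ℝ ((fun (q : E × E) (x' : E) => H x' q.2) p)
      p.1) := by
    refine ContDiff.fderiv (m := ∞) (n := ∞) ?_ contDiff_fst (by norm_num)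
    exact hH.comp (contDiff_snd.prodMk (contDiff_snd.comp contDiff_fst))
  exact ContDiff.clm_apply (𝕜 := ℝ) hfd contDiff_const

theorem integrableOn_slice {H : E → E → ℝ} (hH : ContDiff ℝ ∞ (fun p : E × E => H p.1 p.2))
    (x : E) : Integrable (fun y => H x y) (volume.restrict (closedBall (0 : E) 2)) := by
  refine ContinuousOn.integrableOn_compact (isCompact_closedBall 0 2) ?_
  exact (hH.continuous.comp (by fun_prop : Continuous fun y : E => (x, y))).continuousOn

theorem lap_int {G : E → Mat} (hG : LM (ball 0 4) G) {H : E → E → ℝ}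
    (hH : ContDiff ℝ ∞ (fun p : E × E => H p.1 p.2)) {x : E} (hx : x ∈ ball (0 : E) 4) :
    lap G (fun x => ∫ y in closedBall (0 : E) 2, H x y) x =
      ∫ y in closedBall (0 : E) 2, lap G (fun x' => H x' y) x := by
  have h1 : ∀ b, pd b (fun x => ∫ y in closedBall (0 : E) 2, H x y) =
      fun x => ∫ y in closedBall (0 : E) 2, pd b (fun x' => H x' y) x := fun b => by
    ext z
    exact pd_int hH b z
  have h2 : ∀ a b, pd a (pd b (fun x => ∫ y in closedBall (0 : E) 2, H x y)) x =
      ∫ y in closedBall (0 : E) 2, pd a (pd b (fun x' => H x' y)) x := fun a b => by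
    rw [h1 b]
    exact pd_int (H := fun x y => pd b (fun x' => H x' y) x) (pd_smooth2 hH b) a x
  have i1 : ∀ b, Integrable (fun y => pd b (fun x' => H x' y) x)
      (volume.restrict (closedBall (0 : E) 2)) := fun b =>
    integrableOn_slice (H := fun x y => pd b (fun x' => H x' y) x) (pd_smooth2 hH b) x
  have i2 : ∀ a b, Integrable (fun y => pd a (pd b (fun x' => H x' y)) x)
      (volume.restrict (closedBall (0 : E) 2)) := fun a b =>
    integrableOn_slice (H := fun x y => pd a (pd b (fun x' => H x' y)) x)
      (pd_smooth2 (H := fun x y => pd b (fun x' => H x' y) x) (pd_smooth2 hH b) a) x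
  have h3 : ∀ a b, hess G (fun x => ∫ y in closedBall (0 : E) 2, H x y) a b x =
      ∫ y in closedBall (0 : E) 2, hess G (fun x' => H x' y) a b x := fun a b => by
    unfold hess
    rw [integral_sub (i2 a b)
      (integrable_finsetSum _ fun k _ => (i1 k).const_mul _),
      integral_finsetSum _ fun k _ => (i1 k).const_mul _, h2 a b]
    congr 1
    refine Finset.sum_congr rfl fun k _ => ?_
    rw [integral_const_mul, h1 k]
  have i3 : ∀ a b, Integrable (fun y => hess G (fun x' => H x' y) a b x)
      (volume.restrict (closedBall (0 : E) 2)) := fun a b => by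
    unfold hess
    exact (i2 a b).sub (integrable_finsetSum _ fun k _ => (i1 k).const_mul _)
  unfold lap tr
  beta_reduce
  have j1 : ∀ a b, Integrable (fun y => gi G x a b * hess G (fun x' => H x' y) a b x)
      (volume.restrict (closedBall (0 : E) 2)) := fun a b => (i3 a b).const_mul _
  have j2 : ∀ a, Integrable (fun y => ∑ b, gi G x a b * hess G (fun x' => H x' y) a b x)
      (volume.restrict (closedBall (0 : E) 2)) := fun a =>
    integrable_finsetSum _ fun b _ => j1 a b
  refine Eq.trans ?_ (integral_finsetSum _ fun a _ => j2 a).symm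
  refine Finset.sum_congr rfl fun a _ => ?_
  refine Eq.trans ?_ (integral_finsetSum _ fun b _ => j1 a b).symm
  refine Finset.sum_congr rfl fun b _ => ?_
  refine Eq.trans ?_ (integral_const_mul _ _).symm
  rw [h3 a b]

/-- the kernel times a smooth function supported in `closedBall 0 2` is smooth in both variables -/
theorem kk_smooth {G : E → Mat} (hG : LM (ball 0 4) G) {P : ℝ → ℝ}
    (hP : ContDiffOn ℝ ∞ P (Ioi 0)) {δ : ℝ} (hδ : 0 < δ)
    {f : E → ℝ} (hf : ContDiff ℝ ∞ f) (hs : ∀ y, f y ≠ 0 → ‖y‖ ≤ 2) :
    ContDiff ℝ ∞ (fun p : E × E => kk G P δ p.1 p.2 * f p.2) := by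
  rw [contDiff_iff_contDiffAt]
  intro p
  by_cases hp : p.2 ∈ ball (0 : E) 4
  · have hU : IsOpen (ball (0 : E) 4) := isOpen_ball
    have hGa : ∀ a b, ContDiffAt ℝ ∞ (fun q : E × E => G q.2 a b) p := fun a b =>
      ((hG.smooth a b).contDiffAt (hU.mem_nhds hp)).comp p contDiffAt_snd
    have hz : ∀ a, ContDiffAt ℝ ∞ (fun q : E × E => (q.1 - q.2) a) p := by
      intro a
      have h0 : ContDiff ℝ ∞ (fun q : E × E => (q.1 - q.2)) := contDiff_fst.sub contDiff_snd
      exact (((EuclideanSpace.proj a : E →L[ℝ] ℝ).contDiff).comp h0).contDiffAt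
    have hq : ContDiffAt ℝ ∞ (fun q : E × E => qd G q.2 (q.1 - q.2)) p := by
      unfold qd
      refine ContDiffAt.sum fun a _ => ContDiffAt.sum fun b _ => ?_
      exact ((hGa a b).mul (hz a)).mul (hz b)
    have hqn : 0 ≤ qd G p.2 (p.1 - p.2) := by
      have h := (hG.pos p.2 hp).posSemidef
      have h' := h.dotProduct_mulVec_nonneg (fun a => (p.1 - p.2) a)
      unfold qd
      simp only [star_trivial, dotProduct, Matrix.mulVec, Finset.mul_sum] at h'
      refine h'.trans (le_of_eq ?_)
      refine Finset.sum_congr rfl fun a _ => Finset.sum_congr rfl fun b _ => ?_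
      ring
    have hdet : ContDiffAt ℝ ∞ (fun q : E × E => (G q.2).det) p := by
      simp only [Matrix.det_apply]
      refine ContDiffAt.sum fun σ _ => ?_
      refine ContDiffAt.const_smul _ ?_
      exact contDiffAt_prod fun i _ => hGa _ _
    have hdp : 0 < (G p.2).det := (hG.pos p.2 hp).det_pos
    have hsq : ContDiffAt ℝ ∞ (fun q : E × E => √(G q.2).det) p := hdet.sqrt hdp.ne'
    have hPc : ContDiffAt ℝ ∞ (fun q : E × E => P (qd G q.2 (q.1 - q.2) + δ)) p := by
      have h1 : ContDiffAt ℝ ∞ P (qd G p.2 (p.1 - p.2) + δ) :=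
        hP.contDiffAt (isOpen_Ioi.mem_nhds (by rw [mem_Ioi]; linarith))
      exact ContDiffAt.comp (g := P) (f := fun q : E × E => qd G q.2 (q.1 - q.2) + δ) p h1
        (hq.add contDiffAt_const)
    have hfp : ContDiffAt ℝ ∞ (fun q : E × E => f q.2) p := (hf.comp contDiff_snd).contDiffAt
    unfold kk
    exact ((hsq.div_const _).mul hPc).mul hfp
  · have hN : ∀ᶠ q : E × E in 𝓝 p, kk G P δ q.1 q.2 * f q.2 = 0 := by
      have ho : IsOpen {q : E × E | 2 < ‖q.2‖} :=
        isOpen_lt continuous_const (continuous_norm.comp continuous_snd)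
      have hm : p ∈ {q : E × E | 2 < ‖q.2‖} := by
        rw [mem_ball_zero_iff, not_lt] at hp
        change 2 < ‖p.2‖
        linarith
      filter_upwards [ho.mem_nhds hm] with q hq
      have : f q.2 = 0 := by
        by_contra h0
        exact absurd (hs _ h0) (not_le.2 hq)
      rw [this, mul_zero]
    exact (contDiffAt_const (c := (0 : ℝ))).congr_of_eventuallyEq hN

end YR
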