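import Mathlib

/-!
# MP_71b0e8_gt : common definitions

* `YR.E` : the model space `ℝ³`; a metric on an open set of `E` is a function `G : E → Mat`.
* chart operators `chr, hess, inn, lap, ric, scal, rho, TT, …` (coordinate formulas).
* `YR.Atl M` : a finite smooth atlas with targets `ball 0 4`; `YR.Met 𝒜` a Riemannian metric.
* the global operators `Met.inn, Met.lap, …` are the chart operators in the chart `idx p`.
-/

open scoped ContDiff Topology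
open MeasureTheory Metric Set Filter

noncomputable section

namespace YR

/-- the model space -/
abbrev E := EuclideanSpace ℝ (Fin 3)

abbrev Mat := Matrix (Fin 3) (Fin 3) ℝ

/-- standard basis -/
def be (a : Fin 3) : E := EuclideanSpace.single a 1

/-- partial derivative -/
def pd (a : Fin 3) (f : E → ℝ) (x : E) : ℝ := fderiv ℝ f x (be a)

/-! ## Operators in a chart with metric `G` -/

section chart

variable (G : E → Mat)

/-- inverse metric -/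
def gi (x : E) : Mat := (G x)⁻¹

/-- Christoffel symbols `Γ^k_{ab}` -/
def chr (k a b : Fin 3) (x : E) : ℝ :=
  (1 / 2) * ∑ l, gi G x k l *
    (pd a (fun y => G y l b) x + pd b (fun y => G y l a) x - pd l (fun y => G y a b) x)

/-- Hessian -/
def hess (u : E → ℝ) (a b : Fin 3) (x : E) : ℝ :=
  pd a (pd b u) x - ∑ k, chr G k a b x * pd k u x

/-- Ricci curvature -/
def ric (a b : Fin 3) (x : E) : ℝ :=
  ∑ k, (pd k (chr G k a b) x - pd b (chr G k a k) x +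
    ∑ l, (chr G k k l x * chr G l a b x - chr G k b l x * chr G l a k x))

/-- trace of a bilinear form -/
def tr (h : Fin 3 → Fin 3 → ℝ) (x : E) : ℝ := ∑ a, ∑ b, gi G x a b * h a b

/-- inner product of bilinear forms -/
def ip (h k : Fin 3 → Fin 3 → ℝ) (x : E) : ℝ :=
  ∑ a, ∑ b, ∑ c, ∑ d, gi G x a c * gi G x b d * h a b * k c d

/-- gradient -/
def grad (u : E → ℝ) (a : Fin 3) (x : E) : ℝ := ∑ b, gi G x a b * pd b u x

/-- `⟨du, dv⟩` -/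
def inn (u v : E → ℝ) (x : E) : ℝ := ∑ a, ∑ b, gi G x a b * pd a u x * pd b v x

/-- `h(∇u, ∇v)` -/
def ev (h : Fin 3 → Fin 3 → ℝ) (u v : E → ℝ) (x : E) : ℝ :=
  ∑ a, ∑ b, h a b * grad G u a x * grad G v b x

/-- Laplacian -/
def lap (u : E → ℝ) (x : E) : ℝ := tr G (fun a b => hess G u a b x) x

/-- scalar curvature -/
def scal (x : E) : ℝ := tr G (fun a b => ric G a b x) x

/-- Schouten tensor `Ric - (R/4) g` -/
def sch (a b : Fin 3) (x : E) : ℝ := ric G a b x - scal G x / 4 * G x a b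

/-- trace free Ricci tensor `Ric - (R/3) g` -/
def ric0 (a b : Fin 3) (x : E) : ℝ := ric G a b x - scal G x / 3 * G x a b

/-- `ρ(w) = (Δ w + (R/4) w) / 3` -/
def rho (w : E → ℝ) (x : E) : ℝ := (lap G w x + scal G x / 4 * w x) / 3

/-- `T(w) = Hess w + w S - ρ(w) g` -/
def TT (w : E → ℝ) (a b : Fin 3) (x : E) : ℝ :=
  hess G w a b x + w x * sch G a b x - rho G w x * G x a b

/-- `B(u,v) = ρ(u) v + ρ(v) u - ⟨du,dv⟩` -/
def bb (u v : E → ℝ) (x : E) : ℝ := rho G u x * v x + rho G v x * u x - inn G u v x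

/-- `σ₂ = (-|Ric|² + (3/8) R²)/2` -/
def sig2 (x : E) : ℝ :=
  (-(ip G (fun a b => ric G a b x) (fun a b => ric G a b x) x) + 3 / 8 * scal G x ^ 2) / 2

/-- conformal change `w⁻² G` -/
def cf (w : E → ℝ) (x : E) : Mat := ((w x)⁻¹ ^ 2) • G x

/-- Riemann tensor `R^k_{l ab}` -/
def riem (k l a b : Fin 3) (x : E) : ℝ :=
  pd a (chr G k b l) x - pd b (chr G k a l) x +
    ∑ m, (chr G k a m x * chr G m b l x - chr G k b m x * chr G m a l x)

/-- the trace free tensor `(Hess f - (1/2) df ⊗ df)⁰` -/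
def qq (f : E → ℝ) (a b : Fin 3) (x : E) : ℝ :=
  hess G f a b x - pd a f x * pd b f x / 2 - (lap G f x - inn G f f x / 2) / 3 * G x a b

end chart

/-- smooth metric on the open set `U` of `E` -/
structure LM (U : Set E) (G : E → Mat) : Prop where
  op : IsOpen U
  smooth : ∀ a b, ContDiffOn ℝ ∞ (fun x => G x a b) U
  symm : ∀ x ∈ U, ∀ a b, G x a b = G x b a
  pos : ∀ x ∈ U, (G x).PosDef

/-! ## Atlases -/

/-- a finite smooth atlas; the targets of the charts are `ball 0 4`, and the preimages of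
`ball 0 1` cover -/
structure Atl (M : Type*) [TopologicalSpace M] where
  n : ℕ
  φ : Fin n → OpenPartialHomeomorph M E
  target_eq : ∀ i, (φ i).target = ball 0 4
  cover : ∀ p : M, ∃ i, p ∈ (φ i).source ∧ φ i p ∈ ball (0 : E) 1
  smooth : ∀ i j, ContDiffOn ℝ ∞ (fun z => φ j ((φ i).symm z))
    {z ∈ ball (0 : E) 4 | (φ i).symm z ∈ (φ j).source}

namespace Atl

variable {M : Type*} [TopologicalSpace M] (𝒜 : Atl M)

/-- coordinate change -/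
def tr (i j : Fin 𝒜.n) (z : E) : E := 𝒜.φ j ((𝒜.φ i).symm z)

/-- the function `u` in the chart `i` -/
def rd (u : M → ℝ) (i : Fin 𝒜.n) (z : E) : ℝ := u ((𝒜.φ i).symm z)

/-- smooth on the open set `U` -/
def SmOn (U : Set M) (u : M → ℝ) : Prop :=
  ∀ i, ContDiffOn ℝ ∞ (𝒜.rd u i) {z ∈ ball (0 : E) 4 | (𝒜.φ i).symm z ∈ U}

/-- smooth functions -/
def Sm (u : M → ℝ) : Prop := ∀ i, ContDiffOn ℝ ∞ (𝒜.rd u i) (ball (0 : E) 4)

open Classical in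
/-- the charts with `p ∈ φ⁻¹ (ball 0 1)` -/
def good (p : M) : Finset (Fin 𝒜.n) :=
  Finset.univ.filter fun i => p ∈ (𝒜.φ i).source ∧ 𝒜.φ i p ∈ ball (0 : E) 1

theorem good_nonempty (p : M) : (𝒜.good p).Nonempty := by
  obtain ⟨i, hi⟩ := 𝒜.cover p
  exact ⟨i, by simpa [good] using hi⟩

/-- the least chart index with `p ∈ φ⁻¹ (ball 0 1)` -/
def idx (p : M) : Fin 𝒜.n := (𝒜.good p).min' (𝒜.good_nonempty p)

/-- global function from a family of functions in the charts -/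
def glob (F : Fin 𝒜.n → E → ℝ) (p : M) : ℝ := F (𝒜.idx p) (𝒜.φ (𝒜.idx p) p)

end Atl

/-- a Riemannian metric on `M`, given by its matrices in the charts of the atlas -/
structure Met {M : Type*} [TopologicalSpace M] (𝒜 : Atl M) where
  g : Fin 𝒜.n → E → Mat
  lm : ∀ i, LM (ball 0 4) (g i)
  compat : ∀ i j, ∀ z ∈ ball (0 : E) 4, (𝒜.φ i).symm z ∈ (𝒜.φ j).source → ∀ a b,
    g i z a b = ∑ c, ∑ d, (fderiv ℝ (𝒜.tr i j) z (be a)) c *
      (fderiv ℝ (𝒜.tr i j) z (be b)) d * g j (𝒜.tr i j z) c d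

namespace Met

variable {M : Type*} [TopologicalSpace M] {𝒜 : Atl M} (𝒢 : Met 𝒜)

def inn (u v : M → ℝ) : M → ℝ :=
  𝒜.glob fun i => YR.inn (𝒢.g i) (𝒜.rd u i) (𝒜.rd v i)

def lap (u : M → ℝ) : M → ℝ := 𝒜.glob fun i => YR.lap (𝒢.g i) (𝒜.rd u i)

def scal : M → ℝ := 𝒜.glob fun i => YR.scal (𝒢.g i)

/-- `Ric(∇u,∇v)` -/
def ricv (u v : M → ℝ) : M → ℝ := 𝒜.glob fun i z =>
  YR.ev (𝒢.g i) (fun a b => YR.ric (𝒢.g i) a b z) (𝒜.rd u i) (𝒜.rd v i) z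

/-- `Hess w (∇u,∇v)` -/
def hessv (w u v : M → ℝ) : M → ℝ := 𝒜.glob fun i z =>
  YR.ev (𝒢.g i) (fun a b => YR.hess (𝒢.g i) (𝒜.rd w i) a b z) (𝒜.rd u i) (𝒜.rd v i) z

/-- `|Hess u|²` -/
def h2 (u : M → ℝ) : M → ℝ := 𝒜.glob fun i z =>
  YR.ip (𝒢.g i) (fun a b => YR.hess (𝒢.g i) (𝒜.rd u i) a b z)
    (fun a b => YR.hess (𝒢.g i) (𝒜.rd u i) a b z) z

/-- `|T(w)|²` -/
def t2 (w : M → ℝ) : M → ℝ := 𝒜.glob fun i z =>
  YR.ip (𝒢.g i) (fun a b => YR.TT (𝒢.g i) (𝒜.rd w i) a b z)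
    (fun a b => YR.TT (𝒢.g i) (𝒜.rd w i) a b z) z

/-- `|Ric⁰|²` -/
def e2 : M → ℝ := 𝒜.glob fun i z =>
  YR.ip (𝒢.g i) (fun a b => YR.ric0 (𝒢.g i) a b z) (fun a b => YR.ric0 (𝒢.g i) a b z) z

def sig2 : M → ℝ := 𝒜.glob fun i => YR.sig2 (𝒢.g i)

def rho (w : M → ℝ) (p : M) : ℝ := (𝒢.lap w p + 𝒢.scal p / 4 * w p) / 3

/-- `B(u,v)` -/
def bb (u v : M → ℝ) (p : M) : ℝ := 𝒢.rho u p * v p + 𝒢.rho v p * u p - 𝒢.inn u v p

/-- conformal Laplacian `-8 Δ + R` -/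
def L (u : M → ℝ) (p : M) : ℝ := -8 * 𝒢.lap u p + 𝒢.scal p * u p

/-- `⟨Ric⁰, Hess f⟩` -/
def eh (f : M → ℝ) : M → ℝ := 𝒜.glob fun i z =>
  YR.ip (𝒢.g i) (fun a b => YR.ric0 (𝒢.g i) a b z) (fun a b => YR.hess (𝒢.g i) (𝒜.rd f i) a b z) z

/-- `|Ric⁰ - (Hess f - (1/2) df ⊗ df)⁰|²` -/
def q2 (f : M → ℝ) : M → ℝ := 𝒜.glob fun i z =>
  YR.ip (𝒢.g i) (fun a b => YR.ric0 (𝒢.g i) a b z - YR.qq (𝒢.g i) (𝒜.rd f i) a b z)
    (fun a b => YR.ric0 (𝒢.g i) a b z - YR.qq (𝒢.g i) (𝒜.rd f i) a b z) z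

/-- Riemannian measure -/
def vol [MeasurableSpace M] : Measure M :=
  Measure.sum fun i : Fin 𝒜.n => Measure.map (𝒜.φ i).symm
    ((volume.restrict {z ∈ ball (0 : E) 4 | 𝒜.idx ((𝒜.φ i).symm z) = i}).withDensity
      fun z => ENNReal.ofReal (√(𝒢.g i z).det))

/-- total volume -/
def V [MeasurableSpace M] : ℝ := ∫ _ : M, (1 : ℝ) ∂𝒢.vol

/-- `∫ σ₁` -/
def S1 [MeasurableSpace M] : ℝ := ∫ p : M, 𝒢.scal p / 4 ∂𝒢.vol

/-- `∫ σ₂` -/
def S2 [MeasurableSpace M] : ℝ := ∫ p : M, 𝒢.sig2 p ∂𝒢.vol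

/-- `𝓔 = vol ∫σ₂ / (∫σ₁)²` -/
def EE [MeasurableSpace M] : ℝ := 𝒢.V * 𝒢.S2 / 𝒢.S1 ^ 2

end Met

/-! ## The conformal metric `w⁻² g` -/

theorem cf_lm {U : Set E} {G : E → Mat} (hG : LM U G) {w : E → ℝ} (hw : ContDiffOn ℝ ∞ w U)
    (hp : ∀ x ∈ U, 0 < w x) : LM U (cf G w) where
  op := hG.op
  smooth a b := by
    have h1 : ContDiffOn ℝ ∞ (fun x => (w x)⁻¹ ^ 2) U :=
      (hw.inv fun x hx => (hp x hx).ne').pow 2
    exact h1.mul (hG.smooth a b)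
  symm x hx a b := by
    simp only [cf, Matrix.smul_apply, hG.symm x hx a b]
  pos x hx := (hG.pos x hx).smul (pow_pos (inv_pos.2 (hp x hx)) 2)

theorem Atl.Sm.pos_rd {M : Type*} [TopologicalSpace M] {𝒜 : Atl M} {w : M → ℝ}
    (hp : ∀ p, 0 < w p) (i : Fin 𝒜.n) (z : E) : 0 < 𝒜.rd w i z := hp _

/-- the metric `w⁻² g` -/
def Met.conf {M : Type*} [TopologicalSpace M] {𝒜 : Atl M} (𝒢 : Met 𝒜) (w : M → ℝ)
    (hw : 𝒜.Sm w) (hp : ∀ p, 0 < w p) : Met 𝒜 where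
  g i := cf (𝒢.g i) (𝒜.rd w i)
  lm i := cf_lm (𝒢.lm i) (hw i) fun x _ => hp _
  compat i j z hz hj a b := by
    have h1 : 𝒜.rd w j (𝒜.tr i j z) = 𝒜.rd w i z := by
      unfold Atl.rd Atl.tr
      rw [(𝒜.φ j).left_inv hj]
    simp only [cf, Matrix.smul_apply, smul_eq_mul, h1]
    rw [𝒢.compat i j z hz hj a b, Finset.mul_sum]
    refine Finset.sum_congr rfl fun c _ => ?_
    rw [Finset.mul_sum]
    exact Finset.sum_congr rfl fun d _ => by ring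

end YR
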