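import Pool.Agent.Rig71.DefsA
import Pool.Agent.Rig71.Glob2a
import Pool.Agent.Rig71.Glob2c
import Pool.Agent.Rig71.Int1
import Pool.Agent.Rig71.Int2
import Pool.Agent.Rig71.Int3

/-! MP_71b0e8_gt, module Ident1. -/

open scoped ContDiff Topology
open MeasureTheory Metric Set Filter

noncomputable section

namespace YR

theorem ident1_int4 {X : Type*} [MeasurableSpace X] {m : Measure X} {a b c d : X → ℝ}
    (ha : Integrable a m) (hb : Integrable b m) (hc : Integrable c m) (hd : Integrable d m) :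
    ∫ x, (a x - b x + c x - d x) ∂m = ∫ x, a x ∂m - ∫ x, b x ∂m + ∫ x, c x ∂m - ∫ x, d x ∂m := by
  have h1 : ∫ x, (a x - b x + c x - d x) ∂m = ∫ x, (a x - b x + c x) ∂m - ∫ x, d x ∂m :=
    integral_sub ((ha.sub hb).add hc) hd
  have h2 : ∫ x, (a x - b x + c x) ∂m = ∫ x, (a x - b x) ∂m + ∫ x, c x ∂m :=
    integral_add (ha.sub hb) hc
  rw [h1, h2, integral_sub ha hb]

variable {M : Type*} [TopologicalSpace M] [CompactSpace M] [T2Space M] [ConnectedSpace M]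
  [MeasurableSpace M] [BorelSpace M] {𝒜 : Atl M} (𝒢 : Met 𝒜)

omit [CompactSpace M] [T2Space M] [ConnectedSpace M] [MeasurableSpace M] [BorelSpace M] in
theorem ident1_inn_const' (f : M → ℝ) (c : ℝ) (p : M) : 𝒢.inn f (fun _ => c) p = 0 := by
  rw [𝒢.inn_symm, 𝒢.inn_const]

omit [CompactSpace M] [T2Space M] [ConnectedSpace M] [MeasurableSpace M] [BorelSpace M] in
theorem ident1_ricv_const {f : M → ℝ} (hf : 𝒜.Sm f) (c : ℝ) (p : M) :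
    𝒢.ricv f (fun _ => c) p = 0 := by
  rw [𝒢.ricv_symm]
  have h := 𝒢.ricv_comp_left isOpen_univ (mem_univ p) (hf.on univ) (F := fun _ => c) (F' := 0)
    (hasDerivAt_const _ _) f
  rw [zero_mul] at h
  exact h

omit [ConnectedSpace M] in
theorem ident1_int1 {f : M → ℝ} (hf : 𝒜.Sm f) :
    ∫ p, (𝒢.h2 f p - 𝒢.lap f p ^ 2 + 𝒢.ricv f f p) ∂𝒢.vol = 0 := by
  have h := 𝒢.integral_bochner (Atl.Sm.const (1 : ℝ)) hf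
  simp only [one_mul, 𝒢.inn_const, mul_zero, zero_div, sub_zero, integral_zero] at h
  exact h

omit [ConnectedSpace M] in
theorem ident1_int2 {f : M → ℝ} (hf : 𝒜.Sm f) :
    ∫ p, (𝒢.eh f p + 𝒢.inn 𝒢.scal f p / 6) ∂𝒢.vol = 0 := by
  have h := 𝒢.integral_eh (Atl.Sm.const (1 : ℝ)) hf
  simp only [one_mul, ident1_inn_const' 𝒢, ident1_ricv_const 𝒢 hf, mul_zero, sub_zero,
    add_zero] at h
  rw [integral_add (𝒢.integrable_sm (𝒢.Sm_eh hf))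
    ((𝒢.integrable_sm (𝒢.Sm_inn 𝒢.Sm_scal hf)).div_const 6), h]
  ring

omit [ConnectedSpace M] in
theorem ident1_int3 {u f : M → ℝ} (hu : 𝒜.Sm u) (hf : 𝒜.Sm f) :
    ∫ p, (𝒢.inn u f p + u p * 𝒢.lap f p) ∂𝒢.vol = 0 := by
  rw [integral_add (𝒢.integrable_sm (𝒢.Sm_inn hu hf))
    (𝒢.integrable_sm (hu.mul (𝒢.Sm_lap hf))), 𝒢.integral_inn hu hf]
  ring

/-- (IDENT1) the main identity, for every smooth `f` -/
theorem ident1 {f : M → ℝ} (hf : 𝒜.Sm f) :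
    𝒢.S1 ^ 2 / (3 * 𝒢.V) - 𝒢.S2 =
      (1 / 2) * ∫ p, 𝒢.q2 f p ∂𝒢.vol
      - (1 / 3) * (∫ p, (𝒢.scal p / 4 - 𝒢.lap f p) ^ 2 ∂𝒢.vol
          - (∫ p, (𝒢.scal p / 4 - 𝒢.lap f p) ∂𝒢.vol) ^ 2 / 𝒢.V)
      + ∫ p, (𝒢.scal p / 16 + 5 / 12 * (𝒢.scal p / 4 - 𝒢.lap f p)) * 𝒢.inn f f p ∂𝒢.vol
      - (1 / 12) * ∫ p, 𝒢.inn f f p ^ 2 ∂𝒢.vol := by
  -- smoothness
  have sR : 𝒜.Sm 𝒢.scal := 𝒢.Sm_scal
  have sL : 𝒜.Sm (𝒢.lap f) := 𝒢.Sm_lap hf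
  have sP : 𝒜.Sm (𝒢.inn f f) := 𝒢.Sm_inn hf hf
  have sR4 : 𝒜.Sm fun p => 𝒢.scal p / 4 := by
    have := (Atl.Sm.const (1 / 4 : ℝ)).mul sR
    refine Eq.mp (congrArg 𝒜.Sm ?_) this
    funext p
    ring
  have sY : 𝒜.Sm fun p => 𝒢.scal p / 4 - 𝒢.lap f p := sR4.sub sL
  have sY2 : 𝒜.Sm fun p => (𝒢.scal p / 4 - 𝒢.lap f p) ^ 2 := sY.pow 2
  have sW : 𝒜.Sm fun p => (𝒢.scal p / 16 + 5 / 12 * (𝒢.scal p / 4 - 𝒢.lap f p)) *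
      𝒢.inn f f p := by
    have := ((((Atl.Sm.const (1 / 16 : ℝ)).mul sR).add
      ((Atl.Sm.const (5 / 12 : ℝ)).mul sY)).mul sP)
    refine Eq.mp (congrArg 𝒜.Sm ?_) this
    funext p
    ring
  have sP2 : 𝒜.Sm fun p => 𝒢.inn f f p ^ 2 := sP.pow 2
  -- integrals
  have i1 : ∫ p, (𝒢.scal p / 4 - 𝒢.lap f p) ∂𝒢.vol = 𝒢.S1 := by
    rw [integral_sub (𝒢.integrable_sm sR4) (𝒢.integrable_sm sL), 𝒢.integral_lap hf, sub_zero]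
    rfl
  have key : ∀ p, (1 / 2) * 𝒢.q2 f p - (1 / 3) * (𝒢.scal p / 4 - 𝒢.lap f p) ^ 2 +
      (𝒢.scal p / 16 + 5 / 12 * (𝒢.scal p / 4 - 𝒢.lap f p)) * 𝒢.inn f f p -
      (1 / 12) * 𝒢.inn f f p ^ 2 + 𝒢.sig2 p =
      (1 / 2) * (𝒢.h2 f p - 𝒢.lap f p ^ 2 + 𝒢.ricv f f p) -
      (𝒢.eh f p + 𝒢.inn 𝒢.scal f p / 6) +
      (1 / 6) * (𝒢.inn 𝒢.scal f p + 𝒢.scal p * 𝒢.lap f p) -
      (1 / 4) * (𝒢.inn (𝒢.inn f f) f p + 𝒢.inn f f p * 𝒢.lap f p) := by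
    intro p
    have h1 := 𝒢.inn_inn isOpen_univ (mem_univ p) (hf.on univ) (hf.on univ) f
    rw [𝒢.q2_eq, 𝒢.sig2_eq, 𝒢.inn_symm (𝒢.inn f f) f, h1]
    ring
  have hI : (1 / 2) * ∫ p, 𝒢.q2 f p ∂𝒢.vol
      - (1 / 3) * ∫ p, (𝒢.scal p / 4 - 𝒢.lap f p) ^ 2 ∂𝒢.vol
      + ∫ p, (𝒢.scal p / 16 + 5 / 12 * (𝒢.scal p / 4 - 𝒢.lap f p)) * 𝒢.inn f f p ∂𝒢.vol
      - (1 / 12) * ∫ p, 𝒢.inn f f p ^ 2 ∂𝒢.vol + 𝒢.S2 = 0 := by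
    have j1 := (𝒢.integrable_sm (𝒢.Sm_q2 hf)).const_mul (1 / 2)
    have j2 := (𝒢.integrable_sm sY2).const_mul (1 / 3)
    have j3 := 𝒢.integrable_sm sW
    have j4 := (𝒢.integrable_sm sP2).const_mul (1 / 12)
    have j5 := 𝒢.integrable_sm 𝒢.Sm_sig2
    have k1 : Integrable (fun p => (1 / 2) * (𝒢.h2 f p - 𝒢.lap f p ^ 2 + 𝒢.ricv f f p)) 𝒢.vol :=
      (𝒢.integrable_sm (((𝒢.Sm_h2 hf).sub (sL.pow 2)).add (𝒢.Sm_ricv hf hf))).const_mul _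
    have k2 : Integrable (fun p => 𝒢.eh f p + 𝒢.inn 𝒢.scal f p / 6) 𝒢.vol :=
      (𝒢.integrable_sm (𝒢.Sm_eh hf)).add ((𝒢.integrable_sm (𝒢.Sm_inn sR hf)).div_const 6)
    have k3 : Integrable (fun p => (1 / 6) * (𝒢.inn 𝒢.scal f p + 𝒢.scal p * 𝒢.lap f p)) 𝒢.vol :=
      (𝒢.integrable_sm ((𝒢.Sm_inn sR hf).add (sR.mul sL))).const_mul _
    have k4 : Integrable (fun p => (1 / 4) * (𝒢.inn (𝒢.inn f f) f p +
        𝒢.inn f f p * 𝒢.lap f p)) 𝒢.vol :=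
      (𝒢.integrable_sm ((𝒢.Sm_inn sP hf).add (sP.mul sL))).const_mul _
    have hE := integral_congr_ae (μ := 𝒢.vol) (Filter.Eventually.of_forall key)
    have l1 := ident1_int4 j1 j2 j3 j4
    have l2 := ident1_int4 k1 k2 k3 k4
    have l3 := integral_add (((j1.sub j2).add j3).sub j4) j5
    have l4 := l3.symm.trans (hE.trans l2)
    simp only [Pi.add_apply, Pi.sub_apply] at l4
    rw [l1] at l4
    simp only [integral_const_mul] at l4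
    rw [ident1_int1 𝒢 hf, ident1_int2 𝒢 hf, ident1_int3 𝒢 sR hf, ident1_int3 𝒢 sP hf] at l4
    have hS2 : 𝒢.S2 = ∫ p, 𝒢.sig2 p ∂𝒢.vol := rfl
    rw [hS2]
    linarith
  rw [i1]
  have e1 : 𝒢.S1 ^ 2 / (3 * 𝒢.V) = (1 / 3) * (𝒢.S1 ^ 2 / 𝒢.V) := by
    rw [mul_comm (3 : ℝ), ← div_div]
    ring
  rw [e1]
  linarith

end YR
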