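import Pool.Agent.Rig71.DefsA
import Pool.Agent.Rig71.Glob2a
import Pool.Agent.Rig71.Glob2c

/-! MP_71b0e8_gt, module Step. -/

open scoped ContDiff Topology
open MeasureTheory Metric Set Filter

noncomputable section

namespace YR

variable {M : Type*} [TopologicalSpace M] [CompactSpace M] [T2Space M] [ConnectedSpace M]
  {𝒜 : Atl M} (𝒢 : Met 𝒜)

omit [CompactSpace M] [T2Space M] [ConnectedSpace M] in
theorem step_L_sub {u v : M → ℝ} (hu : 𝒜.Sm u) (hv : 𝒜.Sm v) (p : M) :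
    𝒢.L (fun q => u q - v q) p = 𝒢.L u p - 𝒢.L v p := by
  unfold Met.L
  rw [𝒢.lap_sub isOpen_univ (mem_univ p) (hu.on univ) (hv.on univ)]
  ring

omit [CompactSpace M] [T2Space M] [ConnectedSpace M] in
theorem step_L_zero (p : M) : 𝒢.L (fun _ => (0 : ℝ)) p = 0 := by
  unfold Met.L
  rw [𝒢.lap_const]
  ring

omit [CompactSpace M] [T2Space M] [ConnectedSpace M] in
theorem step_abs {μ K : ℝ} (h : UB 𝒢 μ K) {κ : M → ℝ} (hκ : 𝒜.Sm κ) {c : ℝ} (hc : 0 ≤ c)
    (hle : ∀ p, |𝒢.L κ p - μ * κ p| ≤ c) (p : M) : |κ p| ≤ K * c := by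
  rw [abs_le]
  constructor
  · have h1 := h (fun q => 0 - κ q) ((Atl.Sm.const 0).sub hκ) c hc (fun q => by
      rw [step_L_sub 𝒢 (Atl.Sm.const 0) hκ, step_L_zero]
      have := (abs_le.1 (hle q)).1
      linarith) p
    linarith
  · exact h κ hκ c hc (fun q => (abs_le.1 (hle q)).2) p

/-- (STEP) -/
theorem UB_step {μ K δ : ℝ} (hK : 0 < K) (hδ : 0 ≤ δ) (hδK : δ * K < 1) (h : UB 𝒢 μ K) :
    UB 𝒢 (μ + δ) (K / (1 - δ * K)) := by
  intro κ hκ c hc hle p
  obtain ⟨p0, -, hp0⟩ := isCompact_univ.exists_isMaxOn (univ_nonempty (α := M))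
    hκ.continuous.continuousOn
  set m : ℝ := max (κ p0) 0 with hm
  have hm0 : 0 ≤ m := le_max_right _ _
  have hmax : ∀ q, κ q ≤ m := fun q => (hp0 (mem_univ q)).trans (le_max_left _ _)
  have h1 : ∀ q, κ q ≤ K * (c + δ * m) := h κ hκ (c + δ * m) (by positivity) (fun q => by
    have h2 := hle q
    have h3 := mul_le_mul_of_nonneg_left (hmax q) hδ
    linarith)
  have h2 : m ≤ K * (c + δ * m) := max_le (h1 p0) (by positivity)
  have h3 : m ≤ K / (1 - δ * K) * c := by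
    rw [div_mul_eq_mul_div, le_div_iff₀ (by linarith)]
    linarith
  exact (hmax p).trans h3

/-- (STEP) -/
theorem DR_step {μ K δ : ℝ} (hK : 0 < K) (hδ : 0 ≤ δ) (hδK : δ * K < 1) (h : UB 𝒢 μ K)
    (hD : DR 𝒢 μ) : DR 𝒢 (μ + δ) := by
  intro f hf ε hε
  obtain ⟨F, hF⟩ := isCompact_univ.exists_bound_of_continuousOn hf.continuous.continuousOn
  have hF' : ∀ p, |f p| ≤ |F| := fun p => (hF p (mem_univ p)).trans (le_abs_self F)
  have hq : 0 < 1 - δ * K := by linarith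
  set A : ℝ := 2 * K / (1 - δ * K) with hA
  have hA0 : 0 < A := by positivity
  have hAeq : A * (1 - δ * K) = 2 * K := by rw [hA]; exact div_mul_cancel₀ _ hq.ne'
  obtain ⟨e, he0, he1, he2⟩ : ∃ e : ℝ, 0 < e ∧ e ≤ 1 ∧ e * (1 + δ * A) ≤ ε / 2 := by
    refine ⟨min 1 (ε / 2 / (1 + δ * A)), ?_, min_le_left _ _, ?_⟩
    · have : 0 < 1 + δ * A := by positivity
      positivity
    · have h1 : 0 < 1 + δ * A := by positivity
      calc min 1 (ε / 2 / (1 + δ * A)) * (1 + δ * A) ≤ ε / 2 / (1 + δ * A) * (1 + δ * A) :=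
            mul_le_mul_of_nonneg_right (min_le_right _ _) h1.le
        _ = ε / 2 := by field_simp
  set D : ℝ := K * (|F| + 1) with hDd
  have hD0 : 0 ≤ D := by positivity
  have key : ∀ n : ℕ, ∃ κ κ' : M → ℝ, 𝒜.Sm κ ∧ 𝒜.Sm κ' ∧
      (∀ p, |𝒢.L κ p - μ * κ p - (f p + δ * κ' p)| ≤ e) ∧
      (∀ p, |κ p - κ' p| ≤ (δ * K) ^ n * D + A * e) := by
    intro n
    induction n with
    | zero =>
      obtain ⟨κ, hκ, hκe⟩ := hD f hf e he0
      refine ⟨κ, fun _ => 0, hκ, Atl.Sm.const 0, fun p => ?_, fun p => ?_⟩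
      · simpa using hκe p
      · have h1 : |κ p| ≤ K * (|F| + 1) := by
          refine step_abs 𝒢 h hκ (by positivity) (fun q => ?_) p
          have h2 := hκe q
          have h3 := hF' q
          have h4 : 𝒢.L κ q - μ * κ q = (𝒢.L κ q - μ * κ q - f q) + f q := by ring
          rw [h4]
          calc |(𝒢.L κ q - μ * κ q - f q) + f q| ≤ |𝒢.L κ q - μ * κ q - f q| + |f q| :=
                abs_add_le _ _
            _ ≤ e + |F| := add_le_add h2 h3
            _ ≤ |F| + 1 := by linarith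
        have h5 : 0 ≤ A * e := by positivity
        simp only [sub_zero, pow_zero, one_mul]
        linarith
    | succ n ih =>
      obtain ⟨κ, κ', hκ, hκ', h1, h2⟩ := ih
      obtain ⟨κ₂, hκ₂, h3⟩ := hD (fun p => f p + δ * κ p)
        (hf.add ((Atl.Sm.const δ).mul hκ)) e he0
      refine ⟨κ₂, κ, hκ₂, hκ, h3, fun p => ?_⟩
      have hb : 0 ≤ (δ * K) ^ n * D + A * e := by positivity
      have h4 : |κ₂ p - κ p| ≤ K * (δ * ((δ * K) ^ n * D + A * e) + 2 * e) := by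
        refine step_abs 𝒢 h (κ := fun q => κ₂ q - κ q) (hκ₂.sub hκ) (by positivity) (fun q => ?_) p
        rw [step_L_sub 𝒢 hκ₂ hκ]
        have e1 : 𝒢.L κ₂ q - 𝒢.L κ q - μ * (κ₂ q - κ q) =
            (𝒢.L κ₂ q - μ * κ₂ q - (f q + δ * κ q)) - (𝒢.L κ q - μ * κ q - (f q + δ * κ' q)) +
              δ * (κ q - κ' q) := by ring
        rw [e1]
        have h5 := h3 q
        have h6 := h1 q
        have h7 : |δ * (κ q - κ' q)| ≤ δ * ((δ * K) ^ n * D + A * e) := by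
          rw [abs_mul, abs_of_nonneg hδ]
          exact mul_le_mul_of_nonneg_left (h2 q) hδ
        calc _ ≤ |(𝒢.L κ₂ q - μ * κ₂ q - (f q + δ * κ q)) -
              (𝒢.L κ q - μ * κ q - (f q + δ * κ' q))| + |δ * (κ q - κ' q)| := abs_add_le _ _
          _ ≤ (|𝒢.L κ₂ q - μ * κ₂ q - (f q + δ * κ q)| +
              |𝒢.L κ q - μ * κ q - (f q + δ * κ' q)|) + |δ * (κ q - κ' q)| :=
              add_le_add (abs_sub _ _) le_rfl
          _ ≤ δ * ((δ * K) ^ n * D + A * e) + 2 * e := by linarith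
      refine h4.trans (le_of_eq ?_)
      have : K * (2 * e) = A * (1 - δ * K) * e := by rw [hAeq]; ring
      calc K * (δ * ((δ * K) ^ n * D + A * e) + 2 * e)
          = (δ * K) ^ (n + 1) * D + δ * K * A * e + K * (2 * e) := by ring
        _ = (δ * K) ^ (n + 1) * D + A * e := by rw [this]; ring
  have hlim : Tendsto (fun n : ℕ => δ * ((δ * K) ^ n * D)) atTop (𝓝 0) := by
    have h1 := (tendsto_pow_atTop_nhds_zero_of_lt_one (mul_nonneg hδ hK.le) hδK).mul_const D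
    simpa using h1.const_mul δ
  obtain ⟨n, hn⟩ := (hlim.eventually_lt_const (half_pos hε)).exists
  obtain ⟨κ, κ', hκ, hκ', h1, h2⟩ := key n
  refine ⟨κ, hκ, fun p => ?_⟩
  have e1 : 𝒢.L κ p - (μ + δ) * κ p - f p =
      (𝒢.L κ p - μ * κ p - (f p + δ * κ' p)) - δ * (κ p - κ' p) := by ring
  rw [e1]
  have h7 : |δ * (κ p - κ' p)| ≤ δ * ((δ * K) ^ n * D + A * e) := by
    rw [abs_mul, abs_of_nonneg hδ]
    exact mul_le_mul_of_nonneg_left (h2 p) hδ
  calc _ ≤ |𝒢.L κ p - μ * κ p - (f p + δ * κ' p)| + |δ * (κ p - κ' p)| := abs_sub _ _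
    _ ≤ e + δ * ((δ * K) ^ n * D + A * e) := add_le_add (h1 p) h7
    _ = e * (1 + δ * A) + δ * ((δ * K) ^ n * D) := by ring
    _ ≤ ε := by linarith

end YR
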