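import Pool.Agent.Rig71.DefsA
import Pool.Agent.Rig71.MaxP
import Pool.Agent.Rig71.Step
import Pool.Agent.Rig71.Glob2a
import Pool.Agent.Rig71.Glob2c

/-! MP_71b0e8_gt, module NearEig. -/

open scoped ContDiff Topology
open MeasureTheory Metric Set Filter

noncomputable section

namespace YR

section

variable {M : Type*} [TopologicalSpace M] {𝒜 : Atl M} (𝒢 : Met 𝒜)

theorem nearEig_L_sub {u v : M → ℝ} (hu : 𝒜.Sm u) (hv : 𝒜.Sm v) (p : M) :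
    𝒢.L (fun q => u q - v q) p = 𝒢.L u p - 𝒢.L v p := by
  unfold Met.L
  rw [𝒢.lap_sub isOpen_univ (mem_univ p) (hu.on univ) (hv.on univ)]
  ring

theorem nearEig_L_const_mul {u : M → ℝ} (hu : 𝒜.Sm u) (c : ℝ) (p : M) :
    𝒢.L (fun q => c * u q) p = c * 𝒢.L u p := by
  unfold Met.L
  rw [𝒢.lap_const_mul isOpen_univ (mem_univ p) (hu.on univ)]
  ring

theorem nearEig_L_const (c : ℝ) (p : M) : 𝒢.L (fun _ => c) p = 𝒢.scal p * c := by
  unfold Met.L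
  rw [𝒢.lap_const]
  ring

end

variable {M : Type*} [TopologicalSpace M] [CompactSpace M] [T2Space M] [ConnectedSpace M]
  {𝒜 : Atl M} (𝒢 : Met 𝒜)

/-- there is `μ ≥ 0` for which `L - μ` has a one sided bound, but not with the constant `K` -/
theorem nearEig_exists_mu (hR : ∀ p, 0 < 𝒢.scal p) (hD : DR 𝒢 0) {K : ℝ} (hK : 0 < K) :
    ∃ μ K' : ℝ, 0 ≤ μ ∧ DR 𝒢 μ ∧ 0 < K' ∧ UB 𝒢 μ K' ∧ ¬ UB 𝒢 μ K := by
  have hcs : Continuous 𝒢.scal := 𝒢.Sm_scal.continuous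
  obtain ⟨p1, -, hp1⟩ := isCompact_univ.exists_isMinOn (univ_nonempty (α := M)) hcs.continuousOn
  obtain ⟨p2, -, hp2⟩ := isCompact_univ.exists_isMaxOn (univ_nonempty (α := M)) hcs.continuousOn
  set r : ℝ := 𝒢.scal p1 with hr
  have hr0 : 0 < r := hR p1
  have hrle : ∀ p, r ≤ 𝒢.scal p := fun p => hp1 (mem_univ p)
  have hle : ∀ p, 𝒢.scal p ≤ 𝒢.scal p2 := fun p => hp2 (mem_univ p)
  by_contra hcon
  push Not at hcon
  set S : Set ℝ := {μ | 0 ≤ μ ∧ DR 𝒢 μ ∧ ∃ K' : ℝ, 0 < K' ∧ UB 𝒢 μ K'} with hS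
  have h0 : (0 : ℝ) ∈ S := by
    refine ⟨le_rfl, hD, 1 / (0 + r), by positivity, ?_⟩
    have := UB_neg 𝒢 hr0 (le_refl (0 : ℝ)) hrle
    simpa using this
  have hbdd : BddAbove S := by
    refine ⟨𝒢.scal p2, ?_⟩
    rintro μ ⟨hμ, -, K', hK', hUB⟩
    by_contra hlt
    push Not at hlt
    have h1 := hUB (fun _ => 1) (Atl.Sm.const 1) 0 le_rfl (fun p => by
      rw [nearEig_L_const]
      have := hle p
      linarith) p1
    norm_num at h1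
  have hUBK : ∀ μ ∈ S, UB 𝒢 μ K := by
    rintro μ ⟨hμ, hDR, K', hK', hUB⟩
    exact hcon μ K' hμ hDR hK' hUB
  have hδ : 0 < 1 / (2 * K) := by positivity
  obtain ⟨μ, hμS, hμ⟩ := exists_lt_of_lt_csSup ⟨0, h0⟩ (sub_lt_self (sSup S) hδ)
  have hδK : 1 / (2 * K) * K < 1 := by
    have : 1 / (2 * K) * K = 1 / 2 := by field_simp
    rw [this]; norm_num
  have hδK' : 1 / (2 * K) * K = 1 / 2 := by field_simp
  have h1 := UB_step 𝒢 hK hδ.le hδK (hUBK μ hμS)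
  have h2 := DR_step 𝒢 hK hδ.le hδK (hUBK μ hμS) hμS.2.1
  have h3 : μ + 1 / (2 * K) ∈ S := by
    refine ⟨by have := hμS.1; positivity, h2, _, ?_, h1⟩
    rw [hδK']
    have : (0 : ℝ) < 1 - 1 / 2 := by norm_num
    positivity
  have h4 := le_csSup hbdd h3
  linarith

/-- (STEP) approach to the principal eigenvalue: for every `K` there is a smooth function `w`
with `max w = 1`, `0 < τ₀ ≤ L w - μ w ≤ 3 τ₀ ≤ 12 / K` -/
theorem exists_near_eig (hR : ∀ p, 0 < 𝒢.scal p) (hD : DR 𝒢 0) {K : ℝ} (hK : 0 < K) :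
    ∃ (w : M → ℝ) (μ τ : ℝ), 𝒜.Sm w ∧ (∀ p, 0 < w p) ∧ (∀ p, w p ≤ 1) ∧ (∃ p, w p = 1) ∧
      0 ≤ μ ∧ 0 < τ ∧ τ ≤ 4 / K ∧ (∀ p, τ ≤ 𝒢.L w p - μ * w p) ∧
      ∀ p, 𝒢.L w p - μ * w p ≤ 3 * τ := by
  obtain ⟨μ, K', hμ, hDR, hK', hUB, hnot⟩ := nearEig_exists_mu 𝒢 hR hD hK
  unfold UB at hnot
  push Not at hnot
  obtain ⟨κ, hκ, c, hc, hκc, x, hx⟩ := hnot
  have hc0 : 0 < c := by
    rcases hc.lt_or_eq with h | h
    · exact h
    · exfalso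
      have h1 := hUB κ hκ c hc hκc x
      rw [← h, mul_zero] at h1 hx
      linarith
  set e : ℝ := min (1 / 2) (K / (2 * K')) with he
  have he0 : 0 < e := by positivity
  have he1 : e ≤ 1 / 2 := min_le_left _ _
  have he2 : K' * e ≤ K / 2 := by
    calc K' * e ≤ K' * (K / (2 * K')) := mul_le_mul_of_nonneg_left (min_le_right _ _) hK'.le
      _ = K / 2 := by field_simp
  obtain ⟨w0, hw0, hw0e⟩ := hDR (fun _ => 1) (Atl.Sm.const 1) e he0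
  have hlo : ∀ p, 1 / 2 ≤ 𝒢.L w0 p - μ * w0 p := fun p => by
    have := (abs_le.1 (hw0e p)).1
    linarith
  have hhi : ∀ p, 𝒢.L w0 p - μ * w0 p ≤ 3 / 2 := fun p => by
    have := (abs_le.1 (hw0e p)).2
    linarith
  -- `w0` is large at `x`
  have hκ' : 𝒜.Sm fun q => c⁻¹ * κ q := (Atl.Sm.const c⁻¹).mul hκ
  have hxw : K / 2 < w0 x := by
    have h1 := hUB (fun q => c⁻¹ * κ q - w0 q) (hκ'.sub hw0) e he0.le (fun p => by
      rw [nearEig_L_sub 𝒢 hκ' hw0, nearEig_L_const_mul 𝒢 hκ]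
      have h2 := (abs_le.1 (hw0e p)).1
      have h3 : c⁻¹ * (𝒢.L κ p - μ * κ p) ≤ c⁻¹ * c :=
        mul_le_mul_of_nonneg_left (hκc p) (inv_nonneg.2 hc)
      rw [inv_mul_cancel₀ hc0.ne'] at h3
      nlinarith) x
    have h2 : K < c⁻¹ * κ x := by
      have := mul_lt_mul_of_pos_left hx (inv_pos.2 hc0)
      calc K = c⁻¹ * (K * c) := by field_simp
        _ < _ := this
    linarith
  -- `w0 ≥ 0`
  have hnn : ∀ p, 0 ≤ w0 p := fun p => by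
    have h1 := hUB (fun q => (-1) * w0 q) ((Atl.Sm.const (-1)).mul hw0) 0 le_rfl (fun q => by
      rw [nearEig_L_const_mul 𝒢 hw0]
      have := hlo q
      linarith) p
    linarith
  -- `w0 > 0`
  obtain ⟨p1, -, hp1⟩ := isCompact_univ.exists_isMinOn (univ_nonempty (α := M))
    hw0.continuous.continuousOn
  have hp1' : ∀ q, w0 p1 ≤ w0 q := fun q => hp1 (mem_univ q)
  have hlap : 0 ≤ 𝒢.lap w0 p1 :=
    𝒢.lap_nonneg_of_isLocalMin isOpen_univ (mem_univ p1) (hw0.on univ)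
      (Filter.Eventually.of_forall hp1')
  have hpos1 : 0 < w0 p1 := by
    have h1 : 𝒢.L w0 p1 ≤ 𝒢.scal p1 * w0 p1 := by
      unfold Met.L
      linarith
    have h2 := hlo p1
    have h3 : 0 ≤ μ * w0 p1 := mul_nonneg hμ (hnn p1)
    have h4 : 0 < 𝒢.scal p1 * w0 p1 := by linarith
    exact (pos_iff_pos_of_mul_pos h4).1 (hR p1)
  have hpos : ∀ p, 0 < w0 p := fun p => hpos1.trans_le (hp1' p)
  obtain ⟨p2, -, hp2⟩ := isCompact_univ.exists_isMaxOn (univ_nonempty (α := M))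
    hw0.continuous.continuousOn
  set m : ℝ := w0 p2 with hm
  have hm0 : 0 < m := hpos p2
  have hle : ∀ q, w0 q ≤ m := fun q => hp2 (mem_univ q)
  have hmK : K / 2 < m := hxw.trans_le (hle x)
  refine ⟨fun q => m⁻¹ * w0 q, μ, 1 / (2 * m), (Atl.Sm.const m⁻¹).mul hw0,
    fun p => mul_pos (inv_pos.2 hm0) (hpos p), fun p => ?_, ⟨p2, ?_⟩, hμ, by positivity, ?_,
    fun p => ?_, fun p => ?_⟩
  · calc m⁻¹ * w0 p ≤ m⁻¹ * m := mul_le_mul_of_nonneg_left (hle p) (inv_nonneg.2 hm0.le)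
      _ = 1 := inv_mul_cancel₀ hm0.ne'
  · exact inv_mul_cancel₀ hm0.ne'
  · rw [div_le_div_iff₀ (by positivity) hK]
    linarith
  · rw [nearEig_L_const_mul 𝒢 hw0]
    have h1 := mul_le_mul_of_nonneg_left (hlo p) (inv_nonneg.2 hm0.le)
    calc 1 / (2 * m) = m⁻¹ * (1 / 2) := by field_simp
      _ ≤ m⁻¹ * (𝒢.L w0 p - μ * w0 p) := h1
      _ = _ := by ring
  · rw [nearEig_L_const_mul 𝒢 hw0]
    have h1 := mul_le_mul_of_nonneg_left (hhi p) (inv_nonneg.2 hm0.le)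
    calc m⁻¹ * 𝒢.L w0 p - μ * (m⁻¹ * w0 p) = m⁻¹ * (𝒢.L w0 p - μ * w0 p) := by ring
      _ ≤ m⁻¹ * (3 / 2) := h1
      _ = _ := by field_simp

end YR
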