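import Pool.Agent.Rig71.DefsA

/-! MP_71b0e8_gt, module Mor. -/

open scoped ContDiff Topology
open MeasureTheory Metric Set Filter

noncomputable section

namespace YR

theorem mor_finrank : Module.finrank ℝ E = 3 := by
  simp [E]

theorem mor_comp {g : E → ℝ} (x : E) {t : ℝ} (ht : 0 < t) :
    ∫ z, g (x + t • (z - x)) = (t ^ 3)⁻¹ * ∫ z, g z := by
  have h1 : ∫ z, g (x + t • (z - x)) = ∫ z, g (x + t • z) :=
    integral_sub_right_eq_self (fun z => g (x + t • z)) x
  have h2 : ∫ z, g (x + t • z) = |(t ^ Module.finrank ℝ E)⁻¹| • ∫ z, g (x + z) :=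
    Measure.integral_comp_smul volume (fun z => g (x + z)) t
  rw [h1, h2, integral_add_left_eq_self g x, mor_finrank, abs_of_pos (by positivity), smul_eq_mul]

theorem mor_jensen {B : Set E} (hB : MeasurableSet B) (hfin : volume B ≠ ⊤) {g : E → ℝ} {K : ℝ}
    (hg : AEStronglyMeasurable g (volume.restrict B)) (h0 : ∀ z, 0 ≤ g z) (hK : ∀ z ∈ B, g z ≤ K) :
    (∫ z in B, g z) ^ 4 ≤ volume.real B ^ 3 * ∫ z in B, g z ^ 4 := by
  have hfin' : IsFiniteMeasure (volume.restrict B) := ⟨by simpa using hfin.lt_top⟩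
  have hb : ∀ n : ℕ, Integrable (fun z => g z ^ n) (volume.restrict B) := by
    intro n
    refine Integrable.of_bound (hg.pow n) ((max K 0) ^ n) ?_
    filter_upwards [ae_restrict_mem hB] with z hz
    rw [Real.norm_of_nonneg (pow_nonneg (h0 z) n)]
    exact pow_le_pow_left₀ (h0 z) ((hK z hz).trans (le_max_left _ _)) n
  have cs : ∀ u : E → ℝ, (∀ z, 0 ≤ u z) → Integrable u (volume.restrict B) →
      Integrable (fun z => u z ^ 2) (volume.restrict B) →
      (∫ z in B, u z) ^ 2 ≤ volume.real B * ∫ z in B, u z ^ 2 := by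
    intro u hu0 hu1 hu2
    by_cases hv : volume.real B = 0
    · have : volume B = 0 := by
        rw [Measure.real, ENNReal.toReal_eq_zero_iff] at hv
        exact hv.resolve_right hfin
      have hz : volume.restrict B = 0 := Measure.restrict_eq_zero.mpr this
      rw [hz]; simp
    · have hvpos : 0 < volume.real B := lt_of_le_of_ne measureReal_nonneg (Ne.symm hv)
      set m := (∫ z in B, u z) / volume.real B with hm
      have h1 : 0 ≤ ∫ z in B, (u z - m) ^ 2 := integral_nonneg fun _ => by positivity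
      have h2 : ∫ z in B, (u z - m) ^ 2 = (∫ z in B, u z ^ 2) - 2 * m * (∫ z in B, u z)
          + m ^ 2 * volume.real B := by
        have e : ∀ z, (u z - m) ^ 2 = u z ^ 2 - 2 * m * u z + m ^ 2 := fun z => by ring
        simp_rw [e]
        have i1 : Integrable (fun z => 2 * m * u z) (volume.restrict B) := hu1.const_mul _
        have i2 : Integrable (fun z => u z ^ 2 - 2 * m * u z) (volume.restrict B) := hu2.sub i1
        have i3 : Integrable (fun _ : E => m ^ 2) (volume.restrict B) := integrable_const _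
        rw [integral_add i2 i3, integral_sub hu2 i1, integral_const_mul, setIntegral_const,
          smul_eq_mul]
        ring
      rw [h2] at h1
      have h3 : (∫ z in B, u z) = m * volume.real B := by rw [hm]; field_simp
      rw [h3] at h1 ⊢
      nlinarith
  have h1 := cs g h0 (by simpa using hb 1) (hb 2)
  have h2 := cs (fun z => g z ^ 2) (fun z => by positivity) (hb 2)
    (by simpa [← pow_mul] using hb 4)
  have e4 : ∀ z, (g z ^ 2) ^ 2 = g z ^ 4 := fun z => by ring
  simp only [e4] at h2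
  have hI0 : 0 ≤ ∫ z in B, g z := integral_nonneg h0
  have hI2 : 0 ≤ ∫ z in B, g z ^ 2 := integral_nonneg fun z => by have := h0 z; positivity
  have hv0 : 0 ≤ volume.real B := measureReal_nonneg
  calc (∫ z in B, g z) ^ 4 = ((∫ z in B, g z) ^ 2) ^ 2 := by ring
    _ ≤ (volume.real B * ∫ z in B, g z ^ 2) ^ 2 := by gcongr
    _ = volume.real B ^ 2 * (∫ z in B, g z ^ 2) ^ 2 := by ring
    _ ≤ volume.real B ^ 2 * (volume.real B * ∫ z in B, g z ^ 4) := by gcongr
    _ = _ := by ring

/-- the comparison of `f x` with the average over a ball containing `x` -/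
theorem mor_avg {m x : E} {d : ℝ} (hd : 0 < d) (hx : x ∈ ball m d) {U : Set E} (hU : IsOpen U)
    (hBU : closedBall m d ⊆ U) {f : E → ℝ} (hf : ContDiffOn ℝ 1 f U) :
    ((∫ z in ball m d, f z) - volume.real (ball m d) * f x) ^ 4 ≤
      4096 * d ^ 4 * volume.real (ball m d) ^ 3 * ∫ z in ball m d, ‖fderiv ℝ f z‖ ^ 4 := by
  set B := ball m d with hBdef
  have hBm : MeasurableSet B := measurableSet_ball
  have hBfin : volume B ≠ ⊤ := measure_ball_lt_top.ne
  have hfinm : IsFiniteMeasure (volume.restrict B) := ⟨by simpa using hBfin.lt_top⟩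
  set v := volume.real B with hv
  have hv0 : 0 ≤ v := measureReal_nonneg
  set I := ∫ z in B, ‖fderiv ℝ f z‖ ^ 4 with hI
  have hI0 : 0 ≤ I := integral_nonneg fun _ => by positivity
  have hfc : ContinuousOn f U := hf.continuousOn
  have hdfc : ContinuousOn (fderiv ℝ f) U := hf.continuousOn_fderiv_of_isOpen hU le_rfl
  have hcomp : IsCompact (closedBall m d) := isCompact_closedBall m d
  obtain ⟨K1, hK1⟩ := hcomp.exists_bound_of_continuousOn (hfc.mono hBU)
  obtain ⟨K2, hK2⟩ := hcomp.exists_bound_of_continuousOn (hdfc.mono hBU)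
  have hBU' : B ⊆ U := ball_subset_closedBall.trans hBU
  have hmemB : ∀ z ∈ B, ∀ t ∈ Icc (0 : ℝ) 1, x + t • (z - x) ∈ B := by
    intro z hz t ht
    exact (convex_ball m d).add_smul_sub_mem hx hz ht
  have hdz : ∀ z ∈ B, ‖z - x‖ ≤ 2 * d := by
    intro z hz
    have h1 : dist z m < d := hz
    have h2 : dist x m < d := hx
    calc ‖z - x‖ = dist z x := (dist_eq_norm z x).symm
      _ ≤ dist z m + dist m x := dist_triangle _ _ _
      _ ≤ 2 * d := by rw [dist_comm m x]; linarith
  have hfdiff : ∀ z ∈ U, HasFDerivAt f (fderiv ℝ f z) z := fun z hz =>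
    ((hf.contDiffAt (hU.mem_nhds hz)).differentiableAt (by simp)).hasFDerivAt
  -- measurability
  have hmeas : ∀ t ∈ Icc (0 : ℝ) 1,
      ContinuousOn (fun z => f (x + t • (z - x))) B := by
    intro t ht
    apply hfc.comp (by fun_prop)
    intro z hz
    exact hBU' (hmemB z hz t ht)
  have hmeas' : ∀ t ∈ Icc (0 : ℝ) 1,
      ContinuousOn (fun z => fderiv ℝ f (x + t • (z - x))) B := by
    intro t ht
    apply hdfc.comp (by fun_prop)
    intro z hz
    exact hBU' (hmemB z hz t ht)
  set F : ℝ → ℝ := fun t => ∫ z in B, f (x + t • (z - x)) with hF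
  set F' : ℝ → ℝ := fun t => ∫ z in B, fderiv ℝ f (x + t • (z - x)) (z - x) with hF'
  have hderiv : ∀ t ∈ Ioo (0 : ℝ) 1, HasDerivAt F (F' t) t := by
    intro t ht
    have hnhds : Ioo (0 : ℝ) 1 ∈ 𝓝 t := isOpen_Ioo.mem_nhds ht
    have htt : t ∈ Icc (0 : ℝ) 1 := Ioo_subset_Icc_self ht
    refine (hasDerivAt_integral_of_dominated_loc_of_deriv_le (μ := volume.restrict B)
      (F := fun t z => f (x + t • (z - x))) (F' := fun t z => fderiv ℝ f (x + t • (z - x)) (z - x))
      (bound := fun _ => K2 * (2 * d)) hnhds ?_ ?_ ?_ ?_ ?_ ?_).2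
    · filter_upwards [hnhds] with s hs
      exact (hmeas s (Ioo_subset_Icc_self hs)).aestronglyMeasurable hBm
    · refine Integrable.of_bound ((hmeas t htt).aestronglyMeasurable hBm) K1 ?_
      filter_upwards [ae_restrict_mem hBm] with z hz
      exact hK1 _ (ball_subset_closedBall (hmemB z hz t htt))
    · exact ((hmeas' t htt).clm_apply (by fun_prop)).aestronglyMeasurable hBm
    · filter_upwards [ae_restrict_mem hBm] with z hz s hs
      calc ‖fderiv ℝ f (x + s • (z - x)) (z - x)‖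
          ≤ ‖fderiv ℝ f (x + s • (z - x))‖ * ‖z - x‖ := ContinuousLinearMap.le_opNorm _ _
        _ ≤ K2 * (2 * d) := by
          apply mul_le_mul _ (hdz z hz) (norm_nonneg _) _
          · exact hK2 _ (ball_subset_closedBall (hmemB z hz s (Ioo_subset_Icc_self hs)))
          · exact (norm_nonneg _).trans (hK2 x (ball_subset_closedBall hx))
    · exact integrable_const _
    · filter_upwards [ae_restrict_mem hBm] with z hz s hs
      have h1 : HasDerivAt (fun s : ℝ => x + s • (z - x)) (z - x) s := by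
        simpa using ((hasDerivAt_id s).smul_const (z - x)).const_add x
      exact (hfdiff _ (hBU' (hmemB z hz s (Ioo_subset_Icc_self hs)))).comp_hasDerivAt s h1
  have hcontF : ContinuousOn F (Icc 0 1) := by
    apply continuousOn_of_dominated (bound := fun _ => K1)
    · intro t ht
      exact (hmeas t ht).aestronglyMeasurable hBm
    · intro t ht
      filter_upwards [ae_restrict_mem hBm] with z hz
      exact hK1 _ (ball_subset_closedBall (hmemB z hz t ht))
    · exact integrable_const _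
    · filter_upwards [ae_restrict_mem hBm] with z hz
      apply hfc.comp (by fun_prop)
      intro t ht
      exact hBU' (hmemB z hz t ht)
  -- the estimate of the derivative
  have hest : ∀ t ∈ Ioo (0 : ℝ) 1, |F' t| ^ 4 ≤ 16 * d ^ 4 * v ^ 3 * I * (t ^ 3)⁻¹ := by
    intro t ht
    have htt : t ∈ Icc (0 : ℝ) 1 := Ioo_subset_Icc_self ht
    have h1 : |F' t| ≤ 2 * d * ∫ z in B, ‖fderiv ℝ f (x + t • (z - x))‖ := by
      rw [← integral_const_mul]
      rw [← Real.norm_eq_abs]
      refine norm_integral_le_of_norm_le ?_ ?_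
      · refine Integrable.const_mul (Integrable.of_bound
          ((hmeas' t htt).norm.aestronglyMeasurable hBm) K2 ?_) _
        filter_upwards [ae_restrict_mem hBm] with z hz
        rw [norm_norm]
        exact hK2 _ (ball_subset_closedBall (hmemB z hz t htt))
      · filter_upwards [ae_restrict_mem hBm] with z hz
        calc ‖fderiv ℝ f (x + t • (z - x)) (z - x)‖
            ≤ ‖fderiv ℝ f (x + t • (z - x))‖ * ‖z - x‖ := ContinuousLinearMap.le_opNorm _ _
          _ ≤ ‖fderiv ℝ f (x + t • (z - x))‖ * (2 * d) := by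
            gcongr; exact hdz z hz
          _ = _ := by ring
    have h2 := mor_jensen hBm hBfin (K := K2)
      ((hmeas' t htt).norm.aestronglyMeasurable hBm) (fun z => norm_nonneg _)
      (fun z hz => hK2 _ (ball_subset_closedBall (hmemB z hz t htt)))
    have h3 : ∫ z in B, ‖fderiv ℝ f (x + t • (z - x))‖ ^ 4 ≤ (t ^ 3)⁻¹ * I := by
      set g : E → ℝ := B.indicator (fun z => ‖fderiv ℝ f z‖ ^ 4) with hg
      have hg0 : ∀ z, 0 ≤ g z := fun z => indicator_nonneg (fun _ _ => by positivity) z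
      have e1 : ∫ z, g z = I := integral_indicator hBm
      have e2 := mor_comp (g := g) x ht.1
      rw [e1] at e2
      rw [← e2]
      have e3 : ∫ z in B, ‖fderiv ℝ f (x + t • (z - x))‖ ^ 4 =
          ∫ z in B, g (x + t • (z - x)) := by
        apply setIntegral_congr_fun hBm
        intro z hz
        simp only [hg]
        rw [indicator_of_mem (hmemB z hz t htt)]
      rw [e3]
      apply setIntegral_le_integral
      · -- integrability of g (x + t (z - x))
        have hgi : Integrable g := by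
          rw [hg, integrable_indicator_iff hBm]
          have hKn : ∀ z ∈ B, ‖(‖fderiv ℝ f z‖ ^ 4 : ℝ)‖ ≤ K2 ^ 4 := by
            intro z hz
            rw [Real.norm_of_nonneg (by positivity)]
            exact pow_le_pow_left₀ (norm_nonneg _) (hK2 _ (ball_subset_closedBall hz)) 4
          refine Integrable.of_bound (((hdfc.mono hBU').norm.pow 4).aestronglyMeasurable hBm)
            (K2 ^ 4) ?_
          filter_upwards [ae_restrict_mem hBm] with z hz using hKn z hz
        have h4 : Integrable (fun z => g (x + t • z)) :=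
          ((hgi.comp_add_left x).comp_smul ht.1.ne')
        exact h4.comp_sub_right x
      · exact Eventually.of_forall fun z => hg0 _
    have h5 : 0 ≤ ∫ z in B, ‖fderiv ℝ f (x + t • (z - x))‖ := integral_nonneg fun _ => norm_nonneg _
    calc |F' t| ^ 4 ≤ (2 * d * ∫ z in B, ‖fderiv ℝ f (x + t • (z - x))‖) ^ 4 := by gcongr
      _ = 16 * d ^ 4 * (∫ z in B, ‖fderiv ℝ f (x + t • (z - x))‖) ^ 4 := by ring
      _ ≤ 16 * d ^ 4 * (v ^ 3 * ∫ z in B, ‖fderiv ℝ f (x + t • (z - x))‖ ^ 4) := by gcongr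
      _ ≤ 16 * d ^ 4 * (v ^ 3 * ((t ^ 3)⁻¹ * I)) := by gcongr
      _ = _ := by ring
  set κ : ℝ := (16 * d ^ 4 * v ^ 3 * I) ^ (1 / 4 : ℝ) with hκ
  have hκ0 : 0 ≤ κ := by positivity
  have hκ4 : κ ^ 4 = 16 * d ^ 4 * v ^ 3 * I := by
    rw [hκ, ← Real.rpow_natCast, ← Real.rpow_mul (by positivity)]
    norm_num
  have hest2 : ∀ t ∈ Ioo (0 : ℝ) 1, |F' t| ≤ κ * t ^ (-(3 / 4) : ℝ) := by
    intro t ht
    have h1 := hest t ht
    have h2 : (κ * t ^ (-(3 / 4) : ℝ)) ^ 4 = 16 * d ^ 4 * v ^ 3 * I * (t ^ 3)⁻¹ := by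
      rw [mul_pow, hκ4]
      congr 1
      rw [← Real.rpow_natCast, ← Real.rpow_mul ht.1.le]
      norm_num
    rw [← h2] at h1
    have h3 : 0 ≤ κ * t ^ (-(3 / 4) : ℝ) := mul_nonneg hκ0 (Real.rpow_nonneg ht.1.le _)
    exact (pow_le_pow_iff_left₀ (abs_nonneg _) h3 (by norm_num)).mp h1
  have hmain : ∀ ε ∈ Ioo (0 : ℝ) 1, |F 1 - F ε| ≤ 4 * κ := by
    intro ε hε
    have hB' : ∀ t ∈ Ico ε 1, HasDerivWithinAt (fun t : ℝ => 4 * κ * t ^ (1 / 4 : ℝ) -
        4 * κ * ε ^ (1 / 4 : ℝ)) (κ * t ^ (-(3 / 4) : ℝ)) (Ici t) t := by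
      intro t ht
      have ht0 : 0 < t := hε.1.trans_le ht.1
      have h1 := ((Real.hasDerivAt_rpow_const (p := 1 / 4) (Or.inl ht0.ne')).const_mul (4 * κ)).sub_const
        (4 * κ * ε ^ (1 / 4 : ℝ))
      have h2 : 4 * κ * (1 / 4 * t ^ ((1 : ℝ) / 4 - 1)) = κ * t ^ (-(3 / 4) : ℝ) := by
        have : ((1 : ℝ) / 4 - 1) = -(3 / 4) := by norm_num
        rw [this]; ring
      rw [h2] at h1
      exact h1.hasDerivWithinAt
    have h3 := image_norm_le_of_norm_deriv_right_le_deriv_boundary' (a := ε) (b := 1)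
      (f := fun t => F t - F ε) (f' := F')
      (B := fun t : ℝ => 4 * κ * t ^ (1 / 4 : ℝ) - 4 * κ * ε ^ (1 / 4 : ℝ))
      (B' := fun t => κ * t ^ (-(3 / 4) : ℝ)) ?_ ?_ ?_ ?_ hB' ?_ (x := 1) (right_mem_Icc.mpr hε.2.le)
    · have h4 : 0 ≤ 4 * κ * ε ^ (1 / 4 : ℝ) := by
        have := Real.rpow_nonneg hε.1.le (1 / 4 : ℝ); positivity
      rw [Real.one_rpow] at h3
      rw [Real.norm_eq_abs] at h3
      linarith
    · exact (hcontF.mono (Icc_subset_Icc_left hε.1.le)).sub continuousOn_const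
    · intro t ht
      exact ((hderiv t ⟨hε.1.trans_le ht.1, ht.2⟩).sub_const (F ε)).hasDerivWithinAt
    · simp
    · intro t ht
      have ht0 : 0 < t := hε.1.trans_le ht.1
      apply ContinuousAt.continuousWithinAt
      apply ContinuousAt.sub _ continuousAt_const
      exact continuousAt_const.mul (Real.continuousAt_rpow_const _ _ (Or.inl ht0.ne'))
    · intro t ht
      rw [Real.norm_eq_abs]
      exact hest2 t ⟨hε.1.trans_le ht.1, ht.2⟩
  have hlim : |F 1 - F 0| ≤ 4 * κ := by
    have h1 : Tendsto F (𝓝[Ioo (0 : ℝ) 1] 0) (𝓝 (F 0)) :=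
      ((hcontF 0 (by simp)).mono Ioo_subset_Icc_self)
    have h2 : Tendsto (fun ε => |F 1 - F ε|) (𝓝[Ioo (0 : ℝ) 1] 0) (𝓝 |F 1 - F 0|) :=
      (tendsto_const_nhds.sub h1).abs
    have : (𝓝[Ioo (0 : ℝ) 1] (0 : ℝ)).NeBot := by
      rw [← mem_closure_iff_nhdsWithin_neBot, closure_Ioo (by norm_num)]
      simp
    apply le_of_tendsto h2
    filter_upwards [self_mem_nhdsWithin] with ε hε using hmain ε hε
  have hF0 : F 0 = v * f x := by
    simp only [hF, zero_smul, add_zero, setIntegral_const, smul_eq_mul, hv]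
  have hF1 : F 1 = ∫ z in B, f z := by
    simp only [hF, one_smul, add_sub_cancel]
  rw [hF0, hF1] at hlim
  calc ((∫ z in B, f z) - v * f x) ^ 4 = |(∫ z in B, f z) - v * f x| ^ 4 := by
        rw [← abs_pow, abs_of_nonneg (by positivity)]
    _ ≤ (4 * κ) ^ 4 := by gcongr
    _ = 256 * κ ^ 4 := by ring
    _ = _ := by rw [hκ4]; ring

/-- (MORREY) Morrey's inequality in `ℝ³`, exponent 4 -/
theorem morrey : ∃ C : ℝ, 0 ≤ C ∧ ∀ (c : E) (r : ℝ) (f : E → ℝ), 0 < r →
    ContDiffOn ℝ 1 f (ball c r) →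
    IntegrableOn (fun x => ‖fderiv ℝ f x‖ ^ 4) (ball c r) →
    ∀ x ∈ ball c (r / 3), ∀ y ∈ ball c (r / 3),
      (f x - f y) ^ 4 ≤ C * ‖x - y‖ * ∫ z in ball c r, ‖fderiv ℝ f z‖ ^ 4 := by
  set om := volume.real (ball (0 : E) 1) with hom
  have hom0 : 0 < om := by
    rw [hom, Measure.real, ENNReal.toReal_pos_iff]
    exact ⟨measure_ball_pos _ _ one_pos, measure_ball_lt_top⟩
  refine ⟨65536 / om, by positivity, ?_⟩
  intro c r f hr hf hint x hx y hy
  by_cases hxy : x = y
  · subst hxy; simp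
  set d := ‖x - y‖ with hd
  have hd0 : 0 < d := norm_pos_iff.mpr (sub_ne_zero.mpr hxy)
  set m := midpoint ℝ x y with hm
  have hxm : dist x m = d / 2 := by
    rw [hm, dist_left_midpoint, dist_eq_norm, ← hd]; norm_num; ring
  have hym : dist y m = d / 2 := by
    rw [hm, dist_right_midpoint, dist_eq_norm, ← hd]; norm_num; ring
  have hdr : d < 2 * r / 3 := by
    calc d = dist x y := (dist_eq_norm x y).symm
      _ ≤ dist x c + dist y c := dist_triangle_right _ _ _
      _ < 2 * r / 3 := by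
        have h1 : dist x c < r / 3 := hx
        have h2 : dist y c < r / 3 := hy
        linarith
  have hmc : dist m c < r / 3 := by
    have : m ∈ ball c (r / 3) := (convex_ball c (r / 3)).midpoint_mem hx hy
    exact this
  have hsub : closedBall m d ⊆ ball c r := by
    intro z hz
    have h1 : dist z m ≤ d := hz
    calc dist z c ≤ dist z m + dist m c := dist_triangle _ _ _
      _ < r := by linarith
  have hxB : x ∈ ball m d := by rw [mem_ball, hxm]; linarith
  have hyB : y ∈ ball m d := by rw [mem_ball, hym]; linarith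
  have h1 := mor_avg hd0 hxB isOpen_ball hsub hf
  have h2 := mor_avg hd0 hyB isOpen_ball hsub hf
  have hvol : volume.real (ball m d) = d ^ 3 * om := by
    have := Measure.addHaar_ball (volume : Measure E) m hd0.le
    rw [Measure.real, this, mor_finrank, ENNReal.toReal_mul, ENNReal.toReal_ofReal (by positivity)]
    rfl
  set v := volume.real (ball m d) with hv
  have hv0 : 0 < v := by rw [hvol]; positivity
  set I := ∫ z in ball m d, ‖fderiv ℝ f z‖ ^ 4 with hI
  have hI0 : 0 ≤ I := integral_nonneg fun _ => by positivity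
  have hII : I ≤ ∫ z in ball c r, ‖fderiv ℝ f z‖ ^ 4 :=
    setIntegral_mono_set hint (Eventually.of_forall fun _ => by positivity)
      (LE.le.eventuallyLE (ball_subset_closedBall.trans hsub))
  set A := ∫ z in ball m d, f z with hA
  have h3 : (v * (f x - f y)) ^ 4 ≤ 8 * ((A - v * f x) ^ 4 + (A - v * f y) ^ 4) := by
    have e : v * (f x - f y) = (A - v * f y) - (A - v * f x) := by ring
    rw [e]
    set p := A - v * f y
    set q := A - v * f x
    have h4 : (p - q) ^ 2 ≤ 2 * (p ^ 2 + q ^ 2) := by nlinarith [sq_nonneg (p + q)]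
    have h5 : (p ^ 2 + q ^ 2) ^ 2 ≤ 2 * (p ^ 4 + q ^ 4) := by nlinarith [sq_nonneg (p ^ 2 - q ^ 2)]
    calc (p - q) ^ 4 = ((p - q) ^ 2) ^ 2 := by ring
      _ ≤ (2 * (p ^ 2 + q ^ 2)) ^ 2 := by gcongr
      _ = 4 * (p ^ 2 + q ^ 2) ^ 2 := by ring
      _ ≤ 4 * (2 * (p ^ 4 + q ^ 4)) := by gcongr
      _ = _ := by ring
  have h6 : v ^ 4 * (f x - f y) ^ 4 ≤ v ^ 4 * (65536 / om * d * I) := by
    calc v ^ 4 * (f x - f y) ^ 4 = (v * (f x - f y)) ^ 4 := by ring
      _ ≤ 8 * ((A - v * f x) ^ 4 + (A - v * f y) ^ 4) := h3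
      _ ≤ 8 * (4096 * d ^ 4 * v ^ 3 * I + 4096 * d ^ 4 * v ^ 3 * I) := by gcongr
      _ = v ^ 3 * (65536 * d ^ 4 * I) := by ring
      _ = v ^ 4 * (65536 / om * d * I) := by
        rw [hvol]; field_simp
  have h7 := le_of_mul_le_mul_left h6 (by positivity)
  calc (f x - f y) ^ 4 ≤ 65536 / om * d * I := h7
    _ ≤ _ := by gcongr

end YR
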