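import Pool.Agent.Rig71.DefsA
import Pool.Agent.Rig71.Mor
import Pool.Agent.Rig71.Loc0
import Pool.Agent.Rig71.Glob1
import Pool.Agent.Rig71.Int1

/-! MP_71b0e8_gt, module Osc. -/

open scoped ContDiff Topology
open MeasureTheory Metric Set Filter

noncomputable section

namespace YR

/-- Cauchy-Schwarz for a positive definite matrix -/
theorem osc_cs {G : Mat} (hG : G.PosDef) (w : Fin 3 → ℝ) (a : Fin 3) :
    (∑ b, G a b * w b) ^ 2 ≤ G a a * ∑ b, ∑ c, G b c * w b * w c := by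
  have hsymm : ∀ a b, G a b = G b a := by
    intro a b
    have := congrFun (congrFun hG.1 a) b
    simpa [Matrix.conjTranspose_apply] using this.symm
  have hpos : ∀ v : Fin 3 → ℝ, 0 ≤ ∑ b, ∑ c, G b c * v b * v c := by
    intro v
    have h1 := hG.posSemidef.dotProduct_mulVec_nonneg v
    have h2 : star v ⬝ᵥ G.mulVec v = ∑ b, ∑ c, G b c * v b * v c := by
      simp only [dotProduct, Matrix.mulVec, Pi.star_apply, star_trivial, Finset.mul_sum]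
      exact Finset.sum_congr rfl fun b _ => Finset.sum_congr rfl fun c _ => by ring
    rw [← h2]
    exact h1
  have haa : 0 < G a a := hG.diag_pos
  have h2 : ∑ b, ∑ c, G b c * (G a a * w b - (if b = a then ∑ b, G a b * w b else 0)) *
      (G a a * w c - (if c = a then ∑ b, G a b * w b else 0)) =
      G a a * (G a a * (∑ b, ∑ c, G b c * w b * w c) - (∑ b, G a b * w b) ^ 2) := by
    fin_cases a <;> simp [Fin.sum_univ_three, hsymm 1 0, hsymm 2 0, hsymm 2 1] <;> ring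
  have h1 : 0 ≤ G a a * (G a a * (∑ b, ∑ c, G b c * w b * w c) - (∑ b, G a b * w b) ^ 2) := by
    rw [← h2]
    exact hpos _
  have h3 := nonneg_of_mul_nonneg_right h1 haa
  linarith

/-- the gradient in a chart is controlled by the metric -/
theorem osc_grad {U : Set E} {G : E → Mat} (hG : LM U G) {u : E → ℝ} {x : E} (hx : x ∈ U) :
    ‖fderiv ℝ u x‖ ^ 2 ≤ (∑ a, G x a a) * inn G u u x := by
  set w : Fin 3 → ℝ := fun a => ∑ b, gi G x a b * pd b u x with hw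
  have h1 : ∀ a, ∑ b, G x a b * w b = pd a u x := by
    intro a
    simp only [hw, Finset.mul_sum]
    rw [Finset.sum_comm]
    have : ∀ c, ∑ b, G x a b * (gi G x b c * pd c u x) =
        (∑ b, G x a b * gi G x b c) * pd c u x := by
      intro c
      rw [Finset.sum_mul]
      exact Finset.sum_congr rfl fun b _ => by ring
    simp only [this, mul_gi hG hx]
    simp
  have h2 : ∑ b, ∑ c, G x b c * w b * w c = inn G u u x := by
    unfold inn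
    have : ∀ b, ∑ c, G x b c * w b * w c = pd b u x * w b := by
      intro b
      rw [← h1 b, Finset.sum_mul]
      exact Finset.sum_congr rfl fun c _ => by ring
    rw [Finset.sum_congr rfl fun b _ => this b]
    simp only [hw, Finset.mul_sum]
    refine Finset.sum_congr rfl fun b _ => Finset.sum_congr rfl fun c _ => by ring
  have h3 : ∑ a, pd a u x ^ 2 ≤ (∑ a, G x a a) * inn G u u x := by
    rw [Finset.sum_mul]
    refine Finset.sum_le_sum fun a _ => ?_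
    have := osc_cs (hG.pos x hx) w a
    rwa [h1, h2] at this
  have h4 : ‖fderiv ℝ u x‖ ≤ √(∑ a, pd a u x ^ 2) := by
    refine ContinuousLinearMap.opNorm_le_bound _ (Real.sqrt_nonneg _) fun v => ?_
    rw [fderiv_eq_sum, Real.norm_eq_abs]
    have h5 : (∑ a, v a * pd a u x) ^ 2 ≤ (∑ a, v a ^ 2) * ∑ a, pd a u x ^ 2 :=
      Finset.sum_mul_sq_le_sq_mul_sq _ _ _
    have h6 : ‖v‖ = √(∑ a, v a ^ 2) := by
      rw [EuclideanSpace.norm_eq]
      simp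
    rw [h6, ← Real.sqrt_mul (Finset.sum_nonneg fun a _ => sq_nonneg _), mul_comm]
    exact Real.abs_le_sqrt h5
  calc ‖fderiv ℝ u x‖ ^ 2 ≤ (√(∑ a, pd a u x ^ 2)) ^ 2 := by gcongr
    _ = ∑ a, pd a u x ^ 2 := Real.sq_sqrt (Finset.sum_nonneg fun a _ => sq_nonneg _)
    _ ≤ _ := h3

variable {M : Type*} [TopologicalSpace M] [CompactSpace M] [T2Space M] [ConnectedSpace M]
  [MeasurableSpace M] [BorelSpace M] {𝒜 : Atl M} (𝒢 : Met 𝒜)

omit [ConnectedSpace M] in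
/-- `L⁴` bound of the gradient in a chart -/
theorem osc_chart (i : Fin 𝒜.n) : ∃ C : ℝ, 0 ≤ C ∧ ∀ u : M → ℝ, 𝒜.Sm u →
    IntegrableOn (fun z => ‖fderiv ℝ (𝒜.rd u i) z‖ ^ 4) (closedBall (0 : E) (7 / 2)) ∧
    ∫ z in closedBall (0 : E) (7 / 2), ‖fderiv ℝ (𝒜.rd u i) z‖ ^ 4 ≤
      C * ∫ p, 𝒢.inn u u p ^ 2 ∂𝒢.vol := by
  have hK4 : closedBall (0 : E) (7 / 2) ⊆ ball 0 4 := closedBall_subset_ball (by norm_num)
  have hKc : IsCompact (closedBall (0 : E) (7 / 2)) := isCompact_closedBall _ _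
  obtain ⟨C1, hC1, h1⟩ := 𝒢.chart_integral_le i hKc hK4
  have htrc : ContinuousOn (fun z => ∑ a, 𝒢.g i z a a) (closedBall (0 : E) (7 / 2)) :=
    continuousOn_finsetSum _ fun a _ => ((𝒢.lm i).smooth a a).continuousOn.mono hK4
  obtain ⟨c, hc⟩ := hKc.exists_bound_of_continuousOn htrc
  refine ⟨c ^ 2 * C1, by positivity, fun u hu => ?_⟩
  have hfc : ContinuousOn (fun z => ‖fderiv ℝ (𝒜.rd u i) z‖ ^ 4) (closedBall (0 : E) (7 / 2)) := by
    have h2 : ContinuousOn (fderiv ℝ (𝒜.rd u i)) (ball 0 4) :=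
      (hu i).continuousOn_fderiv_of_isOpen isOpen_ball (by simp)
    exact ((h2.mono hK4).norm).pow 4
  have hint : IntegrableOn (fun z => ‖fderiv ℝ (𝒜.rd u i) z‖ ^ 4) (closedBall (0 : E) (7 / 2)) :=
    hfc.integrableOn_compact hKc
  refine ⟨hint, ?_⟩
  have hsm : 𝒜.Sm (fun p => 𝒢.inn u u p ^ 2) := (𝒢.Sm_inn hu hu).pow 2
  obtain ⟨h3, h4⟩ := h1 _ (𝒢.integrable_sm hsm) (fun p => sq_nonneg _)
  calc ∫ z in closedBall (0 : E) (7 / 2), ‖fderiv ℝ (𝒜.rd u i) z‖ ^ 4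
      ≤ ∫ z in closedBall (0 : E) (7 / 2), c ^ 2 * 𝒜.rd (fun p => 𝒢.inn u u p ^ 2) i z := by
        refine setIntegral_mono_on hint (h3.const_mul _) measurableSet_closedBall fun z hz => ?_
        have h5 := osc_grad (𝒢.lm i) (u := 𝒜.rd u i) (hK4 hz)
        have h6 := hc z hz
        have h7 : 𝒢.inn u u ((𝒜.φ i).symm z) = YR.inn (𝒢.g i) (𝒜.rd u i) (𝒜.rd u i) z :=
          𝒢.inn_chart isOpen_univ (hu.on univ) (hu.on univ) i ⟨hK4 hz, mem_univ _⟩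
        have h8 : 𝒜.rd (fun p => 𝒢.inn u u p ^ 2) i z =
            (YR.inn (𝒢.g i) (𝒜.rd u i) (𝒜.rd u i) z) ^ 2 := by
          rw [← h7]
          rfl
        rw [h8]
        set I := YR.inn (𝒢.g i) (𝒜.rd u i) (𝒜.rd u i) z with hI
        set t := ∑ a, 𝒢.g i z a a with ht
        calc ‖fderiv ℝ (𝒜.rd u i) z‖ ^ 4 = (‖fderiv ℝ (𝒜.rd u i) z‖ ^ 2) ^ 2 := by ring
          _ ≤ (t * I) ^ 2 := pow_le_pow_left₀ (by positivity) h5 2
          _ = t ^ 2 * I ^ 2 := by ring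
          _ ≤ c ^ 2 * I ^ 2 := by
            refine mul_le_mul_of_nonneg_right ?_ (sq_nonneg _)
            rw [Real.norm_eq_abs] at h6
            exact sq_le_sq' (neg_le_of_abs_le h6) (le_of_abs_le h6)
    _ = c ^ 2 * ∫ z in closedBall (0 : E) (7 / 2), 𝒜.rd (fun p => 𝒢.inn u u p ^ 2) i z :=
        integral_const_mul _ _
    _ ≤ c ^ 2 * (C1 * ∫ p, 𝒢.inn u u p ^ 2 ∂𝒢.vol) :=
        mul_le_mul_of_nonneg_left h4 (sq_nonneg _)
    _ = _ := by ring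

omit [ConnectedSpace M] in
/-- one step -/
theorem osc_step (i : Fin 𝒜.n) : ∃ C : ℝ, 0 ≤ C ∧ ∀ u : M → ℝ, 𝒜.Sm u →
    ∀ x ∈ closedBall (0 : E) 2, ∀ y ∈ closedBall (0 : E) 2, ‖x - y‖ < 1 / 2 →
    (𝒜.rd u i x - 𝒜.rd u i y) ^ 4 ≤ C * ‖x - y‖ * ∫ p, 𝒢.inn u u p ^ 2 ∂𝒢.vol := by
  obtain ⟨C1, hC1, h1⟩ := osc_chart 𝒢 i
  obtain ⟨C2, hC2, h2⟩ := morrey
  refine ⟨C2 * C1, by positivity, fun u hu x hx y hy hxy => ?_⟩
  obtain ⟨h3, h4⟩ := h1 u hu
  have hsub : ball x (3 / 2) ⊆ closedBall (0 : E) (7 / 2) := by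
    intro z hz
    rw [mem_ball, dist_eq_norm] at hz
    rw [mem_closedBall, dist_zero_right] at hx ⊢
    calc ‖z‖ = ‖(z - x) + x‖ := by congr 1; abel
      _ ≤ ‖z - x‖ + ‖x‖ := norm_add_le _ _
      _ ≤ 7 / 2 := by linarith
  have hsub4 : ball x (3 / 2) ⊆ ball (0 : E) 4 :=
    hsub.trans (closedBall_subset_ball (by norm_num))
  have h5 := h2 x (3 / 2) (𝒜.rd u i) (by norm_num) (((hu i).mono hsub4).of_le (by simp))
    (h3.mono_set hsub) x (mem_ball_self (by norm_num)) y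
    (by rw [mem_ball, dist_eq_norm, norm_sub_rev]; linarith)
  have h6 : ∫ z in ball x (3 / 2), ‖fderiv ℝ (𝒜.rd u i) z‖ ^ 4 ≤
      ∫ z in closedBall (0 : E) (7 / 2), ‖fderiv ℝ (𝒜.rd u i) z‖ ^ 4 :=
    setIntegral_mono_set h3 (Eventually.of_forall fun z => by positivity)
      (LE.le.eventuallyLE hsub)
  calc (𝒜.rd u i x - 𝒜.rd u i y) ^ 4
      ≤ C2 * ‖x - y‖ * ∫ z in ball x (3 / 2), ‖fderiv ℝ (𝒜.rd u i) z‖ ^ 4 := h5
    _ ≤ C2 * ‖x - y‖ * (C1 * ∫ p, 𝒢.inn u u p ^ 2 ∂𝒢.vol) :=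
        mul_le_mul_of_nonneg_left (h6.trans h4) (by positivity)
    _ = _ := by ring

theorem osc_pow4 (f : ℕ → ℝ) (n : ℕ) :
    (∑ k ∈ Finset.range n, f k) ^ 4 ≤ (n : ℝ) ^ 3 * ∑ k ∈ Finset.range n, f k ^ 4 := by
  have h1 : (∑ k ∈ Finset.range n, f k) ^ 2 ≤ n * ∑ k ∈ Finset.range n, f k ^ 2 := by
    have := sq_sum_le_card_mul_sum_sq (s := Finset.range n) (f := f)
    simpa using this
  have h2 : (∑ k ∈ Finset.range n, f k ^ 2) ^ 2 ≤ n * ∑ k ∈ Finset.range n, (f k ^ 2) ^ 2 := by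
    have := sq_sum_le_card_mul_sum_sq (s := Finset.range n) (f := fun k => f k ^ 2)
    simpa using this
  calc (∑ k ∈ Finset.range n, f k) ^ 4 = ((∑ k ∈ Finset.range n, f k) ^ 2) ^ 2 := by ring
    _ ≤ (n * ∑ k ∈ Finset.range n, f k ^ 2) ^ 2 := pow_le_pow_left₀ (sq_nonneg _) h1 2
    _ = (n : ℝ) ^ 2 * (∑ k ∈ Finset.range n, f k ^ 2) ^ 2 := by ring
    _ ≤ (n : ℝ) ^ 2 * (n * ∑ k ∈ Finset.range n, (f k ^ 2) ^ 2) :=
        mul_le_mul_of_nonneg_left h2 (by positivity)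
    _ = (n : ℝ) ^ 3 * ∑ k ∈ Finset.range n, f k ^ 4 := by
        have : ∀ k, (f k ^ 2) ^ 2 = f k ^ 4 := fun k => by ring
        simp only [this]
        ring

omit [ConnectedSpace M] in
theorem osc_chart_bound (i : Fin 𝒜.n) : ∃ C : ℝ, 0 ≤ C ∧ ∀ u : M → ℝ, 𝒜.Sm u →
    ∀ x ∈ closedBall (0 : E) 2, ∀ y ∈ closedBall (0 : E) 2,
    (𝒜.rd u i x - 𝒜.rd u i y) ^ 4 ≤ C * ‖x - y‖ * ∫ p, 𝒢.inn u u p ^ 2 ∂𝒢.vol := by
  obtain ⟨C, hC, h⟩ := osc_step 𝒢 i
  refine ⟨1000 * C, by positivity, fun u hu x hx y hy => ?_⟩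
  have hxn : ‖x‖ ≤ 2 := by simpa using hx
  have hyn : ‖y‖ ≤ 2 := by simpa using hy
  have hxy4 : ‖x - y‖ ≤ 4 := (norm_sub_le _ _).trans (by linarith)
  set z : ℕ → E := fun k => x + ((k : ℝ) / 10) • (y - x) with hz
  have hz0 : z 0 = x := by simp [hz]
  have hz10 : z 10 = y := by simp [hz]
  have hzb : ∀ k, k ≤ 10 → z k ∈ closedBall (0 : E) 2 := by
    intro k hk
    have hk1 : (k : ℝ) / 10 ≤ 1 := by
      have : (k : ℝ) ≤ 10 := by exact_mod_cast hk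
      linarith
    exact (convex_closedBall (0 : E) 2).add_smul_sub_mem hx hy ⟨by positivity, hk1⟩
  have hstep : ∀ k, z k - z (k + 1) = (1 / 10 : ℝ) • (x - y) := by
    intro k
    simp only [hz, Nat.cast_add, Nat.cast_one]
    module
  have hnorm : ∀ k, ‖z k - z (k + 1)‖ = ‖x - y‖ / 10 := by
    intro k
    rw [hstep, norm_smul, Real.norm_eq_abs, abs_of_pos (by norm_num : (0 : ℝ) < 1 / 10)]
    ring
  set I := ∫ p, 𝒢.inn u u p ^ 2 ∂𝒢.vol with hI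
  have h1 : 𝒜.rd u i x - 𝒜.rd u i y =
      ∑ k ∈ Finset.range 10, (𝒜.rd u i (z k) - 𝒜.rd u i (z (k + 1))) := by
    rw [Finset.sum_range_sub' (fun k => 𝒜.rd u i (z k)), hz0, hz10]
  rw [h1]
  refine (osc_pow4 _ 10).trans ?_
  have h2 : ∀ k ∈ Finset.range 10, (𝒜.rd u i (z k) - 𝒜.rd u i (z (k + 1))) ^ 4 ≤
      C * (‖x - y‖ / 10) * I := by
    intro k hk
    rw [Finset.mem_range] at hk
    have := h u hu (z k) (hzb k (by omega)) (z (k + 1)) (hzb (k + 1) (by omega))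
      (by rw [hnorm]; linarith)
    rwa [hnorm] at this
  calc ((10 : ℕ) : ℝ) ^ 3 * ∑ k ∈ Finset.range 10, (𝒜.rd u i (z k) - 𝒜.rd u i (z (k + 1))) ^ 4
      ≤ ((10 : ℕ) : ℝ) ^ 3 * ∑ k ∈ Finset.range 10, C * (‖x - y‖ / 10) * I :=
        mul_le_mul_of_nonneg_left (Finset.sum_le_sum h2) (by positivity)
    _ = 1000 * C * ‖x - y‖ * I := by
        rw [Finset.sum_const, Finset.card_range]
        simp only [nsmul_eq_mul]
        push_cast
        ring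

/-- (OSC) Morrey in the charts -/
theorem equicont : ∃ C : ℝ, ∀ u : M → ℝ, 𝒜.Sm u → ∀ i : Fin 𝒜.n,
    ∀ x ∈ closedBall (0 : E) 2, ∀ y ∈ closedBall (0 : E) 2,
    (𝒜.rd u i x - 𝒜.rd u i y) ^ 4 ≤ C * ‖x - y‖ * ∫ p, 𝒢.inn u u p ^ 2 ∂𝒢.vol := by
  choose C hC h using fun i : Fin 𝒜.n => osc_chart_bound 𝒢 i
  refine ⟨∑ i, C i, fun u hu i x hx y hy => (h i u hu x hx y hy).trans ?_⟩
  have hI : 0 ≤ ∫ p, 𝒢.inn u u p ^ 2 ∂𝒢.vol := integral_nonneg fun p => sq_nonneg _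
  have h1 : C i ≤ ∑ i, C i := Finset.single_le_sum (fun j _ => hC j) (Finset.mem_univ i)
  gcongr

/-- (OSC) Morrey on `M` -/
theorem osc_bound : ∃ C : ℝ, ∀ u : M → ℝ, 𝒜.Sm u → ∀ p q,
    (u p - u q) ^ 4 ≤ C * ∫ p, 𝒢.inn u u p ^ 2 ∂𝒢.vol := by
  obtain ⟨C0, h0⟩ := equicont 𝒢
  let rel : M → M → Prop := fun p q => ∃ C : ℝ, ∀ u : M → ℝ, 𝒜.Sm u →
    (u p - u q) ^ 4 ≤ C * ∫ p, 𝒢.inn u u p ^ 2 ∂𝒢.vol
  have hI : ∀ u : M → ℝ, 0 ≤ ∫ p, 𝒢.inn u u p ^ 2 ∂𝒢.vol :=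
    fun u => integral_nonneg fun p => sq_nonneg _
  have htrans : ∀ p q r, rel p q → rel q r → rel p r := by
    rintro p q r ⟨C, hC⟩ ⟨C', hC'⟩
    refine ⟨8 * (C + C'), fun u hu => ?_⟩
    have h1 := hC u hu
    have h2 := hC' u hu
    have h3 : (u p - u r) ^ 4 ≤ 8 * ((u p - u q) ^ 4 + (u q - u r) ^ 4) := by
      set a := u p - u q with ha
      set b := u q - u r with hb
      have : u p - u r = a + b := by rw [ha, hb]; ring
      rw [this]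
      nlinarith [sq_nonneg (a - b), sq_nonneg (a + b), sq_nonneg (a ^ 2 - b ^ 2),
        mul_nonneg (sq_nonneg (a - b)) (sq_nonneg (a + b)), sq_nonneg (a * b),
        mul_nonneg (sq_nonneg (a - b)) (sq_nonneg (a - b)),
        mul_nonneg (sq_nonneg (a - b)) (sq_nonneg a), mul_nonneg (sq_nonneg (a - b)) (sq_nonneg b)]
    calc (u p - u r) ^ 4 ≤ 8 * ((u p - u q) ^ 4 + (u q - u r) ^ 4) := h3
      _ ≤ 8 * (C * (∫ p, 𝒢.inn u u p ^ 2 ∂𝒢.vol) + C' * ∫ p, 𝒢.inn u u p ^ 2 ∂𝒢.vol) := by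
        linarith
      _ = _ := by ring
  have hsymm : ∀ p q, rel p q → rel q p := by
    rintro p q ⟨C, hC⟩
    refine ⟨C, fun u hu => ?_⟩
    have : (u q - u p) ^ 4 = (u p - u q) ^ 4 := by ring
    rw [this]
    exact hC u hu
  -- the pieces
  let V : Fin 𝒜.n → Set M := fun i => (𝒜.φ i).source ∩ (𝒜.φ i) ⁻¹' ball (0 : E) 1
  have hVo : ∀ i, IsOpen (V i) := fun i => (𝒜.φ i).isOpen_inter_preimage isOpen_ball
  have hVc : ∀ p, ∃ i, p ∈ V i := by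
    intro p
    obtain ⟨i, h1, h2⟩ := 𝒜.cover p
    exact ⟨i, h1, h2⟩
  have hVrel : ∀ i, ∀ p ∈ V i, ∀ q ∈ V i, ∀ u : M → ℝ, 𝒜.Sm u →
      (u p - u q) ^ 4 ≤ 2 * |C0| * ∫ p, 𝒢.inn u u p ^ 2 ∂𝒢.vol := by
    rintro i p ⟨hp1, hp2⟩ q ⟨hq1, hq2⟩ u hu
    have hp2' : ‖𝒜.φ i p‖ < 1 := by simpa using hp2
    have hq2' : ‖𝒜.φ i q‖ < 1 := by simpa using hq2
    have h1 := h0 u hu i (𝒜.φ i p) (by simp; linarith) (𝒜.φ i q) (by simp; linarith)
    have h2 : 𝒜.rd u i (𝒜.φ i p) = u p := by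
      unfold Atl.rd
      rw [(𝒜.φ i).left_inv hp1]
    have h3 : 𝒜.rd u i (𝒜.φ i q) = u q := by
      unfold Atl.rd
      rw [(𝒜.φ i).left_inv hq1]
    rw [h2, h3] at h1
    refine h1.trans ?_
    have h4 : ‖𝒜.φ i p - 𝒜.φ i q‖ ≤ 2 := (norm_sub_le _ _).trans (by linarith)
    refine mul_le_mul_of_nonneg_right ?_ (hI u)
    calc C0 * ‖𝒜.φ i p - 𝒜.φ i q‖ ≤ |C0| * ‖𝒜.φ i p - 𝒜.φ i q‖ :=
          mul_le_mul_of_nonneg_right (le_abs_self _) (norm_nonneg _)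
      _ ≤ |C0| * 2 := mul_le_mul_of_nonneg_left h4 (abs_nonneg _)
      _ = 2 * |C0| := by ring
  have hall : ∀ p q, rel p q := by
    intro p q
    have hclopen : IsClopen {q | rel p q} := by
      constructor
      · rw [← isOpen_compl_iff, isOpen_iff_forall_mem_open]
        intro q hq
        obtain ⟨i, hi⟩ := hVc q
        refine ⟨V i, ?_, hVo i, hi⟩
        intro r hr hpr
        exact hq (htrans p r q hpr ⟨_, hVrel i r hr q hi⟩)
      · rw [isOpen_iff_forall_mem_open]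
        intro q hq
        obtain ⟨i, hi⟩ := hVc q
        refine ⟨V i, ?_, hVo i, hi⟩
        intro r hr
        exact htrans p q r hq ⟨_, hVrel i q hi r hr⟩
    have huniv := hclopen.eq_univ ⟨p, 0, fun u _ => by simp⟩
    have : q ∈ {q | rel p q} := by rw [huniv]; trivial
    exact this
  -- representatives
  classical
  obtain ⟨p0⟩ : Nonempty M := inferInstance
  let rep : Fin 𝒜.n → M := fun i => if h : (V i).Nonempty then h.some else p0
  have hrep : ∀ i p, p ∈ V i → rep i ∈ V i := by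
    intro i p hp
    have h : (V i).Nonempty := ⟨p, hp⟩
    simp only [rep, dif_pos h]
    exact h.some_mem
  choose K hK using fun i j : Fin 𝒜.n => hall (rep i) (rep j)
  refine ⟨27 * (4 * |C0| + ∑ i, ∑ j, |K i j|), fun u hu p q => ?_⟩
  obtain ⟨i, hi⟩ := hVc p
  obtain ⟨j, hj⟩ := hVc q
  have h1 := hVrel i p hi (rep i) (hrep i p hi) u hu
  have h2 := hVrel j (rep j) (hrep j q hj) q hj u hu
  have h3 := hK i j u hu
  set I := ∫ p, 𝒢.inn u u p ^ 2 ∂𝒢.vol with hIdef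
  have hI0 := hI u
  have h4 : K i j * I ≤ (∑ i, ∑ j, |K i j|) * I := by
    refine mul_le_mul_of_nonneg_right ?_ hI0
    calc K i j ≤ |K i j| := le_abs_self _
      _ ≤ ∑ j, |K i j| := Finset.single_le_sum (f := fun j => |K i j|)
          (fun j _ => abs_nonneg _) (Finset.mem_univ j)
      _ ≤ ∑ i, ∑ j, |K i j| := Finset.single_le_sum (f := fun i => ∑ j, |K i j|)
          (fun i _ => Finset.sum_nonneg fun j _ => abs_nonneg _) (Finset.mem_univ i)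
  have h5 : (u p - u q) ^ 4 ≤ 27 * ((u p - u (rep i)) ^ 4 + (u (rep i) - u (rep j)) ^ 4 +
      (u (rep j) - u q) ^ 4) := by
    have h6 := osc_pow4 (fun k => if k = 0 then u p - u (rep i) else
      if k = 1 then u (rep i) - u (rep j) else u (rep j) - u q) 3
    simp only [Finset.sum_range_succ, Finset.sum_range_zero] at h6
    norm_num at h6
    have h7 : u p - u (rep i) + (u (rep i) - u (rep j)) + (u (rep j) - u q) = u p - u q := by ring
    simpa [h7] using h6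
  calc (u p - u q) ^ 4 ≤ 27 * ((u p - u (rep i)) ^ 4 + (u (rep i) - u (rep j)) ^ 4 +
      (u (rep j) - u q) ^ 4) := h5
    _ ≤ 27 * (2 * |C0| * I + (∑ i, ∑ j, |K i j|) * I + 2 * |C0| * I) := by linarith
    _ = _ := by ring

end YR
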