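import Pool.Agent.Rig71.DefsA
import Pool.Agent.Rig71.Int1
import Pool.Agent.Rig71.Int2
import Pool.Agent.Rig71.Int3

/-! MP_71b0e8_gt, module Scale. -/

open scoped ContDiff Topology
open MeasureTheory Metric Set Filter

noncomputable section

namespace YR

variable {M : Type*} [TopologicalSpace M] [CompactSpace M] [T2Space M] [ConnectedSpace M]
  [MeasurableSpace M] [BorelSpace M] {𝒜 : Atl M} (𝒢 : Met 𝒜)

theorem scale_bb {w : M → ℝ} (hw : 𝒜.Sm w) (c : ℝ) (p : M) :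
    𝒢.bb (fun p => c * w p) (fun p => c * w p) p = c ^ 2 * 𝒢.bb w w p := by
  rw [𝒢.bb_const_mul isOpen_univ (mem_univ p) (hw.on univ), 𝒢.bb_symm,
    𝒢.bb_const_mul isOpen_univ (mem_univ p) (hw.on univ)]
  ring

/-- (SCALE) -/
theorem scal_smul {w : M → ℝ} (hw : 𝒜.Sm w) (hp : ∀ p, 0 < w p) {c : ℝ} (hc : 0 < c)
    (hw' : 𝒜.Sm (fun p => c * w p)) (hp' : ∀ p, 0 < c * w p) (p : M) :
    (𝒢.conf (fun p => c * w p) hw' hp').scal p = c ^ 2 * (𝒢.conf w hw hp).scal p := by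
  rw [𝒢.scal_conf, 𝒢.scal_conf]
  rw [𝒢.bb_const_mul isOpen_univ (mem_univ p) (hw.on univ), 𝒢.bb_symm,
    𝒢.bb_const_mul isOpen_univ (mem_univ p) (hw.on univ)]
  ring

/-- (SCALE) -/
theorem EE_smul {w : M → ℝ} (hw : 𝒜.Sm w) (hp : ∀ p, 0 < w p) {c : ℝ} (hc : 0 < c)
    (hw' : 𝒜.Sm (fun p => c * w p)) (hp' : ∀ p, 0 < c * w p) :
    (𝒢.conf (fun p => c * w p) hw' hp').EE = (𝒢.conf w hw hp).EE := by
  have h1 : (𝒢.conf (fun p => c * w p) hw' hp').V = c⁻¹ ^ 3 * (𝒢.conf w hw hp).V := by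
    rw [𝒢.V_conf, 𝒢.V_conf, ← integral_const_mul]
    refine integral_congr_ae (Filter.Eventually.of_forall fun p => ?_)
    simp only [mul_inv]
    ring
  have h2 : (𝒢.conf (fun p => c * w p) hw' hp').S1 = c⁻¹ * (𝒢.conf w hw hp).S1 := by
    rw [𝒢.S1_conf, 𝒢.S1_conf, ← integral_const_mul]
    refine integral_congr_ae (Filter.Eventually.of_forall fun p => ?_)
    simp only [mul_inv]
    rw [scale_bb 𝒢 hw]
    field_simp
  have h3 : (𝒢.conf (fun p => c * w p) hw' hp').S2 = c * (𝒢.conf w hw hp).S2 := by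
    rw [𝒢.S2_conf, 𝒢.S2_conf, ← integral_const_mul]
    refine integral_congr_ae (Filter.Eventually.of_forall fun p => ?_)
    simp only
    rw [scale_bb 𝒢 hw, 𝒢.t2_const_mul isOpen_univ (mem_univ p) (hw.on univ)]
    have := (hp p).ne'
    field_simp
  unfold Met.EE
  rw [h1, h2, h3]
  have hc' := hc.ne'
  by_cases hs : (𝒢.conf w hw hp).S1 = 0
  · simp [hs]
  · field_simp

end YR
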