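import Pool.Agent.Rig71.Loc2

/-! LOC3: product and chain rules (helper42). `hG : LM U G` throughout. -/

open scoped ContDiff Topology
open MeasureTheory Metric Set Filter

noncomputable section

namespace YR

section

variable {U : Set E} {G : E → Mat} (hG : LM U G) {u v w f : E → ℝ} {x : E}

theorem Loc3Aux.diffAt (hU : IsOpen U) (hu : ContDiffOn ℝ ∞ u U) (hx : x ∈ U) :
    DifferentiableAt ℝ u x :=
  (hu.contDiffAt (hU.mem_nhds hx)).differentiableAt (by simp)

theorem Loc3Aux.pdDiffAt (hU : IsOpen U) (hu : ContDiffOn ℝ ∞ u U) (hx : x ∈ U) (a : Fin 3) :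
    DifferentiableAt ℝ (pd a u) x :=
  Loc3Aux.diffAt hU (pd_smooth hU hu) hx

include hG

/-! ### LOC3 : product and chain rules -/

theorem inn_add_left (hu : DifferentiableAt ℝ u x) (hv : DifferentiableAt ℝ v x) :
    inn G (fun y => u y + v y) w x = inn G u w x + inn G v w x := by
  unfold inn
  simp only [pd_add hu hv, ← Finset.sum_add_distrib]
  refine Finset.sum_congr rfl fun a _ => Finset.sum_congr rfl fun b _ => by ring

theorem inn_mul_left (hu : DifferentiableAt ℝ u x) (hv : DifferentiableAt ℝ v x) :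
    inn G (fun y => u y * v y) w x = u x * inn G v w x + v x * inn G u w x := by
  unfold inn
  simp only [pd_mul hu hv, Finset.mul_sum, ← Finset.sum_add_distrib]
  refine Finset.sum_congr rfl fun a _ => Finset.sum_congr rfl fun b _ => by ring

theorem inn_comp_left {F : ℝ → ℝ} {F' : ℝ} (hF : HasDerivAt F F' (u x))
    (hu : DifferentiableAt ℝ u x) : inn G (fun y => F (u y)) w x = F' * inn G u w x := by
  unfold inn
  simp only [pd_comp hF hu, Finset.mul_sum]
  refine Finset.sum_congr rfl fun a _ => Finset.sum_congr rfl fun b _ => by ring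

theorem hess_add (hu : ContDiffOn ℝ ∞ u U) (hv : ContDiffOn ℝ ∞ v U) (hx : x ∈ U)
    (a b : Fin 3) : hess G (fun y => u y + v y) a b x = hess G u a b x + hess G v a b x := by
  have hU := hG.op
  have h1 : pd b (fun y => u y + v y) =ᶠ[𝓝 x] fun y => pd b u y + pd b v y := by
    filter_upwards [hU.mem_nhds hx] with y hy
    exact pd_add (Loc3Aux.diffAt hU hu hy) (Loc3Aux.diffAt hU hv hy)
  have h2 : pd a (pd b (fun y => u y + v y)) x = pd a (pd b u) x + pd a (pd b v) x := by
    rw [pd_congr h1]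
    exact pd_add (Loc3Aux.pdDiffAt hU hu hx b) (Loc3Aux.pdDiffAt hU hv hx b)
  unfold hess
  rw [h2]
  have h3 : ∑ k, chr G k a b x * pd k (fun y => u y + v y) x =
      ∑ k, chr G k a b x * pd k u x + ∑ k, chr G k a b x * pd k v x := by
    rw [← Finset.sum_add_distrib]
    refine Finset.sum_congr rfl fun k _ => ?_
    rw [pd_add (Loc3Aux.diffAt hU hu hx) (Loc3Aux.diffAt hU hv hx)]
    ring
  rw [h3]
  ring

theorem hess_mul (hu : ContDiffOn ℝ ∞ u U) (hv : ContDiffOn ℝ ∞ v U) (hx : x ∈ U)
    (a b : Fin 3) : hess G (fun y => u y * v y) a b x =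
      u x * hess G v a b x + v x * hess G u a b x + pd a u x * pd b v x + pd b u x * pd a v x := by
  have hU := hG.op
  have h1 : pd b (fun y => u y * v y) =ᶠ[𝓝 x] fun y => pd b u y * v y + u y * pd b v y := by
    filter_upwards [hU.mem_nhds hx] with y hy
    exact pd_mul (Loc3Aux.diffAt hU hu hy) (Loc3Aux.diffAt hU hv hy)
  have du := Loc3Aux.diffAt hU hu hx
  have dv := Loc3Aux.diffAt hU hv hx
  have dpu := Loc3Aux.pdDiffAt hU hu hx b
  have dpv := Loc3Aux.pdDiffAt hU hv hx b
  have h2 : pd a (pd b (fun y => u y * v y)) x =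
      (pd a (pd b u) x * v x + pd b u x * pd a v x) +
      (pd a u x * pd b v x + u x * pd a (pd b v) x) := by
    have e1 : DifferentiableAt ℝ (fun y => pd b u y * v y) x := dpu.mul dv
    have e2 : DifferentiableAt ℝ (fun y => u y * pd b v y) x := du.mul dpv
    rw [pd_congr h1, pd_add e1 e2, pd_mul dpu dv, pd_mul du dpv]
  unfold hess
  rw [h2]
  have h3 : ∑ k, chr G k a b x * pd k (fun y => u y * v y) x =
      v x * ∑ k, chr G k a b x * pd k u x + u x * ∑ k, chr G k a b x * pd k v x := by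
    rw [Finset.mul_sum, Finset.mul_sum, ← Finset.sum_add_distrib]
    refine Finset.sum_congr rfl fun k _ => ?_
    rw [pd_mul du dv]
    ring
  rw [h3]
  ring

theorem hess_comp {F : ℝ → ℝ} {S : Set ℝ} (hS : IsOpen S) (hF : ContDiffOn ℝ ∞ F S)
    (hu : ContDiffOn ℝ ∞ u U) (hx : x ∈ U) (hm : ∀ y ∈ U, u y ∈ S) (a b : Fin 3) :
    hess G (fun y => F (u y)) a b x =
      deriv F (u x) * hess G u a b x + deriv (deriv F) (u x) * (pd a u x * pd b u x) := by
  have hU := hG.op
  have hF' : ∀ s ∈ S, HasDerivAt F (deriv F s) s := fun s hs =>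
    ((hF.contDiffAt (hS.mem_nhds hs)).differentiableAt (by simp)).hasDerivAt
  have hdF : ContDiffOn ℝ ∞ (deriv F) S := hF.deriv_of_isOpen hS (by simp)
  have hF'' : ∀ s ∈ S, HasDerivAt (deriv F) (deriv (deriv F) s) s := fun s hs =>
    ((hdF.contDiffAt (hS.mem_nhds hs)).differentiableAt (by simp)).hasDerivAt
  have h1 : pd b (fun y => F (u y)) =ᶠ[𝓝 x] fun y => deriv F (u y) * pd b u y := by
    filter_upwards [hU.mem_nhds hx] with y hy
    exact pd_comp (hF' _ (hm y hy)) (Loc3Aux.diffAt hU hu hy)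
  have du := Loc3Aux.diffAt hU hu hx
  have dpu := Loc3Aux.pdDiffAt hU hu hx b
  have dF : DifferentiableAt ℝ (fun y => deriv F (u y)) x :=
    (hF'' _ (hm x hx)).differentiableAt.comp x du
  have h2 : pd a (pd b (fun y => F (u y))) x =
      deriv (deriv F) (u x) * pd a u x * pd b u x + deriv F (u x) * pd a (pd b u) x := by
    rw [pd_congr h1, pd_mul dF dpu, pd_comp (hF'' _ (hm x hx)) du]
  unfold hess
  rw [h2]
  have h3 : ∑ k, chr G k a b x * pd k (fun y => F (u y)) x =
      deriv F (u x) * ∑ k, chr G k a b x * pd k u x := by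
    rw [Finset.mul_sum]
    refine Finset.sum_congr rfl fun k _ => ?_
    rw [pd_comp (hF' _ (hm x hx)) du]
    ring
  rw [h3]
  ring

theorem lap_add (hu : ContDiffOn ℝ ∞ u U) (hv : ContDiffOn ℝ ∞ v U) (hx : x ∈ U) :
    lap G (fun y => u y + v y) x = lap G u x + lap G v x := by
  unfold lap tr
  rw [← Finset.sum_add_distrib]
  refine Finset.sum_congr rfl fun a _ => ?_
  rw [← Finset.sum_add_distrib]
  refine Finset.sum_congr rfl fun b _ => ?_
  have e := hess_add hG hu hv hx a b
  simp only [e]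
  ring

theorem lap_mul (hu : ContDiffOn ℝ ∞ u U) (hv : ContDiffOn ℝ ∞ v U) (hx : x ∈ U) :
    lap G (fun y => u y * v y) x = u x * lap G v x + v x * lap G u x + 2 * inn G u v x := by
  have hs : inn G u v x = inn G v u x := inn_symm hG hx
  have h2 : 2 * inn G u v x = inn G u v x + inn G v u x := by rw [← hs]; ring
  have hsw : inn G v u x = ∑ a, ∑ b, gi G x a b * (pd b u x * pd a v x) := by
    unfold inn
    refine Finset.sum_congr rfl fun a _ => Finset.sum_congr rfl fun b _ => by ring
  rw [h2, hsw]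
  unfold lap tr inn
  simp only [Finset.mul_sum, ← Finset.sum_add_distrib]
  refine Finset.sum_congr rfl fun a _ => Finset.sum_congr rfl fun b _ => ?_
  have e := hess_mul hG hu hv hx a b
  simp only [e]
  ring

theorem lap_const_mul (hu : ContDiffOn ℝ ∞ u U) (hx : x ∈ U) (c : ℝ) :
    lap G (fun y => c * u y) x = c * lap G u x := by
  have hc : ContDiffOn ℝ ∞ (fun _ : E => c) U := contDiffOn_const
  have hpd : ∀ a : Fin 3, pd a (fun _ : E => c) = fun _ => 0 := fun a => by
    funext y; exact pd_const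
  have h0 : lap G (fun _ : E => c) x = 0 := by
    unfold lap tr hess
    simp only [hpd]
    simp [pd_const]
  have h1 : inn G (fun _ : E => c) u x = 0 := by
    unfold inn
    simp only [hpd]
    simp
  have := lap_mul hG hc hu hx
  rw [this, h0, h1]
  ring

theorem lap_comp {F : ℝ → ℝ} {S : Set ℝ} (hS : IsOpen S) (hF : ContDiffOn ℝ ∞ F S)
    (hu : ContDiffOn ℝ ∞ u U) (hx : x ∈ U) (hm : ∀ y ∈ U, u y ∈ S) :
    lap G (fun y => F (u y)) x =
      deriv F (u x) * lap G u x + deriv (deriv F) (u x) * inn G u u x := by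
  unfold lap tr inn
  simp only [Finset.mul_sum, ← Finset.sum_add_distrib]
  refine Finset.sum_congr rfl fun a _ => Finset.sum_congr rfl fun b _ => ?_
  have e := hess_comp hG hS hF hu hx hm a b
  simp only [e]
  ring

end

end YR
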