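import Pool.Agent.Rig71.Loc6

/-! The conformal metric. -/

open scoped ContDiff Topology
open MeasureTheory Metric Set Filter

noncomputable section

namespace YR

/-- pure algebra for the Ricci formula -/
private theorem ric_alg (V : Fin 3 → ℝ) (g : Fin 3 → Fin 3 → ℝ) (Γ : Fin 3 → Fin 3 → Fin 3 → ℝ)
    (hg : ∀ a b, g a b = g b a) (hΓ : ∀ k a b, Γ k a b = Γ k b a) (P : Fin 3 → ℝ)
    (hP : ∀ a, P a = ∑ k, g a k * V k) (C : Fin 3 → Fin 3 → Fin 3 → ℝ)
    (hC : ∀ k a b, C k a b = -((if k = a then P b else 0) + (if k = b then P a else 0) -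
      g a b * V k)) (a b : Fin 3) :
    ∑ k, ∑ l, ((Γ k k l + C k k l) * (Γ l a b + C l a b) -
      (Γ k b l + C k b l) * (Γ l a k + C l a k)) =
    (∑ k, ∑ l, (Γ k k l * Γ l a b - Γ k b l * Γ l a k)) + (P a * P b - g a b * ∑ l, P l * V l -
      ∑ l, P l * Γ l a b + g a b * ∑ k, ∑ l, Γ k k l * V l -
      ∑ k, V k * ∑ m, (Γ m k a * g m b + Γ m k b * g a m)) := by
  have g10 := hg 1 0
  have g20 := hg 2 0
  have g21 := hg 2 1
  have h10 := fun k => hΓ k 1 0
  have h20 := fun k => hΓ k 2 0
  have h21 := fun k => hΓ k 2 1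
  fin_cases a <;> fin_cases b <;>
  · simp only [Fin.sum_univ_three, hC, Fin.isValue, Fin.zero_eta, Fin.mk_one, Fin.reduceFinMk,
      Fin.reduceEq, if_true, if_false, zero_ne_one, one_ne_zero]
    simp only [hP, Fin.sum_univ_three, g10, g20, g21, h10, h20, h21]
    ring

private theorem dat7 {U : Set E} {f : E → ℝ} {x : E} (hU : IsOpen U) (h : ContDiffOn ℝ ∞ f U)
    (hx : x ∈ U) : DifferentiableAt ℝ f x :=
  (h.contDiffAt (hU.mem_nhds hx)).differentiableAt (by simp)

section

variable {U : Set E} {G : E → Mat} (hG : LM U G) {u v w f : E → ℝ} {x : E}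

include hG

/-! ### LOC7 : the conformal metric `w⁻² G` -/

private theorem gi_cf (hp : ∀ y ∈ U, 0 < w y) (hx : x ∈ U) (a b : Fin 3) :
    gi (cf G w) x a b = w x ^ 2 * gi G x a b := by
  have hw : w x ≠ 0 := (hp x hx).ne'
  have hdet : IsUnit (G x).det := (det_pos hG hx).ne'.isUnit
  have h1 : gi (cf G w) x = (w x ^ 2) • gi G x := by
    unfold gi cf
    apply Matrix.inv_eq_right_inv
    rw [Matrix.smul_mul, Matrix.mul_smul, Matrix.mul_nonsing_inv _ hdet, smul_smul]
    rw [← mul_pow, inv_mul_cancel₀ hw, one_pow, one_smul]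
  rw [h1]
  rfl

private theorem pd_cf (hw : ContDiffOn ℝ ∞ w U) (hp : ∀ y ∈ U, 0 < w y) (hx : x ∈ U)
    (c a b : Fin 3) : pd c (fun y => cf G w y a b) x =
      (w x)⁻¹ ^ 2 * pd c (fun y => G y a b) x - 2 * (w x)⁻¹ ^ 3 * pd c w x * G x a b := by
  have hwx : w x ≠ 0 := (hp x hx).ne'
  have h1 : (fun y => cf G w y a b) = fun y => ((w y)⁻¹ ^ 2) * G y a b := by
    funext y
    simp [cf]
  have hd : DifferentiableAt ℝ w x := dat7 hG.op hw hx
  have h2 : HasDerivAt (fun t : ℝ => t⁻¹ ^ 2) (-2 * (w x)⁻¹ ^ 3) (w x) := by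
    have := (hasDerivAt_inv hwx).pow 2
    refine HasDerivAt.congr_deriv (f := fun t : ℝ => t⁻¹ ^ 2) this ?_
    have e : (w x ^ 2)⁻¹ = (w x)⁻¹ ^ 2 := (inv_pow _ _).symm
    rw [e]
    norm_num
    ring
  rw [h1, pd_mul _ (dat7 hG.op (hG.smooth a b) hx), pd_comp h2 hd]
  · ring
  · exact (hd.inv hwx).pow 2

theorem chr_cf (hw : ContDiffOn ℝ ∞ w U) (hp : ∀ y ∈ U, 0 < w y) (hx : x ∈ U) (k a b : Fin 3) :
    chr (cf G w) k a b x = chr G k a b x -
      ((if k = a then pd b w x else 0) + (if k = b then pd a w x else 0) -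
        G x a b * grad G w k x) / w x := by
  have hwx : w x ≠ 0 := (hp x hx).ne'
  have e : ∀ l, gi (cf G w) x k l * (pd a (fun y => cf G w y l b) x + pd b (fun y => cf G w y l a) x
      - pd l (fun y => cf G w y a b) x) =
      gi G x k l * (pd a (fun y => G y l b) x + pd b (fun y => G y l a) x -
        pd l (fun y => G y a b) x) -
      2 * (w x)⁻¹ * (gi G x k l * (pd a w x * G x l b + pd b w x * G x l a - pd l w x * G x a b)) := by
    intro l
    rw [gi_cf hG hp hx, pd_cf hG hw hp hx, pd_cf hG hw hp hx, pd_cf hG hw hp hx]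
    field_simp
    ring
  have h1 := gi_mul hG hx k a
  have h2 := gi_mul hG hx k b
  have i1 : (if k = a then pd b w x else 0) = (if k = a then (1 : ℝ) else 0) * pd b w x := by
    split_ifs <;> simp
  have i2 : (if k = b then pd a w x else 0) = (if k = b then (1 : ℝ) else 0) * pd a w x := by
    split_ifs <;> simp
  rw [i1, i2, ← h1, ← h2]
  unfold chr grad
  simp only [e, Fin.sum_univ_three]
  field_simp
  ring

theorem inn_cf (hp : ∀ y ∈ U, 0 < w y) (hx : x ∈ U) :
    inn (cf G w) u v x = w x ^ 2 * inn G u v x := by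
  unfold inn
  simp only [gi_cf hG hp hx, Fin.sum_univ_three]
  ring

theorem ip_cf (hp : ∀ y ∈ U, 0 < w y) (hx : x ∈ U) (h k : Fin 3 → Fin 3 → ℝ) :
    ip (cf G w) h k x = w x ^ 4 * ip G h k x := by
  unfold ip
  simp only [gi_cf hG hp hx, Finset.mul_sum]
  refine Finset.sum_congr rfl fun a _ => Finset.sum_congr rfl fun b _ =>
    Finset.sum_congr rfl fun c _ => Finset.sum_congr rfl fun d _ => ?_
  ring

theorem tr_cf (hp : ∀ y ∈ U, 0 < w y) (hx : x ∈ U) (h : Fin 3 → Fin 3 → ℝ) :
    tr (cf G w) h x = w x ^ 2 * tr G h x := by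
  unfold tr
  simp only [gi_cf hG hp hx, Finset.mul_sum]
  refine Finset.sum_congr rfl fun a _ => Finset.sum_congr rfl fun b _ => ?_
  ring

theorem hess_cf (hw : ContDiffOn ℝ ∞ w U) (hp : ∀ y ∈ U, 0 < w y) (hu : ContDiffOn ℝ ∞ u U)
    (hx : x ∈ U) (a b : Fin 3) :
    hess (cf G w) u a b x = hess G u a b x +
      (pd a w x * pd b u x + pd b w x * pd a u x - inn G w u x * G x a b) / w x := by
  have hwx : w x ≠ 0 := (hp x hx).ne'
  rw [inn_eq_grad hG hx]
  unfold hess
  simp only [chr_cf hG hw hp hx]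
  fin_cases a <;> fin_cases b <;>
  · simp only [Fin.sum_univ_three, Fin.isValue, Fin.zero_eta, Fin.mk_one, Fin.reduceFinMk,
      Fin.reduceEq, if_true, if_false, zero_ne_one, one_ne_zero]
    field_simp
    ring

theorem lap_cf (hw : ContDiffOn ℝ ∞ w U) (hp : ∀ y ∈ U, 0 < w y) (hu : ContDiffOn ℝ ∞ u U)
    (hx : x ∈ U) : lap (cf G w) u x = w x ^ 2 * lap G u x - w x * inn G w u x := by
  have hwx : w x ≠ 0 := (hp x hx).ne'
  have h3 := tr_metric hG hx
  have h1 : inn G w u x = inn G u w x := inn_symm hG hx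
  unfold lap
  rw [tr_cf hG hp hx]
  have e : tr G (fun a b => hess (cf G w) u a b x) x =
      tr G (fun a b => hess G u a b x) x + (inn G w u x + inn G u w x - 3 * inn G w u x) / w x := by
    simp only [hess_cf hG hw hp hu hx]
    have t1 : inn G w u x = ∑ a, ∑ b, gi G x a b * pd a w x * pd b u x := rfl
    have t2 : inn G u w x = ∑ a, ∑ b, gi G x a b * pd a u x * pd b w x := rfl
    have t3 : ∑ a, ∑ b, gi G x a b * G x a b = 3 := h3
    clear h1 h3
    generalize inn G w u x = I at *
    generalize inn G u w x = J at *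
    unfold tr
    simp only [Fin.sum_univ_three] at *
    linear_combination (-1 / w x) * t1 + (-1 / w x) * t2 - (I / w x) * t3
  rw [e, ← h1]
  field_simp
  ring

/-- the Laplacian as a divergence -/
private theorem div_grad (hu : ContDiffOn ℝ ∞ u U) (hx : x ∈ U) :
    ∑ k, pd k (grad G u k) x = lap G u x - ∑ k, ∑ l, chr G k k l x * grad G u l x := by
  have e : ∀ k, pd k (grad G u k) x = ∑ b, (pd k (fun y => gi G y k b) x * pd b u x +
      gi G x k b * pd k (pd b u) x) := by
    intro k
    have h1 : grad G u k = fun y => ∑ b, gi G y k b * pd b u y := rfl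
    rw [h1, pd_sum]
    · refine Finset.sum_congr rfl fun b _ => ?_
      rw [pd_mul (dat7 hG.op (gi_smooth hG k b) hx) (dat7 hG.op (pd_smooth hG.op hu) hx)]
    · intro b _
      exact (dat7 hG.op (gi_smooth hG k b) hx).mul (dat7 hG.op (pd_smooth hG.op hu) hx)
  simp only [e, pd_gi hG hx]
  unfold lap tr hess grad
  simp only [Fin.sum_univ_three]
  ring

private theorem grad_smooth (hu : ContDiffOn ℝ ∞ u U) (k : Fin 3) :
    ContDiffOn ℝ ∞ (grad G u k) U := by
  unfold grad
  exact ContDiffOn.sum fun b _ => (gi_smooth hG k b).mul (pd_smooth hG.op hu)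

private theorem ric_conf {H : E → Mat} (hH : LM U H) {φ : E → ℝ} (hφ : ContDiffOn ℝ ∞ φ U)
    (hC : ∀ y ∈ U, ∀ k a b, chr H k a b y = chr G k a b y -
      ((if k = a then pd b φ y else 0) + (if k = b then pd a φ y else 0) -
        G y a b * grad G φ k y)) (hx : x ∈ U) (a b : Fin 3) :
    ric H a b x = ric G a b x + hess G φ a b x + pd a φ x * pd b φ x +
      (lap G φ x - inn G φ φ x) * G x a b := by
  have hU := hG.op
  have hnhds := hU.mem_nhds hx
  have dΓ : ∀ k a b, DifferentiableAt ℝ (chr G k a b) x := fun k a b =>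
    dat7 hU (chr_smooth hG k a b) hx
  have dΓH : ∀ k a b, DifferentiableAt ℝ (chr H k a b) x := fun k a b =>
    dat7 hU (chr_smooth hH k a b) hx
  have dP : ∀ a, DifferentiableAt ℝ (pd a φ) x := fun a => dat7 hU (pd_smooth hU hφ) hx
  have dV : ∀ k, DifferentiableAt ℝ (grad G φ k) x := fun k => dat7 hU (grad_smooth hG hφ k) hx
  have dG : ∀ a b, DifferentiableAt ℝ (fun y => G y a b) x := fun a b =>
    dat7 hU (hG.smooth a b) hx
  -- the trace
  have htr : ∀ y ∈ U, ∑ k, chr H k a k y = ∑ k, chr G k a k y - 3 * pd a φ y := by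
    intro y hy
    have h1 := pd_eq_grad hG (u := φ) hy a
    simp only [hC y hy]
    rw [Finset.sum_sub_distrib]
    congr 1
    rw [Finset.sum_sub_distrib, ← h1, Finset.sum_add_distrib]
    simp
    try ring
  have hs1 : ∑ k, pd b (chr H k a k) x = ∑ k, pd b (chr G k a k) x - 3 * pd b (pd a φ) x := by
    rw [← pd_sum fun k _ => dΓH k a k, ← pd_sum fun k _ => dΓ k a k]
    have h1 : (fun y => ∑ k, chr H k a k y) =ᶠ[𝓝 x]
        fun y => (∑ k, chr G k a k y) - 3 * pd a φ y := by
      filter_upwards [hnhds] with y hy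
      exact htr y hy
    rw [pd_congr h1, pd_sub (DifferentiableAt.fun_sum fun k _ => dΓ k a k)
      ((dP a).const_mul 3), pd_mul (differentiableAt_const _) (dP a), pd_const]
    ring
  -- the divergence
  have hpd : ∀ k, pd k (chr H k a b) x = pd k (chr G k a b) x -
      ((if k = a then pd k (pd b φ) x else 0) + (if k = b then pd k (pd a φ) x else 0) -
        (pd k (fun y => G y a b) x * grad G φ k x + G x a b * pd k (grad G φ k) x)) := by
    intro k
    have h1 : chr H k a b =ᶠ[𝓝 x] fun y => chr G k a b y -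
        ((if k = a then pd b φ y else 0) + (if k = b then pd a φ y else 0) -
        G y a b * grad G φ k y) := by
      filter_upwards [hnhds] with y hy
      exact hC y hy k a b
    have d1 : DifferentiableAt ℝ (fun y => if k = a then pd b φ y else 0) x := by
      split_ifs
      · exact dP b
      · exact differentiableAt_const _
    have d2 : DifferentiableAt ℝ (fun y => if k = b then pd a φ y else 0) x := by
      split_ifs
      · exact dP a
      · exact differentiableAt_const _
    have p1 : pd k (fun y => if k = a then pd b φ y else 0) x =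
        if k = a then pd k (pd b φ) x else 0 := by
      split_ifs
      · rfl
      · exact pd_const
    have p2 : pd k (fun y => if k = b then pd a φ y else 0) x =
        if k = b then pd k (pd a φ) x else 0 := by
      split_ifs
      · rfl
      · exact pd_const
    rw [pd_congr h1, pd_sub (dΓ k a b) ((d1.fun_add d2).fun_sub ((dG a b).fun_mul (dV k))),
      pd_sub (d1.fun_add d2) ((dG a b).fun_mul (dV k)), pd_add d1 d2, pd_mul (dG a b) (dV k), p1, p2]
  have hs2 : ∑ k, pd k (chr H k a b) x = ∑ k, pd k (chr G k a b) x - pd a (pd b φ) x -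
      pd b (pd a φ) x + ∑ k, pd k (fun y => G y a b) x * grad G φ k x +
        G x a b * ∑ k, pd k (grad G φ k) x := by
    simp only [hpd]
    rw [Finset.sum_sub_distrib, Finset.sum_sub_distrib, Finset.sum_add_distrib,
      Finset.sum_add_distrib, Finset.mul_sum]
    simp
    ring
  -- the quadratic terms
  have hq : ∑ k, ∑ l, (chr H k k l x * chr H l a b x - chr H k b l x * chr H l a k x) =
      (∑ k, ∑ l, (chr G k k l x * chr G l a b x - chr G k b l x * chr G l a k x)) +
      (pd a φ x * pd b φ x - G x a b * ∑ l, pd l φ x * grad G φ l x -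
      ∑ l, pd l φ x * chr G l a b x + G x a b * ∑ k, ∑ l, chr G k k l x * grad G φ l x -
      ∑ k, grad G φ k x * ∑ m, (chr G m k a x * G x m b + chr G m k b x * G x a m)) := by
    refine Eq.trans ?_ (ric_alg (fun k => grad G φ k x) (fun a b => G x a b)
      (fun k a b => chr G k a b x)
      (fun a b => hG.symm x hx a b) (fun k a b => chr_symm hG hx k a b) (fun a => pd a φ x)
      (fun a => pd_eq_grad hG hx a) (fun k a b => chr H k a b x - chr G k a b x)
      (fun k a b => ?_) a b)
    · refine Finset.sum_congr rfl fun k _ => Finset.sum_congr rfl fun l _ => ?_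
      ring
    · rw [hC x hx]
      ring
  have hcomm := pd_comm (a := a) (b := b) hU hφ hx
  have hdiv := div_grad hG hφ hx
  have hdG : ∀ k, pd k (fun y => G y a b) x =
      ∑ m, (chr G m k a x * G x m b + chr G m k b x * G x a m) := fun k => pd_G hG hx k a b
  have hinn : inn G φ φ x = ∑ l, pd l φ x * grad G φ l x := by
    rw [inn_eq_grad hG hx]
    exact Finset.sum_congr rfl fun l _ => mul_comm _ _
  have hsplit : ∀ F : E → Mat, ric F a b x = ∑ k, pd k (chr F k a b) x - ∑ k, pd b (chr F k a k) x +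
      ∑ k, ∑ l, (chr F k k l x * chr F l a b x - chr F k b l x * chr F l a k x) := by
    intro F
    unfold ric
    rw [Finset.sum_add_distrib, Finset.sum_sub_distrib]
  rw [hsplit H, hsplit G, hs1, hs2, hq, hdiv, hinn]
  unfold hess
  have h5 : ∑ k, pd k (fun y => G y a b) x * grad G φ k x =
      ∑ k, grad G φ k x * ∑ m, (chr G m k a x * G x m b + chr G m k b x * G x a m) :=
    Finset.sum_congr rfl fun k _ => by rw [hdG k, mul_comm]
  have h6 : ∑ k, chr G k a b x * pd k φ x = ∑ l, pd l φ x * chr G l a b x :=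
    Finset.sum_congr rfl fun k _ => mul_comm _ _
  rw [h5, h6, hcomm]
  ring

theorem ric_cf (hw : ContDiffOn ℝ ∞ w U) (hp : ∀ y ∈ U, 0 < w y) (hx : x ∈ U) (a b : Fin 3) :
    ric (cf G w) a b x = ric G a b x + hess G w a b x / w x +
      (lap G w x / w x - 2 * inn G w w x / w x ^ 2) * G x a b := by
  have hU := hG.op
  set φ : E → ℝ := fun y => Real.log (w y) with hφd
  have hlog : ContDiffOn ℝ ∞ Real.log (Ioi 0) :=
    Real.contDiffOn_log.mono (fun t ht => (ne_of_gt ht : t ≠ 0))
  have hφ : ContDiffOn ℝ ∞ φ U := hlog.comp hw fun y hy => hp y hy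
  have hpd : ∀ y ∈ U, ∀ a, pd a φ y = pd a w y / w y := by
    intro y hy a
    have h1 := pd_comp (a := a) (Real.hasDerivAt_log (hp y hy).ne') (dat7 hU hw hy)
    rw [hφd, h1]
    ring
  have hgrad : ∀ y ∈ U, ∀ k, grad G φ k y = grad G w k y / w y := by
    intro y hy k
    unfold grad
    rw [Finset.sum_div]
    exact Finset.sum_congr rfl fun b _ => by rw [hpd y hy, mul_div_assoc]
  have hC : ∀ y ∈ U, ∀ k a b, chr (cf G w) k a b y = chr G k a b y -
      ((if k = a then pd b φ y else 0) + (if k = b then pd a φ y else 0) -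
        G y a b * grad G φ k y) := by
    intro y hy k a b
    rw [chr_cf hG hw hp hy, hgrad y hy]
    simp only [hpd y hy]
    split_ifs <;> ring
  have h1 := ric_conf hG (cf_lm hG hw hp) hφ hC hx a b
  have hd1 : deriv Real.log (w x) = (w x)⁻¹ := Real.deriv_log _
  have hd2 : deriv (deriv Real.log) (w x) = -(w x ^ 2)⁻¹ := by
    rw [Real.deriv_log']
    exact deriv_inv
  have h2 : hess G φ a b x = (w x)⁻¹ * hess G w a b x - (w x ^ 2)⁻¹ * (pd a w x * pd b w x) := by
    have := hess_comp hG isOpen_Ioi hlog hw hx (fun y hy => hp y hy) a b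
    rw [hφd, this, hd1, hd2]
    ring
  have h3 : lap G φ x = (w x)⁻¹ * lap G w x - (w x ^ 2)⁻¹ * inn G w w x := by
    have := lap_comp hG isOpen_Ioi hlog hw hx (fun y hy => hp y hy)
    rw [hφd, this, hd1, hd2]
    ring
  have h4 : inn G φ φ x = (w x ^ 2)⁻¹ * inn G w w x := by
    unfold inn
    simp only [hpd x hx, Finset.mul_sum]
    refine Finset.sum_congr rfl fun a _ => Finset.sum_congr rfl fun b _ => ?_
    ring
  have hwx : w x ≠ 0 := (hp x hx).ne'
  rw [h1, h2, h3, h4, hpd x hx, hpd x hx]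
  field_simp
  ring

theorem scal_cf (hw : ContDiffOn ℝ ∞ w U) (hp : ∀ y ∈ U, 0 < w y) (hx : x ∈ U) :
    scal (cf G w) x = 6 * bb G w w x := by
  have hwx : w x ≠ 0 := (hp x hx).ne'
  have t3 : ∑ a, ∑ b, gi G x a b * G x a b = 3 := tr_metric hG hx
  have e : tr G (fun a b => ric (cf G w) a b x) x = scal G x + lap G w x / w x +
      3 * (lap G w x / w x - 2 * inn G w w x / w x ^ 2) := by
    simp only [ric_cf hG hw hp hx]
    generalize (lap G w x / w x - 2 * inn G w w x / w x ^ 2) = c
    unfold scal lap tr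
    simp only [Fin.sum_univ_three] at *
    linear_combination c * t3
  unfold scal at e ⊢
  rw [tr_cf hG hp hx, e]
  unfold bb rho scal
  field_simp
  ring

private theorem cf_apply (a b : Fin 3) : cf G w x a b = (w x)⁻¹ ^ 2 * G x a b := by
  simp [cf]

theorem ric0_cf (hw : ContDiffOn ℝ ∞ w U) (hp : ∀ y ∈ U, 0 < w y) (hx : x ∈ U) (a b : Fin 3) :
    ric0 (cf G w) a b x = TT G w a b x / w x := by
  have hwx : w x ≠ 0 := (hp x hx).ne'
  unfold ric0
  rw [ric_cf hG hw hp hx, scal_cf hG hw hp hx, cf_apply hG]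
  unfold TT sch bb rho
  field_simp
  ring

private theorem ip_expand (h k : Fin 3 → Fin 3 → ℝ) (c : ℝ) :
    ip G (fun a b => h a b - c * k a b) (fun a b => h a b - c * k a b) x =
      ip G h h x - c * ip G h k x - c * ip G k h x + c ^ 2 * ip G k k x := by
  unfold ip
  simp only [Finset.mul_sum, ← Finset.sum_sub_distrib, ← Finset.sum_add_distrib]
  refine Finset.sum_congr rfl fun a _ => Finset.sum_congr rfl fun b _ =>
    Finset.sum_congr rfl fun c _ => Finset.sum_congr rfl fun d _ => ?_
  ring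

/-- `σ₂ = R²/48 - |Ric⁰|²/2` -/
theorem sig2_eq (hx : x ∈ U) : sig2 G x = scal G x ^ 2 / 48 -
    ip G (fun a b => ric0 G a b x) (fun a b => ric0 G a b x) x / 2 := by
  have h1 := ip_expand hG (x := x) (fun a b => ric G a b x) (fun a b => G x a b) (scal G x / 3)
  have h2 : ip G (fun a b => ric G a b x) (fun a b => G x a b) x = scal G x :=
    ip_metric hG hx _
  have h3 : ip G (fun a b => G x a b) (fun a b => ric G a b x) x = scal G x := by
    rw [ip_symm hG hx, h2]
  have h4 : ip G (fun a b => G x a b) (fun a b => G x a b) x = 3 := by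
    rw [ip_metric hG hx, tr_metric hG hx]
  have h5 : ip G (fun a b => ric0 G a b x) (fun a b => ric0 G a b x) x =
      ip G (fun a b => ric G a b x - scal G x / 3 * G x a b)
        (fun a b => ric G a b x - scal G x / 3 * G x a b) x := rfl
  rw [h5, h1, h2, h3, h4]
  unfold sig2
  ring

/-- `T(h w) = h T(w) + w (Hess_ĝ h)⁰` -/
theorem TT_mul (hw : ContDiffOn ℝ ∞ w U) (hp : ∀ y ∈ U, 0 < w y) (hu : ContDiffOn ℝ ∞ u U)
    (hx : x ∈ U) (a b : Fin 3) :
    TT G (fun y => u y * w y) a b x = u x * TT G w a b x +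
      w x * (hess (cf G w) u a b x - lap (cf G w) u x / 3 * cf G w x a b) := by
  have hwx : w x ≠ 0 := (hp x hx).ne'
  have h1 : inn G u w x = inn G w u x := inn_symm hG hx
  rw [hess_cf hG hw hp hu hx, lap_cf hG hw hp hu hx, cf_apply hG]
  unfold TT rho
  rw [hess_mul hG hu hw hx, lap_mul hG hu hw hx, h1]
  field_simp
  ring

theorem bb_mul (hw : ContDiffOn ℝ ∞ w U) (hp : ∀ y ∈ U, 0 < w y) (hu : ContDiffOn ℝ ∞ u U)
    (hv : ContDiffOn ℝ ∞ v U) (hx : x ∈ U) :
    bb G (fun y => u y * w y) (fun y => v y * w y) x = u x * v x * bb G w w x +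
      (u x * lap (cf G w) v x + v x * lap (cf G w) u x) / 3 - inn (cf G w) u v x := by
  have hU := hG.op
  have du := dat7 hU hu hx
  have dv := dat7 hU hv hx
  have dw := dat7 hU hw hx
  have h1 : inn G u w x = inn G w u x := inn_symm hG hx
  have h2 : inn G v w x = inn G w v x := inn_symm hG hx
  have h3 : inn G (fun y => u y * w y) (fun y => v y * w y) x =
      u x * v x * inn G w w x + u x * w x * inn G w v x + w x * v x * inn G w u x +
        w x * w x * inn G u v x := by
    rw [inn_mul_left hG du dw, inn_symm hG (u := w) hx, inn_symm hG (u := u) hx,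
      inn_mul_left hG dv dw, inn_mul_left hG dv dw, h2, inn_symm hG (u := v) (v := u) hx]
    ring
  rw [lap_cf hG hw hp hu hx, lap_cf hG hw hp hv hx, inn_cf hG hp hx]
  unfold bb
  rw [h3]
  unfold rho
  rw [lap_mul hG hu hw hx, lap_mul hG hv hw hx, h1, h2]
  ring

end

end YR
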