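import Pool.Agent.Rig71.DefsA
import Pool.Agent.Rig71.Loc7

/-! MP_71b0e8_gt, module TL1. -/

open scoped ContDiff Topology
open MeasureTheory Metric Set Filter

noncomputable section

namespace YR


/-- (TL1) pointwise decomposition of `T(w)` through the conformal metric `w⁻² G` -/
theorem TT_decomp {U : Set E} {G : E → Mat} (hG : LM U G) {w f : E → ℝ}
    (hw : ContDiffOn ℝ ∞ w U) (hf : ContDiffOn ℝ ∞ f U) (hp : ∀ x ∈ U, 0 < w x) {x : E}
    (hx : x ∈ U) (a b : Fin 3) :
    TT G w a b x = w x * (ric0 (cf G w) a b x - qq (cf G w) f a b x)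
      + w x * (hess G f a b x - lap G f x / 3 * G x a b)
      + (pd a w x * pd b f x + pd b w x * pd a f x - 2 / 3 * inn G w f x * G x a b)
      - w x / 2 * (pd a f x * pd b f x - inn G f f x / 3 * G x a b) := by
  have h0 : w x ≠ 0 := (hp x hx).ne'
  have e1 : cf G w x a b = (w x)⁻¹ ^ 2 * G x a b := rfl
  unfold qq
  rw [ric0_cf hG hw hp hx, hess_cf hG hw hp hf hx, lap_cf hG hw hp hf hx, inn_cf hG hp hx, e1]
  field_simp
  ring

end YR
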