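import Pool.Agent.Rig71.Loc3

/-! the Levi-Civita connection, polarization -/

open scoped ContDiff Topology
open MeasureTheory Metric Set Filter

noncomputable section

namespace YR

namespace Loc4aux

theorem dAt {U : Set E} {f : E → ℝ} {x : E} (hU : IsOpen U) (hf : ContDiffOn ℝ ∞ f U)
    (hx : x ∈ U) : DifferentiableAt ℝ f x :=
  (hf.contDiffAt (hU.mem_nhds hx)).differentiableAt (by simp)

/-- derivative of a 3x3 determinant, when `dG = Aᵀ G + G A` -/
theorem det_alg (G A : Fin 3 → Fin 3 → ℝ) (D : Fin 3 → Fin 3 → ℝ)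
    (h : ∀ a b, D a b = ∑ k, (A k a * G k b + A k b * G a k)) :
    (D 0 0 * (G 1 1 * G 2 2) + G 0 0 * (D 1 1 * G 2 2 + G 1 1 * D 2 2))
      - (D 0 0 * (G 1 2 * G 2 1) + G 0 0 * (D 1 2 * G 2 1 + G 1 2 * D 2 1))
      - (D 0 1 * (G 1 0 * G 2 2) + G 0 1 * (D 1 0 * G 2 2 + G 1 0 * D 2 2))
      + (D 0 1 * (G 1 2 * G 2 0) + G 0 1 * (D 1 2 * G 2 0 + G 1 2 * D 2 0))
      + (D 0 2 * (G 1 0 * G 2 1) + G 0 2 * (D 1 0 * G 2 1 + G 1 0 * D 2 1))
      - (D 0 2 * (G 1 1 * G 2 0) + G 0 2 * (D 1 1 * G 2 0 + G 1 1 * D 2 0)) =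
    2 * (A 0 0 + A 1 1 + A 2 2) *
      (G 0 0 * (G 1 1 * G 2 2) - G 0 0 * (G 1 2 * G 2 1) - G 0 1 * (G 1 0 * G 2 2)
        + G 0 1 * (G 1 2 * G 2 0) + G 0 2 * (G 1 0 * G 2 1) - G 0 2 * (G 1 1 * G 2 0)) := by
  simp only [h, Fin.sum_univ_three]
  ring

end Loc4aux

open Loc4aux

section

variable {U : Set E} {G : E → Mat} (hG : LM U G) {u v w f : E → ℝ} {x : E}

include hG

theorem Loc4aux.pdG_symm (hx : x ∈ U) (c a b : Fin 3) :
    pd c (fun y => G y a b) x = pd c (fun y => G y b a) x := by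
  apply pd_congr
  filter_upwards [hG.op.mem_nhds hx] with y hy
  exact hG.symm y hy a b

/-- lowered Christoffel symbols -/
theorem Loc4aux.lower (hx : x ∈ U) (a b c : Fin 3) :
    ∑ k, chr G k a b x * G x k c =
      (1 / 2) * (pd a (fun y => G y c b) x + pd b (fun y => G y c a) x -
        pd c (fun y => G y a b) x) := by
  have h := fun l => gi_mul hG hx l c
  have h0 := h 0
  have h1 := h 1
  have h2 := h 2
  simp only [Fin.sum_univ_three] at h0 h1 h2
  simp only [chr, Fin.sum_univ_three]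
  set X : Fin 3 → ℝ := fun l =>
    pd a (fun y => G y l b) x + pd b (fun y => G y l a) x - pd l (fun y => G y a b) x with hX
  have key : (1 / 2 : ℝ) * X c = (1 / 2) * (X 0 * (if (0 : Fin 3) = c then 1 else 0) +
      X 1 * (if (1 : Fin 3) = c then 1 else 0) + X 2 * (if (2 : Fin 3) = c then 1 else 0)) := by
    fin_cases c <;> simp
  change _ = (1 / 2 : ℝ) * X c
  rw [key, ← h0, ← h1, ← h2, gi_symm hG hx 1 0, gi_symm hG hx 2 0, gi_symm hG hx 2 1]
  simp only [hX]
  ring

/-- metric compatibility -/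
theorem pd_G (hx : x ∈ U) (c a b : Fin 3) :
    pd c (fun y => G y a b) x = ∑ k, (chr G k c a x * G x k b + chr G k c b x * G x a k) := by
  have h1 := lower hG hx c a b
  have h2 := lower hG hx c b a
  have h3 : ∑ k, chr G k c b x * G x a k = ∑ k, chr G k c b x * G x k a :=
    Finset.sum_congr rfl fun k _ => by rw [hG.symm x hx a k]
  rw [Finset.sum_add_distrib, h1, h3, h2, pdG_symm hG hx c b a, pdG_symm hG hx a b c,
    pdG_symm hG hx b a c]
  ring

theorem pd_gi (hx : x ∈ U) (c a b : Fin 3) :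
    pd c (fun y => gi G y a b) x = -∑ k, (chr G a c k x * gi G x k b + chr G b c k x * gi G x a k)
    := by
  have hg : ∀ i j, DifferentiableAt ℝ (fun y => gi G y i j) x := fun i j =>
    dAt hG.op (gi_smooth hG i j) hx
  have hG' : ∀ i j, DifferentiableAt ℝ (fun y => G y i j) x := fun i j =>
    dAt hG.op (hG.smooth i j) hx
  -- derivative of `gi * G = 1`
  have e1 : ∀ j, ∑ m, (pd c (fun y => gi G y a m) x * G x m j +
      gi G x a m * pd c (fun y => G y m j) x) = 0 := by
    intro j
    have h1 : pd c (fun y => ∑ m, gi G y a m * G y m j) x = 0 := by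
      have : pd c (fun y => ∑ m, gi G y a m * G y m j) x =
          pd c (fun _ => if a = j then (1 : ℝ) else 0) x := by
        apply pd_congr
        filter_upwards [hG.op.mem_nhds hx] with y hy
        exact gi_mul hG hy a j
      rw [this, pd_const]
    rw [pd_sum fun m _ => (hg a m).fun_mul (hG' m j)] at h1
    rw [← h1]
    exact Finset.sum_congr rfl fun m _ => (pd_mul (hg a m) (hG' m j)).symm
  -- insert `G * gi = 1`
  have e2 : pd c (fun y => gi G y a b) x =
      ∑ j, (∑ m, pd c (fun y => gi G y a m) x * G x m j) * gi G x j b := by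
    have : ∀ m, ∑ j, G x m j * gi G x j b = if m = b then 1 else 0 := fun m => mul_gi hG hx m b
    calc pd c (fun y => gi G y a b) x
        = ∑ m, pd c (fun y => gi G y a m) x * (if m = b then 1 else 0) := by simp
      _ = ∑ m, pd c (fun y => gi G y a m) x * ∑ j, G x m j * gi G x j b := by
          simp only [this]
      _ = _ := by
          simp only [Finset.mul_sum, Finset.sum_mul]
          rw [Finset.sum_comm]
          exact Finset.sum_congr rfl fun j _ => Finset.sum_congr rfl fun m _ => by ring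
  have e3 : ∀ j, ∑ m, pd c (fun y => gi G y a m) x * G x m j =
      -∑ m, gi G x a m * pd c (fun y => G y m j) x := by
    intro j
    have := e1 j
    rw [Finset.sum_add_distrib] at this
    linarith
  rw [e2]
  simp only [e3, pd_G hG hx]
  have g1 := fun m => gi_mul hG hx a m
  have g2 := fun m => mul_gi hG hx m b
  -- first part
  have f1 : ∑ j, (∑ m, gi G x a m * ∑ k, (chr G k c m x * G x k j + chr G k c j x * G x m k)) *
      gi G x j b = ∑ k, (chr G a c k x * gi G x k b + chr G b c k x * gi G x a k) := by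
    have A : ∑ j, (∑ m, gi G x a m * ∑ k, chr G k c m x * G x k j) * gi G x j b =
        ∑ m, chr G b c m x * gi G x a m := by
      calc ∑ j, (∑ m, gi G x a m * ∑ k, chr G k c m x * G x k j) * gi G x j b
          = ∑ m, gi G x a m * ∑ k, chr G k c m x * ∑ j, G x k j * gi G x j b := by
            simp only [Finset.mul_sum, Finset.sum_mul]
            rw [Finset.sum_comm]
            refine Finset.sum_congr rfl fun m _ => ?_
            rw [Finset.sum_comm]
            exact Finset.sum_congr rfl fun k _ => Finset.sum_congr rfl fun j _ => by ring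
        _ = _ := by
            simp only [g2]
            refine Finset.sum_congr rfl fun m _ => ?_
            simp [mul_comm]
    have B : ∑ j, (∑ m, gi G x a m * ∑ k, chr G k c j x * G x m k) * gi G x j b =
        ∑ j, chr G a c j x * gi G x j b := by
      refine Finset.sum_congr rfl fun j _ => ?_
      congr 1
      calc ∑ m, gi G x a m * ∑ k, chr G k c j x * G x m k
          = ∑ k, chr G k c j x * ∑ m, gi G x a m * G x m k := by
            simp only [Finset.mul_sum]
            rw [Finset.sum_comm]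
            exact Finset.sum_congr rfl fun k _ => Finset.sum_congr rfl fun m _ => by ring
        _ = _ := by
            simp [g1]
    rw [Finset.sum_add_distrib, ← A, ← B, ← Finset.sum_add_distrib]
    refine Finset.sum_congr rfl fun j _ => ?_
    rw [← add_mul]
    congr 1
    rw [add_comm, ← Finset.sum_add_distrib]
    refine Finset.sum_congr rfl fun m _ => ?_
    rw [← mul_add, ← Finset.sum_add_distrib]
  rw [← f1, ← Finset.sum_neg_distrib]
  exact Finset.sum_congr rfl fun j _ => by ring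

/-- `∂_c √det G = √det G Γ^k_{kc}` -/
theorem pd_sqrt_det (hx : x ∈ U) (c : Fin 3) :
    pd c (fun y => √(G y).det) x = √(G x).det * ∑ k, chr G k k c x := by
  have hG' : ∀ i j, DifferentiableAt ℝ (fun y => G y i j) x := fun i j =>
    dAt hG.op (hG.smooth i j) hx
  have hd := det_pos hG hx
  have hdd : DifferentiableAt ℝ (fun y => (G y).det) x := dAt hG.op (det_smooth hG) hx
  have h1 : pd c (fun y => √(G y).det) x = 1 / (2 * √(G x).det) * pd c (fun y => (G y).det) x :=
    pd_comp (F := fun t => √t) (Real.hasDerivAt_sqrt hd.ne') hdd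
  have h2 : pd c (fun y => (G y).det) x = 2 * (∑ k, chr G k k c x) * (G x).det := by
    have e : (fun y => (G y).det) = fun y =>
        G y 0 0 * (G y 1 1 * G y 2 2) - G y 0 0 * (G y 1 2 * G y 2 1)
          - G y 0 1 * (G y 1 0 * G y 2 2) + G y 0 1 * (G y 1 2 * G y 2 0)
          + G y 0 2 * (G y 1 0 * G y 2 1) - G y 0 2 * (G y 1 1 * G y 2 0) := by
      funext y
      rw [Matrix.det_fin_three]
      ring
    have key := det_alg (fun a b => G x a b) (fun k a => chr G k c a x)
      (fun a b => pd c (fun y => G y a b) x) (fun a b => pd_G hG hx c a b)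
    have t3 : ∀ i j k l m n : Fin 3, DifferentiableAt ℝ
        (fun y => G y i j * (G y k l * G y m n)) x := fun i j k l m n =>
      (hG' i j).fun_mul ((hG' k l).fun_mul (hG' m n))
    have p3 : ∀ i j k l m n : Fin 3, pd c (fun y => G y i j * (G y k l * G y m n)) x =
        pd c (fun y => G y i j) x * (G x k l * G x m n) +
          G x i j * (pd c (fun y => G y k l) x * G x m n + G x k l * pd c (fun y => G y m n) x) := by
      intro i j k l m n
      rw [pd_mul (hG' i j) ((hG' k l).fun_mul (hG' m n)), pd_mul (hG' k l) (hG' m n)]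
    rw [e, pd_sub (((((t3 _ _ _ _ _ _).fun_sub (t3 _ _ _ _ _ _)).fun_sub (t3 _ _ _ _ _ _)).fun_add
        (t3 _ _ _ _ _ _)).fun_add (t3 _ _ _ _ _ _)) (t3 _ _ _ _ _ _),
      pd_add ((((t3 _ _ _ _ _ _).fun_sub (t3 _ _ _ _ _ _)).fun_sub (t3 _ _ _ _ _ _)).fun_add
        (t3 _ _ _ _ _ _)) (t3 _ _ _ _ _ _),
      pd_add (((t3 _ _ _ _ _ _).fun_sub (t3 _ _ _ _ _ _)).fun_sub (t3 _ _ _ _ _ _)) (t3 _ _ _ _ _ _),
      pd_sub ((t3 _ _ _ _ _ _).fun_sub (t3 _ _ _ _ _ _)) (t3 _ _ _ _ _ _),
      pd_sub (t3 _ _ _ _ _ _) (t3 _ _ _ _ _ _)]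
    simp only [p3]
    rw [key, Matrix.det_fin_three, Fin.sum_univ_three, chr_symm hG hx 0 c 0, chr_symm hG hx 1 c 1,
      chr_symm hG hx 2 c 2]
    ring
  rw [h1, h2]
  have hs : √(G x).det * √(G x).det = (G x).det := Real.mul_self_sqrt hd.le
  have hs0 : √(G x).det ≠ 0 := (Real.sqrt_pos.2 hd).ne'
  rw [show 1 / (2 * √(G x).det) * (2 * (∑ k, chr G k k c x) * (G x).det) =
    (∑ k, chr G k k c x) * ((G x).det / √(G x).det) by field_simp, Real.div_sqrt]
  ring

/-- `d⟨du,dv⟩ = Hess u(·,∇v) + Hess v(·,∇u)` -/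
theorem pd_inn (hu : ContDiffOn ℝ ∞ u U) (hv : ContDiffOn ℝ ∞ v U) (hx : x ∈ U) (c : Fin 3) :
    pd c (inn G u v) x =
      ∑ b, (hess G u c b x * grad G v b x + hess G v c b x * grad G u b x) := by
  have hg : ∀ i j, DifferentiableAt ℝ (fun y => gi G y i j) x := fun i j =>
    dAt hG.op (gi_smooth hG i j) hx
  have hpu : ∀ a, DifferentiableAt ℝ (pd a u) x := fun a => dAt hG.op (pd_smooth hG.op hu) hx
  have hpv : ∀ a, DifferentiableAt ℝ (pd a v) x := fun a => dAt hG.op (pd_smooth hG.op hv) hx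
  have h1 : pd c (inn G u v) x = ∑ a, ∑ b, (pd c (fun y => gi G y a b) x * pd a u x * pd b v x +
      gi G x a b * pd c (pd a u) x * pd b v x + gi G x a b * pd a u x * pd c (pd b v) x) := by
    unfold inn
    rw [pd_sum fun a _ => DifferentiableAt.fun_sum fun b _ => ((hg a b).fun_mul (hpu a)).fun_mul (hpv b)]
    refine Finset.sum_congr rfl fun a _ => ?_
    rw [pd_sum fun b _ => ((hg a b).fun_mul (hpu a)).fun_mul (hpv b)]
    refine Finset.sum_congr rfl fun b _ => ?_
    rw [pd_mul (f := fun y => gi G y a b * pd a u y) ((hg a b).fun_mul (hpu a)) (hpv b),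
      pd_mul (hg a b) (hpu a)]
    ring
  rw [h1]
  simp only [pd_gi hG hx, hess, grad, Fin.sum_univ_three]
  rw [gi_symm hG hx 1 0, gi_symm hG hx 2 0, gi_symm hG hx 2 1]
  ring

/-- polarization -/
theorem hess_polar (hw : ContDiffOn ℝ ∞ w U) (hu : ContDiffOn ℝ ∞ u U) (hv : ContDiffOn ℝ ∞ v U)
    (hx : x ∈ U) :
    2 * ev G (fun a b => hess G w a b x) u v x =
      inn G u (inn G w v) x + inn G v (inn G w u) x - inn G w (inn G u v) x := by
  have key : ∀ {p q r : E → ℝ}, ContDiffOn ℝ ∞ p U → ContDiffOn ℝ ∞ q U → ContDiffOn ℝ ∞ r U →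
      inn G p (inn G q r) x = ev G (fun a b => hess G q a b x) p r x +
        ev G (fun a b => hess G r a b x) p q x := by
    intro p q r hp hq hr
    rw [inn_eq_grad hG hx]
    simp only [pd_inn hG hq hr hx, ev]
    rw [← Finset.sum_add_distrib]
    refine Finset.sum_congr rfl fun a _ => ?_
    rw [Finset.mul_sum, ← Finset.sum_add_distrib]
    exact Finset.sum_congr rfl fun b _ => by ring
  have sym : ∀ {q p r : E → ℝ}, ContDiffOn ℝ ∞ q U →
      ev G (fun a b => hess G q a b x) p r x = ev G (fun a b => hess G q a b x) r p x := by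
    intro q p r hq
    unfold ev
    rw [Finset.sum_comm]
    refine Finset.sum_congr rfl fun a _ => Finset.sum_congr rfl fun b _ => ?_
    show hess G q b a x * _ * _ = hess G q a b x * _ * _
    rw [hess_symm hG hq hx b a]
    ring
  rw [key hu hw hv, key hv hw hu, key hw hu hv, sym (p := v) (r := u) hw, sym (p := w) (r := v) hu,
    sym (p := w) (r := u) hv]
  ring

end

end YR
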