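import Pool.Agent.Rig71.Loc4a
import Pool.Agent.Rig71.Loc4b

/-! Index symmetries of the Riemann tensor, symmetry of Ricci, dimension three. -/

open scoped ContDiff Topology
open MeasureTheory Metric Set Filter

noncomputable section

namespace YR

/-- lowered Riemann tensor -/
def rlow (G : E → Mat) (k l a b : Fin 3) (x : E) : ℝ := ∑ m, G x k m * riem G m l a b x

/-- an algebraic curvature tensor in dimension three with zero Ricci contraction is zero -/
theorem alg3 (H : Fin 3 → Fin 3 → ℝ) (T : Fin 3 → Fin 3 → Fin 3 → Fin 3 → ℝ)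
    (hs : ∀ a b, H a b = H b a)
    (hd : H 0 0 * (H 1 1 * H 2 2 - H 1 2 ^ 2) - H 0 1 * (H 0 1 * H 2 2 - H 1 2 * H 0 2) +
      H 0 2 * (H 0 1 * H 1 2 - H 1 1 * H 0 2) ≠ 0)
    (a1 : ∀ k l a b, T k l a b = -T l k a b) (a2 : ∀ k l a b, T k l a b = -T k l b a)
    (pr : ∀ k l a b, T k l a b = T a b k l)
    (hr : ∀ a b, ∑ k, ∑ m, H k m * T m a k b = 0) (k l a b : Fin 3) : T k l a b = 0 := by
  have z1 : ∀ k a b, T k k a b = 0 := fun k a b => by linarith [a1 k k a b]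
  have z2 : ∀ k l a, T k l a a = 0 := fun k l a => by linarith [a2 k l a a]
  have e00 := hr 0 0
  have e11 := hr 1 1
  have e22 := hr 2 2
  have e01 := hr 0 1
  have e02 := hr 0 2
  have e12 := hr 1 2
  simp only [Fin.sum_univ_three, z1, z2, hs 1 0, hs 2 0, hs 2 1] at e00 e11 e22 e01 e02 e12
  have q1 : T 1 0 1 0 = T 0 1 0 1 := by rw [a1, a2]; ring
  have q2 : T 2 0 2 0 = T 0 2 0 2 := by rw [a1, a2]; ring
  have q3 : T 2 1 2 1 = T 1 2 1 2 := by rw [a1, a2]; ring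
  have q4 : T 1 0 2 0 = T 0 1 0 2 := by rw [a1, a2]; ring
  have q5 : T 2 0 1 0 = T 0 1 0 2 := by rw [a1, a2, pr]; ring
  have q6 : T 0 1 2 1 = -T 0 1 1 2 := a2 _ _ _ _
  have q7 : T 2 1 0 1 = -T 0 1 1 2 := by rw [a1, pr]
  have q8 : T 1 2 0 2 = T 0 2 1 2 := pr _ _ _ _
  have q10 : T 1 0 0 1 = -T 0 1 0 1 := a1 _ _ _ _
  have q11 : T 2 0 0 1 = -T 0 1 0 2 := by rw [a1, pr]
  have q12 : T 1 0 2 1 = T 0 1 1 2 := by rw [a1, a2]; ring
  have q13 : T 2 0 2 1 = T 0 2 1 2 := by rw [a1, a2]; ring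
  have q14 : T 1 0 0 2 = -T 0 1 0 2 := a1 _ _ _ _
  have q15 : T 2 0 0 2 = -T 0 2 0 2 := a1 _ _ _ _
  have q16 : T 1 0 1 2 = -T 0 1 1 2 := a1 _ _ _ _
  have q17 : T 2 0 1 2 = -T 0 2 1 2 := a1 _ _ _ _
  have q18 : T 2 1 0 2 = -T 0 2 1 2 := by rw [a1, pr]
  have q19 : T 2 1 1 2 = -T 1 2 1 2 := a1 _ _ _ _
  simp only [q1, q2, q3, q4, q5, q6, q7, q8, q10, q11, q12, q13, q14, q15, q16, q17, q18, q19]
    at e00 e11 e22 e01 e02 e12
  have t1 : T 0 1 0 1 = 0 := by
    refine (mul_eq_zero.1 (?_ : (H 0 0 * (H 1 1 * H 2 2 - H 1 2 ^ 2) - H 0 1 * (H 0 1 * H 2 2 - H 1 2 * H 0 2) +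
      H 0 2 * (H 0 1 * H 1 2 - H 1 1 * H 0 2)) * T 0 1 0 1 = 0)).resolve_left hd
    linear_combination H 2 2 / 2 * (H 0 0 * e00 + H 1 1 * e11 + H 2 2 * e22 + 2 * H 0 1 * e01 +
      2 * H 0 2 * e02 + 2 * H 1 2 * e12) -
      (H 0 2 * H 0 2 * e00 + H 0 2 * H 1 2 * e01 + H 0 2 * H 2 2 * e02 + H 1 2 * H 0 2 * e01 + H 1 2 * H 1 2 * e11 + H 1 2 * H 2 2 * e12 + H 2 2 * H 0 2 * e02 + H 2 2 * H 1 2 * e12 + H 2 2 * H 2 2 * e22)
  have t2 : T 0 2 0 2 = 0 := by
    refine (mul_eq_zero.1 (?_ : (H 0 0 * (H 1 1 * H 2 2 - H 1 2 ^ 2) - H 0 1 * (H 0 1 * H 2 2 - H 1 2 * H 0 2) +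
      H 0 2 * (H 0 1 * H 1 2 - H 1 1 * H 0 2)) * T 0 2 0 2 = 0)).resolve_left hd
    linear_combination H 1 1 / 2 * (H 0 0 * e00 + H 1 1 * e11 + H 2 2 * e22 + 2 * H 0 1 * e01 +
      2 * H 0 2 * e02 + 2 * H 1 2 * e12) -
      (H 0 1 * H 0 1 * e00 + H 0 1 * H 1 1 * e01 + H 0 1 * H 1 2 * e02 + H 1 1 * H 0 1 * e01 + H 1 1 * H 1 1 * e11 + H 1 1 * H 1 2 * e12 + H 1 2 * H 0 1 * e02 + H 1 2 * H 1 1 * e12 + H 1 2 * H 1 2 * e22)
  have t3 : T 1 2 1 2 = 0 := by
    refine (mul_eq_zero.1 (?_ : (H 0 0 * (H 1 1 * H 2 2 - H 1 2 ^ 2) - H 0 1 * (H 0 1 * H 2 2 - H 1 2 * H 0 2) +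
      H 0 2 * (H 0 1 * H 1 2 - H 1 1 * H 0 2)) * T 1 2 1 2 = 0)).resolve_left hd
    linear_combination H 0 0 / 2 * (H 0 0 * e00 + H 1 1 * e11 + H 2 2 * e22 + 2 * H 0 1 * e01 +
      2 * H 0 2 * e02 + 2 * H 1 2 * e12) -
      (H 0 0 * H 0 0 * e00 + H 0 0 * H 0 1 * e01 + H 0 0 * H 0 2 * e02 + H 0 1 * H 0 0 * e01 + H 0 1 * H 0 1 * e11 + H 0 1 * H 0 2 * e12 + H 0 2 * H 0 0 * e02 + H 0 2 * H 0 1 * e12 + H 0 2 * H 0 2 * e22)
  have t4 : T 0 1 0 2 = 0 := by
    refine (mul_eq_zero.1 (?_ : (H 0 0 * (H 1 1 * H 2 2 - H 1 2 ^ 2) - H 0 1 * (H 0 1 * H 2 2 - H 1 2 * H 0 2) +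
      H 0 2 * (H 0 1 * H 1 2 - H 1 1 * H 0 2)) * T 0 1 0 2 = 0)).resolve_left hd
    linear_combination -(H 1 2 / 2 * (H 0 0 * e00 + H 1 1 * e11 + H 2 2 * e22 + 2 * H 0 1 * e01 +
      2 * H 0 2 * e02 + 2 * H 1 2 * e12)) +
      (H 0 1 * H 0 2 * e00 + H 0 1 * H 1 2 * e01 + H 0 1 * H 2 2 * e02 + H 1 1 * H 0 2 * e01 + H 1 1 * H 1 2 * e11 + H 1 1 * H 2 2 * e12 + H 1 2 * H 0 2 * e02 + H 1 2 * H 1 2 * e12 + H 1 2 * H 2 2 * e22)
  have t5 : T 0 1 1 2 = 0 := by
    refine (mul_eq_zero.1 (?_ : (H 0 0 * (H 1 1 * H 2 2 - H 1 2 ^ 2) - H 0 1 * (H 0 1 * H 2 2 - H 1 2 * H 0 2) +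
      H 0 2 * (H 0 1 * H 1 2 - H 1 1 * H 0 2)) * T 0 1 1 2 = 0)).resolve_left hd
    linear_combination H 0 2 / 2 * (H 0 0 * e00 + H 1 1 * e11 + H 2 2 * e22 + 2 * H 0 1 * e01 +
      2 * H 0 2 * e02 + 2 * H 1 2 * e12) -
      (H 0 0 * H 0 2 * e00 + H 0 0 * H 1 2 * e01 + H 0 0 * H 2 2 * e02 + H 0 1 * H 0 2 * e01 + H 0 1 * H 1 2 * e11 + H 0 1 * H 2 2 * e12 + H 0 2 * H 0 2 * e02 + H 0 2 * H 1 2 * e12 + H 0 2 * H 2 2 * e22)
  have t6 : T 0 2 1 2 = 0 := by
    refine (mul_eq_zero.1 (?_ : (H 0 0 * (H 1 1 * H 2 2 - H 1 2 ^ 2) - H 0 1 * (H 0 1 * H 2 2 - H 1 2 * H 0 2) +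
      H 0 2 * (H 0 1 * H 1 2 - H 1 1 * H 0 2)) * T 0 2 1 2 = 0)).resolve_left hd
    linear_combination -(H 0 1 / 2 * (H 0 0 * e00 + H 1 1 * e11 + H 2 2 * e22 + 2 * H 0 1 * e01 +
      2 * H 0 2 * e02 + 2 * H 1 2 * e12)) +
      (H 0 0 * H 0 1 * e00 + H 0 0 * H 1 1 * e01 + H 0 0 * H 1 2 * e02 + H 0 1 * H 0 1 * e01 + H 0 1 * H 1 1 * e11 + H 0 1 * H 1 2 * e12 + H 0 2 * H 0 1 * e02 + H 0 2 * H 1 1 * e12 + H 0 2 * H 1 2 * e22)
  have b1 : ∀ k l, T k l 0 1 = 0 := by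
    intro k l
    fin_cases k <;> fin_cases l <;>
      simp only [Fin.zero_eta, Fin.mk_one, Fin.reduceFinMk, z1, t1, a1 1 0, a1 2 0, a1 2 1,
        pr 0 2 0 1, pr 1 2 0 1, t4, t5, neg_zero]
  have b2 : ∀ k l, T k l 0 2 = 0 := by
    intro k l
    fin_cases k <;> fin_cases l <;>
      simp only [Fin.zero_eta, Fin.mk_one, Fin.reduceFinMk, z1, t2, a1 1 0, a1 2 0, a1 2 1,
        pr 1 2 0 2, t4, t6, neg_zero]
  have b3 : ∀ k l, T k l 1 2 = 0 := by
    intro k l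
    fin_cases k <;> fin_cases l <;>
      simp only [Fin.zero_eta, Fin.mk_one, Fin.reduceFinMk, z1, t3, a1 1 0, a1 2 0, a1 2 1,
        t5, t6, neg_zero]
  fin_cases a <;> fin_cases b <;>
    simp only [Fin.zero_eta, Fin.mk_one, Fin.reduceFinMk, z2, b1, b2, b3, a2 _ _ 1 0, a2 _ _ 2 0,
      a2 _ _ 2 1, neg_zero]

theorem riem_anti (G : E → Mat) (k l a b : Fin 3) (x : E) :
    riem G k l a b x = -riem G k l b a x := by
  unfold riem
  rw [Fin.sum_univ_three, Fin.sum_univ_three]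
  ring

section

variable {U : Set E} {G : E → Mat} (hG : LM U G) {u v w f : E → ℝ} {x : E}

include hG

theorem chr_symm_fun (k a b : Fin 3) (hx : x ∈ U) :
    chr G k a b =ᶠ[𝓝 x] chr G k b a := by
  filter_upwards [hG.op.mem_nhds hx] with y hy
  exact chr_symm hG hy k a b

theorem pd_chr_symm (c k a b : Fin 3) (hx : x ∈ U) :
    pd c (chr G k a b) x = pd c (chr G k b a) x :=
  pd_congr (chr_symm_fun hG k a b hx)

theorem chr_diff (hx : x ∈ U) (k a b : Fin 3) : DifferentiableAt ℝ (chr G k a b) x :=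
  ((chr_smooth hG k a b).contDiffAt (hG.op.mem_nhds hx)).differentiableAt (by simp)

theorem G_diff (hx : x ∈ U) (a b : Fin 3) : DifferentiableAt ℝ (fun y => G y a b) x :=
  ((hG.smooth a b).contDiffAt (hG.op.mem_nhds hx)).differentiableAt (by simp)

theorem riem_cyc (hx : x ∈ U) (k l a b : Fin 3) :
    riem G k l a b x + riem G k a b l x + riem G k b l a x = 0 := by
  unfold riem
  simp only [Fin.sum_univ_three]
  rw [pd_chr_symm hG a k b l hx, pd_chr_symm hG b k a l hx, pd_chr_symm hG l k a b hx,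
    chr_symm hG hx 0 b l, chr_symm hG hx 1 b l, chr_symm hG hx 2 b l,
    chr_symm hG hx 0 a l, chr_symm hG hx 1 a l, chr_symm hG hx 2 a l,
    chr_symm hG hx 0 a b, chr_symm hG hx 1 a b, chr_symm hG hx 2 a b]
  ring

theorem ric_eq_riem (hx : x ∈ U) (a b : Fin 3) : ric G a b x = ∑ k, riem G k a k b x := by
  unfold ric riem
  refine Finset.sum_congr rfl fun k _ => ?_
  rw [pd_chr_symm hG k k a b hx, pd_chr_symm hG b k a k hx]
  congr 1
  refine Finset.sum_congr rfl fun m _ => ?_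
  rw [chr_symm hG hx m a b, chr_symm hG hx m a k]

theorem pd_pd_G (hx : x ∈ U) (a b k l : Fin 3) :
    pd a (pd b (fun y => G y k l)) x = ∑ m,
      (pd a (chr G m b k) x * G x m l + chr G m b k x * pd a (fun y => G y m l) x +
        (pd a (chr G m b l) x * G x k m + chr G m b l x * pd a (fun y => G y k m) x)) := by
  have h1 : pd b (fun y => G y k l) =ᶠ[𝓝 x] fun y => ∑ m,
      (chr G m b k y * G y m l + chr G m b l y * G y k m) := by
    filter_upwards [hG.op.mem_nhds hx] with y hy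
    exact pd_G hG hy b k l
  rw [pd_congr h1, pd_sum]
  · refine Finset.sum_congr rfl fun m _ => ?_
    have d1 : DifferentiableAt ℝ (fun y => chr G m b k y * G y m l) x :=
      (chr_diff hG hx m b k).mul (G_diff hG hx m l)
    have d2 : DifferentiableAt ℝ (fun y => chr G m b l y * G y k m) x :=
      (chr_diff hG hx m b l).mul (G_diff hG hx k m)
    rw [pd_add d1 d2, pd_mul (chr_diff hG hx m b k) (G_diff hG hx m l),
      pd_mul (chr_diff hG hx m b l) (G_diff hG hx k m)]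
  · intro m _
    exact ((chr_diff hG hx m b k).mul (G_diff hG hx m l)).add
      ((chr_diff hG hx m b l).mul (G_diff hG hx k m))

theorem rlow_anti (hx : x ∈ U) (k l a b : Fin 3) :
    rlow G k l a b x = -rlow G l k a b x := by
  have e1 := pd_pd_G hG hx a b k l
  have e2 := pd_pd_G hG hx b a k l
  rw [pd_comm hG.op (hG.smooth k l) hx] at e1
  rw [e1] at e2
  simp only [pd_G hG hx] at e2
  unfold rlow riem
  simp only [Fin.sum_univ_three] at e2 ⊢
  rw [hG.symm x hx l 0, hG.symm x hx l 1, hG.symm x hx l 2]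
  linear_combination e2

omit hG in
theorem rlow_anti' (k l a b : Fin 3) :
    rlow G k l a b x = -rlow G k l b a x := by
  unfold rlow
  rw [← Finset.sum_neg_distrib]
  refine Finset.sum_congr rfl fun m _ => ?_
  rw [riem_anti G m l a b x]
  ring

theorem rlow_cyc (hx : x ∈ U) (k l a b : Fin 3) :
    rlow G k l a b x + rlow G k a b l x + rlow G k b l a x = 0 := by
  unfold rlow
  rw [← Finset.sum_add_distrib, ← Finset.sum_add_distrib]
  refine Finset.sum_eq_zero fun m _ => ?_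
  linear_combination G x k m * riem_cyc hG hx m l a b

theorem rlow_pair (hx : x ∈ U) (k l a b : Fin 3) :
    rlow G k l a b x = rlow G a b k l x := by
  have c1 := rlow_cyc hG hx k l a b
  have c2 := rlow_cyc hG hx l a b k
  have c3 := rlow_cyc hG hx a b k l
  have c4 := rlow_cyc hG hx b k l a
  have a1 := fun k l a b => rlow_anti hG hx k l a b
  have a2 := fun k l a b => rlow_anti' (G := G) (x := x) k l a b
  have s1 := a1 l k a b
  have s2 := a1 a k b l
  have s2' := a2 a k b l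
  have s3 := a1 b k l a
  have s4 := a1 a l b k
  have s5 := a1 b l k a
  have s6 := a1 b a k l
  have t1 := a2 l k a b
  have t2 := a2 k l a b
  have t3 := a2 k a b l
  have t4 := a2 k b l a
  have t5 := a2 l a b k
  have t6 := a2 l b k a
  have t7 := a2 a b k l
  have t8 := a2 a k l b
  have t9 := a2 a l b k
  have u1 := a2 b a l k
  have u2 := a2 b k l a
  have u3 := a2 b l a k
  have v1 := a1 k a b l
  have v2 := a1 k b l a
  have v3 := a1 l a b k
  have v4 := a1 l b k a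
  have v5 := a1 a b k l
  have v6 := a1 k l a b
  linarith

theorem riem_eq_rlow (hx : x ∈ U) (k l a b : Fin 3) :
    riem G k l a b x = ∑ m, gi G x k m * rlow G m l a b x := by
  have h : ∀ n, ∑ m, gi G x k m * G x m n = if k = n then 1 else 0 := fun n => gi_mul hG hx k n
  calc riem G k l a b x = ∑ n, (if k = n then 1 else 0) * riem G n l a b x := by simp
    _ = ∑ n, (∑ m, gi G x k m * G x m n) * riem G n l a b x := by simp only [h]
    _ = _ := by
      unfold rlow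
      simp only [Fin.sum_univ_three]
      ring

theorem ric_eq_rlow (hx : x ∈ U) (a b : Fin 3) :
    ric G a b x = ∑ k, ∑ m, gi G x k m * rlow G m a k b x := by
  rw [ric_eq_riem hG hx]
  exact Finset.sum_congr rfl fun k _ => riem_eq_rlow hG hx k a k b

theorem ric_symm (hx : x ∈ U) (a b : Fin 3) : ric G a b x = ric G b a x := by
  rw [ric_eq_rlow hG hx, ric_eq_rlow hG hx, Finset.sum_comm]
  refine Finset.sum_congr rfl fun k _ => Finset.sum_congr rfl fun m _ => ?_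
  rw [gi_symm hG hx, rlow_pair hG hx]

theorem gi_det_ne (hx : x ∈ U) : gi G x 0 0 * (gi G x 1 1 * gi G x 2 2 - gi G x 1 2 ^ 2) -
      gi G x 0 1 * (gi G x 0 1 * gi G x 2 2 - gi G x 1 2 * gi G x 0 2) +
      gi G x 0 2 * (gi G x 0 1 * gi G x 1 2 - gi G x 1 1 * gi G x 0 2) ≠ 0 := by
  have h1 : (gi G x).det ≠ 0 := by
    have h2 : gi G x * G x = 1 := by
      ext a b
      rw [Matrix.mul_apply, gi_mul hG hx, Matrix.one_apply]
    intro h0
    have h3 := congrArg Matrix.det h2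
    rw [Matrix.det_mul, h0, zero_mul, Matrix.det_one] at h3
    exact zero_ne_one h3
  rw [Matrix.det_fin_three] at h1
  rw [gi_symm hG hx 1 0, gi_symm hG hx 2 0, gi_symm hG hx 2 1] at h1
  intro h0
  apply h1
  linear_combination h0

/-- in dimension three the Riemann tensor is determined by the Ricci tensor -/
theorem riem_of_ric (hx : x ∈ U) (c : ℝ) (h : ∀ a b, ric G a b x = 2 * c * G x a b)
    (k l a b : Fin 3) : riem G k l a b x =
      c * ((if k = a then G x b l else 0) - (if k = b then G x a l else 0)) := by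
  have key : ∀ k l a b, rlow G k l a b x - c * (G x k a * G x l b - G x k b * G x l a) = 0 := by
    refine alg3 (gi G x) (fun k l a b => rlow G k l a b x -
      c * (G x k a * G x l b - G x k b * G x l a)) (gi_symm hG hx) (gi_det_ne hG hx) ?_ ?_ ?_ ?_
    · intro k l a b
      rw [rlow_anti hG hx k l a b]
      ring
    · intro k l a b
      rw [rlow_anti' k l a b]
      ring
    · intro k l a b
      rw [rlow_pair hG hx k l a b, hG.symm x hx k a, hG.symm x hx l b, hG.symm x hx k b,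
        hG.symm x hx l a]
      ring
    · intro a b
      have e1 := ric_eq_rlow hG hx a b
      rw [h a b] at e1
      have e2 : ∀ k n, ∑ m, gi G x k m * G x m n = if k = n then 1 else 0 :=
        fun k n => gi_mul hG hx k n
      have e3 : ∑ k, ∑ m, gi G x k m * (rlow G m a k b x -
          c * (G x m k * G x a b - G x m b * G x a k)) =
          ∑ k, ∑ m, gi G x k m * rlow G m a k b x - c * (∑ k, (∑ m, gi G x k m * G x m k) *
            G x a b - ∑ k, (∑ m, gi G x k m * G x m b) * G x a k) := by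
        simp only [Fin.sum_univ_three]
        ring
      rw [e3, ← e1]
      simp only [e2, if_true, Finset.sum_const, Finset.card_univ, Fintype.card_fin, ite_mul,
        one_mul, zero_mul, Finset.sum_ite_eq', Finset.mem_univ, nsmul_eq_mul]
      push_cast
      ring
  rw [riem_eq_rlow hG hx]
  have e4 : ∀ m, rlow G m l a b x = c * (G x m a * G x l b - G x m b * G x l a) := fun m => by
    linarith [key m l a b]
  have e2 : ∀ k n, ∑ m, gi G x k m * G x m n = if k = n then 1 else 0 :=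
    fun k n => gi_mul hG hx k n
  simp only [e4]
  have e5 : ∑ m, gi G x k m * (c * (G x m a * G x l b - G x m b * G x l a)) =
      c * ((∑ m, gi G x k m * G x m a) * G x b l - (∑ m, gi G x k m * G x m b) * G x a l) := by
    rw [hG.symm x hx b l, hG.symm x hx a l]
    simp only [Fin.sum_univ_three]
    ring
  rw [e5, e2, e2]
  simp only [ite_mul, one_mul, zero_mul]

end

end YR
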